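import Pool.Agent.Lib.MP_36fb39_al.AB1

set_option autoImplicit false

namespace Pool.Agent.Lib.MP_36fb39_al

variable {B : Type*} [CommGroup B] {L : Type*} [CompleteLattice L] [IsModularLattice L]
  [IsCompactlyGenerated L] [IsAtomistic L] {τ : B →* (L ≃o L)} {k a b : L} {r e d : ℕ}

omit [IsModularLattice L] [IsCompactlyGenerated L] [IsAtomistic L] in
theorem ab_map_tr (α : MulAut B) (ψ : L ≃o L) (hψ : ∀ b q, ψ (τ b q) = τ (α b) (ψ q))
    (S : Set B) (u : L) : ψ (tr τ S u) = tr τ {c | α⁻¹ c ∈ S} (ψ u) := by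
  refine le_antisymm ?_ (tr_le_iff.2 fun c hc => ?_)
  · rw [← ψ.le_symm_apply]
    refine tr_le_iff.2 fun c hc => ?_
    rw [ψ.le_symm_apply, hψ]
    exact le_tr (S := {c | α⁻¹ c ∈ S}) (by simpa using hc) _
  · have : τ c (ψ u) = ψ (τ (α⁻¹ c) u) := by rw [hψ]; simp
    rw [this]
    exact ψ.monotone (le_tr (S := S) (g := α⁻¹ c) hc u)

/-- The abelian control theorem. -/
theorem control (hB : PZ r (⊤ : Subgroup B)) (hk : IsCompactElement k) (α : MulAut B)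
    (ψ : L ≃o L) (hψ : ∀ b q, ψ (τ b q) = τ (α b) (ψ q)) (hψk : ψ k = k)
    (hge : Ge τ ⊤ e ⊥ (span τ ⊤ k)) (hd : Dep τ ⊥ (e + 1) k)
    (h₁ : ∀ K : Subgroup B, Sat K ⊤ → ∀ j : ℕ, 0 < j → (∀ b, b ∈ K ↔ (α ^ j) b ∈ K) →
      ∀ b, b ∈ K ↔ α b ∈ K)
    (h₂ : ∀ φ : B → ℤ, IsHomOn ⊤ φ → ∀ j : ℕ, 0 < j → (∀ b, φ ((α ^ j) b) = φ b) →
      ∀ b, φ b = 0) :
    ∃ π : B → (Fin e → ℤ), IsHomOn ⊤ π ∧ Function.Surjective π ∧
      (∀ b, π b = 0 ↔ π (α b) = 0) ∧ ¬ k ≤ tr τ {c | π c ≠ 0} k := by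
  classical
  obtain ⟨π₀, hπ₀, hs₀, hn₀⟩ := lift_lex hB hk Fx.bot (by rwa [bot_sup_eq])
  rw [bot_sup_eq] at hn₀
  obtain ⟨K, hK⟩ := hπ₀.exists_ker
  have hK' : ∀ b, b ∈ K ↔ π₀ b = 0 := fun b => by simp [hK]
  have hsurj : Function.Surjective π₀ := fun v => by
    obtain ⟨c, -, hc⟩ := hs₀ v
    exact ⟨c, hc⟩
  have hKp : PZ r K := hB.sub le_top
  have hnz : ∀ g ∈ (⊤ : Subgroup B), Nz g K := fun g _ => ab_nz g K
  obtain ⟨X, _, _, _, π, ι, act, hL⟩ := exists_lev (ρ := τ) hKp.nice.ex hKp.nice.noeth 0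
    Fx.bot Fx.top bot_le ⊤ hnz Fx.bot Fx.top
  obtain ⟨τ', hτ'⟩ := exists_lift_hom hπ₀ hs₀ act (fun g hg => hL.act_triv g ((hK' g).2 hg))
  have hin : ∀ u, Fx τ K u → In τ K ⊥ ⊤ u := fun u hu => ⟨hu, bot_le, le_top⟩
  have hιπ : ∀ u, Fx τ K u → ι (π u) = u := fun u hu => by
    have h1 := hL.not_ge_ι_π (hin u hu)
    rw [ge_zero_iff] at h1
    exact ((hL.le_ι_π (hin u hu)).eq_or_lt.resolve_right h1).symm
  have hπle : ∀ u v, Fx τ K u → Fx τ K v → (π u ≤ π v ↔ u ≤ v) := fun u v hu hv => by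
    rw [hL.gc _ _ (hin u hu), hιπ v hv]
  have hu₀ : Fx τ K (span τ K k) := fx_span K k
  set Y := π (span τ K k) with hY
  have hwf : WellFoundedGT (Set.Iic Y) := by
    have := hL.wfGT hKp.nice.noeth Fx.bot Fx.top hk le_top
    rwa [bot_sup_eq] at this
  have hstab : ∀ S : Set (Multiplicative (Fin e → ℤ)), ∀ g ∈ K,
      ∀ c ∈ {c | Multiplicative.ofAdd (π₀ c) ∈ S},
        g * c ∈ {c | Multiplicative.ofAdd (π₀ c) ∈ S} := fun S g hg c hc => by
    change Multiplicative.ofAdd (π₀ (g * c)) ∈ S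
    rw [hπ₀ g trivial c trivial, (hK' g).1 hg, zero_add]
    exact hc
  have htr : ∀ S : Set (Multiplicative (Fin e → ℤ)),
      tr τ' S Y = π (tr τ {c | Multiplicative.ofAdd (π₀ c) ∈ S} k) := by
    intro S
    have h1 := hL.π_tr hnz Fx.bot Fx.top Fx.bot (hin _ hu₀)
      {g : (⊤ : Subgroup B) | Multiplicative.ofAdd (π₀ g) ∈ S}
    have h2 : Subtype.val '' {g : (⊤ : Subgroup B) | Multiplicative.ofAdd (π₀ g) ∈ S} =
        {c | Multiplicative.ofAdd (π₀ c) ∈ S} := by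
      ext c
      constructor
      · rintro ⟨g, hg, rfl⟩
        exact hg
      · exact fun hc => ⟨⟨c, trivial⟩, hc, rfl⟩
    rw [h2, bot_sup_eq, tr_span (fun c hc g hg => by rw [mul_comm]; exact hstab S g hg c hc)] at h1
    rw [h1]
    refine le_antisymm (tr_le_iff.2 fun b hb => ?_) (tr_le_iff.2 fun g hg => ?_)
    · obtain ⟨c, hc⟩ := hsurj (Multiplicative.toAdd b)
      have h3 : Multiplicative.ofAdd (π₀ c) = b := by rw [hc, ofAdd_toAdd]
      rw [← h3, hτ' ⟨c, trivial⟩]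
      exact le_tr (S := {g : (⊤ : Subgroup B) | Multiplicative.ofAdd (π₀ g) ∈ S})
        (show Multiplicative.ofAdd (π₀ c) ∈ S from h3 ▸ hb) _
    · rw [← hτ' g]
      exact le_tr (S := S) (g := Multiplicative.ofAdd (π₀ g)) hg _
  have hiff : ∀ S : Set (Multiplicative (Fin e → ℤ)),
      Y ≤ tr τ' S Y ↔ k ≤ tr τ {c | Multiplicative.ofAdd (π₀ c) ∈ S} k := fun S => by
    rw [htr, hY, hπle _ _ hu₀ (fx_tr (hstab S) k)]
    exact ⟨fun h => (le_span K k).trans h, fun h => span_le (fx_tr (hstab S) k) h⟩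
  obtain ⟨E, hE, hloc⟩ := grob_loc (τ := τ') hwf (cone_lex e)
  obtain ⟨χ, hχ, hχE⟩ := exists_real_approx (E.image Multiplicative.toAdd) (fun v hv => by
    obtain ⟨b, hb, rfl⟩ := Finset.mem_image.1 hv
    exact hE hb)
  have hnY : ¬ Y ≤ tr τ' {b | 0 < χ (Multiplicative.toAdd b)} Y := by
    intro hle
    have h1 := hloc _ (cone_real χ hχ) (fun b hb => hχE _ (Finset.mem_image_of_mem _ hb))
    rw [inf_eq_left.2 hle] at h1
    refine hn₀ (((hiff _).1 (h1.le.trans inf_le_right)).trans (tr_mono ?_ le_rfl))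
    exact fun c hc => ⟨trivial, hc⟩
  have hnk : ¬ k ≤ tr τ {c | 0 < χ (π₀ c)} k := fun h => hnY ((hiff _).2 h)
  -- the orbit of the kernel is finite
  have hFG : Group.FG B := Group.fg_def.2 hB.pc.fg
  have hfin := finite_kernels (τ := τ) hk hd
  have hmem : ∀ n : ℕ, K.comap (α⁻¹ ^ n).toMonoidHom ∈
      {K : Subgroup B | (∃ π : B → (Fin e → ℤ), IsHomOn ⊤ π ∧ Function.Surjective π ∧
      ∀ b, b ∈ K ↔ π b = 0) ∧ ∃ χ : B → ℝ, IsHomOn ⊤ χ ∧ (∀ b, b ∈ K ↔ χ b = 0) ∧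
      ¬ k ≤ tr τ {c | 0 < χ c} k} := by
    intro n
    refine ⟨⟨fun b => π₀ ((α⁻¹ ^ n) b), fun a _ b _ => by
      simp only [map_mul]
      exact hπ₀ _ trivial _ trivial, hsurj.comp (α⁻¹ ^ n).surjective, fun b => hK' _⟩,
      fun b => χ (π₀ ((α⁻¹ ^ n) b)), fun a _ b _ => by
        simp only [map_mul]
        rw [hπ₀ _ trivial _ trivial, map_add], fun b => ?_, ?_⟩
    · refine (hK' _).trans ⟨fun h => ?_, fun h => hχ (h.trans (map_zero χ).symm)⟩
      change π₀ ((α⁻¹ ^ n) b) = 0 at h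
      simp only [h, map_zero]
    · induction n with
      | zero => simpa using hnk
      | succ n ih =>
        intro h
        apply ih
        rw [← ψ.le_iff_le, ab_map_tr α ψ hψ, hψk]
        refine h.trans (tr_mono (fun c hc => ?_) le_rfl)
        simpa [pow_succ] using hc
  obtain ⟨i, j, hij, hKij⟩ := Set.Finite.exists_lt_map_eq_of_forall_mem hmem hfin
  have hsat : Sat K ⊤ := hπ₀.sat (fun n v hn hv => by
    rcases smul_eq_zero.1 hv with h | h
    · omega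
    · exact h) hK
  have hKα : ∀ b, b ∈ K ↔ α b ∈ K := by
    refine h₁ K hsat (j - i) (by omega) fun b => ?_
    have h1 := SetLike.ext_iff.1 hKij ((α ^ j) b)
    simp only [Subgroup.mem_comap, MulEquiv.toMonoidHom_eq_coe, MonoidHom.coe_coe] at h1
    have h2 : (α⁻¹ ^ j) ((α ^ j) b) = b := by
      rw [← MulAut.mul_apply, inv_pow, inv_mul_cancel, MulAut.one_apply]
    have h3 : (α⁻¹ ^ i) ((α ^ j) b) = (α ^ (j - i)) b := by
      obtain ⟨m, rfl⟩ := Nat.exists_eq_add_of_le hij.le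
      rw [← MulAut.mul_apply, inv_pow, pow_add, inv_mul_cancel_left, Nat.add_sub_cancel_left]
    rw [h2, h3] at h1
    exact h1.symm
  have hfxψ : ∀ u, Fx τ K u → Fx τ K (ψ u) := fun u hu g hg => by
    have h1 : α (α⁻¹ g) = g := by simp
    rw [← h1, ← hψ, hu _ ((hKα _).2 (by rwa [h1]))]
  have hfxψ' : ∀ u, Fx τ K u → Fx τ K (ψ.symm u) := fun u hu g hg => by
    apply ψ.injective
    rw [hψ, ψ.apply_symm_apply, hu _ ((hKα g).1 hg)]
  let ψ' : X ≃o X :=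
    { toFun := fun q => π (ψ (ι q))
      invFun := fun q => π (ψ.symm (ι q))
      left_inv := fun q => by
        simp only
        rw [hιπ _ (hfxψ _ (hL.ι_in q).inv), ψ.symm_apply_apply, hL.π_ι]
      right_inv := fun q => by
        simp only
        rw [hιπ _ (hfxψ' _ (hL.ι_in q).inv), ψ.apply_symm_apply, hL.π_ι]
      map_rel_iff' := fun {q q'} => by
        simp only [Equiv.coe_fn_mk]
        rw [hπle _ _ (hfxψ _ (hL.ι_in q).inv) (hfxψ _ (hL.ι_in q').inv), ψ.le_iff_le,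
          hL.ι_le_iff] }
  have hψ'e : ∀ q, ψ' q = π (ψ (ι q)) := fun q => rfl
  obtain ⟨α', hα'⟩ := exists_lift_aut hπ₀ hs₀ α (fun g => by simp)
    (fun g _ => by rw [← hK', ← hK', hKα])
  have hαj : ∀ (j : ℕ) g, (α' ^ j) (Multiplicative.ofAdd (π₀ g)) =
      Multiplicative.ofAdd (π₀ ((α ^ j) g)) := by
    intro j
    induction j with
    | zero => intro g; simp
    | succ j ih =>
      intro g
      rw [pow_succ', MulAut.mul_apply, ih g, hα' _ trivial, pow_succ', MulAut.mul_apply]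
  have hfinal := not_le_tr_of_aperiodic (τ := τ') hwf α' ψ' (fun b q => by
      obtain ⟨c, hc⟩ := hsurj (Multiplicative.toAdd b)
      have h3 : Multiplicative.ofAdd (π₀ c) = b := by rw [hc, ofAdd_toAdd]
      rw [← h3, hα' c trivial, hτ' ⟨c, trivial⟩, hτ' ⟨α c, trivial⟩, hψ'e, hψ'e,
        hL.ι_act hnz Fx.bot Fx.top, hL.act_π _ _ (hin _ (hfxψ _ (hL.ι_in q).inv)), hψ])
    (by
      rw [hψ'e, hY, hιπ _ hu₀, span, ab_map_tr α ψ hψ, hψk]
      congr 2
      ext c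
      simpa using (hKα (α⁻¹ c)))
    (fun b j hj hb => by
      by_contra hne
      obtain ⟨φ, hφ, ⟨c, hc⟩, hinv⟩ := exists_inv_functional (α' ^ j) hne hb
      obtain ⟨g, hg⟩ := hsurj (Multiplicative.toAdd c)
      have := h₂ (fun g => φ (Multiplicative.ofAdd (π₀ g))) (fun a _ b _ => by
        simp only [hπ₀ a trivial b trivial, ofAdd_add]
        exact hφ _ trivial _ trivial) j hj (fun g => by simp only [← hαj, hinv]) g
      simp only [hg, ofAdd_toAdd] at this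
      exact hc this) χ hχ hnY
  refine ⟨π₀, hπ₀, hsurj, fun b => by rw [← hK', ← hK', hKα], fun h => hfinal ((hiff _).2 ?_)⟩
  refine h.trans (tr_mono (fun c hc => ?_) le_rfl)
  simpa using hc

end Pool.Agent.Lib.MP_36fb39_al
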