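import Pool.Agent.Lib.MP_36fb39_al.Lat

set_option autoImplicit false

namespace Pool.Agent.Lib.MP_36fb39_al

theorem bs_exists_delta {α : Type*} (E : Finset α) (f : α → ℝ) (h : ∀ e ∈ E, 0 < f e) :
    ∃ δ > 0, ∀ e ∈ E, δ < f e := by
  rcases E.eq_empty_or_nonempty with rfl | hE
  · exact ⟨1, one_pos, fun e he => absurd he (Finset.notMem_empty e)⟩
  · obtain ⟨e0, he0, hmin⟩ := E.exists_min_image f hE
    have := h e0 he0
    exact ⟨f e0 / 2, by positivity, fun e he => by linarith [hmin e he]⟩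

/-- pairing of a real vector with an integer vector. -/
noncomputable def bsIp {r : ℕ} (w : Fin r → ℝ) (v : Fin r → ℤ) : ℝ := ∑ i, w i * (v i : ℝ)

/-- squared Euclidean norm of an integer vector. -/
def bsN {r : ℕ} (v : Fin r → ℤ) : ℕ := ∑ i, (v i).natAbs ^ 2

theorem bsIp_add {r : ℕ} (w : Fin r → ℝ) (u v : Fin r → ℤ) :
    bsIp w (u + v) = bsIp w u + bsIp w v := by
  simp only [bsIp, Pi.add_apply, Int.cast_add, mul_add, Finset.sum_add_distrib]

theorem bsIp_neg {r : ℕ} (w : Fin r → ℝ) (v : Fin r → ℤ) : bsIp w (-v) = -bsIp w v := by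
  simp only [bsIp, Pi.neg_apply, Int.cast_neg, mul_neg, Finset.sum_neg_distrib]

theorem bsIp_single {r : ℕ} (w : Fin r → ℝ) (i : Fin r) : bsIp w (Pi.single i 1) = w i := by
  rw [bsIp, Finset.sum_eq_single i]
  · simp
  · intro j _ hj
    simp [Pi.single_eq_of_ne hj]
  · intro h
    exact absurd (Finset.mem_univ i) h

theorem bsIp_smul {r : ℕ} (c : ℝ) (w : Fin r → ℝ) (v : Fin r → ℤ) :
    bsIp (c • w) v = c * bsIp w v := by
  simp only [bsIp, Pi.smul_apply, smul_eq_mul, Finset.mul_sum, mul_assoc]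

theorem bsIp_continuous {r : ℕ} (v : Fin r → ℤ) : Continuous fun w : Fin r → ℝ => bsIp w v := by
  unfold bsIp
  fun_prop

theorem bsN_cast {r : ℕ} (v : Fin r → ℤ) : (bsN v : ℝ) = ∑ i, (v i : ℝ) ^ 2 := by
  simp only [bsN, Nat.cast_sum, Nat.cast_pow, Nat.cast_natAbs, Int.cast_abs, sq_abs]

theorem bsN_add {r : ℕ} (b e : Fin r → ℤ) :
    (bsN (b + e) : ℝ) = bsN b + 2 * bsIp (fun i => (b i : ℝ)) e + bsN e := by
  simp only [bsN_cast, bsIp, Pi.add_apply, Int.cast_add, Finset.mul_sum, ← Finset.sum_add_distrib]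
  exact Finset.sum_congr rfl fun i _ => by ring

theorem bs_exchange {L : Type*} [Lattice L] [OrderBot L] [IsModularLattice L] {p q R : L}
    (hq : IsAtom q) (h : p ≤ R ⊔ q) (hn : ¬ p ≤ R) : q ≤ R ⊔ p := by
  have e : (R ⊔ q) ⊓ (R ⊔ p) = R ⊔ q ⊓ (R ⊔ p) := sup_inf_assoc_of_le q le_sup_left
  rcases (hq.le_iff).1 (inf_le_left : q ⊓ (R ⊔ p) ≤ q) with h0 | h0
  · rw [h0, sup_bot_eq] at e
    exact absurd (e ▸ le_inf h le_sup_right) hn
  · exact h0 ▸ inf_le_right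

variable {B : Type*} [CommGroup B] {L : Type*} [CompleteLattice L] [IsModularLattice L]
  [IsCompactlyGenerated L] {τ : B →* (L ≃o L)} {k : L}

omit [IsModularLattice L] [IsCompactlyGenerated L] in
theorem bs_local {r : ℕ} (s : (Fin r → ℤ) → B) (hs : ∀ u v, s (u + v) = s u * s v)
    (hsurj : Function.Surjective s) (hk : IsCompactElement k)
    (h : ∀ χ : B → ℝ, IsHomOn ⊤ χ → (∃ b, χ b ≠ 0) → k ≤ tr τ {c | 0 < χ c} k)
    (w : Fin r → ℝ) (hw : w ≠ 0) :
    ∃ E : Finset (Fin r → ℤ), k ≤ tr τ (s '' (E : Set (Fin r → ℤ))) k ∧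
      ∀ e ∈ E, 0 < bsIp w e := by
  classical
  have hs0 : s 0 = 1 := by
    have := hs 0 0
    rw [add_zero] at this
    exact left_eq_mul.1 this
  have hsneg : ∀ v, s (-v) = (s v)⁻¹ := by
    intro v
    have := hs v (-v)
    rw [add_neg_cancel, hs0] at this
    exact eq_inv_of_mul_eq_one_right this.symm
  have single : ∀ v, s v = 1 → 0 < bsIp w v → ∃ E : Finset (Fin r → ℤ),
      k ≤ tr τ (s '' (E : Set (Fin r → ℤ))) k ∧ ∀ e ∈ E, 0 < bsIp w e := by
    intro v h1 h2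
    refine ⟨{v}, ?_, fun e he => by rw [Finset.mem_singleton.1 he]; exact h2⟩
    have := le_tr (ρ := τ) (S := s '' (({v} : Finset (Fin r → ℤ)) : Set (Fin r → ℤ))) (g := 1)
      ⟨v, by simp, h1⟩ k
    rwa [act_one] at this
  by_cases hker : ∃ v, s v = 1 ∧ bsIp w v ≠ 0
  · obtain ⟨v, h1, h2⟩ := hker
    rcases lt_or_gt_of_ne h2 with h3 | h3
    · exact single (-v) (by rw [hsneg, h1, inv_one]) (by rw [bsIp_neg]; linarith)
    · exact single v h1 h3
  · push Not at hker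
    have key : ∀ u v, s u = s v → bsIp w u = bsIp w v := by
      intro u v e
      have := hker (u + -v) (by rw [hs, hsneg, e, mul_inv_cancel])
      rw [bsIp_add, bsIp_neg] at this
      linarith
    choose σ hσ using hsurj
    have hχ : IsHomOn ⊤ (fun b => bsIp w (σ b)) := fun a _ b _ => by
      rw [← bsIp_add]
      exact key _ _ (by rw [hs, hσ, hσ, hσ])
    obtain ⟨i, hi⟩ := Function.ne_iff.1 hw
    have h1 := h _ hχ ⟨s (Pi.single i 1), by
      rw [key _ _ (hσ _), bsIp_single]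
      exact hi⟩
    obtain ⟨F, hF, h2⟩ := exists_finset_of_le_tr (a := ⊥) hk (by rw [bot_sup_eq]; exact h1)
    rw [bot_sup_eq] at h2
    refine ⟨F.image σ, h2.trans (tr_mono (fun b hb => ⟨σ b, ?_, hσ b⟩) le_rfl), fun e he => ?_⟩
    · exact Finset.mem_coe.2 (Finset.mem_image_of_mem σ hb)
    · obtain ⟨b, hb, rfl⟩ := Finset.mem_image.1 he
      exact hF hb

omit [IsModularLattice L] [IsCompactlyGenerated L] in
theorem bs_uniform {r : ℕ} (s : (Fin r → ℤ) → B)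
    (h : ∀ w : Fin r → ℝ, w ≠ 0 → ∃ E : Finset (Fin r → ℤ),
      k ≤ tr τ (s '' (E : Set (Fin r → ℤ))) k ∧ ∀ e ∈ E, 0 < bsIp w e) :
    ∃ δ > 0, ∃ M : ℝ, ∀ w ∈ Metric.sphere (0 : Fin r → ℝ) 1, ∃ E : Finset (Fin r → ℤ),
      k ≤ tr τ (s '' (E : Set (Fin r → ℤ))) k ∧ ∀ e ∈ E, δ ≤ bsIp w e ∧ (bsN e : ℝ) ≤ M := by
  refine (isCompact_sphere (0 : Fin r → ℝ) 1).induction_on
    (p := fun W => ∃ δ > 0, ∃ M : ℝ, ∀ w ∈ W, ∃ E : Finset (Fin r → ℤ),
      k ≤ tr τ (s '' (E : Set (Fin r → ℤ))) k ∧ ∀ e ∈ E, δ ≤ bsIp w e ∧ (bsN e : ℝ) ≤ M)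
    ⟨1, one_pos, 0, fun w hw => absurd hw (Set.notMem_empty w)⟩ ?_ ?_ ?_
  · rintro W W' hW ⟨δ, hδ, M, hM⟩
    exact ⟨δ, hδ, M, fun w hw => hM w (hW hw)⟩
  · rintro W W' ⟨δ, hδ, M, hM⟩ ⟨δ', hδ', M', hM'⟩
    refine ⟨min δ δ', lt_min hδ hδ', max M M', fun w hw => ?_⟩
    rcases hw with hw | hw
    · obtain ⟨E, h1, h2⟩ := hM w hw
      exact ⟨E, h1, fun e he => ⟨(min_le_left _ _).trans (h2 e he).1,
        (h2 e he).2.trans (le_max_left _ _)⟩⟩
    · obtain ⟨E, h1, h2⟩ := hM' w hw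
      exact ⟨E, h1, fun e he => ⟨(min_le_right _ _).trans (h2 e he).1,
        (h2 e he).2.trans (le_max_right _ _)⟩⟩
  · intro w0 hw0
    have hne : w0 ≠ 0 := by
      rintro rfl
      simp at hw0
    obtain ⟨E, h1, h2⟩ := h w0 hne
    obtain ⟨δ, hδ, h3⟩ := bs_exists_delta E _ h2
    refine ⟨{w | ∀ e ∈ E, δ < bsIp w e}, mem_nhdsWithin_of_mem_nhds ?_, δ, hδ,
      ∑ e ∈ E, (bsN e : ℝ), fun w hw => ⟨E, h1, fun e he => ⟨(hw e he).le, ?_⟩⟩⟩
    · refine (Filter.eventually_all_finset E).2 fun e he => ?_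
      exact (isOpen_lt continuous_const (bsIp_continuous e)).mem_nhds (h3 e he)
    · exact Finset.single_le_sum (f := fun e => (bsN e : ℝ)) (fun _ _ => Nat.cast_nonneg _) he

omit [IsModularLattice L] [IsCompactlyGenerated L] in
/-- Bieri-Strebel finiteness criterion. -/
theorem compact_span_of_forall_char [Group.FG B] (hk : IsCompactElement k)
    (h : ∀ χ : B → ℝ, IsHomOn ⊤ χ → (∃ b, χ b ≠ 0) → k ≤ tr τ {c | 0 < χ c} k) :
    IsCompactElement (span τ ⊤ k) := by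
  classical
  have : Module.Finite ℤ (Additive B) := Module.Finite.iff_addGroup_fg.2 inferInstance
  obtain ⟨r, f, hf⟩ := Module.Finite.exists_fin' ℤ (Additive B)
  let s : (Fin r → ℤ) → B := fun v => Additive.toMul (f v)
  have hs : ∀ u v, s (u + v) = s u * s v := fun u v => by simp only [s, map_add, toMul_add]
  have hsurj : Function.Surjective s := fun b => by
    obtain ⟨v, hv⟩ := hf (Additive.ofMul b)
    exact ⟨v, by simp only [s, hv, toMul_ofMul]⟩
  obtain ⟨δ, hδ, M, hM⟩ := bs_uniform s (bs_local s hs hsurj hk h)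
  obtain ⟨R, hR⟩ := exists_nat_gt (|M| / (2 * δ))
  let F : Finset B := (Finset.Icc (fun _ => -(R : ℤ)) (fun _ => (R : ℤ))).image s
  have key : ∀ n : ℕ, ∀ b : Fin r → ℤ, bsN b = n → τ (s b) k ≤ tr τ (F : Set B) k := by
    intro n
    induction n using Nat.strong_induction_on with
    | _ n ih =>
      intro b hb
      let b' : Fin r → ℝ := fun i => (b i : ℝ)
      by_cases hsm : ‖b'‖ ≤ R
      · refine le_tr (Finset.mem_coe.2 (Finset.mem_image_of_mem s (Finset.mem_Icc.2 ?_))) k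
        have h1 : ∀ i, |b i| ≤ (R : ℤ) := fun i => by
          have := (norm_le_pi_norm b' i).trans hsm
          rw [Real.norm_eq_abs] at this
          have h0 : |((b i : ℤ) : ℝ)| ≤ (R : ℝ) := this
          exact_mod_cast h0
        exact ⟨fun i => (abs_le.1 (h1 i)).1, fun i => (abs_le.1 (h1 i)).2⟩
      · push Not at hsm
        have hpos : 0 < ‖b'‖ := lt_of_le_of_lt (Nat.cast_nonneg R) hsm
        obtain ⟨E, h1, h2⟩ := hM ((-‖b'‖⁻¹) • b') (by
          rw [mem_sphere_zero_iff_norm, norm_smul, norm_neg, norm_inv, norm_norm,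
            inv_mul_cancel₀ hpos.ne'])
        refine ((τ (s b)).monotone h1).trans ?_
        rw [act_tr, tr_le_iff]
        rintro _ ⟨_, ⟨e, he, rfl⟩, rfl⟩
        obtain ⟨h3, h4⟩ := h2 e he
        change τ (s b * s e) k ≤ _
        rw [← hs]
        refine ih (bsN (b + e)) ?_ _ rfl
        rw [← hb]
        have h5 : bsIp b' e ≤ -(δ * ‖b'‖) := by
          rw [bsIp_smul, neg_mul, inv_mul_eq_div, le_neg, div_le_iff₀ hpos] at h3
          linarith
        have h6 : |M| < 2 * δ * ‖b'‖ := by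
          have := hR.trans hsm
          rw [div_lt_iff₀ (by positivity)] at this
          linarith
        have h7 := bsN_add b e
        have h8 : (bsN (b + e) : ℝ) < bsN b := by
          have := le_abs_self M
          change (bsN (b + e) : ℝ) = bsN b + 2 * bsIp b' e + bsN e at h7
          linarith
        exact_mod_cast h8
  have : span τ ⊤ k = tr τ (F : Set B) k := by
    refine le_antisymm (tr_le_iff.2 fun g _ => ?_) (tr_mono (fun _ _ => Subgroup.mem_top _) le_rfl)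
    obtain ⟨b, rfl⟩ := hsurj g
    exact key _ b rfl
  rw [this]
  exact compact_tr_finset F hk

theorem bs_circuit_atom {p : L} (hp : IsAtom p) (U : Subgroup B)
    (hU : p ≤ tr τ ((U : Set B) \ {1}) p) :
    ∃ E : Finset B, (∀ ε ∈ E, ε ∈ U ∧ ε ≠ 1) ∧ ∀ χ : B → ℝ, IsHomOn ⊤ χ →
      (∀ ε ∈ E, χ ε ≠ 0) → p ≤ tr τ {c | 0 < χ c} p := by
  classical
  have hex : ∃ n, ∃ F : Finset B, F.card = n ∧ (F : Set B) ⊆ (U : Set B) \ {1} ∧
      p ≤ tr τ (F : Set B) p := by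
    obtain ⟨F, hF, h2⟩ := exists_finset_of_le_tr (a := ⊥) (compact_of_isAtom hp)
      (by rw [bot_sup_eq]; exact hU)
    rw [bot_sup_eq] at h2
    exact ⟨_, F, rfl, hF, h2⟩
  obtain ⟨F, hcard, hF, hle⟩ := Nat.find_spec hex
  have hmin : ∀ c ∈ F, ¬ p ≤ tr τ (F.erase c : Finset B) p := by
    intro c hc hle'
    have h1 : Nat.find hex ≤ (F.erase c).card :=
      Nat.find_min' hex ⟨F.erase c, rfl, (Finset.coe_subset.2 (F.erase_subset c)).trans hF, hle'⟩
    have h2 := Finset.card_erase_lt_of_mem hc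
    omega
  let C : Finset B := insert 1 F
  have hCU : ∀ c ∈ C, c ∈ U := by
    intro c hc
    rcases Finset.mem_insert.1 hc with rfl | hc
    · exact U.one_mem
    · exact (hF hc).1
  have hC : ∀ c ∈ C, τ c p ≤ tr τ {c' | c' ∈ C ∧ c' ≠ c} p := by
    intro c hc
    rcases Finset.mem_insert.1 hc with rfl | hc
    · rw [act_one]
      exact hle.trans (tr_mono (fun c hc => ⟨Finset.mem_insert_of_mem hc, (hF hc).2⟩) le_rfl)
    · have h1 : p ≤ tr τ (F.erase c : Finset B) p ⊔ τ c p := by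
        refine hle.trans (tr_le_iff.2 fun g hg => ?_)
        by_cases e : g = c
        · rw [e]; exact le_sup_right
        · exact le_sup_of_le_left (le_tr (Finset.mem_coe.2 (Finset.mem_erase.2 ⟨e, hg⟩)) p)
      refine (bs_exchange (((τ c).isAtom_iff p).2 hp) h1 (hmin c hc)).trans (sup_le ?_ ?_)
      · refine tr_mono (fun g hg => ?_) le_rfl
        obtain ⟨h2, h3⟩ := Finset.mem_erase.1 hg
        exact ⟨Finset.mem_insert_of_mem h3, h2⟩
      · have := le_tr (ρ := τ) (S := {c' | c' ∈ C ∧ c' ≠ c}) (g := 1)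
          ⟨Finset.mem_insert_self 1 F, fun e => (hF hc).2 e.symm⟩ p
        rwa [act_one] at this
  refine ⟨C.offDiag.image fun x => x.1⁻¹ * x.2, fun ε hε => ?_, fun χ hχ hne => ?_⟩
  · obtain ⟨x, hx, rfl⟩ := Finset.mem_image.1 hε
    obtain ⟨h1, h2, h3⟩ := Finset.mem_offDiag.1 hx
    exact ⟨U.mul_mem (U.inv_mem (hCU _ h1)) (hCU _ h2), fun e => h3 (inv_mul_eq_one.1 e)⟩
  · obtain ⟨c, hc, hcmin⟩ := C.exists_min_image χ ⟨1, Finset.mem_insert_self 1 F⟩
    have h1 := (τ c⁻¹).monotone (hC c hc)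
    rw [act_inv_act, act_tr] at h1
    refine h1.trans (tr_mono ?_ le_rfl)
    rintro _ ⟨c', ⟨h2, h3⟩, rfl⟩
    have h4 := hne (c⁻¹ * c') (Finset.mem_image.2
      ⟨(c, c'), Finset.mem_offDiag.2 ⟨hc, h2, h3.symm⟩, rfl⟩)
    have h5 : χ (c⁻¹ * c') = -χ c + χ c' := by
      rw [hχ _ (Subgroup.mem_top _) _ (Subgroup.mem_top _), hχ.inv (Subgroup.mem_top _)]
    have h6 := hcmin c' h2
    change 0 < χ (c⁻¹ * c')
    exact lt_of_le_of_ne (by linarith) h4.symm

/-- circuits of atoms. -/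
theorem exists_circuit [IsAtomistic L] (hk : IsCompactElement k) (U : Subgroup B)
    (hU : ∀ p, IsAtom p → p ≤ k → p ≤ tr τ ((U : Set B) \ {1}) p) :
    ∃ E : Finset B, (∀ ε ∈ E, ε ∈ U ∧ ε ≠ 1) ∧ ∀ χ : B → ℝ, IsHomOn ⊤ χ →
      ¬ k ≤ tr τ {c | 0 < χ c} k → ∃ ε ∈ E, χ ε = 0 := by
  classical
  obtain ⟨P, hP, hkP⟩ := (CompleteLattice.isCompactElement_iff_exists_le_sSup_of_le_sSup L k).1 hk
    {a | IsAtom a ∧ a ≤ k} (sSup_atoms_le_eq k).ge
  choose! E hE hχE using fun (p : L) (hp : IsAtom p ∧ p ≤ k) =>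
    bs_circuit_atom hp.1 U (hU p hp.1 hp.2)
  refine ⟨P.biUnion E, fun ε hε => ?_, fun χ hχ hn => ?_⟩
  · obtain ⟨p, hp, h1⟩ := Finset.mem_biUnion.1 hε
    exact hE p (hP hp) ε h1
  · by_contra hno
    push Not at hno
    refine hn (hkP.trans (Finset.sup_le fun p hp => ?_))
    exact (hχE p (hP hp) χ hχ fun ε hε => hno ε (Finset.mem_biUnion.2 ⟨p, hp, hε⟩)).trans
      (tr_mono le_rfl (hP hp).2)

theorem bs_section {m : ℕ} {π : B → (Fin m → ℤ)} (hπ : IsHomOn ⊤ π)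
    (hs : ∀ v, ∃ g ∈ (⊤ : Subgroup B), π g = v) :
    ∃ σ : (Fin m → ℤ) → B, (∀ u v, σ (u + v) = σ u * σ v) ∧ ∀ v, π (σ v) = v := by
  choose g _ hg using hs
  refine ⟨fun v => ∏ i, g (Pi.single i 1) ^ v i, fun u v => ?_, fun v => ?_⟩
  · simp only [Pi.add_apply, zpow_add, Finset.prod_mul_distrib]
  · have key : ∀ (S : Finset (Fin m)) (f : Fin m → B), π (∏ i ∈ S, f i) = ∑ i ∈ S, π (f i) := by
      intro S f
      induction S using Finset.induction_on with
      | empty => rw [Finset.prod_empty, Finset.sum_empty, hπ.one]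
      | insert a S ha ih =>
        rw [Finset.prod_insert ha, Finset.sum_insert ha,
          hπ _ (Subgroup.mem_top _) _ (Subgroup.mem_top _), ih]
    rw [key]
    simp only [hπ.zpow (Subgroup.mem_top _), hg]
    funext j
    simp [Finset.sum_apply, Pi.single_apply]

theorem bs_circ [IsAtomistic L] (hk : IsCompactElement k) {T : Subgroup B} {m ρ : ℕ}
    (hd : Dep τ T m k) (hm : m ≤ ρ) {π : B → (Fin ρ → ℤ)} (hπ : IsHomOn ⊤ π)
    (hs : ∀ v, ∃ g ∈ (⊤ : Subgroup B), π g = v) (hT : ∀ t ∈ T, π t = 0) :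
    ∃ E : Finset B, (∀ ε ∈ E, π ε ≠ 0) ∧ ∀ χ : B → ℝ, IsHomOn ⊤ χ →
      ¬ k ≤ tr τ {c | 0 < χ c} k → ∃ ε ∈ E, χ ε = 0 := by
  obtain ⟨σ0, h1, h2⟩ := bs_section hπ hs
  let ext : (Fin m → ℤ) → (Fin ρ → ℤ) := fun v j => if hj : j.val < m then v ⟨j, hj⟩ else 0
  have hext : ∀ u v, ext (u + v) = ext u + ext v := by
    intro u v
    funext j
    by_cases hj : j.val < m <;> simp [ext, hj]
  let σ : (Fin m → ℤ) → B := fun v => σ0 (ext v)
  let lam : B → (Fin m → ℤ) := fun b i => π b (Fin.castLE hm i)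
  have hσ : ∀ u v, σ (u + v) = σ u * σ v := fun u v => by simp only [σ, hext, h1]
  have hlam : IsHomOn ⊤ lam := fun a ha b hb => by
    funext i
    simp only [lam, hπ a ha b hb, Pi.add_apply]
  have hls : ∀ v, lam (σ v) = v := fun v => by
    funext i
    simp [lam, σ, h2, ext]
  have hl0 : ∀ b, π b = 0 → lam b = 0 := fun b hb => by
    funext i
    simp only [lam, hb, Pi.zero_apply]
  let f : Multiplicative (Fin m → ℤ) →* B :=
    MonoidHom.mk' (fun v => σ (Multiplicative.toAdd v)) (fun u v => hσ _ _)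
  obtain ⟨E, hE, hχ⟩ := exists_circuit (τ := τ) hk f.range (fun p hp hpk => by
    refine (hd σ lam hσ hlam hls (fun t ht => hl0 t (hT t ht)) p hp hpk).trans (tr_mono ?_ le_rfl)
    rintro _ ⟨v, hv, rfl⟩
    refine ⟨⟨Multiplicative.ofAdd v, rfl⟩, fun e => hv ?_⟩
    rw [← hls v, Set.mem_singleton_iff.1 e, hlam.one])
  refine ⟨E, fun ε hε h0 => ?_, hχ⟩
  obtain ⟨⟨v, rfl⟩, hne⟩ := hE ε hε
  have h3 : Multiplicative.toAdd v = 0 := (hls _).symm.trans (hl0 _ h0)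
  rw [toAdd_eq_zero.1 h3, map_one] at hne
  exact hne rfl

theorem bs_real_tf (n : ℕ) (v : ℝ) (hn : 0 < n) (h : n • v = 0) : v = 0 := by
  rw [nsmul_eq_mul] at h
  exact (mul_eq_zero.1 h).resolve_left (by exact_mod_cast hn.ne')

theorem exists_int_char [IsAtomistic L] [Group.FG B] (hk : IsCompactElement k) (T : Subgroup B)
    (hT : ∀ t ∈ T, τ t k = k) (hd : Dep τ T 2 k) (hinf : ¬ IsCompactElement (span τ ⊤ k)) :
    ∃ f : B → ℤ, IsHomOn ⊤ f ∧ (∃ t, f t = 1) ∧ (∀ t ∈ T, f t = 0) ∧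
      ¬ k ≤ tr τ {c | 0 < f c} k := by
  obtain ⟨χ, hχ, ⟨b0, hb0⟩, hn⟩ : ∃ χ : B → ℝ, IsHomOn ⊤ χ ∧ (∃ b, χ b ≠ 0) ∧
      ¬ k ≤ tr τ {c | 0 < χ c} k := by
    by_contra hno
    refine hinf (compact_span_of_forall_char hk fun χ h1 h2 => ?_)
    by_contra h3
    exact hno ⟨χ, h1, h2, h3⟩
  have hT1 : ∀ t ∈ T, χ t ≤ 0 := by
    intro t ht
    by_contra h1
    push Not at h1
    have := le_tr (ρ := τ) (S := {c | 0 < χ c}) (g := t) h1 k
    rw [hT t ht] at this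
    exact hn this
  have hT2 : ∀ t ∈ T, χ t = 0 := by
    intro t ht
    have h1 := hT1 t ht
    have h2 := hT1 t⁻¹ (T.inv_mem ht)
    rw [hχ.inv (Subgroup.mem_top _)] at h2
    linarith
  obtain ⟨K, hK⟩ := hχ.exists_ker
  obtain ⟨ρ, π, hπ, hs, hKπ⟩ := (hχ.sat bs_real_tf hK).exists_hom Group.FG.out
  have hiff : ∀ b, π b = 0 ↔ χ b = 0 := fun b => by
    have := (hK b).symm.trans (hKπ b)
    simpa only [Subgroup.mem_top, true_and] using this.symm
  have hρ : ρ = 1 := by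
    by_contra h1
    rcases Nat.lt_or_gt_of_ne h1 with h2 | h2
    · obtain rfl : ρ = 0 := by omega
      exact hb0 ((hiff b0).1 (Subsingleton.elim _ _))
    · obtain ⟨E, hE, h3⟩ := bs_circ hk hd h2 hπ hs fun t ht => (hiff t).2 (hT2 t ht)
      obtain ⟨ε, h4, h5⟩ := h3 χ hχ hn
      exact hE ε h4 ((hiff ε).2 h5)
  subst hρ
  obtain ⟨t, -, ht⟩ := hs (fun _ => 1)
  have hf0 : IsHomOn ⊤ (fun b => π b 0) := fun a ha b hb => by
    simp only [hπ a ha b hb, Pi.add_apply]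
  have hval : ∀ b, χ b = (π b 0 : ℝ) * χ t := by
    intro b
    have h1 : π (b * t ^ (-π b 0)) = 0 := by
      rw [hπ _ (Subgroup.mem_top _) _ (Subgroup.mem_top _), hπ.zpow (Subgroup.mem_top _), ht]
      funext i
      rw [Subsingleton.elim i 0]
      simp
    have h2 := (hiff _).1 h1
    rw [hχ _ (Subgroup.mem_top _) _ (Subgroup.mem_top _), hχ.zpow (Subgroup.mem_top _),
      zsmul_eq_mul] at h2
    push_cast at h2
    linarith
  have hχt : χ t ≠ 0 := fun e => hb0 (by rw [hval, e, mul_zero])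
  have hTπ : ∀ s ∈ T, π s 0 = 0 := fun s hs => by rw [(hiff s).2 (hT2 s hs)]; rfl
  rcases lt_or_gt_of_ne hχt with h1 | h1
  · refine ⟨fun b => -π b 0, fun a ha b hb => ?_, ⟨t⁻¹, ?_⟩, fun s hs => ?_, fun h2 => hn ?_⟩
    · simp only [hπ a ha b hb, Pi.add_apply, neg_add]
    · simp only [hπ.inv (Subgroup.mem_top t), ht, Pi.neg_apply, neg_neg]
    · simp only [hTπ s hs, neg_zero]
    · refine h2.trans (tr_mono (fun c hc => ?_) le_rfl)
      have h3 : π c 0 < 0 := neg_pos.1 hc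
      change 0 < χ c
      rw [hval]
      exact mul_pos_of_neg_of_neg (by exact_mod_cast h3) h1
  · refine ⟨fun b => π b 0, hf0, ⟨t, by simp only [ht]⟩, hTπ, fun h2 => hn ?_⟩
    refine h2.trans (tr_mono (fun c hc => ?_) le_rfl)
    have h3 : 0 < π c 0 := hc
    change 0 < χ c
    rw [hval]
    exact mul_pos (by exact_mod_cast h3) h1

theorem bs_ker_eq {ρ e : ℕ} (hρ : ρ ≤ e) {π : B → (Fin ρ → ℤ)} (hπ : IsHomOn ⊤ π)
    (hs : ∀ v, ∃ g ∈ (⊤ : Subgroup B), π g = v) {π' : B → (Fin e → ℤ)} (hπ' : IsHomOn ⊤ π')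
    (hs' : Function.Surjective π') (hle : ∀ b, π b = 0 → π' b = 0) (b : B) (hb : π' b = 0) :
    π b = 0 := by
  obtain ⟨σ, h1, h2⟩ := bs_section hπ hs
  let g : (Fin ρ → ℤ) →ₗ[ℤ] (Fin e → ℤ) := (AddMonoidHom.mk' (fun v => π' (σ v)) (fun u v => by
    rw [h1, hπ' _ (Subgroup.mem_top _) _ (Subgroup.mem_top _)])).toIntLinearMap
  have hg : ∀ b, g (π b) = π' b := by
    intro b
    have h3 := hle (b * (σ (π b))⁻¹) (by
      rw [hπ _ (Subgroup.mem_top _) _ (Subgroup.mem_top _), hπ.inv (Subgroup.mem_top _), h2,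
        add_neg_cancel])
    rw [hπ' _ (Subgroup.mem_top _) _ (Subgroup.mem_top _), hπ'.inv (Subgroup.mem_top _)] at h3
    exact (add_neg_eq_zero.1 h3).symm
  have hgs : Function.Surjective g := fun u => by
    obtain ⟨c, rfl⟩ := hs' u
    exact ⟨π c, hg c⟩
  have hp : Function.Surjective (LinearMap.funLeft ℤ ℤ (Fin.castLE hρ)) :=
    LinearMap.funLeft_surjective_of_injective ℤ ℤ _ (Fin.castLE_injective hρ)
  have hinj := OrzechProperty.injective_of_surjective_endomorphism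
    ((LinearMap.funLeft ℤ ℤ (Fin.castLE hρ)).comp g) (hp.comp hgs)
  apply hinj
  rw [map_zero, LinearMap.comp_apply, hg, hb, map_zero]

theorem finite_kernels [IsAtomistic L] [Group.FG B] (hk : IsCompactElement k) {e : ℕ}
    (hd : Dep τ ⊥ (e + 1) k) :
    Set.Finite {K : Subgroup B | (∃ π : B → (Fin e → ℤ), IsHomOn ⊤ π ∧ Function.Surjective π ∧
      ∀ b, b ∈ K ↔ π b = 0) ∧ ∃ χ : B → ℝ, IsHomOn ⊤ χ ∧ (∀ b, b ∈ K ↔ χ b = 0) ∧
      ¬ k ≤ tr τ {c | 0 < χ c} k} := by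
  set S := {K : Subgroup B | (∃ π : B → (Fin e → ℤ), IsHomOn ⊤ π ∧ Function.Surjective π ∧
      ∀ b, b ∈ K ↔ π b = 0) ∧ ∃ χ : B → ℝ, IsHomOn ⊤ χ ∧ (∀ b, b ∈ K ↔ χ b = 0) ∧
      ¬ k ≤ tr τ {c | 0 < χ c} k} with hS
  have : Module.Finite ℤ (Additive B) := Module.Finite.iff_addGroup_fg.2 inferInstance
  have hwf : WellFoundedGT (Subgroup B) :=
    ((Subgroup.toAddSubgroup (G := B)).trans
      AddSubgroup.toIntSubmodule).toOrderEmbedding.wellFoundedGT
  have key : ∀ V : Subgroup B, Set.Finite {K | K ∈ S ∧ V ≤ K} := by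
    intro V
    induction V using WellFoundedGT.induction with
    | ind V ih =>
      have up : ∀ g, g ∉ V → Set.Finite {K | K ∈ S ∧ V ≤ K ∧ g ∈ K} := by
        intro g hg
        refine (ih (V ⊔ Subgroup.zpowers g) (lt_of_le_of_ne le_sup_left fun e => hg ?_)).subset ?_
        · rw [e]
          exact Subgroup.mem_sup_right (Subgroup.mem_zpowers g)
        · rintro K ⟨h1, h2, h3⟩
          exact ⟨h1, sup_le h2 (Subgroup.zpowers_le.2 h3)⟩
      by_cases hsat : ∀ g, ∀ n : ℕ, 0 < n → g ^ n ∈ V → g ∈ V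
      · have hV : Sat V ⊤ := ⟨le_top, fun a _ b _ => by
          have : a * b * a⁻¹ * b⁻¹ = 1 := by
            rw [mul_comm a b, mul_inv_cancel_right, mul_inv_cancel]
          rw [this]
          exact V.one_mem, fun g _ => hsat g⟩
        obtain ⟨ρ, π, hπ, hs, hVπ⟩ := hV.exists_hom Group.FG.out
        have hiff : ∀ b, b ∈ V ↔ π b = 0 := fun b => by
          simpa only [Subgroup.mem_top, true_and] using hVπ b
        rcases Nat.lt_or_ge e ρ with h1 | h1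
        · obtain ⟨E, hE, h3⟩ := bs_circ hk hd h1 hπ hs fun t ht => by
            rw [Subgroup.mem_bot.1 ht, hπ.one]
          refine (E.finite_toSet.biUnion fun ε hε =>
            up ε fun h => hE ε hε ((hiff ε).1 h)).subset ?_
          rintro K ⟨hK, hle⟩
          obtain ⟨-, χ, hχ, h4, h5⟩ := id hK
          obtain ⟨ε, h6, h7⟩ := h3 χ hχ h5
          exact Set.mem_biUnion h6 ⟨hK, hle, (h4 ε).2 h7⟩
        · refine (Set.finite_singleton V).subset ?_
          rintro K ⟨⟨⟨π', hπ', hs', h2⟩, -⟩, hle⟩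
          refine le_antisymm (fun b hb => (hiff b).2 ?_) hle
          exact bs_ker_eq h1 hπ hs hπ' hs' (fun c hc => (h2 c).1 (hle ((hiff c).2 hc))) b
            ((h2 b).1 hb)
      · push Not at hsat
        obtain ⟨g, n, hn, h1, h2⟩ := hsat
        refine (up g h2).subset ?_
        rintro K ⟨hK, hle⟩
        obtain ⟨-, χ, hχ, h4, -⟩ := id hK
        refine ⟨hK, hle, (h4 g).2 (bs_real_tf n _ hn ?_)⟩
        rw [← hχ.pow (Subgroup.mem_top g), (h4 _).1 (hle h1)]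
  exact (key ⊥).subset fun K hK => ⟨hK, bot_le⟩

end Pool.Agent.Lib.MP_36fb39_al
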