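import Pool.Agent.Lib.MP_36fb39_al.Grob

set_option autoImplicit false

namespace Pool.Agent.Lib.MP_36fb39_al

section RigidAux

variable {B : Type*} [CommGroup B]

/-- an injective additive real valuation. -/
structure RigidVal (v : B → ℝ) : Prop where
  add : ∀ a b, v (a * b) = v a + v b
  inj : Function.Injective v

theorem RigidVal.one {v : B → ℝ} (h : RigidVal v) : v 1 = 0 := by
  have := h.add 1 1
  rw [mul_one] at this
  linarith

theorem RigidVal.cone {v : B → ℝ} (h : RigidVal v) : Cone {b | 0 < v b} := by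
  refine ⟨fun a ha b hb => ?_, ?_, fun a ha => ?_⟩
  · show 0 < v (a * b)
    rw [h.add]
    exact add_pos ha hb
  · show ¬ 0 < v 1
    rw [h.one]
    exact lt_irrefl _
  · have h1 : v a ≠ 0 := fun h1 => ha (h.inj (h1.trans h.one.symm))
    have h2 := h.add a a⁻¹
    rw [mul_inv_cancel, h.one] at h2
    rcases lt_or_gt_of_ne h1 with h3 | h3
    · right
      show 0 < v a⁻¹
      linarith
    · exact Or.inl h3

theorem RigidVal.comp {v : B → ℝ} (h : RigidVal v) (α : MulAut B) :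
    RigidVal fun b => v (α⁻¹ b) :=
  ⟨fun a b => by rw [map_mul, h.add], fun _ _ hab => α⁻¹.injective (h.inj hab)⟩

omit [CommGroup B] in
theorem rigid_exists_delta {v : B → ℝ} (F : Finset B) (hF : ∀ f ∈ F, 0 < v f) :
    ∃ δ : ℝ, 0 < δ ∧ ∀ f ∈ F, δ ≤ v f := by
  rcases F.eq_empty_or_nonempty with rfl | hne
  · exact ⟨1, one_pos, by simp⟩
  · obtain ⟨f, hf, hmin⟩ := F.exists_min_image v hne
    exact ⟨v f, hF f hf, hmin⟩

variable {L : Type*} [CompleteLattice L] {τ : B →* (L ≃o L)} {Y : L}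

theorem rigid_act_tr_le {S T : Set B} {β : B} {k : L} (h : ∀ s ∈ S, β * s ∈ T) :
    τ β (tr τ S k) ≤ tr τ T k := by
  rw [act_tr]
  refine tr_mono ?_ le_rfl
  rintro _ ⟨s, hs, rfl⟩
  exact h s hs

theorem rigid_tr_le_act {S T : Set B} {β : B} {k : L} (h : ∀ s ∈ T, β⁻¹ * s ∈ S) :
    tr τ T k ≤ τ β (tr τ S k) := by
  rw [act_tr]
  refine tr_mono (fun s hs => ⟨β⁻¹ * s, h s hs, by simp⟩) le_rfl

/-- Archimedean pushing. -/
theorem rigid_push {v : B → ℝ} (hv : RigidVal v) {J Z W : L} (hJ : IsCompactElement J)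
    (h : J ≤ Z ⊔ tr τ {b | 0 < v b} J) (S : Set B) (hS : ∀ β ∈ S, ∀ f, 0 < v f → β * f ∈ S)
    (hZ : ∀ β ∈ S, τ β Z ≤ W) (t : ℝ) (ht : ∀ β ∈ S, t ≤ v β → τ β J ≤ W) :
    ∀ β ∈ S, τ β J ≤ W := by
  obtain ⟨F, hF, hle⟩ := exists_finset_of_le_tr hJ h
  obtain ⟨δ, hδ, hδF⟩ := rigid_exists_delta (v := v) F fun f hf => hF hf
  have key : ∀ n : ℕ, ∀ β ∈ S, t ≤ v β + n * δ → τ β J ≤ W := by
    intro n
    induction n with
    | zero => intro β hβ h1; exact ht β hβ (by simpa using h1)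
    | succ n ih =>
      intro β hβ h1
      refine ((τ β).monotone hle).trans ?_
      rw [OrderIso.map_sup, act_tr]
      refine sup_le (hZ β hβ) (tr_le_iff.2 ?_)
      rintro _ ⟨f, hf, rfl⟩
      refine ih _ (hS β hβ f (hF hf)) ?_
      have := hδF f hf
      rw [hv.add]
      push_cast at h1
      linarith
  intro β hβ
  obtain ⟨n, hn⟩ := Archimedean.arch (t - v β) hδ
  refine key n β hβ ?_
  rw [nsmul_eq_mul] at hn
  linarith

/-- the initial element attached to a valuation. -/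
def rigidJ (τ : B →* (L ≃o L)) (Y : L) (v : B → ℝ) : L := Y ⊓ tr τ {b | 0 < v b} Y

/-- canonical group elements. -/
def RigidCan (τ : B →* (L ≃o L)) (Y : L) (v : B → ℝ) (ε : B) : Prop :=
  0 < v ε ∧ rigidJ τ Y v ≤ tr τ {b | 0 < v b} (rigidJ τ Y v) ⊔ tr τ {b | v ε ≤ v b} Y ∧
    ¬ rigidJ τ Y v ≤ tr τ {b | 0 < v b} (rigidJ τ Y v) ⊔ tr τ {b | v ε < v b} Y

theorem RigidCan.unique {v : B → ℝ} (hv : RigidVal v) {ε ε' : B} (h : RigidCan τ Y v ε)
    (h' : RigidCan τ Y v ε') : ε = ε' := by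
  apply hv.inj
  rcases lt_trichotomy (v ε) (v ε') with h1 | h1 | h1
  · exact absurd (h'.2.1.trans (sup_le_sup_left
      (tr_mono (fun b (hb : v ε' ≤ v b) => (h1.trans_le hb : v ε < v b)) le_rfl) _)) h.2.2
  · exact h1
  · exact absurd (h.2.1.trans (sup_le_sup_left
      (tr_mono (fun b (hb : v ε ≤ v b) => (h1.trans_le hb : v ε' < v b)) le_rfl) _)) h'.2.2

theorem rigid_psi_tr (α : MulAut B) (ψ : L ≃o L) (hψ : ∀ b q, ψ (τ b q) = τ (α b) (ψ q))
    (p : B → Prop) (k : L) : ψ (tr τ {b | p b} k) = tr τ {b | p (α⁻¹ b)} (ψ k) := by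
  apply le_antisymm
  · rw [← ψ.le_symm_apply, tr_le_iff]
    intro g hg
    rw [ψ.le_symm_apply, hψ]
    exact le_tr (show α g ∈ {b | p (α⁻¹ b)} by simpa using hg) _
  · rw [tr_le_iff]
    intro g hg
    have : τ g (ψ k) = ψ (τ (α⁻¹ g) k) := by rw [hψ]; simp
    rw [this]
    exact ψ.monotone (le_tr (show α⁻¹ g ∈ {b | p b} from hg) _)

theorem rigid_psi_J (α : MulAut B) (ψ : L ≃o L) (hψ : ∀ b q, ψ (τ b q) = τ (α b) (ψ q))
    (hψY : ψ Y = Y) (v : B → ℝ) : ψ (rigidJ τ Y v) = rigidJ τ Y fun b => v (α⁻¹ b) := by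
  rw [rigidJ, OrderIso.map_inf, rigid_psi_tr α ψ hψ (fun b => 0 < v b), hψY, rigidJ]

theorem RigidCan.map (α : MulAut B) (ψ : L ≃o L) (hψ : ∀ b q, ψ (τ b q) = τ (α b) (ψ q))
    (hψY : ψ Y = Y) {v : B → ℝ} {ε : B} (h : RigidCan τ Y v ε) :
    RigidCan τ Y (fun b => v (α⁻¹ b)) (α ε) := by
  have e : α⁻¹ (α ε) = ε := by simp
  obtain ⟨h1, h2, h3⟩ := h
  refine ⟨by simpa using h1, ?_, ?_⟩
  · have := ψ.monotone h2
    rw [OrderIso.map_sup, rigid_psi_tr α ψ hψ (fun b => 0 < v b),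
      rigid_psi_tr α ψ hψ (fun b => v ε ≤ v b), rigid_psi_J α ψ hψ hψY, hψY] at this
    simp only [e]
    exact this
  · intro h4
    apply h3
    rw [← ψ.le_iff_le, OrderIso.map_sup, rigid_psi_tr α ψ hψ (fun b => 0 < v b),
      rigid_psi_tr α ψ hψ (fun b => v ε < v b), rigid_psi_J α ψ hψ hψY, hψY]
    simp only [e] at h4
    exact h4

theorem rigid_exists_can [IsModularLattice L] {v : B → ℝ} (hv : RigidVal v)
    (hJ : IsCompactElement (rigidJ τ Y v)) (E : Finset B)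
    (hE : rigidJ τ Y v ≤ tr τ ((E : Set B) ∩ {b | 0 < v b}) Y)
    (h : ¬ rigidJ τ Y v ≤ tr τ {b | 0 < v b} (rigidJ τ Y v)) :
    ∃ ε ∈ E, RigidCan τ Y v ε := by
  classical
  set J := rigidJ τ Y v with hJdef
  set Jp := tr τ {b | 0 < v b} J with hJp
  have hJY : J ≤ Y := inf_le_left
  have hex : ∃ n, ∃ Λ : Finset B, Λ.card = n ∧ Λ ⊆ E ∧ (∀ b ∈ Λ, 0 < v b) ∧
      J ≤ Jp ⊔ tr τ (Λ : Set B) Y := by
    refine ⟨_, E.filter fun b => 0 < v b, rfl, Finset.filter_subset _ _,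
      fun b hb => (Finset.mem_filter.1 hb).2, hE.trans (le_sup_of_le_right ?_)⟩
    exact tr_mono (fun b hb => by simpa using hb) le_rfl
  obtain ⟨Λ, hcard, hΛE, hΛP, hΛ⟩ := Nat.find_spec hex
  have hne : Λ.Nonempty := by
    rw [Finset.nonempty_iff_ne_empty]
    rintro rfl
    rw [Finset.coe_empty, tr_empty, sup_bot_eq] at hΛ
    exact h hΛ
  obtain ⟨ε, hε, hmin⟩ := Λ.exists_min_image v hne
  refine ⟨ε, hΛE hε, hΛP ε hε, hΛ.trans (sup_le_sup_left (tr_mono (fun b hb => hmin b hb) le_rfl) _),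
    fun hcon => ?_⟩
  set Z := tr τ {b | v ε < v b} Y with hZ
  have hpush : ∀ β ∈ {b | 0 ≤ v b}, τ β J ≤ τ ε J ⊔ Z := by
    refine rigid_push hv hJ (Z := Z) (by rw [sup_comm]; exact hcon) _ ?_ ?_ (v ε) ?_
    · intro β (hβ : 0 ≤ v β) f hf
      show 0 ≤ v (β * f)
      rw [hv.add]; linarith
    · intro β (hβ : 0 ≤ v β)
      refine le_sup_of_le_right (rigid_act_tr_le fun s (hs : v ε < v s) => ?_)
      show v ε < v (β * s)
      rw [hv.add]; linarith
    · intro β _ h1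
      rcases h1.eq_or_lt with h2 | h2
      · rw [hv.inj h2]; exact le_sup_left
      · exact le_sup_of_le_right (((τ β).monotone hJY).trans (le_tr (show β ∈ {b | v ε < v b} from h2) Y))
  set R := Jp ⊔ tr τ ((Λ.erase ε : Finset B) : Set B) Y with hR
  have h1 : J ⊔ R ≤ τ ε J ⊔ Z := by
    refine sup_le ?_ (sup_le (tr_le_iff.2 fun g (hg : 0 < v g) => hpush g hg.le) ?_)
    · have := hpush 1 (show 0 ≤ v 1 from hv.one.ge)
      rwa [act_one] at this
    · refine le_sup_of_le_right (tr_mono (fun b hb => ?_) le_rfl)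
      obtain ⟨hb1, hb2⟩ := Finset.mem_erase.1 hb
      exact lt_of_le_of_ne (hmin b hb2) fun h2 => hb1 (hv.inj h2).symm
  have h2 : Z ⊓ τ ε Y ≤ τ ε J := by
    have : Z ≤ τ ε (tr τ {b | 0 < v b} Y) := rigid_tr_le_act fun s (hs : v ε < v s) => by
      show 0 < v (ε⁻¹ * s)
      have a1 := hv.add ε (ε⁻¹ * s)
      rw [mul_inv_cancel_left] at a1
      linarith
    rw [hJdef, rigidJ, OrderIso.map_inf]
    exact le_inf inf_le_right (inf_le_left.trans this)
  have h3 : τ ε Y ⊓ (J ⊔ R) ≤ R := by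
    calc τ ε Y ⊓ (J ⊔ R) ≤ (τ ε J ⊔ Z) ⊓ τ ε Y := le_inf (inf_le_right.trans h1) inf_le_left
      _ = τ ε J ⊔ Z ⊓ τ ε Y := sup_inf_assoc_of_le _ ((τ ε).monotone hJY)
      _ ≤ τ ε J := sup_le le_rfl h2
      _ ≤ R := le_sup_of_le_left (le_tr (show ε ∈ {b | 0 < v b} from hΛP ε hε) J)
  have h4 : J ≤ R ⊔ τ ε Y := by
    refine hΛ.trans (sup_le (le_sup_of_le_left le_sup_left) (tr_le_iff.2 fun g hg => ?_))
    by_cases hgε : g = ε
    · rw [hgε]; exact le_sup_right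
    · exact le_sup_of_le_left (le_sup_of_le_right
        (le_tr (Finset.mem_coe.2 (Finset.mem_erase.2 ⟨hgε, hg⟩)) Y))
  have h5 : J ≤ R := by
    calc J ≤ (R ⊔ τ ε Y) ⊓ (J ⊔ R) := le_inf h4 le_sup_left
      _ = R ⊔ τ ε Y ⊓ (J ⊔ R) := sup_inf_assoc_of_le _ le_sup_right
      _ ≤ R := sup_le le_rfl h3
  refine Nat.find_min hex (m := (Λ.erase ε).card) ?_
    ⟨Λ.erase ε, rfl, (Finset.erase_subset _ _).trans hΛE,
      fun b hb => hΛP b (Finset.mem_of_mem_erase hb), h5⟩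
  rw [← hcard]
  exact Finset.card_erase_lt_of_mem hε

end RigidAux

variable {L : Type*} [CompleteLattice L] [IsModularLattice L] [IsCompactlyGenerated L] {e : ℕ}
  {τ : Multiplicative (Fin e → ℤ) →* (L ≃o L)} {Y : L}

theorem rigid_le_of_aperiodic (hY : WellFoundedGT (Set.Iic Y))
    (α : MulAut (Multiplicative (Fin e → ℤ))) (ψ : L ≃o L)
    (hψ : ∀ b q, ψ (τ b q) = τ (α b) (ψ q)) (hψY : ψ Y = Y)
    (hα : ∀ b, ∀ j : ℕ, 0 < j → (α ^ j) b = b → b = 1)
    {v : Multiplicative (Fin e → ℤ) → ℝ} (hv : RigidVal v) :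
    rigidJ τ Y v ≤ tr τ {b | 0 < v b} (rigidJ τ Y v) := by
  by_contra h
  obtain ⟨E, hE⟩ := grob_fin (τ := τ) hY
  have hcan : ∀ w, RigidVal w → ¬ rigidJ τ Y w ≤ tr τ {b | 0 < w b} (rigidJ τ Y w) →
      ∃ ε ∈ E, RigidCan τ Y w ε := fun w hw h' =>
    rigid_exists_can hw (compact_of_wf hY inf_le_left) E (hE _ hw.cone) h'
  obtain ⟨ε, -, hε⟩ := hcan v hv h
  have key : ∀ n : ℕ, ∃ w, RigidVal w ∧ RigidCan τ Y w ((α ^ n) ε) := by
    intro n
    induction n with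
    | zero => exact ⟨v, hv, hε⟩
    | succ n ih =>
      obtain ⟨w, hw, hc⟩ := ih
      refine ⟨_, hw.comp α, ?_⟩
      rw [pow_succ', MulAut.mul_apply]
      exact hc.map α ψ hψ hψY
  have hmem : ∀ n : ℕ, (α ^ n) ε ∈ E := by
    intro n
    obtain ⟨w, hw, hc⟩ := key n
    obtain ⟨ε', h1, h2⟩ := hcan w hw fun h3 => hc.2.2 (le_sup_of_le_left h3)
    rwa [hc.unique hw h2]
  obtain ⟨i, j, hij, h1⟩ := Set.Finite.exists_lt_map_eq_of_forall_mem (t := (E : Set _))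
    (f := fun n : ℕ => (α ^ n) ε) hmem E.finite_toSet
  have h2 : (α ^ (j - i)) ((α ^ i) ε) = (α ^ i) ε := by
    rw [← MulAut.mul_apply, ← pow_add, Nat.sub_add_cancel hij.le]
    exact h1.symm
  have h3 := hα _ _ (by omega) h2
  rw [map_eq_one_iff _ (α ^ i).injective] at h3
  have h4 := hε.1
  rw [h3, hv.one] at h4
  exact lt_irrefl _ h4

/-- Bergman type rigidity under an automorphism without periodic vectors. -/
theorem not_le_tr_of_aperiodic (hY : WellFoundedGT (Set.Iic Y))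
    (α : MulAut (Multiplicative (Fin e → ℤ))) (ψ : L ≃o L)
    (hψ : ∀ b q, ψ (τ b q) = τ (α b) (ψ q)) (hψY : ψ Y = Y)
    (hα : ∀ b, ∀ j : ℕ, 0 < j → (α ^ j) b = b → b = 1)
    (χ : (Fin e → ℤ) →+ ℝ) (hχ : Function.Injective χ)
    (h : ¬ Y ≤ tr τ {b | 0 < χ (Multiplicative.toAdd b)} Y) :
    ¬ Y ≤ tr τ {b | b ≠ 1} Y := by
  set v : Multiplicative (Fin e → ℤ) → ℝ := fun b => χ (Multiplicative.toAdd b) with hvdef
  have hv : RigidVal v := ⟨fun a b => by simp [hvdef], fun a b hab =>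
    Multiplicative.toAdd.injective (hχ hab)⟩
  have h1 := rigid_le_of_aperiodic hY α ψ hψ hψY hα hv
  set J := rigidJ τ Y v with hJ
  have hJY : J ≤ Y := inf_le_left
  have h2 : span τ ⊤ J ≤ tr τ {b | 0 < v b} Y := by
    rw [tr_le_iff]
    refine rigid_push hv (compact_of_wf hY hJY) (Z := ⊥) (le_sup_of_le_right h1) _
      (fun _ _ _ _ => Subgroup.mem_top _) (fun β _ => by simp) 1 fun β _ hβ => ?_
    exact ((τ β).monotone hJY).trans (le_tr (show β ∈ {b | 0 < v b} from lt_of_lt_of_le one_pos hβ) Y)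
  have h3 : Y ⊓ (span τ ⊤ J ⊔ tr τ {b | 0 < v b} Y) ≤ span τ ⊤ J := by
    rw [sup_eq_right.2 h2]
    exact le_span ⊤ J
  have h4 := @ind_ord L _ _ _ _ (LinearOrder.lift' v hv.inj) (fun b => τ b Y) (span τ ⊤ J) (by
    intro i
    have a1 := (τ i).monotone h3
    rw [OrderIso.map_inf, OrderIso.map_sup, fx_span ⊤ J i (Subgroup.mem_top _)] at a1
    refine le_trans (inf_le_inf_left _ (sup_le_sup_left ?_ _)) a1
    refine le_trans ?_ (rigid_tr_le_act (T := {b | v i < v b}) fun s (hs : v i < v s) => ?_)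
    · exact iSup₂_le fun j (hj : v i < v j) => le_tr (show j ∈ {b | v i < v b} from hj) Y
    · show 0 < v (i⁻¹ * s)
      have a2 := hv.add i (i⁻¹ * s)
      rw [mul_inv_cancel_left] at a2
      linarith) 1
  intro h5
  apply h
  refine le_trans ?_ (h4.trans h2)
  rw [act_one]
  exact le_inf le_rfl (le_sup_of_le_right h5)

/-- a periodic vector gives an invariant functional. -/
theorem exists_inv_functional (α : MulAut (Multiplicative (Fin e → ℤ)))
    {b : Multiplicative (Fin e → ℤ)} (hb : b ≠ 1) (h : α b = b) :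
    ∃ φ : Multiplicative (Fin e → ℤ) → ℤ, IsHomOn ⊤ φ ∧ (∃ c, φ c ≠ 0) ∧ ∀ c, φ (α c) = φ c := by
  let A : (Fin e → ℤ) →+ (Fin e → ℤ) :=
    AddMonoidHom.mk' (fun x => Multiplicative.toAdd (α (Multiplicative.ofAdd x)))
      fun x y => by simp
  have hA : ∀ c, (LinearMap.toMatrix' A.toIntLinearMap).mulVec (Multiplicative.toAdd c) =
      Multiplicative.toAdd (α c) := by
    intro c
    rw [LinearMap.toMatrix'_mulVec]
    rfl
  have hdet : (LinearMap.toMatrix' A.toIntLinearMap - 1).det = 0 := by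
    rw [← Matrix.exists_mulVec_eq_zero_iff]
    refine ⟨Multiplicative.toAdd b, fun h1 => hb (Multiplicative.toAdd.injective h1), ?_⟩
    rw [Matrix.sub_mulVec, hA, h, Matrix.one_mulVec, sub_self]
  obtain ⟨w, hw, hw'⟩ := Matrix.exists_vecMul_eq_zero_iff.2 hdet
  rw [Matrix.vecMul_sub, Matrix.vecMul_one, sub_eq_zero] at hw'
  refine ⟨fun c => w ⬝ᵥ Multiplicative.toAdd c, fun a _ c _ => by simp [dotProduct_add],
    ⟨Multiplicative.ofAdd w, fun h1 => hw (dotProduct_self_eq_zero.1 h1)⟩, fun c => ?_⟩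
  show w ⬝ᵥ Multiplicative.toAdd (α c) = _
  rw [← hA, Matrix.dotProduct_mulVec, hw']

end Pool.Agent.Lib.MP_36fb39_al
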