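import Pool.Agent.Lib.MP_36fb39_al.Cliff
import Pool.Agent.Lib.MP_36fb39_al.BS
import Pool.Agent.Lib.MP_36fb39_al.Rigid

set_option autoImplicit false

namespace Pool.Agent.Lib.MP_36fb39_al

variable {B : Type*} [CommGroup B] {L : Type*} [CompleteLattice L] [IsModularLattice L]
  [IsCompactlyGenerated L] [IsAtomistic L] {τ : B →* (L ≃o L)} {k a b : L} {r e d : ℕ}

theorem ab_nz (g : B) (H : Subgroup B) : Nz g H := fun a => by
  rw [mul_inv_cancel_comm]

theorem ab_sat {K C : Subgroup B} {m : ℕ} (h : Chain K m C) : Sat K C :=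
  ⟨h.le, fun a _ b _ => by
    rw [mul_inv_cancel_comm, mul_inv_cancel]
    exact K.one_mem, h.root⟩

theorem first_drop_aux {C : Subgroup B} (hC : PZ r C) (h : Crit τ C (d + 1) a b) (j : ℕ) :
    ∀ (M : Subgroup B) (m : ℕ), PZ j M → Chain M m C → Homog τ M (d + 1) a b →
      ∃ (T : Subgroup B) (m : ℕ), Chain T m C ∧ Level τ T d a b ∧ ¬ FinLen τ T d a b := by
  induction j with
  | zero =>
    intro M m hM _ hh
    have := Ge.bound hM (hh.ge b hh.invs h.lt' le_rfl)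
    omega
  | succ j ih =>
    intro M m hM hc hh
    have hge := hh.ge b hh.invs h.lt' le_rfl
    have hne : M ≠ ⊥ := by
      rintro rfl
      have := (ge_bot_iff.1 hge).1
      omega
    obtain ⟨M', t, hs⟩ := hM.exists_step hne
    have hc' := (Chain.single hs).trans hc
    obtain ⟨d', hl⟩ := cl_gen hC hc' (fun g _ => ab_nz g _) h
    rcases hh.step hs hM.nice.via hl.toHomog h.lt' with h1 | h1
    · exact ih M' _ (hM.step_down hs) hc' (h1 ▸ hl.toHomog)
    · have h2 : d' = d := by omega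
      subst h2
      exact ⟨M', _, hc', hl, fun hf =>
        not_ge_of_finLen hs hM.nice.via hh.invx hh.invs hl.lt hf hge⟩

/-- the first place where the dimension drops. -/
theorem first_drop {C : Subgroup B} (hC : PZ r C) (h : Crit τ C (d + 1) a b) :
    ∃ (T : Subgroup B) (m : ℕ), Chain T m C ∧ Level τ T d a b ∧ ¬ FinLen τ T d a b :=
  first_drop_aux hC h r C 0 hC Chain.refl (h.homog hC.nice.ex)

/-- a critical quotient of dimension at least `e`. -/
theorem ab_crit_quot {C : Subgroup B} (hC : PZ r C) (hk : IsCompactElement k) (ha : Fx τ C a)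
    (h : Ge τ C e a (a ⊔ span τ C k)) :
    ∃ a' D, a ≤ a' ∧ e ≤ D ∧ Crit τ C D a' (a ⊔ span τ C k) := by
  classical
  have hn : Nice τ C := hC.nice
  obtain ⟨a', ⟨h1, h2⟩, hmax⟩ := hn.noeth a k ha hk
    {u | In τ C a (a ⊔ span τ C k) u ∧ Ge τ C e u (a ⊔ span τ C k)}
    ⟨a, ⟨ha, le_rfl, le_sup_left⟩, h⟩ (fun u hu => hu.1)
  have hex : ∃ D, ¬ Ge τ C (D + 1) a' (a ⊔ span τ C k) ∧ e ≤ D :=
    ⟨r + e, fun h => by have := Ge.bound hC h; omega, by omega⟩
  refine ⟨a', Nat.find hex, h1.lo, (Nat.find_spec hex).2, h1.inv, ha.sup (fx_span C k), ?_,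
    (Nat.find_spec hex).1, ?_⟩
  · rcases (Nat.find_spec hex).2.eq_or_lt with h3 | h3
    · exact h3 ▸ h2
    · obtain ⟨D, hD⟩ : ∃ D, Nat.find hex = D + 1 := ⟨Nat.find hex - 1, by omega⟩
      have := Nat.find_min hex (m := D) (by omega)
      rw [hD]
      by_contra h4
      exact this ⟨h4, by omega⟩
  · intro w hw h3 h4 h5
    exact h3.ne' (hmax w ⟨⟨hw, h1.lo.trans h3.le, h4⟩, h5.of_le (Nat.find_spec hex).2⟩ h3.le)

theorem lift_step {C : Subgroup B} (hC : PZ r C) (hk : IsCompactElement k) (ha : Fx τ C a)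
    (h : Ge τ C (e + 1) a (a ⊔ span τ C k)) :
    ∃ (f : B → ℤ) (K : Subgroup B), IsHomOn C f ∧ (∃ t ∈ C, f t = 1) ∧
      (∀ g, g ∈ K ↔ g ∈ C ∧ f g = 0) ∧
      Ge τ K e ((a ⊔ span τ K k) ⊓ (a ⊔ tr τ {c | c ∈ C ∧ 0 < f c} k)) (a ⊔ span τ K k) := by
  classical
  obtain ⟨a', D', haa, hD, hc⟩ := ab_crit_quot hC hk ha h
  obtain ⟨D, rfl⟩ : ∃ D, D' = D + 1 := ⟨D' - 1, by omega⟩
  set b := a ⊔ span τ C k with hb
  have hkb : k ≤ b := (le_span C k).trans le_sup_right
  obtain ⟨T, m, hT, hl, hinf⟩ := first_drop hC hc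
  have hTp : PZ r T := hC.sub hT.le
  have hTs : Sat T C := ab_sat hT
  have hCT : ∀ g ∈ C, Nz g T := fun g _ => ab_nz g T
  obtain ⟨X, _, _, _, π, ι, act, hL⟩ := exists_lev hTp.nice.ex hTp.nice.noeth D hl.invx hl.invs
    hl.le C hCT hc.invx hc.invp
  have : IsAtomistic X := hL.isAtomistic hl
  have hu₀ : In τ T a' b (a' ⊔ span τ T k) := in_span hl.invx hl.invs hl.le hkb
  set u₀ := a' ⊔ span τ T k with hu₀def
  have htr := fun u hu S => hL.π_tr (u := u) hCT hc.invx hc.invp hl.invx hu S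
  have hin : ∀ S : Set B, S ⊆ C → (∀ g ∈ T, ∀ c ∈ S, g * c ∈ S) → ∀ u, u ≤ b →
      In τ T a' b (a' ⊔ tr τ S u) := fun S hS hS' u hu =>
    ⟨hl.invx.sup (fx_tr hS' u), le_sup_left, sup_le hl.le (tr_le_of_fx hS hc.invp hu)⟩
  have hspan : span act ⊤ (π u₀) = ⊤ := by
    have h1 := htr u₀ hu₀ Set.univ
    have h2 : a' ⊔ tr τ (Subtype.val '' (Set.univ : Set C)) u₀ = b := by
      rw [Set.image_univ, Subtype.range_coe_subtype, hu₀def, tr_sup]
      change a' ⊔ (span τ C a' ⊔ span τ C (span τ T k)) = b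
      rw [hc.invx.span_eq, span_span hT.le, ← sup_assoc, sup_idem]
      exact le_antisymm (sup_le hl.le le_sup_right) (sup_le_sup_right haa _)
    rw [h2, hL.π_top hl.invs] at h1
    exact h1.symm
  have hFG : Group.FG C := (Group.fg_iff_subgroup_fg C).2 hC.pc.fg
  have hdep : Dep act (T.subgroupOf C) 2 (π u₀) := by
    intro σ lam hσ hlam hls hlT p hp _
    by_contra hnp
    have hp0 : p ⊓ tr act (σ '' {v | v ≠ 0}) p = ⊥ := by
      rcases (hp.le_iff.1 (inf_le_left : p ⊓ tr act (σ '' {v | v ≠ 0}) p ≤ p)) with h1 | h1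
      · exact h1
      · exact absurd (inf_eq_left.1 h1) hnp
    have hσ0 : σ 0 = 1 := by
      have := hσ 0 0
      rw [add_zero] at this
      exact left_eq_mul.1 this
    have hσn : ∀ v, σ (-v) = (σ v)⁻¹ := fun v => by
      rw [eq_inv_iff_mul_eq_one, ← hσ, neg_add_cancel, hσ0]
    let lam' : B → Fin 2 → ℤ := fun g => if hg : g ∈ C then lam ⟨g, hg⟩ else 0
    have hlam'e : ∀ g (hg : g ∈ C), lam' g = lam ⟨g, hg⟩ := fun g hg => dif_pos hg
    have hlam' : IsHomOn C lam' := fun g hg g' hg' => by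
      rw [hlam'e g hg, hlam'e g' hg', hlam'e _ (C.mul_mem hg hg')]
      exact hlam ⟨g, hg⟩ (Subgroup.mem_top _) ⟨g', hg'⟩ (Subgroup.mem_top _)
    let U : Subgroup B :=
      { carrier := {g | g ∈ C ∧ g * ((σ (lam' g) : C) : B)⁻¹ ∈ T}
        mul_mem' := fun {g g'} hg hg' => ⟨C.mul_mem hg.1 hg'.1, by
          have := T.mul_mem hg.2 hg'.2
          rw [hlam' g hg.1 g' hg'.1, hσ, Subgroup.coe_mul, mul_inv, mul_mul_mul_comm]
          exact this⟩
        one_mem' := ⟨C.one_mem, by rw [hlam'.one, hσ0]; simp⟩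
        inv_mem' := fun {g} hg => ⟨C.inv_mem hg.1, by
          have := T.inv_mem hg.2
          rw [hlam'.inv hg.1, hσn, Subgroup.coe_inv, ← mul_inv]
          exact this⟩ }
    have hU : ∀ g, g ∈ U ↔ g ∈ C ∧ g * ((σ (lam' g) : C) : B)⁻¹ ∈ T := fun g => Iff.rfl
    have hUC : U ≤ C := fun g hg => hg.1
    have hσp : ∀ v (n : ℕ), σ (n • v) = σ v ^ n := fun v n => by
      induction n with
      | zero => rw [zero_smul, pow_zero, hσ0]
      | succ n ih => rw [succ_nsmul, hσ, ih, pow_succ]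
    have hUsat : Sat U C := by
      refine ⟨hUC, fun g _ g' _ => ?_, fun g hg n hn hgn => ⟨hg, ?_⟩⟩
      · rw [mul_inv_cancel_comm, mul_inv_cancel]
        exact U.one_mem
      · refine hTs.root _ (C.mul_mem hg (C.inv_mem (σ _).2)) n hn ?_
        have := hgn.2
        rw [hlam'.pow hg, hσp, Subgroup.coe_pow] at this
        rwa [mul_pow, inv_pow]
    have hker : ∀ g, g ∈ T ↔ g ∈ U ∧ lam' g = 0 := by
      intro g
      constructor
      · intro hg
        have h3 : lam' g = 0 := by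
          rw [hlam'e g (hT.le hg)]
          exact hlT _ hg
        refine ⟨⟨hT.le hg, ?_⟩, h3⟩
        rw [h3, hσ0]
        simpa using hg
      · rintro ⟨h1, h2⟩
        have := h1.2
        rw [h2, hσ0] at this
        simpa using this
    have hch : Chain T 2 U := by
      refine chain_of_hom (hlam'.mono hUC) (fun v => ?_) hker
      have h1 : lam' (σ v) = v := by rw [hlam'e _ (σ v).2]; exact hls v
      refine ⟨σ v, ⟨(σ v).2, ?_⟩, h1⟩
      rw [h1, mul_inv_cancel]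
      exact T.one_mem
    have hu := hL.ι_in p
    have hg1 : Ge τ T D a' (ι p) := by
      have := hL.ge_of_lt hp.bot_lt
      rwa [hL.ι_bot hl.toHomog] at this
    have hind : IndOn τ ((U : Set B) \ (T : Set B)) a' (ι p) := by
      have h0 : tr τ ((U : Set B) \ (T : Set B)) (ι p) ≤
          tr τ (Subtype.val '' (σ '' {v | v ≠ 0})) (ι p) := by
        refine tr_le_iff.2 fun g hg => ?_
        have h1 : g = ((σ (lam' g) : C) : B) * (g * ((σ (lam' g) : C) : B)⁻¹) := by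
          rw [mul_comm, inv_mul_cancel_right]
        rw [h1, act_mul, hu.inv _ hg.1.2]
        exact le_tr (Set.mem_image_of_mem _ (Set.mem_image_of_mem _
          (show lam' g ∈ {v | v ≠ 0} from fun h0 => hg.2 ((hker g).2 ⟨hg.1, h0⟩)))) _
      have hR : In τ T a' b (a' ⊔ tr τ (Subtype.val '' (σ '' {v | v ≠ 0})) (ι p)) := by
        refine ⟨hl.invx.sup (Fx.iSup fun g => Fx.iSup fun _ => hu.inv.conj (ab_nz _ _)),
          le_sup_left, sup_le hl.le (tr_le_of_fx ?_ hc.invp hu.hi)⟩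
        rintro _ ⟨g, _, rfl⟩
        exact g.2
      have h1 := hL.π_inf _ _ hu hR
      rw [htr _ hu, hL.π_ι, hp0] at h1
      have h3 := (hL.gc _ _ (hu.inf hR)).1 h1.le
      rw [hL.ι_bot hl.toHomog] at h3
      exact (inf_le_inf_left _ (sup_le_sup_left h0 _)).trans h3
    obtain ⟨m', hch'⟩ := hUsat.chain hC.pc.fg
    have h4 := (ge_of_indOn hch (hc.invx.mono hUC) hu.inv hind hg1).chain hch'
    exact hc.lt (h4.mono le_rfl (span_le (hc.invp.mono hUC) hu.hi))
  obtain ⟨f, hf, ⟨t, ht⟩, hfT, hnle⟩ := exists_int_char (τ := act) (hL.cpt k hk hkb)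
    (T.subgroupOf C) (fun t ht => by rw [hL.act_triv t ht]; rfl) hdep (by
      rw [hspan]
      intro hc'
      exact hinf (hL.finLen_of_le ⟨hl.invx, le_rfl, hl.le⟩ ⟨hl.invs, hl.le, le_rfl⟩ hc'
        (le_sup_of_le_right le_top)))
  let f' : B → ℤ := fun g => if hg : g ∈ C then f ⟨g, hg⟩ else 0
  have hf'e : ∀ g (hg : g ∈ C), f' g = f ⟨g, hg⟩ := fun g hg => dif_pos hg
  have hf' : IsHomOn C f' := fun g hg g' hg' => by
    rw [hf'e g hg, hf'e g' hg', hf'e _ (C.mul_mem hg hg')]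
    exact hf ⟨g, hg⟩ (Subgroup.mem_top _) ⟨g', hg'⟩ (Subgroup.mem_top _)
  obtain ⟨K, hK⟩ := hf'.exists_ker
  have hKC : K ≤ C := fun g hg => ((hK g).1 hg).1
  have hTK : T ≤ K := fun g hg => (hK g).2 ⟨hT.le hg, by
    rw [hf'e g (hT.le hg)]
    exact hfT _ hg⟩
  refine ⟨f', K, hf', ⟨t, t.2, by rw [hf'e _ t.2]; exact ht⟩, hK, ?_⟩
  have hS : Subtype.val '' {c : C | 0 < f c} = {c | c ∈ C ∧ 0 < f' c} := by
    ext g
    constructor
    · rintro ⟨g', hg', rfl⟩
      exact ⟨g'.2, by rw [hf'e _ g'.2]; exact hg'⟩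
    · rintro ⟨h1, h2⟩
      exact ⟨⟨g, h1⟩, by rw [hf'e _ h1] at h2; exact h2, rfl⟩
  have hstab : ∀ g ∈ K, ∀ c ∈ {c | c ∈ C ∧ 0 < f' c}, g * c ∈ {c | c ∈ C ∧ 0 < f' c} :=
    fun g hg c hc => ⟨C.mul_mem (hKC hg) hc.1, by
      rw [hf' g (hKC hg) c hc.1, ((hK g).1 hg).2, zero_add]
      exact hc.2⟩
  have hR' := hin {c | c ∈ C ∧ 0 < f' c} (fun c hc => hc.1) (fun g hg => hstab g (hTK hg)) u₀ hu₀.hi
  rw [← htr u₀ hu₀, hS, hL.π_le _ _ hu₀ hR', not_not] at hnle
  set R' := a' ⊔ tr τ {c | c ∈ C ∧ 0 < f' c} u₀ with hR'def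
  have hσT : Fx τ T (a ⊔ span τ K k) := (ha.mono hT.le).sup ((fx_span K k).mono hTK)
  have h2 := hnle.tup hu₀.inv hR'.inv le_rfl
  have h3 := h2.tdown hσT (c := R') le_sup_right (sup_le (sup_le (le_sup_of_le_right le_sup_left)
    (le_sup_of_le_left (le_sup_of_le_right (span_mono hTK le_rfl)))) le_sup_right)
  obtain ⟨m', hch⟩ := (hTs.of_le hTK hKC).chain (hC.sub hKC).pc.fg
  refine ((h3.mono (inf_le_inf_left _ ?_) inf_le_left).chain hch).of_le (by omega)
  exact le_sup_of_le_right (sup_le_sup haa (tr_mono subset_rfl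
    ((le_span T k).trans le_sup_right)))

theorem lift_lex {C : Subgroup B} (hC : PZ r C) (hk : IsCompactElement k) (ha : Fx τ C a)
    (h : Ge τ C e a (a ⊔ span τ C k)) :
    ∃ π : B → (Fin e → ℤ), IsHomOn C π ∧ (∀ v, ∃ c ∈ C, π c = v) ∧
      ¬ k ≤ a ⊔ tr τ {c | c ∈ C ∧ LexPos (π c)} k := by
  induction e generalizing C a with
  | zero =>
    refine ⟨fun _ => 0, fun _ _ _ _ => (add_zero _).symm,
      fun v => ⟨1, C.one_mem, Subsingleton.elim _ _⟩, fun hle => ?_⟩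
    have h1 : {c | c ∈ C ∧ LexPos ((fun _ => 0 : B → Fin 0 → ℤ) c)} = ∅ := by
      ext c
      simp [LexPos]
    rw [h1, tr_empty, sup_bot_eq] at hle
    exact h.lt.not_ge (sup_le le_rfl (span_le ha hle))
  | succ e ih =>
    obtain ⟨f, K, hf, ⟨t, ht, hft⟩, hK, hge⟩ := lift_step hC hk ha h
    have hKC : K ≤ C := fun g hg => ((hK g).1 hg).1
    set σ := a ⊔ span τ K k with hσ
    set R := a ⊔ tr τ {c | c ∈ C ∧ 0 < f c} k with hR
    have hσK : Fx τ K σ := (ha.mono hKC).sup (fx_span K k)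
    have hRK : Fx τ K R := (ha.mono hKC).sup (fx_tr (S := {c | c ∈ C ∧ 0 < f c})
      (fun g hg c hc => ⟨C.mul_mem (hKC hg) hc.1, by
      rw [hf g (hKC hg) c hc.1, ((hK g).1 hg).2, zero_add]
      exact hc.2⟩) k)
    have he : σ ⊓ R ⊔ span τ K k = σ :=
      le_antisymm (sup_le inf_le_left le_sup_right)
        (sup_le_sup_right (le_inf le_sup_left le_sup_left) _)
    obtain ⟨π₁, hπ₁, hs₁, hn₁⟩ := ih (hC.sub hKC) (hσK.inf hRK) (by rwa [he])
    have hret : ∀ c ∈ C, c * t ^ (-f c) ∈ K := fun c hc =>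
      (hK _).2 ⟨C.mul_mem hc (C.zpow_mem ht _), by
        rw [hf c hc _ (C.zpow_mem ht _), hf.zpow ht, hft]
        simp⟩
    refine ⟨fun c => Fin.cons (f c) (π₁ (c * t ^ (-f c))), fun c hc c' hc' => ?_, fun v => ?_,
      fun hle => hn₁ ?_⟩
    · have h1 : c * c' * t ^ (-f (c * c')) = c * t ^ (-f c) * (c' * t ^ (-f c')) := by
        rw [hf c hc c' hc', neg_add, zpow_add, mul_mul_mul_comm]
      ext i
      refine Fin.cases ?_ (fun i => ?_) i
      · simp [hf c hc c' hc']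
      · simp only [h1, hπ₁ _ (hret c hc) _ (hret c' hc'), Fin.cons_succ, Pi.add_apply]
    · obtain ⟨c, hc, h1⟩ := hs₁ (Fin.tail v)
      have h2 : f (c * t ^ v 0) = v 0 := by
        rw [hf c (hKC hc) _ (C.zpow_mem ht _), ((hK c).1 hc).2, hf.zpow ht, hft]
        simp
      refine ⟨c * t ^ v 0, C.mul_mem (hKC hc) (C.zpow_mem ht _), ?_⟩
      simp only [h2]
      rw [zpow_neg, mul_inv_cancel_right, h1, Fin.cons_self_tail]
    · have hR₁ : tr τ {c | c ∈ K ∧ LexPos (π₁ c)} k ≤ σ :=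
        le_sup_of_le_right (tr_mono (fun c hc => hc.1) le_rfl)
      have h1 : k ≤ tr τ {c | c ∈ K ∧ LexPos (π₁ c)} k ⊔ R := by
        refine hle.trans (sup_le (le_sup_of_le_right le_sup_left) (tr_le_iff.2 ?_))
        rintro c ⟨hc, i, hi, hi'⟩
        refine Fin.cases (fun hi _ => ?_) (fun i hi hi' => ?_) i hi hi'
        · exact le_sup_of_le_right (le_sup_of_le_right (le_tr (S := {c | c ∈ C ∧ 0 < f c})
            ⟨hc, by simpa using hi⟩ k))
        · have h0 : f c = 0 := by simpa using hi' 0 (Fin.succ_pos i)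
          refine le_sup_of_le_left (le_tr (S := {c | c ∈ K ∧ LexPos (π₁ c)})
            ⟨(hK c).2 ⟨hc, h0⟩, i, by simpa [h0] using hi,
            fun j hj => ?_⟩ k)
          simpa [h0] using hi' j.succ (Fin.succ_lt_succ_iff.2 hj)
      have h2 : k ≤ σ := (le_span K k).trans le_sup_right
      have h3 := le_inf h1 h2
      rw [sup_inf_assoc_of_le _ hR₁] at h3
      rwa [sup_comm, inf_comm]

end Pool.Agent.Lib.MP_36fb39_al
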