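import Pool.Agent.Lib.MP_36fb39_al.Lat

set_option autoImplicit false

namespace Pool.Agent.Lib.MP_36fb39_al

section DegAux
variable {L : Type*} [CompleteLattice L]

/-- there is a strict chain with `n` steps in `[a, b]`. -/
def degCh : ℕ → L → L → Prop
  | 0, a, b => a ≤ b
  | n + 1, a, b => ∃ c, degCh n a c ∧ c < b

theorem deg_ch_le {n : ℕ} {a b : L} (h : degCh n a b) : a ≤ b := by
  induction n generalizing b with
  | zero => exact h
  | succ n ih =>
    obtain ⟨c, h1, h2⟩ := h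
    exact (ih h1).trans h2.le

theorem deg_ch_mono {n : ℕ} {a b a' b' : L} (h : degCh n a b) (ha : a' ≤ a) (hb : b ≤ b') :
    degCh n a' b' := by
  induction n generalizing b b' with
  | zero => exact ha.trans (le_trans h hb)
  | succ n ih =>
    obtain ⟨c, h1, h2⟩ := h
    exact ⟨c, ih h1 le_rfl, h2.trans_le hb⟩

theorem deg_ch_pred {n : ℕ} {a b : L} (h : degCh (n + 1) a b) : degCh n a b := by
  obtain ⟨c, h1, h2⟩ := h
  exact deg_ch_mono h1 le_rfl h2.le

theorem deg_ch_of_le {n m : ℕ} {a b : L} (h : degCh n a b) (hm : m ≤ n) : degCh m a b := by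
  induction n with
  | zero =>
    have : m = 0 := by omega
    subst this
    exact h
  | succ n ih =>
    rcases Nat.lt_or_ge m (n + 1) with h1 | h1
    · exact ih (deg_ch_pred h) (by omega)
    · have : m = n + 1 := by omega
      subst this
      exact h

theorem deg_ch_append {n m : ℕ} {a b c : L} (h : degCh n a b) (h' : degCh m b c) :
    degCh (n + m) a c := by
  induction m generalizing c with
  | zero => exact deg_ch_mono h le_rfl h'
  | succ m ih =>
    obtain ⟨d, h1, h2⟩ := h'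
    exact ⟨d, ih h1, h2⟩

theorem deg_ch_split [IsModularLattice L] {n : ℕ} {a c : L} (b : L) (h : degCh n a c) :
    ∃ i j, i + j = n ∧ degCh i (a ⊓ b) (c ⊓ b) ∧ degCh j (a ⊔ b) (c ⊔ b) := by
  induction n generalizing c with
  | zero => exact ⟨0, 0, rfl, inf_le_inf_right b h, sup_le_sup_right h b⟩
  | succ n ih =>
    obtain ⟨d, h1, h2⟩ := h
    obtain ⟨i, j, hij, h3, h4⟩ := ih h1
    by_cases h5 : c ⊓ b ≤ d ⊓ b
    · refine ⟨i, j + 1, by omega, deg_ch_mono h3 le_rfl (inf_le_inf_right b h2.le), d ⊔ b, h4, ?_⟩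
      refine lt_of_le_of_ne (sup_le_sup_right h2.le b) fun h6 => h2.ne ?_
      exact eq_of_le_of_inf_le_of_le_sup h2.le (h5.trans inf_le_left) (le_sup_left.trans h6.ge)
    · exact ⟨i + 1, j, by omega, ⟨d ⊓ b, h3, lt_of_le_of_ne (inf_le_inf_right b h2.le)
        fun h6 => h5 h6.ge⟩, deg_ch_mono h4 le_rfl (sup_le_sup_right h2.le b)⟩

theorem deg_ch_map (f : L ≃o L) {n : ℕ} {a b : L} (h : degCh n a b) : degCh n (f a) (f b) := by
  induction n generalizing b with
  | zero => exact f.monotone h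
  | succ n ih =>
    obtain ⟨c, h1, h2⟩ := h
    exact ⟨f c, ih h1, f.strictMono h2⟩

theorem deg_ch_map_iff (f : L ≃o L) {n : ℕ} {a b : L} : degCh n (f a) (f b) ↔ degCh n a b := by
  refine ⟨fun h => ?_, deg_ch_map f⟩
  simpa using deg_ch_map f.symm h

theorem deg_ch_fun {n : ℕ} {a b : L} (h : degCh n a b) :
    ∃ f : ℕ → L, a ≤ f 0 ∧ f n ≤ b ∧ ∀ i < n, f i < f (i + 1) := by
  induction n generalizing b with
  | zero => exact ⟨fun _ => a, le_rfl, h, fun i hi => absurd hi (Nat.not_lt_zero i)⟩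
  | succ n ih =>
    obtain ⟨c, h1, h2⟩ := h
    obtain ⟨f, h3, h4, h5⟩ := ih h1
    refine ⟨fun i => if i ≤ n then f i else b, by simpa using h3, by simp, fun i hi => ?_⟩
    have hi' : i ≤ n := by omega
    by_cases h6 : i + 1 ≤ n
    · simp only [hi', h6, if_true]
      exact h5 i (by omega)
    · have : i = n := by omega
      subst this
      simp only [le_refl, if_true, h6, if_false]
      exact h4.trans_lt h2

/-- length of the interval `[a, b]`. -/
noncomputable def degLen (a b : L) : ℕ := sSup {n | degCh n a b}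

/-- `b` exceeds `a` by a compact element. -/
def degR (a b : L) : Prop := ∃ k, IsCompactElement k ∧ b ≤ a ⊔ k

theorem deg_R_of_le {a b : L} (h : b ≤ a) : degR a b := ⟨⊥, compact_bot, by simpa using h⟩

theorem deg_R_trans {a b c : L} (h : degR a b) (h' : degR b c) : degR a c := by
  obtain ⟨k, hk, h1⟩ := h
  obtain ⟨k', hk', h2⟩ := h'
  refine ⟨k ⊔ k', compact_sup hk hk', h2.trans ?_⟩
  rw [← sup_assoc]
  exact sup_le_sup_right h1 k'

theorem deg_R_sup {a b c : L} (h : degR a b) (h' : degR a c) : degR a (b ⊔ c) := by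
  obtain ⟨k, hk, h1⟩ := h
  obtain ⟨k', hk', h2⟩ := h'
  exact ⟨k ⊔ k', compact_sup hk hk', sup_le (h1.trans (sup_le_sup_left le_sup_left a))
    (h2.trans (sup_le_sup_left le_sup_right a))⟩

theorem deg_R_map (f : L ≃o L) {a b : L} (h : degR a b) : degR (f a) (f b) := by
  obtain ⟨k, hk, h1⟩ := h
  refine ⟨f k, compact_orderIso f hk, ?_⟩
  rw [← f.map_sup]
  exact f.monotone h1

theorem deg_len_map (f : L ≃o L) (a b : L) : degLen (f a) (f b) = degLen a b := by
  unfold degLen
  simp only [deg_ch_map_iff]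

variable [IsModularLattice L] [IsCompactlyGenerated L] [IsAtomistic L]

theorem deg_bdd {a b : L} (h : degR a b) : BddAbove {n | degCh n a b} := by
  obtain ⟨k, hk, h1⟩ := h
  obtain ⟨n, hn⟩ := finite_height hk
  refine ⟨n, fun m hm => ?_⟩
  by_contra h2
  obtain ⟨f, h3, h4, h5⟩ := deg_ch_fun (deg_ch_of_le hm (le_of_not_ge h2))
  exact hn a f h3 (h4.trans h1) h5

theorem deg_le_len {n : ℕ} {a b : L} (h : degR a b) (hn : degCh n a b) : n ≤ degLen a b :=
  le_csSup (deg_bdd h) hn

theorem deg_ch_len {a b : L} (h : degR a b) (hab : a ≤ b) : degCh (degLen a b) a b :=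
  Nat.sSup_mem (s := {n | degCh n a b}) ⟨0, hab⟩ (deg_bdd h)

theorem deg_len_add {a b c : L} (hab : a ≤ b) (hbc : b ≤ c) (h : degR a c) :
    degLen a c = degLen a b + degLen b c := by
  have h1 : degR a b := deg_R_trans h (deg_R_of_le hbc)
  have h2 : degR b c := deg_R_trans (deg_R_of_le hab) h
  apply le_antisymm
  · obtain ⟨i, j, hij, h3, h4⟩ := deg_ch_split b (deg_ch_len h (hab.trans hbc))
    rw [inf_eq_left.2 hab, inf_eq_right.2 hbc] at h3
    rw [sup_eq_right.2 hab, sup_eq_left.2 hbc] at h4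
    have := deg_le_len h1 h3
    have := deg_le_len h2 h4
    omega
  · exact deg_le_len h (deg_ch_append (deg_ch_len h1 hab) (deg_ch_len h2 hbc))

theorem deg_eq_of_len {a b : L} (hab : a ≤ b) (h : degR a b) (h0 : degLen a b = 0) : a = b := by
  by_contra hne
  have : degCh 1 a b := ⟨a, le_rfl, lt_of_le_of_ne hab hne⟩
  have := deg_le_len h this
  omega

/-- the relative degree of two commensurable elements. -/
noncomputable def degDel (a b : L) : ℤ := (degLen a (a ⊔ b) : ℤ) - degLen b (a ⊔ b)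

theorem deg_del_eq {a b t : L} (ha : a ≤ t) (hb : b ≤ t) (hat : degR a t) (hbt : degR b t) :
    degDel a b = (degLen a t : ℤ) - degLen b t := by
  unfold degDel
  rw [deg_len_add le_sup_left (sup_le ha hb) hat, deg_len_add le_sup_right (sup_le ha hb) hbt]
  push_cast
  ring

theorem deg_del_add {a b c : L} (hab : degR a b) (hba : degR b a) (hbc : degR b c)
    (hcb : degR c b) : degDel a c = degDel a b + degDel b c := by
  have hb : degR b (a ⊔ b ⊔ c) := deg_R_sup (deg_R_sup hba (deg_R_of_le le_rfl)) hbc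
  have ha : degR a (a ⊔ b ⊔ c) := deg_R_trans hab hb
  have hc : degR c (a ⊔ b ⊔ c) := deg_R_trans hcb hb
  have h1 : a ≤ a ⊔ b ⊔ c := le_sup_left.trans le_sup_left
  have h2 : b ≤ a ⊔ b ⊔ c := le_sup_right.trans le_sup_left
  have h3 : c ≤ a ⊔ b ⊔ c := le_sup_right
  rw [deg_del_eq h1 h3 ha hc, deg_del_eq h1 h2 ha hb, deg_del_eq h2 h3 hb hc]
  ring

omit [IsModularLattice L] [IsCompactlyGenerated L] [IsAtomistic L] in
theorem deg_del_map (f : L ≃o L) (a b : L) : degDel (f a) (f b) = degDel a b := by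
  unfold degDel
  rw [← f.map_sup, deg_len_map, deg_len_map]

omit [IsModularLattice L] [IsCompactlyGenerated L] [IsAtomistic L] in
theorem deg_window {k c : L} (hk : IsCompactElement k) (f : ℤ → L) (h : k ≤ (⨆ i, f i) ⊔ c) :
    ∃ m : ℕ, k ≤ (Finset.Ico (-(m : ℤ)) m).sup f ⊔ c := by
  have h1 : k ≤ ⨆ i, (f i ⊔ c) := by rwa [← iSup_sup]
  obtain ⟨s, hs⟩ := CompleteLattice.IsCompactElement.exists_finset_of_le_iSup L hk _ h1
  refine ⟨s.sup Int.natAbs + 1, hs.trans (iSup₂_le fun i hi => sup_le_sup_right ?_ c)⟩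
  have h2 : i.natAbs ≤ s.sup Int.natAbs := Finset.le_sup hi
  refine Finset.le_sup (f := f) (Finset.mem_Ico.2 ⟨?_, ?_⟩) <;> push_cast <;> omega

theorem deg_key (Z : L ≃o L) {W W' W'' : L} (hW : IsCompactElement W)
    (hW' : IsCompactElement W') (hW'' : IsCompactElement W'')
    (h : ⨆ n : ℤ, (Z ^ n) W' ≤ (⨆ n : ℤ, (Z ^ n) W) ⊔ W'') :
    degR (⨆ n : ℕ, (Z ^ n) W) (⨆ n : ℕ, (Z ^ n) W') := by
  obtain ⟨N, hN⟩ := finite_height hW''
  set S := ⨆ n : ℤ, (Z ^ n) W with hS
  have h1 := hN S (fun n => S ⊔ (Finset.range n).sup fun j => (Z ^ j) W') le_sup_left (by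
    refine sup_le le_sup_left (le_trans ?_ h)
    refine Finset.sup_le fun j _ => ?_
    have := le_iSup (fun n : ℤ => (Z ^ n) W') (j : ℤ)
    simpa using this)
  push Not at h1
  obtain ⟨n, -, hn⟩ := h1
  have h2 : (Z ^ n) W' ≤ S ⊔ (Finset.range n).sup fun j => (Z ^ j) W' := by
    by_contra h3
    apply hn
    refine lt_of_le_of_ne (sup_le_sup_left (Finset.sup_mono (by simp)) S) fun h4 => h3 ?_
    rw [h4]
    exact le_sup_of_le_right (Finset.le_sup (f := fun j => (Z ^ j) W') (by simp))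
  obtain ⟨m, hm⟩ := deg_window (compact_orderIso (Z ^ n) hW') _ h2
  refine ⟨(Finset.Ico (-(m : ℤ)) 0).sup (fun i => (Z ^ i) W) ⊔
    (Finset.range n).sup fun j => (Z ^ j) W', compact_sup
      (CompleteLattice.isCompactElement_finsetSup _ fun i _ => compact_orderIso _ hW)
      (CompleteLattice.isCompactElement_finsetSup _ fun i _ => compact_orderIso _ hW'), ?_⟩
  refine iSup_le fun r => ?_
  induction r using Nat.strong_induction_on with
  | _ r ih =>
    rcases Nat.lt_or_ge r n with h3 | h3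
    · exact le_sup_of_le_right (le_sup_of_le_right
        (Finset.le_sup (f := fun j => (Z ^ j) W') (by simpa using h3)))
    · obtain ⟨q, rfl⟩ := Nat.exists_eq_add_of_le' h3
      have h4 := (Z ^ q).monotone hm
      rw [OrderIso.map_sup, map_finset_sup, map_finset_sup] at h4
      rw [pow_add, RelIso.mul_apply]
      refine h4.trans (sup_le (Finset.sup_le fun i hi => ?_) (Finset.sup_le fun j hj => ?_))
      · have h5 : (Z ^ q) ((Z ^ i) W) = (Z ^ ((q : ℤ) + i)) W := by
          rw [zpow_add, zpow_natCast, RelIso.mul_apply]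
        change (Z ^ q) ((Z ^ i) W) ≤ _
        rw [h5]
        rcases lt_or_ge ((q : ℤ) + i) 0 with h6 | h6
        · refine le_sup_of_le_right (le_sup_of_le_left
            (Finset.le_sup (f := fun i : ℤ => (Z ^ i) W) (Finset.mem_Ico.2 ⟨?_, h6⟩)))
          have := (Finset.mem_Ico.1 hi).1
          omega
        · obtain ⟨p, hp⟩ := Int.eq_ofNat_of_zero_le h6
          rw [hp, zpow_natCast]
          exact le_sup_of_le_left (le_iSup (fun n : ℕ => (Z ^ n) W) p)
      · change (Z ^ q) ((Z ^ j) W') ≤ _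
        rw [← RelIso.mul_apply, ← pow_add]
        exact ih _ (by have := Finset.mem_range.1 hj; omega)

theorem deg_ne (Z : L ≃o L) {W : L} (hW : IsCompactElement W) (hW0 : W ≠ ⊥)
    (hfree : ∀ u, IsCompactElement u → Z u = u → u = ⊥) :
    ¬ W ≤ ⨆ n : ℕ, (Z ^ (n + 1)) W := by
  intro h
  obtain ⟨s, hs⟩ := CompleteLattice.IsCompactElement.exists_finset_of_le_iSup L hW _ h
  set C := (Finset.range (s.sup id + 1)).sup fun n => (Z ^ n) W with hC
  have hCc : IsCompactElement C :=
    CompleteLattice.isCompactElement_finsetSup _ fun i _ => compact_orderIso _ hW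
  have h1 : ∀ i ≤ s.sup id, (Z ^ (i + 1)) W ≤ Z C := fun i hi => by
    rw [pow_succ', RelIso.mul_apply]
    exact Z.monotone (Finset.le_sup (f := fun n => (Z ^ n) W) (by simp; omega))
  have h2 : W ≤ Z C := hs.trans (iSup₂_le fun i hi => h1 i (Finset.le_sup (f := id) hi))
  have h3 : C ≤ Z C := by
    refine Finset.sup_le fun j hj => ?_
    rcases j with _ | j
    · simpa using h2
    · exact h1 j (by have := Finset.mem_range.1 hj; omega)
  have hR : degR (⊥ : L) (Z C) := ⟨Z C, compact_orderIso Z hCc, le_sup_right⟩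
  have h4 := deg_len_add bot_le h3 hR
  have h5 := deg_len_map Z ⊥ C
  rw [Z.map_bot] at h5
  have h6 := deg_eq_of_len h3 (deg_R_trans (deg_R_of_le bot_le) hR) (by omega)
  have h7 := hfree C hCc h6.symm
  apply hW0
  rw [h7, Z.map_bot] at h2
  exact le_bot_iff.1 h2

end DegAux

/-- The degree homomorphism: a central element acting freely with finite rank is detected
by a homomorphism to `ℤ`. -/
theorem exists_deg {H : Type*} [Group H] {L : Type*} [CompleteLattice L] [IsModularLattice L]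
    [IsCompactlyGenerated L] [IsAtomistic L] (τ : H →* (L ≃o L)) (z : H)
    (hz : ∀ g, τ (g * z) = τ (z * g)) {W : L} (hW : IsCompactElement W) (hW0 : W ≠ ⊥)
    (hfree : ∀ u, IsCompactElement u → τ z u = u → u = ⊥)
    (hfin : ∀ W', IsCompactElement W' → ∃ W'', IsCompactElement W'' ∧
      span τ (Subgroup.zpowers z) W' ≤ span τ (Subgroup.zpowers z) W ⊔ W'') :
    ∃ φ : H → ℤ, IsHomOn ⊤ φ ∧ φ z ≠ 0 := by
  have hsp : ∀ V : L, span τ (Subgroup.zpowers z) V = ⨆ n : ℤ, ((τ z) ^ n) V := fun V => by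
    apply le_antisymm
    · refine tr_le_iff.2 fun g hg => ?_
      obtain ⟨n, rfl⟩ := Subgroup.mem_zpowers_iff.1 hg
      rw [map_zpow]
      exact le_iSup (fun n : ℤ => ((τ z) ^ n) V) n
    · refine iSup_le fun n => ?_
      rw [← map_zpow]
      exact le_tr (Subgroup.mem_zpowers_iff.2 ⟨n, rfl⟩) V
  set Λ := ⨆ n : ℕ, ((τ z) ^ n) W with hΛ
  have hact : ∀ g, τ g Λ = ⨆ n : ℕ, ((τ z) ^ n) (τ g W) := fun g => by
    have hc : Commute (τ g) (τ z) := by
      have := hz g
      rwa [map_mul, map_mul] at this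
    rw [hΛ, OrderIso.map_iSup]
    refine iSup_congr fun n => ?_
    rw [← RelIso.mul_apply, (hc.pow_right n).eq, RelIso.mul_apply]
  have h1 : ∀ g, degR Λ (τ g Λ) := fun g => by
    obtain ⟨W'', h2, h3⟩ := hfin (τ g W) (compact_orderIso _ hW)
    rw [hsp, hsp] at h3
    rw [hact]
    exact deg_key (τ z) hW (compact_orderIso _ hW) h2 h3
  have h2 : ∀ g, degR (τ g Λ) Λ := fun g => by
    have := deg_R_map (τ g) (h1 g⁻¹)
    rwa [act_act_inv] at this
  refine ⟨fun g => degDel (τ g Λ) Λ, fun a _ b _ => ?_, fun h0 => ?_⟩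
  · change degDel (τ (a * b) Λ) Λ = degDel (τ a Λ) Λ + degDel (τ b Λ) Λ
    rw [deg_del_add (b := τ a Λ) (deg_R_trans (h2 _) (h1 _)) (deg_R_trans (h2 _) (h1 _)) (h2 _)
      (h1 _), act_mul, deg_del_map, add_comm]
  · have h3 : τ z Λ = ⨆ n : ℕ, ((τ z) ^ (n + 1)) W := by
      rw [hact]
      refine iSup_congr fun n => ?_
      rw [pow_succ, RelIso.mul_apply]
    have h4 : τ z Λ ≤ Λ := by
      rw [h3]
      exact iSup_le fun n => le_iSup (fun n : ℕ => ((τ z) ^ n) W) (n + 1)
    have h5 := deg_del_eq h4 le_rfl (h2 z) (deg_R_of_le le_rfl)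
    have h6 := deg_len_add (le_refl Λ) le_rfl (deg_R_of_le le_rfl)
    have h7 : degLen (τ z Λ) Λ = 0 := by
      change degDel (τ z Λ) Λ = 0 at h0
      omega
    have h8 := deg_eq_of_len h4 (h2 z) h7
    apply deg_ne (τ z) hW hW0 hfree
    rw [← h3, h8]
    have := le_iSup (fun n : ℕ => ((τ z) ^ n) W) 0
    simpa using this

end Pool.Agent.Lib.MP_36fb39_al
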