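import Pool.Agent.Lib.MP_36fb39_al.Poly

set_option autoImplicit false

open Polynomial
open scoped commutatorElement

namespace Pool.Agent.Lib.MP_36fb39_al

variable {G : Type*} [Group G]

theorem abKer_sat (N : Subgroup G) : Sat (abKer N) N := by
  refine ⟨fun g hg => hg.1, fun a ha b hb => ⟨?_, fun φ hφ => ?_⟩, fun g hg n hn h => ⟨hg, fun φ hφ => ?_⟩⟩
  · exact N.mul_mem (N.mul_mem (N.mul_mem ha hb) (N.inv_mem ha)) (N.inv_mem hb)
  · rw [hφ _ (N.mul_mem (N.mul_mem ha hb) (N.inv_mem ha)) _ (N.inv_mem hb),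
      hφ _ (N.mul_mem ha hb) _ (N.inv_mem ha), hφ _ ha _ hb, hφ.inv ha, hφ.inv hb]
    ring
  · have h1 := h.2 φ hφ
    rw [hφ.pow hg, nsmul_eq_mul, mul_eq_zero] at h1
    exact h1.resolve_left (by exact_mod_cast hn.ne')

theorem nil_abKer_conj {g : G} {N : Subgroup G} (h : Nz g N) {a : G} (ha : a ∈ abKer N) :
    g * a * g⁻¹ ∈ abKer N := by
  refine ⟨(h a).mp ha.1, fun φ hφ => ha.2 (fun x => φ (g * x * g⁻¹)) fun x hx y hy => ?_⟩
  show φ (g * (x * y) * g⁻¹) = φ (g * x * g⁻¹) + φ (g * y * g⁻¹)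
  rw [← hφ _ ((h x).mp hx) _ ((h y).mp hy)]
  congr 1
  group

theorem abKer_nz {g : G} {N : Subgroup G} (h : Nz g N) : Nz g (abKer N) := by
  refine Nz.of_forall (fun a ha => nil_abKer_conj h ha) fun a ha => ?_
  have := nil_abKer_conj h.inv ha
  rwa [inv_inv] at this

theorem isNilpotent_of_le {N K : Subgroup G} (hN : Group.IsNilpotent N) (h : K ≤ N) :
    Group.IsNilpotent K :=
  Group.nilpotent_of_mulEquiv (Subgroup.subgroupOfEquivOfLe h)

theorem nil_comm_pow {Q : Type*} [Group Q] {x g : Q} (hc : ∀ y, Commute ⁅x, g⁆ y) (n : ℕ) :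
    ⁅x ^ n, g⁆ = ⁅x, g⁆ ^ n := by
  have h1 : g * x⁻¹ * g⁻¹ = x⁻¹ * ⁅x, g⁆ := by rw [commutatorElement_def]; group
  have h2 : (g * x⁻¹ * g⁻¹) ^ n = g * x⁻¹ ^ n * g⁻¹ := conj_pow
  rw [h1, (hc x⁻¹).symm.mul_pow] at h2
  calc ⁅x ^ n, g⁆ = x ^ n * (g * x⁻¹ ^ n * g⁻¹) := by rw [commutatorElement_def, inv_pow]; group
    _ = _ := by rw [← h2, inv_pow, mul_inv_cancel_left]

theorem nil_root {H : Type*} [Group H] (htf : ∀ (x : H) (n : ℕ), 0 < n → x ^ n = 1 → x = 1)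
    (i : ℕ) : ∀ (x : H) (n : ℕ), 0 < n → x ∈ Subgroup.upperCentralSeries H (i + 1) →
      x ^ n ∈ Subgroup.upperCentralSeries H i → x ∈ Subgroup.upperCentralSeries H i := by
  induction i with
  | zero =>
    intro x n hn _ h
    rw [Subgroup.upperCentralSeries_zero, Subgroup.mem_bot] at h ⊢
    exact htf x n hn h
  | succ i ih =>
    intro x n hn hx h
    rw [Subgroup.mem_upperCentralSeries_succ_iff] at hx h ⊢
    intro g
    refine ih _ n hn (hx g) ?_
    set q := QuotientGroup.mk' (Subgroup.upperCentralSeries H i) with hq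
    have hker : ∀ z, q z = 1 ↔ z ∈ Subgroup.upperCentralSeries H i := fun z =>
      QuotientGroup.eq_one_iff z
    have hc : ∀ y, Commute ⁅q x, q g⁆ y := by
      intro y
      obtain ⟨y, rfl⟩ := QuotientGroup.mk'_surjective (Subgroup.upperCentralSeries H i) y
      rw [← commutatorElement_eq_one_iff_commute, ← map_commutatorElement, ← hq,
        ← map_commutatorElement, hker]
      exact Subgroup.mem_upperCentralSeries_succ_iff.mp (hx g) y
    rw [← hker, map_pow, map_commutatorElement, ← nil_comm_pow hc, ← map_pow,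
      ← map_commutatorElement, hker]
    exact h g

/-- a nontrivial normal subgroup of a torsion-free f.g. nilpotent group has a nontrivial
invariant homomorphism to `ℤ`. -/
theorem exists_inv_hom {h : ℕ} {N Z : Subgroup G} (hN : PZ h N) (hnil : Group.IsNilpotent N)
    (hZ : Z ≤ N) (hn : ∀ g ∈ N, Nz g Z) (hne : Z ≠ ⊥) :
    ∃ φ : G → ℤ, IsHomOn Z φ ∧ (∃ z ∈ Z, φ z ≠ 0) ∧
      ∀ g ∈ N, ∀ z ∈ Z, φ (g * z * g⁻¹) = φ z := by
  classical
  set ζ : ℕ → Subgroup G := fun i => (Subgroup.upperCentralSeries N i).map N.subtype with hζ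
  have hmem : ∀ i (x : N), (x : G) ∈ ζ i ↔ x ∈ Subgroup.upperCentralSeries N i := fun i x =>
    Subgroup.mem_map_iff_mem N.subtype_injective
  have hex : ∃ i, Z ≤ ζ i := by
    obtain ⟨i, hi⟩ := hnil.nilpotent'
    exact ⟨i, fun z hz => (hmem i ⟨z, hZ hz⟩).mpr (hi ▸ Subgroup.mem_top _)⟩
  have h0 : Nat.find hex ≠ 0 := by
    intro h0
    have h1 := Nat.find_spec hex
    rw [h0, hζ] at h1
    simp only [Subgroup.upperCentralSeries_zero, Subgroup.map_bot, le_bot_iff] at h1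
    exact hne h1
  obtain ⟨i, hi⟩ := Nat.exists_eq_succ_of_ne_zero h0
  have h1 : Z ≤ ζ (i + 1) := by
    have := Nat.find_spec hex
    rwa [hi] at this
  have h2 : ¬ Z ≤ ζ i := Nat.find_min hex (by omega)
  have htf : ∀ (x : N) (n : ℕ), 0 < n → x ^ n = 1 → x = 1 := fun x n hn hx =>
    Subtype.ext (hN.tf x x.2 n hn (congrArg Subtype.val hx))
  have hcomm : ∀ z ∈ Z, ∀ g ∈ N, z * g * z⁻¹ * g⁻¹ ∈ Z ⊓ ζ i := by
    intro z hz g hg
    refine ⟨?_, ?_⟩
    · have := Z.mul_mem hz ((hn g hg z⁻¹).mp (Z.inv_mem hz))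
      rwa [← mul_assoc, ← mul_assoc] at this
    · exact (hmem i ⁅(⟨z, hZ hz⟩ : N), ⟨g, hg⟩⁆).mpr
        (Subgroup.mem_upperCentralSeries_succ_iff.mp ((hmem _ ⟨z, hZ hz⟩).mp (h1 hz)) _)
  have hsat : Sat (Z ⊓ ζ i) Z := by
    refine ⟨inf_le_left, fun a ha b hb => hcomm a ha b (hZ hb), fun g hg n hn' hgn => ⟨hg, ?_⟩⟩
    exact (hmem i ⟨g, hZ hg⟩).mpr (nil_root htf i _ n hn' ((hmem _ ⟨g, hZ hg⟩).mp (h1 hg))
      ((hmem i (⟨g, hZ hg⟩ ^ n)).mp hgn.2))
  obtain ⟨m, π, hπ, -, hK⟩ := hsat.exists_hom (hN.sub hZ).pc.fg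
  obtain ⟨z, hz, hz'⟩ := SetLike.not_le_iff_exists.mp h2
  have h3 : π z ≠ 0 := fun h3 => hz' ((hK z).mpr ⟨hz, h3⟩).2
  obtain ⟨k, hk⟩ := Function.ne_iff.mp h3
  refine ⟨fun g => π g k, fun a ha b hb => congrFun (hπ a ha b hb) k, ⟨z, hz, hk⟩,
    fun g hg w hw => ?_⟩
  have h4 := (Z ⊓ ζ i).inv_mem (hcomm w hw g hg)
  have e : g * w * g⁻¹ = (w * g * w⁻¹ * g⁻¹)⁻¹ * w := by group
  show π (g * w * g⁻¹) k = π w k
  rw [e, hπ _ h4.1 _ hw, ((hK _).mp h4).2, zero_add]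

theorem nil_poly1 (j : ℕ) : ∃ P : ℤ[X], (1 + 3 * X : ℤ[X]) ^ j = 1 + 3 * X * (C (j : ℤ) + 3 * P) := by
  induction j with
  | zero => exact ⟨0, by simp⟩
  | succ j ih =>
    obtain ⟨P, hP⟩ := ih
    refine ⟨P + X * (C (j : ℤ) + 3 * P), ?_⟩
    rw [pow_succ, hP, Nat.cast_succ, C_add, C_1]
    ring

theorem nil_poly (j : ℕ) (hj : 0 < j) : ∃ (a : ℕ) (u : ℤ) (P : ℤ[X]), IsCoprime (3 : ℤ) u ∧
    (1 + 3 * X : ℤ[X]) ^ j = 1 + 3 ^ (a + 1) * (X * (C u + 3 * P)) := by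
  induction j using Nat.strong_induction_on with
  | _ j ih =>
    by_cases h3 : 3 ∣ j
    · obtain ⟨k, rfl⟩ := h3
      obtain ⟨a, u, P, hu, hP⟩ := ih k (by omega) (by omega)
      refine ⟨a + 1, u, P + (3 ^ a * (X * (C u + 3 * P)) * (C u + 3 * P) +
        3 ^ (2 * a) * (X * (C u + 3 * P)) ^ 2 * (C u + 3 * P)), hu, ?_⟩
      rw [mul_comm 3 k, pow_mul, hP]
      ring
    · obtain ⟨P, hP⟩ := nil_poly1 j
      refine ⟨0, j, P, ?_, by rw [hP]; ring⟩
      exact Nat.isCoprime_iff_coprime.mpr ((Nat.Prime.coprime_iff_not_dvd Nat.prime_three).mpr h3)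

theorem nil_exists_X {r : ℕ} (α : (Fin r → ℤ) ≃+ (Fin r → ℤ)) (hα : ∀ v, ∃ w, α v = v + 3 • w) :
    ∃ T : Module.End ℤ (Fin r → ℤ), (∀ v, α v = v + (3 : ℤ) • T v) ∧
      ∀ (j : ℕ) v, α^[j] v = aeval T ((1 + 3 * X : ℤ[X]) ^ j) v := by
  choose w hw using hα
  have hadd : ∀ v v', w (v + v') = w v + w v' := by
    intro v v'
    have h1 := hw (v + v')
    rw [map_add, hw v, hw v'] at h1
    funext i
    have h2 := congrFun h1 i
    simp only [Pi.add_apply, Pi.smul_apply] at h2 ⊢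
    simp only [nsmul_eq_mul] at h2
    push_cast at h2
    omega
  let T : Module.End ℤ (Fin r → ℤ) := (AddMonoidHom.mk' w hadd).toIntLinearMap
  have hT : ∀ v, α v = v + (3 : ℤ) • T v := fun v => by
    rw [hw v]
    rfl
  refine ⟨T, hT, fun j v => ?_⟩
  rw [map_pow, Module.End.pow_apply]
  congr 1
  funext u
  have e : (3 : ℤ[X]) = C 3 := rfl
  rw [hT, e, map_add, map_one, map_mul, aeval_C, aeval_X]
  simp

theorem nil_aeval {r : ℕ} (T : Module.End ℤ (Fin r → ℤ)) (n : ℕ) (P : ℤ[X]) (v : Fin r → ℤ) :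
    aeval T (3 ^ n * P) v = (3 : ℤ) ^ n • aeval T P v := by
  have e : (3 : ℤ[X]) ^ n = C (3 ^ n) := by rw [C_pow]; rfl
  rw [e, C_mul', map_smul, LinearMap.smul_apply]

/-- If `α ≡ 1 mod 3` and a power of `α` preserves a saturated subgroup, so does `α`. -/
theorem neat_lin {r : ℕ} (α : (Fin r → ℤ) ≃+ (Fin r → ℤ)) (hα : ∀ v, ∃ w, α v = v + 3 • w)
    (K : AddSubgroup (Fin r → ℤ)) (hK : ∀ (n : ℕ) v, 0 < n → n • v ∈ K → v ∈ K)
    {j : ℕ} (hj : 0 < j) (hinv : ∀ v, v ∈ K ↔ α^[j] v ∈ K) : ∀ v, v ∈ K ↔ α v ∈ K := by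
  obtain ⟨T, hT, hTj⟩ := nil_exists_X α hα
  obtain ⟨a, u, P, hu, hP⟩ := nil_poly j hj
  have hKz : ∀ (n : ℤ) v, n ≠ 0 → n • v ∈ K → v ∈ K := by
    intro n v hn h
    refine hK n.natAbs v (Int.natAbs_pos.mpr hn) ?_
    rw [← natCast_zsmul]
    rcases Int.natAbs_eq n with h1 | h1
    · rwa [← h1]
    · rw [h1, neg_smul] at h
      exact K.neg_mem_iff.mp h
  let A : ℤ[X] → Prop := fun p => ∀ v ∈ K, aeval T p v ∈ K
  have hAadd : ∀ p q, A p → A q → A (p + q) := fun p q hp hq v hv => by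
    rw [map_add, LinearMap.add_apply]
    exact K.add_mem (hp v hv) (hq v hv)
  have hAmul : ∀ p q, A p → A q → A (p * q) := fun p q hp hq v hv => by
    rw [map_mul, Module.End.mul_apply]
    exact hp _ (hq v hv)
  have hAC : ∀ c : ℤ, A (C c) := fun c v hv => by
    rw [aeval_C, Module.algebraMap_end_apply]
    exact K.zsmul_mem hv c
  have hY : A (X * (C u + 3 * P)) := fun v hv => by
    have h1 := (hinv v).mp hv
    rw [hTj, hP, map_add, map_one, LinearMap.add_apply, nil_aeval, Module.End.one_apply] at h1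
    exact hKz _ _ (by positivity) ((K.add_mem_cancel_left hv).mp h1)
  obtain ⟨s, t, hst⟩ := hu
  have hX : ∃ p q, A p ∧ X = p + 3 * q := by
    refine ⟨C t * (X * (C u + 3 * P)), C s * X - C t * X * P, hAmul _ _ (hAC t) hY, ?_⟩
    have e : (C s * 3 + C t * C u : ℤ[X]) = 1 := by
      have e3 : (3 : ℤ[X]) = C 3 := rfl
      rw [e3, ← C_mul, ← C_mul, ← C_add, hst, C_1]
    linear_combination (-X) * e
  have h1 : ∀ f : ℤ[X], ∃ p q, A p ∧ f = p + 3 * q := by
    intro f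
    obtain ⟨p₀, q₀, hp₀, e₀⟩ := hX
    refine Polynomial.induction_on f (fun c => ⟨C c, 0, hAC c, by simp⟩) ?_ ?_
    · rintro f g ⟨p, q, hp, rfl⟩ ⟨p', q', hp', rfl⟩
      exact ⟨p + p', q + q', hAadd _ _ hp hp', by ring⟩
    · rintro n c ⟨p, q, hp, e⟩
      refine ⟨p * p₀, p * q₀ + q * X, hAmul _ _ hp hp₀, ?_⟩
      rw [pow_succ, ← mul_assoc, e]
      linear_combination p * e₀
  have h2 : ∀ (n : ℕ) (f : ℤ[X]), ∃ p q, A p ∧ f = p + 3 ^ n * q := by
    intro n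
    induction n with
    | zero => exact fun f => ⟨C 0, f, hAC 0, by simp⟩
    | succ n ih =>
      intro f
      obtain ⟨p, q, hp, rfl⟩ := ih f
      obtain ⟨p', q', hp', rfl⟩ := h1 q
      have e : (3 : ℤ[X]) ^ n = C (3 ^ n) := by rw [C_pow]; rfl
      exact ⟨p + 3 ^ n * p', q', hAadd _ _ hp (e ▸ hAmul _ _ (hAC _) hp'), by ring⟩
  have h3 : ∀ v ∈ K, T v ∈ K := by
    intro v hv
    let K' : Submodule ℤ (Fin r → ℤ) := K.toIntSubmodule
    have h4 : K'.mkQ (T v) ∈ (⨅ n : ℕ, (Ideal.span {(3 : ℤ)}) ^ n • ⊤ :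
        Submodule ℤ ((Fin r → ℤ) ⧸ K')) := by
      rw [Submodule.mem_iInf]
      intro n
      obtain ⟨p, q, hp, e⟩ := h2 n X
      have h5 : T v = aeval T p v + (3 : ℤ) ^ n • aeval T q v := by
        rw [← nil_aeval, ← LinearMap.add_apply, ← map_add, ← e, aeval_X]
      have h6 : K'.mkQ (aeval T p v) = 0 := (Submodule.Quotient.mk_eq_zero K').mpr (hp v hv)
      rw [h5, map_add, h6, zero_add, map_smul]
      exact Submodule.smul_mem_smul (Ideal.pow_mem_pow (Ideal.mem_span_singleton_self 3) n)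
        Submodule.mem_top
    obtain ⟨⟨c, hc⟩, hc'⟩ := (Ideal.mem_iInf_smul_pow_eq_bot_iff _ _).mp h4
    obtain ⟨d, rfl⟩ := Ideal.mem_span_singleton'.mp hc
    refine hKz (d * 3 - 1) _ (by omega) ?_
    have h7 : K'.mkQ ((d * 3 - 1) • T v) = 0 := by
      rw [map_smul, sub_smul, one_smul, sub_eq_zero]
      exact hc'
    exact (Submodule.Quotient.mk_eq_zero K').mp h7
  have h4 : ∀ v ∈ K, α v ∈ K := fun v hv => by
    rw [hT]
    exact K.add_mem hv (K.zsmul_mem (h3 v hv) 3)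
  have h5 : ∀ (n : ℕ), ∀ v ∈ K, α^[n] v ∈ K := by
    intro n
    induction n with
    | zero => exact fun v hv => hv
    | succ n ih => exact fun v hv => ih _ (h4 v hv)
  refine fun v => ⟨h4 v, fun hv => (hinv v).mpr ?_⟩
  obtain ⟨k, rfl⟩ := Nat.exists_eq_succ_of_ne_zero hj.ne'
  exact h5 k _ hv

theorem neat_lin_hom {r : ℕ} (α : (Fin r → ℤ) ≃+ (Fin r → ℤ)) (hα : ∀ v, ∃ w, α v = v + 3 • w)
    (φ : (Fin r → ℤ) →+ ℤ) {j : ℕ} (hj : 0 < j) (hinv : ∀ v, φ (α^[j] v) = φ v) :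
    ∀ v, φ (α v) = φ v := by
  obtain ⟨T, hT, hTj⟩ := nil_exists_X α hα
  obtain ⟨a, u, P, hu, hP⟩ := nil_poly j hj
  have h1 : ∀ v, u * φ (T v) = -(3 * φ (T (aeval T P v))) := by
    intro v
    have h2 := hinv v
    rw [hTj, hP, map_add, map_one, LinearMap.add_apply, nil_aeval, Module.End.one_apply, map_add,
      map_zsmul, add_eq_left, smul_eq_zero, map_mul, aeval_X, Module.End.mul_apply, map_add,
      LinearMap.add_apply, aeval_C, Module.algebraMap_end_apply, ← pow_one (3 : ℤ[X]), nil_aeval,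
      map_add, map_smul, map_smul, map_add, map_zsmul, map_zsmul, pow_one, smul_eq_mul,
      smul_eq_mul] at h2
    have := h2.resolve_left (by positivity)
    linarith
  have h2 : ∀ (n : ℕ) v, (3 : ℤ) ^ n ∣ φ (T v) := by
    intro n
    induction n with
    | zero => simp
    | succ n ih =>
      intro v
      refine (hu.pow_left (m := n + 1)).dvd_of_dvd_mul_left ?_
      rw [h1, dvd_neg, pow_succ']
      exact mul_dvd_mul_left 3 (ih _)
  have h3 : ∀ v, φ (T v) = 0 := by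
    intro v
    refine Int.eq_zero_of_dvd_of_natAbs_lt_natAbs (h2 (φ (T v)).natAbs v) ?_
    rw [Int.natAbs_pow]
    exact Nat.lt_pow_self (by norm_num)
  intro v
  rw [hT, map_add, map_zsmul, h3, smul_zero, add_zero]

theorem nil_mod3 {r B : ℕ} (α : (Fin r → ℤ) ≃+ (Fin r → ℤ))
    (hr : Nat.card (Fin r → ZMod 3) ≤ B) (v : Fin r → ℤ) :
    ∃ w, α^[B.factorial] v = v + 3 • w := by
  let red : (Fin r → ℤ) →+ (Fin r → ZMod 3) := (Int.castAddHom (ZMod 3)).compLeft (Fin r)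
  have hred : ∀ x i, red x i = (x i : ZMod 3) := fun _ _ => rfl
  have hker : ∀ x y, red x = red y → ∃ w, x = y + 3 • w := by
    intro x y h
    have h1 : ∀ i, ∃ c, x i - y i = 3 * c := fun i => by
      have h2 := congrFun h i
      rw [hred, hred] at h2
      exact (ZMod.intCast_eq_intCast_iff_dvd_sub (y i) (x i) 3).mp h2.symm
    choose w hw using h1
    refine ⟨w, funext fun i => ?_⟩
    have := hw i
    rw [Pi.add_apply, Pi.smul_apply, nsmul_eq_mul]
    push_cast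
    omega
  have hsurj : Function.Surjective red := fun x =>
    ⟨fun i => (x i).cast, funext fun i => by rw [hred, ZMod.intCast_zmod_cast]⟩
  choose s hs using hsurj
  let β : (Fin r → ZMod 3) → (Fin r → ZMod 3) := fun x => red (α (s x))
  have hβ : ∀ x, β (red x) = red (α x) := by
    intro x
    obtain ⟨w, hw⟩ := hker _ _ (hs (red x))
    show red (α (s (red x))) = _
    rw [hw, map_add, map_add, map_nsmul, map_nsmul]
    have : 3 • red (α w) = 0 := by
      funext i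
      rw [Pi.smul_apply, nsmul_eq_mul]
      exact mul_eq_zero_of_left (ZMod.natCast_self 3) _
    rw [this, add_zero]
  have hβs : Function.Surjective β := fun x =>
    ⟨red (α.symm (s x)), by rw [hβ, AddEquiv.apply_symm_apply, hs]⟩
  let σ : Equiv.Perm (Fin r → ZMod 3) :=
    Equiv.ofBijective β (Finite.surjective_iff_bijective.mp hβs)
  have h1 : σ ^ B.factorial = 1 := by
    obtain ⟨c, hc⟩ := Nat.factorial_dvd_factorial hr
    rw [hc, pow_mul, ← Nat.card_perm, pow_card_eq_one', one_pow]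
  have h2 : ∀ (n : ℕ) x, (σ ^ n) (red x) = red (α^[n] x) := by
    intro n
    induction n with
    | zero => intro x; rfl
    | succ n ih =>
      intro x
      rw [pow_succ, Equiv.Perm.mul_apply, Function.iterate_succ_apply, ← ih, ← hβ]
      rfl
  refine hker _ _ ?_
  rw [← h2, h1]
  rfl

theorem nil_lift {N : Subgroup G} {r : ℕ} {π : G → (Fin r → ℤ)} (hπ : IsHomOn N π)
    (hs : ∀ v, ∃ g ∈ N, π g = v) (hK : ∀ g, g ∈ abKer N ↔ g ∈ N ∧ π g = 0) {y : G}
    (hy : Nz y N) : ∃ α : (Fin r → ℤ) ≃+ (Fin r → ℤ), ∀ n : ℕ, ∀ g ∈ N,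
      α^[n] (π g) = π (y ^ n * g * (y ^ n)⁻¹) := by
  obtain ⟨α, hα⟩ := exists_lift_aut hπ hs (MulAut.conj y) (fun g => hy g) fun g hg => by
    have h1 := abKer_nz hy g
    rw [hK, hK] at h1
    exact ⟨fun h => (h1.mp ⟨hg, h⟩).2, fun h => (h1.mpr ⟨(hy g).mp hg, h⟩).2⟩
  refine ⟨AddEquiv.toMultiplicative.symm α, fun n => ?_⟩
  induction n with
  | zero => intro g _; simp
  | succ n ih =>
    intro g hg
    have h1 : (AddEquiv.toMultiplicative.symm α) (π g) = π (y * g * y⁻¹) :=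
      congrArg Multiplicative.toAdd (hα g hg)
    rw [Function.iterate_succ_apply, h1, ih _ ((hy g).mp hg)]
    congr 1
    rw [pow_succ]
    group

theorem nil_card {h r : ℕ} {N : Subgroup G} (hN : PZ h N) {π : G → (Fin r → ℤ)}
    (hπ : IsHomOn N π) (hs : ∀ v, ∃ g ∈ N, π g = v) : Nat.card (Fin r → ZMod 3) ≤ 3 ^ h := by
  have h1 : IsHomOn N fun g i => (π g i : ZMod 3) := fun a ha b hb => by
    funext i
    simp [hπ a ha b hb]
  obtain ⟨f, hf⟩ := h1.exists_monoidHom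
  have hsurj : Function.Surjective f := by
    intro x
    obtain ⟨g, hg, e⟩ := hs fun i => (Multiplicative.toAdd x i).cast
    refine ⟨⟨g, hg⟩, ?_⟩
    rw [hf]
    simp only [e, ZMod.intCast_zmod_cast]
    rfl
  have h2 := hN.pc.top.map f
  rw [Subgroup.map_top_of_surjective f hsurj] at h2
  have h3 := (h2.finite_of_exponent (m := 3) (by norm_num) fun g _ => ?_).2
  · rwa [Subgroup.card_top] at h3
  · apply Multiplicative.toAdd.injective
    funext i
    rw [toAdd_pow, Pi.smul_apply, nsmul_eq_mul]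
    exact mul_eq_zero_of_left (ZMod.natCast_self 3) _

theorem neat_exists (h : ℕ) : ∃ J : ℕ, 0 < J ∧ ∀ (N : Subgroup G) (y : G), PZ h N → Nz y N →
    Neat (y ^ J) h N := by
  induction h with
  | zero => exact ⟨1, one_pos, fun _ _ _ _ => trivial⟩
  | succ h ih =>
    obtain ⟨J, hJ, ih⟩ := ih
    refine ⟨(3 ^ (h + 1)).factorial * J, Nat.mul_pos (Nat.factorial_pos _) hJ, fun N y hN hy => ?_⟩
    obtain ⟨r, π, hπ, hs, hK⟩ := (abKer_sat N).exists_hom hN.pc.fg
    set y₁ := y ^ (3 ^ (h + 1)).factorial with hy₁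
    have hy1 : Nz y₁ N := hy.pow _
    obtain ⟨α₀, hα₀⟩ := nil_lift hπ hs hK hy
    obtain ⟨α, hα⟩ := nil_lift hπ hs hK hy1
    have hα1 : ∀ g ∈ N, α (π g) = π (y₁ * g * y₁⁻¹) := fun g hg => by
      have := hα 1 g hg
      rwa [pow_one] at this
    have hmod : ∀ v, ∃ w, α v = v + 3 • w := by
      intro v
      obtain ⟨g, hg, rfl⟩ := hs v
      rw [hα1 g hg, hy₁, ← hα₀ _ g hg]
      exact nil_mod3 α₀ (nil_card hN hπ hs) _
    rw [pow_mul, ← hy₁]
    refine ⟨fun φ hφ j hj hinv => ?_, fun K hKs j hj hn => ?_⟩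
    · obtain ⟨f, hf⟩ := hφ.exists_monoidHom
      obtain ⟨f', hf'⟩ := exists_lift_hom hπ hs f fun g hg => by
        rw [hf, ((hK g).mpr ⟨g.2, hg⟩).2 φ hφ]
        rfl
      let ψ : (Fin r → ℤ) →+ ℤ := AddMonoidHom.toMultiplicative.symm f'
      have hψ : ∀ g ∈ N, ψ (π g) = φ g := fun g hg =>
        congrArg Multiplicative.toAdd ((hf' ⟨g, hg⟩).trans (hf ⟨g, hg⟩))
      have h1 := neat_lin_hom α hmod ψ (Nat.mul_pos hJ hj) fun v => by
        obtain ⟨g, hg, rfl⟩ := hs v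
        rw [hα _ g hg, hψ _ ((hy1.pow _ g).mp hg), hψ g hg, pow_mul, hinv g hg]
      have h2 : ∀ (n : ℕ) v, ψ (α^[n] v) = ψ v := by
        intro n
        induction n with
        | zero => intro v; rfl
        | succ n ihn => intro v; rw [Function.iterate_succ_apply, ihn, h1]
      intro a ha
      rw [← hψ _ ((hy1.pow J a).mp ha), ← hα J a ha, h2, hψ a ha]
    · have hab : abKer N ≤ K := by
        obtain ⟨m, π', hπ', -, hK'⟩ := hKs.exists_hom hN.pc.fg
        intro g hg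
        refine (hK' g).mpr ⟨hg.1, funext fun i => ?_⟩
        exact hg.2 (fun x => π' x i) fun a ha b hb => congrFun (hπ' a ha b hb) i
      let K' : AddSubgroup (Fin r → ℤ) :=
        { carrier := {v | ∃ g ∈ K, π g = v}
          add_mem' := by
            rintro _ _ ⟨a, ha, rfl⟩ ⟨b, hb, rfl⟩
            exact ⟨a * b, K.mul_mem ha hb, hπ a (hKs.le ha) b (hKs.le hb)⟩
          zero_mem' := ⟨1, K.one_mem, hπ.one⟩
          neg_mem' := by
            rintro _ ⟨a, ha, rfl⟩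
            exact ⟨a⁻¹, K.inv_mem ha, hπ.inv (hKs.le ha)⟩ }
      have hK' : ∀ g ∈ N, π g ∈ K' ↔ g ∈ K := by
        refine fun g hg => ⟨?_, fun h => ⟨g, h, rfl⟩⟩
        rintro ⟨a, ha, e⟩
        have h1 : a⁻¹ * g ∈ abKer N := (hK _).mpr ⟨N.mul_mem (N.inv_mem (hKs.le ha)) hg, by
          rw [hπ _ (N.inv_mem (hKs.le ha)) _ hg, hπ.inv (hKs.le ha), e, neg_add_cancel]⟩
        have h2 := K.mul_mem ha (hab h1)
        rwa [mul_inv_cancel_left] at h2
      have h1 := neat_lin α hmod K' (fun n v hn' hv => by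
        obtain ⟨g, hg, rfl⟩ := hs v
        rw [← hπ.pow hg, hK' _ (N.pow_mem hg n)] at hv
        exact (hK' g hg).mpr (hKs.root g hg n hn' hv)) (Nat.mul_pos hJ hj) fun v => by
          obtain ⟨g, hg, rfl⟩ := hs v
          rw [hα _ g hg, hK' g hg, hK' _ ((hy1.pow _ g).mp hg), pow_mul]
          exact hn g
      have h2 : Nz y₁ K := by
        intro a
        by_cases ha : a ∈ N
        · rw [← hK' a ha, ← hK' _ ((hy1 a).mp ha), ← hα1 a ha]
          exact h1 _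
        · exact ⟨fun h => absurd (hKs.le h) ha, fun h => absurd ((hy1 a).mpr (hKs.le h)) ha⟩
      exact ⟨h2.pow J, fun hne => ih K y₁ (hN.sat_lt hKs hne) h2⟩

end Pool.Agent.Lib.MP_36fb39_al
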