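import Pool.Agent.Lib.MP_36fb39_al.Cliff
import Pool.Agent.Lib.MP_36fb39_al.Deg
import Pool.Agent.Lib.MP_36fb39_al.Nil

set_option autoImplicit false

namespace Pool.Agent.Lib.MP_36fb39_al

variable {G : Type*} [Group G] {L : Type*} [CompleteLattice L] [IsModularLattice L]
  [IsCompactlyGenerated L] [IsAtomistic L] {ρ : G →* (L ≃o L)}

omit [IsModularLattice L] [IsCompactlyGenerated L] [IsAtomistic L] in
theorem af_span {N Z' Z : Subgroup G} {t : G} (hs : Step Z' Z t) (ht : t ∈ N) {x : L}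
    (hx : Fx ρ Z x) (k : L) :
    x ⊔ tr ρ (Subtype.val '' (Subgroup.zpowers (⟨t, ht⟩ : N) : Set N)) (x ⊔ span ρ Z' k) =
      x ⊔ span ρ Z k := by
  apply le_antisymm
  · refine sup_le le_sup_left (tr_le_of_fx (Γ := Z) ?_ (hx.sup (fx_span Z k))
      (sup_le_sup_left (span_mono hs.le le_rfl) x))
    rintro _ ⟨g, hg, rfl⟩
    obtain ⟨n, rfl⟩ := Subgroup.mem_zpowers_iff.1 hg
    simpa using Z.zpow_mem hs.mem n
  · refine sup_le_sup_left ?_ x
    rw [← span_span hs.le k, hs.toCStep.span_eq (fx_span Z' k)]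
    refine iSup_le fun n => le_trans ((ρ (t ^ n)).monotone (le_sup_right (a := x))) (le_tr ?_ _)
    exact ⟨(⟨t, ht⟩ : N) ^ n, Subgroup.mem_zpowers_iff.2 ⟨n, rfl⟩, by simp⟩

omit [IsModularLattice L] [IsCompactlyGenerated L] [IsAtomistic L] in
theorem af_finLen {N : Subgroup G} {d : ℕ} {x U : L} (hU : Crit ρ N d x U) :
    FinLen ρ N d x U := by
  refine ⟨2, ?_⟩
  rintro ⟨c, hc, ⟨c', -, h1, h2⟩, h3⟩
  exact hU.quot c hc (lt_of_le_of_lt h1 h2.lt) h3.lt.le h3

/-- the dimension does not drop along a central step inside `abKer N`. -/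
theorem af_no_drop {h m d' : ℕ} {N Z Z' : Subgroup G} {t : G} (hN : PZ h N) {x U : L}
    (hU : Crit ρ N (d' + 1) x U) (hs : Step Z' Z t) (hc : Chain Z m N) (ht : t ∈ abKer N)
    (hZ' : ∀ g ∈ N, Nz g Z') (hcomm : ∀ g ∈ N, g * t * g⁻¹ * t⁻¹ ∈ Z')
    (hh : Homog ρ Z (d' + 1) x U) (hl : Level ρ Z' d' x U) : False := by
  have hZN : Z ≤ N := hc.le
  have htN : t ∈ N := hZN hs.mem
  have hnZ : Nice ρ Z := (hN.sub hZN).nice
  have hnZ' : Nice ρ Z' := (hN.sub (hs.le.trans hZN)).nice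
  have hxU : x < U := hU.lt'
  obtain ⟨X, _, _, _, π, ι, act, hL⟩ := exists_lev hnZ'.ex hnZ'.noeth d' hl.invx hl.invs hxU.le
    N hZ' hU.invx hU.invp
  have : IsAtomistic X := hL.isAtomistic hl
  have hinx : In ρ Z' x U x := ⟨hl.invx, le_rfl, hxU.le⟩
  have hf : FinLen ρ Z (d' + 1) x U :=
    FinLen.chain_down hN hc hU.invx hU.invp hxU.le hU.lt (af_finLen hU)
  obtain ⟨k, hk, hkU, hge⟩ := hf.exists_fg hnZ.ex hh.invx hh.invs hxU.le
  have hspan : ∀ k' : L, k' ≤ U → span act (Subgroup.zpowers (⟨t, htN⟩ : N))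
      (π (x ⊔ span ρ Z' k')) = π (x ⊔ span ρ Z k') := fun k' hk' => by
    rw [← af_span hs htN hh.invx k']
    exact (hL.π_tr hZ' hU.invx hU.invp hl.invx (in_span hl.invx hl.invs hxU.le hk') _).symm
  obtain ⟨φ, hφ, hφt⟩ := exists_deg act (⟨t, htN⟩ : N) (W := π (x ⊔ span ρ Z' k))
    (fun g => by
      have h1 : g * (⟨t, htN⟩ : N) = g * ⟨t, htN⟩ * g⁻¹ * (⟨t, htN⟩ : N)⁻¹ * (⟨t, htN⟩ * g) := by
        group
      rw [h1, map_mul, hL.act_triv _ (by simpa using hcomm g g.2), one_mul])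
    (hL.cpt k hk hkU)
    (fun h0 => by
      have h1 := (hL.gc _ ⊥ (in_span hl.invx hl.invs hxU.le hkU)).1 h0.le
      rw [hL.ι_bot hl.toHomog] at h1
      have h2 : k ≤ x := (le_span Z' k).trans (le_sup_right.trans h1)
      rw [sup_eq_left.2 (span_le hh.invx h2)] at hge
      exact hge (hh.ge U hh.invs hxU le_rfl))
    (fun u hu hfix => by
      have h1 : Fx ρ Z (ι u) := by
        refine hs.toCStep.fx (hL.ι_in u).inv ?_
        have := hL.ι_act hZ' hU.invx hU.invp ⟨t, htN⟩ u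
        rw [hfix] at this
        exact this.symm
      have h2 : FinLen ρ Z' d' x (ι u) :=
        hL.finLen_of_le hinx (hL.ι_in u) hu (by rw [hL.π_ι]; exact le_sup_right)
      have h3 := not_ge_of_finLen hs hnZ.via hh.invx h1
        (fun h4 => hl.lt (h4.mono le_rfl (hL.ι_in u).hi)) h2
      have h4 : x = ι u := by
        by_contra h5
        exact h3 (hh.ge _ h1 (lt_of_le_of_ne (hL.ι_in u).lo h5) (hL.ι_in u).hi)
      rw [← hL.π_ι u, ← h4]
      exact hL.π_bot hl.invx)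
    (fun W' hW' => by
      obtain ⟨k', hk', hk'le, rfl⟩ := hL.exists_of_compact hl.invx hl.invs hW'
      have hk'U : k' ≤ U := hk'le.trans (hL.ι_in _).hi
      have hA : In ρ Z x U (x ⊔ span ρ Z k) := in_span hh.invx hh.invs hxU.le hkU
      have hB : In ρ Z x U (x ⊔ span ρ Z k ⊔ span ρ Z k') :=
        ⟨hA.inv.sup (fx_span Z k'), hA.lo.trans le_sup_left, sup_le hA.hi (span_le hh.invs hk'U)⟩
      have h1 : FinLen ρ Z' d' (x ⊔ span ρ Z k) (x ⊔ span ρ Z k ⊔ span ρ Z k') := by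
        by_contra h2
        rcases free_of_not_finLen hs hnZ' hnZ.noeth hA.inv hk' h2 with h3 | h3
        · exact hl.lt (h3.mono hA.lo hB.hi)
        · exact hge ((h3.ge hs).mono le_rfl hB.hi)
      have hA' : In ρ Z' x U (x ⊔ span ρ Z k) := ⟨hA.inv.mono hs.le, hA.lo, hA.hi⟩
      have hB' : In ρ Z' x U (x ⊔ span ρ Z k ⊔ span ρ Z k') := ⟨hB.inv.mono hs.le, hB.lo, hB.hi⟩
      obtain ⟨q, hq, h2⟩ := hL.exists_compact_of_finLen hnZ'.ex hl.invx hl.invs hA' hB'
        le_sup_left h1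
      refine ⟨q, hq, ?_⟩
      rw [hspan k hkU, hspan k' hk'U, ← h2]
      have hC : In ρ Z x U (x ⊔ span ρ Z k') := in_span hh.invx hh.invs hxU.le hk'U
      exact hL.π_mono ⟨hC.inv.mono hs.le, hC.lo, hC.hi⟩ hB' (sup_le_sup_right le_sup_left _))
  classical
  have h1 := ht.2 (fun g => if hg : g ∈ N then φ ⟨g, hg⟩ else 0) (fun a ha b hb => by
    simp only [dif_pos ha, dif_pos hb, dif_pos (N.mul_mem ha hb)]
    exact hφ ⟨a, ha⟩ trivial ⟨b, hb⟩ trivial)
  simp only [dif_pos htN] at h1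
  exact hφt h1

theorem af_dim_zero {h d : ℕ} {N : Subgroup G} (hN : PZ h N) (hnil : Group.IsNilpotent N)
    {x U : L} (hU : Crit ρ N d x U) (h' : ℕ) : ∀ (Z : Subgroup G) (m : ℕ), PZ h' Z →
      Z ≤ abKer N → (∀ g ∈ N, Nz g Z) → Chain Z m N → Homog ρ Z d x U → d = 0 := by
  have hbot : Homog ρ ⊥ d x U → d = 0 := fun hh =>
    (ge_bot_iff.1 (hh.ge U hh.invs hU.lt' le_rfl)).1
  induction h' with
  | zero =>
    intro Z m hZ _ _ _ hh
    rw [pz_zero_iff.1 hZ] at hh
    exact hbot hh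
  | succ h' ih =>
    intro Z m hZ hle hn hc hh
    by_cases hne : Z = ⊥
    · rw [hne] at hh
      exact hbot hh
    obtain ⟨φ, hφ, hnt, hinv⟩ := exists_inv_hom hN hnil hc.le hn hne
    obtain ⟨Z', hZ'⟩ := hφ.exists_ker
    obtain ⟨t, hs⟩ := step_of_hom hφ hnt hZ'
    have hn' : ∀ g ∈ N, Nz g Z' := fun g hg a => by
      rw [hZ', hZ']
      constructor
      · rintro ⟨h1, h2⟩
        exact ⟨(hn g hg a).1 h1, by rw [hinv g hg a h1, h2]⟩
      · rintro ⟨h1, h2⟩
        have h3 := (hn g hg a).2 h1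
        exact ⟨h3, by rw [← hinv g hg a h3, h2]⟩
    have hc' := (Chain.single hs).trans hc
    obtain ⟨d', hl⟩ := cl_gen hN hc' hn' hU
    rcases Homog.step hs (hN.sub hc.le).nice.via hh hl.toHomog hU.lt' with h1 | h1
    · subst h1
      exact ih Z' _ (hZ.step_down hs) (hs.le.trans hle) hn' hc' hl.toHomog
    · subst h1
      refine (af_no_drop hN hU hs hc (hle hs.mem) hn' (fun g hg => ?_) hh hl).elim
      have h2 := (hn g hg t).1 hs.mem
      rw [hZ']
      refine ⟨Z.mul_mem h2 (Z.inv_mem hs.mem), ?_⟩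
      rw [hφ _ h2 _ (Z.inv_mem hs.mem), hinv g hg t hs.mem, hφ.inv hs.mem, add_neg_cancel]

/-- below `abKer N` the dimension cannot drop. -/
theorem dim_zero_of_abKer {h d : ℕ} {N : Subgroup G} (hN : PZ h N) (hnil : Group.IsNilpotent N)
    {x U : L} (hU : Crit ρ N d x U) (hh : Homog ρ (abKer N) d x U) : d = 0 := by
  obtain ⟨m, hc⟩ := (abKer_sat N).chain hN.pc.fg
  exact af_dim_zero hN hnil hU h (abKer N) m (hN.sub (abKer_sat N).le) le_rfl (abKer_sat N).nz
    hc hh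

/-- the relative dimension in the quotient lattice is at least the difference of dimensions. -/
theorem ge_lev {h r d₂ : ℕ} {N Z H : Subgroup G} (hN : PZ h N) (hZ : Sat Z N) {x s : L}
    (hNH : N ≤ H) (hH : ∀ g ∈ H, Nz g Z) (hx : Fx ρ H x) (hs : Fx ρ H s)
    (hh : Homog ρ Z d₂ x s) {X : Type*} [CompleteLattice X] [IsModularLattice X]
    [IsCompactlyGenerated X] {π : L → X} {ι : X → L} {act : H →* (X ≃o X)}
    (hL : IsLev ρ Z d₂ x s H π ι act) {π₀ : G → (Fin r → ℤ)} (hπ₀ : IsHomOn N π₀)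
    (hs₀ : ∀ v, ∃ g ∈ N, π₀ g = v) (hk₀ : ∀ g, g ∈ Z ↔ g ∈ N ∧ π₀ g = 0)
    (τ : Multiplicative (Fin r → ℤ) →* (X ≃o X))
    (hτ : ∀ g (hg : g ∈ N), τ (Multiplicative.ofAdd (π₀ g)) = act ⟨g, hNH hg⟩)
    {d : ℕ} {p : L} (hp : Crit ρ N d x p) (hps : p ≤ s) :
    ∃ e, d = d₂ + e ∧ Ge τ ⊤ e ⊥ (π p) := by
  obtain ⟨f, hf⟩ := hπ₀.exists_monoidHom
  have hinx : In ρ Z x s x := ⟨hh.invx, le_rfl, hh.le⟩
  have key : ∀ (m : ℕ) (M : Subgroup G), Chain Z m M → M ≤ N → ∀ (d : ℕ) (p : L),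
      Crit ρ M d x p → p ≤ s →
        ∃ e, d = d₂ + e ∧ Ge τ ((M.comap N.subtype).map f) e ⊥ (π p) := by
    intro m M hc
    induction hc with
    | refl =>
      intro _ d p hp hps
      have h1 := hh.eq_of_crit hp hps
      subst h1
      refine ⟨0, rfl, Ge.zero ?_⟩
      rw [← hL.π_bot hh.invx]
      exact (hL.π_lt_iff hinx ⟨hp.invp, hp.lt'.le, hps⟩ hp.lt'.le).2 hp.ge
    | @step m M' M t hc hst ih =>
      intro hM d p hp hps
      have hM' : M' ≤ N := hst.le.trans hM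
      have hn : Nice ρ M := (hN.sub hM).nice
      have hn' : Nice ρ M' := (hN.sub hM').nice
      have hZM : Z ≤ M' := hc.le
      obtain ⟨d', k, -, hkp, hp', -⟩ := crit_exists hn'.ex hn'.fp hn'.bdd (hp.invx.mono hst.le)
        (hp.invp.mono hst.le) hp.lt'
      have hp'p : x ⊔ span ρ M' k ≤ p := sup_le hp.lt'.le (span_le (hp.invp.mono hst.le) hkp)
      generalize x ⊔ span ρ M' k = p' at hp' hp'p
      obtain ⟨e, he, hge⟩ := ih hM' d' p' hp' (hp'p.trans hps)
      have hin' : In ρ Z x s p' := ⟨hp'.invp.mono hZM, hp'.lt'.le, hp'p.trans hps⟩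
      have hin : In ρ Z x s p := ⟨hp.invp.mono (hZM.trans hst.le), hp.lt'.le, hps⟩
      have hππ : π p' ≤ π p := hL.π_mono hin' hin hp'p
      have hxc : x < span ρ M p' := hp'.lt'.trans_le (le_span M p')
      have hcp : span ρ M p' ≤ p := span_le hp.invp hp'p
      have hcr : Crit ρ M d x (span ρ M p') := hp.sub hn.ex (fx_span M p') hxc hcp
      have hng : ¬ Ge ρ M' (d' + 1) x (span ρ M p') := by
        have := not_ge_span hn'.ex hst.norm hp.invx hp'.invx hp'.invp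
          (by rw [sup_eq_right.2 hp'.lt'.le]; exact hp'.lt)
        rwa [sup_eq_right.2 hxc.le] at this
      have h1 : d' ≤ d := by
        by_contra h2
        exact hp.lt (((Ge.down hst hp'.ge).mono le_rfl hp'p).of_le (by omega))
      have h2 : d ≤ d' + 1 := by
        by_contra h3
        exact hng (Ge.step_down hst hn.via hp.invx (fx_span M p') (hcr.ge.of_le (by omega)))
      have hst' : Step ((M'.comap N.subtype).map f) ((M.comap N.subtype).map f)
          (f ⟨t, hM hst.mem⟩) := by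
        refine Step.map f (Step.comap N.subtype (t := ⟨t, hM hst.mem⟩) hst) fun g _ hg => ?_
        rw [hf] at hg
        exact hZM ((hk₀ g).2 ⟨g.2, ofAdd_eq_one.1 hg⟩)
      rcases Nat.eq_or_lt_of_le h1 with h3 | h3
      · exact ⟨e, by omega, (Ge.down hst' hge).mono le_rfl hππ⟩
      have h4 : d = d' + 1 := by omega
      subst h4
      have hi : IndOn ρ ((M : Set G) \ (M' : Set G)) x p' := by
        by_contra h5
        exact not_ge_of_finLen hst hn.via hp.invx (fx_span M p') hng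
          (finLen_of_not_indOn hst hn'.ex hp.invx hp' h5) hcr.ge
      refine ⟨e + 1, by omega, Ge.free hst' le_rfl hππ Fx.bot ?_ ?_ hge⟩
      · rintro _ ⟨g, hg, rfl⟩
        rw [hf, hτ g g.2, hL.act_π _ _ hin']
        exact congrArg π (hp'.invp g hg)
      · have hS : Subtype.val '' {g : H | (g : G) ∈ M ∧ (g : G) ∉ M'} =
            (M : Set G) \ (M' : Set G) := by
          ext g
          constructor
          · rintro ⟨g, hg, rfl⟩
            exact hg
          · intro hg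
            exact ⟨⟨g, hNH (hM hg.1)⟩, hg, rfl⟩
        have h5 := hL.π_tr hH hx hs hh.invx hin' {g : H | (g : G) ∈ M ∧ (g : G) ∉ M'}
        rw [hS] at h5
        have hin'' : In ρ Z x s (x ⊔ tr ρ ((M : Set G) \ (M' : Set G)) p') := by
          refine ⟨hh.invx.sup (fx_tr (fun g hg a ha => ?_) _), le_sup_left, sup_le hh.le
              (tr_le_of_fx (fun g hg => hNH (hM hg.1)) hs hin'.hi)⟩
          refine ⟨M.mul_mem (hst.le (hZM hg)) ha.1, fun h6 => ha.2 ?_⟩
          have := M'.mul_mem (M'.inv_mem (hZM hg)) h6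
          simpa using this
        have h6 : tr τ ((((M.comap N.subtype).map f : Subgroup _) : Set _) \
            (((M'.comap N.subtype).map f : Subgroup _) : Set _)) (π p') ≤
            π (x ⊔ tr ρ ((M : Set G) \ (M' : Set G)) p') := by
          rw [h5]
          refine tr_le_iff.2 ?_
          rintro _ ⟨⟨g, hg, rfl⟩, hg'⟩
          rw [hf, hτ g g.2]
          exact le_tr (S := {g : H | (g : G) ∈ M ∧ (g : G) ∉ M'}) (g := ⟨g, hNH g.2⟩)
            ⟨hg, fun h7 => hg' ⟨g, h7, rfl⟩⟩ _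
        unfold IndOn
        rw [bot_sup_eq]
        refine (inf_le_inf_left _ h6).trans ?_
        rw [← hL.π_inf _ _ hin' hin'', ← hL.π_bot hh.invx]
        exact hL.π_mono (hin'.inf hin'') hinx hi
  obtain ⟨e, he, hge⟩ := key r N (chain_of_hom hπ₀ hs₀ hk₀) le_rfl d p hp hps
  refine ⟨e, he, ?_⟩
  have htop : (N.comap N.subtype).map f = ⊤ := by
    refine eq_top_iff.2 fun v _ => ?_
    obtain ⟨g, hg, h1⟩ := hs₀ v.toAdd
    exact ⟨⟨g, hg⟩, hg, by rw [hf, h1, ofAdd_toAdd]⟩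
  rwa [htop] at hge

end Pool.Agent.Lib.MP_36fb39_al
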