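import Pool.Agent.Lib.MP_36fb39_al.Len

set_option autoImplicit false

namespace Pool.Agent.Lib.MP_36fb39_al

universe w

section In
variable {G : Type*} [Group G] {L : Type*} [CompleteLattice L] {ρ : G →* (L ≃o L)}
  {Z : Subgroup G} {x s u v : L}

theorem In.inf (hu : In ρ Z x s u) (hv : In ρ Z x s v) : In ρ Z x s (u ⊓ v) :=
  ⟨hu.inv.inf hv.inv, le_inf hu.lo hv.lo, inf_le_left.trans hu.hi⟩

theorem In.sup (hu : In ρ Z x s u) (hv : In ρ Z x s v) : In ρ Z x s (u ⊔ v) :=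
  ⟨hu.inv.sup hv.inv, hu.lo.trans le_sup_left, sup_le hu.hi hv.hi⟩

theorem In.sSup (hx : Fx ρ Z x) (hxs : x ≤ s) {S : Set L} (h : ∀ u ∈ S, In ρ Z x s u) :
    In ρ Z x s (x ⊔ sSup S) :=
  ⟨hx.sup (Fx.sSup fun a ha => (h a ha).inv), le_sup_left,
    sup_le hxs (sSup_le fun a ha => (h a ha).hi)⟩

theorem in_span (hx : Fx ρ Z x) (hs : Fx ρ Z s) (hxs : x ≤ s) {k : L} (hk : k ≤ s) :
    In ρ Z x s (x ⊔ span ρ Z k) :=
  ⟨hx.sup (fx_span Z k), le_sup_left, sup_le hxs (span_le hs hk)⟩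

theorem In.act (hu : In ρ Z x s u) {g : G} (hg : Nz g Z) (hx : ρ g x = x) (hs : ρ g s = s) :
    In ρ Z x s (ρ g u) :=
  ⟨hu.inv.conj hg, hx.symm.trans_le ((ρ g).monotone hu.lo), ((ρ g).monotone hu.hi).trans_eq hs⟩

end In

section Pre
variable {G : Type*} [Group G] {L : Type*} [CompleteLattice L] {ρ : G →* (L ≃o L)}
  {Z : Subgroup G} {x s u v : L} {X : Type*} [CompleteLattice X] {π : L → X} {ι : X → L}

/-- the purely order-theoretic part of `IsLev`. -/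
structure LevPre (ρ : G →* (L ≃o L)) (Z : Subgroup G) (x s : L) (π : L → X) (ι : X → L) :
    Prop where
  ι_in : ∀ q, In ρ Z x s (ι q)
  π_ι : ∀ q, π (ι q) = q
  gc : ∀ u q, In ρ Z x s u → (π u ≤ q ↔ u ≤ ι q)

theorem LevPre.le_ι_π (h : LevPre ρ Z x s π ι) (hu : In ρ Z x s u) : u ≤ ι (π u) :=
  (h.gc u _ hu).1 le_rfl

theorem LevPre.ι_le_iff (h : LevPre ρ Z x s π ι) {q q' : X} : ι q ≤ ι q' ↔ q ≤ q' := by
  rw [← h.gc _ _ (h.ι_in q), h.π_ι]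

theorem LevPre.π_mono (h : LevPre ρ Z x s π ι) (hu : In ρ Z x s u) (hv : In ρ Z x s v)
    (huv : u ≤ v) : π u ≤ π v :=
  (h.gc u _ hu).2 (huv.trans (h.le_ι_π hv))

theorem LevPre.ι_inf (h : LevPre ρ Z x s π ι) (q q' : X) : ι (q ⊓ q') = ι q ⊓ ι q' := by
  have hi := (h.ι_in q).inf (h.ι_in q')
  refine le_antisymm (le_inf (h.ι_le_iff.2 inf_le_left) (h.ι_le_iff.2 inf_le_right)) ?_
  exact (h.gc _ _ hi).1 (le_inf ((h.gc _ _ hi).2 inf_le_left) ((h.gc _ _ hi).2 inf_le_right))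

theorem LevPre.π_sup (h : LevPre ρ Z x s π ι) (hu : In ρ Z x s u) (hv : In ρ Z x s v) :
    π (u ⊔ v) = π u ⊔ π v :=
  le_antisymm ((h.gc _ _ (hu.sup hv)).2
      (sup_le ((h.gc _ _ hu).1 le_sup_left) ((h.gc _ _ hv).1 le_sup_right)))
    (sup_le (h.π_mono hu (hu.sup hv) le_sup_left) (h.π_mono hv (hu.sup hv) le_sup_right))

theorem LevPre.le (h : LevPre ρ Z x s π ι) : x ≤ s := (h.ι_in ⊥).lo.trans (h.ι_in ⊥).hi

theorem LevPre.π_sSup (h : LevPre ρ Z x s π ι) (hx : Fx ρ Z x) {S : Set L}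
    (hS : ∀ u ∈ S, In ρ Z x s u) : π (x ⊔ sSup S) = sSup (π '' S) := by
  have hi := In.sSup hx h.le hS
  refine le_antisymm ((h.gc _ _ hi).2 (sup_le (h.ι_in _).lo (sSup_le fun a ha => ?_)))
    (sSup_le ?_)
  · exact (h.gc _ _ (hS a ha)).1 (le_sSup ⟨a, ha, rfl⟩)
  · rintro _ ⟨a, ha, rfl⟩
    exact h.π_mono (hS a ha) hi ((le_sSup ha).trans le_sup_right)

theorem LevPre.sSup_cpt [IsCompactlyGenerated L] (h : LevPre ρ Z x s π ι) (hx : Fx ρ Z x)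
    (hs : Fx ρ Z s) (q : X) :
    sSup {r | ∃ k, IsCompactElement k ∧ k ≤ ι q ∧ r = π (x ⊔ span ρ Z k)} = q := by
  refine le_antisymm (sSup_le ?_) (h.ι_le_iff.1 (le_iff_compact_le_imp.2 fun k hk hkq => ?_))
  · rintro _ ⟨k, -, hk, rfl⟩
    exact (h.gc _ _ (in_span hx hs h.le (hk.trans (h.ι_in q).hi))).2
      (sup_le (h.ι_in q).lo (span_le (h.ι_in q).inv hk))
  · exact ((le_span Z k).trans le_sup_right).trans
      ((h.gc _ _ (in_span hx hs h.le (hkq.trans (h.ι_in q).hi))).1 (le_sSup ⟨k, hk, hkq, rfl⟩))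

end Pre

section Construction
variable {G : Type*} [Group G] {L : Type w} [CompleteLattice L] [IsModularLattice L]
  [IsCompactlyGenerated L] {ρ : G →* (L ≃o L)} {Z : Subgroup G} {d : ℕ} {x s u v : L}

/-- the hypotheses of `exists_lev`. -/
structure LevHyp (ρ : G →* (L ≃o L)) (Z : Subgroup G) (d : ℕ) (x s : L) : Prop where
  ex : Ex ρ Z
  hx : Fx ρ Z x
  hs : Fx ρ Z s
  le : x ≤ s

/-- the closure operator. -/
def levCl (ρ : G →* (L ≃o L)) (Z : Subgroup G) (d : ℕ) (x s u : L) : L :=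
  x ⊔ sSup {v | In ρ Z x s v ∧ u ≤ v ∧ ¬ Ge ρ Z d u v}

omit [IsModularLattice L] [IsCompactlyGenerated L] in
theorem LevHyp.cl_in (D : LevHyp ρ Z d x s) (u : L) : In ρ Z x s (levCl ρ Z d x s u) :=
  In.sSup D.hx D.le fun _ h => h.1

omit [IsModularLattice L] [IsCompactlyGenerated L] in
theorem lev_le_cl_of (hv : In ρ Z x s v) (huv : u ≤ v) (h : ¬ Ge ρ Z d u v) :
    v ≤ levCl ρ Z d x s u :=
  (le_sSup (s := {v | In ρ Z x s v ∧ u ≤ v ∧ ¬ Ge ρ Z d u v}) ⟨hv, huv, h⟩).trans le_sup_right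

omit [IsModularLattice L] [IsCompactlyGenerated L] in
theorem lev_le_cl (hu : In ρ Z x s u) : u ≤ levCl ρ Z d x s u :=
  lev_le_cl_of hu le_rfl (not_ge_of_le le_rfl)

theorem LevHyp.not_ge (D : LevHyp ρ Z d x s) (hu : In ρ Z x s u) :
    ¬ Ge ρ Z d u (levCl ρ Z d x s u) := fun h =>
  not_ge_sSup D.ex hu.inv (S := {v | In ρ Z x s v ∧ u ≤ v ∧ ¬ Ge ρ Z d u v})
    (fun _ hw => hw.1.inv) (fun w hw => by rw [sup_eq_right.2 hw.2.1]; exact hw.2.2)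
    (h.mono le_rfl (sup_le_sup_right hu.lo _))

theorem LevHyp.le_cl_iff (D : LevHyp ρ Z d x s) (hu : In ρ Z x s u) (hv : In ρ Z x s v) :
    v ≤ levCl ρ Z d x s u ↔ ¬ Ge ρ Z d (v ⊓ u) v := by
  constructor
  · intro h
    have := not_ge_inf (D.not_ge hu) hu.inv (D.cl_in u).inv hv.inv (lev_le_cl hu)
    rwa [inf_eq_right.2 h, inf_comm] at this
  · intro h
    have := not_ge_sup h hv.inv inf_le_left u
    rw [sup_eq_right.2 inf_le_right] at this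
    exact le_sup_left.trans (lev_le_cl_of (hv.sup hu) le_sup_right this)

theorem LevHyp.cl_mono (D : LevHyp ρ Z d x s) (hu : In ρ Z x s u) (hv : In ρ Z x s v)
    (huv : u ≤ v) : levCl ρ Z d x s u ≤ levCl ρ Z d x s v :=
  (D.le_cl_iff hv (D.cl_in u)).2 fun h =>
    D.not_ge hu (h.mono (le_inf (lev_le_cl hu) huv) le_rfl)

theorem LevHyp.cl_cl (D : LevHyp ρ Z d x s) (hu : In ρ Z x s u) :
    levCl ρ Z d x s (levCl ρ Z d x s u) = levCl ρ Z d x s u :=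
  le_antisymm (lev_le_cl_of (D.cl_in _) ((lev_le_cl hu).trans (lev_le_cl (D.cl_in u)))
    (not_ge_trans D.ex hu.inv (D.cl_in u).inv (D.cl_in _).inv (lev_le_cl hu)
      (lev_le_cl (D.cl_in u)) (D.not_ge hu) (D.not_ge (D.cl_in u)))) (lev_le_cl (D.cl_in u))

theorem LevHyp.cl_inf (D : LevHyp ρ Z d x s) (hu : In ρ Z x s u) (hv : In ρ Z x s v) :
    levCl ρ Z d x s (u ⊓ v) = levCl ρ Z d x s u ⊓ levCl ρ Z d x s v := by
  refine le_antisymm (le_inf (D.cl_mono (hu.inf hv) hu inf_le_left)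
    (D.cl_mono (hu.inf hv) hv inf_le_right)) ?_
  refine lev_le_cl_of ((D.cl_in u).inf (D.cl_in v)) (inf_le_inf (lev_le_cl hu) (lev_le_cl hv)) ?_
  have h1 := not_ge_inf (D.not_ge hu) hu.inv (D.cl_in u).inv hv.inv (lev_le_cl hu)
  have h2 := not_ge_inf (D.not_ge hv) hv.inv (D.cl_in v).inv (D.cl_in u).inv (lev_le_cl hv)
  rw [inf_comm v, inf_comm (levCl ρ Z d x s v)] at h2
  exact not_ge_trans D.ex (hu.inf hv).inv ((D.cl_in u).inf hv).inv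
    ((D.cl_in u).inf (D.cl_in v)).inv (inf_le_inf_right _ (lev_le_cl hu))
    (inf_le_inf_left _ (lev_le_cl hv)) h1 h2

omit [IsModularLattice L] [IsCompactlyGenerated L] in
theorem lev_nz_inv {g : G} (hg : Nz g Z) : Nz g⁻¹ Z := fun a => by
  rw [hg (g⁻¹ * a * g⁻¹⁻¹)]
  simp [mul_assoc]

theorem LevHyp.act_cl_le (D : LevHyp ρ Z d x s) (hu : In ρ Z x s u) {g : G} (hg : Nz g Z)
    (hx : ρ g x = x) (hs : ρ g s = s) :
    ρ g (levCl ρ Z d x s u) ≤ levCl ρ Z d x s (ρ g u) := by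
  refine lev_le_cl_of ((D.cl_in u).act hg hx hs) ((ρ g).monotone (lev_le_cl hu)) fun h => ?_
  have := h.conj (lev_nz_inv hg)
  rw [act_inv_act, act_inv_act] at this
  exact D.not_ge hu this

theorem LevHyp.act_cl (D : LevHyp ρ Z d x s) (hu : In ρ Z x s u) {g : G} (hg : Nz g Z)
    (hx : ρ g x = x) (hs : ρ g s = s) :
    ρ g (levCl ρ Z d x s u) = levCl ρ Z d x s (ρ g u) := by
  refine le_antisymm (D.act_cl_le hu hg hx hs) ?_
  have h1 := D.act_cl_le (hu.act hg hx hs) (lev_nz_inv hg)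
    ((congrArg (ρ g⁻¹) hx.symm).trans (act_inv_act ρ g x))
    ((congrArg (ρ g⁻¹) hs.symm).trans (act_inv_act ρ g s))
  rw [act_inv_act] at h1
  exact (act_act_inv ρ g _).symm.trans_le ((ρ g).monotone h1)

/-- the lattice of closed elements. -/
def LevX (_ : LevHyp ρ Z d x s) : Type w := {q : L // In ρ Z x s q ∧ levCl ρ Z d x s q = q}

omit [IsModularLattice L] [IsCompactlyGenerated L] in
theorem LevHyp.nrm_in (D : LevHyp ρ Z d x s) (u : L) : In ρ Z x s ((x ⊔ span ρ Z u) ⊓ s) :=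
  ⟨(D.hx.sup (fx_span Z u)).inf D.hs, le_inf le_sup_left D.le, inf_le_right⟩

omit [IsModularLattice L] [IsCompactlyGenerated L] in
theorem lev_nrm_eq (hu : In ρ Z x s u) : (x ⊔ span ρ Z u) ⊓ s = u := by
  rw [hu.inv.span_eq, sup_eq_right.2 hu.lo, inf_eq_left.2 hu.hi]

/-- the projection. -/
def levPi (D : LevHyp ρ Z d x s) (u : L) : LevX D :=
  ⟨levCl ρ Z d x s ((x ⊔ span ρ Z u) ⊓ s), D.cl_in _, D.cl_cl (D.nrm_in u)⟩

theorem levPi_val (D : LevHyp ρ Z d x s) (hu : In ρ Z x s u) :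
    (levPi D u).1 = levCl ρ Z d x s u := congrArg (levCl ρ Z d x s) (lev_nrm_eq hu)

instance levPO (D : LevHyp ρ Z d x s) : PartialOrder (LevX D) :=
  inferInstanceAs (PartialOrder {q : L // In ρ Z x s q ∧ levCl ρ Z d x s q = q})

theorem lev_gc (D : LevHyp ρ Z d x s) (hu : In ρ Z x s u) (q : LevX D) :
    levPi D u ≤ q ↔ u ≤ q.1 := by
  change (levPi D u).1 ≤ q.1 ↔ _
  rw [levPi_val D hu]
  exact ⟨fun h => (lev_le_cl hu).trans h, fun h => (D.cl_mono hu q.2.1 h).trans_eq q.2.2⟩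

instance levSup (D : LevHyp ρ Z d x s) : SupSet (LevX D) :=
  ⟨fun S => levPi D (x ⊔ sSup (Subtype.val '' S))⟩

theorem lev_isLUB (D : LevHyp ρ Z d x s) (S : Set (LevX D)) : IsLUB S (sSup S) := by
  have hi : In ρ Z x s (x ⊔ sSup (Subtype.val '' S)) := In.sSup D.hx D.le (by
    rintro _ ⟨q, -, rfl⟩
    exact q.2.1)
  refine ⟨fun q hq => ?_, fun q hq => (lev_gc D hi q).2 (sup_le q.2.1.lo (sSup_le ?_))⟩
  · exact ((le_sSup (s := Subtype.val '' S) ⟨q, hq, rfl⟩).trans le_sup_right).trans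
      ((lev_gc D hi _).1 le_rfl)
  · rintro _ ⟨r, hr, rfl⟩
    exact hq hr

instance levCL (D : LevHyp ρ Z d x s) : CompleteLattice (LevX D) :=
  completeLatticeOfSup (LevX D) (lev_isLUB D)

theorem lev_pre (D : LevHyp ρ Z d x s) : LevPre ρ Z x s (levPi D) Subtype.val :=
  ⟨fun q => q.2.1, fun q => Subtype.ext ((levPi_val D q.2.1).trans q.2.2),
    fun _ q hu => lev_gc D hu q⟩

theorem lev_π_le (D : LevHyp ρ Z d x s) (hu : In ρ Z x s u) (hv : In ρ Z x s v) :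
    levPi D u ≤ levPi D v ↔ ¬ Ge ρ Z d (u ⊓ v) u := by
  rw [lev_gc D hu, levPi_val D hv, D.le_cl_iff hv hu]

theorem lev_π_inf (D : LevHyp ρ Z d x s) (hu : In ρ Z x s u) (hv : In ρ Z x s v) :
    levPi D (u ⊓ v) = levPi D u ⊓ levPi D v := by
  refine Subtype.ext (Eq.trans ?_ ((lev_pre D).ι_inf _ _).symm)
  rw [levPi_val D hu, levPi_val D hv, levPi_val D (hu.inf hv), D.cl_inf hu hv]

theorem lev_modular (D : LevHyp ρ Z d x s) : IsModularLattice (LevX D) := by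
  refine ⟨fun {a} b {c} hac => ?_⟩
  have h := lev_pre D
  have e1 : (a ⊔ b) ⊓ c = levPi D ((a.1 ⊔ b.1) ⊓ c.1) := by
    rw [lev_π_inf D (a.2.1.sup b.2.1) c.2.1, h.π_sup a.2.1 b.2.1, h.π_ι, h.π_ι, h.π_ι]
  have e2 : a ⊔ b ⊓ c = levPi D (a.1 ⊔ b.1 ⊓ c.1) := by
    rw [h.π_sup a.2.1 (b.2.1.inf c.2.1), lev_π_inf D b.2.1 c.2.1, h.π_ι, h.π_ι, h.π_ι]
  rw [e1, e2, sup_inf_assoc_of_le b.1 (h.ι_le_iff.2 hac)]

theorem lev_cpt (D : LevHyp ρ Z d x s) (hN : Noeth ρ Z) {k : L} (hk : IsCompactElement k)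
    (hks : k ≤ s) : IsCompactElement (levPi D (x ⊔ span ρ Z k)) := by
  have h := lev_pre D
  have hu := in_span D.hx D.hs D.le hks
  refine (CompleteLattice.isCompactElement_iff_le_of_directed_sSup_le _ _).2
    fun S hS hd hle => ?_
  have hS' : ∀ a ∈ Subtype.val '' S, In ρ Z x s a := by
    rintro _ ⟨q, -, rfl⟩
    exact q.2.1
  have hd' : DirectedOn (· ≤ ·) (Subtype.val '' S) := by
    rintro _ ⟨q, hq, rfl⟩ _ ⟨r, hr, rfl⟩
    obtain ⟨t, ht, h1, h2⟩ := hd q hq r hr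
    exact ⟨t.1, ⟨t, ht, rfl⟩, h1, h2⟩
  have h1 := (lev_π_le D hu (In.sSup D.hx D.le hS')).1 hle
  obtain ⟨q0, hq0⟩ := hS
  rw [sup_eq_right.2 (q0.2.1.lo.trans (le_sSup (s := Subtype.val '' S) ⟨q0, hq0, rfl⟩)),
    hd'.inf_sSup_eq, ← sSup_image] at h1
  obtain ⟨_, ⟨q, hq, rfl⟩, e⟩ := hN.directed D.hx hk
    ((fun b => (x ⊔ span ρ Z k) ⊓ b) '' (Subtype.val '' S)) ⟨_, _, ⟨q0, hq0, rfl⟩, rfl⟩
    (by
      rintro _ ⟨a, ha, rfl⟩ _ ⟨b, hb, rfl⟩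
      obtain ⟨c, hc, h1, h2⟩ := hd' a ha b hb
      exact ⟨_, ⟨c, hc, rfl⟩, inf_le_inf_left _ h1, inf_le_inf_left _ h2⟩)
    (by
      rintro _ ⟨a, ha, rfl⟩
      exact ⟨hu.inv.inf (hS' a ha).inv, le_inf le_sup_left (hS' a ha).lo, inf_le_left⟩)
  rw [← e] at h1
  exact ⟨q, hq, ((lev_π_le D hu q.2.1).2 h1).trans_eq (h.π_ι q)⟩

/-- the action on closed elements. -/
def levAct (D : LevHyp ρ Z d x s) (H : Subgroup G) (hH : ∀ g ∈ H, Nz g Z) (hHx : Fx ρ H x)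
    (hHs : Fx ρ H s) : H →* (LevX D ≃o LevX D) where
  toFun g :=
    { toFun := fun q => ⟨ρ g q.1, q.2.1.act (hH _ g.2) (hHx _ g.2) (hHs _ g.2),
        (D.act_cl q.2.1 (hH _ g.2) (hHx _ g.2) (hHs _ g.2)).symm.trans (congrArg _ q.2.2)⟩
      invFun := fun q => ⟨ρ (g : G)⁻¹ q.1, q.2.1.act (hH _ g⁻¹.2) (hHx _ g⁻¹.2) (hHs _ g⁻¹.2),
        (D.act_cl q.2.1 (hH _ g⁻¹.2) (hHx _ g⁻¹.2) (hHs _ g⁻¹.2)).symm.trans (congrArg _ q.2.2)⟩
      left_inv := fun q => Subtype.ext (act_inv_act ρ g q.1)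
      right_inv := fun q => Subtype.ext (act_act_inv ρ g q.1)
      map_rel_iff' := (ρ g).le_iff_le }
  map_one' := RelIso.ext fun q => Subtype.ext (act_one ρ q.1)
  map_mul' g h := RelIso.ext fun q => Subtype.ext (act_mul ρ g h q.1)

end Construction

theorem exists_lev {G : Type*} [Group G] {L : Type w} [CompleteLattice L] [IsModularLattice L]
    [IsCompactlyGenerated L] {ρ : G →* (L ≃o L)} {Z : Subgroup G} (hex : Ex ρ Z)
    (hN : Noeth ρ Z) (d : ℕ) {x s : L} (hx : Fx ρ Z x) (hs : Fx ρ Z s) (hxs : x ≤ s)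
    (H : Subgroup G) (hH : ∀ g ∈ H, Nz g Z) (hHx : Fx ρ H x) (hHs : Fx ρ H s) :
    ∃ (X : Type w) (_ : CompleteLattice X) (_ : IsModularLattice X) (_ : IsCompactlyGenerated X)
      (π : L → X) (ι : X → L) (act : H →* (X ≃o X)), IsLev ρ Z d x s H π ι act := by
  have D : LevHyp ρ Z d x s := ⟨hex, hx, hs, hxs⟩
  have h := lev_pre D
  refine ⟨LevX D, levCL D, lev_modular D, ⟨fun q => ⟨_, ?_, h.sSup_cpt hx hs q⟩⟩, levPi D,
    Subtype.val, levAct D H hH hHx hHs, h.ι_in, h.π_ι, h.gc, fun _ _ => lev_π_le D,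
    fun _ _ => lev_π_inf D, fun _ => lev_cpt D hN, fun g u hu => Subtype.ext ?_⟩
  · rintro _ ⟨k, hk, hkq, rfl⟩
    exact lev_cpt D hN hk (hkq.trans q.2.1.hi)
  · change ρ g (levPi D u).1 = _
    rw [levPi_val D hu, levPi_val D (hu.act (hH _ g.2) (hHx _ g.2) (hHs _ g.2)),
      D.act_cl hu (hH _ g.2) (hHx _ g.2) (hHs _ g.2)]

variable {G : Type*} [Group G] {L : Type*} [CompleteLattice L] [IsModularLattice L]
  [IsCompactlyGenerated L] {ρ : G →* (L ≃o L)} {Z H : Subgroup G} {d : ℕ} {x s u v : L}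
  {X : Type*} [CompleteLattice X] [IsModularLattice X] [IsCompactlyGenerated X]
  {π : L → X} {ι : X → L} {act : H →* (X ≃o X)}

set_option linter.unusedSectionVars false

theorem IsLev.pre (h : IsLev ρ Z d x s H π ι act) : LevPre ρ Z x s π ι := ⟨h.ι_in, h.π_ι, h.gc⟩

theorem IsLev.fx_lo (h : IsLev ρ Z d x s H π ι act) : x ≤ s := h.pre.le

theorem IsLev.π_mono (h : IsLev ρ Z d x s H π ι act) (hu : In ρ Z x s u) (hv : In ρ Z x s v)
    (huv : u ≤ v) : π u ≤ π v := h.pre.π_mono hu hv huv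

theorem IsLev.ι_mono (h : IsLev ρ Z d x s H π ι act) : Monotone ι :=
  fun _ _ hq => h.pre.ι_le_iff.2 hq

theorem IsLev.ι_le_iff (h : IsLev ρ Z d x s H π ι act) {q q' : X} : ι q ≤ ι q' ↔ q ≤ q' :=
  h.pre.ι_le_iff

theorem IsLev.le_ι_π (h : IsLev ρ Z d x s H π ι act) (hu : In ρ Z x s u) : u ≤ ι (π u) :=
  h.pre.le_ι_π hu

theorem IsLev.not_ge_ι_π (h : IsLev ρ Z d x s H π ι act) (hu : In ρ Z x s u) :
    ¬ Ge ρ Z d u (ι (π u)) := by
  have := (h.π_le _ _ (h.ι_in (π u)) hu).1 (h.π_ι _).le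
  rwa [inf_eq_right.2 (h.le_ι_π hu)] at this

theorem IsLev.ι_inf (h : IsLev ρ Z d x s H π ι act) (q q' : X) : ι (q ⊓ q') = ι q ⊓ ι q' :=
  h.pre.ι_inf q q'

theorem IsLev.ι_top (h : IsLev ρ Z d x s H π ι act) (hs : Fx ρ Z s) : ι ⊤ = s :=
  le_antisymm (h.ι_in ⊤).hi ((h.gc _ _ ⟨hs, h.fx_lo, le_rfl⟩).1 le_top)

theorem IsLev.π_top (h : IsLev ρ Z d x s H π ι act) (hs : Fx ρ Z s) : π s = ⊤ :=
  (congrArg π (h.ι_top hs).symm).trans (h.π_ι ⊤)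

theorem IsLev.π_bot (h : IsLev ρ Z d x s H π ι act) (hx : Fx ρ Z x) : π x = ⊥ :=
  le_bot_iff.1 ((h.gc _ _ ⟨hx, le_rfl, h.fx_lo⟩).2 (h.ι_in ⊥).lo)

theorem IsLev.ι_bot (h : IsLev ρ Z d x s H π ι act) (hh : Homog ρ Z d x s) : ι ⊥ = x := by
  by_contra hne
  have h1 := h.not_ge_ι_π ⟨hh.invx, le_rfl, hh.le⟩
  rw [h.π_bot hh.invx] at h1
  exact h1 (hh.ge _ (h.ι_in ⊥).inv (lt_of_le_of_ne (h.ι_in ⊥).lo (Ne.symm hne)) (h.ι_in ⊥).hi)

theorem IsLev.π_sup (h : IsLev ρ Z d x s H π ι act) (hu : In ρ Z x s u) (hv : In ρ Z x s v) :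
    π (u ⊔ v) = π u ⊔ π v := h.pre.π_sup hu hv

theorem IsLev.π_sSup (h : IsLev ρ Z d x s H π ι act) (hx : Fx ρ Z x) {S : Set L}
    (hS : ∀ u ∈ S, In ρ Z x s u) : π (x ⊔ sSup S) = sSup (π '' S) := h.pre.π_sSup hx hS

theorem IsLev.π_lt_iff (h : IsLev ρ Z d x s H π ι act) (hu : In ρ Z x s u) (hv : In ρ Z x s v)
    (huv : u ≤ v) : π u < π v ↔ Ge ρ Z d u v := by
  rw [lt_iff_le_not_ge, h.π_le _ _ hv hu, inf_eq_right.2 huv, not_not]
  exact and_iff_right (h.π_mono hu hv huv)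

theorem IsLev.ge_of_lt (h : IsLev ρ Z d x s H π ι act) {q q' : X} (hq : q < q') :
    Ge ρ Z d (ι q) (ι q') :=
  (h.π_lt_iff (h.ι_in q) (h.ι_in q') (h.ι_mono hq.le)).1 (by rwa [h.π_ι, h.π_ι])

theorem IsLev.ι_act (h : IsLev ρ Z d x s H π ι act) (hH : ∀ g ∈ H, Nz g Z) (hx : Fx ρ H x)
    (hs : Fx ρ H s) (g : H) (q : X) : ι (act g q) = ρ g (ι q) := by
  have key : ∀ (g : H) (q : X), ρ g (ι q) ≤ ι (act g q) := fun g q =>
    (h.gc _ _ ((h.ι_in q).act (hH _ g.2) (hx _ g.2) (hs _ g.2))).1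
      (by rw [← h.act_π g _ (h.ι_in q), h.π_ι])
  refine le_antisymm ?_ (key g q)
  have h1 := key g⁻¹ (act g q)
  rw [act_inv_act] at h1
  exact (act_act_inv ρ g _).symm.trans_le ((ρ g).monotone h1)

theorem IsLev.act_triv (h : IsLev ρ Z d x s H π ι act) (g : H) (hg : (g : G) ∈ Z) :
    act g = 1 := RelIso.ext fun q => by
  have := h.act_π g _ (h.ι_in q)
  rw [(h.ι_in q).inv _ hg, h.π_ι] at this
  exact this

theorem IsLev.π_tr (h : IsLev ρ Z d x s H π ι act) (hH : ∀ g ∈ H, Nz g Z) (hx : Fx ρ H x)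
    (hs : Fx ρ H s) (hxZ : Fx ρ Z x) (hu : In ρ Z x s u) (S : Set H) :
    π (x ⊔ tr ρ (Subtype.val '' S) u) = tr act S (π u) := by
  have hg : ∀ g : H, In ρ Z x s (ρ g u) := fun g => hu.act (hH _ g.2) (hx _ g.2) (hs _ g.2)
  have e : tr ρ (Subtype.val '' S) u = sSup ((fun g : H => ρ g u) '' S) := by
    rw [sSup_image, tr, iSup_image]
  rw [e, h.π_sSup hxZ (by rintro _ ⟨g, -, rfl⟩; exact hg g), Set.image_image, sSup_image, tr]
  exact iSup_congr fun g => iSup_congr fun _ => (h.act_π g u hu).symm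

theorem IsLev.crit_of_covBy (h : IsLev ρ Z d x s H π ι act) (hlt : ¬ Ge ρ Z (d + 1) x s)
    {q q' : X} (hq : q ⋖ q') : Crit ρ Z d (ι q) (ι q') := by
  refine ⟨(h.ι_in q).inv, (h.ι_in q').inv, h.ge_of_lt hq.lt,
    fun hg => hlt (hg.mono (h.ι_in q).lo (h.ι_in q').hi), fun w hw h1 h2 => ?_⟩
  have hi : In ρ Z x s w := ⟨hw, (h.ι_in q).lo.trans h1.le, h2.trans (h.ι_in q').hi⟩
  have h3 : q < π w := lt_of_le_not_ge ((h.π_ι q).symm.trans_le (h.π_mono (h.ι_in q) hi h1.le))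
    fun h' => h1.not_ge ((h.gc _ _ hi).1 h')
  have h4 : π w = q' := (hq.eq_or_eq h3.le ((h.gc _ _ hi).2 h2)).resolve_left h3.ne'
  rw [← h4]
  exact h.not_ge_ι_π hi

theorem IsLev.covBy_of_crit (h : IsLev ρ Z d x s H π ι act) (hu : In ρ Z x s u)
    (hv : In ρ Z x s v) (hc : Crit ρ Z d u v) : π u ⋖ π v := by
  refine ⟨(h.π_lt_iff hu hv hc.ge.lt.le).2 hc.ge, fun r h1 h2 => ?_⟩
  have hi := (h.ι_in r).inf hv
  have e : π (ι r ⊓ v) = r := by rw [h.π_inf _ _ (h.ι_in r) hv, h.π_ι, inf_eq_left.2 h2.le]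
  have h3 : u < ι r ⊓ v := lt_of_le_of_ne (le_inf ((h.gc _ _ hu).1 h1.le) hc.ge.lt.le)
    fun h' => h1.ne ((congrArg π h').trans e)
  exact hc.quot _ hi.inv h3 inf_le_right ((h.π_lt_iff hi hv inf_le_right).1 (e.trans_lt h2))

theorem IsLev.exists_of_compact (h : IsLev ρ Z d x s H π ι act) (hx : Fx ρ Z x) (hs : Fx ρ Z s)
    {q : X} (hq : IsCompactElement q) :
    ∃ k, IsCompactElement k ∧ k ≤ ι q ∧ q = π (x ⊔ span ρ Z k) := by
  have e := h.pre.sSup_cpt hx hs q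
  obtain ⟨_, ⟨k, hk, hkq, rfl⟩, hle⟩ :=
    (CompleteLattice.isCompactElement_iff_le_of_directed_sSup_le _ _).1 hq
      {r | ∃ k, IsCompactElement k ∧ k ≤ ι q ∧ r = π (x ⊔ span ρ Z k)}
      ⟨_, ⊥, compact_bot, bot_le, rfl⟩ (by
        rintro _ ⟨a, ha, haq, rfl⟩ _ ⟨b, hb, hbq, rfl⟩
        have hi := fun k (hk : k ≤ ι q) => in_span hx hs h.fx_lo (hk.trans (h.ι_in q).hi)
        exact ⟨_, ⟨a ⊔ b, compact_sup ha hb, sup_le haq hbq, rfl⟩,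
          h.π_mono (hi a haq) (hi _ (sup_le haq hbq))
            (sup_le_sup_left (span_mono le_rfl le_sup_left) _),
          h.π_mono (hi b hbq) (hi _ (sup_le haq hbq))
            (sup_le_sup_left (span_mono le_rfl le_sup_right) _)⟩) e.ge
  refine ⟨k, hk, hkq, le_antisymm hle (le_of_le_of_eq ?_ e)⟩
  exact le_sSup ⟨k, hk, hkq, rfl⟩

theorem IsLev.π_ι_inf (h : IsLev ρ Z d x s H π ι act) (hu : In ρ Z x s u) {q : X}
    (hq : q ≤ π u) : π (ι q ⊓ u) = q := by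
  rw [h.π_inf _ _ (h.ι_in q) hu, h.π_ι, inf_eq_left.2 hq]

theorem IsLev.wfGT (h : IsLev ρ Z d x s H π ι act) (hN : Noeth ρ Z) (hx : Fx ρ Z x)
    (hs : Fx ρ Z s) {k : L} (hk : IsCompactElement k) (hks : k ≤ s) :
    WellFoundedGT (Set.Iic (π (x ⊔ span ρ Z k))) := by
  have hu := in_span hx hs h.fx_lo hks
  refine ⟨WellFounded.wellFounded_iff_has_min.2 fun S hS => ?_⟩
  obtain ⟨_, ⟨q, hq, rfl⟩, hm⟩ := hN x k hx hk
    ((fun q : Set.Iic (π (x ⊔ span ρ Z k)) => ι q.1 ⊓ (x ⊔ span ρ Z k)) '' S) (hS.image _) (by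
      rintro _ ⟨q, -, rfl⟩
      exact ⟨(h.ι_in _).inv.inf hu.inv, le_inf (h.ι_in _).lo le_sup_left, inf_le_right⟩)
  refine ⟨q, hq, fun r hr hlt => ?_⟩
  have := congrArg π (hm _ ⟨r, hr, rfl⟩ (inf_le_inf_right _ (h.ι_mono hlt.le)))
  rw [h.π_ι_inf hu r.2, h.π_ι_inf hu q.2] at this
  exact hlt.ne' (Subtype.ext this)

theorem IsLev.wfLT (h : IsLev ρ Z d x s H π ι act) (hx : Fx ρ Z x) (hu : In ρ Z x s u)
    (hf : FinLen ρ Z d x u) : WellFoundedLT (Set.Iic (π u)) := by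
  obtain ⟨n, hn⟩ := hf
  refine ⟨RelEmbedding.wellFounded_iff_isEmpty.2 ⟨fun f => hn ?_⟩⟩
  have key : ∀ m i, LenGe ρ Z d m x (ι (f i).1 ⊓ u) := by
    intro m
    induction m with
    | zero => exact fun i => ((h.ι_in _).inf hu).lo
    | succ m ih =>
      intro i
      have hlt : (f (i + 1)).1 < (f i).1 := f.map_rel_iff.2 (Nat.lt_succ_self i)
      refine ⟨_, ((h.ι_in _).inf hu).inv, ih (i + 1), (h.π_lt_iff ((h.ι_in _).inf hu)
        ((h.ι_in _).inf hu) (inf_le_inf_right _ (h.ι_mono hlt.le))).1 ?_⟩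
      rwa [h.π_ι_inf hu (f (i + 1)).2, h.π_ι_inf hu (f i).2]
  exact (key n 0).mono le_rfl inf_le_right

theorem IsLev.chain_of_lenGe (h : IsLev ρ Z d x s H π ι act) (hu : In ρ Z x s u) :
    ∀ (m : ℕ) (w : L), In ρ Z x s w → LenGe ρ Z d m u w →
      ∃ f : ℕ → X, π u ≤ f 0 ∧ f m ≤ π w ∧ ∀ i < m, f i < f (i + 1) := by
  intro m
  induction m with
  | zero =>
    exact fun w hw hl => ⟨fun _ => π u, le_rfl, h.π_mono hu hw hl, fun _ hi => absurd hi (by omega)⟩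
  | succ m ih =>
    rintro w hw ⟨c, hc, hl, hg⟩
    have hi : In ρ Z x s c := ⟨hc, hu.lo.trans hl.le, hg.lt.le.trans hw.hi⟩
    obtain ⟨f, h0, h1, h2⟩ := ih c hi hl
    refine ⟨fun i => if i ≤ m then f i else π w, by simpa using h0, by simp, fun i hi' => ?_⟩
    rcases (Nat.lt_succ_iff.1 hi').eq_or_lt with rfl | hlt
    · simpa using h1.trans_lt ((h.π_lt_iff hi hw hg.lt.le).2 hg)
    · simpa [hlt.le, Nat.succ_le_of_lt hlt] using h2 i hlt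

/-- finite length in `L` means finite height in an atomistic `X`. -/
theorem IsLev.finLen_of_le [IsAtomistic X] (h : IsLev ρ Z d x s H π ι act) (hu : In ρ Z x s u)
    (hv : In ρ Z x s v) {q : X} (hq : IsCompactElement q) (hle : π v ≤ π u ⊔ q) :
    FinLen ρ Z d u v := by
  obtain ⟨n, hn⟩ := finite_height hq
  refine ⟨n, fun hl => ?_⟩
  obtain ⟨f, h0, h1, h2⟩ := h.chain_of_lenGe hu n v hv hl
  exact hn (π u) f h0 (h1.trans hle) h2

theorem IsLev.exists_compact_of_finLen (h : IsLev ρ Z d x s H π ι act) (hex : Ex ρ Z)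
    (hx : Fx ρ Z x) (hs : Fx ρ Z s) (hu : In ρ Z x s u) (hv : In ρ Z x s v) (huv : u ≤ v)
    (hf : FinLen ρ Z d u v) : ∃ q, IsCompactElement q ∧ π v = π u ⊔ q := by
  obtain ⟨k, hk, hkv, hg⟩ := hf.exists_fg hex hu.inv hv.inv huv
  have hi := in_span hx hs h.fx_lo (hkv.trans hv.hi)
  have hle : u ⊔ (x ⊔ span ρ Z k) ≤ v := sup_le huv (sup_le hv.lo (span_le hv.inv hkv))
  refine ⟨_, h.cpt k hk (hkv.trans hv.hi), ?_⟩
  rw [← h.π_sup hu hi]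
  refine le_antisymm ((h.π_le _ _ hv (hu.sup hi)).2 fun hg' => hg (hg'.mono ?_ le_rfl))
    (h.π_mono (hu.sup hi) hv hle)
  rw [inf_eq_right.2 hle]
  exact sup_le_sup_left le_sup_right _

/-- a `Level` above `u` gives a semisimple interval above `π u`. -/
theorem IsLev.ssi_of_level (h : IsLev ρ Z d x s H π ι act) (hu : In ρ Z x s u)
    (hl : Level ρ Z d u s) : SSI (π u) ⊤ := by
  have hp : ∀ p ∈ {p | Crit ρ Z d u p ∧ p ≤ s}, In ρ Z x s p :=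
    fun p hp => ⟨hp.1.invp, hu.lo.trans hp.1.ge.lt.le, hp.2⟩
  have hi : In ρ Z x s (u ⊔ sSup {p | Crit ρ Z d u p ∧ p ≤ s}) :=
    ⟨hu.inv.sup (Fx.sSup fun p h' => (hp p h').inv), hu.lo.trans le_sup_left,
      sup_le hu.hi (sSup_le fun p h' => h'.2)⟩
  have h1 := (h.π_le _ _ ⟨hl.invs, h.fx_lo, le_rfl⟩ hi).2
    fun hg => hl.gen (hg.mono (le_inf hi.hi le_rfl) le_rfl)
  rw [h.π_top hl.invs] at h1
  refine h1.trans ((h.gc _ _ hi).2 (sup_le ((h.gc _ _ hu).1 le_sup_left) (sSup_le fun p h' => ?_)))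
  exact (h.gc _ _ (hp p h')).1
    (le_sup_of_le_right (le_sSup ⟨h.covBy_of_crit hu (hp p h') h'.1, le_top⟩))

theorem IsLev.isAtomistic (h : IsLev ρ Z d x s H π ι act) (hl : Level ρ Z d x s) :
    IsAtomistic X := by
  have := h.ssi_of_level ⟨hl.invx, le_rfl, hl.le⟩ hl
  rw [h.π_bot hl.invx] at this
  exact isAtomistic_of_ssi this

theorem IsLev.level_of_ssi (h : IsLev ρ Z d x s H π ι act) (hh : Homog ρ Z d x s)
    (hS : SSI (⊥ : X) ⊤) : Level ρ Z d x s := by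
  refine ⟨hh, ?_⟩
  have hi : In ρ Z x s (x ⊔ sSup {p | Crit ρ Z d x p ∧ p ≤ s}) :=
    In.sSup hh.invx hh.le fun p hp => ⟨hp.1.invp, hp.1.ge.lt.le, hp.2⟩
  have h1 : π s ≤ π (x ⊔ sSup {p | Crit ρ Z d x p ∧ p ≤ s}) := by
    refine le_top.trans (le_trans hS (sup_le bot_le (sSup_le fun q hq => ?_)))
    have hc := h.crit_of_covBy hh.lt hq.1
    rw [h.ι_bot hh] at hc
    exact (h.π_ι q).symm.trans_le (h.π_mono (h.ι_in q) hi
      (le_sup_of_le_right (le_sSup ⟨hc, (h.ι_in q).hi⟩)))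
  have h2 := (h.π_le _ _ ⟨hh.invs, hh.le, le_rfl⟩ hi).1 h1
  rwa [inf_eq_right.2 hi.hi] at h2

end Pool.Agent.Lib.MP_36fb39_al
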