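import Pool.Agent.Lib.MP_36fb39_al.Dim
import Pool.Agent.Lib.MP_36fb39_al.Lev

set_option autoImplicit false

namespace Pool.Agent.Lib.MP_36fb39_al

variable {G : Type*} [Group G] {L : Type*} [CompleteLattice L] [IsModularLattice L]
  [IsCompactlyGenerated L] {ρ : G →* (L ≃o L)} {Γ Γ' Z : Subgroup G} {d d' : ℕ}
  {x s p q w : L}

omit [IsModularLattice L] [IsCompactlyGenerated L] in
theorem cliff_le_of_ge {a b : L} {e e' : ℕ} (h : Ge ρ Γ e a b) (h' : ¬ Ge ρ Γ (e' + 1) a b) :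
    e ≤ e' := by
  by_contra hc
  exact h' (h.of_le (by omega))

omit [IsModularLattice L] [IsCompactlyGenerated L] in
theorem Crit.lt' (h : Crit ρ Γ d x p) : x < p := h.ge.lt

omit [IsModularLattice L] [IsCompactlyGenerated L] in
theorem Crit.homog (h : Crit ρ Γ d x p) (hex : Ex ρ Γ) : Homog ρ Γ d x p where
  invx := h.invx
  invs := h.invp
  le := h.lt'.le
  ge := fun w hw h₁ h₂ =>
    (hex d x w p h.invx hw h.invp h₁.le h₂ h.ge).resolve_right (h.quot w hw h₁ h₂)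
  lt := h.lt

omit [IsModularLattice L] [IsCompactlyGenerated L] in
theorem Crit.level (h : Crit ρ Γ d x p) (hex : Ex ρ Γ) : Level ρ Γ d x p where
  toHomog := h.homog hex
  gen := not_ge_of_le (le_sup_of_le_right (le_sSup ⟨h, le_rfl⟩))

omit [IsModularLattice L] [IsCompactlyGenerated L] in
theorem Crit.sub (h : Crit ρ Γ d x p) (hex : Ex ρ Γ) (hw : Fx ρ Γ w) (h₁ : x < w) (h₂ : w ≤ p) :
    Crit ρ Γ d x w where
  invx := h.invx
  invp := hw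
  ge := (h.homog hex).ge w hw h₁ h₂
  lt := fun hg => h.lt (hg.mono le_rfl h₂)
  quot := fun v hv h₃ h₄ hg => h.quot v hv h₃ (h₄.trans h₂) (hg.mono le_rfl h₂)

omit [IsModularLattice L] [IsCompactlyGenerated L] in
theorem cliff_ge_conj_iff {g : G} (hg : Nz g Γ) {e : ℕ} {a b : L} :
    Ge ρ Γ e (ρ g a) (ρ g b) ↔ Ge ρ Γ e a b := by
  refine ⟨fun h => ?_, fun h => h.conj hg⟩
  have := h.conj hg.inv
  rwa [act_inv_act, act_inv_act] at this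

omit [IsModularLattice L] [IsCompactlyGenerated L] in
theorem Crit.conj (h : Crit ρ Γ d x p) {g : G} (hg : Nz g Γ) : Crit ρ Γ d (ρ g x) (ρ g p) where
  invx := h.invx.conj hg
  invp := h.invp.conj hg
  ge := h.ge.conj hg
  lt := fun hh => h.lt ((cliff_ge_conj_iff hg).1 hh)
  quot := fun v hv h₁ h₂ hh => by
    rw [← act_act_inv ρ g v] at h₁ h₂ hh
    exact h.quot _ (hv.conj hg.inv) ((ρ g).lt_iff_lt.1 h₁) ((ρ g).le_iff_le.1 h₂)
      ((cliff_ge_conj_iff hg).1 hh)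

omit [IsModularLattice L] [IsCompactlyGenerated L] in
theorem cliff_homog_conj (h : Homog ρ Γ d x p) {g : G} (hg : Nz g Γ) :
    Homog ρ Γ d (ρ g x) (ρ g p) where
  invx := h.invx.conj hg
  invs := h.invs.conj hg
  le := (ρ g).le_iff_le.2 h.le
  lt := fun hh => h.lt ((cliff_ge_conj_iff hg).1 hh)
  ge := fun v hv h₁ h₂ => by
    rw [← act_act_inv ρ g v] at h₁ h₂ ⊢
    exact (h.ge _ (hv.conj hg.inv) ((ρ g).lt_iff_lt.1 h₁) ((ρ g).le_iff_le.1 h₂)).conj hg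

omit [IsCompactlyGenerated L] in
theorem Crit.uniform (h : Crit ρ Γ d x p) (hex : Ex ρ Γ) {w₁ w₂ : L} (h₁ : Fx ρ Γ w₁)
    (h₂ : Fx ρ Γ w₂) (hx₁ : x < w₁) (hx₂ : x < w₂) (hp₁ : w₁ ≤ p) (hp₂ : w₂ ≤ p) :
    x < w₁ ⊓ w₂ := by
  refine lt_of_le_not_ge (le_inf hx₁.le hx₂.le) fun hle => ?_
  have h3 := ((h.homog hex).ge w₁ h₁ hx₁ hp₁).tup h₁ h₂ hle
  exact h.quot w₂ h₂ hx₂ hp₂ (h3.mono le_sup_right (sup_le hp₁ hp₂))

omit [IsModularLattice L] [IsCompactlyGenerated L] in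
theorem Homog.sub (h : Homog ρ Γ d x s) (hw : Fx ρ Γ w) (h₁ : x ≤ w) (h₂ : w ≤ s) :
    Homog ρ Γ d x w where
  invx := h.invx
  invs := hw
  le := h₁
  ge := fun v hv h₃ h₄ => h.ge v hv h₃ (h₄.trans h₂)
  lt := fun hg => h.lt (hg.mono le_rfl h₂)

omit [IsModularLattice L] [IsCompactlyGenerated L] in
theorem Homog.unique (h : Homog ρ Γ d x s) (h' : Homog ρ Γ d' x s) (hxs : x < s) : d = d' :=
  le_antisymm (cliff_le_of_ge (h.ge s h.invs hxs le_rfl) h'.lt)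
    (cliff_le_of_ge (h'.ge s h.invs hxs le_rfl) h.lt)

omit [IsModularLattice L] [IsCompactlyGenerated L] in
theorem Homog.eq_of_crit (h : Homog ρ Γ d x s) (hp : Crit ρ Γ d' x p) (hps : p ≤ s) :
    d' = d :=
  le_antisymm (cliff_le_of_ge (hp.ge.mono le_rfl hps) h.lt)
    (cliff_le_of_ge (h.ge p hp.invp hp.lt' hps) hp.lt)

omit [IsModularLattice L] [IsCompactlyGenerated L] in
theorem cliff_span_le {k : L} (hw : Fx ρ Γ w) (h₁ : x ≤ w) (hk : k ≤ w) :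
    x ⊔ span ρ Γ k ≤ w := sup_le h₁ (span_le hw hk)

theorem Homog.exists_crit (h : Homog ρ Γ d x s) (hn : Nice ρ Γ) (hw : Fx ρ Γ w) (h₁ : x < w)
    (h₂ : w ≤ s) :
    ∃ k, IsCompactElement k ∧ k ≤ w ∧ Crit ρ Γ d x (x ⊔ span ρ Γ k) := by
  obtain ⟨e, k, hk, hkw, hc, -⟩ := crit_exists hn.ex hn.fp hn.bdd h.invx hw h₁
  obtain rfl := h.eq_of_crit hc ((cliff_span_le hw h₁.le hkw).trans h₂)
  exact ⟨k, hk, hkw, hc⟩

theorem Homog.step {t : G} (hs : Step Γ' Γ t) (hv : Via ρ Γ) (h : Homog ρ Γ d x s)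
    (h' : Homog ρ Γ' d' x s) (hxs : x < s) : d' = d ∨ d' + 1 = d := by
  have h1 : d' ≤ d := cliff_le_of_ge (Ge.down hs (h'.ge s h'.invs hxs le_rfl)) h.lt
  have h2 : d ≤ d' + 1 := by
    cases d with
    | zero => omega
    | succ e =>
      have := cliff_le_of_ge
        (Ge.step_down hs hv h.invx h.invs (h.ge s h.invs hxs le_rfl)) h'.lt
      omega
  omega

/-- projection of a finitely generated piece onto finitely many critical quotients. -/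
theorem proj (hn : Nice ρ Z) (hh : Homog ρ Z d x s) (F : Set L)
    (hF : ∀ p ∈ F, Crit ρ Z d x p ∧ p ≤ s) (hgen : ¬ Ge ρ Z d (x ⊔ sSup F) s) {k : L}
    (hk : IsCompactElement k) (hks : k ≤ s) :
    ∃ (n : ℕ) (xs ps : Fin n → L) (s' : L), In ρ Z x s s' ∧ k ≤ s' ∧
      (∀ i, ps i ∈ F ∧ ps i ≤ s' ∧ x ≤ xs i ∧ Crit ρ Z d (xs i) s' ∧ xs i ⊓ ps i ≤ x) ∧
      ∀ u ≤ s', (∀ i, u ≤ xs i) → u ≤ x := by
  obtain ⟨X, _, _, _, π, ι, act, hL⟩ := exists_lev hn.ex hn.noeth d hh.invx hh.invs hh.le ⊥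
    (fun g hg => by rw [Subgroup.mem_bot.1 hg]; exact Nz.one Z) (fx_bot_subgroup x)
    (fx_bot_subgroup s)
  have hinx : In ρ Z x s x := ⟨hh.invx, le_rfl, hh.le⟩
  have hins : In ρ Z x s s := ⟨hh.invs, hh.le, le_rfl⟩
  have hinF : ∀ p ∈ F, In ρ Z x s p := fun p hp =>
    ⟨(hF p hp).1.invp, (hF p hp).1.lt'.le, (hF p hp).2⟩
  have hA : ∀ a ∈ π '' F, IsAtom a := by
    rintro _ ⟨p, hp, rfl⟩
    have := hL.covBy_of_crit hinx (hinF p hp) (hF p hp).1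
    rw [hL.π_bot hh.invx] at this
    exact bot_covBy_iff.1 this
  have hinC : In ρ Z x s (x ⊔ sSup F) := In.sSup hh.invx hh.le hinF
  have htop : π s ≤ sSup (π '' F) := by
    rw [← hL.π_sSup hh.invx hinF, hL.π_le _ _ hins hinC, inf_eq_right.2 hinC.hi]
    exact hgen
  have hink := in_span hh.invx hh.invs hh.le hks
  obtain ⟨n, a, y, S, hkS, hi, hb⟩ := atoms_dec (π '' F) hA (hL.cpt k hk hks)
    ((hL.π_mono hink hins hink.hi).trans htop)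
  choose ps hps hπ using fun i => (hi i).1
  refine ⟨n, fun i => ι (y i), ps, ι S, hL.ι_in S, ?_, fun i => ⟨hps i, ?_, (hL.ι_in _).lo,
    hL.crit_of_covBy hh.lt (hi i).2.2.1, ?_⟩, fun u hu hu' => ?_⟩
  · exact ((le_span Z k).trans le_sup_right).trans ((hL.gc _ _ hink).1 hkS)
  · exact (hL.gc _ _ (hinF _ (hps i))).1 (by rw [hπ]; exact (hi i).2.1)
  · have h1 : ps i ≤ ι (a i) := (hL.gc _ _ (hinF _ (hps i))).1 (hπ i).le
    refine (inf_le_inf_left _ h1).trans ?_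
    rw [← hL.ι_inf, (hi i).2.2.2, hL.ι_bot hh]
  · have hinu := in_span hh.invx hh.invs hh.le (hu.trans (hL.ι_in S).hi)
    have h0 := hb (π (x ⊔ span ρ Z u))
      ((hL.gc _ _ hinu).2 (cliff_span_le (hL.ι_in S).inv (hL.ι_in S).lo hu))
      (fun i => (hL.gc _ _ hinu).2 (cliff_span_le (hL.ι_in _).inv (hL.ι_in _).lo (hu' i)))
    have h1 := (hL.gc _ _ hinu).1 h0.le
    rw [hL.ι_bot hh] at h1
    exact ((le_span Z u).trans le_sup_right).trans h1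

omit [IsCompactlyGenerated L] in
theorem cliff_inf_le (hex : Ex ρ Z) {x' s' r : L} (hc : Crit ρ Z d x' s') (hr : Crit ρ Z d x r)
    (hx : x ≤ x') (hrs : r ≤ s') (hn : ¬ r ≤ x') : x' ⊓ r ≤ x := by
  by_contra hc'
  have h1 : x < x' ⊓ r := lt_of_le_not_ge (le_inf hx hr.lt'.le) hc'
  have h2 := not_ge_sup (hr.quot _ (hc.invx.inf hr.invp) h1 inf_le_right) hr.invp inf_le_right x'
  rw [sup_eq_right.2 (inf_le_left : x' ⊓ r ≤ x')] at h2
  exact h2 ((hc.homog hex).ge (r ⊔ x') (hr.invp.sup hc.invx) (right_lt_sup.2 hn)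
    (sup_le hrs hc.lt'.le))

theorem cliff_match (hn : Nice ρ Z) (hh : Homog ρ Z d x s) (F : Set L)
    (hF : ∀ p ∈ F, Crit ρ Z d x p ∧ p ≤ s) {k : L} (hk : IsCompactElement k)
    (hkF : k ≤ x ⊔ sSup F) (hr : Crit ρ Z d x (x ⊔ span ρ Z k)) :
    ∃ x' s' p, p ∈ F ∧ Crit ρ Z d x' s' ∧ x ≤ x' ∧ s' ≤ s ∧ p ≤ s' ∧ x ⊔ span ρ Z k ≤ s' ∧
      x' ⊓ p ≤ x ∧ x' ⊓ (x ⊔ span ρ Z k) ≤ x := by
  have hinC : In ρ Z x s (x ⊔ sSup F) := In.sSup hh.invx hh.le fun p hp =>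
    ⟨(hF p hp).1.invp, (hF p hp).1.lt'.le, (hF p hp).2⟩
  obtain ⟨n, xs, ps, s', hs', hks', hi, hb⟩ := proj hn (hh.sub hinC.inv hinC.lo hinC.hi) F
    (fun p hp => ⟨(hF p hp).1, le_sup_of_le_right (le_sSup hp)⟩) (not_ge_of_le le_rfl) hk hkF
  have hrs := cliff_span_le hs'.inv hs'.lo hks'
  have : ∃ i, ¬ x ⊔ span ρ Z k ≤ xs i := by
    by_contra hcon
    push Not at hcon
    exact hr.lt'.not_ge (hb _ hrs hcon)
  obtain ⟨i, hi'⟩ := this
  obtain ⟨h1, h2, h3, h4, h5⟩ := hi i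
  exact ⟨xs i, s', ps i, h1, h4, h3, hs'.hi.trans hinC.hi, h2, hrs, h5,
    cliff_inf_le hn.ex h4 hr h3 hrs hi'⟩

/-- In a uniform interval all criticals are of one kind. -/
theorem two_kinds {H : Subgroup G} (hn : Nice ρ Z) (hZ : Z ≤ H) (hH : ∀ g ∈ H, Nz g Z)
    (hx : Fx ρ H x) (hs : Fx ρ H s)
    (hu : ∀ w₁ w₂, Fx ρ H w₁ → Fx ρ H w₂ → x < w₁ → x < w₂ → w₁ ≤ s → w₂ ≤ s → x < w₁ ⊓ w₂)
    (hh : Homog ρ Z d x s) (R : L → Prop)
    (hconj : ∀ g ∈ H, ∀ p, Crit ρ Z d x p → p ≤ s → R p → R (ρ g p))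
    (hsim : ∀ x' s' p q, Crit ρ Z d x' s' → x ≤ x' → s' ≤ s → Crit ρ Z d x p → Crit ρ Z d x q →
      p ≤ s' → q ≤ s' → x' ⊓ p ≤ x → x' ⊓ q ≤ x → R p → R q)
    (hp : Crit ρ Z d x p) (hps : p ≤ s) (hq : Crit ρ Z d x q) (hqs : q ≤ s) (hR : R p) : R q := by
  by_contra hRq
  have hcr : ∀ g ∈ H, ∀ r, Crit ρ Z d x r ∧ r ≤ s → Crit ρ Z d x (ρ g r) ∧ ρ g r ≤ s := by
    intro g hg r hr
    have h1 := hr.1.conj (hH g hg)
    have h2 := (ρ g).le_iff_le.2 hr.2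
    rw [hx g hg] at h1
    rw [hs g hg] at h2
    exact ⟨h1, h2⟩
  set S₁ : Set L := {r | (Crit ρ Z d x r ∧ r ≤ s) ∧ R r} with hS₁
  set S₂ : Set L := {r | (Crit ρ Z d x r ∧ r ≤ s) ∧ ¬ R r} with hS₂
  have f₁ : Fx ρ H (x ⊔ sSup S₁) := hx.sup (fx_sSup_of_stable fun g hg r hr =>
    ⟨hcr g hg r hr.1, hconj g hg r hr.1.1 hr.1.2 hr.2⟩)
  have f₂ : Fx ρ H (x ⊔ sSup S₂) := hx.sup (fx_sSup_of_stable fun g hg r hr =>
    ⟨hcr g hg r hr.1, fun hc => hr.2 (by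
      have := hconj g⁻¹ (H.inv_mem hg) _ (hcr g hg r hr.1).1 (hcr g hg r hr.1).2 hc
      rwa [act_inv_act] at this)⟩)
  have l₁ : x ⊔ sSup S₁ ≤ s := sup_le hh.le (sSup_le fun r hr => hr.1.2)
  have l₂ : x ⊔ sSup S₂ ≤ s := sup_le hh.le (sSup_le fun r hr => hr.1.2)
  have hlt := hu _ _ f₁ f₂ (hp.lt'.trans_le (le_sup_of_le_right (le_sSup ⟨⟨hp, hps⟩, hR⟩)))
    (hq.lt'.trans_le (le_sup_of_le_right (le_sSup ⟨⟨hq, hqs⟩, hRq⟩))) l₁ l₂
  obtain ⟨k, hk, hkw, hr⟩ := hh.exists_crit hn ((f₁.inf f₂).mono hZ) hlt (inf_le_left.trans l₁)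
  by_cases hRr : R (x ⊔ span ρ Z k)
  · obtain ⟨x', s', p', h1, h2, h3, h4, h5, h6, h7, h8⟩ :=
      cliff_match hn hh S₂ (fun r hr => hr.1) hk (hkw.trans inf_le_right) hr
    exact h1.2 (hsim x' s' _ p' h2 h3 h4 hr h1.1.1 h6 h5 h8 h7 hRr)
  · obtain ⟨x', s', p', h1, h2, h3, h4, h5, h6, h7, h8⟩ :=
      cliff_match hn hh S₁ (fun r hr => hr.1) hk (hkw.trans inf_le_left) hr
    exact hRr (hsim x' s' p' _ h2 h3 h4 h1.1.1 hr h5 h6 h7 h8 h1.2)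

omit [IsModularLattice L] [IsCompactlyGenerated L] in
theorem cliff_level_refl (hx : Fx ρ Z x) : Level ρ Z d x x where
  invx := hx
  invs := hx
  le := le_rfl
  ge := fun _ _ h₁ h₂ => absurd h₂ h₁.not_ge
  lt := not_ge_of_le le_rfl
  gen := not_ge_of_le le_sup_left

/-- being a level can be checked on finitely generated pieces. -/
theorem cliff_level_of_local (hx : Fx ρ Z x) (hs : Fx ρ Z s) (hxs : x ≤ s)
    (h : ∀ k, IsCompactElement k → k ≤ s → ∃ s', k ≤ s' ∧ s' ≤ s ∧ Level ρ Z d x s') :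
    Level ρ Z d x s where
  invx := hx
  invs := hs
  le := hxs
  ge := fun v hv h₁ h₂ => by
    obtain ⟨k, hk, hkv, hkx⟩ := exists_compact_not_le h₁.not_ge
    obtain ⟨s', h1, -, h3⟩ := h k hk (hkv.trans h₂)
    exact (h3.ge (v ⊓ s') (hv.inf h3.invs) (lt_of_le_not_ge (le_inf h₁.le h3.le)
      fun hc => hkx ((le_inf hkv h1).trans hc)) inf_le_right).mono le_rfl inf_le_left
  lt := fun hg => by
    obtain ⟨k, hk, hks, hg'⟩ := hg.cpt hx
    obtain ⟨s', h1, -, h3⟩ := h k hk hks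
    exact h3.lt (hg'.mono le_rfl (cliff_span_le h3.invs h3.le h1))
  gen := fun hg => by
    obtain ⟨k, hk, hks, hg'⟩ := hg.cpt (hx.sup (Fx.sSup fun r hr => hr.1.invp))
    obtain ⟨s', h1, h2, h3⟩ := h k hk hks
    have h4 := not_ge_sup h3.gen h3.invs (sup_le h3.le (sSup_le fun r hr => hr.2))
      (x ⊔ sSup {p | Crit ρ Z d x p ∧ p ≤ s})
    have h5 : x ⊔ sSup {p | Crit ρ Z d x p ∧ p ≤ s'} ≤ x ⊔ sSup {p | Crit ρ Z d x p ∧ p ≤ s} :=
      sup_le_sup_left (sSup_le_sSup fun r hr => And.intro hr.1 (hr.2.trans h2)) x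
    rw [sup_eq_right.2 h5] at h4
    exact h4 (hg'.mono le_rfl (sup_le le_sup_right (le_sup_of_le_left (span_le h3.invs h1))))

/-- Clifford theory for one infinite cyclic step. -/
theorem cl_one {t : G} (hs : Step Γ' Γ t) (hn' : Nice ρ Γ') (hn : Nice ρ Γ)
    (h : Crit ρ Γ d x s) : ∃ d', Level ρ Γ' d' x s := by
  have hx' : Fx ρ Γ' x := h.invx.mono hs.le
  have hs' : Fx ρ Γ' s := h.invp.mono hs.le
  obtain ⟨d', k₀, hk₀, hk₀s, hU, hge⟩ := crit_exists hn'.ex hn'.fp hn'.bdd hx' hs' h.lt'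
  set U := x ⊔ span ρ Γ' k₀ with hUdef
  have hUs : U ≤ s := cliff_span_le hs' h.lt'.le hk₀s
  have hcr : ∀ g ∈ Γ, Crit ρ Γ' d' x (ρ g U) ∧ ρ g U ≤ s := by
    intro g hg
    have h1 := hU.conj (hs.norm g hg)
    have h2 := (ρ g).le_iff_le.2 hUs
    rw [h.invx g hg] at h1
    rw [h.invp g hg] at h2
    exact ⟨h1, h2⟩
  set c := x ⊔ span ρ Γ U with hcdef
  have hc : Fx ρ Γ c := h.invx.sup (fx_span Γ U)
  have hc' : Fx ρ Γ' c := hc.mono hs.le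
  have hxc : x < c := hU.lt'.trans_le ((le_span Γ U).trans le_sup_right)
  have hcs : c ≤ s := cliff_span_le h.invp h.lt'.le hUs
  have hlt : ¬ Ge ρ Γ' (d' + 1) x c := not_ge_span hn'.ex hs.norm h.invx hx' hU.invp
    (by rw [sup_eq_right.2 hU.lt'.le]; exact hU.lt)
  have hq : ¬ Ge ρ Γ d c s := h.quot c hc hxc hcs
  have h1 : d' ≤ d := cliff_le_of_ge (Ge.down hs (hge s hs' h.lt' le_rfl)) h.lt
  have h2 : d ≤ d' + 1 := by
    cases d with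
    | zero => omega
    | succ e =>
      have := cliff_le_of_ge
        (Ge.step_down hs hn.via h.invx hc ((h.homog hn.ex).ge c hc hxc hcs)) hlt
      omega
  have hh : Homog ρ Γ' d' x s := ⟨hx', hs', h.lt'.le, hge,
    not_ge_trans hn'.ex hx' hc' hs' hxc.le hcs hlt fun hg => hq ((Ge.down hs hg).of_le h2)⟩
  refine ⟨d', ?_⟩
  rcases Nat.eq_or_lt_of_le h1 with rfl | h3
  · refine ⟨hh, fun hg => hq (Ge.down hs (hg.mono ?_ le_rfl))⟩
    exact sup_le_sup_left (tr_le_iff.2 fun g hg =>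
      le_sSup (s := {p | Crit ρ Γ' d' x p ∧ p ≤ s}) (hcr g hg)) x
  obtain rfl : d = d' + 1 := by omega
  refine cliff_level_of_local hx' hs' h.lt'.le fun k hk hks => ?_
  set T := c ⊔ span ρ Γ k with hTdef
  have hT : Fx ρ Γ T := hc.sup (fx_span Γ k)
  have hT' : Fx ρ Γ' T := hT.mono hs.le
  have hTs : T ≤ s := cliff_span_le h.invp hcs hks
  have hcT : c ≤ T := le_sup_left
  have hxT : x ≤ T := hxc.le.trans hcT
  refine ⟨T, (le_span Γ k).trans le_sup_right, hTs, ?_⟩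
  have hhT : Homog ρ Γ' d' x T := hh.sub hT' hxT hTs
  have hfin : FinLen ρ Γ' d' c T := by
    by_contra hcon
    rcases free_of_not_finLen hs hn' hn.noeth hc hk hcon with h4 | h4
    · exact hq ((Ge.down hs h4).mono le_rfl hTs)
    · exact hq ((h4.ge hs).mono le_rfl hTs)
  obtain ⟨k₁, hk₁, hk₁T, hk₁g⟩ := hfin.exists_fg hn'.ex hc' hT' hcT
  obtain ⟨X, _, _, _, π, ι, act, hL⟩ := exists_lev hn'.ex hn'.noeth d' hx' hT' hxT Γ hs.norm
    h.invx hT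
  have hinx : In ρ Γ' x T x := ⟨hx', le_rfl, hxT⟩
  have hinT : In ρ Γ' x T T := ⟨hT', hxT, le_rfl⟩
  have hin₁ := in_span hx' hT' hxT hk₁T
  have hf₁ : FinLen ρ Γ' d' x (x ⊔ span ρ Γ' k₁) :=
    hn'.fp d' x k₁ hx' hk₁ fun hg => hhT.lt (hg.mono le_rfl hin₁.hi)
  set F : Set L := {r | ∃ g ∈ Γ, r = ρ g U} with hF
  have hFc : x ⊔ sSup F = c := by
    rw [hcdef]
    congr 1
    exact le_antisymm (sSup_le (by rintro _ ⟨g, hg, rfl⟩; exact le_tr hg U))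
      (tr_le_iff.2 fun g hg => le_sSup ⟨g, hg, rfl⟩)
  have hinF : ∀ r ∈ F, In ρ Γ' x T r := by
    rintro _ ⟨g, hg, rfl⟩
    exact ⟨(hcr g hg).1.invp, (hcr g hg).1.lt'.le,
      ((le_tr hg U).trans le_sup_right).trans hcT⟩
  have hinc : In ρ Γ' x T c := ⟨hc', hxc.le, hcT⟩
  refine hL.level_of_ssi hhT (ssi_of_radical (π (x ⊔ span ρ Γ' k₁)) (hL.wfLT hx' hin₁ hf₁)
    (π '' F) ?_ ?_ (act ⟨t, hs.mem⟩) ?_)
  · rintro _ ⟨_, ⟨g, hg, rfl⟩, rfl⟩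
    have := hL.covBy_of_crit hinx (hinF _ ⟨g, hg, rfl⟩) (hcr g hg).1
    rw [hL.π_bot hx'] at this
    exact bot_covBy_iff.1 this
  · rw [← hL.π_sSup hx' hinF, hFc, ← hL.π_sup hin₁ hinc, eq_top_iff, ← hL.π_top hT',
      hL.π_le _ _ hinT (hin₁.sup hinc), inf_eq_right.2 (hin₁.sup hinc).hi]
    exact fun hg => hk₁g (hg.mono (sup_le le_sup_right (le_sup_of_le_left le_sup_right)) le_rfl)
  · intro u hu hfix
    by_contra hne
    have hιu := hL.ι_in u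
    have hfx : Fx ρ Γ (ι u) := hs.toCStep.fx hιu.inv (by
      have := hL.ι_act hs.norm h.invx hT ⟨t, hs.mem⟩ u
      rw [hfix] at this
      exact this.symm)
    have hxu : x < ι u := lt_of_le_not_ge hιu.lo fun hcon => hne (by
      rw [← hL.ι_bot hhT, hL.ι_le_iff] at hcon
      exact le_bot_iff.1 hcon)
    have hfu : FinLen ρ Γ' d' x (ι u) :=
      (FinLen.trans hn'.ex hin₁.inv (hL.ι_in _).inv hin₁.lo (hL.le_ι_π hin₁) hf₁
        (finLen_of_not_ge (hL.not_ge_ι_π hin₁))).mono le_rfl (hL.ι_mono hu)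
    exact not_ge_of_finLen hs hn.via h.invx hfx (fun hg => hhT.lt (hg.mono le_rfl hιu.hi)) hfu
      ((h.homog hn.ex).ge _ hfx hxu (hιu.hi.trans hTs))

omit [IsCompactlyGenerated L] in
theorem cliff_ge_down {a : L} (ha : Homog ρ Z d a s) (hw : Fx ρ Z w) (hws : w ≤ s)
    (hn : ¬ w ≤ a) : Ge ρ Z d (w ⊓ a) w := by
  have h1 := (ha.ge (w ⊔ a) (hw.sup ha.invx) (right_lt_sup.2 hn) (sup_le hws ha.le)).tdown hw
    (le_refl a) le_rfl
  rwa [inf_eq_left.2 (le_sup_left : w ≤ w ⊔ a)] at h1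

theorem Level.inf (hn : Nice ρ Z) {a b : L} (ha : Level ρ Z d a s) (hb : Level ρ Z d b s) :
    Level ρ Z d (a ⊓ b) s := by
  have hab : Fx ρ Z (a ⊓ b) := ha.invx.inf hb.invx
  have hle : a ⊓ b ≤ s := inf_le_left.trans ha.le
  have hh : Homog ρ Z d (a ⊓ b) s := ⟨hab, ha.invs, hle, fun v hv h₁ h₂ => by
      by_cases hva : v ≤ a
      · exact (cliff_ge_down hb.toHomog hv h₂ fun hvb => h₁.not_ge (le_inf hva hvb)).mono
          (le_inf h₁.le inf_le_right) le_rfl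
      · exact (cliff_ge_down ha.toHomog hv h₂ hva).mono (le_inf h₁.le inf_le_left) le_rfl,
    not_ge_inf_base hn.ex ha.invx hb.invx ha.invs ha.le hb.le ha.lt hb.lt⟩
  obtain ⟨X, _, _, _, π, ι, act, hL⟩ := exists_lev hn.ex hn.noeth d hab ha.invs hle ⊥
    (fun g hg => by rw [Subgroup.mem_bot.1 hg]; exact Nz.one Z) (fx_bot_subgroup _)
    (fx_bot_subgroup s)
  have hina : In ρ Z (a ⊓ b) s a := ⟨ha.invx, inf_le_left, ha.le⟩
  have hinb : In ρ Z (a ⊓ b) s b := ⟨hb.invx, inf_le_right, hb.le⟩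
  have := SSI.inf (hL.ssi_of_level hina ha) (hL.ssi_of_level hinb hb) le_top le_top
  rw [← hL.π_inf _ _ hina hinb, hL.π_bot hab] at this
  exact hL.level_of_ssi hh this

omit [IsCompactlyGenerated L] in
theorem cliff_homog_down {x' s' r : L} (h : Homog ρ Z d x' s') (hx : Fx ρ Z x) (hr : Fx ρ Z r)
    (hxx : x ≤ x') (hxr : x ≤ r) (hrs : r ≤ s') (hi : x' ⊓ r ≤ x) : Homog ρ Z d x r where
  invx := hx
  invs := hr
  le := hxr
  ge := fun v hv h₁ h₂ => (cliff_ge_down h hv (h₂.trans hrs) fun hc =>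
    h₁.not_ge ((le_inf hc h₂).trans hi)).mono (le_inf h₁.le hxx) le_rfl
  lt := fun hg => h.lt ((hg.tup hr h.invx (by rwa [inf_comm])).mono le_sup_right
    (sup_le hrs h.le))

theorem cl_lift {H M : Subgroup G} (hnM : Nice ρ M) (hnZ : Nice ρ Z) (hZM : Z ≤ M) (hMH : M ≤ H)
    (hHM : ∀ g ∈ H, Nz g M) (hHZ : ∀ g ∈ H, Nz g Z) (hx : Fx ρ H x) (hs : Fx ρ H s)
    (hu : ∀ w₁ w₂, Fx ρ H w₁ → Fx ρ H w₂ → x < w₁ → x < w₂ → w₁ ≤ s → w₂ ≤ s → x < w₁ ⊓ w₂)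
    (hl : Level ρ M d x s)
    (hc : ∀ x' s', Crit ρ M d x' s' → ∃ d', Level ρ Z d' x' s') :
    ∃ d', Level ρ Z d' x s := by
  have hxZ : Fx ρ Z x := hl.invx.mono hZM
  rcases hl.le.eq_or_lt with rfl | hxs
  · exact ⟨0, cliff_level_refl hxZ⟩
  obtain ⟨k₀, -, hk₀, hp₀⟩ := hl.toHomog.exists_crit hnM hl.invs hxs le_rfl
  obtain ⟨d', hd'⟩ := hc _ _ hp₀
  have key : ∀ q, Crit ρ M d x q → q ≤ s → Homog ρ Z d' x q := by
    intro q hq hqs
    refine two_kinds hnM hMH hHM hx hs hu hl.toHomog (fun r => Homog ρ Z d' x r) ?_ ?_ hp₀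
      (cliff_span_le hl.invs hl.le hk₀) hq hqs hd'.toHomog
    · intro g hg r _ _ hr
      have := cliff_homog_conj hr (hHZ g hg)
      rwa [hx g hg] at this
    · intro x' s' r r' h1 h2 _ h4 h5 h6 h7 h8 h9 h10
      obtain ⟨e, he⟩ := hc _ _ h1
      obtain rfl := h10.unique
        (cliff_homog_down he.toHomog hxZ (h4.invp.mono hZM) h2 h4.lt'.le h6 h8) h4.lt'
      exact cliff_homog_down he.toHomog hxZ (h5.invp.mono hZM) h2 h5.lt'.le h7 h9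
  refine ⟨d', cliff_level_of_local hxZ (hl.invs.mono hZM) hl.le fun k hk hks => ?_⟩
  obtain ⟨n, xs, ps, s', hs', hks', hi, hb⟩ := proj hnM hl.toHomog
    {p | Crit ρ M d x p ∧ p ≤ s} (fun p hp => hp) hl.gen hk hks
  refine ⟨s', hks', hs'.hi, ?_⟩
  have hlev : ∀ i, Level ρ Z d' (xs i) s' := by
    intro i
    obtain ⟨h1, h2, h3, h4, h5⟩ := hi i
    obtain ⟨e, he⟩ := hc _ _ h4
    obtain rfl := (key _ h1.1 h1.2).unique
      (cliff_homog_down he.toHomog hxZ (h1.1.invp.mono hZM) h3 h1.1.lt'.le h2 h5) h1.1.lt'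
    exact he
  have hall : ∀ F : Finset (Fin n), Level ρ Z d' (s' ⊓ F.inf xs) s' := by
    intro F
    induction F using Finset.induction_on with
    | empty =>
      rw [Finset.inf_empty, inf_top_eq]
      exact cliff_level_refl (hs'.inv.mono hZM)
    | insert i F _ ih =>
      rw [Finset.inf_insert, inf_left_comm]
      exact Level.inf hnZ (hlev i) ih
  have he : s' ⊓ Finset.univ.inf xs = x :=
    le_antisymm (hb _ inf_le_left fun i => inf_le_right.trans (Finset.inf_le (Finset.mem_univ i)))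
      (le_inf hs'.lo (Finset.le_inf fun i _ => (hi i).2.2.1))
  rw [← he]
  exact hall _

/-- Clifford theory for a normal subgroup with poly-`ℤ` quotient. -/
theorem cl_gen [IsAtomistic L] {h m : ℕ} (hΓ : PZ h Γ) (hc : Chain Z m Γ)
    (hZ : ∀ g ∈ Γ, Nz g Z) (hcr : Crit ρ Γ d x s) : ∃ d', Level ρ Z d' x s := by
  induction hc generalizing d x s with
  | refl => exact ⟨d, hcr.level hΓ.nice.ex⟩
  | step hc' hs ih =>
    have hΓ' := hΓ.sub hs.le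
    obtain ⟨d₁, hd₁⟩ := cl_one hs hΓ'.nice hΓ.nice hcr
    exact cl_lift hΓ'.nice (hΓ'.sub hc'.le).nice hc'.le hs.le hs.norm hZ hcr.invx hcr.invp
      (fun w₁ w₂ => hcr.uniform hΓ.nice.ex) hd₁
      fun x' s' h' => ih hΓ' (fun g hg => hZ g (hs.le hg)) h'

/-- transfer of a tracked property. -/
theorem Good.trans [IsAtomistic L] {P : Subgroup G → L → L → Prop} (hP : Tracked ρ P) {h m : ℕ}
    (hΓ : PZ h Γ) (hc : Chain Z m Γ) (hZ : ∀ g ∈ Γ, Nz g Z) (hcr : Crit ρ Γ d x s)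
    (hg : Good ρ P Z x s) (hw : Fx ρ Z w) (h₁ : x < w) (h₂ : w ≤ s) : Good ρ P Z x w := by
  obtain ⟨d', hl⟩ := cl_gen hΓ hc hZ hcr
  have hn : Nice ρ Z := (hΓ.sub hc.le).nice
  obtain ⟨w₀, hw₀, hx₀, hs₀, hP₀⟩ := hg
  obtain ⟨k, -, hk, hp⟩ := hl.toHomog.exists_crit hn hw₀ hx₀ hs₀
  obtain ⟨k', -, hk', hq⟩ := hl.toHomog.exists_crit hn hw h₁ h₂
  have hpw := cliff_span_le hw₀ hx₀.le hk
  have hqw := cliff_span_le hw h₁.le hk'
  have := two_kinds hn hc.le hZ hcr.invx hcr.invp (fun w₁ w₂ => hcr.uniform hΓ.nice.ex)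
    hl.toHomog (fun r => Good ρ P Z x r) ?_ ?_ hp (hpw.trans hs₀) hq (hqw.trans h₂)
    ⟨_, hp.invp, hp.lt', le_rfl, hP.sub _ _ _ _ hP₀ hp.lt'.le hpw⟩
  · obtain ⟨v, h3, h4, h5, h6⟩ := this
    exact ⟨v, h3, h4, h5.trans hqw, h6⟩
  · rintro g hg r _ _ ⟨v, h3, h4, h5, h6⟩
    have h7 := hP.conj _ _ _ g (hZ g hg) h6
    have h8 := (ρ g).lt_iff_lt.2 h4
    rw [hcr.invx g hg] at h7 h8
    exact ⟨ρ g v, h3.conj (hZ g hg), h8, (ρ g).le_iff_le.2 h5, h7⟩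
  · rintro x' s' r r' h3 h4 _ h6 h7 h8 h9 h10 h11 ⟨v, hv, hxv, hvr, hPv⟩
    have e1 : x' ⊓ v ≤ x := (inf_le_inf_left _ hvr).trans h10
    have hP1 := hP.tup _ _ _ _ hl.invx hv h3.invx h4 e1 hPv
    have hlt := h3.uniform hn.ex (h3.invx.sup h7.invp) (h3.invx.sup hv)
      (left_lt_sup.2 fun hcon => h7.lt'.not_ge ((le_inf hcon le_rfl).trans h11))
      (left_lt_sup.2 fun hcon => hxv.not_ge ((le_inf hcon le_rfl).trans e1))
      (sup_le h3.lt'.le h9) (sup_le h3.lt'.le (hvr.trans h8))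
    rw [sup_inf_assoc_of_le _ (le_sup_left : x' ≤ x' ⊔ v)] at hlt
    have hfx : Fx ρ Z (r' ⊓ (x' ⊔ v)) := h7.invp.inf (h3.invx.sup hv)
    have hxle : x ≤ r' ⊓ (x' ⊔ v) := le_inf h7.lt'.le (le_sup_of_le_left h4)
    refine ⟨r' ⊓ (x' ⊔ v), hfx, lt_of_le_not_ge hxle fun hcon =>
      (left_lt_sup.1 hlt) (hcon.trans h4), inf_le_left, ?_⟩
    exact hP.tdown _ _ _ _ hl.invx hfx h3.invx h4 hxle
      ((inf_le_inf_left _ inf_le_left).trans h11)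
      (hP.sub _ _ _ _ hP1 le_sup_left (sup_le le_sup_left inf_le_right))

end Pool.Agent.Lib.MP_36fb39_al
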