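import Pool.Agent.Lib.MP_36fb39_al.CvW

/-! The two constructions: unbounded orders, and infinite elementary abelian quotients. -/

set_option autoImplicit false

namespace Pool.Agent.Lib.MP_36fb39_al

open Polynomial

universe u

theorem cv_ne (k : Type) {T : Type u} [CommRing k] [Nontrivial k] [CommGroup T] {t : T} {n : ℕ}
    (h : ∀ i < n, t ^ i ≠ t ^ n) : (MonoidAlgebra.of k T t - 1) ^ n ≠ 0 := by
  classical
  intro h0
  have hm : ((X - C 1 : k[X]) ^ n).Monic := (monic_X_sub_C 1).pow n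
  have hd : ((X - C 1 : k[X]) ^ n).natDegree = n := by
    rw [(monic_X_sub_C 1).natDegree_pow, natDegree_X_sub_C, mul_one]
  have h1 := aeval_eq_sum_range (p := (X - C 1 : k[X]) ^ n) (MonoidAlgebra.of k T t)
  rw [map_pow, map_sub, aeval_X, aeval_C, map_one, h0, hd] at h1
  have h2 := congrArg (fun z => z.coeff (t ^ n)) h1
  simp only [MonoidAlgebra.single_pow, one_pow, MonoidAlgebra.of_apply, MonoidAlgebra.coeff_sum,
    Finsupp.coe_finsetSum,
    Finset.sum_apply, MonoidAlgebra.smul_single', MonoidAlgebra.coeff_single,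
    MonoidAlgebra.coeff_zero, Finsupp.coe_zero, Pi.zero_apply, mul_one] at h2
  rw [Finset.sum_range_succ, Finset.sum_eq_zero fun i hi =>
    Finsupp.single_eq_of_ne' (h i (Finset.mem_range.1 hi)), Finsupp.single_eq_same, zero_add] at h2
  have h3 := hm.coeff_natDegree
  rw [hd, ← h2] at h3
  exact zero_ne_one h3

/-- The elements of order prime to `p`. -/
def cvP (T : Type u) [CommGroup T] (p : Nat.Primes) : Subgroup T where
  carrier := {t | ∃ m, ¬ p.1 ∣ m ∧ t ^ m = 1}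
  one_mem' := ⟨1, p.2.not_dvd_one, one_pow _⟩
  mul_mem' := by
    rintro a b ⟨m, h1, h2⟩ ⟨l, h3, h4⟩
    refine ⟨m * l, fun h => (p.2.dvd_mul.1 h).elim h1 h3, ?_⟩
    rw [mul_pow, pow_mul, h2, one_pow, one_mul, mul_comm, pow_mul, h4, one_pow]
  inv_mem' := by
    rintro a ⟨m, h1, h2⟩
    exact ⟨m, h1, by rw [inv_pow, h2, inv_one]⟩

variable {Q : Type u} [Group Q] {N : Subgroup Q} [N.Normal]

theorem case_a (hQ : Group.FG Q) (hH : HallP Q) {T : Type u} [CommGroup T] (π : N →* T)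
    (hT : ∀ t : T, IsOfFinOrder t) (y : N) : ∃ m, 0 < m ∧ ∀ g, π (cj g y) ^ m = 1 := by
  by_contra! c
  let ψ : T →* ∀ p : Nat.Primes, MonoidAlgebra (ZMod p) (T ⧸ cvP T p) :=
    MonoidHom.pi fun p => (MonoidAlgebra.of _ _).comp (QuotientGroup.mk' _)
  refine not_hall (ψ.comp π) hQ (Subgroup.zpowers y) (fun n => ?_) hH
  obtain ⟨g, hg⟩ := c n.factorial n.factorial_pos
  rw [Ne, ← orderOf_dvd_iff_pow_eq_one, Nat.dvd_iff_prime_pow_dvd_dvd] at hg
  push Not at hg
  obtain ⟨p, k, hp, h1, h2⟩ := hg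
  have h0 := (hT (π (cj g y))).orderOf_pos
  refine ⟨g, y, 1, orderOf (π (cj g y)), Subgroup.mem_zpowers y,
    AddSubgroup.subset_closure ⟨1, map_one _⟩, ?_, ?_, ?_⟩
  · rintro _ ⟨j, rfl⟩
    obtain ⟨m, hm⟩ := (hT (π (cj g y))).mem_powers_iff_mem_zpowers.2
      (⟨j, by simp [cj]⟩ : π (cj g (y ^ j)) ∈ Subgroup.zpowers (π (cj g y)))
    obtain ⟨d, hd⟩ := sub_one_dvd_pow_sub_one (ψ (π (cj g y))) m
    refine ⟨d, ?_⟩
    simp only [MonoidHom.comp_apply, ← hm, map_pow, hd]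
    ring
  · funext q
    have := Fact.mk q.2
    have : CharP (MonoidAlgebra (ZMod q) (T ⧸ cvP T q)) q :=
      charP_of_injective_algebraMap (algebraMap (ZMod q) _).injective q
    obtain ⟨a, m, h3, h4⟩ := Nat.exists_eq_pow_mul_and_not_dvd h0.ne' q q.2.ne_one
    have h5 : ((π (cj g y) : T ⧸ cvP T q)) ^ q.1 ^ a = 1 := by
      rw [← QuotientGroup.mk_pow, QuotientGroup.eq_one_iff]
      exact ⟨m, h3, by rw [← pow_mul, ← h4, pow_orderOf_eq_one]⟩
    rw [mul_one]
    refine pow_eq_zero_of_le (Nat.le_of_dvd h0 ⟨m, h4⟩) ?_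
    change (MonoidAlgebra.of (ZMod q) _ (π (cj g y) : T ⧸ cvP T q) - 1) ^ q.1 ^ a = 0
    rw [sub_pow_char_pow, ← map_pow, h5, map_one, one_pow, sub_self]
  · have := Fact.mk hp
    rw [mul_one]
    refine fun h3 => cv_ne (ZMod p) (t := (π (cj g y) : T ⧸ cvP T ⟨p, hp⟩)) (n := n)
      (fun i hi h4 => h2 ?_) (congrFun h3 ⟨p, hp⟩)
    obtain ⟨j, rfl⟩ := Nat.exists_eq_add_of_lt hi
    rw [add_assoc, pow_add, left_eq_mul, ← QuotientGroup.mk_pow, QuotientGroup.eq_one_iff] at h4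
    obtain ⟨m, h5, h6⟩ := h4
    rw [← pow_mul, ← orderOf_dvd_iff_pow_eq_one] at h6
    have h7 : p ^ k ∣ j + 1 :=
      (Nat.Coprime.pow_left k ((Nat.Prime.coprime_iff_not_dvd hp).2 h5)).dvd_of_dvd_mul_right
        (h1.trans h6)
    exact h7.trans (Nat.dvd_factorial j.succ_pos (by omega))

theorem cv_ring (p : ℕ) [hp : Fact p.Prime] (n : ℕ) : ∃ (S : Type) (_ : CommRing S) (u : S),
    u ^ p = 1 ∧ (u - 1) ^ (n + 2) = 0 ∧ (u - 1) ^ (n + 1) ≠ 0 := by
  have : IsDomain (AdjoinRoot (cyclotomic p ℤ)) :=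
    AdjoinRoot.isDomain_of_prime (cyclotomic.irreducible hp.out.pos).prime
  let ζ := AdjoinRoot.root (cyclotomic p ℤ)
  have h1 : ζ ^ p = 1 := by
    have := AdjoinRoot.mk_eq_zero.2 (cyclotomic.dvd_X_pow_sub_one p ℤ)
    rwa [map_sub, map_pow, map_one, sub_eq_zero] at this
  have h2 : ζ - 1 ≠ 0 := fun h => by
    have h3 : AdjoinRoot.of (cyclotomic p ℤ) p = 0 := by
      have := AdjoinRoot.eval₂_root (cyclotomic p ℤ)
      rwa [show AdjoinRoot.root (cyclotomic p ℤ) = AdjoinRoot.of _ 1 from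
        (sub_eq_zero.1 h).trans (map_one _).symm, eval₂_at_apply, eval_one_cyclotomic_prime] at this
    have h4 := AdjoinRoot.of.injective_of_degree_ne_zero (f := cyclotomic p ℤ)
      (degree_cyclotomic_pos p ℤ hp.out.pos).ne' (h3.trans (map_zero _).symm)
    exact hp.out.ne_zero (by exact_mod_cast h4)
  have h3 : ¬ IsUnit (ζ - 1) := fun h => by
    have := h.map (AdjoinRoot.lift (Int.castRingHom (ZMod p)) 1 (by
      rw [← map_one (Int.castRingHom (ZMod p)), eval₂_at_apply, eval_one_cyclotomic_prime]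
      simp))
    rw [map_sub, AdjoinRoot.lift_root, map_one, sub_self] at this
    exact not_isUnit_zero this
  refine ⟨_, inferInstance, Ideal.Quotient.mk (Ideal.span {(ζ - 1) ^ (n + 2)}) ζ,
    by rw [← map_pow, h1, map_one], ?_, ?_⟩
  · rw [← map_one (Ideal.Quotient.mk _), ← map_sub, ← map_pow, Ideal.Quotient.eq_zero_iff_mem]
    exact Ideal.mem_span_singleton_self _
  · rw [← map_one (Ideal.Quotient.mk _), ← map_sub, ← map_pow, Ne, Ideal.Quotient.eq_zero_iff_mem,
      Ideal.mem_span_singleton, pow_dvd_pow_iff h2 h3]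
    omega

theorem case_b (hQ : Group.FG Q) (hH : HallP Q) (p : ℕ) [hp : Fact p.Prime] {V : Type u}
    [AddCommGroup V] [Module (ZMod p) V] (π : N →* Multiplicative V)
    (hπ : Function.Surjective π) : Finite V := by
  classical
  by_contra c
  let b := Module.Free.chooseBasis (ZMod p) V
  have : Infinite (Module.Free.ChooseBasisIndex (ZMod p) V) := not_finite_iff_infinite.1 fun _ =>
    c (have := Module.Finite.of_basis b; Module.finite_of_finite (ZMod p))
  let e := Infinite.natEmbedding (Module.Free.ChooseBasisIndex (ZMod p) V)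
  choose S inst u h1 h2 h3 using cv_ring p
  let χ : N →* ∀ n : ULift.{u} ℕ, S n.down := MonoidHom.pi fun n =>
    (AddChar.zmodChar p (h1 n.down)).toMonoidHom.comp
      ((b.coord (e n.down)).toAddMonoidHom.toMultiplicative.comp π)
  have hχ : ∀ k m, χ k ⟨m⟩ = u m ^ (b.repr (π k).toAdd (e m)).val := fun _ _ => rfl
  refine not_hall χ hQ ⊤ (fun n => ?_) hH
  obtain ⟨k, hk⟩ := hπ (Multiplicative.ofAdd (b (e n)))
  have k1 : χ k ⟨n⟩ = u n := by simp [hχ, hk, ZMod.val_one]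
  have k2 : ∀ m, m ≠ n → χ k ⟨m⟩ = 1 := fun m hm => by
    simp [hχ, hk, Finsupp.single_eq_of_ne (e.injective.ne hm)]
  refine ⟨1, k, χ k - 1, n + 1, trivial, sub_mem (AddSubgroup.subset_closure ⟨k, rfl⟩)
    (AddSubgroup.subset_closure ⟨1, map_one _⟩), fun k' _ => ?_, ?_, fun h => h3 n ?_⟩
  · choose d hd using fun m => sub_one_dvd_pow_sub_one (u m) (b.repr (π k').toAdd (e m)).val
    refine ⟨fun m => d m.down, funext fun ⟨m⟩ => ?_⟩
    simp only [cj_one, Pi.mul_apply, Pi.sub_apply, Pi.one_apply]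
    by_cases hm : m = n
    · subst hm
      rw [hχ k', hd, k1]
      ring
    · rw [k2 m hm]
      ring
  · funext ⟨m⟩
    simp only [cj_one, Pi.mul_apply, Pi.sub_apply, Pi.one_apply, Pi.pow_apply, Pi.zero_apply]
    by_cases hm : m = n
    · subst hm
      rw [k1, ← pow_succ, h2]
    · rw [k2 m hm]
      ring
  · simpa [cj_one, k1, pow_succ] using congrFun h ⟨n⟩

end Pool.Agent.Lib.MP_36fb39_al
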