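import Pool.Agent.Lib.MP_36fb39_al.Hall

set_option autoImplicit false

namespace Pool.Agent.Lib.MP_36fb39_al

open scoped commutatorElement

section Rel
variable {G Q : Type*} [Group G] [Group Q]

theorem groupred_ker_inf_sup (f : G →* Q) {H N : Subgroup G} [N.Normal] (hN : N ≤ f.ker)
    (hH : f.ker ⊓ H ≤ N) : f.ker ⊓ (H ⊔ N) ≤ N := by
  rintro g ⟨hg, hg'⟩
  have h1 : g ∈ ((H ⊔ N : Subgroup G) : Set G) := hg'
  rw [Subgroup.mul_normal] at h1
  obtain ⟨a, ha, b, hb, rfl⟩ := h1
  have h2 : a ∈ f.ker := by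
    have := f.ker.mul_mem hg (f.ker.inv_mem (hN hb))
    simpa using this
  exact N.mul_mem (hH ⟨h2, ha⟩) hb

theorem groupred_map_sup (f : G →* Q) {H N : Subgroup G} (hN : N ≤ f.ker) :
    (H ⊔ N).map f = H.map f := by
  rw [Subgroup.map_sup, (Subgroup.map_eq_bot_iff N).2 hN, sup_bot_eq]

theorem groupred_conj_mem {T : Set G} {N : Subgroup G} [hN : N.Normal] {τ : G}
    (h : ∀ x ∈ T, τ * x * τ⁻¹ ∈ Subgroup.closure T ⊔ N) :
    ∀ a ∈ Subgroup.closure T ⊔ N, τ * a * τ⁻¹ ∈ Subgroup.closure T ⊔ N := by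
  have : Subgroup.closure T ⊔ N ≤ (Subgroup.closure T ⊔ N).comap (MulAut.conj τ).toMonoidHom := by
    refine sup_le ((Subgroup.closure_le _).2 fun x hx => h x hx) fun x hx => ?_
    exact Subgroup.mem_sup_right (hN.conj_mem x hx τ)
  exact fun a ha => this ha

theorem groupred_relators (f : G →* Q) (hf : Function.Surjective f) {l : ℕ} {K : Subgroup Q}
    (h : PC l K) : ∃ T S : Finset G, (Subgroup.closure (T : Set G)).map f = K ∧
      (S : Set G) ⊆ f.ker ∧
      f.ker ⊓ Subgroup.closure (T : Set G) ≤ Subgroup.normalClosure (S : Set G) := by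
  classical
  induction h with
  | bot => exact ⟨∅, ∅, by simp, by simp, by simp⟩
  | @step l K' K t _ hs ih =>
    obtain ⟨T, S, hT, hS, hker⟩ := ih
    obtain ⟨τ, rfl⟩ := hf t
    have hlift : ∀ g : G, f g ∈ K' → ∃ r ∈ f.ker, ∃ a ∈ Subgroup.closure (T : Set G), g = a * r := by
      intro g hg
      rw [← hT] at hg
      obtain ⟨a, ha, hag⟩ := hg
      exact ⟨a⁻¹ * g, by simp [MonoidHom.mem_ker, hag], a, ha, by group⟩
    have hTK : ∀ x ∈ T, f x ∈ K' := fun x hx =>
      hT ▸ Subgroup.mem_map_of_mem f (Subgroup.subset_closure hx)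
    have h1 : ∀ x : T, ∃ r ∈ f.ker, ∃ a ∈ Subgroup.closure (T : Set G), τ * x * τ⁻¹ = a * r :=
      fun x => hlift _ (by simpa using (hs.norm _ hs.mem _).1 (hTK x x.2))
    have h2 : ∀ x : T, ∃ r ∈ f.ker, ∃ a ∈ Subgroup.closure (T : Set G),
        τ⁻¹ * x * τ⁻¹⁻¹ = a * r :=
      fun x => hlift _ (by simpa using (hs.norm _ (K.inv_mem hs.mem) _).1 (hTK x x.2))
    choose r1 hr1 h1 using h1
    choose r2 hr2 h2 using h2
    let Z : AddSubgroup ℤ := (K'.comap (zpowersHom Q (f τ))).toAddSubgroup'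
    obtain ⟨n₀, hn₀⟩ := Int.subgroup_cyclic Z
    have hZ : ∀ n : ℤ, n ∈ Z ↔ f τ ^ n ∈ K' := fun n => Iff.rfl
    have hn : n₀ ∈ Z := hn₀ ▸ AddSubgroup.subset_closure rfl
    obtain ⟨r0, hr0, h0⟩ := hlift (τ ^ n₀) (by simpa using (hZ n₀).1 hn)
    let S' : Finset G := insert r0 (S ∪ (T.attach.image r1 ∪ T.attach.image r2))
    have hS' : (S' : Set G) ⊆ f.ker := by
      intro x hx
      simp only [S', Finset.coe_insert, Finset.coe_union, Finset.coe_image, Set.mem_insert_iff,
        Set.mem_union, Set.mem_image] at hx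
      rcases hx with rfl | hx | ⟨y, -, rfl⟩ | ⟨y, -, rfl⟩
      exacts [hr0, hS hx, hr1 y, hr2 y]
    set N := Subgroup.normalClosure (S' : Set G)
    have hN : N ≤ f.ker := Subgroup.normalClosure_le_normal hS'
    have hsub : ∀ x ∈ S', x ∈ N := fun x hx => Subgroup.subset_normalClosure hx
    set P := Subgroup.closure (T : Set G) ⊔ N
    have hP : f.ker ⊓ P ≤ N := groupred_ker_inf_sup f hN (hker.trans
      (Subgroup.normalClosure_mono fun x hx => by simp [S', Finset.mem_coe.1 hx]))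
    have hPK : P.map f = K' := by rw [groupred_map_sup f hN, hT]
    have hnz : Nz τ P := by
      refine Nz.of_forall (groupred_conj_mem fun x hx => ?_) fun a ha => ?_
      · obtain ⟨a, ha, e⟩ := h1 ⟨x, hx⟩
        rw [e]
        exact Subgroup.mul_mem_sup ha (hsub _ (by simp [S']))
      · have := groupred_conj_mem (τ := τ⁻¹) (T := (T : Set G)) (N := N) (fun x hx => by
          obtain ⟨a, ha, e⟩ := h2 ⟨x, hx⟩
          rw [e]
          exact Subgroup.mul_mem_sup ha (hsub _ (by simp [S']))) a ha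
        simpa using this
    have hτ : τ ^ n₀ ∈ P := by
      obtain ⟨a, ha, e⟩ := h0
      rw [e]
      exact Subgroup.mul_mem_sup ha (hsub _ (by simp [S']))
    have hins : Subgroup.closure ((insert τ T : Finset G) : Set G) =
        Subgroup.closure (T : Set G) ⊔ Subgroup.zpowers τ := by
      rw [Finset.coe_insert, Set.insert_eq, Subgroup.closure_union, sup_comm,
        Subgroup.zpowers_eq_closure]
    refine ⟨insert τ T, S', ?_, hS', ?_⟩
    · rw [hins, Subgroup.map_sup, hT, MonoidHom.map_zpowers]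
      refine le_antisymm (sup_le hs.le (Subgroup.zpowers_le.2 hs.mem)) fun g hg => ?_
      obtain ⟨n, a, ha, rfl⟩ := hs.gen g hg
      exact Subgroup.mul_mem _ (Subgroup.mem_sup_right ⟨n, rfl⟩) (Subgroup.mem_sup_left ha)
    · rintro g ⟨hg, hg'⟩
      refine hP ⟨hg, ?_⟩
      have h3 : g ∈ P ⊔ Subgroup.zpowers τ := by
        rw [hins] at hg'
        exact (sup_le_sup_right (le_sup_left : _ ≤ P) (Subgroup.zpowers τ) :) hg'
      obtain ⟨n, a, ha, rfl⟩ := (mem_sup_zpowers hnz g).1 h3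
      have h4 : f a ∈ K' := hPK ▸ Subgroup.mem_map_of_mem f ha
      have h5 : f τ ^ n * f a = 1 := by simpa using hg
      have h6 : n ∈ Z := by
        rw [hZ, eq_inv_of_mul_eq_one_left h5]
        exact K'.inv_mem h4
      rw [hn₀, AddSubgroup.mem_closure_singleton] at h6
      obtain ⟨j, rfl⟩ := h6
      refine P.mul_mem ?_ ha
      rw [smul_eq_mul, mul_comm, zpow_mul]
      exact P.zpow_mem hτ j

end Rel

theorem exists_normalClosure_eq_ker {G Q : Type*} [Group G] [Group Q] (hG : Group.FG G)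
    (f : G →* Q) (hf : Function.Surjective f) {l : ℕ} (h : PC l (⊤ : Subgroup Q)) :
    ∃ S : Finset G, Subgroup.normalClosure (S : Set G) = f.ker := by
  classical
  obtain ⟨T, S, hT, hS, hker⟩ := groupred_relators f hf h
  obtain ⟨U, hU⟩ := hG.out
  have h1 : ∀ g : G, ∃ r ∈ f.ker, ∃ a ∈ Subgroup.closure (T : Set G), g = a * r := by
    intro g
    obtain ⟨a, ha, hag⟩ : f g ∈ (Subgroup.closure (T : Set G)).map f := hT ▸ Subgroup.mem_top _
    exact ⟨a⁻¹ * g, by simp [MonoidHom.mem_ker, hag], a, ha, by group⟩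
  choose r hr h1 using h1
  have hS' : ((S ∪ U.image r : Finset G) : Set G) ⊆ f.ker := by
    intro x hx
    simp only [Finset.coe_union, Finset.coe_image, Set.mem_union, Set.mem_image] at hx
    rcases hx with hx | ⟨y, -, rfl⟩
    exacts [hS hx, hr y]
  refine ⟨S ∪ U.image r, le_antisymm (Subgroup.normalClosure_le_normal hS') ?_⟩
  have h2 := groupred_ker_inf_sup f (Subgroup.normalClosure_le_normal hS')
    (hker.trans (Subgroup.normalClosure_mono (by simp)))
  refine le_trans (le_inf le_rfl (le_top.trans ?_)) h2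
  rw [← hU, Subgroup.closure_le]
  intro g hg
  obtain ⟨a, ha, e⟩ := h1 g
  rw [e]
  refine Subgroup.mul_mem_sup ha (Subgroup.subset_normalClosure ?_)
  simp only [Finset.coe_union, Finset.coe_image, Set.mem_union, Set.mem_image]
  exact Or.inr ⟨g, hg, rfl⟩

section Soc
variable {R : Type*} [CommRing R] {Q : Type*} [Group Q] {A : Type*} [AddCommGroup A] [Module R A]

/-- the upper socle series for the trivial module. -/
def groupredSoc (ρ : Representation R Q A) (K : Subgroup Q) : ℕ → Submodule R A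
  | 0 => ⊥
  | n + 1 => ⨅ g ∈ K, (groupredSoc ρ K n).comap (ρ g - 1)

variable {ρ : Representation R Q A} {K K' : Subgroup Q}

theorem groupred_mem_succ {n : ℕ} {a : A} :
    a ∈ groupredSoc ρ K (n + 1) ↔ ∀ g ∈ K, ρ g a - a ∈ groupredSoc ρ K n := by
  simp [groupredSoc]

theorem groupred_stable {g : Q} (hg : Nz g K) (n : ℕ) :
    ∀ a ∈ groupredSoc ρ K n, ρ g a ∈ groupredSoc ρ K n := by
  induction n with
  | zero => simp +contextual [groupredSoc]
  | succ n ih =>
    intro a ha
    rw [groupred_mem_succ] at ha ⊢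
    intro h hh
    have h1 : g⁻¹ * h * g ∈ K := (hg _).2 (by simpa [mul_assoc] using hh)
    have h2 := ih _ (ha _ h1)
    rwa [map_sub, ← Module.End.mul_apply, ← map_mul, ← mul_assoc, ← mul_assoc, mul_inv_cancel,
      one_mul, map_mul, Module.End.mul_apply] at h2

theorem groupred_mono : Monotone (groupredSoc ρ K) := by
  refine monotone_nat_of_le_succ fun n a ha => groupred_mem_succ.2 fun g hg => ?_
  exact Submodule.sub_mem _ (groupred_stable (Nz.of_mem hg) n a ha) ha

theorem groupred_pow_eq_zero {g : Q} (hg : g ∈ K) (n : ℕ) :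
    ∀ a ∈ groupredSoc ρ K n, ((ρ g - 1) ^ n) a = 0 := by
  induction n with
  | zero => simp +contextual [groupredSoc]
  | succ n ih =>
    intro a ha
    rw [pow_succ, Module.End.mul_apply]
    exact ih _ (groupred_mem_succ.1 ha g hg)

theorem groupred_gen {t : Q} (hs : CStep K' K t) {n : ℕ} {a : A}
    (h1 : ∀ g ∈ K', ρ g a - a ∈ groupredSoc ρ K n) (h2 : ρ t a - a ∈ groupredSoc ρ K n) :
    a ∈ groupredSoc ρ K (n + 1) := by
  let D : Subgroup Q :=
    { carrier := {g | g ∈ K ∧ ρ g a - a ∈ groupredSoc ρ K n}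
      one_mem' := ⟨K.one_mem, by simp⟩
      mul_mem' := by
        rintro g h ⟨hg, hg'⟩ ⟨hh, hh'⟩
        refine ⟨K.mul_mem hg hh, ?_⟩
        have := Submodule.add_mem _ (groupred_stable (Nz.of_mem hg) n _ hh') hg'
        simpa using this
      inv_mem' := by
        rintro g ⟨hg, hg'⟩
        refine ⟨K.inv_mem hg, ?_⟩
        have := Submodule.neg_mem _ (groupred_stable (Nz.of_mem (K.inv_mem hg)) n _ hg')
        rwa [map_sub, ← Module.End.mul_apply, ← map_mul, inv_mul_cancel, map_one,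
          Module.End.one_apply, neg_sub] at this }
  refine groupred_mem_succ.2 fun g hg => ?_
  obtain ⟨m, b, hb, rfl⟩ := hs.gen g hg
  exact (D.mul_mem (D.zpow_mem (⟨hs.mem, h2⟩ : t ∈ D) m) (⟨hs.le hb, h1 b hb⟩ : b ∈ D)).2

theorem groupred_bdd (hb : ∀ y, UnipBdd (ρ y)) {K₀ : Subgroup Q} (W : Submodule R A)
    (hW : ∀ g ∈ K₀, ∀ a ∈ W, ρ g a ∈ W) (hu : ∀ g ∈ K₀, ∀ a ∈ W, ∃ i : ℕ, ((ρ g - 1) ^ i) a = 0)
    {l : ℕ} (h : PC l K) (hK : K ≤ K₀) : ∃ n, W ≤ groupredSoc ρ K n := by
  induction h with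
  | bot =>
    refine ⟨1, fun a _ => groupred_mem_succ.2 fun g hg => ?_⟩
    rw [Subgroup.mem_bot.1 hg]
    simp
  | @step l K' K t _ hs ih =>
    obtain ⟨n, hn⟩ := ih (hs.le.trans hK)
    obtain ⟨m, hm⟩ := hb t
    have key : ∀ j, ∀ a ∈ W, a ∈ groupredSoc ρ K' j → a ∈ groupredSoc ρ K (j * m) := by
      intro j
      induction j with
      | zero => intro a _ ha; simpa [groupredSoc] using ha
      | succ j ihj =>
        have inner : ∀ r, ∀ a ∈ W, a ∈ groupredSoc ρ K' (j + 1) →
            ((ρ t - 1) ^ r) a = 0 → a ∈ groupredSoc ρ K (j * m + r) := by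
          intro r
          induction r with
          | zero =>
            intro a _ _ h0
            rw [show a = 0 by simpa using h0]
            exact Submodule.zero_mem _
          | succ r ihr =>
            intro a ha ha' h0
            refine groupred_gen hs (fun g hg => ?_) (ihr _ ?_ ?_ ?_)
            · exact groupred_mono (Nat.le_add_right _ _) (ihj _
                (W.sub_mem (hW g (hK (hs.le hg)) a ha) ha) (groupred_mem_succ.1 ha' g hg))
            · exact W.sub_mem (hW t (hK hs.mem) a ha) ha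
            · exact Submodule.sub_mem _ (groupred_stable (hs.norm t hs.mem) _ a ha') ha'
            · rwa [pow_succ, Module.End.mul_apply] at h0
        intro a ha ha'
        obtain ⟨i, hi⟩ := hu t (hK hs.mem) a ha
        rw [Nat.succ_mul]
        exact inner m a ha ha' (hm a i hi)
    exact ⟨n * m, fun a ha => key n a ha (hn ha)⟩

theorem groupred_soc_bdd (hb : ∀ y, UnipBdd (ρ y)) {l : ℕ} (h : PC l K) :
    ∃ n, ∀ i, groupredSoc ρ K i ≤ groupredSoc ρ K n := by
  have hmem : ∀ a, a ∈ ⨆ i, groupredSoc ρ K i ↔ ∃ i, a ∈ groupredSoc ρ K i := fun a =>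
    Submodule.mem_iSup_of_directed _ groupred_mono.directed_le
  obtain ⟨n, hn⟩ := groupred_bdd hb (K₀ := K) (⨆ i, groupredSoc ρ K i)
    (fun g hg a ha => by
      obtain ⟨i, hi⟩ := (hmem a).1 ha
      exact (hmem _).2 ⟨i, groupred_stable (Nz.of_mem hg) i a hi⟩)
    (fun g hg a ha => by
      obtain ⟨i, hi⟩ := (hmem a).1 ha
      exact ⟨i, groupred_pow_eq_zero hg i a hi⟩) h le_rfl
  exact ⟨n, fun i => (le_iSup _ i).trans hn⟩

end Soc

theorem groupred_span_le {R : Type*} [CommRing R] {G : Type*} [Group G] {M : Type*}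
    [AddCommGroup M] [Module R M] (ρ : Representation R G M) (k : Submodule R M) (g : G) (a : M)
    (ha : a ∈ k) : ρ g a ∈ span (latAct ρ) ⊤ k :=
  le_tr (ρ := latAct ρ) (S := ((⊤ : Subgroup G) : Set G)) (Subgroup.mem_top g) k
    (Submodule.mem_map_of_mem ha)

theorem hall_of_ft (hFT : FT ℤ) (G : Type) [Group G] (hG : Group.FG G) (Q : Type) [Group Q]
    (f : G →* Q) (hf : Function.Surjective f) (hs : Group.IsSolvable Q)
    (hK : ∀ K : Subgroup Q, K.FG) (hab : ∀ x ∈ f.ker, ∀ y ∈ f.ker, x * y = y * x)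
    (H : Subgroup G) : ∃ n : ℕ, upperCentralSeries (↥H) n = upperCentralSeries (↥H) (n + 1) := by
  classical
  obtain ⟨l, hQ⟩ := pc_of_solvable hK
  letI : CommGroup f.ker :=
    { (inferInstance : Group f.ker) with
      mul_comm := fun x y => Subtype.ext (hab x x.2 y y.2) }
  have hle : f.ker ≤ (MulAut.conjNormal : G →* MulAut f.ker).ker := fun x hx => by
    rw [MonoidHom.mem_ker]
    ext y
    simp [hab x hx y y.2]
  let c : Q →* MulAut f.ker := f.liftOfSurjective hf ⟨MulAut.conjNormal, hle⟩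
  have hc : ∀ g (a : f.ker), (c (f g) a : G) = g * a * g⁻¹ := fun g a => by
    simp [c]
  let ρ : Q →* Module.End ℤ (Additive f.ker) :=
    { toFun := fun q => (MonoidHom.toAdditive (c q).toMonoidHom).toIntLinearMap
      map_one' := by ext; simp
      map_mul' := fun _ _ => by ext; simp }
  have hρ : ∀ g (a : f.ker), ((ρ (f g) (Additive.ofMul a)).toMul : G) = g * a * g⁻¹ :=
    fun g a => hc g a
  have hfg : FGRep (R := ℤ) ρ := by
    obtain ⟨S, hS⟩ := exists_normalClosure_eq_ker hG f hf hQ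
    have hSk : ∀ x ∈ S, x ∈ f.ker := fun x hx => hS ▸ Subgroup.subset_normalClosure hx
    let s : Finset (Additive f.ker) := S.attach.image fun x => Additive.ofMul ⟨x.1, hSk x.1 x.2⟩
    refine ⟨Submodule.span ℤ s, ⟨s, rfl⟩, ?_⟩
    set U := span (latAct (R := ℤ) ρ) ⊤ (Submodule.span ℤ (s : Set (Additive f.ker)))
    have hU : ∀ g, ∀ a ∈ U, ρ g a ∈ U := fun g =>
      (fx_latAct_iff (R := ℤ) ρ ⊤ U).1 (fx_span _ _) g (Subgroup.mem_top g)
    let U' : Subgroup G := (AddSubgroup.toSubgroup' U.toAddSubgroup).map f.ker.subtype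
    haveI : U'.Normal := ⟨by
      rintro _ ⟨a, ha, rfl⟩ g
      exact ⟨_, hU (f g) _ ha, hρ g a⟩⟩
    have h1 : f.ker ≤ U' := by
      rw [← hS]
      refine Subgroup.normalClosure_le_normal fun x hx => ⟨⟨x, hSk x hx⟩, ?_, rfl⟩
      exact le_span (ρ := latAct (R := ℤ) ρ) ⊤ _ (Submodule.subset_span
        (Finset.mem_coe.2 (Finset.mem_image.2 ⟨⟨x, hx⟩, Finset.mem_attach _ _, rfl⟩)))
    refine top_unique fun a _ => ?_
    obtain ⟨b, hb, e⟩ := h1 (a.toMul).2
    have : b = a.toMul := Subtype.ext e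
    subst this
    exact hb
  obtain ⟨n, hn⟩ := groupred_soc_bdd (R := ℤ) (ρ := ρ) (hFT Q l hQ _ ρ hfg)
    (hQ.sub (le_top : H.map f ≤ ⊤))
  have hsoc : ∀ i (x : H) (hx : (x : G) ∈ f.ker), x ∈ Subgroup.upperCentralSeries H i ↔
      Additive.ofMul (⟨x, hx⟩ : f.ker) ∈ groupredSoc (R := ℤ) ρ (H.map f) i := by
    intro i
    induction i with
    | zero =>
      intro x hx
      rw [Subgroup.upperCentralSeries_zero, Subgroup.mem_bot, groupredSoc, Submodule.mem_bot,
        ofMul_eq_zero, Subtype.ext_iff, Subtype.ext_iff]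
      rfl
    | succ i ih =>
      intro x hx
      have hk : ∀ y : H, ((⁅x, y⁆ : H) : G) ∈ f.ker := fun y => by
        rw [MonoidHom.mem_ker] at hx ⊢
        simp [commutatorElement_def, hx]
      have he : ∀ y : H, Additive.ofMul (⟨(⁅x, y⁆ : H), hk y⟩ : f.ker) =
          -(ρ (f y) (Additive.ofMul ⟨x, hx⟩) - Additive.ofMul ⟨x, hx⟩) := fun y => by
        rw [neg_sub, sub_eq_add_neg]
        refine Additive.toMul.injective (Subtype.ext ?_)
        simp only [toMul_ofMul, toMul_add, toMul_neg, Subgroup.coe_mul, Subgroup.coe_inv, hρ,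
          commutatorElement_def]
        group
      rw [Subgroup.mem_upperCentralSeries_succ_iff, groupred_mem_succ]
      constructor
      · rintro h _ ⟨y, hy, rfl⟩
        have := (ih _ (hk ⟨y, hy⟩)).1 (h ⟨y, hy⟩)
        rwa [he, Submodule.neg_mem_iff] at this
      · intro h y
        rw [ih _ (hk y), he, Submodule.neg_mem_iff]
        exact h _ ⟨y, y.2, rfl⟩
  let F : H →* Q := f.comp H.subtype
  obtain ⟨_, ⟨i₀, rfl⟩, hmax⟩ := hQ.acc
    (Set.range fun i => (Subgroup.upperCentralSeries H i).map F) ⟨_, 0, rfl⟩ fun _ _ => le_top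
  refine ⟨max i₀ n, ?_⟩
  change Subgroup.upperCentralSeries H _ = Subgroup.upperCentralSeries H _
  have hmono := Subgroup.upperCentralSeries_mono (G := H)
  refine le_antisymm (hmono (Nat.le_succ _)) fun x hx => ?_
  have h1 := hmax _ ⟨max i₀ n + 1, rfl⟩
    (Subgroup.map_mono (hmono ((le_max_left _ _).trans (Nat.le_succ _))))
  obtain ⟨z, hz, hzx⟩ : F x ∈ (Subgroup.upperCentralSeries H i₀).map F :=
    h1.le (Subgroup.mem_map_of_mem F hx)
  have hz' := hmono (le_max_left i₀ n) hz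
  have h2 : ((x * z⁻¹ : H) : G) ∈ f.ker := by
    have : F (x * z⁻¹) = 1 := by rw [map_mul, map_inv, hzx, mul_inv_cancel]
    exact this
  have h3 : x * z⁻¹ ∈ Subgroup.upperCentralSeries H (max i₀ n + 1) :=
    Subgroup.mul_mem _ hx (Subgroup.inv_mem _ (hmono (Nat.le_succ _) hz'))
  have h4 := (hsoc n _ h2).2 (hn _ ((hsoc _ _ h2).1 h3))
  simpa using Subgroup.mul_mem _ (hmono (le_max_right i₀ n) h4) hz'

end Pool.Agent.Lib.MP_36fb39_al
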