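import Pool.Agent.Lib.MP_36fb39_al.CvA
import Pool.Agent.Lib.MP_36fb39_al.GroupRed

/-! A soluble group with the property of Hall is polycyclic. -/

set_option autoImplicit false

namespace Pool.Agent.Lib.MP_36fb39_al

open scoped commutatorElement

universe u

/-- An abelian group whose torsion quotients have finite exponent and whose quotients of prime
exponent are finite is finitely generated. -/
theorem cv_fg {B : Type u} [AddCommGroup B]
    (hA : ∀ C : Submodule ℤ B, (∀ b, ∃ m, 0 < m ∧ m • b ∈ C) → ∃ m, 0 < m ∧ ∀ b, m • b ∈ C)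
    (hB : ∀ p : ℕ, p.Prime → ∃ F : Set B, F.Finite ∧ ∀ b, ∃ f ∈ F, ∃ c, b = f + p • c) :
    Module.Finite ℤ B := by
  have h1 : ∀ m : ℕ, 0 < m → ∃ F : Set B, F.Finite ∧ ∀ b, ∃ f ∈ F, ∃ c, b = f + m • c := by
    intro m
    induction m using induction_on_primes with
    | zero => exact fun h => absurd h (lt_irrefl _)
    | one => exact fun _ => ⟨{0}, Set.finite_singleton _, fun b => ⟨0, rfl, b, by simp⟩⟩
    | prime_mul p a hp ih =>
      intro h
      obtain ⟨F, f1, f2⟩ := ih (Nat.pos_of_mul_pos_left h)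
      obtain ⟨F', g1, g2⟩ := hB p hp
      refine ⟨_, f1.image2 (fun f f' => f + a • f') g1, fun b => ?_⟩
      obtain ⟨f, hf, c, rfl⟩ := f2 b
      obtain ⟨f', hf', c', rfl⟩ := g2 c
      exact ⟨_, Set.mem_image2_of_mem hf hf', c', by rw [smul_add, add_assoc, mul_comm, mul_smul]⟩
  obtain ⟨s, s1, s2⟩ := exists_maximal_linearIndepOn ℤ (id : B → B)
  rw [Set.image_id] at s2
  obtain ⟨m, m0, hm⟩ := hA ((Submodule.span ℤ s).map (LinearMap.lsmul ℤ B 2)) fun b => by
    by_cases hb : b ∈ s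
    · exact ⟨2, two_pos, b, Submodule.subset_span hb, natCast_zsmul b 2⟩
    · obtain ⟨a, a0, ha⟩ := s2 b hb
      refine ⟨2 * (a * a).natAbs, by positivity, a • a • b, Submodule.smul_mem _ a ha, ?_⟩
      rw [← natCast_zsmul, LinearMap.lsmul_apply, smul_smul, smul_smul, Nat.cast_mul,
        Int.natAbs_of_nonneg (mul_self_nonneg a), mul_assoc]
      rfl
  obtain ⟨F, f1, f2⟩ := h1 m m0
  choose f hf c hc using f2
  choose z hz1 hz2 using fun b => hm (c b)
  have h2 : ∀ b, b = f b + (2 : ℤ) • z b := fun b => (hc b).trans (congrArg _ (hz2 b).symm)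
  have h3 : s.Finite := by
    refine Set.Finite.of_finite_image (f1.subset (Set.image_subset_iff.2 fun b _ => hf b))
      fun a ha a' ha' e => ?_
    by_contra hne
    let ba := Module.Basis.span s1
    have e1 : ba ⟨a, ha⟩ - ba ⟨a', ha'⟩ = (2 : ℤ) • ⟨z a - z a', by
        simpa using sub_mem (hz1 a) (hz1 a')⟩ := by
      refine Subtype.ext ?_
      refine (congrArg₂ (· - ·) (Module.Basis.coe_span_apply s1 ⟨a, ha⟩)
        (Module.Basis.coe_span_apply s1 ⟨a', ha'⟩)).trans (?_ : a - a' = (2 : ℤ) • (z a - z a'))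
      rw [smul_sub, eq_sub_of_add_eq' (h2 a).symm, eq_sub_of_add_eq' (h2 a').symm, e]
      abel
    have e2 := congrArg (fun w => ba.repr w ⟨a, ha⟩) e1
    simp only [map_sub, Module.Basis.repr_self, map_smul, Finsupp.coe_sub, Pi.sub_apply,
      Finsupp.single_eq_same, Finsupp.coe_smul, Pi.smul_apply, smul_eq_mul] at e2
    rw [Finsupp.single_eq_of_ne (fun k => hne (congrArg Subtype.val k))] at e2
    omega
  refine ⟨Submodule.fg_def.2 ⟨F ∪ s, f1.union h3, eq_top_iff.2 fun b _ => ?_⟩⟩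
  rw [h2 b]
  exact add_mem (Submodule.subset_span (Or.inl (hf b)))
    (Submodule.smul_mem _ _ (Submodule.span_mono Set.subset_union_right (hz1 b)))

variable {Q : Type u} [Group Q]

theorem cv_main (hQ : Group.FG Q) (hH : HallP Q) {N : Subgroup Q} [N.Normal] {S : Finset Q}
    (hS : Subgroup.normalClosure (S : Set Q) = N) {B : Type u} [AddCommGroup B]
    (π : N →* Multiplicative B) (hπ : Function.Surjective π) : Module.Finite ℤ B := by
  refine cv_fg (fun C hC => ?_) fun p hp => ?_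
  · let π' : N →* Multiplicative (B ⧸ C) := C.mkQ.toAddMonoidHom.toMultiplicative.comp π
    have h0 : ∀ (k : N) (m : ℕ), π' k ^ m = 1 ↔ m • (π k).toAdd ∈ C := fun k m =>
      Submodule.Quotient.mk_eq_zero C
    have hT : ∀ t : Multiplicative (B ⧸ C), IsOfFinOrder t := fun t => by
      obtain ⟨b, hb⟩ := C.mkQ_surjective t.toAdd
      obtain ⟨k, hk⟩ := hπ (Multiplicative.ofAdd b)
      obtain ⟨m, m0, hm⟩ := hC b
      have e : π' k = t := by simp [π', hk, hb]
      exact isOfFinOrder_iff_pow_eq_one.2 ⟨m, m0, e ▸ (h0 k m).2 (by simpa [hk] using hm)⟩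
    choose m m0 hm using case_a hQ hH π' hT
    have hs : ∀ y : S, y.1 ∈ N := fun y => hS ▸ Subgroup.subset_normalClosure y.2
    refine ⟨∏ y : S, m ⟨y, hs y⟩, Finset.prod_pos fun _ _ => m0 _, fun b => ?_⟩
    obtain ⟨k, hk⟩ := hπ (Multiplicative.ofAdd b)
    have h1 : N ≤ ((powMonoidHom (∏ y : S, m ⟨y, hs y⟩)).comp π').ker.map N.subtype := by
      refine hS.ge.trans ((Subgroup.closure_le _).2 fun x hx => ?_)
      obtain ⟨y, hy, h2⟩ := Group.mem_conjugatesOfSet_iff.1 hx
      obtain ⟨g, rfl⟩ := isConj_iff.1 h2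
      obtain ⟨d, hd⟩ := Finset.dvd_prod_of_mem (fun y : S => m ⟨y, hs y⟩) (Finset.mem_univ ⟨y, hy⟩)
      refine ⟨cj g⁻¹ ⟨y, hs ⟨y, hy⟩⟩, ?_, by simp [cj_coe]⟩
      change π' _ ^ _ = 1
      rw [hd, pow_mul, hm, one_pow]
    obtain ⟨k', h2, h3⟩ := h1 k.2
    obtain rfl : k' = k := Subtype.ext h3
    simpa [hk] using (h0 k' _).1 h2
  · have := Fact.mk hp
    let P := (nsmulAddMonoidHom (α := B) p).range
    let := QuotientAddGroup.zmodModule (n := p) (H := P) fun x => ⟨x, rfl⟩
    have := case_b hQ hH p ((QuotientAddGroup.mk' P).toMultiplicative.comp π)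
      ((QuotientAddGroup.mk'_surjective P).comp hπ)
    refine ⟨_, Set.finite_range fun v : B ⧸ P => v.out, fun b => ⟨_, ⟨b, rfl⟩, ?_⟩⟩
    obtain ⟨c, hc⟩ := QuotientAddGroup.eq.1 (QuotientAddGroup.out_eq' (b : B ⧸ P))
    exact ⟨c, neg_add_eq_iff_eq_add.1 hc.symm⟩

theorem cv_ext {G : Type u} [Group G] (f : G →* Q) (hf : Function.Surjective f) {l' : ℕ}
    (h' : PC l' f.ker) {l : ℕ} {Γ : Subgroup Q} (h : PC l Γ) : PC (l' + l) (Γ.comap f) := by
  induction h with
  | bot => exact h'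
  | @step l Γ' Γ t _ hs ih =>
    obtain ⟨u, rfl⟩ := hf t
    refine PC.step (t := u) ih ⟨Subgroup.comap_mono hs.le, hs.mem, fun g hg a => ?_, fun g hg => ?_⟩
    · simpa using hs.norm _ hg (f a)
    · obtain ⟨n, a, ha, e⟩ := hs.gen _ hg
      exact ⟨n, (u ^ n)⁻¹ * g, by simpa [e] using ha, by simp⟩

theorem pc_of_hall (hQ : Group.FG Q) [hs : Group.IsSolvable Q] (hH : HallP Q) :
    ∃ l, PC l (⊤ : Subgroup Q) := by
  have key : ∀ i, ∃ l, PC l (⊤ : Subgroup (Q ⧸ derivedSeries Q i)) := by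
    intro i
    induction i with
    | zero =>
      have : Subsingleton (Q ⧸ derivedSeries Q 0) := QuotientGroup.subsingleton_quotient_top
      exact ⟨0, Subsingleton.elim (⊥ : Subgroup (Q ⧸ derivedSeries Q 0)) ⊤ ▸ PC.bot⟩
    | succ i ih =>
      obtain ⟨l, hl⟩ := ih
      obtain ⟨S, hS⟩ := exists_normalClosure_eq_ker hQ _ (QuotientGroup.mk'_surjective _) hl
      rw [QuotientGroup.ker_mk'] at hS
      have le : derivedSeries Q (i + 1) ≤ derivedSeries Q i := Subgroup.commutator_le_left _ _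
      let f := QuotientGroup.map (derivedSeries Q (i + 1)) (derivedSeries Q i) (MonoidHom.id Q) le
      have hf : Function.Surjective f := fun x => by
        obtain ⟨x, rfl⟩ := QuotientGroup.mk_surjective x
        exact ⟨x, rfl⟩
      let π : derivedSeries Q i →* f.ker :=
        ((QuotientGroup.mk' _).comp (derivedSeries Q i).subtype).codRestrict _ fun x =>
          (QuotientGroup.eq_one_iff (N := derivedSeries Q i) x.1).2 x.2
      have hπ : Function.Surjective π := by
        rintro ⟨x, hx⟩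
        obtain ⟨x, rfl⟩ := QuotientGroup.mk_surjective x
        exact ⟨⟨x, (QuotientGroup.eq_one_iff (N := derivedSeries Q i) x).1 hx⟩, rfl⟩
      have hc : ∀ a b : f.ker, a * b = b * a := fun a b => by
        obtain ⟨a, rfl⟩ := hπ a
        obtain ⟨b, rfl⟩ := hπ b
        rw [← commutatorElement_eq_one_iff_mul_comm, ← map_commutatorElement]
        exact Subtype.ext ((QuotientGroup.eq_one_iff _).2
          (Subgroup.commutator_mem_commutator a.2 b.2))
      let : CommGroup f.ker := { (inferInstance : Group f.ker) with mul_comm := hc }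
      have h1 := cv_main hQ hH hS (B := Additive f.ker) π hπ
      obtain ⟨l', hl'⟩ := poly_pc_of_comm (K := f.ker) PC.bot bot_le
        (Subgroup.commutator_le.2 fun a ha b hb => Subgroup.mem_bot.2
          (commutatorElement_eq_one_iff_mul_comm.2 (congrArg Subtype.val (hc ⟨a, ha⟩ ⟨b, hb⟩))))
        ((Group.fg_iff_subgroup_fg _).1
          (GroupFG.iff_add_fg.2 (Module.Finite.iff_addGroup_fg.1 h1)))
      exact ⟨_, Subgroup.comap_top f ▸ cv_ext f hf hl' hl⟩
  obtain ⟨n, hn⟩ := hs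
  obtain ⟨l, hl⟩ := key n
  exact ⟨l, by
    simpa using hl.comap (QuotientGroup.mk' _)
      ((MonoidHom.ker_eq_bot_iff _).1 ((QuotientGroup.ker_mk' _).trans hn))⟩

end Pool.Agent.Lib.MP_36fb39_al
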