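import Pool.Agent.Lib.MP_36fb39_al.EV

set_option autoImplicit false

namespace Pool.Agent.Lib.MP_36fb39_al

theorem eigP_tracked {R : Type*} [CommRing R] {G : Type*} [Group G] {M : Type*} [AddCommGroup M]
    [Module R M] (ρ : Representation R G M) (p m : ℕ) : Tracked (latAct ρ) (EigP ρ p m) := by
  have hfx : ∀ {Z : Subgroup G} {x : Submodule R M}, Fx (latAct ρ) Z x → ∀ g ∈ Z, ∀ a ∈ x,
      ∀ n : ℕ, ρ (g ^ n) a - a ∈ x := fun {Z x} hx g hg a ha n =>
    x.sub_mem ((fx_latAct_iff ρ Z x).1 hx _ (Z.pow_mem hg n) a ha) ha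
  refine ⟨fun Z x w w' h _ hw g hg a ha => h g hg a (hw ha), ?_, ?_,
    fun Z Z' x w hZ h g hg => h g (hZ hg), ?_⟩
  · intro Z x w x' _ hw hx' hxx hi h g hg a ha n hn h1
    obtain ⟨b, hb, c, hc, rfl⟩ := Submodule.mem_sup.1 ha
    have e : ∀ j : ℕ, ρ (g ^ j) (b + c) - (b + c) = (ρ (g ^ j) b - b) + (ρ (g ^ j) c - c) := by
      intro j; rw [map_add]; abel
    rw [e] at h1 ⊢
    have h2 : ρ (g ^ n) c - c ∈ x' := (x'.add_mem_iff_right (hfx hx' g hg b hb n)).1 h1
    exact x'.add_mem (hfx hx' g hg b hb m) (hxx (h g hg c hc n hn (hi ⟨h2, hfx hw g hg c hc n⟩)))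
  · intro Z x w x' _ hw _ hxx _ hi h g hg a ha n hn h1
    exact hi ⟨h g hg a (Submodule.mem_sup_right ha) n hn (hxx h1), hfx hw g hg a ha m⟩
  · intro Z x w g hg h z hz a ha n hn h1
    rw [latAct_apply] at ha h1 ⊢
    obtain ⟨b, hb, rfl⟩ := ha
    have hz' : g⁻¹ * z * g ∈ Z := (hg _).2 (by simpa [mul_assoc] using hz)
    have e : ∀ j : ℕ, ρ (z ^ j) (ρ g b) - ρ g b = ρ g (ρ ((g⁻¹ * z * g) ^ j) b - b) := by
      intro j
      have : (g⁻¹ * z * g) ^ j = g⁻¹ * z ^ j * g := by simpa using conj_pow (a := g⁻¹) (b := z) (i := j)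
      rw [this, map_sub, ← Module.End.mul_apply, ← Module.End.mul_apply, ← map_mul, ← map_mul]
      congr 3
      group
    rw [e] at h1 ⊢
    refine Submodule.mem_map_of_mem (h _ hz' b hb n hn ?_)
    obtain ⟨c, hc, h2⟩ := h1
    have h3 := congrArg (ρ g⁻¹) h2
    rw [Representation.inv_self_apply, Representation.inv_self_apply] at h3
    rwa [← h3]

theorem finp_orb_fixed {R : Type*} [CommRing R] {G : Type*} [Group G] {M : Type*} [AddCommGroup M]
    [Module R M] (ρ : Representation R G M) (y : G) (a : M) :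
    latAct ρ y (orb ρ y a) = orb ρ y a := by
  have : Fx (latAct ρ) (Subgroup.zpowers y) (orb ρ y a) := by
    rw [fx_latAct_iff]
    rintro _ ⟨j, rfl⟩ b hb
    have : orb ρ y a ≤ (orb ρ y a).comap (ρ (y ^ j)) := by
      refine Submodule.span_le.2 ?_
      rintro _ ⟨n, rfl⟩
      refine Submodule.subset_span ⟨j + n, ?_⟩
      simp only [zpow_add, map_mul, Module.End.mul_apply]
    exact this hb
  exact this y (Subgroup.mem_zpowers y)

theorem finp_exists_fixed {k V : Type*} [CommRing k] [AddCommGroup V] [Module k V]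
    (Y : Module.End k V) : ∀ (i : ℕ) (a : V), a ≠ 0 → ((Y - 1) ^ i) a = 0 →
      ∃ v, v ≠ 0 ∧ Y v = v := by
  intro i
  induction i with
  | zero => intro a ha h; exact absurd h ha
  | succ i ih =>
    intro a ha h
    by_cases h1 : (Y - 1) a = 0
    · exact ⟨a, ha, sub_eq_zero.1 h1⟩
    · exact ih _ h1 (by rwa [pow_succ, Module.End.mul_apply] at h)

theorem finp_core {p : ℕ} [hp : Fact p.Prime] {V : Type*} [AddCommGroup V] [Module (ZMod p) V]
    [Finite V] {N : Subgroup (Module.End (ZMod p) V)ˣ} {h m : ℕ} (hN : PC h N)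
    (hnil : Group.IsNilpotent N) {y : (Module.End (ZMod p) V)ˣ} (hy : Nz y N)
    (hs : ∀ W : Submodule (ZMod p) V, (∀ g ∈ N, ∀ v ∈ W, (g : Module.End (ZMod p) V) v ∈ W) →
      (∀ v ∈ W, (y : Module.End (ZMod p) V) v ∈ W) → W ≠ ⊥ → W = ⊤)
    (hm0 : 0 < m) (hm : ∀ g ∈ N, ∀ n : ℕ, n.Coprime p → g ^ n = 1 → g ^ m = 1) {v₀ : V}
    (hv₀ : v₀ ≠ 0) (hyv : (y : Module.End (ZMod p) V) v₀ = v₀) :
    y ^ (m ^ h).factorial = 1 := by
  classical
  have : Finite (Module.End (ZMod p) V) :=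
    Finite.of_injective _ (DFunLike.coe_injective (F := Module.End (ZMod p) V))
  have : Nontrivial V := ⟨v₀, 0, hv₀⟩
  have hcard : p ∣ Nat.card V := by
    have h1 : addOrderOf v₀ = p := addOrderOf_eq_prime (by
      rw [← Nat.cast_smul_eq_nsmul (ZMod p), ZMod.natCast_self, zero_smul]) hv₀
    exact h1 ▸ addOrderOf_dvd_natCard v₀
  let S : Sylow p N := default
  have hS : ∀ g : N, (∃ j : ℕ, g ^ p ^ j = 1) → g ∈ S := by
    rintro g ⟨j, hj⟩
    have h1 : IsPGroup p (Subgroup.zpowers g) := by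
      rintro ⟨_, n, rfl⟩
      refine ⟨j, Subtype.ext ?_⟩
      show (g ^ n) ^ p ^ j = 1
      rw [← zpow_natCast, ← zpow_mul, mul_comm, zpow_mul, zpow_natCast, hj, one_zpow]
    obtain ⟨Q, hQ⟩ := h1.exists_le_sylow
    have := Sylow.unique_of_normal S inferInstance
    have h2 : Q = S := Subsingleton.elim _ _
    exact h2 ▸ hQ (Subgroup.mem_zpowers g)
  obtain ⟨b, hb, hb0⟩ := S.isPGroup'.exists_fixed_point_of_prime_dvd_card_of_fixed_point V hcard
    (a := (0 : V)) (fun g => smul_zero g)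
  let W : Submodule (ZMod p) V :=
    { carrier := {v | ∀ g ∈ N, (∃ j : ℕ, g ^ p ^ j = 1) → (g : Module.End (ZMod p) V) v = v}
      add_mem' := fun ha hb g hg hj => by rw [map_add, ha g hg hj, hb g hg hj]
      zero_mem' := fun g _ _ => map_zero _
      smul_mem' := fun c v hv g hg hj => by rw [map_smul, hv g hg hj] }
  have hWinv : ∀ c, Nz c N → ∀ v ∈ W, (c : Module.End (ZMod p) V) v ∈ W := by
    rintro c hc v hv g hg ⟨j, hj⟩
    have h1 := hv (c⁻¹ * g * c) ((hc _).2 (by simpa [mul_assoc] using hg)) ⟨j, by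
      have : (c⁻¹ * g * c) ^ p ^ j = c⁻¹ * g ^ p ^ j * c := by
        simpa using conj_pow (a := c⁻¹) (b := g) (i := p ^ j)
      rw [this, hj]; simp⟩
    have h2 : g * c = c * (c⁻¹ * g * c) := by group
    rw [← Module.End.mul_apply, ← Units.val_mul, h2, Units.val_mul, Module.End.mul_apply, h1]
  have hW : W = ⊤ := by
    refine hs W (fun g hg => hWinv g (Nz.of_mem hg)) (hWinv y hy) fun h0 => hb0 ?_
    have : b ∈ W := by
      rintro g hg ⟨j, hj⟩
      exact hb ⟨⟨g, hg⟩, hS ⟨g, hg⟩ ⟨j, Subtype.ext hj⟩⟩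
    rw [h0] at this
    exact ((Submodule.mem_bot _).1 this).symm
  have hexp : ∀ g ∈ N, g ^ m = 1 := by
    intro g hg
    refine hm g hg (orderOf g) ?_ (pow_orderOf_eq_one g)
    rw [Nat.coprime_comm, hp.out.coprime_iff_not_dvd]
    rintro ⟨c, hc⟩
    have h0 : 0 < orderOf g := orderOf_pos g
    have h1 : g ^ c = 1 := by
      ext v
      have hv : v ∈ W := hW ▸ Submodule.mem_top
      exact hv (g ^ c) (N.pow_mem hg c) ⟨1, by
        rw [pow_one, ← pow_mul, mul_comm, ← hc, pow_orderOf_eq_one]⟩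
    have h2 := hp.out.two_le
    have hc0 : 0 < c := Nat.pos_of_ne_zero (by rintro rfl; omega)
    exact pow_ne_one_of_lt_orderOf hc0.ne' (by nlinarith) h1
  obtain ⟨-, hle⟩ := hN.finite_of_exponent hm0 hexp
  let π : Equiv.Perm N :=
    { toFun := fun g => ⟨y * g * y⁻¹, (hy g).1 g.2⟩
      invFun := fun g => ⟨y⁻¹ * g * y, (hy _).2 (by simp [mul_assoc])⟩
      left_inv := fun g => Subtype.ext (by simp [mul_assoc])
      right_inv := fun g => Subtype.ext (by simp [mul_assoc]) }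
  have hπ : ∀ (n : ℕ) (g : N), ((π ^ n) g : (Module.End (ZMod p) V)ˣ) = y ^ n * g * (y ^ n)⁻¹ := by
    intro n g
    induction n with
    | zero => simp
    | succ n ih =>
      rw [pow_succ', Equiv.Perm.mul_apply]
      show y * ((π ^ n) g : (Module.End (ZMod p) V)ˣ) * y⁻¹ = _
      rw [ih]
      group
  have hπJ : π ^ (m ^ h).factorial = 1 := by
    have := Fintype.ofFinite N
    refine orderOf_dvd_iff_pow_eq_one.1 (orderOf_dvd_card.trans ?_)
    rw [Fintype.card_perm, ← Nat.card_eq_fintype_card]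
    exact Nat.factorial_dvd_factorial hle
  set z := y ^ (m ^ h).factorial with hz
  have hcomm : ∀ g ∈ N, z * g = g * z := by
    intro g hg
    have := hπ (m ^ h).factorial ⟨g, hg⟩
    rw [hπJ] at this
    exact (mul_inv_eq_iff_eq_mul.1 this.symm)
  have hinv : ∀ g : (Module.End (ZMod p) V)ˣ, z * g = g * z →
      ∀ v ∈ LinearMap.ker ((z : Module.End (ZMod p) V) - 1),
        (g : Module.End (ZMod p) V) v ∈ LinearMap.ker ((z : Module.End (ZMod p) V) - 1) := by
    intro g hg v hv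
    rw [LinearMap.mem_ker, LinearMap.sub_apply, Module.End.one_apply, sub_eq_zero] at hv ⊢
    rw [← Module.End.mul_apply, ← Units.val_mul, hg, Units.val_mul, Module.End.mul_apply, hv]
  have hK := hs (LinearMap.ker ((z : Module.End (ZMod p) V) - 1))
    (fun g hg => hinv g (hcomm g hg)) (hinv y (pow_mul_comm' y _)) (by
      intro h0
      apply hv₀
      rw [← Submodule.mem_bot (ZMod p), ← h0, LinearMap.mem_ker, LinearMap.sub_apply,
        Module.End.one_apply, sub_eq_zero, hz, Units.val_pow_eq_pow_val, Module.End.pow_apply]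
      exact Function.iterate_fixed hyv _)
  rw [LinearMap.ker_eq_top, sub_eq_zero] at hK
  exact Units.ext hK

theorem finData_zmod (p : ℕ) [Fact p.Prime] : FinData (ZMod p) := by
  intro G _ M _ _ ρ N h hN hnil U hU
  obtain ⟨m, hm0, hm⟩ := eigP_exists ρ hN.pc hnil U hU
  refine ⟨EigP ρ p m, eigP_tracked ρ p m, hm, (m ^ h).factorial, Nat.factorial_pos _, ?_⟩
  intro y a i hai N' x hN' hnil' hy hx hlt hsimple ⟨k', hk', hsk⟩ hgen
  have hs : Fx (latAct ρ) (N' ⊔ Subgroup.zpowers y) (x ⊔ span (latAct ρ) N' (orb ρ y a)) := by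
    rw [← span_sup_zpowers hy (finp_orb_fixed ρ y a)]
    exact hx.sup (fx_span _ _)
  have has : a ∈ x ⊔ span (latAct ρ) N' (orb ρ y a) :=
    Submodule.mem_sup_right (le_span (ρ := latAct ρ) N' _ (Submodule.subset_span ⟨0, by simp⟩))
  have hax : a ∉ x := by
    intro hax
    refine hlt.not_ge (sup_le le_rfl (span_le (hx.mono le_sup_left) (Submodule.span_le.2 ?_)))
    rintro _ ⟨n, rfl⟩
    exact (fx_latAct_iff ρ _ x).1 hx _
      (Subgroup.mem_sup_right (Subgroup.zpow_mem_zpowers y n)) a hax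
  generalize x ⊔ span (latAct ρ) N' (orb ρ y a) = s at hlt hsimple hsk hgen hs has
  set Γ := N' ⊔ Subgroup.zpowers y with hΓ
  rw [fx_latAct_iff] at hs
  have hx' := (fx_latAct_iff ρ _ x).1 hx
  let ρ₁ : Representation (ZMod p) Γ M := ρ.comp Γ.subtype
  let ρ₂ : Representation (ZMod p) Γ s := ρ₁.subrepresentation s fun g v hv => hs g g.2 v hv
  let σ : Representation (ZMod p) Γ (s ⧸ x.comap s.subtype) :=
    ρ₂.quotient (x.comap s.subtype) fun g v hv => hx' g g.2 v hv
  have hσ : ∀ (g : Γ) (v : s), σ g (Submodule.Quotient.mk v) =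
      Submodule.Quotient.mk ⟨ρ g v, hs g g.2 v v.2⟩ := fun _ _ => rfl
  have hσ1 : ∀ g : Γ, σ.asGroupHom g = 1 ↔ ∀ v ∈ s, ρ g v - v ∈ x := by
    intro g
    rw [← Units.val_eq_one, Representation.asGroupHom_apply]
    constructor
    · intro h1 v hv
      have := LinearMap.congr_fun h1 (Submodule.Quotient.mk ⟨v, hv⟩)
      rw [hσ, Module.End.one_apply, Submodule.Quotient.eq] at this
      exact this
    · intro h1
      refine LinearMap.ext fun v => ?_
      obtain ⟨v, rfl⟩ := Submodule.Quotient.mk_surjective _ v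
      rw [hσ, Module.End.one_apply, Submodule.Quotient.eq]
      exact h1 v v.2
  have : Module.Finite (ZMod p) (s ⧸ x.comap s.subtype) := by
    have : Module.Finite (ZMod p) k' :=
      Module.Finite.iff_fg.2 ((Submodule.fg_iff_compact k').2 hk')
    have hk's : k' ≤ s := hsk ▸ le_sup_right
    refine Module.Finite.of_surjective
      ((x.comap s.subtype).mkQ ∘ₗ Submodule.inclusion hk's) fun v => ?_
    obtain ⟨⟨v, hv⟩, rfl⟩ := Submodule.Quotient.mk_surjective _ v
    obtain ⟨b, hb, c, hc, hbc⟩ := Submodule.mem_sup.1 (hsk ▸ hv : v ∈ x ⊔ k')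
    refine ⟨⟨c, hc⟩, (Submodule.Quotient.eq _).2 ?_⟩
    show c - v ∈ x
    rw [← hbc]
    simpa using hb
  have : Finite (s ⧸ x.comap s.subtype) := Module.finite_of_finite (ZMod p)
  have hyΓ : y ∈ Γ := Subgroup.mem_sup_right (Subgroup.mem_zpowers y)
  have hNΓ : N' ≤ Γ := le_sup_left
  obtain ⟨v₀, hv₀, hyv⟩ := finp_exists_fixed (σ ⟨y, hyΓ⟩) i (Submodule.Quotient.mk ⟨a, has⟩)
    (fun h0 => hax ((Submodule.Quotient.mk_eq_zero (x.comap s.subtype)).1 h0)) (by
      have key : ∀ (j : ℕ) (v : s), ∃ hv, ((σ ⟨y, hyΓ⟩ - 1) ^ j) (Submodule.Quotient.mk v) =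
          Submodule.Quotient.mk ⟨((ρ y - 1) ^ j) v, hv⟩ := by
        intro j
        induction j with
        | zero => exact fun v => ⟨v.2, rfl⟩
        | succ j ih =>
          intro v
          obtain ⟨hv, h1⟩ := ih ⟨ρ y v - v, s.sub_mem (hs y hyΓ v v.2) v.2⟩
          refine ⟨hv, ?_⟩
          rw [pow_succ, Module.End.mul_apply]
          exact h1
      obtain ⟨hv, h1⟩ := key i ⟨a, has⟩
      rw [h1, Submodule.Quotient.mk_eq_zero]
      show ((ρ y - 1) ^ i) a ∈ x
      rw [hai]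
      exact x.zero_mem)
  have hcore := finp_core (N := (N'.subgroupOf Γ).map σ.asGroupHom) (h := h) (m := m)
    ((hN'.pc.comap Γ.subtype Γ.subtype_injective).map _) (by
      have := hnil'
      have := Group.nilpotent_of_mulEquiv (Subgroup.subgroupOfEquivOfLe hNΓ).symm
      exact Group.nilpotent_of_surjective _ (σ.asGroupHom.subgroupMap_surjective _))
    (y := σ.asGroupHom ⟨y, hyΓ⟩) (by
      refine Nz.of_forall ?_ ?_
      · rintro _ ⟨g, hg, rfl⟩
        exact ⟨⟨y, hyΓ⟩ * g * ⟨y, hyΓ⟩⁻¹, (hy g).1 hg, by simp⟩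
      · rintro _ ⟨g, hg, rfl⟩
        refine ⟨⟨y, hyΓ⟩⁻¹ * g * ⟨y, hyΓ⟩, (hy _).2 ?_, by simp⟩
        simpa [mul_assoc] using Subgroup.mem_subgroupOf.1 hg)
    (by
      intro W h1 h2 h3
      have hw : Fx (latAct ρ) Γ ((W.comap (x.comap s.subtype).mkQ).map s.subtype) := by
        rw [hΓ, fx_sup_zpowers]
        constructor
        · rw [fx_latAct_iff]
          rintro g hg _ ⟨v, hv, rfl⟩
          exact ⟨⟨ρ g v, hs g (hNΓ hg) v v.2⟩, h1 _ ⟨⟨g, hNΓ hg⟩, hg, rfl⟩ _ hv, rfl⟩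
        · have h4 : W.map (σ ⟨y, hyΓ⟩) = W := by
            refine Submodule.eq_of_le_of_finrank_eq (Submodule.map_le_iff_le_comap.2 h2) ?_
            exact LinearEquiv.finrank_map_eq
              (LinearEquiv.ofBijective (σ ⟨y, hyΓ⟩) (σ.apply_bijective _)) W
          rw [latAct_apply]
          apply le_antisymm
          · rintro _ ⟨_, ⟨v, hv, rfl⟩, rfl⟩
            exact ⟨⟨ρ y v, hs y hyΓ v v.2⟩, h2 _ hv, rfl⟩
          · rintro _ ⟨v, hv, rfl⟩
            have hv' : (Submodule.Quotient.mk v : s ⧸ x.comap s.subtype) ∈ W.map (σ ⟨y, hyΓ⟩) :=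
              h4.symm ▸ hv
            obtain ⟨u, hu, huv⟩ := hv'
            refine ⟨ρ y⁻¹ v, ⟨⟨ρ y⁻¹ v, hs _ (Γ.inv_mem hyΓ) v v.2⟩, ?_, rfl⟩,
              Representation.self_inv_apply _ _ _⟩
            have : σ ⟨y, hyΓ⟩⁻¹ (Submodule.Quotient.mk v) = u := by
              rw [← huv, Representation.inv_self_apply]
            show σ ⟨y, hyΓ⟩⁻¹ (Submodule.Quotient.mk v) ∈ W
            rwa [this]
      have hxw : x < (W.comap (x.comap s.subtype).mkQ).map s.subtype := by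
        refine lt_of_le_of_ne (fun v hv => ⟨⟨v, hlt.le hv⟩, ?_, rfl⟩) fun h4 => h3 ?_
        · show Submodule.Quotient.mk _ ∈ W
          rw [(Submodule.Quotient.mk_eq_zero (x.comap s.subtype)).2 (show (⟨v, hlt.le hv⟩ : s) ∈ _ from hv)]
          exact W.zero_mem
        · rw [eq_bot_iff]
          intro u hu
          obtain ⟨u, rfl⟩ := Submodule.Quotient.mk_surjective _ u
          rw [Submodule.mem_bot, Submodule.Quotient.mk_eq_zero]
          show (u : M) ∈ x
          rw [h4]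
          exact ⟨u, hu, rfl⟩
      have h5 := hsimple _ hw hxw (Submodule.map_subtype_le _ _)
      rw [eq_top_iff]
      intro u _
      obtain ⟨u, rfl⟩ := Submodule.Quotient.mk_surjective _ u
      obtain ⟨v, hv, hvu⟩ : (u : M) ∈ (W.comap (x.comap s.subtype).mkQ).map s.subtype :=
        h5.symm ▸ u.2
      rwa [← Subtype.ext hvu])
    hm0 (by
      rintro _ ⟨g, hg, rfl⟩ n hn h1
      rw [← map_pow, hσ1] at h1 ⊢
      have h2 : s ≤ x.comap (ρ ((g : G) ^ m) - 1) := by
        refine hgen.trans (sup_le (fun v hv => ?_) (sSup_le ?_))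
        · exact x.sub_mem (hx' _ (Γ.pow_mem g.2 m) v hv) hv
        · rintro q ⟨q1, q2⟩ v hv
          exact q2 g hg v hv n hn (h1 v (q1.hi hv))
      exact fun v hv => h2 hv)
    hv₀ hyv
  rw [← map_pow, hσ1] at hcore
  exact (Submodule.span_singleton_le_iff_mem _ _).2 (hcore a has)

end Pool.Agent.Lib.MP_36fb39_al
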