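import Pool.Agent.Lib.MP_36fb39_al.Hall

set_option autoImplicit false

namespace Pool.Agent.Lib.MP_36fb39_al

open scoped TensorProduct

section Gen
variable {R : Type*} [CommRing R] {G : Type*} [Group G] {M : Type*} [AddCommGroup M] [Module R M]

/-- the span of the orbit of a set. -/
theorem ztofield_span_le_iff (ρ : Representation R G M) (s : Set M) (U : Submodule R M) :
    span (latAct ρ) ⊤ (Submodule.span R s) ≤ U ↔ ∀ g, ∀ a ∈ s, ρ g a ∈ U := by
  rw [tr_le_iff]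
  simp only [latAct_apply, Submodule.map_le_iff_le_comap, Submodule.span_le]
  exact ⟨fun h g a ha => h g (Subgroup.mem_top g) ha, fun h g _ a ha => h g a ha⟩

theorem ztofield_fgRep_iff (ρ : Representation R G M) :
    FGRep ρ ↔ ∃ s : Finset M, ∀ U : Submodule R M, (∀ g, ∀ a ∈ s, ρ g a ∈ U) → U = ⊤ := by
  constructor
  · rintro ⟨k, ⟨s, rfl⟩, h⟩
    exact ⟨s, fun U hU => top_unique (h ▸ (ztofield_span_le_iff ρ s U).2 hU)⟩
  · rintro ⟨s, h⟩
    exact ⟨Submodule.span R s, ⟨s, rfl⟩, h _ ((ztofield_span_le_iff ρ s _).1 le_rfl)⟩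

theorem ztofield_pow_map {R' : Type*} [CommRing R'] {M' : Type*} [AddCommGroup M'] [Module R' M']
    (Y : Module.End R M) (Y' : Module.End R' M') (φ : M →+ M') (h : ∀ a, φ (Y a) = Y' (φ a))
    (i : ℕ) (a : M) : φ (((Y - 1) ^ i) a) = ((Y' - 1) ^ i) (φ a) := by
  induction i with
  | zero => simp
  | succ i ih => simp [pow_succ', map_sub, h, ih]

theorem ztofield_sub_fg [IsNoetherianRing R] {l : ℕ} (h : PC l (⊤ : Subgroup G))
    {ρ : Representation R G M} (hρ : FGRep ρ) (V : Submodule R M)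
    (hV : ∀ g, V ≤ V.comap (ρ g)) : FGRep (ρ.subrepresentation V hV) := by
  classical
  obtain ⟨k, ⟨s, rfl⟩, hk⟩ := hρ.sub_fg h V ((fx_latAct_iff ρ ⊤ V).2 fun g _ a ha => hV g ha)
  have hs : ∀ a ∈ s, a ∈ V := fun a ha => by
    simpa using (ztofield_span_le_iff ρ s V).1 hk.le 1 a ha
  rw [ztofield_fgRep_iff]
  refine ⟨s.attach.image fun a => ⟨a.1, hs a.1 a.2⟩, fun U hU => ?_⟩
  have h1 : V ≤ U.map V.subtype := by
    refine hk.symm.le.trans ((ztofield_span_le_iff ρ s _).2 fun g a ha => ?_)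
    exact ⟨_, hU g ⟨a, hs a ha⟩ (Finset.mem_image.2 ⟨⟨a, ha⟩, Finset.mem_attach _ _, rfl⟩), rfl⟩
  refine top_unique fun x _ => ?_
  obtain ⟨y, hy, hxy⟩ := h1 x.2
  rwa [← Subtype.ext hxy]

end Gen

section Int
variable {G : Type*} [Group G] {M : Type*} [AddCommGroup M] {inst : Module ℤ M}

theorem ztofield_fg_map {R' : Type*} [CommRing R'] {M' : Type*} [AddCommGroup M'] [Module R' M']
    {ρ : Representation ℤ G M} (hρ : FGRep ρ) (ρ' : Representation R' G M') (φ : M →+ M')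
    (h : ∀ g a, φ (ρ g a) = ρ' g (φ a)) (hs : Submodule.span R' (Set.range φ) = ⊤) :
    FGRep ρ' := by
  classical
  obtain rfl : inst = AddCommGroup.toIntModule M := Subsingleton.elim _ _
  rw [ztofield_fgRep_iff] at hρ ⊢
  obtain ⟨s, hρ⟩ := hρ
  refine ⟨s.image φ, fun U hU => top_unique (hs ▸ Submodule.span_le.2 ?_)⟩
  have := hρ (AddSubgroup.toIntSubmodule (U.toAddSubgroup.comap φ)) fun g a ha => by
    change φ (ρ g a) ∈ U
    rw [h]
    exact hU g _ (Finset.mem_image_of_mem φ ha)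
  rintro _ ⟨a, rfl⟩
  have h2 : a ∈ AddSubgroup.toIntSubmodule (U.toAddSubgroup.comap φ) := this ▸ Submodule.mem_top
  exact h2

end Int

theorem ztofield_transfer {R' : Type} [CommRing R'] (hFT : FT R') {Q : Type} [Group Q] {l : ℕ}
    (hQ : PC l (⊤ : Subgroup Q)) {M : Type} [AddCommGroup M] {inst : Module ℤ M}
    {ρ : Representation ℤ Q M} (hρ : FGRep ρ) {M' : Type} [AddCommGroup M'] [Module R' M']
    (ρ' : Representation R' Q M') (φ : M →+ M') (h : ∀ g a, φ (ρ g a) = ρ' g (φ a))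
    (hs : Submodule.span R' (Set.range φ) = ⊤) (hi : Function.Injective φ) (y : Q) :
    UnipBdd (ρ y) := by
  obtain ⟨n, hn⟩ := hFT Q l hQ M' ρ' (ztofield_fg_map hρ ρ' φ h hs) y
  refine ⟨n, fun a i ha => hi ?_⟩
  rw [ztofield_pow_map (ρ y) (ρ' y) φ (h y), map_zero]
  refine hn _ i ?_
  rw [← ztofield_pow_map (ρ y) (ρ' y) φ (h y), ha, map_zero]

theorem ztofield_tors {p : ℕ} [Fact p.Prime] (hFT : FT (ZMod p)) {Q : Type} [Group Q] {l : ℕ}
    (hQ : PC l (⊤ : Subgroup Q)) {M : Type} [AddCommGroup M] {inst : Module ℤ M}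
    {ρ : Representation ℤ Q M} (hρ : FGRep ρ) (hp : ∀ a : M, p • a = 0) (y : Q) :
    UnipBdd (ρ y) := by
  obtain ⟨inst'⟩ : Nonempty (Module (ZMod p) M) := ⟨AddCommGroup.zmodModule hp⟩
  let ρ' : Q →* Module.End (ZMod p) M :=
    { toFun := fun g => ((ρ g).toAddMonoidHom.toZModLinearMap p : Module.End (ZMod p) M)
      map_one' := by ext; simp
      map_mul' := fun _ _ => by ext; simp }
  exact ztofield_transfer hFT hQ hρ ρ' (AddMonoidHom.id M) (fun _ _ => rfl) (by simp)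
    Function.injective_id y

theorem ztofield_free (hFT : FT ℂ) {Q : Type} [Group Q] {l : ℕ}
    (hQ : PC l (⊤ : Subgroup Q)) {M : Type} [AddCommGroup M] {inst : Module ℤ M}
    {ρ : Representation ℤ Q M} (hρ : FGRep ρ)
    (hp : ∀ p : ℕ, p.Prime → ∀ a : M, p • a = 0 → a = 0) (y : Q) : UnipBdd (ρ y) := by
  obtain rfl : inst = AddCommGroup.toIntModule M := Subsingleton.elim _ _
  have h1 : ∀ n : ℕ, n ≠ 0 → ∀ a : M, n • a = 0 → a = 0 := by
    intro n
    induction n using Nat.recOnMul with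
    | zero => simp
    | one => simp
    | prime p hp' => exact fun _ => hp p hp'
    | mul a b iha ihb =>
      intro hab m hm
      rw [mul_smul] at hm
      exact ihb (right_ne_zero_of_mul hab) m (iha (left_ne_zero_of_mul hab) _ hm)
  haveI : Module.IsTorsionFree ℤ M := Module.IsTorsionFree.of_smul_eq_zero fun r m h => by
    by_cases hr : r = 0
    · exact Or.inl hr
    · refine Or.inr (h1 r.natAbs (Int.natAbs_ne_zero.2 hr) m ?_)
      rcases Int.natAbs_eq r with h2 | h2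
      · rw [← natCast_zsmul, ← h2, h]
      · rw [← natCast_zsmul, ← neg_eq_zero, ← neg_zsmul, ← h2, h]
  let ρ' : Representation ℂ Q (ℂ ⊗[ℤ] M) :=
    { toFun := fun g => (ρ g).baseChange ℂ
      map_one' := by simp [Module.End.one_eq_id]
      map_mul' := fun _ _ => by simp [Module.End.mul_eq_comp, LinearMap.baseChange_comp] }
  refine ztofield_transfer hFT hQ hρ ρ' (TensorProduct.mk ℤ ℂ M 1).toAddMonoidHom
    (fun _ _ => by simp [ρ']) ?_ (Module.Flat.tensorProduct_mk_injective ℤ M ℂ) y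
  refine top_unique fun x hx => ?_
  clear hx
  induction x using TensorProduct.induction_on with
  | zero => exact Submodule.zero_mem _
  | tmul c m =>
    have : c ⊗ₜ[ℤ] m = c • ((1 : ℂ) ⊗ₜ[ℤ] m) := by simp [TensorProduct.smul_tmul']
    rw [this]
    exact Submodule.smul_mem _ _ (Submodule.subset_span ⟨m, rfl⟩)
  | add x y hx hy => exact Submodule.add_mem _ hx hy

theorem ztofield_ind {R : Type} [CommRing R] [IsNoetherianRing R] {Q : Type} [Group Q] {l : ℕ}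
    (hQ : PC l (⊤ : Subgroup Q)) (y : Q)
    (H : ∀ (M : Type) [AddCommGroup M] [Module R M] (ρ : Representation R Q M), FGRep ρ →
      UnipBdd (ρ y) ∨ ∃ (V : Submodule R M) (hV : ∀ g, V ≤ V.comap (ρ g)), V ≠ ⊥ ∧
        UnipBdd (ρ.subrepresentation V hV y))
    (M : Type) [AddCommGroup M] [Module R M] (ρ : Representation R Q M) (hρ : FGRep ρ) :
    UnipBdd (ρ y) := by
  classical
  by_contra hcon
  let S : Set (Submodule R M) := {x | Fx (latAct ρ) ⊤ x ∧
    ¬ ∃ n : ℕ, ∀ (a : M) (i : ℕ), ((ρ y - 1) ^ i) a ∈ x → ((ρ y - 1) ^ n) a ∈ x}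
  obtain ⟨x, ⟨hx, hxn⟩, hmax⟩ := hρ.acc hQ S ⟨⊥, Fx.bot, by simpa [UnipBdd] using hcon⟩
    (fun U hU => hU.1)
  have hx' : ∀ g, x ≤ x.comap (ρ g) := fun g a ha =>
    (fx_latAct_iff ρ ⊤ x).1 hx g (Subgroup.mem_top g) a ha
  let σ := ρ.quotient x hx'
  have hq : ∀ g a, x.mkQ.toAddMonoidHom (ρ g a) = σ g (x.mkQ.toAddMonoidHom a) := fun _ _ => rfl
  have hσ : FGRep σ := by
    rw [ztofield_fgRep_iff] at hρ ⊢
    obtain ⟨s, hs⟩ := hρ
    refine ⟨s.image x.mkQ, fun U hU => top_unique fun a _ => ?_⟩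
    obtain ⟨b, rfl⟩ := x.mkQ_surjective a
    have := hs (U.comap x.mkQ) fun g a ha => hU g _ (Finset.mem_image_of_mem _ ha)
    exact (this ▸ Submodule.mem_top : b ∈ U.comap x.mkQ)
  have hpow : ∀ (i : ℕ) a, x.mkQ (((ρ y - 1) ^ i) a) = ((σ y - 1) ^ i) (x.mkQ a) :=
    ztofield_pow_map (ρ y) (σ y) x.mkQ.toAddMonoidHom (hq y)
  have hzero : ∀ a, x.mkQ a = 0 ↔ a ∈ x := fun a => Submodule.Quotient.mk_eq_zero x
  apply hxn
  suffices h : UnipBdd (σ y) by
    obtain ⟨n, hn⟩ := h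
    refine ⟨n, fun a i ha => ?_⟩
    rw [← hzero, hpow] at ha ⊢
    exact hn _ i ha
  rcases H _ σ hσ with h | ⟨V, hV, hne, n₁, hn₁⟩
  · exact h
  have hsub : ∀ (i : ℕ) (a : V), ((((σ.subrepresentation V hV) y - 1) ^ i) a : M ⧸ x) =
      ((σ y - 1) ^ i) a :=
    ztofield_pow_map _ (σ y) V.subtype.toAddMonoidHom (fun _ => rfl)
  have hx2 : Fx (latAct ρ) ⊤ (V.comap x.mkQ) :=
    (fx_latAct_iff ρ ⊤ _).2 fun g _ a ha => hV g ha
  obtain ⟨n₂, hn₂⟩ : ∃ n : ℕ, ∀ (a : M) (i : ℕ), ((ρ y - 1) ^ i) a ∈ V.comap x.mkQ →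
      ((ρ y - 1) ^ n) a ∈ V.comap x.mkQ := by
    by_contra hc
    have h1 := hmax _ ⟨hx2, hc⟩ (fun a ha => by
      rw [Submodule.mem_comap, (hzero a).2 ha]; exact V.zero_mem)
    refine hne ((Submodule.eq_bot_iff V).2 fun a ha => ?_)
    obtain ⟨b, rfl⟩ := x.mkQ_surjective a
    exact (hzero b).2 (h1 ▸ (ha : b ∈ V.comap x.mkQ))
  refine ⟨n₁ + n₂, fun a i ha => ?_⟩
  obtain ⟨b, rfl⟩ := x.mkQ_surjective a
  have h1 : ((σ y - 1) ^ n₂) (x.mkQ b) ∈ V := by
    rw [← hpow]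
    refine hn₂ b i ?_
    rw [Submodule.mem_comap, hpow, ha]
    exact V.zero_mem
  have h2 := hn₁ ⟨_, h1⟩ i (Subtype.ext (by
    rw [hsub]
    change ((σ y - 1) ^ i) (((σ y - 1) ^ n₂) (x.mkQ b)) = 0
    rw [← Module.End.mul_apply, ← pow_add, add_comm, pow_add, Module.End.mul_apply, ha, map_zero]))
  rw [pow_add, Module.End.mul_apply]
  exact (hsub n₁ ⟨_, h1⟩).symm.trans (congrArg Subtype.val h2)

theorem ft_int (h₀ : FT ℂ) (hp : ∀ (p : ℕ) [Fact p.Prime], FT (ZMod p)) : FT ℤ := by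
  intro Q _ l hQ M _ _ ρ hρ y
  refine ztofield_ind hQ y ?_ M ρ hρ
  intro M _ inst ρ hρ
  obtain rfl : inst = AddCommGroup.toIntModule M := Subsingleton.elim _ _
  by_cases htf : ∀ p : ℕ, p.Prime → ∀ a : M, p • a = 0 → a = 0
  · exact Or.inl (ztofield_free h₀ hQ hρ htf y)
  push Not at htf
  obtain ⟨p, hpp, a₀, ha₀, hne⟩ := htf
  haveI : Fact p.Prime := ⟨hpp⟩
  let V : Submodule ℤ M :=
    { carrier := {a | p • a = 0}
      add_mem' := fun {a b} (ha : p • a = 0) (hb : p • b = 0) => by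
        change p • (a + b) = 0
        rw [nsmul_add, ha, hb, add_zero]
      zero_mem' := nsmul_zero p
      smul_mem' := fun c a (ha : p • a = 0) => by
        change p • (c • a) = 0
        rw [smul_comm, ha, smul_zero] }
  have hV : ∀ g, V ≤ V.comap (ρ g) := fun g a (ha : p • a = 0) => by
    change p • ρ g a = 0
    rw [← map_nsmul, ha, map_zero]
  refine Or.inr ⟨V, hV, fun h => hne ((Submodule.eq_bot_iff V).1 h a₀ ha₀), ?_⟩
  exact ztofield_tors (hp p) hQ (ztofield_sub_fg hQ hρ V hV) (fun a => Subtype.ext a.2) y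

end Pool.Agent.Lib.MP_36fb39_al
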