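import Pool.Agent.Lib.MP_36fb39_al.FieldTop
import Pool.Agent.Lib.MP_36fb39_al.FinP
import Pool.Agent.Lib.MP_36fb39_al.ZtoField
import Pool.Agent.Lib.MP_36fb39_al.CvB

/-! Series with cyclic factors, and the theorem for polycyclic quotients in every universe. -/

set_option autoImplicit false

namespace Pool.Agent.Lib.MP_36fb39_al

universe u

theorem series_of_pc {Q : Type u} [Group Q] {l : ℕ} {Γ : Subgroup Q} (h : PC l Γ) :
    ∃ S : ℕ → Subgroup Q, S 0 = ⊥ ∧ S l = Γ ∧ ∀ i < l, S i ≤ S (i + 1) ∧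
      ∃ _ : ((S i).subgroupOf (S (i + 1))).Normal,
        IsCyclic (S (i + 1) ⧸ (S i).subgroupOf (S (i + 1))) := by
  induction h with
  | bot => exact ⟨fun _ => ⊥, rfl, rfl, fun i hi => absurd hi (Nat.not_lt_zero i)⟩
  | @step l Γ' Γ t _ hs ih =>
    obtain ⟨S, h0, rfl, hS⟩ := ih
    refine ⟨Function.update S (l + 1) Γ, by simpa using h0, by simp, fun i hi => ?_⟩
    rw [Function.update_of_ne (by omega : i ≠ l + 1)]
    rcases (Nat.lt_succ_iff.1 hi).eq_or_lt with rfl | hi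
    · rw [Function.update_self]
      have := poly_normal hs.norm
      exact ⟨hs.le, this, _, poly_quot_gen hs⟩
    · rw [Function.update_of_ne (by omega : i + 1 ≠ l + 1)]
      exact hS i hi

theorem pc_of_series {Q : Type u} [Group Q]
    (h : ∃ (l : ℕ) (S : ℕ → Subgroup Q), S 0 = ⊥ ∧ S l = ⊤ ∧ ∀ i < l, S i ≤ S (i + 1) ∧
    ∃ _ : ((S i).subgroupOf (S (i + 1))).Normal,
      IsCyclic (S (i + 1) ⧸ (S i).subgroupOf (S (i + 1)))) :
    ∃ l : ℕ, PC l (⊤ : Subgroup Q) := by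
  obtain ⟨l, S, h0, hl, hS⟩ := h
  refine ⟨l, ?_⟩
  have key : ∀ i ≤ l, PC i (S i) := by
    intro i
    induction i with
    | zero =>
      intro _
      rw [h0]
      exact PC.bot
    | succ i ih =>
      intro hi
      obtain ⟨hle, hn, ⟨g, hg⟩⟩ := hS i (by omega)
      obtain ⟨t, rfl⟩ := QuotientGroup.mk_surjective g
      have hconj : ∀ x ∈ S (i + 1), ∀ a ∈ S i, x * a * x⁻¹ ∈ S i := by
        intro x hx a ha
        exact hn.conj_mem ⟨a, hle ha⟩ ha ⟨x, hx⟩
      refine PC.step (t := t.1) (ih (by omega)) ⟨hle, t.2, fun x hx => ?_, fun x hx => ?_⟩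
      · refine Nz.of_forall (hconj x hx) fun a ha => ?_
        simpa using hconj x⁻¹ ((S (i + 1)).inv_mem hx) a ha
      · obtain ⟨n, hn'⟩ := hg (QuotientGroup.mk ⟨x, hx⟩)
        have h1 : (QuotientGroup.mk (t ^ n) : S (i + 1) ⧸ (S i).subgroupOf (S (i + 1))) =
            QuotientGroup.mk ⟨x, hx⟩ := by
          rw [QuotientGroup.mk_zpow]
          exact hn'
        have h2 := QuotientGroup.eq.1 h1
        exact ⟨n, (t.1 ^ n)⁻¹ * x, h2, by simp⟩
  rw [← hl]
  exact key l le_rfl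

theorem cv_small (G : Type) [Group G] (hG : Group.FG G) (A : Subgroup G) [A.Normal]
    (hA : ∀ x ∈ A, ∀ y ∈ A, x * y = y * x) {l : ℕ} (hQ : PC l (⊤ : Subgroup (G ⧸ A)))
    (H : Subgroup G) :
    ∃ n : ℕ, Subgroup.upperCentralSeries H n = Subgroup.upperCentralSeries H (n + 1) := by
  have hs0 := hQ.isSolvable
  have hs : Group.IsSolvable (G ⧸ A) :=
    Group.isSolvable_of_surjective (f := (⊤ : Subgroup (G ⧸ A)).subtype)
      fun x => ⟨⟨x, trivial⟩, rfl⟩
  refine hall_of_ft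
    (ft_int (ft_of_finData ℂ finData_complex)
      (fun p _ => ft_of_finData (ZMod p) (finData_zmod p)))
    G hG (G ⧸ A) (QuotientGroup.mk' A) (QuotientGroup.mk'_surjective A) hs
    (fun K => (hQ.sub le_top).fg) ?_ H
  rw [QuotientGroup.ker_mk']
  exact hA

theorem cv_stable {H : Type u} [Group H] {n : ℕ}
    (h : Subgroup.upperCentralSeries H n = Subgroup.upperCentralSeries H (n + 1)) :
    ∀ m, n ≤ m → Subgroup.upperCentralSeries H m = Subgroup.upperCentralSeries H n := by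
  intro m hm
  induction m, hm using Nat.le_induction with
  | base => rfl
  | succ m _ ih =>
    rw [h]
    ext x
    rw [Subgroup.mem_upperCentralSeries_succ_iff, Subgroup.mem_upperCentralSeries_succ_iff, ih]

theorem hall_pc {G : Type u} [Group G] (hG : Group.FG G) (A : Subgroup G) [A.Normal]
    (hA : ∀ x ∈ A, ∀ y ∈ A, x * y = y * x) {l : ℕ} (hl : PC l (⊤ : Subgroup (G ⧸ A)))
    (H : Subgroup G) :
    ∃ n : ℕ, ∀ m : ℕ, n ≤ m →
      Subgroup.upperCentralSeries H m = Subgroup.upperCentralSeries H n := by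
  obtain ⟨α, _, φ, hφ⟩ := Group.fg_iff_exists_freeGroup_hom_surjective_finite.1 hG
  let e : (FreeGroup α ⧸ φ.ker) ≃* G := QuotientGroup.quotientKerEquivOfSurjective φ hφ
  have hG' : Group.FG (FreeGroup α ⧸ φ.ker) :=
    Group.fg_of_surjective (QuotientGroup.mk'_surjective φ.ker)
  let A' : Subgroup (FreeGroup α ⧸ φ.ker) := A.comap e.toMonoidHom
  have hA' : ∀ x ∈ A', ∀ y ∈ A', x * y = y * x := fun x hx y hy =>
    e.injective (by rw [map_mul, map_mul]; exact hA _ hx _ hy)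
  let ψ : ((FreeGroup α ⧸ φ.ker) ⧸ A') →* G ⧸ A := QuotientGroup.map A' A e.toMonoidHom le_rfl
  have hψ : Function.Injective ψ := by
    rw [injective_iff_map_eq_one]
    intro x hx
    obtain ⟨y, rfl⟩ := QuotientGroup.mk_surjective x
    rw [QuotientGroup.eq_one_iff]
    have h1 : (QuotientGroup.mk (e y) : G ⧸ A) = 1 := hx
    exact (QuotientGroup.eq_one_iff (e y)).1 h1
  have hl' : PC l (⊤ : Subgroup ((FreeGroup α ⧸ φ.ker) ⧸ A')) := by
    simpa using hl.comap ψ hψ
  obtain ⟨n, hn⟩ := cv_small _ hG' A' hA' hl' (H.map e.symm.toMonoidHom)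
  refine ⟨n, cv_stable ?_⟩
  let e' : H ≃* H.map e.symm.toMonoidHom := e.symm.subgroupMap H
  rw [← Subgroup.comap_upperCentralSeries e' n, ← Subgroup.comap_upperCentralSeries e' (n + 1), hn]

end Pool.Agent.Lib.MP_36fb39_al
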