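import Mathlib

/-! Abelian-by-`Q` groups inside a wreath product, with a subgroup of infinite central height. -/

set_option autoImplicit false

namespace Pool.Agent.Lib.MP_36fb39_al

open RegularWreathProduct
open scoped commutatorElement

universe u

/-- Every subgroup of a finitely generated abelian-by-`Q` group has finite central height. -/
def HallP (Q : Type u) [Group Q] : Prop :=
  ∀ (G : Type u) [Group G], Group.FG G → ∀ f : G →* Q, Function.Surjective f →
    (∀ x ∈ f.ker, ∀ y ∈ f.ker, x * y = y * x) → ∀ H : Subgroup G,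
      ∃ n : ℕ, Subgroup.upperCentralSeries H n = Subgroup.upperCentralSeries H (n + 1)

variable {Q R : Type u} [Group Q] [CommRing R] {N : Subgroup Q} [N.Normal]

/-- Conjugation by the inverse of `g`. -/
def cj (g : Q) (k : N) : N := MulAut.conjNormal g⁻¹ k

theorem cj_coe (g : Q) (k : N) : (cj g k : Q) = g⁻¹ * k * g := by simp [cj]

theorem cj_one (k : N) : cj 1 k = k := Subtype.ext (by simp [cj_coe])

open Classical in
/-- Extension by zero. -/
noncomputable def ez (χ : N →* R) (z : Q) : R := if h : z ∈ N then χ ⟨z, h⟩ else 0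

/-- The element of the base group that is supported on the coset of `g`. -/
noncomputable def bs (χ : N →* R) (g : Q) (r : R) : Multiplicative R ≀ᵣ Q :=
  ⟨fun x => Multiplicative.ofAdd (r * ez χ (x⁻¹ * g)), 1⟩

variable (χ : N →* R)

omit [N.Normal] in
theorem ez_mul (z : Q) (k : N) : ez χ (z * k) = ez χ z * χ k := by
  by_cases h : z ∈ N
  · rw [ez, ez, dif_pos h, dif_pos (N.mul_mem h k.2), ← map_mul]
    rfl
  · rw [ez, ez, dif_neg h, dif_neg fun c => h ((N.mul_mem_cancel_right k.2).1 c), zero_mul]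

omit [N.Normal] in
theorem bs_add (g : Q) (r s : R) : bs χ g (r + s) = bs χ g r * bs χ g s := by
  refine RegularWreathProduct.ext (funext fun x => ?_) (by simp [bs])
  simp [bs, add_mul]

omit [N.Normal] in
theorem bs_zero (g : Q) : bs χ g 0 = 1 := by
  simpa using bs_add χ g 0 0

omit [N.Normal] in
theorem bs_neg (g : Q) (r : R) : bs χ g (-r) = (bs χ g r)⁻¹ :=
  eq_inv_of_mul_eq_one_left (by rw [← bs_add, neg_add_cancel, bs_zero])

omit [N.Normal] in
theorem bs_eq_one {g : Q} {r : R} (h : bs χ g r = 1) : r = 0 := by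
  have h1 := congrFun (congrArg RegularWreathProduct.left h) g
  have h2 : ez χ 1 = 1 := by
    rw [ez, dif_pos N.one_mem]
    exact map_one χ
  simpa [bs, h2] using h1

omit [N.Normal] in
theorem bs_conj (y : Multiplicative R ≀ᵣ Q) (g : Q) (r : R) :
    y * bs χ g r * y⁻¹ = bs χ (y.right * g) r := by
  refine RegularWreathProduct.ext (funext fun x => ?_) (by simp [bs])
  simp [bs, mul_assoc]

theorem bs_mul (k : N) (g : Q) (r : R) : bs χ (k * g) r = bs χ g (r * χ (cj g k)) := by
  refine RegularWreathProduct.ext (funext fun x => ?_) rfl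
  have e : x⁻¹ * (k * g) = x⁻¹ * g * cj g k := by simp [cj_coe, mul_assoc]
  simp only [bs, e, ez_mul]
  congr 1
  ring

theorem bs_comm {y : Multiplicative R ≀ᵣ Q} {k : N} (hy : y.right = k) (g : Q) (r : R) :
    ⁅bs χ g r, y⁆ = bs χ g (-((χ (cj g k) - 1) * r)) := by
  have e : ⁅bs χ g r, y⁆ = bs χ g r * (y * bs χ g r * y⁻¹)⁻¹ := by
    rw [commutatorElement_def]
    group
  rw [e, bs_conj, hy, bs_mul, ← bs_neg, ← bs_add]
  congr 1
  ring

theorem ucs_le {H : Type u} [Group H] {n : ℕ}
    (h : Subgroup.upperCentralSeries H n = Subgroup.upperCentralSeries H (n + 1)) (m : ℕ) :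
    Subgroup.upperCentralSeries H m ≤ Subgroup.upperCentralSeries H n := by
  induction m with
  | zero => simp
  | succ m ih =>
    intro x hx
    rw [h]
    exact fun y => ih (hx y)

theorem not_hall (hQ : Group.FG Q) (K : Subgroup N)
    (h : ∀ n : ℕ, ∃ (g : Q) (k : N) (r : R) (M : ℕ), k ∈ K ∧
      r ∈ AddSubgroup.closure (Set.range χ) ∧
      (∀ k' ∈ K, ∃ c, (χ (cj g k') - 1) * r = c * (χ (cj g k) - 1) * r) ∧
      (χ (cj g k) - 1) ^ M * r = 0 ∧ (χ (cj g k) - 1) ^ n * r ≠ 0) : ¬ HallP Q := by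
  classical
  intro hH
  obtain ⟨S, hS⟩ := hQ.out
  let G : Subgroup (Multiplicative R ≀ᵣ Q) :=
    Subgroup.closure (insert (bs χ 1 1) (inl '' S))
  have g1 : ∀ q : Q, inl q ∈ G := fun q => by
    have : Subgroup.closure (S : Set Q) ≤ G.comap inl := (Subgroup.closure_le _).2 fun s hs =>
      Subgroup.subset_closure (Or.inr ⟨s, hs, rfl⟩)
    exact this (hS ▸ Subgroup.mem_top q)
  have g2 : ∀ g : Q, bs χ g 1 ∈ G := fun g => by
    have := G.mul_mem (G.mul_mem (g1 g) (Subgroup.subset_closure (Or.inl rfl) : bs χ 1 1 ∈ G))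
      (G.inv_mem (g1 g))
    rwa [bs_conj, right_inl, mul_one] at this
  have g3 : ∀ g : Q, ∀ r ∈ AddSubgroup.closure (Set.range χ), bs χ g r ∈ G := fun g r hr => by
    induction hr using AddSubgroup.closure_induction with
    | mem x hx =>
      obtain ⟨k, rfl⟩ := hx
      have := g2 ((cj g⁻¹ k : N) * g)
      rwa [bs_mul, one_mul, show cj g (cj g⁻¹ k) = k from Subtype.ext (by simp [cj_coe, mul_assoc])]
        at this
    | zero => exact bs_zero χ g ▸ G.one_mem
    | add x y _ _ hx hy => exact bs_add χ g x y ▸ G.mul_mem hx hy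
    | neg x _ hx => exact bs_neg χ g x ▸ G.inv_mem hx
  let f : G →* Q := rightHom.comp G.subtype
  obtain ⟨n, hn⟩ := hH G ((Group.fg_iff_subgroup_fg G).2 ((Subgroup.fg_iff G).2
    ⟨_, rfl, (S.finite_toSet.image _).insert _⟩)) f
    (fun q => ⟨⟨inl q, g1 q⟩, rfl⟩) (fun x hx y hy => by
      have hx : x.1.right = 1 := hx
      have hy : y.1.right = 1 := hy
      refine Subtype.ext (RegularWreathProduct.ext (funext fun z => ?_) ?_)
      · simp [hx, hy, mul_comm]
      · simp [hx, hy]) ((K.map N.subtype).comap f)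
  obtain ⟨g, k, r, M, hk, hr, h1, h2, h3⟩ := h n
  have up : ∀ (m : ℕ) (s : R) (a : (K.map N.subtype).comap f),
      (χ (cj g k) - 1) ^ m * (s * r) = 0 → a.1.1 = bs χ g (s * r) →
        a ∈ Subgroup.upperCentralSeries _ m := by
    intro m
    induction m with
    | zero =>
      intro s a h0 ha
      rw [pow_zero, one_mul] at h0
      rw [h0, bs_zero] at ha
      exact Subgroup.mem_bot.2 (Subtype.ext (Subtype.ext ha))
    | succ m ih =>
      intro s a h0 ha y
      obtain ⟨k', hk', e⟩ := y.2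
      obtain ⟨c, hc⟩ := h1 k' hk'
      refine ih (-(c * (χ (cj g k) - 1) * s)) _ (by linear_combination (-c) * h0) ?_
      refine (show _ = ⁅a.1.1, y.1.1⁆ from rfl).trans ?_
      rw [ha, bs_comm χ (y := y.1.1) (k := k') e.symm]
      congr 1
      linear_combination (-s) * hc
  have down : ∀ (m : ℕ) (t : R) (a : (K.map N.subtype).comap f), a.1.1 = bs χ g t →
      a ∈ Subgroup.upperCentralSeries _ m → (χ (cj g k) - 1) ^ m * t = 0 := by
    intro m
    induction m with
    | zero =>
      intro t a ha h0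
      rw [Subgroup.mem_bot.1 h0] at ha
      rw [bs_eq_one χ ha.symm, mul_zero]
    | succ m ih =>
      intro t a ha h0
      have := ih (-((χ (cj g k) - 1) * t)) _ ((show _ = ⁅a.1.1, inl (k : Q)⁆ from rfl).trans
        (by rw [ha, bs_comm χ (k := k) rfl])) (h0 ⟨⟨inl k, g1 k⟩, k, hk, rfl⟩)
      linear_combination -this
  exact h3 (down n r ⟨⟨bs χ g r, g3 g r hr⟩, 1, K.one_mem, rfl⟩ rfl
    (ucs_le hn M (up M 1 _ (by rw [one_mul, h2]) (by rw [one_mul]))))

end Pool.Agent.Lib.MP_36fb39_al
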