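import Mathlib

/-! Definitions for the proof of Hall's upper central height problem (S01181). -/

set_option autoImplicit false

namespace Pool.Agent.Lib.MP_36fb39_al

section Groups
variable {G : Type*} [Group G]

/-- `g` normalizes `H`. -/
def Nz (g : G) (H : Subgroup G) : Prop := ∀ a, a ∈ H ↔ g * a * g⁻¹ ∈ H

/-- `Γ'` is normal in `Γ` with cyclic quotient generated by `t`. -/
structure CStep (Γ' Γ : Subgroup G) (t : G) : Prop where
  le : Γ' ≤ Γ
  mem : t ∈ Γ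
  norm : ∀ g ∈ Γ, Nz g Γ'
  gen : ∀ g ∈ Γ, ∃ n : ℤ, ∃ a ∈ Γ', g = t ^ n * a

/-- `Γ'` is normal in `Γ` with infinite cyclic quotient generated by `t`. -/
structure Step (Γ' Γ : Subgroup G) (t : G) : Prop extends CStep Γ' Γ t where
  free : ∀ n : ℤ, t ^ n ∈ Γ' → n = 0

/-- polycyclic series of length `l` (trivial factors allowed). -/
inductive PC : ℕ → Subgroup G → Prop
  | bot : PC 0 ⊥
  | step {l : ℕ} {Γ' Γ : Subgroup G} {t : G} : PC l Γ' → CStep Γ' Γ t → PC (l + 1) Γ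

/-- subnormal series from `Z` up to `Γ` with `m` infinite cyclic factors. -/
inductive Chain (Z : Subgroup G) : ℕ → Subgroup G → Prop
  | refl : Chain Z 0 Z
  | step {m : ℕ} {Γ' Γ : Subgroup G} {t : G} : Chain Z m Γ' → Step Γ' Γ t → Chain Z (m + 1) Γ

/-- poly-(infinite cyclic) of Hirsch length at most `h`. -/
def PZ (h : ℕ) (Γ : Subgroup G) : Prop := ∃ m ≤ h, Chain ⊥ m Γ

/-- `φ` restricted to `Γ` is a homomorphism to the additive group `A`. -/
def IsHomOn {A : Type*} [AddCommGroup A] (Γ : Subgroup G) (φ : G → A) : Prop :=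
  ∀ a ∈ Γ, ∀ b ∈ Γ, φ (a * b) = φ a + φ b

/-- common kernel of all homomorphisms `N → ℤ`. -/
def abKer (N : Subgroup G) : Subgroup G where
  carrier := {g | g ∈ N ∧ ∀ φ : G → ℤ, IsHomOn N φ → φ g = 0}
  mul_mem' := by
    rintro a b ⟨ha, ha'⟩ ⟨hb, hb'⟩
    exact ⟨N.mul_mem ha hb, fun φ hφ => by rw [hφ a ha b hb, ha' φ hφ, hb' φ hφ, add_zero]⟩
  one_mem' := ⟨N.one_mem, fun φ hφ => by
    have := hφ 1 N.one_mem 1 N.one_mem
    rw [mul_one] at this
    omega⟩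
  inv_mem' := by
    rintro a ⟨ha, ha'⟩
    refine ⟨N.inv_mem ha, fun φ hφ => ?_⟩
    have h1 := hφ 1 N.one_mem 1 N.one_mem
    have h2 := hφ a ha a⁻¹ (N.inv_mem ha)
    rw [mul_one] at h1
    rw [mul_inv_cancel, ha' φ hφ] at h2
    omega

/-- `K ≤ N` with `N / K` torsion-free abelian. -/
structure Sat (K N : Subgroup G) : Prop where
  le : K ≤ N
  comm : ∀ a ∈ N, ∀ b ∈ N, a * b * a⁻¹ * b⁻¹ ∈ K
  root : ∀ g ∈ N, ∀ n : ℕ, 0 < n → g ^ n ∈ K → g ∈ K

/-- neatness of conjugation by `y` on `N`, hereditarily down to depth `h`. -/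
def Neat (y : G) : ℕ → Subgroup G → Prop
  | 0, _ => True
  | h + 1, N =>
    (∀ φ : G → ℤ, IsHomOn N φ → ∀ j : ℕ, 0 < j → (∀ a ∈ N, φ (y ^ j * a * (y ^ j)⁻¹) = φ a) →
      ∀ a ∈ N, φ (y * a * y⁻¹) = φ a) ∧
    ∀ K : Subgroup G, Sat K N → ∀ j : ℕ, 0 < j → Nz (y ^ j) K → Nz y K ∧ (K ≠ N → Neat y h K)

end Groups

section Lattices
variable {G : Type*} [Group G] {L : Type*} [CompleteLattice L]

/-- `a` is fixed by `Γ`. -/
def Fx (ρ : G →* (L ≃o L)) (Γ : Subgroup G) (a : L) : Prop := ∀ g ∈ Γ, ρ g a = a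

/-- join of the translates of `k` by the set `S`. -/
def tr (ρ : G →* (L ≃o L)) (S : Set G) (k : L) : L := ⨆ g ∈ S, ρ g k

/-- least `Γ`-invariant element above `k`. -/
abbrev span (ρ : G →* (L ≃o L)) (Γ : Subgroup G) (k : L) : L := tr ρ (Γ : Set G) k

/-- `u` is independent over `a` from its translates by `S`. -/
def IndOn (ρ : G →* (L ≃o L)) (S : Set G) (a u : L) : Prop := u ⊓ (a ⊔ tr ρ S u) ≤ a

/-- the interval `[a, b]` has `Γ`-dimension at least `e`. -/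
inductive Ge (ρ : G →* (L ≃o L)) : Subgroup G → ℕ → L → L → Prop
  | zero {Γ : Subgroup G} {a b : L} : a < b → Ge ρ Γ 0 a b
  | down {Γ' Γ : Subgroup G} {t : G} {e : ℕ} {a b : L} :
      Step Γ' Γ t → Ge ρ Γ' e a b → Ge ρ Γ e a b
  | free {Γ' Γ : Subgroup G} {t : G} {e : ℕ} {a b a' u : L} :
      Step Γ' Γ t → a ≤ a' → u ≤ b → Fx ρ Γ a' → Fx ρ Γ' u →
      IndOn ρ ((Γ : Set G) \ (Γ' : Set G)) a' u → Ge ρ Γ' e a' u → Ge ρ Γ (e + 1) a b

/-- the data of the constructor `Ge.free`. -/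
def Free (ρ : G →* (L ≃o L)) (Γ' Γ : Subgroup G) (e : ℕ) (a b : L) : Prop :=
  ∃ a' u, a ≤ a' ∧ u ≤ b ∧ Fx ρ Γ a' ∧ Fx ρ Γ' u ∧
    IndOn ρ ((Γ : Set G) \ (Γ' : Set G)) a' u ∧ Ge ρ Γ' e a' u

/-- `[a, b]` contains a chain of `n` invariant steps, each of dimension at least `e`. -/
def LenGe (ρ : G →* (L ≃o L)) (Γ : Subgroup G) (e : ℕ) : ℕ → L → L → Prop
  | 0, a, b => a ≤ b
  | n + 1, a, b => ∃ c, Fx ρ Γ c ∧ LenGe ρ Γ e n a c ∧ Ge ρ Γ e c b

/-- finite `e`-length. -/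
def FinLen (ρ : G →* (L ≃o L)) (Γ : Subgroup G) (e : ℕ) (a b : L) : Prop :=
  ∃ n, ¬ LenGe ρ Γ e n a b

/-- `u` is `Γ`-invariant and lies in `[x, s]`. -/
structure In (ρ : G →* (L ≃o L)) (Γ : Subgroup G) (x s u : L) : Prop where
  inv : Fx ρ Γ u
  lo : x ≤ u
  hi : u ≤ s

/-- `[x, p]` is critical of dimension `d`. -/
structure Crit (ρ : G →* (L ≃o L)) (Γ : Subgroup G) (d : ℕ) (x p : L) : Prop where
  invx : Fx ρ Γ x
  invp : Fx ρ Γ p
  ge : Ge ρ Γ d x p
  lt : ¬ Ge ρ Γ (d + 1) x p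
  quot : ∀ w, Fx ρ Γ w → x < w → w ≤ p → ¬ Ge ρ Γ d w p

/-- `[x, s]` is homogeneous of dimension `d`. -/
structure Homog (ρ : G →* (L ≃o L)) (Γ : Subgroup G) (d : ℕ) (x s : L) : Prop where
  invx : Fx ρ Γ x
  invs : Fx ρ Γ s
  le : x ≤ s
  ge : ∀ w, Fx ρ Γ w → x < w → w ≤ s → Ge ρ Γ d x w
  lt : ¬ Ge ρ Γ (d + 1) x s

/-- `[x, s]` is homogeneous of dimension `d` and generated up to lower dimension by criticals. -/
structure Level (ρ : G →* (L ≃o L)) (Γ : Subgroup G) (d : ℕ) (x s : L) : Prop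
    extends Homog ρ Γ d x s where
  gen : ¬ Ge ρ Γ d (x ⊔ sSup {p | Crit ρ Γ d x p ∧ p ≤ s}) s

/-- finitely generated intervals satisfy the maximal condition on invariant elements. -/
def Noeth (ρ : G →* (L ≃o L)) (Γ : Subgroup G) : Prop :=
  ∀ x k, Fx ρ Γ x → IsCompactElement k → ∀ S : Set L, S.Nonempty →
    (∀ u ∈ S, In ρ Γ x (x ⊔ span ρ Γ k) u) → ∃ m ∈ S, ∀ u ∈ S, m ≤ u → u = m

/-- exactness of the dimension. -/
def Ex (ρ : G →* (L ≃o L)) (Γ : Subgroup G) : Prop :=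
  ∀ e a b c, Fx ρ Γ a → Fx ρ Γ b → Fx ρ Γ c → a ≤ b → b ≤ c →
    Ge ρ Γ e a c → Ge ρ Γ e a b ∨ Ge ρ Γ e b c

/-- finite partitivity. -/
def FP (ρ : G →* (L ≃o L)) (Γ : Subgroup G) : Prop :=
  ∀ e a k, Fx ρ Γ a → IsCompactElement k → ¬ Ge ρ Γ (e + 1) a (a ⊔ span ρ Γ k) →
    FinLen ρ Γ e a (a ⊔ span ρ Γ k)

/-- the dimension can be computed through any step. -/
def Via (ρ : G →* (L ≃o L)) (Γ : Subgroup G) : Prop :=
  ∀ Γ' t e a b, Step Γ' Γ t → Fx ρ Γ a → Fx ρ Γ b → Ge ρ Γ (e + 1) a b →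
    Ge ρ Γ' (e + 1) a b ∨ Free ρ Γ' Γ e a b

/-- everything we know about a poly-`ℤ` group. -/
structure Nice (ρ : G →* (L ≃o L)) (Γ : Subgroup G) : Prop where
  noeth : Noeth ρ Γ
  ex : Ex ρ Γ
  fp : FP ρ Γ
  via : Via ρ Γ
  bdd : ∃ h, ∀ e a b, Ge ρ Γ e a b → e ≤ h

/-- `b` is the join of `a` and the covers of `a` below `b`. -/
def SSI (a b : L) : Prop := b ≤ a ⊔ sSup {q | a ⋖ q ∧ q ≤ b}

/-- the quotient lattice of `Z`-invariant elements of `[x, s]` modulo dimension `< d`. -/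
structure IsLev (ρ : G →* (L ≃o L)) (Z : Subgroup G) (d : ℕ) (x s : L) (H : Subgroup G)
    {X : Type*} [CompleteLattice X] (π : L → X) (ι : X → L) (act : H →* (X ≃o X)) : Prop where
  ι_in : ∀ q, In ρ Z x s (ι q)
  π_ι : ∀ q, π (ι q) = q
  gc : ∀ u q, In ρ Z x s u → (π u ≤ q ↔ u ≤ ι q)
  π_le : ∀ u v, In ρ Z x s u → In ρ Z x s v → (π u ≤ π v ↔ ¬ Ge ρ Z d (u ⊓ v) u)
  π_inf : ∀ u v, In ρ Z x s u → In ρ Z x s v → π (u ⊓ v) = π u ⊓ π v
  cpt : ∀ k, IsCompactElement k → k ≤ s → IsCompactElement (π (x ⊔ span ρ Z k))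
  act_π : ∀ (g : H) u, In ρ Z x s u → act g (π u) = π (ρ g u)

/-- a property of intervals that survives all our operations. -/
structure Tracked (ρ : G →* (L ≃o L)) (P : Subgroup G → L → L → Prop) : Prop where
  sub : ∀ Z x w w', P Z x w → x ≤ w' → w' ≤ w → P Z x w'
  tup : ∀ Z x w x', Fx ρ Z x → Fx ρ Z w → Fx ρ Z x' → x ≤ x' → x' ⊓ w ≤ x →
    P Z x w → P Z x' (x' ⊔ w)
  tdown : ∀ Z x w x', Fx ρ Z x → Fx ρ Z w → Fx ρ Z x' → x ≤ x' → x ≤ w → x' ⊓ w ≤ x →
    P Z x' (x' ⊔ w) → P Z x w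
  res : ∀ Z Z' x w, Z' ≤ Z → P Z x w → P Z' x w
  conj : ∀ Z x w g, Nz g Z → P Z x w → P Z (ρ g x) (ρ g w)

/-- some nontrivial invariant initial piece of `[x, s]` has the tracked property. -/
def Good (ρ : G →* (L ≃o L)) (P : Subgroup G → L → L → Prop) (Z : Subgroup G) (x s : L) : Prop :=
  ∃ w, Fx ρ Z w ∧ x < w ∧ w ≤ s ∧ P Z x w

/-- the finite-dimensional case, as a hypothesis. -/
def FinH (ρ : G →* (L ≃o L)) (P : Subgroup G → L → L → Prop) (h : ℕ) (y : G) (k b : L) : Prop :=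
  ∀ (N : Subgroup G) (x : L), PZ h N → Group.IsNilpotent N → Nz y N →
    Fx ρ (N ⊔ Subgroup.zpowers y) x → x < x ⊔ span ρ N k →
    (∀ w, Fx ρ (N ⊔ Subgroup.zpowers y) w → x < w → w ≤ x ⊔ span ρ N k → w = x ⊔ span ρ N k) →
    (∃ k', IsCompactElement k' ∧ x ⊔ span ρ N k = x ⊔ k') →
    x ⊔ span ρ N k ≤ x ⊔ sSup {p | In ρ N x (x ⊔ span ρ N k) p ∧ P N x p} → b ≤ x

end Lattices

section Abelian
variable {B : Type*} [CommGroup B] {L : Type*} [CompleteLattice L]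

/-- Atoms below `k` depend on their translates along every rank `m` direct summand
complementary to a subgroup containing `T`. -/
def Dep (τ : B →* (L ≃o L)) (T : Subgroup B) (m : ℕ) (k : L) : Prop :=
  ∀ (σ : (Fin m → ℤ) → B) (lam : B → (Fin m → ℤ)), (∀ u v, σ (u + v) = σ u * σ v) →
    IsHomOn ⊤ lam → (∀ v, lam (σ v) = v) → (∀ t ∈ T, lam t = 0) →
    ∀ p, IsAtom p → p ≤ k → p ≤ tr τ (σ '' {v | v ≠ 0}) p

/-- lexicographic positivity. -/
def LexPos {e : ℕ} (v : Fin e → ℤ) : Prop := ∃ i, 0 < v i ∧ ∀ j < i, v j = 0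

/-- positive cone of a total order on an abelian group. -/
structure Cone (P : Set B) : Prop where
  mul : ∀ a ∈ P, ∀ b ∈ P, a * b ∈ P
  one : (1 : B) ∉ P
  total : ∀ a, a ≠ 1 → a ∈ P ∨ a⁻¹ ∈ P

end Abelian

section Modules
variable {R : Type*} [CommRing R] {G : Type*} [Group G] {M : Type*} [AddCommGroup M] [Module R M]

/-- the action on the lattice of submodules. -/
def latAct (ρ : Representation R G M) : G →* (Submodule R M ≃o Submodule R M) where
  toFun g :=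
    { toFun := fun U => U.map (ρ g)
      invFun := fun U => U.map (ρ g⁻¹)
      left_inv := fun U => by
        simp only [← Submodule.map_comp, ← Module.End.mul_eq_comp, ← map_mul, inv_mul_cancel,
          map_one, Module.End.one_eq_id, Submodule.map_id]
      right_inv := fun U => by
        simp only [← Submodule.map_comp, ← Module.End.mul_eq_comp, ← map_mul, mul_inv_cancel,
          map_one, Module.End.one_eq_id, Submodule.map_id]
      map_rel_iff' := fun {U V} => by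
        refine ⟨fun h => ?_, fun h => Submodule.map_mono h⟩
        have := Submodule.map_mono (f := ρ g⁻¹) h
        simpa only [Equiv.coe_fn_mk, ← Submodule.map_comp, ← Module.End.mul_eq_comp, ← map_mul,
          inv_mul_cancel, map_one, Module.End.one_eq_id, Submodule.map_id] using this }
  map_one' := by
    refine RelIso.ext fun U => ?_
    change U.map (ρ 1) = U
    rw [map_one, Module.End.one_eq_id, Submodule.map_id]
  map_mul' g h := by
    refine RelIso.ext fun U => ?_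
    change U.map (ρ (g * h)) = (U.map (ρ h)).map (ρ g)
    rw [map_mul, Module.End.mul_eq_comp, Submodule.map_comp]

theorem latAct_apply (ρ : Representation R G M) (g : G) (U : Submodule R M) :
    latAct ρ g U = U.map (ρ g) := rfl

/-- `M` is finitely generated as an `R G`-module. -/
def FGRep (ρ : Representation R G M) : Prop :=
  ∃ k : Submodule R M, k.FG ∧ span (latAct ρ) ⊤ k = ⊤

/-- the unipotent vectors of `Y` have bounded height. -/
def UnipBdd (Y : Module.End R M) : Prop :=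
  ∃ n : ℕ, ∀ (a : M) (i : ℕ), ((Y - 1) ^ i) a = 0 → ((Y - 1) ^ n) a = 0

/-- On `w / x`, elements of `Z` that fix a vector after an `n`-th power, `n` prime to `p`,
fix it after the `m`-th power. -/
def EigP (ρ : Representation R G M) (p m : ℕ) (Z : Subgroup G) (x w : Submodule R M) : Prop :=
  ∀ g ∈ Z, ∀ a ∈ w, ∀ n : ℕ, Nat.Coprime n p → ρ (g ^ n) a - a ∈ x → ρ (g ^ m) a - a ∈ x

/-- the span of the orbit of `a` under the powers of `y`. -/
def orb (ρ : Representation R G M) (y : G) (a : M) : Submodule R M :=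
  Submodule.span R (Set.range fun n : ℤ => ρ (y ^ n) a)

end Modules

/-- The module theorem over `R`. -/
def FT (R : Type) [CommRing R] : Prop :=
  ∀ (Q : Type) [Group Q] (l : ℕ), PC l (⊤ : Subgroup Q) →
    ∀ (M : Type) [AddCommGroup M] [Module R M] (ρ : Representation R Q M), FGRep ρ →
      ∀ y : Q, UnipBdd (ρ y)

/-- What is needed from the field `k` in the finite-dimensional case. -/
def FinData (k : Type) [Field k] : Prop :=
  ∀ (G : Type) [Group G] (M : Type) [AddCommGroup M] [Module k M] (ρ : Representation k G M)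
    (N : Subgroup G) (h : ℕ), PZ h N → Group.IsNilpotent N → ∀ U : Submodule k M, U.FG →
    ∃ P : Subgroup G → Submodule k M → Submodule k M → Prop, Tracked (latAct ρ) P ∧
      P N ⊥ (span (latAct ρ) N U) ∧ ∃ J : ℕ, 0 < J ∧
        ∀ (y : G) (a : M) (i : ℕ), ((ρ y - 1) ^ i) a = 0 →
          FinH (latAct ρ) P h y (orb ρ y a) (k ∙ (ρ (y ^ J) a - a))

end Pool.Agent.Lib.MP_36fb39_al
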