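import Pool.Agent.Lib.MP_36fb39_al.Len

set_option autoImplicit false

namespace Pool.Agent.Lib.MP_36fb39_al

section Win
variable {G : Type*} [Group G] {L : Type*} [CompleteLattice L] {ρ : G →* (L ≃o L)}
  {Γ Γ' : Subgroup G} {t : G} {a b u k x : L}

/-- join of the translates `t ^ j u` with `lo ≤ j ≤ hi`. -/
def dimWin (ρ : G →* (L ≃o L)) (t : G) (u : L) (lo hi : ℤ) : L :=
  ⨆ (j : ℤ) (_ : lo ≤ j ∧ j ≤ hi), ρ (t ^ j) u

theorem dimWin_le_iff {lo hi : ℤ} :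
    dimWin ρ t u lo hi ≤ x ↔ ∀ j, lo ≤ j → j ≤ hi → ρ (t ^ j) u ≤ x := by
  simp only [dimWin, iSup_le_iff, and_imp]

theorem le_dimWin {lo hi j : ℤ} (h₁ : lo ≤ j) (h₂ : j ≤ hi) :
    ρ (t ^ j) u ≤ dimWin ρ t u lo hi :=
  dimWin_le_iff.1 le_rfl j h₁ h₂

theorem self_le_dimWin {lo hi : ℤ} (h₁ : lo ≤ 0) (h₂ : 0 ≤ hi) : u ≤ dimWin ρ t u lo hi := by
  have := le_dimWin (ρ := ρ) (t := t) (u := u) h₁ h₂
  rwa [zpow_zero, act_one] at this

theorem dimWin_mono {lo hi lo' hi' : ℤ} (h₁ : lo' ≤ lo) (h₂ : hi ≤ hi') :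
    dimWin ρ t u lo hi ≤ dimWin ρ t u lo' hi' :=
  dimWin_le_iff.2 fun _ h h' => le_dimWin (h₁.trans h) (h'.trans h₂)

theorem dim_act_add (i j : ℤ) (u : L) : ρ (t ^ (i + j)) u = ρ (t ^ i) (ρ (t ^ j) u) := by
  rw [zpow_add, act_mul]

theorem act_dimWin_le {lo hi lo' hi' d : ℤ} (h₁ : lo' ≤ d + lo) (h₂ : d + hi ≤ hi') :
    ρ (t ^ d) (dimWin ρ t u lo hi) ≤ dimWin ρ t u lo' hi' := by
  rw [← OrderIso.le_symm_apply, dimWin_le_iff]
  intro j h h'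
  rw [OrderIso.le_symm_apply, ← dim_act_add]
  exact le_dimWin (by omega) (by omega)

theorem fx_dimWin (ht : Nz t Γ') (hu : Fx ρ Γ' u) (lo hi : ℤ) : Fx ρ Γ' (dimWin ρ t u lo hi) :=
  Fx.iSup fun j => Fx.iSup fun _ => hu.conj (ht.zpow j)

theorem dimWin_le_of_fx (ht : t ∈ Γ) (hb : Fx ρ Γ b) (h : u ≤ b) (lo hi : ℤ) :
    dimWin ρ t u lo hi ≤ b :=
  dimWin_le_iff.2 fun j _ _ => by
    rw [← hb (t ^ j) (Γ.zpow_mem ht j)]
    exact (ρ (t ^ j)).monotone h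

theorem dim_exists_win (hs : CStep Γ' Γ t) (hu : Fx ρ Γ' u) (hk : IsCompactElement k)
    (h : k ≤ span ρ Γ u) : ∃ M : ℕ, k ≤ dimWin ρ t u (-M) M := by
  rw [hs.span_eq hu] at h
  obtain ⟨S, hS⟩ := CompleteLattice.IsCompactElement.exists_finset_of_le_iSup L hk _ h
  refine ⟨S.sup Int.natAbs, hS.trans (iSup₂_le fun j hj => ?_)⟩
  have : j.natAbs ≤ S.sup Int.natAbs := Finset.le_sup hj
  exact le_dimWin (by omega) (by omega)

theorem dim_act_span (hg : Nz t Γ') (j : ℤ) (k : L) :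
    ρ (t ^ j) (span ρ Γ' k) = span ρ Γ' (ρ (t ^ j) k) :=
  act_tr_conj (fun s => hg.zpow j s) k

theorem dimWin_fg (hs : CStep Γ' Γ t) (ha : Fx ρ Γ a) (hk : IsCompactElement k) (m : ℕ) :
    ∃ κ, IsCompactElement κ ∧ dimWin ρ t (a ⊔ span ρ Γ' k) (-m) m = a ⊔ span ρ Γ' κ := by
  classical
  have ht : Nz t Γ' := hs.norm t hs.mem
  refine ⟨tr ρ (((Finset.Icc (-(m : ℤ)) m).image fun j : ℤ => t ^ j : Finset G) : Set G) k,
    compact_tr_finset _ hk, le_antisymm (dimWin_le_iff.2 fun j h h' => ?_) (sup_le ?_ ?_)⟩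
  · rw [OrderIso.map_sup, ha _ (Γ.zpow_mem hs.mem j), dim_act_span ht]
    refine sup_le_sup_left (span_mono le_rfl (le_tr ?_ k)) _
    rw [Finset.coe_image]
    exact ⟨j, Finset.mem_coe.2 (Finset.mem_Icc.2 ⟨h, h'⟩), rfl⟩
  · exact le_sup_left.trans (self_le_dimWin (by omega) (by omega))
  · refine span_le (fx_dimWin ht ((ha.mono hs.le).sup (fx_span _ _)) _ _) (tr_le_iff.2 ?_)
    intro g hg
    rw [Finset.coe_image] at hg
    obtain ⟨j, hj, rfl⟩ := hg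
    obtain ⟨h, h'⟩ := Finset.mem_Icc.1 (Finset.mem_coe.1 hj)
    exact ((ρ (t ^ j)).monotone ((le_span Γ' k).trans le_sup_right)).trans (le_dimWin h h')

theorem dim_span_base (hle : Γ' ≤ Γ) (ha : Fx ρ Γ a) (k : L) :
    span ρ Γ (a ⊔ span ρ Γ' k) = a ⊔ span ρ Γ k := by
  have := tr_sup (ρ := ρ) (Γ : Set G) a (span ρ Γ' k)
  change span ρ Γ _ = span ρ Γ a ⊔ span ρ Γ _ at this
  rw [this, ha.span_eq, span_span hle]

theorem dim_ind_shift (hs : Step Γ' Γ t) (ha : Fx ρ Γ a) (hu : Fx ρ Γ' u)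
    (hi : IndOn ρ ((Γ : Set G) \ (Γ' : Set G)) a u) {lo hi' J : ℤ} (hJ : hi' < J) :
    ρ (t ^ J) u ⊓ dimWin ρ t u lo hi' ≤ a := by
  have h1 : dimWin ρ t u lo hi' ≤ ρ (t ^ J) (a ⊔ tr ρ ((Γ : Set G) \ (Γ' : Set G)) u) := by
    refine dimWin_le_iff.2 fun j _ h' => ?_
    have e : j = J + (j - J) := by ring
    rw [e, dim_act_add, hs.tr_diff hu]
    refine (ρ (t ^ J)).monotone (le_sup_of_le_right ?_)
    exact le_iSup₂_of_le (f := fun (n : ℤ) (_ : n ≠ 0) => ρ (t ^ n) u) (j - J) (by omega) le_rfl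
  refine (inf_le_inf_left _ h1).trans ?_
  rw [← OrderIso.map_inf, ← ha (t ^ J) (Γ.zpow_mem hs.mem J)]
  rw [ha (t ^ J) (Γ.zpow_mem hs.mem J)]
  calc ρ (t ^ J) (u ⊓ (a ⊔ tr ρ ((Γ : Set G) \ (Γ' : Set G)) u)) ≤ ρ (t ^ J) a :=
        (ρ (t ^ J)).monotone hi
    _ = a := ha _ (Γ.zpow_mem hs.mem J)

theorem dim_ge_succ_cases {e : ℕ} (h : Ge ρ Γ (e + 1) a b) :
    ∃ Γ₁ t₁, Step Γ₁ Γ t₁ ∧ (Ge ρ Γ₁ (e + 1) a b ∨ Free ρ Γ₁ Γ e a b) := by
  cases h with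
  | down hs h => exact ⟨_, _, hs, Or.inl h⟩
  | free hs h1 h2 h3 h4 h5 h6 => exact ⟨_, _, hs, Or.inr ⟨_, _, h1, h2, h3, h4, h5, h6⟩⟩

theorem dim_lenGe_zero (hle : Γ' ≤ Γ) {n : ℕ} (h : LenGe ρ Γ 0 n a b) : LenGe ρ Γ' 0 n a b := by
  induction n generalizing b with
  | zero => exact h
  | succ n ih =>
    obtain ⟨c, hc, h1, h2⟩ := h
    exact ⟨c, hc.mono hle, ih h1, Ge.zero h2.lt⟩

end Win

variable {G : Type*} [Group G] {L : Type*} [CompleteLattice L] [IsModularLattice L]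
  [IsCompactlyGenerated L] {ρ : G →* (L ≃o L)} {Γ Γ' : Subgroup G} {e : ℕ} {a b c u k x s : L}

theorem dim_ge_of_not_finLen {t : G} (hs : Step Γ' Γ t) (hn : Nice ρ Γ') (hN : Noeth ρ Γ)
    (ha : Fx ρ Γ a) (hk : IsCompactElement k) (h : ¬ FinLen ρ Γ' e a (a ⊔ span ρ Γ k)) :
    Ge ρ Γ (e + 1) a (a ⊔ span ρ Γ k) :=
  (free_of_not_finLen hs hn hN ha hk h).elim (Ge.down hs) fun h => h.ge hs

theorem ex_step (hn : ∀ Γ' t, Step Γ' Γ t → Nice ρ Γ') (hN : Noeth ρ Γ) : Ex ρ Γ := by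
  intro e a b c ha hb hc hab hbc h
  cases e with
  | zero =>
    rcases hab.lt_or_eq with h1 | rfl
    · exact Or.inl (Ge.zero h1)
    · exact Or.inr h
  | succ e =>
    obtain ⟨Γ', t, hs, h | ⟨a', u, haa, huc, ha', hu, hi, hg⟩⟩ := dim_ge_succ_cases h
    · exact ((hn Γ' t hs).ex _ a b c (ha.mono hs.le) (hb.mono hs.le) (hc.mono hs.le) hab hbc h).imp
        (Ge.down hs) (Ge.down hs)
    · have hn' := hn Γ' t hs
      obtain ⟨k, hk, hku, hg'⟩ := hg.cpt (ha'.mono hs.le)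
      have hac : a' ≤ c := hg.lt.le.trans huc
      have hT : Fx ρ Γ (a' ⊔ span ρ Γ k) := ha'.sup (fx_span _ _)
      have hTc : a' ⊔ span ρ Γ k ≤ c := sup_le hac (span_le hc (hku.trans huc))
      have hfree : Free ρ Γ' Γ e a' (a' ⊔ span ρ Γ k) :=
        ⟨a', a' ⊔ span ρ Γ' k, le_rfl, sup_le_sup_left (span_mono hs.le le_rfl) _, ha',
          (ha'.mono hs.le).sup (fx_span _ _),
          hi.mono subset_rfl (sup_le hg.lt.le (span_le hu hku)), hg'⟩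
      have hnf := hfree.not_finLen hs hT
      have hm : Fx ρ Γ ((b ⊔ a') ⊓ (a' ⊔ span ρ Γ k)) := (hb.sup ha').inf hT
      have ham : a' ≤ (b ⊔ a') ⊓ (a' ⊔ span ρ Γ k) := le_inf le_sup_right le_sup_left
      by_cases h1 : FinLen ρ Γ' e a' ((b ⊔ a') ⊓ (a' ⊔ span ρ Γ k))
      · right
        have h2 : ¬ FinLen ρ Γ' e ((b ⊔ a') ⊓ (a' ⊔ span ρ Γ k)) (a' ⊔ span ρ Γ k) := fun h2 =>
          hnf (FinLen.trans hn'.ex (hm.mono hs.le) (hT.mono hs.le) ham inf_le_right h1 h2)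
        have e1 : (b ⊔ a') ⊓ (a' ⊔ span ρ Γ k) ⊔ span ρ Γ k = a' ⊔ span ρ Γ k :=
          le_antisymm (sup_le inf_le_right le_sup_right) (sup_le_sup_right ham _)
        have h3 := dim_ge_of_not_finLen hs hn' hN hm hk (by rw [e1]; exact h2)
        rw [e1] at h3
        refine (h3.tup hT (hb.sup ha') (by rw [inf_comm])).mono
          (le_sup_of_le_right le_sup_left) (sup_le hTc (sup_le hbc hac))
      · left
        obtain ⟨k', hk', _, e1⟩ := hN.fg ha' hk ⟨hm, ham, inf_le_right⟩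
        have h3 := dim_ge_of_not_finLen hs hn' hN ha' hk' (by rw [← e1]; exact h1)
        rw [← e1] at h3
        exact (h3.tdown hb le_rfl inf_le_left).mono (le_inf hab haa) inf_le_left

theorem via_step (hn : ∀ Γ' t, Step Γ' Γ t → Nice ρ Γ')
    (hn' : ∀ Γ' t Γ'' t', Step Γ' Γ t → Step Γ'' Γ' t' → Nice ρ Γ'') (hN : Noeth ρ Γ) :
    Via ρ Γ := by
  intro Γ₂ t₂ e a b h₂ ha hb h
  obtain ⟨k, hk, hkb, hg⟩ := h.cpt ha
  have hBb : a ⊔ span ρ Γ k ≤ b := sup_le h.lt.le (span_le hb hkb)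
  have hB : Fx ρ Γ (a ⊔ span ρ Γ k) := ha.sup (fx_span _ _)
  suffices H : Ge ρ Γ₂ (e + 1) a (a ⊔ span ρ Γ k) ∨ Free ρ Γ₂ Γ e a (a ⊔ span ρ Γ k) from
    H.imp (fun H => H.mono le_rfl hBb) fun H => H.mono le_rfl hBb
  by_contra hcon
  rw [not_or] at hcon
  obtain ⟨hc1, hc2⟩ := hcon
  have hn₂ := hn Γ₂ t₂ h₂
  have hfl : FinLen ρ Γ₂ e a (a ⊔ span ρ Γ k) := by
    by_contra hfl
    exact (free_of_not_finLen h₂ hn₂ hN ha hk hfl).elim hc1 hc2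
  generalize a ⊔ span ρ Γ k = B at hg hB hc1 hc2 hfl
  have haB : a ≤ B := hg.lt.le
  obtain ⟨Γ₁, t₁, h₁, hcase⟩ := dim_ge_succ_cases hg
  by_cases hne : Γ₁ = Γ₂
  · subst hne
    exact hcase.elim hc1 hc2
  obtain ⟨⟨s₁, hs₁⟩, s₂, hs₂⟩ := two_steps h₁ h₂ hne
  have hn₁ := hn Γ₁ t₁ h₁
  have hn₀ := hn' Γ₂ t₂ _ s₂ h₂ hs₂
  have hfl₀ : FinLen ρ (Γ₁ ⊓ Γ₂) e a B :=
    FinLen.down hs₂ hn₀ hn₂.noeth (ha.mono h₂.le) (hB.mono h₂.le) haB hc1 hfl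
  rcases hcase with hd | ⟨a', u, haa, huB, ha', hu, hi, hg'⟩
  · rcases hn₁.via _ s₁ e a B hs₁ (ha.mono h₁.le) (hB.mono h₁.le) hd with h3 | h3
    · exact hc1 (Ge.down hs₂ h3)
    · exact h3.not_finLen hs₁ (hB.mono h₁.le) hfl₀
  · by_cases h0 : Ge ρ (Γ₁ ⊓ Γ₂) e a' u
    · obtain ⟨n, hn⟩ := hfl₀
      exact hn ((lenGe_of_indOn h₁ inf_le_left ((h₁.norm t₁ h₁.mem).inf (h₂.norm t₁ h₁.mem))
        ha' hu hi h0 n).mono haa (span_le hB huB))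
    cases e with
    | zero => exact h0 (Ge.zero hg'.lt)
    | succ e =>
      rcases hn₁.via _ s₁ e a' u hs₁ (ha'.mono h₁.le) hu hg' with
        h3 | ⟨a'', u', haa', huu, ha'', hu', hi', hg''⟩
      · exact h0 h3
      obtain ⟨h4, h5⟩ := ind_nest inf_le_left h₁.le ha' hu hi ha'' haa' hg''.lt.le huu hi'
      have hA : Fx ρ Γ (span ρ Γ a'') := fx_span _ _
      have h02 : Γ₁ ⊓ Γ₂ ≤ Γ := inf_le_left.trans h₁.le
      have hv : Fx ρ (Γ₁ ⊓ Γ₂) (u' ⊔ span ρ Γ a'') := hu'.sup (hA.mono h02)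
      have h6 := (hg''.tup hu' (hA.mono h02) h4).mono le_sup_right le_rfl
      have h7 : Ge ρ Γ₂ (e + 1) (span ρ Γ a'') (span ρ Γ₂ (u' ⊔ span ρ Γ a'')) :=
        Ge.free hs₂ le_rfl (le_span _ _) (hA.mono h₂.le) hv
          (h5.mono (Set.sdiff_subset_sdiff_left h₂.le) le_rfl) h6
      refine hc2 ⟨_, _, (haa.trans haa').trans (le_span _ _), ?_, hA, fx_span _ _,
        ind_group inf_le_right h₂.le hA hv h5, h7⟩
      exact span_le (hB.mono h₂.le) (sup_le (huu.trans huB)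
        (span_le hB (hg''.lt.le.trans (huu.trans huB))))

omit [IsCompactlyGenerated L] in
theorem dim_not_lenGe_add (hex : Ex ρ Γ) {p q : ℕ} (hb : Fx ρ Γ b) (hc : Fx ρ Γ c) (hab : a ≤ b)
    (hbc : b ≤ c) (h₁ : ¬ LenGe ρ Γ e p a b) (h₂ : ¬ LenGe ρ Γ e q b c) :
    ¬ LenGe ρ Γ e (p + q) a c := by
  intro h
  obtain ⟨i, j, hij, h3, h4⟩ := h.split hex hb hc
  rcases le_or_gt p i with hp | hp
  · exact h₁ ((h3.of_le hp).mono (le_inf le_rfl hab) inf_le_right)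
  · exact h₂ ((h4.of_le (by omega)).mono le_sup_right (sup_le le_rfl hbc))

omit [IsCompactlyGenerated L] in
theorem dim_not_lenGe_sup {p : ℕ} {y y' : L} (hy : Fx ρ Γ y') (hyy : y ≤ y') (hx : y ≤ x)
    (h : ¬ LenGe ρ Γ e p y y') : ¬ LenGe ρ Γ e p x (x ⊔ y') := fun h' =>
  h ((h'.tdown hy le_rfl (sup_comm x y').le).mono (le_inf hyy hx) inf_le_left)

omit [IsCompactlyGenerated L] in
/-- linear growth of the windows. -/
theorem dim_win_growth {t : G} (ht : Nz t Γ') (hex : Ex ρ Γ') (hu : Fx ρ Γ' u) {n C : ℕ}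
    (h : ¬ LenGe ρ Γ' e C (dimWin ρ t u (-n) n) (dimWin ρ t u (-(n + 1)) (n + 1))) (d : ℕ) :
    ¬ LenGe ρ Γ' e (1 + 2 * C * d) (dimWin ρ t u (-n) n) (dimWin ρ t u (-(n + d)) (n + d)) := by
  induction d with
  | zero =>
    intro h'
    simp only [mul_zero, add_zero, Nat.cast_zero] at h'
    exact not_ge_of_le le_rfl ((lenGe_one_iff (fx_dimWin ht hu _ _)).1 h')
  | succ d ih =>
    have hsh : ∀ j : ℤ, ¬ LenGe ρ Γ' e C (ρ (t ^ j) (dimWin ρ t u (-n) n))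
        (ρ (t ^ j) (dimWin ρ t u (-(n + 1)) (n + 1))) := by
      intro j h'
      have := h'.conj (ht.zpow j).inv
      rw [act_inv_act, act_inv_act] at this
      exact h this
    have hf : ∀ j : ℤ, Fx ρ Γ' (ρ (t ^ j) (dimWin ρ t u (-(n + 1)) (n + 1))) := fun j =>
      (fx_dimWin ht hu _ _).conj (ht.zpow j)
    have hle : ∀ j : ℤ, ρ (t ^ j) (dimWin ρ t u (-n) n) ≤
        ρ (t ^ j) (dimWin ρ t u (-(n + 1)) (n + 1)) := fun j =>
      (ρ (t ^ j)).monotone (dimWin_mono (by omega) (by omega))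
    have hW : Fx ρ Γ' (dimWin ρ t u (-(n + d)) (n + d)) := fx_dimWin ht hu _ _
    have h1 := dim_not_lenGe_sup (x := dimWin ρ t u (-(n + d)) (n + d)) (hf d) (hle d)
      (act_dimWin_le (by omega) (by omega)) (hsh d)
    have h2 := dim_not_lenGe_sup (x := dimWin ρ t u (-(n + d)) (n + d) ⊔
      ρ (t ^ (d : ℤ)) (dimWin ρ t u (-(n + 1)) (n + 1))) (hf (-d)) (hle (-d))
      (le_sup_of_le_left (act_dimWin_le (by omega) (by omega))) (hsh (-d))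
    have h3 := dim_not_lenGe_add hex hW (hW.sup (hf d)) (dimWin_mono (by omega) (by omega))
      le_sup_left ih h1
    have h4 := dim_not_lenGe_add hex (hW.sup (hf d)) ((hW.sup (hf d)).sup (hf (-d)))
      (le_sup_of_le_left (dimWin_mono (by omega) (by omega))) le_sup_left h3 h2
    intro h'
    refine h4 ((h'.of_le (le_of_eq (by ring))).mono le_rfl (dimWin_le_iff.2 fun j hj hj' => ?_))
    push_cast at hj hj'
    rcases lt_or_ge ((n : ℤ) + d) j with h5 | h5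
    · have e1 : j = d + (n + 1) := by omega
      rw [e1, dim_act_add]
      exact le_sup_of_le_left (le_sup_of_le_right
        ((ρ (t ^ (d : ℤ))).monotone (le_dimWin (by omega) le_rfl)))
    rcases lt_or_ge j (-((n : ℤ) + d)) with h6 | h6
    · have e1 : j = -d + -(n + 1) := by omega
      rw [e1, dim_act_add]
      exact le_sup_of_le_right ((ρ (t ^ (-d : ℤ))).monotone (le_dimWin le_rfl (by omega)))
    · exact le_sup_of_le_left (le_sup_of_le_left (le_dimWin h6 h5))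

/-- a free step contributes linear growth in the windows. -/
theorem dim_free_growth {t : G} (hs : Step Γ' Γ t) (hN : Noeth ρ Γ') (ha : Fx ρ Γ a)
    (hk : IsCompactElement k) {c₀ : L} (hac : a ≤ c₀) (hc : Fx ρ Γ c)
    (hcb : c ≤ a ⊔ span ρ Γ k) (hf : Free ρ Γ' Γ e c₀ c) (n : ℕ) :
    ∃ M : ℕ, ∀ p : ℕ, LenGe ρ Γ' e p
      (dimWin ρ t (a ⊔ span ρ Γ' k) (-n) n ⊔
        c₀ ⊓ dimWin ρ t (a ⊔ span ρ Γ' k) (-(M + p)) (M + p))
      (dimWin ρ t (a ⊔ span ρ Γ' k) (-n) n ⊔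
        c ⊓ dimWin ρ t (a ⊔ span ρ Γ' k) (-(M + p)) (M + p)) := by
  obtain ⟨a', u, h0, huc, ha', hu, hi, hg⟩ := hf
  have ht : Nz t Γ' := hs.norm t hs.mem
  have hu0 : Fx ρ Γ' (a ⊔ span ρ Γ' k) := (ha.mono hs.le).sup (fx_span _ _)
  obtain ⟨κ, hκ, eκ⟩ := dimWin_fg hs.toCStep ha hk n
  rw [← dim_span_base hs.le ha k] at hcb
  have hau0 : a ≤ a ⊔ span ρ Γ' k := le_sup_left
  generalize a ⊔ span ρ Γ' k = u0 at hu0 hcb eκ hau0
  obtain ⟨k', hk', hku, hg'⟩ := hg.cpt (ha'.mono hs.le)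
  have hac' : a' ≤ c := hg.lt.le.trans huc
  obtain ⟨M₁, hM₁⟩ := dim_exists_win hs.toCStep hu0 hk' ((hku.trans huc).trans hcb)
  have hu1 : Fx ρ Γ' (a' ⊔ span ρ Γ' k') := (ha'.mono hs.le).sup (fx_span _ _)
  have hi1 : IndOn ρ ((Γ : Set G) \ (Γ' : Set G)) a' (a' ⊔ span ρ Γ' k') :=
    hi.mono subset_rfl (sup_le hg.lt.le (span_le hu hku))
  have hu1le : a' ⊔ span ρ Γ' k' ≤ a' ⊔ c ⊓ dimWin ρ t u0 (-M₁) M₁ :=
    sup_le_sup_left (span_le ((hc.mono hs.le).inf (fx_dimWin ht hu0 _ _))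
      (le_inf (hku.trans huc) hM₁)) _
  have hau1 : a' ≤ a' ⊔ span ρ Γ' k' := le_sup_left
  generalize a' ⊔ span ρ Γ' k' = u1 at hg' hu1 hi1 hu1le hau1
  have hcW : ∀ lo hi' : ℤ, Fx ρ Γ' (c ⊓ dimWin ρ t u0 lo hi') := fun lo hi' =>
    (hc.mono hs.le).inf (fx_dimWin ht hu0 _ _)
  obtain ⟨k₂, hk₂, _, e₂⟩ := hN.fg (ha.mono hs.le) hκ (u := c ⊓ dimWin ρ t u0 (-n) n)
    ⟨hcW _ _, le_inf ((hac.trans h0).trans hac') (hau0.trans (self_le_dimWin (by omega) (by omega))),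
      inf_le_right.trans eκ.le⟩
  have ev : a' ⊔ c ⊓ dimWin ρ t u0 (-n) n = a' ⊔ span ρ Γ' k₂ := by
    rw [e₂, ← sup_assoc, sup_eq_left.2 (hac.trans h0)]
  have hv : Fx ρ Γ' (a' ⊔ c ⊓ dimWin ρ t u0 (-n) n) := (ha'.mono hs.le).sup (hcW _ _)
  obtain ⟨k₃, hk₃, hk₃le, e₃⟩ := hN.fg (ha'.mono hs.le) hk₂
    (u := (a' ⊔ c ⊓ dimWin ρ t u0 (-n) n) ⊓ span ρ Γ u1)
    ⟨hv.inf ((fx_span _ _).mono hs.le), le_inf le_sup_left (hau1.trans (le_span _ _)),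
      inf_le_left.trans ev.le⟩
  obtain ⟨M₂, hM₂⟩ := dim_exists_win hs.toCStep hu1 hk₃ (hk₃le.trans inf_le_right)
  have hvF : (a' ⊔ c ⊓ dimWin ρ t u0 (-n) n) ⊓ span ρ Γ u1 ≤ dimWin ρ t u1 (-M₂) M₂ := by
    rw [e₃]
    exact sup_le (hau1.trans (self_le_dimWin (by omega) (by omega)))
      (span_le (fx_dimWin ht hu1 _ _) hM₂)
  have hv1 : a' ≤ a' ⊔ c ⊓ dimWin ρ t u0 (-n) n := le_sup_left
  have hv2 : c ⊓ dimWin ρ t u0 (-n) n ≤ a' ⊔ c ⊓ dimWin ρ t u0 (-n) n := le_sup_right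
  have hv3 : a' ⊔ c ⊓ dimWin ρ t u0 (-n) n ≤ a' ⊔ c ⊓ dimWin ρ t u0 (-n) n := le_rfl
  generalize hvv : a' ⊔ c ⊓ dimWin ρ t u0 (-n) n = v at hv hvF hv1 hv2
  rw [hvv] at hv3
  have chain : ∀ p : ℕ, LenGe ρ Γ' e p v (v ⊔ dimWin ρ t u1 (-M₂) (M₂ + p)) := by
    intro p
    induction p with
    | zero => exact le_sup_left
    | succ p ih =>
      have hD : Fx ρ Γ' (v ⊔ dimWin ρ t u1 (-M₂) (M₂ + p)) := hv.sup (fx_dimWin ht hu1 _ _)
      refine ⟨_, hD, ih, ?_⟩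
      have h1 := hg'.conj (ht.zpow (M₂ + p + 1))
      rw [ha' _ (Γ.zpow_mem hs.mem _)] at h1
      have hE : dimWin ρ t u1 (-M₂) (M₂ + p) ≤ span ρ Γ u1 :=
        dimWin_le_of_fx hs.mem (fx_span _ _) (le_span _ _) _ _
      have hy : ρ (t ^ ((M₂ : ℤ) + p + 1)) u1 ≤ span ρ Γ u1 := le_tr (Γ.zpow_mem hs.mem _) u1
      have h2 : ρ (t ^ ((M₂ : ℤ) + p + 1)) u1 ⊓ (v ⊔ dimWin ρ t u1 (-M₂) (M₂ + p)) ≤ a' := by
        refine le_trans (le_inf inf_le_left ?_)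
          (dim_ind_shift hs ha' hu1 hi1 (lo := -M₂) (hi' := M₂ + p) (J := M₂ + p + 1) (by omega))
        calc ρ (t ^ ((M₂ : ℤ) + p + 1)) u1 ⊓ (v ⊔ dimWin ρ t u1 (-M₂) (M₂ + p))
            ≤ (dimWin ρ t u1 (-M₂) (M₂ + p) ⊔ v) ⊓ span ρ Γ u1 :=
              le_inf (inf_le_right.trans (sup_comm _ _).le) (inf_le_left.trans hy)
          _ = dimWin ρ t u1 (-M₂) (M₂ + p) ⊔ v ⊓ span ρ Γ u1 := sup_inf_assoc_of_le _ hE
          _ ≤ dimWin ρ t u1 (-M₂) (M₂ + p) :=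
              sup_le le_rfl (hvF.trans (dimWin_mono le_rfl (by omega)))
      refine (h1.tup (hu1.conj (ht.zpow _)) hD h2).mono le_sup_right (sup_le ?_ ?_)
      · exact le_sup_of_le_right (le_dimWin (by omega) (by push_cast; omega))
      · exact sup_le_sup_left (dimWin_mono le_rfl (by push_cast; omega)) _
  refine ⟨n + M₁ + M₂, fun p => ?_⟩
  have htop : v ⊔ dimWin ρ t u1 (-M₂) (M₂ + p) ≤
      c ⊓ dimWin ρ t u0 (-((n + M₁ + M₂ : ℕ) + p)) ((n + M₁ + M₂ : ℕ) + p) ⊔ a' := by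
    refine sup_le ?_ (dimWin_le_iff.2 fun j hj hj' => ?_)
    · rw [← hvv]
      exact sup_le le_sup_right (le_sup_of_le_left
        (inf_le_inf_left _ (dimWin_mono (by push_cast; omega) (by push_cast; omega))))
    · refine ((ρ (t ^ j)).monotone hu1le).trans ?_
      rw [OrderIso.map_sup, OrderIso.map_inf, ha' _ (Γ.zpow_mem hs.mem j),
        hc _ (Γ.zpow_mem hs.mem j)]
      exact sup_le le_sup_right (le_sup_of_le_left
        (inf_le_inf_left _ (act_dimWin_le (by push_cast; omega) (by push_cast; omega))))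
  have h1 := (chain p).tdown (hcW _ _) hv1 htop
  have hnm : dimWin ρ t u0 (-n) n ≤
      dimWin ρ t u0 (-((n + M₁ + M₂ : ℕ) + p)) ((n + M₁ + M₂ : ℕ) + p) :=
    dimWin_mono (by push_cast; omega) (by push_cast; omega)
  have hm := hcW (-((n + M₁ + M₂ : ℕ) + p)) ((n + M₁ + M₂ : ℕ) + p)
  generalize dimWin ρ t u0 (-((n + M₁ + M₂ : ℕ) + p)) ((n + M₁ + M₂ : ℕ) + p) = Wm at h1 hnm hm
  have h2 : LenGe ρ Γ' e p (c₀ ⊓ Wm ⊔ c ⊓ dimWin ρ t u0 (-n) n) (c ⊓ Wm) :=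
    h1.mono (le_inf (sup_le (inf_le_inf_right _ (h0.trans hac')) (inf_le_inf_left _ hnm))
      (sup_le (inf_le_left.trans (h0.trans hv1)) hv2)) inf_le_left
  have h3 := h2.tup hm (fx_dimWin ht hu0 (-n) n)
    (le_sup_of_le_right (inf_le_inf_right _ inf_le_left))
  exact h3.mono (sup_le le_sup_right (le_sup_of_le_left le_sup_left)) (sup_comm _ _).le

theorem dim_key {t : G} (hs : Step Γ' Γ t) (hN : Noeth ρ Γ') (hv : Via ρ Γ) (ha : Fx ρ Γ a)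
    (hk : IsCompactElement k) (n : ℕ) (s : ℕ) :
    ∀ c, Fx ρ Γ c → c ≤ a ⊔ span ρ Γ k → LenGe ρ Γ (e + 1) s a c →
      ∃ i j M : ℕ, i + j = s ∧ LenGe ρ Γ' (e + 1) i a c ∧ ∀ p : ℕ, LenGe ρ Γ' e (j * p)
        (dimWin ρ t (a ⊔ span ρ Γ' k) (-n) n)
        (dimWin ρ t (a ⊔ span ρ Γ' k) (-n) n ⊔
          c ⊓ dimWin ρ t (a ⊔ span ρ Γ' k) (-(M + p)) (M + p)) := by
  induction s with
  | zero =>
    intro c _ _ h
    refine ⟨0, 0, 0, rfl, h, fun p => ?_⟩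
    rw [zero_mul]
    exact le_sup_left
  | succ s ih =>
    rintro c hc hcb ⟨c₀, hc₀, h1, h2⟩
    have hcc : c₀ ≤ c := h2.lt.le
    obtain ⟨i, j, M, hij, h3, h4⟩ := ih c₀ hc₀ (hcc.trans hcb) h1
    rcases hv Γ' t e c₀ c hs hc₀ hc h2 with h5 | h5
    · exact ⟨i + 1, j, M, by omega, ⟨c₀, hc₀.mono hs.le, h3, h5⟩, fun p =>
        (h4 p).mono le_rfl (sup_le_sup_left (inf_le_inf_right _ hcc) _)⟩
    · obtain ⟨M', h6⟩ := dim_free_growth hs hN ha hk h1.le hc hcb h5 n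
      refine ⟨i, j + 1, M + M', by omega, h3.mono le_rfl hcc, fun p => ?_⟩
      have h7 := h4 (M' + p)
      have h8 := h6 (M + p)
      have e1 : ((M : ℤ) + (M' + p : ℕ)) = (M + M' : ℕ) + p := by push_cast; ring
      have e2 : ((M' : ℤ) + (M + p : ℕ)) = (M + M' : ℕ) + p := by push_cast; ring
      rw [e1] at h7
      rw [e2] at h8
      refine (h7.append h8).of_le ?_
      nlinarith [Nat.zero_le (j * M'), Nat.zero_le M]

theorem fp_step {t : G} (hs : Step Γ' Γ t) (hn : Nice ρ Γ') (hN : Noeth ρ Γ) (hv : Via ρ Γ) :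
    FP ρ Γ := by
  intro e a k ha hk hlt
  have hfl : FinLen ρ Γ' e a (a ⊔ span ρ Γ k) := by
    by_contra h
    exact hlt (dim_ge_of_not_finLen hs hn hN ha hk h)
  have hb : Fx ρ Γ (a ⊔ span ρ Γ k) := ha.sup (fx_span _ _)
  cases e with
  | zero =>
    obtain ⟨l, hl⟩ := hfl
    exact ⟨l, fun h => hl (dim_lenGe_zero hs.le h)⟩
  | succ e =>
    have ht : Nz t Γ' := hs.norm t hs.mem
    have hu0 : Fx ρ Γ' (a ⊔ span ρ Γ' k) := (ha.mono hs.le).sup (fx_span _ _)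
    obtain ⟨k₁, hk₁, hk₁b, hng⟩ :=
      hfl.exists_fg hn.ex (ha.mono hs.le) (hb.mono hs.le) le_sup_left
    obtain ⟨n, hn₁⟩ := dim_exists_win hs.toCStep hu0 hk₁
      (hk₁b.trans (dim_span_base hs.le ha k).ge)
    have hWb : ∀ lo hi : ℤ, dimWin ρ t (a ⊔ span ρ Γ' k) lo hi ≤ a ⊔ span ρ Γ k := fun lo hi =>
      dimWin_le_of_fx hs.mem hb (sup_le_sup_left (span_mono hs.le le_rfl) _) _ _
    have haW : a ≤ dimWin ρ t (a ⊔ span ρ Γ' k) (-n) n :=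
      le_sup_left.trans (self_le_dimWin (by omega) (by omega))
    have hng' : ¬ Ge ρ Γ' (e + 1) (dimWin ρ t (a ⊔ span ρ Γ' k) (-n) n) (a ⊔ span ρ Γ k) :=
      fun h => hng (h.mono (sup_le haW (span_le (fx_dimWin ht hu0 _ _) hn₁)) le_rfl)
    obtain ⟨κ, hκ, eκ⟩ := dimWin_fg hs.toCStep ha hk (n + 1)
    push_cast at eκ
    have e1 : dimWin ρ t (a ⊔ span ρ Γ' k) (-n) n ⊔ span ρ Γ' κ =
        dimWin ρ t (a ⊔ span ρ Γ' k) (-(n + 1)) (n + 1) :=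
      le_antisymm (sup_le (dimWin_mono (by omega) (by omega)) (le_sup_right.trans eκ.ge))
        (eκ.le.trans (sup_le_sup_right haW _))
    obtain ⟨C, hC⟩ := hn.fp e _ κ (fx_dimWin ht hu0 (-n) n) hκ
      (fun h => hng' (h.mono le_rfl (e1.le.trans (hWb _ _))))
    rw [e1] at hC
    obtain ⟨l, hl⟩ := hfl
    refine ⟨l + (2 * C + 1), fun h => ?_⟩
    obtain ⟨i, j, M, hij, h1, h2⟩ := dim_key hs hn.noeth hv ha hk n _ _ hb le_rfl h
    have hi : i < l := by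
      by_contra hi
      exact hl (h1.of_le (by omega))
    have hj : 2 * C + 1 ≤ j := by omega
    refine dim_win_growth ht hn.ex hu0 hC (M + (2 * C * M + 1))
      (((h2 (2 * C * M + 1)).of_le ?_).mono le_rfl (sup_le (dimWin_mono (by omega) (by omega))
        (inf_le_right.trans (dimWin_mono (by omega) (by omega)))))
    calc 1 + 2 * C * (M + (2 * C * M + 1)) = (2 * C + 1) * (2 * C * M + 1) := by ring
      _ ≤ j * (2 * C * M + 1) := Nat.mul_le_mul_right _ hj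

theorem PZ.nice [IsAtomistic L] {h : ℕ} (hΓ : PZ h Γ) : Nice ρ Γ := by
  induction h generalizing Γ with
  | zero =>
    obtain rfl := pz_zero_iff.1 hΓ
    exact ⟨noeth_bot, ex_step (fun _ _ h => (Step.not_bot h).elim) noeth_bot, fp_bot,
      via_step (fun _ _ h => (Step.not_bot h).elim) (fun _ _ _ _ h => (Step.not_bot h).elim)
        noeth_bot, 0, fun _ _ _ h => h.bound hΓ⟩
  | succ h ih =>
    have hN : Noeth ρ Γ := noeth_of_pc hΓ.pc noeth_bot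
    have hn : ∀ Γ' t, Step Γ' Γ t → Nice ρ Γ' := fun Γ' t hs => ih (hΓ.step_down hs)
    have hv : Via ρ Γ := via_step hn (fun Γ' t Γ'' t' hs hs' =>
      ih (((hΓ.step_down hs).mono (Nat.le_succ h)).step_down hs')) hN
    refine ⟨hN, ex_step hn hN, ?_, hv, h + 1, fun _ _ _ h => h.bound hΓ⟩
    by_cases hb : Γ = ⊥
    · rw [hb]
      exact fp_bot
    · obtain ⟨Γ', t, hs⟩ := hΓ.exists_step hb
      exact fp_step hs (hn Γ' t hs) hN hv

/-- an interval finitely generated over the smaller group has the same dimension. -/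
theorem Ge.of_fg {t : G} (hs : Step Γ' Γ t) (hn : Nice ρ Γ') (hv : Via ρ Γ) (ha : Fx ρ Γ a)
    (hk : IsCompactElement k) (hb : Fx ρ Γ (a ⊔ span ρ Γ' k))
    (h : Ge ρ Γ e a (a ⊔ span ρ Γ' k)) : Ge ρ Γ' e a (a ⊔ span ρ Γ' k) := by
  cases e with
  | zero => exact Ge.zero h.lt
  | succ e =>
    rcases hv Γ' t e _ _ hs ha hb h with h1 | h1
    · exact h1
    · by_contra h2
      exact h1.not_finLen hs hb (hn.fp e a k (ha.mono hs.le) hk h2)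

theorem not_ge_of_finLen {t : G} (hs : Step Γ' Γ t) (hv : Via ρ Γ) (ha : Fx ρ Γ a)
    (hb : Fx ρ Γ b) (h₁ : ¬ Ge ρ Γ' (e + 1) a b) (h₂ : FinLen ρ Γ' e a b) :
    ¬ Ge ρ Γ (e + 1) a b := fun h =>
  (hv Γ' t e a b hs ha hb h).elim h₁ fun h1 => h1.not_finLen hs hb h₂

/-- the dimension drops by at most one along a step. -/
theorem Ge.step_down {t : G} (hs : Step Γ' Γ t) (hv : Via ρ Γ) (ha : Fx ρ Γ a)
    (hb : Fx ρ Γ b) (h : Ge ρ Γ (e + 1) a b) : Ge ρ Γ' e a b := by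
  rcases hv Γ' t e a b hs ha hb h with h1 | ⟨a', u, h1, h2, _, _, _, h3⟩
  · exact h1.of_le (Nat.le_succ e)
  · exact h3.mono h1 h2

theorem FinLen.chain_down [IsAtomistic L] {h m : ℕ} {Z : Subgroup G} (hΓ : PZ h Γ)
    (hc : Chain Z m Γ) (ha : Fx ρ Γ a) (hb : Fx ρ Γ b) (hab : a ≤ b)
    (hlt : ¬ Ge ρ Γ (e + 1) a b) (hf : FinLen ρ Γ e a b) : FinLen ρ Z e a b := by
  induction hc with
  | refl => exact hf
  | step _ hs ih =>
    have h1 := (hΓ.mono (Nat.le_succ h)).step_down hs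
    exact ih h1 (ha.mono hs.le) (hb.mono hs.le) (fun h => hlt (Ge.down hs h))
      (FinLen.down hs h1.nice hΓ.nice.noeth ha hb hab hlt hf)

/-- dimension zero and finitely generated means finite height. -/
theorem finite_of_dim_zero [IsAtomistic L] {h : ℕ} (hΓ : PZ h Γ) (ha : Fx ρ Γ a)
    (hk : IsCompactElement k) (hlt : ¬ Ge ρ Γ 1 a (a ⊔ span ρ Γ k)) :
    ∃ k', IsCompactElement k' ∧ a ⊔ span ρ Γ k = a ⊔ k' := by
  have hb : Fx ρ Γ (a ⊔ span ρ Γ k) := ha.sup (fx_span _ _)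
  have h1 : FinLen ρ Γ 0 a (a ⊔ span ρ Γ k) := hΓ.nice.fp 0 a k ha hk hlt
  obtain ⟨m, _, hm⟩ := id hΓ
  have h2 := FinLen.chain_down hΓ hm ha hb le_sup_left hlt h1
  obtain ⟨k', hk', hle, h3⟩ := h2.exists_fg (PZ.nice (h := 0) (pz_zero_iff.2 rfl)).ex
    (fx_bot_subgroup _) (fx_bot_subgroup _) le_sup_left
  rw [span_bot_subgroup, ge_zero_iff] at h3
  exact ⟨k', hk', ((sup_le le_sup_left hle).eq_of_not_lt h3).symm⟩

end Pool.Agent.Lib.MP_36fb39_al
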