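import Pool.Agent.Lib.MP_36fb39_al.Lat

set_option autoImplicit false

namespace Pool.Agent.Lib.MP_36fb39_al

theorem hall_seq_of_no_max {L : Type*} [PartialOrder L] (S : Set L) (hS : S.Nonempty)
    (hn : ¬ ∃ m ∈ S, ∀ u ∈ S, m ≤ u → u = m) :
    ∃ w : ℕ → L, (∀ i, w i ∈ S) ∧ ∀ i, w i < w (i + 1) := by
  have h1 : ∀ m : S, ∃ u : S, (m : L) < u := by
    intro m
    by_contra h
    refine hn ⟨m, m.2, fun u hu hmu => ?_⟩
    by_contra hne
    exact h ⟨⟨u, hu⟩, lt_of_le_of_ne hmu (Ne.symm hne)⟩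
  choose F hF using h1
  obtain ⟨m, hm⟩ := hS
  refine ⟨fun i => (F^[i] ⟨m, hm⟩ : S), fun i => (F^[i] ⟨m, hm⟩).2, fun i => ?_⟩
  simp only [Function.iterate_succ_apply']
  exact hF _

theorem hall_max_of_chain {L : Type*} [PartialOrder L] (S : Set L) (hS : S.Nonempty)
    (h : ∀ w : ℕ → L, Monotone w → (∀ i, w i ∈ S) → ∃ n, w (n + 1) ≤ w n) :
    ∃ m ∈ S, ∀ u ∈ S, m ≤ u → u = m := by
  by_contra hn
  obtain ⟨w, hw, hlt⟩ := hall_seq_of_no_max S hS hn
  obtain ⟨n, hn⟩ := h w (monotone_nat_of_le_succ fun i => (hlt i).le) hw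
  exact (hlt n).not_ge hn

section
variable {G : Type*} [Group G] {L : Type*} [CompleteLattice L] [IsModularLattice L]
  [IsCompactlyGenerated L] {ρ : G →* (L ≃o L)} {Γ Γ' : Subgroup G}

/-- partial joins of translates. -/
def hallF (ρ : G →* (L ≃o L)) (t : G) (x u : L) : ℕ → L
  | 0 => x
  | n + 1 => hallF ρ t x u n ⊔ ρ (t ^ n) u

/-- leading coefficients. -/
def hallI (ρ : G →* (L ≃o L)) (t : G) (x u : L) (n : ℕ) (w : L) : L :=
  u ⊓ ρ (t ^ n)⁻¹ (w ⊓ hallF ρ t x u (n + 1) ⊔ hallF ρ t x u n)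

omit [IsModularLattice L] [IsCompactlyGenerated L] in
theorem hallF_mono (t : G) (x u : L) : Monotone (hallF ρ t x u) :=
  monotone_nat_of_le_succ fun _ => le_sup_left

omit [IsModularLattice L] [IsCompactlyGenerated L] in
theorem hallF_lo (t : G) (x u : L) (n : ℕ) : x ≤ hallF ρ t x u n :=
  hallF_mono (ρ := ρ) t x u (Nat.zero_le n)

omit [IsModularLattice L] [IsCompactlyGenerated L] in
theorem hallF_ge (t : G) (x u : L) {j n : ℕ} (h : j < n) : ρ (t ^ j) u ≤ hallF ρ t x u n :=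
  (le_sup_right : ρ (t ^ j) u ≤ hallF ρ t x u (j + 1)).trans (hallF_mono t x u h)

omit [IsModularLattice L] [IsCompactlyGenerated L] in
theorem hallF_shift {t : G} {x : L} (hx : ρ t x = x) (u : L) (n : ℕ) :
    ρ t (hallF ρ t x u n) ≤ hallF ρ t x u (n + 1) := by
  induction n with
  | zero => exact hx.le.trans le_sup_left
  | succ n ih =>
    change ρ t (hallF ρ t x u n ⊔ ρ (t ^ n) u) ≤ hallF ρ t x u (n + 1) ⊔ ρ (t ^ (n + 1)) u
    rw [OrderIso.map_sup, ← act_mul, ← pow_succ']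
    exact sup_le_sup_right ih _

omit [IsModularLattice L] [IsCompactlyGenerated L] in
theorem hallF_fx {t : G} {x u : L} (ht : Nz t Γ') (hx : Fx ρ Γ' x) (hu : Fx ρ Γ' u) (n : ℕ) :
    Fx ρ Γ' (hallF ρ t x u n) := by
  induction n with
  | zero => exact hx
  | succ n ih => exact ih.sup (hu.conj (ht.pow n))

omit [IsModularLattice L] [IsCompactlyGenerated L] in
theorem hallI_mono (t : G) (x u : L) (n : ℕ) {w w' : L} (h : w ≤ w') :
    hallI ρ t x u n w ≤ hallI ρ t x u n w' :=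
  inf_le_inf_left u ((ρ _).monotone (sup_le_sup_right (inf_le_inf_right _ h) _))

omit [IsModularLattice L] [IsCompactlyGenerated L] in
theorem hallI_succ {t : G} {x w : L} (hx : ρ t x = x) (hw : ρ t w = w) (u : L) (n : ℕ) :
    hallI ρ t x u n w ≤ hallI ρ t x u (n + 1) w := by
  refine inf_le_inf_left u ?_
  have e : (t ^ n)⁻¹ = (t ^ (n + 1))⁻¹ * t := by group
  rw [e, act_mul]
  refine (ρ _).monotone ?_
  rw [OrderIso.map_sup, OrderIso.map_inf, hw]
  exact sup_le_sup (inf_le_inf_left w (hallF_shift hx u _)) (hallF_shift hx u _)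

omit [IsCompactlyGenerated L] in
theorem hall_recover {t : G} {x u w w' : L} (hxw : x ≤ w) (hww : w ≤ w')
    (h : ∀ n, hallI ρ t x u n w' ≤ hallI ρ t x u n w) (n : ℕ) :
    w' ⊓ hallF ρ t x u n ≤ w := by
  induction n with
  | zero => exact inf_le_right.trans hxw
  | succ n ih =>
    have h1 := (ρ (t ^ n)).monotone (h n)
    unfold hallI at h1
    rw [OrderIso.map_inf, OrderIso.map_inf, act_act_inv, act_act_inv] at h1
    set F := hallF ρ t x u n with hF
    set F' := hallF ρ t x u (n + 1) with hF'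
    have hFF : F' = F ⊔ ρ (t ^ n) u := rfl
    have h2 : w' ⊓ F' ≤ w ⊓ F' ⊔ F := by
      calc w' ⊓ F' ≤ (F ⊔ ρ (t ^ n) u) ⊓ (w' ⊓ F' ⊔ F) :=
            le_inf (hFF ▸ inf_le_right) le_sup_left
        _ = F ⊔ ρ (t ^ n) u ⊓ (w' ⊓ F' ⊔ F) := sup_inf_assoc_of_le _ le_sup_right
        _ ≤ w ⊓ F' ⊔ F := sup_le le_sup_right (h1.trans inf_le_right)
    have h3 : w ⊓ F' = w' ⊓ F' := by
      refine eq_of_le_of_inf_le_of_le_sup (z := F) (inf_le_inf_right _ hww) ?_ h2
      exact le_inf ((inf_le_inf_right _ inf_le_left).trans ih) (inf_le_left.trans inf_le_right)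
    exact h3.symm.le.trans inf_le_left

/-- P. Hall's version of the Hilbert basis theorem, in lattice form. -/
theorem noeth_step {t : G} (h : CStep Γ' Γ t) (hN : Noeth ρ Γ') : Noeth ρ Γ := by
  intro x k hx hk S hS hin
  refine hall_max_of_chain S hS fun w hw hwS => ?_
  set u := x ⊔ span ρ Γ' k with hu
  have hx' : Fx ρ Γ' x := hx.mono h.le
  have hufx : Fx ρ Γ' u := hx'.sup (fx_span Γ' k)
  have ht : Nz t Γ' := h.norm t h.mem
  have htx : ρ t x = x := hx t h.mem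
  have hwfx : ∀ i, Fx ρ Γ (w i) := fun i => (hin _ (hwS i)).inv
  have hIin : ∀ n i, In ρ Γ' x u (hallI ρ t x u n (w i)) := by
    intro n i
    refine ⟨hufx.inf (Fx.conj ((((hwfx i).mono h.le).inf (hallF_fx ht hx' hufx _)).sup
      (hallF_fx ht hx' hufx _)) (ht.pow n).inv), le_inf le_sup_left ?_, inf_le_left⟩
    have e : ρ (t ^ n)⁻¹ x = x := hx _ (Γ.inv_mem (Γ.pow_mem h.mem n))
    rw [← e]
    conv_rhs => rw [e]
    exact (ρ _).monotone ((hallF_lo t x u n).trans le_sup_right)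
  have hImono : ∀ i, Monotone fun n => hallI ρ t x u n (w i) := fun i =>
    monotone_nat_of_le_succ fun n => hallI_succ htx (hwfx i t h.mem) u n
  obtain ⟨_, ⟨⟨n0, i0⟩, rfl⟩, hmax⟩ := hN x k hx' hk
    (Set.range fun p : ℕ × ℕ => hallI ρ t x u p.1 (w p.2)) (Set.range_nonempty _) (by
      rintro _ ⟨p, rfl⟩
      exact hIin p.1 p.2)
  have hrow : ∀ n, ∃ j, ∀ i, j ≤ i → hallI ρ t x u n (w i) = hallI ρ t x u n (w j) := by
    intro n
    obtain ⟨_, ⟨j, rfl⟩, hm⟩ := hN x k hx' hk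
      (Set.range fun i : ℕ => hallI ρ t x u n (w i)) (Set.range_nonempty _) (by
        rintro _ ⟨i, rfl⟩
        exact hIin n i)
    exact ⟨j, fun i hi => hm _ ⟨i, rfl⟩ (hallI_mono t x u n (hw hi))⟩
  choose j hj using hrow
  set i1 := max i0 ((Finset.range n0).sup j) with hi1
  have hall : ∀ n, hallI ρ t x u n (w (i1 + 1)) ≤ hallI ρ t x u n (w i1) := by
    intro n
    by_cases hn : n < n0
    · have h1 : j n ≤ i1 :=
        (Finset.le_sup (f := j) (Finset.mem_range.2 hn)).trans (le_max_right _ _)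
      rw [hj n (i1 + 1) (h1.trans (Nat.le_succ _)), hj n i1 h1]
    · have h1 : i0 ≤ i1 := le_max_left _ _
      have h2 : hallI ρ t x u n0 (w i0) ≤ hallI ρ t x u n (w i1) :=
        (hImono i0 (not_lt.1 hn)).trans (hallI_mono t x u n (hw h1))
      have h3 := hmax _ ⟨(n, i1 + 1), rfl⟩ (h2.trans (hallI_mono t x u n (hw (Nat.le_succ i1))))
      exact h3.le.trans h2
  have hrec := hall_recover (hin _ (hwS i1)).lo (hw (Nat.le_succ i1)) hall
  refine ⟨i1, ?_⟩
  have hWmono : Monotone fun m : ℕ => ρ (t ^ m)⁻¹ (hallF ρ t x u (2 * m + 1)) := by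
    refine monotone_nat_of_le_succ fun m => ?_
    have e : (t ^ m)⁻¹ = (t ^ (m + 1))⁻¹ * t := by group
    rw [e, act_mul]
    exact (ρ _).monotone ((hallF_shift htx u _).trans (hallF_mono t x u (by omega)))
  have hs : x ⊔ span ρ Γ k ≤ ⨆ m : ℕ, ρ (t ^ m)⁻¹ (hallF ρ t x u (2 * m + 1)) := by
    have h1 : x ⊔ span ρ Γ k ≤ span ρ Γ u :=
      sup_le (le_sup_left.trans (le_span Γ u))
        (span_mono le_rfl ((le_span Γ' k).trans le_sup_right))
    rw [h.span_eq hufx] at h1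
    refine h1.trans (iSup_le fun n => le_iSup_of_le n.natAbs ?_)
    have e : t ^ n = (t ^ n.natAbs)⁻¹ * t ^ (n + n.natAbs).toNat := by
      rw [← zpow_natCast, ← zpow_natCast, Int.toNat_of_nonneg (by omega), ← zpow_neg, ← zpow_add]
      congr 1
      ring
    rw [e, act_mul]
    exact (ρ _).monotone (hallF_ge t x u (by omega))
  have h1 : w (i1 + 1) ≤ w (i1 + 1) ⊓ ⨆ m : ℕ, ρ (t ^ m)⁻¹ (hallF ρ t x u (2 * m + 1)) :=
    le_inf le_rfl ((hin _ (hwS _)).hi.trans hs)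
  rw [hWmono.directed_le.inf_iSup_eq] at h1
  refine h1.trans (iSup_le fun m => ?_)
  have hm : (t ^ m)⁻¹ ∈ Γ := Γ.inv_mem (Γ.pow_mem h.mem m)
  calc w (i1 + 1) ⊓ ρ (t ^ m)⁻¹ (hallF ρ t x u (2 * m + 1))
      = ρ (t ^ m)⁻¹ (w (i1 + 1) ⊓ hallF ρ t x u (2 * m + 1)) := by
        rw [OrderIso.map_inf, hwfx _ _ hm]
    _ ≤ ρ (t ^ m)⁻¹ (w i1) := (ρ _).monotone (hrec _)
    _ = w i1 := hwfx _ _ hm

theorem noeth_of_pc {l : ℕ} (h : PC l Γ) (hN : Noeth ρ ⊥) : Noeth ρ Γ := by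
  induction h with
  | bot => exact hN
  | step _ hs ih => exact noeth_step hs ih

omit [IsCompactlyGenerated L] in
theorem noeth_bot [IsAtomistic L] : Noeth ρ ⊥ := by
  intro x k _ hk S hS hin
  by_contra hn
  obtain ⟨w, hw, hlt⟩ := hall_seq_of_no_max S hS hn
  obtain ⟨n, hn⟩ := finite_height hk
  refine hn x w (hin _ (hw 0)).lo ?_ fun i _ => hlt i
  have := (hin _ (hw n)).hi
  rwa [span_bot_subgroup] at this

omit [IsModularLattice L] in
theorem Noeth.fg (hN : Noeth ρ Γ) {x k u : L} (hx : Fx ρ Γ x) (hk : IsCompactElement k)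
    (hu : In ρ Γ x (x ⊔ span ρ Γ k) u) :
    ∃ k', IsCompactElement k' ∧ k' ≤ u ∧ u = x ⊔ span ρ Γ k' := by
  obtain ⟨_, ⟨k0, hk0, hk0u, rfl⟩, hmax⟩ := hN x k hx hk
    {v | ∃ k', IsCompactElement k' ∧ k' ≤ u ∧ v = x ⊔ span ρ Γ k'}
    ⟨_, ⊥, compact_bot, bot_le, rfl⟩ (by
      rintro _ ⟨k', -, hk', rfl⟩
      exact ⟨hx.sup (fx_span Γ k'), le_sup_left,
        (sup_le hu.lo (span_le hu.inv hk')).trans hu.hi⟩)
  refine ⟨k0, hk0, hk0u, le_antisymm ?_ (sup_le hu.lo (span_le hu.inv hk0u))⟩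
  by_contra hn
  obtain ⟨k', hk', h1, h2⟩ := exists_compact_not_le hn
  have h3 := hmax _ ⟨k0 ⊔ k', compact_sup hk0 hk', sup_le hk0u h1, rfl⟩
    (sup_le_sup_left (span_mono le_rfl le_sup_left) x)
  exact h2 (((le_sup_right.trans (le_span Γ (k0 ⊔ k'))).trans le_sup_right).trans h3.le)

omit [IsModularLattice L] [IsCompactlyGenerated L] in
theorem Noeth.directed (hN : Noeth ρ Γ) {x k : L} (hx : Fx ρ Γ x) (hk : IsCompactElement k)
    (S : Set L) (hS : S.Nonempty) (hd : DirectedOn (· ≤ ·) S)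
    (hu : ∀ u ∈ S, In ρ Γ x (x ⊔ span ρ Γ k) u) : sSup S ∈ S := by
  obtain ⟨m, hm, hmax⟩ := hN x k hx hk S hS hu
  have h1 : sSup S = m := by
    refine le_antisymm (sSup_le fun u hu' => ?_) (le_sSup hm)
    obtain ⟨z, hz, h1, h2⟩ := hd u hu' m hm
    exact h1.trans (hmax z hz h2).le
  rwa [h1]

end

section
variable {R : Type*} [CommRing R] {G : Type*} [Group G] {M : Type*} [AddCommGroup M] [Module R M]

theorem noeth_bot_submodule [IsNoetherianRing R] (ρ : Representation R G M) :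
    Noeth (latAct ρ) ⊥ := by
  intro x k _ hk S hS hin
  refine hall_max_of_chain S hS fun w hw hwS => ?_
  have hfg : k.FG := (Submodule.fg_iff_compact k).2 hk
  haveI : IsNoetherian R k := isNoetherian_of_fg_of_noetherian k hfg
  obtain ⟨n, hn⟩ := monotone_stabilizes_iff_noetherian.2 (inferInstance : IsNoetherian R k)
    ⟨fun i => (w i).comap k.subtype, fun i j hij => Submodule.comap_mono (hw hij)⟩
  have h1 : (w n).comap k.subtype = (w (n + 1)).comap k.subtype := hn (n + 1) (Nat.le_succ n)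
  have h2 : k ⊓ w n = k ⊓ w (n + 1) := by
    rw [← Submodule.map_comap_subtype, ← Submodule.map_comap_subtype, h1]
  refine ⟨n, (eq_of_le_of_inf_le_of_le_sup (z := k) (hw (Nat.le_succ n)) ?_ ?_).symm.le⟩
  · rw [inf_comm, ← h2]
    exact inf_le_right
  · have h3 := (hin _ (hwS (n + 1))).hi
    rw [span_bot_subgroup] at h3
    exact h3.trans (sup_le_sup_right (hin _ (hwS n)).lo k)

theorem fx_latAct_iff (ρ : Representation R G M) (Γ : Subgroup G) (U : Submodule R M) :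
    Fx (latAct ρ) Γ U ↔ ∀ g ∈ Γ, ∀ a ∈ U, ρ g a ∈ U := by
  constructor
  · intro h g hg a ha
    have h1 := h g hg
    rw [latAct_apply] at h1
    rw [← h1]
    exact Submodule.mem_map_of_mem ha
  · intro h
    refine fx_of_le fun g hg => ?_
    rw [latAct_apply]
    exact Submodule.map_le_iff_le_comap.2 fun a ha => h g hg a ha

/-- maximal condition on invariant submodules of a finitely generated module. -/
theorem FGRep.acc [IsNoetherianRing R] {l : ℕ} (h : PC l (⊤ : Subgroup G))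
    {ρ : Representation R G M} (hρ : FGRep ρ) (S : Set (Submodule R M)) (hS : S.Nonempty)
    (hi : ∀ U ∈ S, Fx (latAct ρ) ⊤ U) : ∃ m ∈ S, ∀ U ∈ S, m ≤ U → U = m := by
  obtain ⟨k, hk, hspan⟩ := hρ
  refine noeth_of_pc h (noeth_bot_submodule ρ) ⊥ k Fx.bot ((Submodule.fg_iff_compact k).1 hk) S hS
    fun U hU => ⟨hi U hU, bot_le, ?_⟩
  rw [hspan]
  exact le_top.trans le_sup_right

/-- invariant submodules of a finitely generated module are finitely generated. -/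
theorem FGRep.sub_fg [IsNoetherianRing R] {l : ℕ} (h : PC l (⊤ : Subgroup G))
    {ρ : Representation R G M} (hρ : FGRep ρ) (U : Submodule R M) (hU : Fx (latAct ρ) ⊤ U) :
    ∃ k : Submodule R M, k.FG ∧ span (latAct ρ) ⊤ k = U := by
  obtain ⟨k, hk, hspan⟩ := hρ
  obtain ⟨k', hk', -, h2⟩ := (noeth_of_pc h (noeth_bot_submodule ρ)).fg (x := ⊥) (u := U) Fx.bot
    ((Submodule.fg_iff_compact k).1 hk) ⟨hU, bot_le, by
      rw [hspan]
      exact le_top.trans le_sup_right⟩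
  exact ⟨k', (Submodule.fg_iff_compact k').2 hk', by rw [h2, bot_sup_eq]⟩

end

end Pool.Agent.Lib.MP_36fb39_al
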