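import Pool.Agent.Lib.MP_36fb39_al.Nil
import Pool.Agent.Lib.MP_36fb39_al.Hall

set_option autoImplicit false

open Polynomial

namespace Pool.Agent.Lib.MP_36fb39_al

section Sep
variable {R : Type*} [CommRing R] {M : Type*} [AddCommGroup M] [Module R M]

/-- `u / x` has no `g`-torsion and is `g`-adically separated up to torsion prime to `g`. -/
def evPi (g : R) (x u : Submodule R M) : Prop :=
  (∀ a ∈ u, g • a ∈ x → a ∈ x) ∧
    ∀ a : M, (∀ n : ℕ, ∃ c ∈ u, a - g ^ n • c ∈ x) → ∃ s : R, ¬ g ∣ s ∧ s • a ∈ x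

theorem ev_pow_cancel {g : R} {x u : Submodule R M} (h : ∀ a ∈ u, g • a ∈ x → a ∈ x) (n : ℕ) :
    ∀ a ∈ u, g ^ n • a ∈ x → a ∈ x := by
  induction n with
  | zero => intro a _ ha; simpa using ha
  | succ n ih =>
    intro a ha h1
    rw [pow_succ, mul_smul] at h1
    exact h a ha (ih _ (u.smul_mem g ha) h1)

theorem ev_refl {g : R} (hg : Prime g) (x : Submodule R M) : evPi g x x := by
  refine ⟨fun a ha _ => ha, fun a ha => ⟨1, hg.not_dvd_one, ?_⟩⟩
  obtain ⟨c, hc, h⟩ := ha 0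
  have := x.add_mem h (x.smul_mem (g ^ 0) hc)
  rwa [sub_add_cancel, ← one_smul R a] at this

theorem ev_trans {g : R} (hg : Prime g) {x y u : Submodule R M} (hxy : x ≤ y)
    (h₁ : evPi g x y) (h₂ : evPi g y u) : evPi g x u := by
  refine ⟨fun a ha h => h₁.1 a (h₂.1 a ha (hxy h)) h, fun a ha => ?_⟩
  obtain ⟨s, hs, hsa⟩ := h₂.2 a fun n => (ha n).imp fun c hc => ⟨hc.1, hxy hc.2⟩
  obtain ⟨s', hs', hsa'⟩ := h₁.2 (s • a) fun n => by
    obtain ⟨c, hc, h⟩ := ha n
    have h1 : s • a - g ^ n • s • c ∈ x := by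
      have := x.smul_mem s h
      rwa [smul_sub, smul_comm s (g ^ n) c] at this
    refine ⟨s • c, ev_pow_cancel h₂.1 n _ (u.smul_mem s hc) ?_, h1⟩
    have := y.sub_mem hsa (hxy h1)
    rwa [sub_sub_cancel] at this
  refine ⟨s' * s, fun h => (hg.dvd_or_dvd h).elim hs' hs, ?_⟩
  rwa [mul_smul]

theorem ev_sup {g : R} {y v : Submodule R M} (h : evPi g (v ⊓ y) v) : evPi g y (y ⊔ v) := by
  refine ⟨fun a ha hga => ?_, fun a ha => ?_⟩
  · obtain ⟨b, hb, c, hc, rfl⟩ := Submodule.mem_sup.mp ha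
    rw [smul_add] at hga
    have h1 : g • c ∈ y := (y.add_mem_iff_right (y.smul_mem g hb)).mp hga
    exact y.add_mem hb (h.1 c hc ⟨v.smul_mem g hc, h1⟩).2
  · have h1 : ∀ n : ℕ, ∃ d ∈ v, a - g ^ n • d ∈ y := by
      intro n
      obtain ⟨c, hc, h1⟩ := ha n
      obtain ⟨b, hb, d, hd, rfl⟩ := Submodule.mem_sup.mp hc
      refine ⟨d, hd, ?_⟩
      have := y.add_mem h1 (y.smul_mem (g ^ n) hb)
      have e : a - g ^ n • (b + d) + g ^ n • b = a - g ^ n • d := by rw [smul_add]; abel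
      rwa [e] at this
    obtain ⟨d₀, hd₀, h₀⟩ := h1 0
    rw [pow_zero, one_smul] at h₀
    obtain ⟨s, hs, hsa⟩ := h.2 d₀ fun n => by
      obtain ⟨d, hd, h2⟩ := h1 n
      refine ⟨d, hd, v.sub_mem hd₀ (v.smul_mem _ hd), ?_⟩
      have := y.sub_mem h2 h₀
      have e : a - g ^ n • d - (a - d₀) = d₀ - g ^ n • d := by abel
      rwa [e] at this
    refine ⟨s, hs, ?_⟩
    have := y.add_mem (y.smul_mem s h₀) hsa.2
    rwa [← smul_add, sub_add_cancel] at this

theorem ev_iSup {g : R} (hg : Prime g) (W : ℕ → Submodule R M) (hm : Monotone W)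
    (h : ∀ n, evPi g (W n) (W (n + 1))) : evPi g (W 0) (⨆ n, W n) := by
  have h1 : ∀ i j, i ≤ j → evPi g (W i) (W j) := by
    intro i j hij
    induction j, hij using Nat.le_induction with
    | base => exact ev_refl hg _
    | succ j hij ih => exact ev_trans hg (hm hij) ih (h j)
  have hmem : ∀ a, a ∈ (⨆ n, W n) ↔ ∃ n, a ∈ W n := fun a =>
    Submodule.mem_iSup_of_directed W hm.directed_le
  refine ⟨fun a ha hga => ?_, fun a ha => ?_⟩
  · obtain ⟨n, hn⟩ := (hmem a).mp ha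
    exact (h1 0 n n.zero_le).1 a hn hga
  · obtain ⟨c, hc, h₀⟩ := ha 0
    obtain ⟨i, hi⟩ := (hmem c).mp hc
    have hai : a ∈ W i := by
      have := (W i).add_mem (hm i.zero_le h₀) ((W i).smul_mem (g ^ 0) hi)
      rwa [sub_add_cancel] at this
    refine (h1 0 i i.zero_le).2 a fun n => ?_
    obtain ⟨d, hd, h2⟩ := ha n
    obtain ⟨j, hj⟩ := (hmem d).mp hd
    refine ⟨d, ?_, h2⟩
    refine ev_pow_cancel (h1 i (max i j) (le_max_left _ _)).1 n d (hm (le_max_right _ _) hj) ?_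
    have := (W i).sub_mem hai (hm i.zero_le h2)
    rwa [sub_sub_cancel] at this

variable {G : Type*} [Group G]

theorem ev_mem_act (ρ : Representation R G M) (t : G) (U : Submodule R M) (a : M) :
    a ∈ latAct ρ t U ↔ ρ t⁻¹ a ∈ U := by
  rw [latAct_apply, Submodule.mem_map]
  constructor
  · rintro ⟨b, hb, rfl⟩
    rwa [← Module.End.mul_apply, ← map_mul, inv_mul_cancel, map_one, Module.End.one_apply]
  · intro h
    exact ⟨_, h, by
      rw [← Module.End.mul_apply, ← map_mul, mul_inv_cancel, map_one, Module.End.one_apply]⟩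

theorem ev_act (ρ : Representation R G M) (t : G) {g : R} {x u : Submodule R M}
    (h : evPi g x u) : evPi g (latAct ρ t x) (latAct ρ t u) := by
  refine ⟨fun a ha hga => ?_, fun a ha => ?_⟩
  · rw [ev_mem_act] at ha hga ⊢
    rw [map_smul] at hga
    exact h.1 _ ha hga
  · obtain ⟨s, hs, hsa⟩ := h.2 (ρ t⁻¹ a) fun n => by
      obtain ⟨c, hc, h1⟩ := ha n
      rw [ev_mem_act] at hc h1
      rw [map_sub, map_smul] at h1
      exact ⟨_, hc, h1⟩
    refine ⟨s, hs, ?_⟩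
    rwa [ev_mem_act, map_smul]

theorem ev_base [IsDomain R] [IsPrincipalIdealRing R] (x k : Submodule R M) (hk : k.FG) :
    ∃ f : R, f ≠ 0 ∧ ∀ g : R, Prime g → ¬ g ∣ f → evPi g x (x ⊔ k) := by
  let Q : Submodule R (M ⧸ x) := k.map x.mkQ
  have hQ : Module.Finite R Q := Module.Finite.iff_fg.mpr (hk.map _)
  have hT : Module.Finite R (Submodule.torsion R Q) := inferInstance
  obtain ⟨f, hf, hf0⟩ := Submodule.annihilator_top_inter_nonZeroDivisors
    (Submodule.torsion_isTorsion (R := R) (M := Q))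
  refine ⟨f, nonZeroDivisors.ne_zero hf0, fun g hg hgf => ev_sup ⟨fun a ha hga => ⟨ha, ?_⟩,
    fun a ha => ?_⟩⟩
  · let q : Q := ⟨x.mkQ a, Submodule.mem_map_of_mem ha⟩
    have h1 : g • q = 0 := Subtype.ext (by
      show g • x.mkQ a = 0
      rw [← map_smul]
      exact (Submodule.Quotient.mk_eq_zero x).mpr hga.2)
    have h2 : q ∈ Submodule.torsion R Q :=
      ⟨⟨g, mem_nonZeroDivisors_of_ne_zero hg.ne_zero⟩, h1⟩
    have h3 : f • q = 0 := congrArg Subtype.val
      (Submodule.mem_annihilator.mp hf ⟨q, h2⟩ Submodule.mem_top)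
    obtain ⟨s, t, hst⟩ := (hg.irreducible.coprime_iff_not_dvd).mpr hgf
    have h4 : q = 0 := by
      rw [← one_smul R q, ← hst, add_smul, mul_smul, mul_smul, h1, h3, smul_zero, smul_zero,
        add_zero]
    exact (Submodule.Quotient.mk_eq_zero x).mp (congrArg Subtype.val h4)
  · obtain ⟨c₀, hc₀, h₀⟩ := ha 0
    have hak : a ∈ k := by
      have := k.add_mem h₀.1 (k.smul_mem (g ^ 0) hc₀)
      rwa [sub_add_cancel] at this
    let q : Q := ⟨x.mkQ a, Submodule.mem_map_of_mem hak⟩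
    have h1 : q ∈ (⨅ n : ℕ, (Ideal.span {g}) ^ n • ⊤ : Submodule R Q) := by
      rw [Submodule.mem_iInf]
      intro n
      obtain ⟨c, hc, h2⟩ := ha n
      have e : q = g ^ n • (⟨x.mkQ c, Submodule.mem_map_of_mem hc⟩ : Q) := Subtype.ext (by
        show x.mkQ a = g ^ n • x.mkQ c
        rw [← map_smul, ← sub_eq_zero, ← map_sub]
        exact (Submodule.Quotient.mk_eq_zero x).mpr h2.2)
      rw [e]
      exact Submodule.smul_mem_smul (Ideal.pow_mem_pow (Ideal.mem_span_singleton_self g) n)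
        Submodule.mem_top
    obtain ⟨⟨r, hr⟩, hr'⟩ := (Ideal.mem_iInf_smul_pow_eq_bot_iff _ _).mp h1
    refine ⟨1 - r, fun h => hg.not_dvd_one ?_, k.smul_mem _ hak, ?_⟩
    · have := dvd_add h (Ideal.mem_span_singleton.mp hr)
      rwa [sub_add_cancel] at this
    · refine (Submodule.Quotient.mk_eq_zero x).mp ?_
      show x.mkQ ((1 - r) • a) = 0
      have h2 : r • x.mkQ a = x.mkQ a := congrArg Subtype.val hr'
      rw [map_smul, sub_smul, one_smul, h2, sub_self]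

theorem ev_pairs [IsDomain R] [IsPrincipalIdealRing R] (ρ : Representation R G M) {l : ℕ}
    {Γ : Subgroup G} (h : PC l Γ) (k : Submodule R M) (hk : k.FG) :
    ∀ x : Submodule R M, Fx (latAct ρ) Γ x → ∃ f : R, f ≠ 0 ∧ ∀ g : R, Prime g → ¬ g ∣ f →
      evPi g x (x ⊔ span (latAct ρ) Γ k) := by
  induction h with
  | bot =>
    intro x _
    rw [span_bot_subgroup]
    exact ev_base x k hk
  | @step l Γ' Γ t h' hs ih =>
    intro x hx
    have hN : Noeth (latAct ρ) Γ' := noeth_of_pc h' (noeth_bot_submodule ρ)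
    have hx' : Fx (latAct ρ) Γ' x := hx.mono hs.le
    set σ := latAct ρ with hσ
    set u : Submodule R M := x ⊔ span σ Γ' k with hu
    have hu' : Fx σ Γ' u := hx'.sup (fx_span _ _)
    have htn : ∀ n : ℤ, Nz (t ^ n) Γ' := fun n => (hs.norm t hs.mem).zpow n
    have hxt : ∀ n : ℤ, σ (t ^ n) x = x := fun n => hx _ (Γ.zpow_mem hs.mem n)
    -- the intervals `[I, u]`
    have hI : ∀ I : Submodule R M, Fx σ Γ' I → x ≤ I → I ≤ u → ∃ f : R, f ≠ 0 ∧ ∀ g : R, Prime g →
        ¬ g ∣ f → evPi g I u := by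
      intro I h1 h2 h3
      obtain ⟨f, hf, hf'⟩ := ih I h1
      refine ⟨f, hf, fun g hg hgf => ?_⟩
      have e : I ⊔ span σ Γ' k = u :=
        le_antisymm (sup_le h3 le_sup_right) (sup_le (h2.trans le_sup_left) le_sup_right)
      exact e ▸ hf' g hg hgf
    -- the upward chain
    let W : ℕ → Submodule R M := fun n => Nat.rec x (fun n w => w ⊔ σ (t ^ (n : ℤ)) u) n
    have hW0 : W 0 = x := rfl
    have hWs : ∀ n, W (n + 1) = W n ⊔ σ (t ^ (n : ℤ)) u := fun n => rfl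
    have hWm : Monotone W := monotone_nat_of_le_succ fun n => by rw [hWs]; exact le_sup_left
    have hWf : ∀ n, Fx σ Γ' (W n) := by
      intro n
      induction n with
      | zero => exact hx'
      | succ n ihn => exact ihn.sup (hu'.conj (htn n))
    have hWt : ∀ n, σ t (W n) ≤ W (n + 1) := by
      intro n
      induction n with
      | zero =>
        rw [hW0, hx t hs.mem]
        exact hWm (Nat.zero_le 1)
      | succ n ihn =>
        rw [hWs (n + 1), hWs n, map_sup, ← act_mul, ← zpow_one_add, add_comm (1 : ℤ)]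
        exact sup_le_sup (hWs n ▸ ihn) (le_of_eq (by rw [Nat.cast_succ]))
    let I : ℕ → Submodule R M := fun n => u ⊓ σ (t ^ (-(n : ℤ))) (W n)
    have hIf : ∀ n, Fx σ Γ' (I n) := fun n => hu'.inf ((hWf n).conj (htn _))
    have hIx : ∀ n, x ≤ I n := fun n => le_inf le_sup_left (by
      rw [← hxt (-(n : ℤ))]
      exact (σ _).monotone (hWm n.zero_le))
    have hIm : Monotone I := monotone_nat_of_le_succ fun n => inf_le_inf_left _ (by
      have e : t ^ (-(n : ℤ)) = t ^ (-((n + 1 : ℕ) : ℤ)) * t := by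
        rw [← zpow_add_one]
        congr 1
        push_cast
        ring
      rw [e, act_mul]
      exact (σ _).monotone (hWt n))
    obtain ⟨_, ⟨N, rfl⟩, hN'⟩ := hN x k hx' ((Submodule.fg_iff_compact k).mp hk) (Set.range I)
      (Set.range_nonempty I) (by
        rintro _ ⟨n, rfl⟩
        exact ⟨hIf n, hIx n, inf_le_left⟩)
    choose fI hfI hfI' using fun n => hI (I n) (hIf n) (hIx n) inf_le_left
    set A : Submodule R M := ⨆ n, W n with hA
    have hAf : Fx σ Γ' A := Fx.iSup hWf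
    have hAt : σ t A ≤ A := by
      rw [hA, OrderIso.map_iSup]
      exact iSup_le fun n => (hWt n).trans (le_iSup W (n + 1))
    have hxA : x ≤ σ t A := by
      rw [← hx t hs.mem]
      exact (σ t).monotone (le_iSup W 0)
    have hAe : σ t A ⊔ u = A := by
      refine le_antisymm (sup_le hAt ?_) (iSup_le fun n => ?_)
      · refine le_trans ?_ (le_iSup W (0 + 1))
        rw [hWs 0, Nat.cast_zero, zpow_zero, act_one]
        exact le_sup_right
      · induction n with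
        | zero => exact hxA.trans le_sup_left
        | succ n ihn =>
          rw [hWs]
          refine sup_le ihn ?_
          cases n with
          | zero =>
            rw [Nat.cast_zero, zpow_zero, act_one]
            exact le_sup_right
          | succ n =>
            refine le_trans ?_ le_sup_left
            rw [Nat.cast_succ, add_comm, zpow_one_add, act_mul]
            refine (σ t).monotone (le_trans ?_ (le_iSup W (n + 1)))
            rw [hWs]
            exact le_sup_right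
    obtain ⟨f₁, hf₁, hf₁'⟩ := hI (u ⊓ σ t A) (hu'.inf (hAf.conj (hs.norm t hs.mem)))
      (le_inf le_sup_left hxA) inf_le_left
    refine ⟨f₁ * ∏ n ∈ Finset.range (N + 1), fI n,
      mul_ne_zero hf₁ (Finset.prod_ne_zero_iff.mpr fun n _ => hfI n), fun g hg hgf => ?_⟩
    have hg1 : ¬ g ∣ f₁ := fun h => hgf (h.mul_right _)
    have hg2 : ∀ n, evPi g (I n) u := by
      have h1 : ∀ n ≤ N, evPi g (I n) u := fun n hn => hfI' n g hg fun h =>
        hgf ((h.trans (Finset.dvd_prod_of_mem fI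
          (Finset.mem_range.mpr (Nat.lt_succ_of_le hn)))).mul_left _)
      intro n
      rcases le_total n N with hn | hn
      · exact h1 n hn
      · rw [hN' (I n) ⟨n, rfl⟩ (hIm hn)]
        exact h1 N le_rfl
    have h3 : evPi g x A := by
      refine ev_iSup hg W hWm fun n => ?_
      rw [hWs]
      refine ev_sup ?_
      have h4 := ev_act ρ (t ^ (n : ℤ)) (hg2 n)
      have e : latAct ρ (t ^ (n : ℤ)) (I n) = σ (t ^ (n : ℤ)) u ⊓ W n := by
        rw [← hσ, map_inf, zpow_neg, act_act_inv]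
      rwa [e] at h4
    let B : ℕ → Submodule R M := fun n => σ (t ^ (-(n : ℤ))) A
    have hBs : ∀ n, B n = σ (t ^ (-((n + 1 : ℕ) : ℤ))) (σ t A) := fun n => by
      have e : t ^ (-(n : ℤ)) = t ^ (-((n + 1 : ℕ) : ℤ)) * t := by
        rw [← zpow_add_one]
        congr 1
        push_cast
        ring
      rw [← act_mul, ← e]
    have hBm : Monotone B := monotone_nat_of_le_succ fun n => by
      rw [hBs]
      exact (σ _).monotone hAt
    have hB0 : B 0 = A := by
      show σ (t ^ (-((0 : ℕ) : ℤ))) A = A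
      rw [Nat.cast_zero, neg_zero, zpow_zero, act_one]
    have h5 : evPi g A (⨆ n, B n) := by
      rw [← hB0]
      refine ev_iSup hg B hBm fun n => ?_
      rw [hBs]
      refine ev_act ρ _ ?_
      have h6 := ev_sup (hf₁' g hg hg1)
      rwa [hAe] at h6
    have e : x ⊔ span σ Γ k = ⨆ n, B n := by
      have hxA' : x ≤ A := le_iSup W 0
      have hfix : Fx σ Γ (x ⊔ span σ Γ k) := hx.sup (fx_span _ _)
      have huk : u ≤ x ⊔ span σ Γ k := sup_le_sup_left (span_mono hs.le le_rfl) _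
      refine le_antisymm (sup_le (hxA'.trans (hB0 ▸ le_iSup B 0)) ?_) (iSup_le fun n => ?_)
      · rw [← span_span hs.le, hs.span_eq (fx_span _ _)]
        refine iSup_le fun n => ?_
        refine le_trans ((σ _).monotone (le_sup_right : span σ Γ' k ≤ u)) ?_
        obtain ⟨m, rfl | rfl⟩ := n.eq_nat_or_neg
        · refine le_trans ?_ (le_iSup B 0)
          rw [hB0]
          refine le_trans ?_ (le_iSup W (m + 1))
          rw [hWs]
          exact le_sup_right
        · refine le_trans ((σ _).monotone ?_) (le_iSup B m)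
          rw [← hAe]
          exact le_sup_right
      · rw [← hfix _ (Γ.zpow_mem hs.mem (-(n : ℤ)))]
        refine (σ _).monotone (iSup_le fun j => ?_)
        induction j with
        | zero => exact le_sup_left
        | succ j ihj =>
          rw [hWs]
          refine sup_le ihj ?_
          rw [← hfix _ (Γ.zpow_mem hs.mem (j : ℤ))]
          exact (σ _).monotone huk
    rw [e]
    exact ev_trans hg (le_iSup W 0) h3 h5

end Sep

/-- P. Hall's generic freeness, in elementwise form. -/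
theorem generic_sep {R : Type*} [CommRing R] [IsDomain R] [IsPrincipalIdealRing R] {G : Type*}
    [Group G] {M : Type*} [AddCommGroup M] [Module R M] (ρ : Representation R G M) {l : ℕ}
    (h : PC l (⊤ : Subgroup G)) (hρ : FGRep ρ) :
    ∃ f : R, f ≠ 0 ∧ ∀ g : R, Prime g → ¬ g ∣ f → ∀ a : M, (∀ n : ℕ, ∃ c : M, a = g ^ n • c) →
      ∃ s : R, s ≠ 0 ∧ s • a = 0 := by
  obtain ⟨k, hk, hk'⟩ := hρ
  obtain ⟨f, hf, hf'⟩ := ev_pairs ρ h k hk ⊥ Fx.bot
  refine ⟨f, hf, fun g hg hgf a ha => ?_⟩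
  obtain ⟨s, hs, hsa⟩ := (hf' g hg hgf).2 a fun n => by
    obtain ⟨c, hc⟩ := ha n
    refine ⟨c, ?_, ?_⟩
    · rw [hk', bot_sup_eq]
      exact Submodule.mem_top
    · rw [hc, sub_self]
      exact Submodule.zero_mem _
  exact ⟨s, fun h0 => hs (h0 ▸ dvd_zero g), (Submodule.mem_bot R).mp hsa⟩

section Eig

theorem ev_central {K : Type*} [Group K] (Z : Subgroup K) [Z.Normal] [Finite Z] {e : ℕ}
    (he : 0 < e) (hZ : ∀ c ∈ Z, c ^ e = 1) {z : K} (hz : ∀ h, h * z * h⁻¹ * z⁻¹ ∈ Z) :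
    ∃ j, 0 < j ∧ ∀ h, Commute (z ^ j) h := by
  obtain ⟨r, hr, hr'⟩ := isOfFinOrder_iff_pow_eq_one.mp
    (isOfFinOrder_of_finite (MulAut.conjNormal z : MulAut Z))
  have h1 : ∀ c ∈ Z, Commute c (z ^ r) := by
    intro c hc
    rw [← map_pow] at hr'
    have h2 : ((MulAut.conjNormal (z ^ r) : MulAut Z) ⟨c, hc⟩ : K) = c := by rw [hr']; rfl
    rw [MulAut.conjNormal_apply] at h2
    exact (mul_inv_eq_iff_eq_mul.mp h2).symm
  refine ⟨r * e, Nat.mul_pos hr he, fun h => ?_⟩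
  have h2 : h * z ^ r * h⁻¹ * (z ^ r)⁻¹ ∈ Z := by
    have h3 : (QuotientGroup.mk' Z (h * z * h⁻¹)) = QuotientGroup.mk' Z z := by
      rw [← mul_inv_eq_one, ← map_inv, ← map_mul]
      exact (QuotientGroup.eq_one_iff _).mpr (hz h)
    refine (QuotientGroup.eq_one_iff _).mp ?_
    show QuotientGroup.mk' Z _ = 1
    rw [map_mul, map_inv, ← conj_pow, map_pow, h3, map_pow, mul_inv_cancel]
  have h4 : (h * z ^ r * h⁻¹) ^ e = (z ^ r) ^ e := by
    have e1 : h * z ^ r * h⁻¹ = (h * z ^ r * h⁻¹ * (z ^ r)⁻¹) * z ^ r := by group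
    rw [e1, (h1 _ h2).mul_pow, hZ _ h2, one_mul]
  rw [conj_pow, ← pow_mul] at h4
  exact (mul_inv_eq_iff_eq_mul.mp h4).symm

theorem ev_central_rep {H A : Type*} [Group H] [Monoid A] (ρ : H →* A) {l : ℕ} (Z : Subgroup H)
    [hn : Z.Normal] (hZ : PC l Z) {e : ℕ} (he : 0 < e) (hZe : ∀ c ∈ Z, ρ (c ^ e) = 1) {z : H}
    (hz : ∀ h, h * z * h⁻¹ * z⁻¹ ∈ Z) : ∃ j, 0 < j ∧ ∀ h, Commute (ρ (z ^ j)) (ρ h) := by
  let φ := ρ.toHomUnits.rangeRestrict
  have hφ : Function.Surjective φ := MonoidHom.rangeRestrict_surjective _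
  have hn' : (Z.map φ).Normal := hn.map φ hφ
  have h1 : ∀ c ∈ Z.map φ, c ^ e = 1 := by
    rintro _ ⟨c, hc, rfl⟩
    rw [← map_pow]
    exact Subtype.ext (Units.ext (hZe c hc))
  have hfin : Finite (Z.map φ) := ((hZ.map φ).finite_of_exponent he h1).1
  obtain ⟨j, hj, hj'⟩ := ev_central (Z.map φ) he h1 (z := φ z) fun h => by
    obtain ⟨h, rfl⟩ := hφ h
    exact ⟨_, hz h, by simp only [map_mul, map_inv]⟩
  refine ⟨j, hj, fun h => ?_⟩
  have h2 := hj' (φ h)
  rw [← map_pow, Commute, SemiconjBy, ← map_mul, ← map_mul] at h2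
  have h3 : ρ (z ^ j * h) = ρ (h * z ^ j) := congrArg (fun u => ((u.1 : Aˣ) : A)) h2
  rwa [map_mul, map_mul] at h3

theorem ev_exp_sup {H A : Type*} [Group H] [Monoid A] (ρ : H →* A) (Z : Subgroup H)
    [hn : Z.Normal] {e : ℕ} (hZe : ∀ c ∈ Z, ρ (c ^ e) = 1) {z : H} {N : ℕ}
    (hz : ρ (z ^ N) = 1) : ∀ y ∈ Z ⊔ Subgroup.zpowers z, ρ (y ^ (N * e)) = 1 := by
  intro y hy
  have hnz : Nz z Z := fun a => ⟨fun ha => hn.conj_mem a ha z, fun ha => by
    have := hn.conj_mem _ ha z⁻¹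
    simpa only [mul_assoc, inv_mul_cancel_left, inv_inv, inv_mul_cancel, mul_one] using this⟩
  obtain ⟨n, a, ha, rfl⟩ := (mem_sup_zpowers hnz y).mp hy
  have h1 : ((z ^ N) ^ n)⁻¹ * (z ^ n * a) ^ N ∈ Z := by
    refine (QuotientGroup.eq_one_iff _).mp ?_
    show QuotientGroup.mk' Z _ = 1
    have h2 : QuotientGroup.mk' Z a = 1 := (QuotientGroup.eq_one_iff _).mpr ha
    rw [map_mul, map_inv, map_pow, map_mul, h2, mul_one, ← map_pow, ← zpow_natCast, ← zpow_natCast,
      ← zpow_mul, ← zpow_mul, mul_comm, inv_mul_cancel]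
  have h3 : ρ ((z ^ N) ^ n) = 1 := ρ.ker.zpow_mem (MonoidHom.mem_ker.mpr hz) n
  have h4 : ρ ((z ^ n * a) ^ N) = ρ (((z ^ N) ^ n)⁻¹ * (z ^ n * a) ^ N) := by
    conv_lhs => rw [← mul_inv_cancel_left ((z ^ N) ^ n) ((z ^ n * a) ^ N), map_mul, h3, one_mul]
  rw [pow_mul, map_pow, h4, ← map_pow, hZe _ h1]

theorem ev_exists_central {H : Type*} [Group H] (hnil : Group.IsNilpotent H) {Z : Subgroup H}
    (hZ : Z ≠ ⊤) : ∃ z ∉ Z, ∀ h, z * h * z⁻¹ * h⁻¹ ∈ Z := by
  classical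
  have hex : ∃ i, ¬ Subgroup.upperCentralSeries H i ≤ Z := by
    obtain ⟨i, hi⟩ := hnil.nilpotent'
    exact ⟨i, fun h => hZ (top_le_iff.mp (hi ▸ h))⟩
  have h0 : Nat.find hex ≠ 0 := by
    intro h0
    have h1 := Nat.find_spec hex
    rw [h0, Subgroup.upperCentralSeries_zero] at h1
    exact h1 bot_le
  obtain ⟨i, hi⟩ := Nat.exists_eq_succ_of_ne_zero h0
  have h1 := Nat.find_spec hex
  rw [hi] at h1
  have h2 : Subgroup.upperCentralSeries H i ≤ Z := not_not.mp (Nat.find_min hex (by omega))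
  obtain ⟨z, hz, hz'⟩ := SetLike.not_le_iff_exists.mp h1
  exact ⟨z, hz', fun h => h2 (Subgroup.mem_upperCentralSeries_succ_iff.mp hz h)⟩

theorem ev_period {k : Type*} [Field k] [Finite k] {q : k[X]} (hq : q ≠ 0) :
    ∃ i d : ℕ, 0 < d ∧ q ∣ X ^ (i + d) - X ^ i := by
  have h1 : Module.Finite k (AdjoinRoot q) := (AdjoinRoot.powerBasis hq).finite
  have h2 : Finite (AdjoinRoot q) := Module.finite_of_finite k
  obtain ⟨i, j, hij, h⟩ := Finite.exists_ne_map_eq_of_infinite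
    fun n : ℕ => AdjoinRoot.mk q (X ^ n)
  rcases Nat.lt_or_gt_of_ne hij with h3 | h3
  · obtain ⟨d, rfl⟩ := Nat.exists_eq_add_of_lt h3
    exact ⟨i, d + 1, d.succ_pos, AdjoinRoot.mk_eq_mk.mp h.symm⟩
  · obtain ⟨d, rfl⟩ := Nat.exists_eq_add_of_lt h3
    exact ⟨j, d + 1, d.succ_pos, AdjoinRoot.mk_eq_mk.mp h⟩

section Gen
variable {R : Type*} [CommRing R] {G : Type*} [Group G] {M : Type*} [AddCommGroup M] [Module R M]

theorem ev_binom (T : Module.End R M) (W : Submodule R M) (hW : ∀ v ∈ W, T v ∈ W) {v : M}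
    (hv : v ∈ W) (j : ℕ) : ∃ u ∈ W, (T ^ j) v - v = (j : R) • (T - 1) v + (T - 1) ((T - 1) u) := by
  induction j with
  | zero => exact ⟨0, W.zero_mem, by simp⟩
  | succ j ih =>
    obtain ⟨u, hu, h⟩ := ih
    refine ⟨(j : R) • v + T u, W.add_mem (W.smul_mem _ hv) (hW u hu), ?_⟩
    have e : (T ^ j) v = v + ((j : R) • (T - 1) v + (T - 1) ((T - 1) u)) := by
      rw [← h, add_sub_cancel]
    rw [pow_succ', Module.End.mul_apply, e]
    simp only [LinearMap.sub_apply, Module.End.one_apply, map_add, map_sub, map_smul, smul_sub,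
      Nat.cast_succ, add_smul, one_smul]
    abel

theorem ev_fg_iff (ρ : Representation R G M) : FGRep ρ ↔ ∃ k : Submodule R M, k.FG ∧
    ∀ W : Submodule R M, (∀ g, ∀ a ∈ W, ρ g a ∈ W) → k ≤ W → W = ⊤ := by
  refine exists_congr fun k => and_congr_right fun _ => ⟨fun h W hW hk => ?_, fun h => ?_⟩
  · rw [eq_top_iff, ← h]
    exact span_le ((fx_latAct_iff ρ ⊤ W).mpr fun g _ => hW g) hk
  · exact h _ (fun g => (fx_latAct_iff ρ ⊤ _).mp (fx_span ⊤ k) g (Subgroup.mem_top g))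
      (le_span ⊤ k)

theorem ev_fg_quot {ρ : Representation R G M} (hρ : FGRep ρ) (W : Submodule R M)
    (hW : ∀ g, W ≤ W.comap (ρ g)) : FGRep (ρ.quotient W hW) := by
  obtain ⟨k, hk, h⟩ := (ev_fg_iff ρ).mp hρ
  refine (ev_fg_iff _).mpr ⟨k.map W.mkQ, hk.map _, fun V hV hkV => ?_⟩
  have h1 := h (V.comap W.mkQ) (fun g a ha => hV g _ ha) (Submodule.map_le_iff_le_comap.mp hkV)
  rw [eq_top_iff]
  intro a _
  obtain ⟨a, rfl⟩ := W.mkQ_surjective a
  exact (h1.ge Submodule.mem_top :)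

theorem ev_fg_sub (ρ : Representation R G M) (W : Submodule R M)
    (hW : ∀ g, W ≤ W.comap (ρ g)) {k : Submodule R M} (hk : k.FG)
    (hkW : span (latAct ρ) ⊤ k = W) : FGRep (ρ.subrepresentation W hW) := by
  have hle : k ≤ W := hkW ▸ le_span ⊤ k
  have e : (k.comap W.subtype).map W.subtype = k := by
    rw [Submodule.map_comap_subtype, inf_eq_right.mpr hle]
  refine (ev_fg_iff _).mpr ⟨k.comap W.subtype,
    Submodule.fg_of_fg_map_injective W.subtype W.subtype_injective (e.symm ▸ hk),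
    fun V hV hkV => ?_⟩
  have h1 : W ≤ V.map W.subtype := by
    refine hkW.ge.trans (span_le ((fx_latAct_iff ρ ⊤ _).mpr ?_) ?_)
    · rintro g - _ ⟨a, ha, rfl⟩
      exact ⟨_, hV g a ha, rfl⟩
    · exact e.ge.trans (Submodule.map_mono hkV)
  rw [eq_top_iff]
  intro a _
  obtain ⟨b, hb, h2⟩ := h1 a.2
  rwa [← Subtype.ext h2]

/-- the `R[X]`-representation attached to a central endomorphism. -/
noncomputable def evRep (ρ : Representation R G M) (w : Module.End R M)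
    (hw : ∀ g, Commute w (ρ g)) : Representation R[X] G (Module.AEval' w) where
  toFun g := LinearMap.ofAEval w ((Module.AEval'.of w).toLinearMap ∘ₗ ρ g) fun m => by
    show Module.AEval'.of w (ρ g (w m)) = (X : R[X]) • Module.AEval'.of w (ρ g m)
    rw [Module.AEval'.X_smul_of, ← Module.End.mul_apply, ← (hw g).eq, Module.End.mul_apply]
  map_one' := LinearMap.ext fun m => by
    show Module.AEval'.of w (ρ 1 ((Module.AEval'.of w).symm m)) = m
    rw [map_one, Module.End.one_apply, LinearEquiv.apply_symm_apply]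
  map_mul' g h := LinearMap.ext fun m => by
    show Module.AEval'.of w (ρ (g * h) ((Module.AEval'.of w).symm m)) = Module.AEval'.of w (ρ g
      ((Module.AEval'.of w).symm (Module.AEval'.of w (ρ h ((Module.AEval'.of w).symm m)))))
    rw [map_mul, Module.End.mul_apply, LinearEquiv.symm_apply_apply]

theorem ev_fg_rep {ρ : Representation R G M} (hρ : FGRep ρ) (w : Module.End R M)
    (hw : ∀ g, Commute w (ρ g)) : FGRep (evRep ρ w hw) := by
  obtain ⟨k, ⟨S, rfl⟩, h⟩ := (ev_fg_iff ρ).mp hρ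
  refine (ev_fg_iff _).mpr ⟨Submodule.span R[X] (Module.AEval'.of w '' (S : Set M)),
    Submodule.fg_span (S.finite_toSet.image _), fun V hV hkV => ?_⟩
  have h1 := h ((V.restrictScalars R).comap (Module.AEval'.of w).toLinearMap)
    (fun g a ha => hV g _ ha)
    (Submodule.span_le.mpr fun a ha => hkV (Submodule.subset_span ⟨a, ha, rfl⟩))
  rw [eq_top_iff]
  intro a _
  obtain ⟨a, rfl⟩ := (Module.AEval'.of w).surjective a
  exact (h1.ge Submodule.mem_top :)

theorem ev_comm_aeval {w T : Module.End R M} (h : Commute w T) (q : R[X]) :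
    Commute (aeval w q) T := by
  refine Polynomial.induction_on q (fun c => ?_) (fun p q hp hq => ?_) fun n c hc => ?_
  · rw [aeval_C]
    exact Algebra.commutes c T
  · rw [map_add]
    exact hp.add_left hq
  · rw [pow_succ, ← mul_assoc, map_mul, aeval_X]
    exact hc.mul_left h

end Gen

variable {p : ℕ} [Fact p.Prime] {H : Type} [Group H]

theorem ev_cast_ne {n : ℕ} (hn : Nat.Coprime n p) : (n : ZMod p) ≠ 0 := by
  rw [Ne, ZMod.natCast_eq_zero_iff]
  exact (Nat.Prime.coprime_iff_not_dvd Fact.out).mp hn.symm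

theorem ev_ext {V : Type} [AddCommGroup V] [Module (ZMod p) V] (ρ : Representation (ZMod p) H V)
    (W : Submodule (ZMod p) V) {m₁ m₂ : ℕ} (h₁ : EigP ρ p m₁ ⊤ ⊥ W) (h₂ : EigP ρ p m₂ ⊤ W ⊤)
    (hW : ∀ g, ∀ a ∈ W, ρ g a ∈ W) : EigP ρ p (m₁ * m₂) ⊤ ⊥ ⊤ := by
  intro h hh a _ n hn ha
  rw [Submodule.mem_bot, sub_eq_zero] at ha ⊢
  have hfix : ∀ (u : H) (v : V) (j : ℕ), ρ u v = v → ρ (u ^ j) v = v := by
    intro u v j hv
    induction j with
    | zero => rw [pow_zero, map_one, Module.End.one_apply]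
    | succ j ih => rw [pow_succ, map_mul, Module.End.mul_apply, hv, ih]
  have hcomm : ∀ (i j : ℕ) (v : V), ρ (h ^ i) (ρ (h ^ j) v) = ρ (h ^ j) (ρ (h ^ i) v) := by
    intro i j v
    rw [← Module.End.mul_apply, ← map_mul, ← pow_add, add_comm, pow_add, map_mul,
      Module.End.mul_apply]
  set T := ρ (h ^ (m₁ * m₂)) with hT
  have h3 : ρ (h ^ m₂) a - a ∈ W := h₂ h hh a Submodule.mem_top n hn (by
    rw [ha, sub_self]
    exact W.zero_mem)
  have h4 : ∀ j : ℕ, ρ (h ^ (j * m₂)) a - a ∈ W := by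
    intro j
    induction j with
    | zero =>
      rw [zero_mul, pow_zero, map_one, Module.End.one_apply, sub_self]
      exact W.zero_mem
    | succ j ih =>
      have := W.add_mem (hW (h ^ (j * m₂)) _ h3) ih
      rwa [map_sub, sub_add_sub_cancel, ← Module.End.mul_apply, ← map_mul, ← pow_add,
        ← Nat.succ_mul] at this
  have h5 : ρ (h ^ m₁) (T a - a) = T a - a := by
    have := h₁ h hh _ (h4 m₁) n hn (by
      rw [Submodule.mem_bot, sub_eq_zero, map_sub, hcomm, ha])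
    rwa [Submodule.mem_bot, sub_eq_zero] at this
  have h6 : (T - 1) ((T - 1) a) = 0 := by
    have := hfix _ _ m₂ h5
    rw [← pow_mul, ← hT, ← sub_eq_zero] at this
    exact this
  obtain ⟨u, hu, h7⟩ := ev_binom T (LinearMap.ker ((T - 1) * (T - 1))) (fun v hv => by
    rw [LinearMap.mem_ker] at hv ⊢
    have hc : Commute ((T - 1) * (T - 1)) T :=
      ((Commute.refl T).sub_left (Commute.one_left T)).mul_left
        ((Commute.refl T).sub_left (Commute.one_left T))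
    rw [← Module.End.mul_apply, hc.eq, Module.End.mul_apply, hv, map_zero]) (v := a)
      (LinearMap.mem_ker.mpr h6) n
  have h8 : (T ^ n) a = a := by
    rw [hT, ← map_pow, ← pow_mul, mul_comm, pow_mul]
    exact hfix _ _ _ ha
  have hu' : (T - 1) ((T - 1) u) = 0 := hu
  rw [h8, sub_self, hu', add_zero, eq_comm, smul_eq_zero] at h7
  exact sub_eq_zero.mp (h7.resolve_left (ev_cast_ne hn))

theorem ev_free {V : Type} [AddCommGroup V] [Module (ZMod p) V] (ρ : Representation (ZMod p) H V)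
    {l : ℕ} (hH : PC l (⊤ : Subgroup H)) (hρ : FGRep ρ) (w : Module.End (ZMod p) V)
    (hw : ∀ g, Commute w (ρ g)) (htf : ∀ q : (ZMod p)[X], q ≠ 0 → ∀ a, aeval w q a = 0 → a = 0)
    (hq : ∀ X : Submodule (ZMod p) V, (∀ g, ∀ a ∈ X, ρ g a ∈ X) → X ≠ ⊥ →
      ∃ m, 0 < m ∧ EigP ρ p m ⊤ X ⊤) : ∃ m, 0 < m ∧ EigP ρ p m ⊤ ⊥ ⊤ := by
  rcases subsingleton_or_nontrivial V with hV | hV
  · exact ⟨1, one_pos, fun h _ a _ n _ _ => Subsingleton.elim _ _⟩
  obtain ⟨f, hf, hf'⟩ := generic_sep (evRep ρ w hw) hH (ev_fg_rep hρ w hw)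
  obtain ⟨g, hg, hgf⟩ : ∃ g : (ZMod p)[X], Prime g ∧ ¬ g ∣ f := by
    have h1 : 0 < (X * f + 1 : (ZMod p)[X]).natDegree := by
      rw [← C_1, natDegree_add_C, natDegree_X_mul hf]
      exact Nat.succ_pos _
    obtain ⟨g, hg, hg'⟩ := exists_irreducible_of_natDegree_pos h1
    refine ⟨g, hg.prime, fun h => hg.prime.not_dvd_one ?_⟩
    exact (dvd_add_right (h.mul_left X)).mp hg'
  have hgc : ∀ u, Commute (aeval w g) (ρ u) := fun u => ev_comm_aeval (hw u) g
  have hgc' : ∀ u v, aeval w g (ρ u v) = ρ u (aeval w g v) := fun u v => by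
    rw [← Module.End.mul_apply, (hgc u).eq, Module.End.mul_apply]
  obtain ⟨m, hm, hm'⟩ := hq (LinearMap.range (aeval w g)) (by
    rintro u _ ⟨v, rfl⟩
    exact ⟨ρ u v, hgc' u v⟩) (by
    intro h0
    obtain ⟨v, hv⟩ := exists_ne (0 : V)
    exact hv (htf g hg.ne_zero v ((Submodule.eq_bot_iff _).mp h0 _ ⟨v, rfl⟩)))
  refine ⟨m, hm, fun h hh a _ n hn ha => ?_⟩
  rw [Submodule.mem_bot] at ha ⊢
  set T := ρ (h ^ m) with hT
  let W : Submodule (ZMod p) V := LinearMap.ker (ρ (h ^ n) - 1)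
  have hW : ∀ v, v ∈ W ↔ ρ (h ^ n) v = v := fun v => by
    rw [← sub_eq_zero]
    rfl
  have hWT : ∀ v ∈ W, T v ∈ W := fun v hv => by
    rw [hW] at hv ⊢
    rw [hT, ← Module.End.mul_apply, ← map_mul, ← pow_add, add_comm, pow_add, map_mul,
      Module.End.mul_apply, hv]
  have hTn : ∀ v ∈ W, (T ^ n) v = v := fun v hv => by
    rw [hW] at hv
    rw [hT, ← map_pow, ← pow_mul, mul_comm, pow_mul, map_pow]
    clear hm hm' hT hWT
    induction m with
    | zero => rw [pow_zero, Module.End.one_apply]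
    | succ j ih => rw [pow_succ, Module.End.mul_apply, hv, ih]
  have h1 : ∀ v ∈ W, ∃ v' ∈ W, (T - 1) v = aeval w g v' := fun v hv => by
    obtain ⟨v', hv'⟩ := hm' h hh v Submodule.mem_top n hn (by
      rw [(hW v).mp hv, sub_self]
      exact Submodule.zero_mem _)
    refine ⟨v', ?_, hv'.symm⟩
    rw [hW, ← sub_eq_zero]
    refine htf g hg.ne_zero _ ?_
    rw [map_sub, hgc', hv', sub_eq_zero, ← hW]
    exact W.sub_mem (hWT v hv) hv
  have h2 : ∀ v ∈ W, ∃ v' ∈ W, (T - 1) v = aeval w g ((T - 1) v') := fun v hv => by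
    obtain ⟨u, hu, h3⟩ := ev_binom T W hWT hv n
    rw [hTn v hv, sub_self, eq_comm, add_eq_zero_iff_eq_neg] at h3
    obtain ⟨u', hu', h4⟩ := h1 u hu
    refine ⟨-((n : ZMod p)⁻¹ • u'), W.neg_mem (W.smul_mem _ hu'), ?_⟩
    have h5 : (T - 1) (aeval w g u') = aeval w g ((T - 1) u') := by
      simp only [LinearMap.sub_apply, Module.End.one_apply, map_sub, hT, hgc']
    rw [map_neg, map_neg, map_smul, map_smul, ← h5, ← h4, ← smul_neg, ← h3, smul_smul,
      inv_mul_cancel₀ (ev_cast_ne hn), one_smul]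
  have h3 : ∀ N : ℕ, ∃ v' ∈ W, (T - 1) a = aeval w (g ^ N) ((T - 1) v') := by
    intro N
    induction N with
    | zero => exact ⟨a, ha, by rw [pow_zero, map_one, Module.End.one_apply]⟩
    | succ N ih =>
      obtain ⟨v, hv, h4⟩ := ih
      obtain ⟨v', hv', h5⟩ := h2 v hv
      exact ⟨v', hv', by rw [h4, h5, pow_succ, map_mul, Module.End.mul_apply]⟩
  obtain ⟨s, hs, hs'⟩ := hf' g hg hgf (Module.AEval'.of w ((T - 1) a)) fun N => by
    obtain ⟨v, -, h4⟩ := h3 N
    exact ⟨Module.AEval'.of w ((T - 1) v), by rw [h4]; rfl⟩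
  exact htf s hs _ hs'

/-- the statement proved by downward induction on the normal subgroup `Z`. -/
def evP (p : ℕ) [Fact p.Prime] {H : Type} [Group H] (Z : Subgroup H) : Prop :=
  ∀ (V : Type) [AddCommGroup V] [Module (ZMod p) V] (ρ : Representation (ZMod p) H V), FGRep ρ →
    ∀ e : ℕ, 0 < e → (∀ c ∈ Z, ρ (c ^ e) = 1) → ∃ m, 0 < m ∧ EigP ρ p m ⊤ ⊥ ⊤

theorem ev_key {l : ℕ} (hH : PC l (⊤ : Subgroup H)) (Z : Subgroup H) [Z.Normal] {z : H}
    (hz : ∀ h, h * z * h⁻¹ * z⁻¹ ∈ Z) (hP : evP p (Z ⊔ Subgroup.zpowers z))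
    {V : Type} [AddCommGroup V] [Module (ZMod p) V] (ρ : Representation (ZMod p) H V)
    (hρ : FGRep ρ) {e : ℕ} (he : 0 < e) (hZe : ∀ c ∈ Z, ρ (c ^ e) = 1)
    (hq : ∀ X : Submodule (ZMod p) V, (∀ g, ∀ a ∈ X, ρ g a ∈ X) → X ≠ ⊥ →
      ∃ m, 0 < m ∧ EigP ρ p m ⊤ X ⊤) : ∃ m, 0 < m ∧ EigP ρ p m ⊤ ⊥ ⊤ := by
  obtain ⟨j, hj, hw⟩ := ev_central_rep ρ Z (hH.sub le_top) he hZe hz
  set w := ρ (z ^ j) with hwj
  by_cases htf : ∀ q : (ZMod p)[X], q ≠ 0 → ∀ a, aeval w q a = 0 → a = 0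
  · exact ev_free ρ hH hρ w hw htf hq
  push Not at htf
  obtain ⟨q, hq0, a₀, ha₀, ha₀'⟩ := htf
  let W : Submodule (ZMod p) V := LinearMap.ker (aeval w q)
  have hW : ∀ g, ∀ a ∈ W, ρ g a ∈ W := fun g a ha => by
    rw [LinearMap.mem_ker] at ha ⊢
    rw [← Module.End.mul_apply, (ev_comm_aeval (hw g) q).eq, Module.End.mul_apply, ha, map_zero]
  obtain ⟨m₂, hm₂, h₂⟩ := hq W hW fun h0 => ha₀' ((Submodule.eq_bot_iff _).mp h0 _ ha₀)
  obtain ⟨k, hk, hkW⟩ := FGRep.sub_fg hH hρ W ((fx_latAct_iff ρ ⊤ W).mpr fun g _ => hW g)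
  obtain ⟨i, d, hd, r, hr⟩ := ev_period hq0
  have h1 : (ρ.subrepresentation W hW) (z ^ (j * d)) = 1 := by
    refine LinearMap.ext fun v => Subtype.ext ?_
    show ρ (z ^ (j * d)) v = v
    have h2 : aeval w (X ^ (i + d) - X ^ i : (ZMod p)[X]) v = 0 := by
      rw [hr, mul_comm, map_mul, Module.End.mul_apply, LinearMap.mem_ker.mp v.2, map_zero]
    rw [map_sub, map_pow, map_pow, aeval_X, LinearMap.sub_apply, sub_eq_zero, hwj, ← map_pow,
      ← map_pow, pow_add, ← pow_mul z j d, map_mul, Module.End.mul_apply] at h2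
    have h3 := congrArg (ρ ((z ^ j) ^ i)⁻¹) h2
    rwa [← Module.End.mul_apply, ← Module.End.mul_apply (ρ ((z ^ j) ^ i)⁻¹), ← map_mul,
      inv_mul_cancel, map_one, Module.End.one_apply, Module.End.one_apply] at h3
  obtain ⟨m₁, hm₁, h₁⟩ := hP W (ρ.subrepresentation W hW) (ev_fg_sub ρ W hW hk hkW) (j * d * e)
    (Nat.mul_pos (Nat.mul_pos hj hd) he)
    (ev_exp_sup (ρ.subrepresentation W hW) Z (fun c hc => LinearMap.ext fun v => Subtype.ext (by
      show ρ (c ^ e) v = v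
      rw [hZe c hc, Module.End.one_apply])) h1)
  refine ⟨m₁ * m₂, Nat.mul_pos hm₁ hm₂, ev_ext ρ W (fun h hh a ha n hn h4 => ?_) h₂ hW⟩
  exact congrArg Subtype.val
    ((Submodule.mem_bot _).mp (h₁ h hh ⟨a, ha⟩ Submodule.mem_top n hn (Subtype.ext h4)))

theorem ev_step {l : ℕ} (hH : PC l (⊤ : Subgroup H)) (Z : Subgroup H) [Z.Normal] {z : H}
    (hz : ∀ h, h * z * h⁻¹ * z⁻¹ ∈ Z) (hP : evP p (Z ⊔ Subgroup.zpowers z)) : evP p Z := by
  intro V _ _ ρ hρ e he hZe
  by_contra hcon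
  obtain ⟨X, ⟨hX, hX'⟩, hmax⟩ := FGRep.acc hH hρ
    {X | (∀ g, ∀ a ∈ X, ρ g a ∈ X) ∧ ¬ ∃ m, 0 < m ∧ EigP ρ p m ⊤ X ⊤}
    ⟨⊥, fun g a ha => by rw [(Submodule.mem_bot _).mp ha, map_zero]; exact Submodule.zero_mem _,
      hcon⟩ fun U hU => (fx_latAct_iff ρ ⊤ U).mpr fun g _ => hU.1 g
  obtain ⟨m, hm, hm'⟩ := ev_key hH Z hz hP (ρ.quotient X hX) (ev_fg_quot hρ X hX) he
    (fun c hc => LinearMap.ext fun v => by
      obtain ⟨v, rfl⟩ := X.mkQ_surjective v
      show X.mkQ (ρ (c ^ e) v) = X.mkQ v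
      rw [hZe c hc, Module.End.one_apply]) fun Y hY hY0 => by
    by_contra hc
    have h1 : Y.comap X.mkQ = X := hmax _ ⟨fun g a ha => hY g _ ha, fun ⟨m, hm, hm'⟩ =>
      hc ⟨m, hm, fun h hh a _ n hn h2 => by
        obtain ⟨a, rfl⟩ := X.mkQ_surjective a
        exact hm' h hh a Submodule.mem_top n hn h2⟩⟩ fun a ha => by
      rw [Submodule.mem_comap, show X.mkQ a = 0 from (Submodule.Quotient.mk_eq_zero X).mpr ha]
      exact Y.zero_mem
    refine hY0 ((Submodule.eq_bot_iff _).mpr fun a ha => ?_)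
    obtain ⟨a, rfl⟩ := X.mkQ_surjective a
    exact (Submodule.Quotient.mk_eq_zero X).mpr (h1.le ha)
  refine hX' ⟨m, hm, fun h hh a _ n hn h2 => (Submodule.Quotient.mk_eq_zero X).mp ?_⟩
  exact hm' h hh (X.mkQ a) Submodule.mem_top n hn ((Submodule.Quotient.mk_eq_zero X).mpr h2)

theorem ev_all {l : ℕ} (hH : PC l (⊤ : Subgroup H)) (hnil : Group.IsNilpotent H) :
    evP p (⊥ : Subgroup H) := by
  by_contra hcon
  obtain ⟨Z, ⟨hn, hZ⟩, hmax⟩ := hH.acc {Z | Z.Normal ∧ ¬ evP p Z} ⟨⊥, inferInstance, hcon⟩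
    fun _ _ => le_top
  have hne : Z ≠ ⊤ := by
    rintro rfl
    refine hZ fun V _ _ ρ _ e he h => ⟨e, he, fun g hg a _ _ _ _ => ?_⟩
    rw [h g hg, Module.End.one_apply, sub_self]
    exact Submodule.zero_mem _
  obtain ⟨z, hz, hz'⟩ := ev_exists_central hnil hne
  have hz'' : ∀ h, h * z * h⁻¹ * z⁻¹ ∈ Z := fun h => by
    have := Z.inv_mem (hz' h)
    simpa only [mul_inv_rev, inv_inv, mul_assoc] using this
  refine hZ (ev_step hH Z hz'' ?_)
  by_contra hc
  have hzm : z ∈ Z ⊔ Subgroup.zpowers z := Subgroup.mem_sup_right (Subgroup.mem_zpowers z)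
  refine hz (hmax _ ⟨⟨fun y hy h => ?_⟩, hc⟩ le_sup_left ▸ hzm)
  have h1 : Z ⊔ Subgroup.zpowers z ≤ (Z ⊔ Subgroup.zpowers z).comap (MulAut.conj h).toMonoidHom := by
    refine sup_le (fun c hc => Subgroup.mem_sup_left (hn.conj_mem c hc h)) ?_
    rw [Subgroup.zpowers_le]
    have := (Z ⊔ Subgroup.zpowers z).mul_mem (Subgroup.mem_sup_left (hz'' h)) hzm
    rwa [inv_mul_cancel_right] at this
  exact h1 hy

end Eig

/-- roots of unity occurring as eigenvalues have bounded order. -/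
theorem eigP_exists {p : ℕ} [Fact p.Prime] {G : Type} [Group G] {M : Type} [AddCommGroup M]
    [Module (ZMod p) M] (ρ : Representation (ZMod p) G M) {l : ℕ} {N : Subgroup G} (h : PC l N)
    (hnil : Group.IsNilpotent N) (U : Submodule (ZMod p) M) (hU : U.FG) :
    ∃ m : ℕ, 0 < m ∧ EigP ρ p m N ⊥ (span (latAct ρ) N U) := by
  let ρN : Representation (ZMod p) N M := ρ.comp N.subtype
  have e : span (latAct ρN) ⊤ U = span (latAct ρ) N U :=
    le_antisymm (tr_le_iff.mpr fun g _ => le_tr (ρ := latAct ρ) g.2 U)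
      (tr_le_iff.mpr fun g hg => le_tr (ρ := latAct ρN) (g := ⟨g, hg⟩) (Subgroup.mem_top _) U)
  have hW : ∀ g : N, span (latAct ρ) N U ≤ (span (latAct ρ) N U).comap (ρN g) := fun g =>
    (fx_latAct_iff ρ N _).mp (fx_span N U) g g.2
  obtain ⟨m, hm, hm'⟩ := ev_all (p := p) h.top hnil _ (ρN.subrepresentation _ hW)
    (ev_fg_sub ρN _ hW hU e) 1 one_pos fun c hc => by
      rw [Subgroup.mem_bot.mp hc, one_pow, map_one]
  refine ⟨m, hm, fun g hg a ha n hn h1 => ?_⟩
  exact congrArg Subtype.val ((Submodule.mem_bot _).mp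
    (hm' ⟨g, hg⟩ (Subgroup.mem_top _) ⟨a, ha⟩ Submodule.mem_top n hn (Subtype.ext h1)))

end Pool.Agent.Lib.MP_36fb39_al
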