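import Pool.Agent.Lib.MP_36fb39_al.Nil
import Pool.Agent.Lib.MP_36fb39_al.Hall

set_option autoImplicit false

namespace Pool.Agent.Lib.MP_36fb39_al

open scoped commutatorElement TensorProduct

section Cover
variable {G : Type*} [Group G]

theorem lkm_relIndex_of_cover {H K : Subgroup G} (F : Set G) (hF : F.Finite)
    (h : ∀ g ∈ K, ∃ f ∈ F, f⁻¹ * g ∈ H) : H.relIndex K ≠ 0 := by
  classical
  have : Finite F := hF
  let pick : F → K := fun f => if hf : ∃ g : K, (f : G)⁻¹ * g ∈ H then hf.choose else 1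
  have hsurj : Function.Surjective
      (fun f : F => (QuotientGroup.mk (pick f) : K ⧸ H.subgroupOf K)) := by
    intro q
    obtain ⟨g, rfl⟩ := QuotientGroup.mk_surjective q
    obtain ⟨f, hf, hfg⟩ := h g g.2
    refine ⟨⟨f, hf⟩, ?_⟩
    have hex : ∃ g : K, f⁻¹ * g ∈ H := ⟨g, hfg⟩
    have hp : f⁻¹ * (pick ⟨f, hf⟩ : G) ∈ H := by
      simp only [pick, dif_pos hex]
      exact hex.choose_spec
    rw [QuotientGroup.eq, Subgroup.mem_subgroupOf]
    have := H.mul_mem (H.inv_mem hp) hfg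
    simpa [mul_assoc] using this
  have : Finite (K ⧸ H.subgroupOf K) := Finite.of_surjective _ hsurj
  exact Subgroup.index_ne_zero_of_finite

theorem lkm_cover_of_relIndex {H K : Subgroup G} (h : H.relIndex K ≠ 0) :
    ∃ F : Set G, F.Finite ∧ ∀ g ∈ K, ∃ f ∈ F, f⁻¹ * g ∈ H := by
  have : Finite (K ⧸ H.subgroupOf K) := Subgroup.index_ne_zero_iff_finite.mp h
  refine ⟨Set.range fun q : K ⧸ H.subgroupOf K => ((Quotient.out q : K) : G),
    Set.finite_range _, fun g hg => ?_⟩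
  refine ⟨_, ⟨QuotientGroup.mk ⟨g, hg⟩, rfl⟩, ?_⟩
  have h1 : (QuotientGroup.mk (Quotient.out (QuotientGroup.mk ⟨g, hg⟩ : K ⧸ H.subgroupOf K)) :
      K ⧸ H.subgroupOf K) = QuotientGroup.mk ⟨g, hg⟩ := QuotientGroup.out_eq' _
  rw [QuotientGroup.eq, Subgroup.mem_subgroupOf] at h1
  simpa using h1

theorem lkm_relIndex_step {Γ' Γ Γ₁ : Subgroup G} {t : G} (h : CStep Γ' Γ t)
    (hi : Γ₁.relIndex Γ' ≠ 0) {r : ℕ} (hr : 0 < r) :
    (Γ₁ ⊔ Subgroup.zpowers (t ^ r)).relIndex Γ ≠ 0 := by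
  obtain ⟨F, hF, hcov⟩ := lkm_cover_of_relIndex hi
  refine lkm_relIndex_of_cover
    ((fun p : ℤ × G => t ^ p.1 * p.2) '' (Set.Ico (0 : ℤ) r ×ˢ F))
    (((Set.finite_Ico _ _).prod hF).image _) fun g hg => ?_
  obtain ⟨n, a, ha, rfl⟩ := h.gen g hg
  have hr' : (0 : ℤ) < r := by exact_mod_cast hr
  set u : G := (t ^ r) ^ (n / r) with hu
  have huΓ : u ∈ Γ := Γ.zpow_mem (Γ.pow_mem h.mem r) _
  have ha' : u * a * u⁻¹ ∈ Γ' := (h.norm u huΓ a).mp ha
  obtain ⟨f, hf, hfa⟩ := hcov _ ha'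
  refine ⟨t ^ (n % r) * f, ⟨(n % r, f), ⟨⟨Int.emod_nonneg _ hr'.ne', Int.emod_lt_of_pos _ hr'⟩, hf⟩,
    rfl⟩, ?_⟩
  have hn : t ^ n = t ^ (n % r) * u := by
    rw [hu, ← zpow_natCast, ← zpow_mul, ← zpow_add, Int.emod_add_mul_ediv]
  have e : (t ^ (n % r) * f)⁻¹ * (t ^ n * a) = (f⁻¹ * (u * a * u⁻¹)) * u := by
    rw [hn]; group
  rw [e]
  exact Subgroup.mul_mem_sup hfa (Subgroup.zpow_mem_zpowers _ _)

end Cover

theorem lkm_eigen_zpow {k : Type*} [Field k] {G : Type*} [Group G] {V : Type*}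
    [AddCommGroup V] [Module k V] (ρ : Representation k G V) {g : G} {w : V} (hw : w ≠ 0) {c : k}
    (hc : ρ g w = c • w) (n : ℤ) : ∃ c' : k, ρ (g ^ n) w = c' • w := by
  have hc0 : c ≠ 0 := by
    rintro rfl
    apply hw
    have : ρ g⁻¹ (ρ g w) = w := by simp
    rw [← this, hc]; simp
  have hinv : ρ g⁻¹ w = c⁻¹ • w := by
    have : ρ g⁻¹ (ρ g w) = w := by simp
    rw [hc, map_smul] at this
    rw [eq_inv_smul_iff₀ hc0, this]
  induction n using Int.induction_on with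
  | zero => exact ⟨1, by simp⟩
  | succ n ih =>
    obtain ⟨c', hc'⟩ := ih
    refine ⟨c * c', ?_⟩
    rw [zpow_add_one, map_mul, Module.End.mul_apply, hc, map_smul, hc', smul_smul]
  | pred n ih =>
    obtain ⟨c', hc'⟩ := ih
    refine ⟨c⁻¹ * c', ?_⟩
    rw [zpow_sub_one, map_mul, Module.End.mul_apply, hinv, map_smul, hc', smul_smul]

/-- Lie-Kolchin-Malcev for polycyclic groups: a common eigenvector of a finite index subgroup. -/
theorem exists_eigen {k : Type*} [Field k] [IsAlgClosed k] {G : Type*} [Group G] {V : Type*}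
    [AddCommGroup V] [Module k V] [FiniteDimensional k V] [Nontrivial V]
    (ρ : Representation k G V) {l : ℕ} {Γ : Subgroup G} (h : PC l Γ) :
    ∃ Γ₀ ≤ Γ, Γ₀.relIndex Γ ≠ 0 ∧ ∃ v : V, v ≠ 0 ∧ ∀ g ∈ Γ₀, ∃ c : k, ρ g v = c • v := by
  induction h with
  | bot =>
    obtain ⟨v, hv⟩ := exists_ne (0 : V)
    refine ⟨⊥, le_rfl, by simp, v, hv, fun g hg => ⟨1, ?_⟩⟩
    rw [Subgroup.mem_bot.mp hg]; simp
  | @step l Γ' Γ t hΓ' hs ih =>
    obtain ⟨Γ₀, hΓ₀, hi₀, v, hv, hvE⟩ := ih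
    obtain ⟨Γ₁, hΓ₁, hi₁, hnz⟩ := hΓ'.exists_char_le hΓ₀ hi₀
    have ht : Nz t Γ₁ := hnz t (hs.norm t hs.mem)
    -- weight spaces
    let W : (Γ₁ → k) → Submodule k V := fun lam =>
      ⨅ g : Γ₁, Module.End.eigenspace (ρ (g : G)) (lam g)
    have hWind : iSupIndep W :=
      iSupIndep.iInf (fun (g : Γ₁) (c : k) => Module.End.eigenspace (ρ (g : G)) c)
        fun g => Module.End.eigenspaces_iSupIndep _
    have hWfin : {lam | W lam ≠ ⊥}.Finite := WellFoundedGT.finite_ne_bot_of_iSupIndep hWind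
    have hmemW : ∀ lam w, w ∈ W lam ↔ ∀ g : Γ₁, ρ (g : G) w = lam g • w := by
      intro lam w
      simp only [W, Submodule.mem_iInf, Module.End.mem_eigenspace_iff]
    choose! lam0 hlam0 using hvE
    have hconj : ∀ (n : ℕ) (g : G), g ∈ Γ₁ → (t ^ n)⁻¹ * g * t ^ n ∈ Γ₁ := by
      intro n g hg
      have := ((ht.pow n).inv g).mp hg
      simpa using this
    let lam : ℕ → Γ₁ → k := fun n g => lam0 ((t ^ n)⁻¹ * g * t ^ n)
    have hmove : ∀ (n s : ℕ) (w : V), w ∈ W (lam n) → ρ (t ^ s) w ∈ W (lam (s + n)) := by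
      intro n s w hw
      rw [hmemW] at hw ⊢
      intro g
      have h1 := hw ⟨_, hconj s g g.2⟩
      have h2 : ρ (g : G) (ρ (t ^ s) w) = ρ (t ^ s) (ρ ((t ^ s)⁻¹ * g * t ^ s) w) := by
        rw [← Module.End.mul_apply, ← Module.End.mul_apply, ← map_mul, ← map_mul]
        congr 2
        group
      rw [h2, h1, map_smul]
      have h3 : lam n ⟨_, hconj s g g.2⟩ = lam (s + n) g := by
        simp only [lam]
        congr 1
        rw [pow_add]
        group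
      rw [h3]
    have hv0 : v ∈ W (lam 0) := by
      rw [hmemW]
      intro g
      simpa [lam] using hlam0 g (hΓ₁ g.2)
    have hne : ∀ s : ℕ, ρ (t ^ s) v ≠ 0 := by
      intro s h0
      apply hv
      have : ρ (t ^ s)⁻¹ (ρ (t ^ s) v) = v := Representation.inv_self_apply _ _ _
      rw [← this, h0, map_zero]
    have hlamne : ∀ s : ℕ, lam s ∈ {lam | W lam ≠ ⊥} := by
      intro s hbot
      have := hmove 0 s v hv0
      rw [add_zero, hbot] at this
      exact hne s ((Submodule.mem_bot k).mp this)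
    obtain ⟨m, n, hmn, hlam⟩ := hWfin.exists_lt_map_eq_of_forall_mem hlamne
    obtain ⟨r, rfl⟩ := Nat.exists_eq_add_of_lt hmn
    have hmaps : ∀ w ∈ W (lam m), ρ (t ^ (r + 1)) w ∈ W (lam m) := by
      intro w hw
      have := hmove m (r + 1) w hw
      rwa [show r + 1 + m = m + r + 1 by ring, ← hlam] at this
    have : Nontrivial (W (lam m)) := Submodule.nontrivial_iff_ne_bot.mpr (hlamne m)
    obtain ⟨c, hc⟩ := Module.End.exists_eigenvalue ((ρ (t ^ (r + 1))).restrict hmaps)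
    obtain ⟨w, hw⟩ := hc.exists_hasEigenvector
    have hw0 : (w : V) ≠ 0 := fun h0 => hw.2 (Subtype.ext h0)
    have hwc : ρ (t ^ (r + 1)) (w : V) = c • (w : V) := by
      have := congrArg Subtype.val hw.apply_eq_smul
      simpa using this
    refine ⟨Γ₁ ⊔ Subgroup.zpowers (t ^ (r + 1)), ?_, lkm_relIndex_step hs hi₁ (Nat.succ_pos r),
      w, hw0, fun g hg => ?_⟩
    · exact sup_le ((hΓ₁.trans hΓ₀).trans hs.le)
        ((Subgroup.zpowers_le).mpr (Γ.pow_mem hs.mem _))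
    · obtain ⟨n, a, ha, rfl⟩ := (mem_sup_zpowers (ht.pow (r + 1)) g).mp hg
      obtain ⟨c', hc'⟩ := lkm_eigen_zpow ρ hw0 hwc n
      have ha' := (hmemW _ _).mp w.2 ⟨a, ha⟩
      refine ⟨lam m ⟨a, ha⟩ * c', ?_⟩
      rw [map_mul, Module.End.mul_apply, ha', map_smul, hc', smul_smul]

/-- relative form of `exists_eigen`. -/
theorem lkm_eigen_rel {k : Type*} [Field k] [IsAlgClosed k] {G : Type*} [Group G] {M : Type*}
    [AddCommGroup M] [Module k M] (ρ : Representation k G M) {l : ℕ} {Γ : Subgroup G}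
    (h : PC l Γ) {x s : Submodule k M} (hx : ∀ g ∈ Γ, ∀ a ∈ x, ρ g a ∈ x)
    (hs : ∀ g ∈ Γ, ∀ a ∈ s, ρ g a ∈ s) (hxs : ¬ s ≤ x) (hfin : (s.map x.mkQ).FG) :
    ∃ Γ₀ ≤ Γ, Γ₀.relIndex Γ ≠ 0 ∧ ∃ v ∈ s, v ∉ x ∧ ∀ g ∈ Γ₀, ∃ c : k, ρ g v - c • v ∈ x := by
  let ρ₁ : Representation k Γ M := ρ.comp Γ.subtype
  let ρ₂ : Representation k Γ (M ⧸ x) := ρ₁.quotient x fun g a ha => hx g g.2 a ha
  have hρ₂ : ∀ (g : Γ) (a : M), ρ₂ g (x.mkQ a) = x.mkQ (ρ g a) := fun g a => rfl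
  let ρ₃ : Representation k Γ (s.map x.mkQ) := ρ₂.subrepresentation (s.map x.mkQ) (by
    rintro g _ ⟨a, ha, rfl⟩
    exact ⟨ρ g a, hs g g.2 a ha, rfl⟩)
  have : FiniteDimensional k (s.map x.mkQ) := Module.Finite.iff_fg.mpr hfin
  have : Nontrivial (s.map x.mkQ) := by
    rw [Submodule.nontrivial_iff_ne_bot]
    intro hbot
    apply hxs
    rwa [← LinearMap.le_ker_iff_map, Submodule.ker_mkQ] at hbot
  obtain ⟨Γ₀, -, hi, ⟨_, v, hv, rfl⟩, hv0, hvE⟩ := exists_eigen ρ₃ h.top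
  refine ⟨Γ₀.map Γ.subtype, Subgroup.map_subtype_le _, ?_, v, hv, ?_, ?_⟩
  · rw [Subgroup.relIndex, Subgroup.subgroupOf, Subgroup.comap_map_eq_self_of_injective
      Γ.subtype_injective]
    simpa using hi
  · intro hvx
    apply hv0
    exact Subtype.ext ((Submodule.Quotient.mk_eq_zero x).mpr hvx)
  · rintro _ ⟨g, hg, rfl⟩
    obtain ⟨c, hc⟩ := hvE g hg
    refine ⟨c, ?_⟩
    have h1 : x.mkQ (ρ g v) = c • x.mkQ v := congrArg Subtype.val hc
    rw [← Submodule.Quotient.mk_eq_zero]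
    change x.mkQ (ρ g v - c • v) = 0
    rw [map_sub, map_smul, h1, sub_self]

/-- the ascending series of `D`-unipotent vectors over `x`. -/
def lkmUni {R : Type*} [CommRing R] {G : Type*} [Group G] {M : Type*} [AddCommGroup M]
    [Module R M] (ρ : Representation R G M) (D : Subgroup G) (x : Submodule R M) :
    ℕ → Submodule R M
  | 0 => x
  | n + 1 => ⨅ d : D, (lkmUni ρ D x n).comap (ρ (d : G) - 1)

section Uni
variable {R : Type*} [CommRing R] {G : Type*} [Group G] {M : Type*} [AddCommGroup M]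
    [Module R M] {ρ : Representation R G M} {D : Subgroup G} {x : Submodule R M}

theorem lkmUni_succ {n : ℕ} {v : M} :
    v ∈ lkmUni ρ D x (n + 1) ↔ ∀ d ∈ D, ρ d v - v ∈ lkmUni ρ D x n := by
  simp [lkmUni]

theorem lkmUni_comp {D' : Subgroup G} (hD : D ≤ D') {x' : Submodule R M}
    (h : ∀ w ∈ x', ∀ d ∈ D, ρ d w - w ∈ x) :
    ∀ (n : ℕ) (v : M), v ∈ lkmUni ρ D' x' n → v ∈ lkmUni ρ D x (n + 1) := by
  intro n
  induction n with
  | zero => intro v hv; exact lkmUni_succ.mpr fun d hd => h v hv d hd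
  | succ n ih =>
    intro v hv
    exact lkmUni_succ.mpr fun d hd => ih _ (lkmUni_succ.mp hv d (hD hd))

end Uni

theorem lkm_tri {k : Type*} [Field k] [IsAlgClosed k] {G : Type*} [Group G] {V : Type*}
    [AddCommGroup V] [Module k V] [FiniteDimensional k V] (ρ : Representation k G V) {l : ℕ} :
    ∀ (n : ℕ) (Γ : Subgroup G) (x : Submodule k V), PC l Γ → (∀ g ∈ Γ, ∀ a ∈ x, ρ g a ∈ x) →
      Module.finrank k V ≤ Module.finrank k x + n →
      ∃ Γ₀ ≤ Γ, Γ₀.relIndex Γ ≠ 0 ∧ ∃ c : ℕ, ∀ v, v ∈ lkmUni ρ ⁅Γ₀, Γ₀⁆ x c := by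
  intro n
  induction n with
  | zero =>
    intro Γ x _ _ hdim
    have : x = ⊤ := Submodule.eq_top_of_finrank_eq
      (le_antisymm (Submodule.finrank_le x) (by simpa using hdim))
    exact ⟨Γ, le_rfl, by simp, 0, fun v => by simp [lkmUni, this]⟩
  | succ n ih =>
    intro Γ x hΓ hx hdim
    by_cases htop : (⊤ : Submodule k V) ≤ x
    · exact ⟨Γ, le_rfl, by simp, 0, fun v => htop Submodule.mem_top⟩
    obtain ⟨Γ₁, hΓ₁, hi₁, v, -, hvx, hvE⟩ := lkm_eigen_rel ρ hΓ (s := ⊤) hx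
      (fun _ _ _ _ => Submodule.mem_top) htop (IsNoetherian.noetherian _)
    have hlt : x < x ⊔ k ∙ v := by
      refine lt_of_le_of_ne le_sup_left fun he => hvx ?_
      rw [he]
      exact Submodule.mem_sup_right (Submodule.mem_span_singleton_self v)
    have hx' : ∀ g ∈ Γ₁, ∀ a ∈ x ⊔ k ∙ v, ρ g a ∈ x ⊔ k ∙ v := by
      intro g hg a ha
      obtain ⟨a₁, ha₁, a₂, ha₂, rfl⟩ := Submodule.mem_sup.mp ha
      obtain ⟨e, rfl⟩ := Submodule.mem_span_singleton.mp ha₂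
      obtain ⟨c, hc⟩ := hvE g hg
      have : ρ g (a₁ + e • v) = (ρ g a₁ + e • (ρ g v - c • v)) + (e * c) • v := by
        rw [map_add, map_smul, smul_sub, smul_smul]; abel
      rw [this]
      exact Submodule.add_mem_sup (x.add_mem (hx g (hΓ₁ hg) _ ha₁) (x.smul_mem _ hc))
        (Submodule.smul_mem _ _ (Submodule.mem_span_singleton_self v))
    obtain ⟨Γ₀, hΓ₀, hi₀, c, hc⟩ := ih Γ₁ (x ⊔ k ∙ v) (hΓ.sub hΓ₁) hx'
      (by have := Submodule.finrank_lt_finrank_of_lt hlt; omega)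
    refine ⟨Γ₀, hΓ₀.trans hΓ₁, Subgroup.relIndex_ne_zero_trans hi₀ hi₁, c + 1, fun w => ?_⟩
    refine lkmUni_comp le_rfl ?_ c w (hc w)
    -- commutators act trivially on `(x ⊔ k v) / x`
    let K : Subgroup G :=
      { carrier := {g | g ∈ Γ ∧ ρ g v - v ∈ x}
        one_mem' := ⟨Γ.one_mem, by simp⟩
        mul_mem' := by
          rintro a b ⟨ha, ha'⟩ ⟨hb, hb'⟩
          refine ⟨Γ.mul_mem ha hb, ?_⟩
          have : ρ (a * b) v - v = ρ a (ρ b v - v) + (ρ a v - v) := by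
            rw [map_mul, Module.End.mul_apply, map_sub]; abel
          rw [this]
          exact x.add_mem (hx a ha _ hb') ha'
        inv_mem' := by
          rintro a ⟨ha, ha'⟩
          refine ⟨Γ.inv_mem ha, ?_⟩
          have : ρ a⁻¹ v - v = -ρ a⁻¹ (ρ a v - v) := by
            rw [map_sub]; simp
          rw [this]
          exact x.neg_mem (hx _ (Γ.inv_mem ha) _ ha') }
    have hK : ⁅Γ₀, Γ₀⁆ ≤ K := by
      rw [Subgroup.commutator_le]
      intro a ha b hb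
      have haΓ := hΓ₁ (hΓ₀ ha)
      have hbΓ := hΓ₁ (hΓ₀ hb)
      refine ⟨Γ.mul_mem (Γ.mul_mem (Γ.mul_mem haΓ hbΓ) (Γ.inv_mem haΓ)) (Γ.inv_mem hbΓ), ?_⟩
      obtain ⟨ca, hca⟩ := hvE a⁻¹ (Γ₁.inv_mem (hΓ₀ ha))
      obtain ⟨cb, hcb⟩ := hvE b⁻¹ (Γ₁.inv_mem (hΓ₀ hb))
      have h1 : ρ a⁻¹ (ρ b⁻¹ v) - ρ b⁻¹ (ρ a⁻¹ v) ∈ x := by
        have : ρ a⁻¹ (ρ b⁻¹ v) - ρ b⁻¹ (ρ a⁻¹ v) =
            (ρ a⁻¹ (ρ b⁻¹ v - cb • v) + cb • (ρ a⁻¹ v - ca • v)) -
            (ρ b⁻¹ (ρ a⁻¹ v - ca • v) + ca • (ρ b⁻¹ v - cb • v)) := by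
          simp only [map_sub, map_smul, smul_sub, smul_smul, mul_comm ca cb]; abel
        rw [this]
        exact x.sub_mem (x.add_mem (hx _ (Γ.inv_mem haΓ) _ hcb) (x.smul_mem _ hca))
          (x.add_mem (hx _ (Γ.inv_mem hbΓ) _ hca) (x.smul_mem _ hcb))
      have h2 := hx _ (Γ.mul_mem haΓ hbΓ) _ h1
      have h3 : ρ (a * b) (ρ a⁻¹ (ρ b⁻¹ v) - ρ b⁻¹ (ρ a⁻¹ v)) = ρ ⁅a, b⁆ v - v := by
        rw [map_sub, commutatorElement_def]
        simp [map_mul]
      rwa [h3] at h2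
    intro u hu d hd
    obtain ⟨a₁, ha₁, a₂, ha₂, rfl⟩ := Submodule.mem_sup.mp hu
    obtain ⟨e, rfl⟩ := Submodule.mem_span_singleton.mp ha₂
    have : ρ d (a₁ + e • v) - (a₁ + e • v) = (ρ d a₁ - a₁) + e • (ρ d v - v) := by
      rw [map_add, map_smul, smul_sub]; abel
    rw [this]
    exact x.add_mem (x.sub_mem (hx d (hK hd).1 _ ha₁) ha₁) (x.smul_mem _ (hK hd).2)

theorem lkm_torsion_of_tmul {A : Type*} [AddCommGroup A] {a : A}
    (h : (1 : ℂ) ⊗ₜ[ℤ] a = 0) : a ∈ Submodule.torsion ℤ A := by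
  by_contra hne
  have hinj : Function.Injective (LinearMap.toSpanSingleton ℤ A a) := by
    rw [injective_iff_map_eq_zero]
    intro n hn
    by_contra hn0
    exact hne ⟨⟨n, mem_nonZeroDivisors_of_ne_zero hn0⟩, hn⟩
  have h2 := Module.Flat.lTensor_preserves_injective_linearMap (M := ℂ) _ hinj
  have h3 : (LinearMap.toSpanSingleton ℤ A a).lTensor ℂ ((1 : ℂ) ⊗ₜ[ℤ] (1 : ℤ)) = 0 := by
    simpa using h
  have h4 : (1 : ℂ) ⊗ₜ[ℤ] (1 : ℤ) = 0 := (injective_iff_map_eq_zero _).mp h2 _ h3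
  have h5 := congrArg (TensorProduct.rid ℤ ℂ) h4
  simp at h5

theorem lkm_tri_int {Q : Type*} [Group Q] {l : ℕ} (h : PC l (⊤ : Subgroup Q)) {A : Type*}
    [AddCommGroup A] [Module.Finite ℤ A] (σ : Representation ℤ Q A) :
    ∃ Γ₀ : Subgroup Q, Γ₀.FiniteIndex ∧ ∃ c : ℕ, ∀ a, a ∈ lkmUni σ ⁅Γ₀, Γ₀⁆ ⊥ c := by
  let ρ : Representation ℂ Q (ℂ ⊗[ℤ] A) :=
    { toFun := fun g => (σ g).baseChange ℂ
      map_one' := by rw [map_one, LinearMap.baseChange_one]
      map_mul' := fun a b => by rw [map_mul, LinearMap.baseChange_mul] }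
  have hρ : ∀ g a, ρ g ((1 : ℂ) ⊗ₜ[ℤ] a) = (1 : ℂ) ⊗ₜ[ℤ] σ g a := fun g a => rfl
  obtain ⟨Γ₁, -, hi₁, c, hc⟩ := lkm_tri ρ (Module.finrank ℂ (ℂ ⊗[ℤ] A)) ⊤ ⊥ h
    (fun g _ a ha => by rw [(Submodule.mem_bot ℂ).mp ha]; simp) (by simp)
  let T := Submodule.torsion ℤ A
  have hT : ∀ g, T ≤ T.comap (σ g) := by
    rintro g a ⟨n, hn⟩
    refine ⟨n, ?_⟩
    have := congrArg (σ g) hn
    rw [map_zero] at this
    rw [← this]
    exact (map_smul (σ g) (n : ℤ) a).symm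
  have hTfin : Finite T := Module.finite_of_fg_torsion _ Submodule.torsion_isTorsion
  have hEfin : Finite (T →ₗ[ℤ] T) := DFunLike.finite _
  let σT := (σ.subrepresentation T hT).toHomUnits
  have hfi₁ : Γ₁.FiniteIndex := ⟨by simpa using hi₁⟩
  refine ⟨Γ₁ ⊓ σT.ker, inferInstance, c + 1, fun a => ?_⟩
  have hD : ⁅Γ₁ ⊓ σT.ker, Γ₁ ⊓ σT.ker⁆ ≤ ⁅Γ₁, Γ₁⁆ :=
    Subgroup.commutator_mono inf_le_left inf_le_left
  have hD' : ⁅Γ₁ ⊓ σT.ker, Γ₁ ⊓ σT.ker⁆ ≤ σT.ker :=
    (Subgroup.commutator_mono inf_le_right inf_le_right).trans (Subgroup.commutator_le_left _ _)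
  have key : ∀ (i : ℕ) (a : A), (1 : ℂ) ⊗ₜ[ℤ] a ∈ lkmUni ρ ⁅Γ₁, Γ₁⁆ ⊥ i →
      a ∈ lkmUni σ ⁅Γ₁, Γ₁⁆ T i := by
    intro i
    induction i with
    | zero => intro a ha; exact lkm_torsion_of_tmul ((Submodule.mem_bot ℂ).mp ha)
    | succ i ih =>
      intro a ha
      refine lkmUni_succ.mpr fun d hd => ih _ ?_
      have := lkmUni_succ.mp ha d hd
      rwa [hρ, ← TensorProduct.tmul_sub] at this
  refine lkmUni_comp hD ?_ c a (key c a (hc _))
  intro w hw d hd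
  have h1 : σT d = 1 := hD' hd
  have h2 : (σ.subrepresentation T hT) d = 1 := congrArg Units.val h1
  have h3 := congrArg Subtype.val (LinearMap.congr_fun h2 ⟨w, hw⟩)
  rw [Submodule.mem_bot, sub_eq_zero]
  exact h3

theorem lkm_abelian {Q : Type*} [Group Q] {l : ℕ} (h : PC l (⊤ : Subgroup Q)) (A : Subgroup Q)
    [A.Normal] (hA : ⁅A, A⁆ = ⊥) :
    ∃ Γ₀ : Subgroup Q, Γ₀.FiniteIndex ∧ ∃ (c : ℕ) (B : ℕ → Subgroup Q), B 0 = ⊥ ∧ A ≤ B c ∧
      ∀ i, ⁅B (i + 1), ⁅Γ₀, Γ₀⁆⁆ ≤ B i := by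
  let _ : CommGroup A :=
    { (inferInstance : Group A) with
      mul_comm := fun a b => Subtype.ext (by
        have : ⁅(a : Q), (b : Q)⁆ ∈ ⁅A, A⁆ := Subgroup.commutator_mem_commutator a.2 b.2
        rw [hA, Subgroup.mem_bot, commutatorElement_eq_one_iff_mul_comm] at this
        exact this) }
  have hfg : Group.FG A := (Group.fg_iff_subgroup_fg A).mpr (h.sub le_top).fg
  have hfin : Module.Finite ℤ (Additive A) := Module.Finite.iff_addGroup_fg.mpr inferInstance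
  let σ : Representation ℤ Q (Additive A) :=
    { toFun := fun g =>
        (MonoidHom.toAdditive (MulAut.conjNormal g : MulAut A).toMonoidHom).toIntLinearMap
      map_one' := by ext; simp
      map_mul' := fun a b => by ext; simp [mul_assoc] }
  have hσ : ∀ (g : Q) (a : A), ((Additive.toMul (σ g (Additive.ofMul a)) : A) : Q) =
      g * a * g⁻¹ := fun g a => rfl
  obtain ⟨Γ₀, hΓ₀, c, hc⟩ := lkm_tri_int h σ
  let B : ℕ → Subgroup Q := fun i =>
    (AddSubgroup.toSubgroup' (lkmUni σ ⁅Γ₀, Γ₀⁆ ⊥ i).toAddSubgroup).map A.subtype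
  have hB : ∀ i (g : Q), g ∈ B i ↔ ∃ a : A, Additive.ofMul a ∈ lkmUni σ ⁅Γ₀, Γ₀⁆ ⊥ i ∧ a = g :=
    fun i g => Iff.rfl
  refine ⟨Γ₀, hΓ₀, c, B, ?_, fun g hg => (hB c g).mpr ⟨⟨g, hg⟩, hc _, rfl⟩, fun i => ?_⟩
  · rw [eq_bot_iff]
    intro g hg
    obtain ⟨a, ha, rfl⟩ := (hB 0 g).mp hg
    have : Additive.ofMul a = 0 := (Submodule.mem_bot ℤ).mp ha
    have : a = 1 := this
    rw [this]
    exact Subgroup.one_mem _
  · rw [Subgroup.commutator_le]
    intro g hg d hd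
    obtain ⟨a, ha, rfl⟩ := (hB _ g).mp hg
    have h1 := (lkmUni σ ⁅Γ₀, Γ₀⁆ ⊥ i).neg_mem (lkmUni_succ.mp ha d hd)
    refine (hB _ _).mpr ⟨Additive.toMul (-(σ d (Additive.ofMul a) - Additive.ofMul a)), h1, ?_⟩
    rw [neg_sub, toMul_sub, toMul_ofMul, div_eq_mul_inv, Subgroup.coe_mul, Subgroup.coe_inv, hσ,
      commutatorElement_def]
    group

theorem lkm_malcev_aux {l : ℕ} (n : ℕ) : ∀ {Q : Type*} [Group Q], PC l (⊤ : Subgroup Q) →
    derivedSeries Q n = ⊥ →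
    ∃ Q₀ : Subgroup Q, Q₀.FiniteIndex ∧ Group.IsNilpotent (⁅Q₀, Q₀⁆ : Subgroup Q) := by
  induction n with
  | zero =>
    intro Q _ _ hd
    refine ⟨⊤, inferInstance, (Subgroup.isNilpotent_iff_lowerCentralSeries _).mpr ⟨0, ?_⟩⟩
    rw [eq_bot_iff, ← hd]
    exact le_top
  | succ n ih =>
    intro Q _ h hd
    let A := derivedSeries Q n
    have : A.Normal := derivedSeries_normal Q n
    let f := QuotientGroup.mk' A
    have hf : Function.Surjective f := QuotientGroup.mk'_surjective A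
    have h' : PC l (⊤ : Subgroup (Q ⧸ A)) := by
      have := h.map f
      rwa [Subgroup.map_top_of_surjective f hf] at this
    have hd' : derivedSeries (Q ⧸ A) n = ⊥ := by
      rw [← map_derivedSeries_eq hf, Subgroup.map_eq_bot_iff, QuotientGroup.ker_mk']
    obtain ⟨Q₁, hQ₁, hnil⟩ := ih h' hd'
    obtain ⟨m, hm⟩ := (Subgroup.isNilpotent_iff_lowerCentralSeries _).mp hnil
    obtain ⟨Γ₀, hΓ₀, c, B, hB0, hBc, hBs⟩ := lkm_abelian h A hd
    have : (Q₁.comap f).FiniteIndex :=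
      ⟨by rw [Subgroup.index_comap_of_surjective _ hf]; exact hQ₁.index_ne_zero⟩
    refine ⟨Q₁.comap f ⊓ Γ₀, inferInstance, ?_⟩
    set D : Subgroup Q := ⁅Q₁.comap f ⊓ Γ₀, Q₁.comap f ⊓ Γ₀⁆ with hD
    have hD₀ : D ≤ ⁅Γ₀, Γ₀⁆ := Subgroup.commutator_mono inf_le_right inf_le_right
    have hD₁ : D.map f ≤ ⁅Q₁, Q₁⁆ := by
      rw [hD, Subgroup.map_commutator]
      have : (Q₁.comap f ⊓ Γ₀).map f ≤ Q₁ :=
        (Subgroup.map_mono inf_le_left).trans (Subgroup.map_comap_le _ _)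
      exact Subgroup.commutator_mono this this
    have hmono : ∀ j, (D.map f).lowerCentralSeries j ≤
        (⁅Q₁, Q₁⁆ : Subgroup (Q ⧸ A)).lowerCentralSeries j := by
      intro j
      induction j with
      | zero => exact hD₁
      | succ j ihj =>
        rw [Subgroup.lowerCentralSeries_succ, Subgroup.lowerCentralSeries_succ]
        exact Subgroup.commutator_mono ihj hD₁
    have hA : D.lowerCentralSeries m ≤ A := by
      have := hmono m
      rw [hm, le_bot_iff, ← Subgroup.map_lowerCentralSeries, Subgroup.map_eq_bot_iff,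
        QuotientGroup.ker_mk'] at this
      exact this
    have hdesc : ∀ i j, i + j = c → D.lowerCentralSeries (m + i) ≤ B j := by
      intro i
      induction i with
      | zero => intro j hj; rw [zero_add] at hj; rw [hj]; exact hA.trans hBc
      | succ i ihi =>
        intro j hj
        rw [← add_assoc, Subgroup.lowerCentralSeries_succ]
        exact (Subgroup.commutator_mono (ihi (j + 1) (by omega)) hD₀).trans (hBs j)
    refine (Subgroup.isNilpotent_iff_lowerCentralSeries _).mpr ⟨m + c, ?_⟩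
    rw [eq_bot_iff, ← hB0]
    exact hdesc c 0 rfl

/-- Malcev: polycyclic groups are nilpotent-by-abelian-by-finite. -/
theorem malcev {Q : Type*} [Group Q] {l : ℕ} (h : PC l (⊤ : Subgroup Q)) :
    ∃ Q₀ : Subgroup Q, Q₀.FiniteIndex ∧ Group.IsNilpotent (⁅Q₀, Q₀⁆ : Subgroup Q) := by
  have h1 : Group.IsSolvable (⊤ : Subgroup Q) := h.isSolvable
  have h2 : Group.IsSolvable Q :=
    Group.isSolvable_of_surjective (f := (Subgroup.topEquiv : (⊤ : Subgroup Q) ≃* Q).toMonoidHom)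
      Subgroup.topEquiv.surjective
  obtain ⟨n, hn⟩ := h2.solvable
  exact lkm_malcev_aux n h hn

theorem lkm_geom_fix {k : Type*} [Field k] [CharZero k] {V : Type*} [AddCommGroup V] [Module k V]
    (Y : Module.End k V) {j : ℕ} (hj : 0 < j) :
    ∀ (i : ℕ) (b : V), ((Y - 1) ^ i) b = 0 → (∑ s ∈ Finset.range j, Y ^ s) b = 0 → b = 0 := by
  intro i
  induction i with
  | zero => intro b hb _; simpa using hb
  | succ i ih =>
    intro b hb hG
    have hc : Commute (∑ s ∈ Finset.range j, Y ^ s) (Y - 1) :=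
      Commute.sum_left _ _ _ fun s _ =>
        ((Commute.refl Y).sub_right (Commute.one_right Y)).pow_left s
    have h1 : (Y - 1) b = 0 := by
      refine ih _ (by rw [← Module.End.mul_apply, ← pow_succ]; exact hb) ?_
      rw [← Module.End.mul_apply, hc.eq, Module.End.mul_apply, hG, map_zero]
    have h2 : Y b = b := by simpa [sub_eq_zero] using h1
    have h3 : ∀ s : ℕ, (Y ^ s) b = b := by
      intro s
      induction s with
      | zero => simp
      | succ s ihs => rw [pow_succ, Module.End.mul_apply, h2, ihs]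
    rw [LinearMap.sum_apply] at hG
    simp only [h3, Finset.sum_const, Finset.card_range] at hG
    rw [← Nat.cast_smul_eq_nsmul k] at hG
    exact (smul_eq_zero.mp hG).resolve_left (Nat.cast_ne_zero.mpr hj.ne')

theorem lkm_unip_fix {k : Type*} [Field k] [CharZero k] {V : Type*} [AddCommGroup V] [Module k V]
    (Y : Module.End k V) {j : ℕ} (hj : 0 < j) {i : ℕ} {a : V} (ha : ((Y - 1) ^ i) a = 0)
    (hd : a ∈ ⨆ c : k, (Y ^ j).eigenspace c) : Y a = a := by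
  have hc : Commute (∑ s ∈ Finset.range j, Y ^ s) (Y - 1) :=
    Commute.sum_left _ _ _ fun s _ =>
      ((Commute.refl Y).sub_right (Commute.one_right Y)).pow_left s
  have hgeom : (∑ s ∈ Finset.range j, Y ^ s) * (Y - 1) = Y ^ j - 1 := geom_sum_mul Y j
  have h1 : a ∈ (Y ^ j).maxGenEigenspace 1 := by
    rw [Module.End.mem_maxGenEigenspace]
    refine ⟨i, ?_⟩
    rw [one_smul, ← hgeom, hc.mul_pow, Module.End.mul_apply, ha, map_zero]
  rw [iSup_split_single _ (1 : k)] at hd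
  obtain ⟨u, hu, w, hw, rfl⟩ := Submodule.mem_sup.mp hd
  have hu' : u ∈ (Y ^ j).maxGenEigenspace 1 := Module.End.eigenspace_le_maxGenEigenspace hu
  have hw' : w ∈ (Y ^ j).maxGenEigenspace 1 := by
    have := Submodule.sub_mem _ h1 hu'
    rwa [add_sub_cancel_left] at this
  have hw'' : w ∈ ⨆ (c : k) (_ : c ≠ 1), (Y ^ j).maxGenEigenspace c :=
    (iSup₂_mono fun c _ => Module.End.eigenspace_le_maxGenEigenspace) hw
  have hw0 : w = 0 :=
    (Submodule.disjoint_def.mp ((Y ^ j).independent_maxGenEigenspace 1)) w hw' hw''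
  subst hw0
  rw [add_zero] at ha ⊢
  have hu1 : (Y ^ j) u = u := by simpa using Module.End.mem_eigenspace_iff.mp hu
  have h2 : (Y - 1) u = 0 := by
    refine lkm_geom_fix Y hj i _ ?_ ?_
    · rw [← Module.End.mul_apply, ← pow_succ, pow_succ', Module.End.mul_apply, ha, map_zero]
    · rw [← Module.End.mul_apply, hgeom]
      simp [hu1]
  simpa [sub_eq_zero] using h2

theorem lkm_orb_fix {R : Type*} [CommRing R] {G : Type*} [Group G] {M : Type*} [AddCommGroup M]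
    [Module R M] (ρ : Representation R G M) (y : G) (a : M) :
    latAct ρ y (orb ρ y a) = orb ρ y a := by
  rw [latAct_apply, orb, Submodule.map_span, ← Set.range_comp]
  congr 1
  ext w
  constructor
  · rintro ⟨n, rfl⟩
    refine ⟨1 + n, ?_⟩
    simp only [Function.comp]
    rw [zpow_one_add, map_mul, Module.End.mul_apply]
  · rintro ⟨n, rfl⟩
    refine ⟨-1 + n, ?_⟩
    simp only [Function.comp]
    rw [← Module.End.mul_apply, ← map_mul, ← zpow_one_add, add_neg_cancel_left]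

theorem finData_complex : FinData ℂ := by
  intro G _ M _ _ ρ N₀ h _ _ U _
  refine ⟨fun _ _ _ => True, ⟨by intros; trivial, by intros; trivial, by intros; trivial,
    by intros; trivial, by intros; trivial⟩, trivial, 1, one_pos, fun y a i hi => ?_⟩
  intro N x hN _ hy hx hlt hsimple hcpt _
  obtain ⟨k', hk', hsk⟩ := hcpt
  set Γ : Subgroup G := N ⊔ Subgroup.zpowers y with hΓ
  set s : Submodule ℂ M := x ⊔ span (latAct ρ) N (orb ρ y a) with hs
  have hPC : PC (h + 1) Γ := PC.step hN.pc (cstep_sup_zpowers hy)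
  have hsfx : Fx (latAct ρ) Γ s := by
    refine hx.sup ?_
    rw [← span_sup_zpowers hy (lkm_orb_fix ρ y a)]
    exact fx_span _ _
  have hx' := (fx_latAct_iff ρ Γ x).mp hx
  have hs' := (fx_latAct_iff ρ Γ s).mp hsfx
  have hfin : (s.map x.mkQ).FG := by
    rw [hsk, Submodule.map_sup, Submodule.mkQ_map_self, bot_sup_eq]
    exact ((Submodule.fg_iff_compact k').mpr hk').map _
  obtain ⟨Γ₀, hΓ₀, hi₀, v, hvs, hvx, hvE⟩ := lkm_eigen_rel ρ hPC hx' hs' (not_le_of_gt hlt) hfin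
  obtain ⟨Γ₁, hΓ₁, hi₁, hnz⟩ := hPC.exists_char_le hΓ₀ hi₀
  have hyΓ : y ∈ Γ := Subgroup.mem_sup_right (Subgroup.mem_zpowers y)
  obtain ⟨j, hj, -, hyj, -⟩ := Subgroup.exists_pow_mem_of_relIndex_ne_zero hi₁ hyΓ
  let ρ₁ : Representation ℂ Γ M := ρ.comp Γ.subtype
  let ρ₂ : Representation ℂ Γ (M ⧸ x) := ρ₁.quotient x fun g a ha => hx' g g.2 a ha
  have hρ₂ : ∀ (g : Γ) (a : M), ρ₂ g (x.mkQ a) = x.mkQ (ρ g a) := fun g a => rfl
  let Y : Module.End ℂ (M ⧸ x) := ρ₂ ⟨y, hyΓ⟩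
  have hY : ∀ b, Y (x.mkQ b) = x.mkQ (ρ y b) := fun b => rfl
  have hYj : ∀ b, (Y ^ j) (x.mkQ b) = x.mkQ (ρ (y ^ j) b) := by
    intro b
    rw [← map_pow, hρ₂]
    rfl
  let w : Submodule ℂ M := x ⊔ span (latAct ρ) Γ (ℂ ∙ v)
  have hvw : v ∈ w := Submodule.mem_sup_right
    (le_span (ρ := latAct ρ) Γ (ℂ ∙ v) (Submodule.mem_span_singleton_self v))
  have hw : w = s := by
    refine hsimple w (hx.sup (fx_span _ _)) ?_ ?_
    · exact lt_of_le_of_ne le_sup_left fun he => hvx (he ▸ hvw)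
    · exact sup_le le_sup_left (span_le hsfx ((Submodule.span_singleton_le_iff_mem _ _).mpr hvs))
  have hdiag : w ≤ (⨆ c : ℂ, (Y ^ j).eigenspace c).comap x.mkQ := by
    refine sup_le (fun b hb => ?_) (tr_le_iff.mpr fun g hg => ?_)
    · rw [Submodule.mem_comap, Submodule.mkQ_apply, (Submodule.Quotient.mk_eq_zero x).mpr hb]
      exact Submodule.zero_mem _
    · rw [latAct_apply, Submodule.map_span, Set.image_singleton,
        Submodule.span_singleton_le_iff_mem, Submodule.mem_comap]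
      have hc : g⁻¹ * y ^ j * g ∈ Γ₁ := by
        have := (hnz g⁻¹ (Nz.of_mem (Γ.inv_mem hg)) (y ^ j)).mp hyj
        simpa using this
      obtain ⟨c, hc'⟩ := hvE _ (hΓ₁ hc)
      refine Submodule.mem_iSup_of_mem c (Module.End.mem_eigenspace_iff.mpr ?_)
      have h1 := hx' g hg _ hc'
      rw [map_sub, map_smul, ← Module.End.mul_apply, ← map_mul,
        show g * (g⁻¹ * y ^ j * g) = y ^ j * g by group, map_mul, Module.End.mul_apply] at h1
      rw [hYj, ← map_smul, ← sub_eq_zero, ← map_sub]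
      exact (Submodule.Quotient.mk_eq_zero x).mpr h1
  have has : a ∈ s := by
    refine Submodule.mem_sup_right (le_span (ρ := latAct ρ) N (orb ρ y a) ?_)
    exact Submodule.subset_span ⟨0, by simp⟩
  have hpow : ∀ (n : ℕ) (b : M), ((Y - 1) ^ n) (x.mkQ b) = x.mkQ (((ρ y - 1) ^ n) b) := by
    intro n
    induction n with
    | zero => intro b; rfl
    | succ n ih =>
      intro b
      rw [pow_succ, pow_succ, Module.End.mul_apply, Module.End.mul_apply, ← ih]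
      congr 1
  have hfix : Y (x.mkQ a) = x.mkQ a :=
    lkm_unip_fix Y hj (i := i) (by rw [hpow, hi, map_zero]) (hdiag (hw ▸ has))
  rw [Submodule.span_singleton_le_iff_mem, pow_one, ← Submodule.Quotient.mk_eq_zero]
  change x.mkQ (ρ y a - a) = 0
  rw [map_sub, ← hY, hfix, sub_self]

end Pool.Agent.Lib.MP_36fb39_al
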