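import Pool.Agent.Lib.MP_36fb39_al.Main
import Pool.Agent.Lib.MP_36fb39_al.LKM

set_option autoImplicit false

namespace Pool.Agent.Lib.MP_36fb39_al

open Polynomial in
theorem fieldtop_poly_kill {k V : Type*} [Field k] [AddCommGroup V] [Module k V]
    (Y : Module.End k V) {f : k[X]} (hf : f ≠ 0) {a : V} (h1 : aeval Y f a = 0) {i : ℕ}
    (h2 : ((Y - 1) ^ i) a = 0) : ((Y - 1) ^ f.natDegree) a = 0 := by
  obtain ⟨q, hq, hq'⟩ := exists_eq_pow_rootMultiplicity_mul_and_not_dvd f hf 1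
  set r := rootMultiplicity 1 f
  have hr : r ≤ f.natDegree := by
    have := natDegree_le_of_dvd ⟨q, hq⟩ hf
    rwa [natDegree_pow, natDegree_X_sub_C, mul_one] at this
  obtain ⟨u, w, huw⟩ := (irreducible_X_sub_C (1 : k)).coprime_pow_of_not_dvd i hq'
  have e : (X - C (1 : k)) ^ r = u * f + w * (X - C 1) ^ r * (X - C 1) ^ i := by
    rw [hq]
    linear_combination (-(X - C (1 : k)) ^ r) * huw
  have hY : ∀ j : ℕ, aeval Y ((X - C (1 : k)) ^ j) = (Y - 1) ^ j := by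
    intro j; simp
  have h3 : ((Y - 1) ^ r) a = 0 := by
    rw [← hY, e, map_add, map_mul, map_mul, hY i, LinearMap.add_apply, Module.End.mul_apply,
      Module.End.mul_apply, h1, h2, map_zero, map_zero, add_zero]
  obtain ⟨d, hd⟩ := Nat.exists_eq_add_of_le' hr
  rw [hd, pow_add, Module.End.mul_apply, h3, map_zero]

open Polynomial in
theorem fieldtop_pow_kill {k V : Type*} [Field k] [AddCommGroup V] [Module k V]
    (Y : Module.End k V) {n : ℕ} (hn : 0 < n) (N : ℕ) {a : V} (h1 : ((Y ^ n - 1) ^ N) a = 0)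
    {i : ℕ} (h2 : ((Y - 1) ^ i) a = 0) : ((Y - 1) ^ (N * n)) a = 0 := by
  have := fieldtop_poly_kill Y (f := (X ^ n - C 1) ^ N)
    (pow_ne_zero _ (X_pow_sub_C_ne_zero hn 1)) (by simpa using h1) h2
  rwa [natDegree_pow, natDegree_X_pow_sub_C] at this

theorem fieldtop_unip_pow {k V : Type*} [CommRing k] [AddCommGroup V] [Module k V]
    (Y : Module.End k V) (n : ℕ) {a : V} {i : ℕ} (h2 : ((Y - 1) ^ i) a = 0) :
    ((Y ^ n - 1) ^ i) a = 0 := by
  have hc : Commute (∑ j ∈ Finset.range n, Y ^ j) (Y - 1) :=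
    Commute.sum_left _ _ _ fun j _ =>
      (Commute.pow_left ((Commute.refl Y).sub_right (Commute.one_right Y)) j)
  rw [← geom_sum_mul, hc.mul_pow, Module.End.mul_apply, h2, map_zero]

section Orb

variable {R : Type*} [CommRing R] {G : Type*} [Group G] {M : Type*} [AddCommGroup M] [Module R M]

theorem fieldtop_mem_orb (ρ : Representation R G M) (y : G) (a : M) (n : ℤ) :
    ρ (y ^ n) a ∈ orb ρ y a := Submodule.subset_span ⟨n, rfl⟩

theorem fieldtop_orb_fixed (ρ : Representation R G M) (y : G) (a : M) :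
    latAct ρ y (orb ρ y a) = orb ρ y a := by
  have : Fx (latAct ρ) (Subgroup.zpowers y) (orb ρ y a) := by
    rw [fx_latAct_iff]
    rintro _ ⟨j, rfl⟩ b hb
    have : orb ρ y a ≤ (orb ρ y a).comap (ρ (y ^ j)) := by
      refine Submodule.span_le.2 ?_
      rintro _ ⟨n, rfl⟩
      refine Submodule.subset_span ⟨j + n, ?_⟩
      simp only [zpow_add, map_mul, Module.End.mul_apply]
    exact this hb
  exact this y (Subgroup.mem_zpowers y)

theorem fieldtop_orb_fg [IsNoetherianRing R] (ρ : Representation R G M) (y : G) :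
    ∀ (i : ℕ) (a : M), ((ρ y - 1) ^ i) a = 0 → (orb ρ y a).FG := by
  intro i
  induction i with
  | zero =>
    intro a ha
    have : orb ρ y a = ⊥ := by
      rw [orb, Submodule.span_eq_bot]
      rintro _ ⟨n, rfl⟩
      have h0 : a = 0 := ha
      simp [h0]
    rw [this]
    exact Submodule.fg_bot
  | succ i ih =>
    intro a ha
    have h1 := ih ((ρ y - 1) a) (by rwa [pow_succ, Module.End.mul_apply] at ha)
    refine ((Submodule.fg_span_singleton a).sup h1).of_le (Submodule.span_le.2 ?_)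
    rintro _ ⟨n, rfl⟩
    have e : ∀ n : ℤ, ρ (y ^ (n + 1)) a = ρ (y ^ n) a + ρ (y ^ n) ((ρ y - 1) a) := by
      intro n
      rw [zpow_add_one, map_mul, Module.End.mul_apply, ← map_add]
      simp
    show ρ (y ^ n) a ∈ _
    induction n using Int.induction_on with
    | zero => exact Submodule.mem_sup_left (by simp)
    | succ n ihn =>
      rw [e]
      exact Submodule.add_mem _ ihn (Submodule.mem_sup_right (fieldtop_mem_orb ρ y _ _))
    | pred n ihn =>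
      have := e (-n - 1)
      rw [sub_add_cancel] at this
      rw [eq_sub_of_add_eq this.symm]
      exact Submodule.sub_mem _ ihn (Submodule.mem_sup_right (fieldtop_mem_orb ρ y _ _))

theorem fieldtop_quot_pow (Y : Module.End R M) (x : Submodule R M) (hx : x ≤ x.comap Y) (j : ℕ)
    (a : M) : ((x.mapQ x Y hx - 1) ^ j) (Submodule.Quotient.mk a) =
      Submodule.Quotient.mk (((Y - 1) ^ j) a) := by
  induction j generalizing a with
  | zero => rfl
  | succ j ih =>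
    rw [pow_succ, pow_succ, Module.End.mul_apply, Module.End.mul_apply, ← ih]
    rfl

end Orb

theorem fieldtop_core {k : Type} [Field k] (hk : FinData k) {G : Type} [Group G] {l h : ℕ}
    (hG : PC l (⊤ : Subgroup G)) {N : Subgroup G} {y : G} (hN : PZ h N)
    (hnil : Group.IsNilpotent N) (hnorm : ∀ g, Nz g N) (hy : ∀ g, g * y * g⁻¹ * y⁻¹ ∈ N)
    (hf : ∀ n : ℤ, y ^ n ∈ N → n = 0) (hneat : Neat y h N) {M : Type} [AddCommGroup M]
    [Module k M] (ρ : Representation k G M) (hρ : FGRep ρ) : UnipBdd (ρ y) := by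
  by_contra hcon
  obtain ⟨x, ⟨hx, hbad⟩, hmax⟩ := hρ.acc hG
    {x | Fx (latAct ρ) ⊤ x ∧
      ¬ ∃ n : ℕ, ∀ (a : M) (i : ℕ), ((ρ y - 1) ^ i) a ∈ x → ((ρ y - 1) ^ n) a ∈ x}
    ⟨⊥, Fx.bot, by simpa [UnipBdd] using hcon⟩ fun U hU => hU.1
  have hx' : ∀ g, x ≤ x.comap (ρ g) := fun g a ha =>
    (fx_latAct_iff ρ ⊤ x).1 hx g (Subgroup.mem_top g) a ha
  let σ : Representation k G (M ⧸ x) := ρ.quotient x hx'
  have hσ : ∀ (j : ℕ) (a : M), ((σ y - 1) ^ j) (Submodule.Quotient.mk a) =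
      Submodule.Quotient.mk (((ρ y - 1) ^ j) a) := fieldtop_quot_pow (ρ y) x (hx' y)
  have : Nontrivial (M ⧸ x) := by
    rw [Submodule.Quotient.nontrivial_iff]
    rintro rfl
    exact hbad ⟨0, fun _ _ _ => Submodule.mem_top⟩
  obtain ⟨k₁, hk₁, hk₁0, htop⟩ := top_lat (ρ := latAct σ) hN hnil hnorm hy hf hneat
  obtain ⟨P, hP, hPN, J, hJ, hfin⟩ := hk G (M ⧸ x) σ N h hN hnil k₁
    ((Submodule.fg_iff_compact k₁).2 hk₁)
  have hs := (fx_latAct_iff σ ⊤ _).1 (fx_span (ρ := latAct σ) ⊤ k₁)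
  have key : ∀ a ∈ span (latAct σ) ⊤ k₁, ∀ i : ℕ, ((σ y - 1) ^ i) a = 0 →
      ((σ y - 1) ^ J) a = 0 := by
    intro a ha i hi
    have h1 := htop P hP hPN (orb σ y a) (k ∙ (σ (y ^ J) a - a))
      ((Submodule.fg_iff_compact _).1 (fieldtop_orb_fg σ y i a hi)) (fieldtop_orb_fixed σ y a)
      ((Submodule.span_singleton_le_iff_mem _ _).2 (Submodule.sub_mem _
        (by simpa using fieldtop_mem_orb σ y a J) (by simpa using fieldtop_mem_orb σ y a 0)))
      (hfin y a i hi) (Submodule.span_le.2 (by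
        rintro _ ⟨n, rfl⟩
        exact hs _ (Subgroup.mem_top _) a ha))
    rw [Submodule.span_singleton_eq_bot] at h1
    have := fieldtop_pow_kill (σ y) hJ 1 (by simpa using h1) hi
    rwa [one_mul] at this
  have hx2 : Fx (latAct ρ) ⊤ ((span (latAct σ) ⊤ k₁).comap x.mkQ) := by
    rw [fx_latAct_iff]
    intro g hg a ha
    exact hs g hg _ ha
  have hle : x ≤ (span (latAct σ) ⊤ k₁).comap x.mkQ := fun a ha => by
    rw [Submodule.mem_comap, Submodule.mkQ_apply, (Submodule.Quotient.mk_eq_zero x).2 ha]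
    exact Submodule.zero_mem _
  have hgood : ∃ n : ℕ, ∀ (a : M) (i : ℕ), ((ρ y - 1) ^ i) a ∈ (span (latAct σ) ⊤ k₁).comap x.mkQ →
      ((ρ y - 1) ^ n) a ∈ (span (latAct σ) ⊤ k₁).comap x.mkQ := by
    by_contra h1
    have h2 := hmax _ ⟨hx2, h1⟩ hle
    apply hk₁0
    rw [eq_bot_iff]
    intro v hv
    obtain ⟨v, rfl⟩ := Submodule.Quotient.mk_surjective x v
    rw [Submodule.mem_bot, Submodule.Quotient.mk_eq_zero, ← h2]
    exact le_span (ρ := latAct σ) ⊤ k₁ hv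
  obtain ⟨n, hn⟩ := hgood
  refine hbad ⟨J + n, fun a i hi => ?_⟩
  have h1 := key _ (hn a i (hle hi)) i (by
    rw [Submodule.mkQ_apply, hσ, Submodule.Quotient.mk_eq_zero, ← Module.End.mul_apply, ← pow_add,
      add_comm, pow_add, Module.End.mul_apply, ← Submodule.Quotient.mk_eq_zero, ← hσ,
      (Submodule.Quotient.mk_eq_zero x).2 hi, map_zero])
  rwa [Submodule.mkQ_apply, hσ, Submodule.Quotient.mk_eq_zero, ← Module.End.mul_apply,
    ← pow_add] at h1

theorem ft_of_finData (k : Type) [Field k] (h : FinData k) : FT k := by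
  intro Q _ l hQ M _ _ ρ hρ y
  obtain ⟨Q₀, hQ₀, hnil₀⟩ := malcev hQ
  obtain ⟨Q₁, -, hQ₁, hpz⟩ := hQ.virtually_pz
  have : Q₁.FiniteIndex := ⟨by rwa [Subgroup.relIndex_top_right] at hQ₁⟩
  set Q₂ := Q₀ ⊓ Q₁ with hQ₂
  have hfi : Q₂.FiniteIndex := inferInstance
  obtain ⟨j, hj, -, hyj⟩ := Subgroup.exists_pow_mem_of_index_ne_zero hfi.index_ne_zero y
  let N : Subgroup (Q₂ × Multiplicative ℤ) :=
    ((⁅Q₂, Q₂⁆ : Subgroup Q).subgroupOf Q₂).map (MonoidHom.inl Q₂ (Multiplicative ℤ))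
  have hmem : ∀ g : Q₂ × Multiplicative ℤ, g ∈ N ↔ (g.1 : Q) ∈ ⁅Q₂, Q₂⁆ ∧ g.2 = 1 := by
    intro g
    constructor
    · rintro ⟨c, hc, rfl⟩
      exact ⟨hc, rfl⟩
    · rintro ⟨h1, h2⟩
      exact ⟨g.1, h1, Prod.ext rfl h2.symm⟩
  have hle : (⁅Q₂, Q₂⁆ : Subgroup Q) ≤ Q₂ := by
    rw [Subgroup.commutator_le]
    intro a ha b hb
    exact Q₂.mul_mem (Q₂.mul_mem (Q₂.mul_mem ha hb) (Q₂.inv_mem ha)) (Q₂.inv_mem hb)
  have hinl : Function.Injective (MonoidHom.inl Q₂ (Multiplicative ℤ)) := fun a b hab =>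
    congrArg Prod.fst hab
  have hN : PZ l N :=
    ((hpz.sub (hle.trans inf_le_right)).comap Q₂.subtype Q₂.subtype_injective).map _ hinl
  have hnil : Group.IsNilpotent N := by
    have := isNilpotent_of_le hnil₀
      (Subgroup.commutator_mono (inf_le_left : Q₂ ≤ Q₀) (inf_le_left : Q₂ ≤ Q₀))
    have := Group.nilpotent_of_mulEquiv (Subgroup.subgroupOfEquivOfLe hle).symm
    exact Group.nilpotent_of_surjective _
      ((MonoidHom.inl Q₂ (Multiplicative ℤ)).subgroupMap_surjective _)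
  have hcomm : ∀ a b : Q₂ × Multiplicative ℤ, a * b * a⁻¹ * b⁻¹ ∈ N := by
    intro a b
    rw [hmem]
    exact ⟨Subgroup.commutator_mem_commutator a.1.2 b.1.2, by simp⟩
  have hconj : ∀ g a : Q₂ × Multiplicative ℤ, a ∈ N → g * a * g⁻¹ ∈ N := by
    intro g a ha
    simpa using N.mul_mem (hcomm g a) ha
  have hnorm : ∀ g, Nz g N := fun g =>
    Nz.of_forall (hconj g) fun a ha => by simpa using hconj g⁻¹ a ha
  obtain ⟨J, hJ, hneat⟩ := neat_exists (G := Q₂ × Multiplicative ℤ) l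
  let ρ' : Representation k (Q₂ × Multiplicative ℤ) M :=
    ρ.comp (Q₂.subtype.comp (MonoidHom.fst _ _))
  have hρ' : FGRep ρ' := by
    obtain ⟨U, hU, hU'⟩ := hρ
    refine ⟨⨆ c : Q ⧸ Q₂, U.map (ρ (c.out)⁻¹), Submodule.fg_iSup _ fun c => hU.map _, ?_⟩
    rw [eq_top_iff, ← hU', tr_le_iff]
    intro g _
    obtain ⟨q, hq⟩ := QuotientGroup.mk_out_eq_mul Q₂ g⁻¹
    have e : g = q * ((QuotientGroup.mk g⁻¹ : Q ⧸ Q₂).out)⁻¹ := by rw [hq]; group
    refine le_trans ?_ (le_tr (ρ := latAct ρ') (g := (q, 1)) (Subgroup.mem_top _) _)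
    rw [latAct_apply, latAct_apply]
    rintro _ ⟨v, hv, rfl⟩
    refine ⟨ρ ((QuotientGroup.mk g⁻¹ : Q ⧸ Q₂).out)⁻¹ v,
      Submodule.mem_iSup_of_mem _ ⟨v, hv, rfl⟩, ?_⟩
    conv_rhs => rw [e, map_mul]
    rfl
  obtain ⟨n, hn⟩ := fieldtop_core h (hQ.sub (le_top (a := Q₂))).top.prod_int hN hnil hnorm
    (y := ((⟨y ^ j, hyj⟩ : Q₂), Multiplicative.ofAdd (1 : ℤ)) ^ J) (fun g => hcomm g _) (by
      intro m hm
      have h1 := congrArg Multiplicative.toAdd ((hmem _).1 hm).2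
      simp only [Prod.pow_snd, toAdd_zpow, toAdd_pow, toAdd_ofAdd, toAdd_one] at h1
      simpa [hJ.ne'] using h1)
    (hneat N _ hN (hnorm _)) ρ' hρ'
  have e : ρ' (((⟨y ^ j, hyj⟩ : Q₂), Multiplicative.ofAdd (1 : ℤ)) ^ J) = ρ y ^ (j * J) := by
    rw [← map_pow, pow_mul]
    rfl
  rw [e] at hn
  exact ⟨n * (j * J), fun a i hi => fieldtop_pow_kill (ρ y) (Nat.mul_pos hj hJ) n
    (hn a i (fieldtop_unip_pow _ _ hi)) hi⟩

end Pool.Agent.Lib.MP_36fb39_al
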