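import Pool.Agent.Lib.MP_36fb39_al.Hall

set_option autoImplicit false

namespace Pool.Agent.Lib.MP_36fb39_al

section
variable {G : Type*} [Group G] {L : Type*} [CompleteLattice L]
  {ρ : G →* (L ≃o L)} {Γ Γ' : Subgroup G} {e : ℕ} {a b c u k x s : L}

theorem Ge.lt (h : Ge ρ Γ e a b) : a < b := by
  induction h with
  | zero h => exact h
  | down _ _ ih => exact ih
  | free _ h1 h2 _ _ _ _ ih => exact lt_of_le_of_lt h1 (lt_of_lt_of_le ih h2)

theorem Ge.mono (h : Ge ρ Γ e a b) {a' b' : L} (ha : a' ≤ a) (hb : b ≤ b') : Ge ρ Γ e a' b' := by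
  induction h generalizing a' b' with
  | zero h => exact Ge.zero (lt_of_le_of_lt ha (lt_of_lt_of_le h hb))
  | down hs _ ih => exact Ge.down hs (ih ha hb)
  | free hs h1 h2 h3 h4 h5 h6 _ => exact Ge.free hs (ha.trans h1) (h2.trans hb) h3 h4 h5 h6

theorem Ge.of_le (h : Ge ρ Γ e a b) {e' : ℕ} (he : e' ≤ e) : Ge ρ Γ e' a b := by
  induction h generalizing e' with
  | zero h =>
    obtain rfl : e' = 0 := by omega
    exact Ge.zero h
  | down hs _ ih => exact Ge.down hs (ih he)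
  | free hs h1 h2 h3 h4 h5 h6 ih =>
    rcases e' with _ | e'
    · exact Ge.zero (lt_of_le_of_lt h1 (lt_of_lt_of_le h6.lt h2))
    · exact Ge.free hs h1 h2 h3 h4 h5 (ih (by omega))

theorem ge_zero_iff : Ge ρ Γ 0 a b ↔ a < b := ⟨Ge.lt, Ge.zero⟩

theorem ge_bot_iff : Ge ρ ⊥ e a b ↔ e = 0 ∧ a < b := by
  refine ⟨fun h => ⟨?_, h.lt⟩, ?_⟩
  · have key : ∀ (Δ : Subgroup G) (e : ℕ) (a b : L), Ge ρ Δ e a b → Δ = ⊥ → e = 0 := by
      intro Δ e a b h
      cases h with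
      | zero _ => exact fun _ => rfl
      | down hs _ => rintro rfl; exact absurd hs Step.not_bot
      | free hs _ _ _ _ _ _ => rintro rfl; exact absurd hs Step.not_bot
    exact key _ _ _ _ h rfl
  · rintro ⟨rfl, h⟩
    exact Ge.zero h

theorem not_ge_of_le (h : b ≤ a) : ¬ Ge ρ Γ e a b := fun h' => h'.lt.not_ge h

theorem Free.ge {t : G} (h : Free ρ Γ' Γ e a b) (hs : Step Γ' Γ t) : Ge ρ Γ (e + 1) a b := by
  obtain ⟨a', u, h1, h2, h3, h4, h5, h6⟩ := h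
  exact Ge.free hs h1 h2 h3 h4 h5 h6

theorem Free.mono (h : Free ρ Γ' Γ e a b) {a' b' : L} (ha : a' ≤ a) (hb : b ≤ b') :
    Free ρ Γ' Γ e a' b' := by
  obtain ⟨a'', u, h1, h2, h3, h4, h5, h6⟩ := h
  exact ⟨a'', u, ha.trans h1, h2.trans hb, h3, h4, h5, h6⟩

theorem ge_fx_map_conj (g : G) (ha : Fx ρ Γ a) :
    Fx ρ (Γ.map (MulAut.conj g).toMonoidHom) (ρ g a) := by
  rintro _ ⟨x, hx, rfl⟩
  have h1 : (MulAut.conj g).toMonoidHom x * g = g * x := by
    change g * x * g⁻¹ * g = g * x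
    group
  rw [← act_mul, h1, act_mul, ha x hx]

theorem ge_map_conj (g : G) (h : Ge ρ Γ e a b) :
    Ge ρ (Γ.map (MulAut.conj g).toMonoidHom) e (ρ g a) (ρ g b) := by
  have hst : ∀ {Δ' Δ : Subgroup G} {t : G}, Step Δ' Δ t →
      Step (Δ'.map (MulAut.conj g).toMonoidHom) (Δ.map (MulAut.conj g).toMonoidHom)
        ((MulAut.conj g).toMonoidHom t) := by
    intro Δ' Δ t hs
    refine hs.map _ fun x _ hx => ?_
    have h1 : x = 1 := (MulAut.conj g).injective (hx.trans (map_one _).symm)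
    rw [h1]
    exact Δ'.one_mem
  induction h with
  | zero h => exact Ge.zero ((ρ g).strictMono h)
  | down hs _ ih => exact Ge.down (hst hs) ih
  | @free Δ' Δ t e a b a' u hs h1 h2 h3 h4 h5 _ ih =>
    refine Ge.free (hst hs) ((ρ g).monotone h1) ((ρ g).monotone h2) (ge_fx_map_conj g h3)
      (ge_fx_map_conj g h4) ?_ ih
    have h6 := (ρ g).monotone h5
    rw [OrderIso.map_inf, OrderIso.map_sup] at h6
    refine le_trans (inf_le_inf_left _ (sup_le_sup_left (tr_le_iff.mpr ?_) _)) h6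
    rintro _ ⟨⟨x, hx, rfl⟩, hx'⟩
    have h7 : (MulAut.conj g).toMonoidHom x * g = g * x := by
      change g * x * g⁻¹ * g = g * x
      group
    rw [← act_mul, h7, act_mul]
    exact (ρ g).monotone (le_tr (S := (Δ : Set G) \ (Δ' : Set G))
      ⟨hx, fun h => hx' ⟨x, h, rfl⟩⟩ u)

theorem Ge.conj (h : Ge ρ Γ e a b) {g : G} (hg : Nz g Γ) : Ge ρ Γ e (ρ g a) (ρ g b) := by
  have h1 : Γ.map (MulAut.conj g).toMonoidHom = Γ := by
    ext x
    constructor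
    · rintro ⟨y, hy, rfl⟩
      exact (hg y).mp hy
    · intro hx
      refine ⟨g⁻¹ * x * g, (hg _).mpr (by simpa [mul_assoc] using hx), ?_⟩
      change g * (g⁻¹ * x * g) * g⁻¹ = x
      group
  have h2 := ge_map_conj g h
  rwa [h1] at h2

theorem Ge.bound {h : ℕ} (hΓ : PZ h Γ) (hg : Ge ρ Γ e a b) : e ≤ h := by
  induction hg generalizing h with
  | zero _ => exact Nat.zero_le _
  | down hs _ ih =>
    rcases h with _ | h
    · rw [pz_zero_iff.mp hΓ] at hs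
      exact absurd hs Step.not_bot
    · exact (ih (hΓ.step_down hs)).trans (Nat.le_succ _)
  | free hs _ _ _ _ _ _ ih =>
    rcases h with _ | h
    · rw [pz_zero_iff.mp hΓ] at hs
      exact absurd hs Step.not_bot
    · exact Nat.succ_le_succ (ih (hΓ.step_down hs))

theorem Ge.chain {Z : Subgroup G} {m : ℕ} (h : Ge ρ Z e a b) (hc : Chain Z m Γ) :
    Ge ρ Γ e a b := by
  induction hc with
  | refl => exact h
  | step _ hs ih => exact Ge.down hs ih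

end

variable {G : Type*} [Group G] {L : Type*} [CompleteLattice L] [IsModularLattice L]
  [IsCompactlyGenerated L] {ρ : G →* (L ≃o L)} {Γ Γ' : Subgroup G} {e : ℕ} {a b c u k x s : L}

omit [IsCompactlyGenerated L] in
theorem Ge.tup (h : Ge ρ Γ e a b) (hb : Fx ρ Γ b) (hc : Fx ρ Γ c) (hbc : b ⊓ c ≤ a) :
    Ge ρ Γ e (a ⊔ c) (b ⊔ c) := by
  induction h with
  | @zero Δ a b h =>
    refine Ge.zero (lt_of_le_not_ge (sup_le_sup_right h.le c) fun h1 => h.not_ge ?_)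
    have h2 : b ≤ (a ⊔ c) ⊓ b := le_inf (le_sup_left.trans h1) le_rfl
    rw [sup_inf_assoc_of_le c h.le, inf_comm] at h2
    exact h2.trans (sup_le le_rfl hbc)
  | down hs _ ih => exact Ge.down hs (ih (hb.mono hs.le) (hc.mono hs.le) hbc)
  | @free Δ' Δ t e a b a' u hs h1 h2 h3 h4 h5 h6 ih =>
    have hau : a' ≤ u := h6.lt.le
    refine Ge.free hs (sup_le_sup_right h1 c) (sup_le_sup_right h2 c) (h3.sup hc)
      (h4.sup (hc.mono hs.le)) ?_
      (ih h4 (hc.mono hs.le) ((inf_le_inf_right c h2).trans (hbc.trans h1)))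
    have hR : a' ⊔ tr ρ ((Δ : Set G) \ (Δ' : Set G)) u ≤ b :=
      sup_le (hau.trans h2) (tr_le_of_fx (fun _ h => h.1) hb h2)
    have h7 : a' ⊔ c ⊔ tr ρ ((Δ : Set G) \ (Δ' : Set G)) (u ⊔ c) ≤
        c ⊔ (a' ⊔ tr ρ ((Δ : Set G) \ (Δ' : Set G)) u) := by
      rw [tr_sup]
      exact sup_le (sup_le (le_sup_of_le_right le_sup_left) le_sup_left)
        (sup_le (le_sup_of_le_right le_sup_right)
          (le_sup_of_le_left (tr_le_of_fx (fun _ h => h.1) hc le_rfl)))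
    refine (inf_le_inf_left _ h7).trans ?_
    rw [inf_comm, sup_inf_assoc_of_le _ (le_sup_right : c ≤ u ⊔ c)]
    refine sup_le le_sup_right (le_sup_of_le_left (le_trans (le_inf ?_ inf_le_left) h5))
    refine (inf_le_inf_right _ hR).trans ?_
    rw [inf_comm, sup_inf_assoc_of_le c h2, inf_comm]
    exact sup_le le_rfl (hbc.trans (h1.trans hau))

omit [IsCompactlyGenerated L] in
theorem Ge.tdown {c' d : L} (h : Ge ρ Γ e c' d) (hb : Fx ρ Γ b) (hc : c ≤ c') (hd : d ≤ b ⊔ c) :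
    Ge ρ Γ e (b ⊓ c') (b ⊓ d) := by
  induction h with
  | @zero Δ c' d h =>
    refine Ge.zero (lt_of_le_not_ge (inf_le_inf_left b h.le) fun h1 => h.not_ge ?_)
    have h2 : d ≤ (c ⊔ b) ⊓ d := le_inf (by rwa [sup_comm]) le_rfl
    rw [sup_inf_assoc_of_le b (hc.trans h.le)] at h2
    exact h2.trans (sup_le hc (h1.trans inf_le_right))
  | down hs _ ih => exact Ge.down hs (ih (hb.mono hs.le) hc hd)
  | @free Δ' Δ t e c' d a' u hs h1 h2 h3 h4 h5 h6 ih =>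
    refine Ge.free hs (inf_le_inf_left b h1) (inf_le_inf_left b h2) (hb.inf h3)
      ((hb.mono hs.le).inf h4) ?_ (ih (hb.mono hs.le) (hc.trans h1) (h2.trans hd))
    refine le_inf (inf_le_left.trans inf_le_left) (le_trans ?_ h5)
    exact inf_le_inf inf_le_right (sup_le_sup inf_le_right (tr_mono le_rfl inf_le_right))

omit [IsCompactlyGenerated L] in
theorem not_ge_sup (h : ¬ Ge ρ Γ e a b) (hb : Fx ρ Γ b) (hab : a ≤ b) (c : L) :
    ¬ Ge ρ Γ e (a ⊔ c) (b ⊔ c) := fun h' =>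
  h ((h'.tdown hb le_sup_right le_rfl).mono (le_inf hab le_sup_left) inf_le_left)

omit [IsCompactlyGenerated L] in
theorem not_ge_inf (h : ¬ Ge ρ Γ e a b) (ha : Fx ρ Γ a) (hb : Fx ρ Γ b) (hc : Fx ρ Γ c)
    (hab : a ≤ b) : ¬ Ge ρ Γ e (a ⊓ c) (b ⊓ c) := fun h' =>
  h ((h'.tup (hb.inf hc) ha (le_inf inf_le_right (inf_le_left.trans inf_le_right))).mono
    le_sup_right (sup_le inf_le_left hab))

theorem Ge.cpt (h : Ge ρ Γ e a b) (ha : Fx ρ Γ a) :
    ∃ k, IsCompactElement k ∧ k ≤ b ∧ Ge ρ Γ e a (a ⊔ span ρ Γ k) := by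
  induction h with
  | @zero Δ a b h =>
    obtain ⟨k, hk, h1, h2⟩ := exists_compact_not_le h.not_ge
    refine ⟨k, hk, h1, Ge.zero (lt_of_le_not_ge le_sup_left fun h3 => h2 ?_)⟩
    exact (le_span Δ k).trans (le_sup_right.trans h3)
  | down hs _ ih =>
    obtain ⟨k, hk, h1, h2⟩ := ih (ha.mono hs.le)
    exact ⟨k, hk, h1, Ge.down hs (h2.mono le_rfl (sup_le_sup_left (span_mono hs.le le_rfl) _))⟩
  | @free Δ' Δ t e a b a' u hs h1 h2 h3 h4 h5 h6 ih =>
    obtain ⟨k, hk, h7, h8⟩ := ih (h3.mono hs.le)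
    refine ⟨k, hk, h7.trans h2, ?_⟩
    have h9 : Ge ρ Δ (e + 1) a' (a' ⊔ span ρ Δ' k) :=
      Ge.free hs le_rfl le_rfl h3 ((h3.mono hs.le).sup (fx_span Δ' k))
        (h5.mono le_rfl (sup_le h6.lt.le (span_le h4 h7))) h8
    refine (h9.tdown (b := a ⊔ span ρ Δ k) (ha.sup (fx_span Δ k)) le_rfl ?_).mono
      (le_inf le_sup_left h1) inf_le_left
    exact sup_le le_sup_right (le_sup_of_le_left (le_sup_of_le_right (span_mono hs.le le_rfl)))

theorem Ge.directed {S : Set L} (h : Ge ρ Γ e a (sSup S)) (ha : Fx ρ Γ a) (hS : S.Nonempty)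
    (hd : DirectedOn (· ≤ ·) S) (hi : ∀ w ∈ S, Fx ρ Γ w) : ∃ w ∈ S, Ge ρ Γ e a (a ⊔ w) := by
  obtain ⟨k, hk, h1, h2⟩ := h.cpt ha
  rw [CompleteLattice.isCompactElement_iff_le_of_directed_sSup_le] at hk
  obtain ⟨w, hw, h3⟩ := hk S hS hd h1
  exact ⟨w, hw, h2.mono le_rfl (sup_le_sup_left (span_le (hi w hw) h3) _)⟩

theorem not_ge_trans (hex : Ex ρ Γ) (ha : Fx ρ Γ a) (hb : Fx ρ Γ b) (hc : Fx ρ Γ c)
    (hab : a ≤ b) (hbc : b ≤ c) (h₁ : ¬ Ge ρ Γ e a b) (h₂ : ¬ Ge ρ Γ e b c) :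
    ¬ Ge ρ Γ e a c := fun h => (hex e a b c ha hb hc hab hbc h).elim h₁ h₂

theorem not_ge_sSup (hex : Ex ρ Γ) (ha : Fx ρ Γ a) {S : Set L} (hi : ∀ w ∈ S, Fx ρ Γ w)
    (h : ∀ w ∈ S, ¬ Ge ρ Γ e a (a ⊔ w)) : ¬ Ge ρ Γ e a (a ⊔ sSup S) := by
  classical
  have hfx : ∀ F : Finset L, (F : Set L) ⊆ S → Fx ρ Γ (⨆ i ∈ (F : Set L), i) := fun F hF =>
    Fx.iSup fun i => Fx.iSup fun hi' => hi i (hF hi')
  have key : ∀ F : Finset L, (F : Set L) ⊆ S → ¬ Ge ρ Γ e a (a ⊔ ⨆ i ∈ (F : Set L), i) := by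
    intro F
    induction F using Finset.induction_on with
    | empty => intro _; exact not_ge_of_le (by simp)
    | insert w F _ ih =>
      intro hF
      have hw : w ∈ S := hF (by simp)
      have hF' : (F : Set L) ⊆ S := fun j hj => hF (by simp [show j ∈ F from hj])
      rw [Finset.coe_insert, iSup_insert, ← sup_assoc]
      exact not_ge_trans hex ha (ha.sup (hfx F hF')) ((ha.sup (hi w hw)).sup (hfx F hF'))
        le_sup_left (sup_le_sup_right le_sup_left _) (ih hF')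
        (not_ge_sup (h w hw) (ha.sup (hi w hw)) le_sup_left _)
  intro h'
  obtain ⟨k, hk, h1, h2⟩ := h'.cpt ha
  rw [sSup_eq_iSup] at h1
  obtain ⟨F, hF, h3⟩ := lat1_exists_finset (f := fun i : L => i) hk h1
  exact key F hF (h2.mono le_rfl (sup_le le_sup_left (span_le (ha.sup (hfx F hF)) h3)))

/-- subdirect products: small quotients have a small meet. -/
theorem not_ge_inf_base (hex : Ex ρ Γ) (ha : Fx ρ Γ a) (hb : Fx ρ Γ b) (hc : Fx ρ Γ c)
    (hac : a ≤ c) (hbc : b ≤ c) (h₁ : ¬ Ge ρ Γ e a c) (h₂ : ¬ Ge ρ Γ e b c) :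
    ¬ Ge ρ Γ e (a ⊓ b) c := by
  have h3 := not_ge_inf h₁ ha hc hb hac
  rw [inf_eq_right.mpr hbc] at h3
  exact not_ge_trans hex (ha.inf hb) hb hc inf_le_right hbc h3 h₂

/-- smallness passes to the span under a bigger group normalizing `Γ'`. -/
theorem not_ge_span (hex : Ex ρ Γ') (hn : ∀ g ∈ Γ, Nz g Γ') (ha : Fx ρ Γ a) (ha' : Fx ρ Γ' a)
    (hu : Fx ρ Γ' u) (h : ¬ Ge ρ Γ' e a (a ⊔ u)) : ¬ Ge ρ Γ' e a (a ⊔ span ρ Γ u) := by
  have h1 : span ρ Γ u = sSup ((fun g => ρ g u) '' (Γ : Set G)) := by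
    rw [sSup_image]; rfl
  rw [h1]
  refine not_ge_sSup hex ha' ?_ ?_
  · rintro _ ⟨g, hg, rfl⟩
    exact hu.conj (hn g hg)
  · rintro _ ⟨g, hg, rfl⟩ h2
    have h3 := h2.conj (hn g⁻¹ (Γ.inv_mem hg))
    rw [OrderIso.map_sup, ha _ (Γ.inv_mem hg), act_inv_act] at h3
    exact h h3

/-- independent translates along a chain add to the dimension. -/
theorem ge_of_indOn {Z : Subgroup G} {m : ℕ} (hc : Chain Z m Γ) (ha : Fx ρ Γ a) (hu : Fx ρ Z u)
    (hi : IndOn ρ ((Γ : Set G) \ (Z : Set G)) a u) (h : Ge ρ Z e a u) :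
    Ge ρ Γ (e + m) a (span ρ Γ u) := by
  induction hc with
  | refl => rw [hu.span_eq]; exact h
  | @step m Δ' Δ t hc hs ih =>
    exact Ge.free hs le_rfl (span_mono hs.le le_rfl) ha (fx_span Δ' u)
      (ind_group hc.le hs.le ha hu hi)
      (ih (ha.mono hs.le) (hi.mono (fun _ h => ⟨hs.le h.1, h.2⟩) le_rfl))

end Pool.Agent.Lib.MP_36fb39_al
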