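import Pool.Agent.Lib.MP_36fb39_al.Lat

set_option autoImplicit false

namespace Pool.Agent.Lib.MP_36fb39_al

theorem cone_lex (e : ℕ) :
    Cone {b : Multiplicative (Fin e → ℤ) | LexPos (Multiplicative.toAdd b)} := by
  refine ⟨?_, ?_, ?_⟩
  · rintro a ⟨i, hi, hi'⟩ b ⟨j, hj, hj'⟩
    rcases lt_trichotomy i j with h | rfl | h
    · refine ⟨i, ?_, fun k hk => ?_⟩
      · simp only [toAdd_mul, Pi.add_apply, hj' i h]; omega
      · simp only [toAdd_mul, Pi.add_apply, hi' k hk, hj' k (hk.trans h)]; rfl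
    · refine ⟨i, ?_, fun k hk => ?_⟩
      · simp only [toAdd_mul, Pi.add_apply]; omega
      · simp only [toAdd_mul, Pi.add_apply, hi' k hk, hj' k hk]; rfl
    · refine ⟨j, ?_, fun k hk => ?_⟩
      · simp only [toAdd_mul, Pi.add_apply, hi' j h]; omega
      · simp only [toAdd_mul, Pi.add_apply, hj' k hk, hi' k (hk.trans h)]; rfl
  · rintro ⟨i, hi, -⟩
    simp at hi
  · intro a ha
    have hne : {i | Multiplicative.toAdd a i ≠ 0}.Nonempty := by
      by_contra h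
      apply ha
      apply Multiplicative.toAdd.injective
      funext i
      by_contra h1
      exact h ⟨i, h1⟩
    obtain ⟨i, hi, hmin⟩ := wellFounded_lt.has_min _ hne
    have hz : ∀ j < i, Multiplicative.toAdd a j = 0 := fun j hj => by
      by_contra h1
      exact hmin j h1 hj
    rcases lt_or_gt_of_ne (show Multiplicative.toAdd a i ≠ 0 from hi) with h | h
    · right
      exact ⟨i, by simpa using h, fun j hj => by simp [hz j hj]⟩
    · exact Or.inl ⟨i, h, hz⟩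

theorem cone_real {e : ℕ} (χ : (Fin e → ℤ) →+ ℝ) (hχ : Function.Injective χ) :
    Cone {b : Multiplicative (Fin e → ℤ) | 0 < χ (Multiplicative.toAdd b)} := by
  refine ⟨fun a ha b hb => ?_, by simp, fun a ha => ?_⟩
  · simp only [Set.mem_ofPred_eq, toAdd_mul, map_add] at ha hb ⊢
    exact add_pos ha hb
  · have h1 : χ (Multiplicative.toAdd a) ≠ 0 := fun h1 =>
      ha (Multiplicative.toAdd.injective (hχ (by simpa using h1)))
    rcases lt_or_gt_of_ne h1 with h | h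
    · right; simpa using h
    · exact Or.inl h

theorem exists_real_approx {e : ℕ} (E : Finset (Fin e → ℤ)) (hE : ∀ v ∈ E, LexPos v) :
    ∃ χ : (Fin e → ℤ) →+ ℝ, Function.Injective χ ∧ ∀ v ∈ E, 0 < χ v := by
  set M : ℝ := ∑ v ∈ E, ∑ j, |(v j : ℝ)| + 1 with hM
  have hM0 : 0 ≤ ∑ v ∈ E, ∑ j, |(v j : ℝ)| := by positivity
  have hM1 : 1 ≤ M := by linarith
  obtain ⟨ε, hε, h0, h1⟩ := dense_liouville.exists_between (show (0 : ℝ) < 1 / M by positivity)
  have hεM : ε * M < 1 := by rwa [lt_div_iff₀ (by linarith)] at h1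
  have hε1 : ε ≤ 1 := by nlinarith
  refine ⟨AddMonoidHom.mk' (fun v => ∑ j : Fin e, (v j : ℝ) * ε ^ (j : ℕ)) fun v w => by
    simp [add_mul, Finset.sum_add_distrib], ?_, fun v hv => ?_⟩
  · rw [injective_iff_map_eq_zero]
    intro v hv
    have ht : Transcendental ℤ ε := Liouville.transcendental hε
    have h2 : ∑ j : Fin e, Polynomial.monomial (j : ℕ) (v j) = 0 := by
      refine (transcendental_iff.1 ht) _ ?_
      simpa [map_sum, Polynomial.aeval_monomial] using hv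
    funext i
    have h3 := congrArg (fun p => Polynomial.coeff p i) h2
    simp only [Polynomial.finsetSum_coeff, Polynomial.coeff_monomial, Polynomial.coeff_zero,
      Fin.val_inj, Finset.sum_ite_eq', Finset.mem_univ, if_true] at h3
    exact h3
  · obtain ⟨i, hi, hi'⟩ := hE v hv
    show 0 < ∑ j : Fin e, (v j : ℝ) * ε ^ (j : ℕ)
    have h2 : ∀ j : Fin e, (if j = i then ε ^ (i : ℕ) else 0) - |(v j : ℝ)| * ε ^ ((i : ℕ) + 1) ≤
        (v j : ℝ) * ε ^ (j : ℕ) := by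
      intro j
      rcases lt_trichotomy j i with h | rfl | h
      · simp [hi' j h, h.ne]
      · have : (1 : ℝ) ≤ v j := by exact_mod_cast hi
        have a1 : 0 < ε ^ (j : ℕ) := by positivity
        have a2 : 0 ≤ |(v j : ℝ)| * ε ^ ((j : ℕ) + 1) := by positivity
        rw [if_pos rfl]
        nlinarith
      · rw [if_neg h.ne']
        have a1 : ε ^ (j : ℕ) ≤ ε ^ ((i : ℕ) + 1) := pow_le_pow_of_le_one h0.le hε1 h
        have a2 := mul_le_mul_of_nonneg_left a1 (abs_nonneg (v j : ℝ))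
        have a3 := mul_le_mul_of_nonneg_right (neg_abs_le (v j : ℝ)) (pow_pos h0 j).le
        linarith
    refine lt_of_lt_of_le ?_ (Finset.sum_le_sum fun j _ => h2 j)
    rw [Finset.sum_sub_distrib, ← Finset.sum_mul]
    simp only [Finset.sum_ite_eq', Finset.mem_univ, if_true]
    have h3 : ∑ j, |(v j : ℝ)| ≤ M := by
      have := Finset.single_le_sum (f := fun v : Fin e → ℤ => ∑ j, |(v j : ℝ)|)
        (fun _ _ => by positivity) hv
      linarith
    have h4 := mul_le_mul_of_nonneg_right h3 (pow_pos h0 ((i : ℕ) + 1)).le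
    have h5 := mul_lt_mul_of_pos_right hεM (pow_pos h0 (i : ℕ))
    rw [pow_succ] at h4 ⊢
    linarith

section GrobAux

variable {B : Type*} [CommGroup B]

theorem Cone.grob_trans {P : Set B} (hP : Cone P) {a b c : B} (h1 : a⁻¹ * b ∈ P)
    (h2 : b⁻¹ * c ∈ P) : a⁻¹ * c ∈ P := by
  have := hP.mul _ h1 _ h2
  rwa [mul_assoc, mul_inv_cancel_left] at this

theorem Cone.grob_irrefl {P : Set B} (hP : Cone P) (a : B) : a⁻¹ * a ∉ P := by
  rw [inv_mul_cancel]; exact hP.one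

theorem Cone.grob_total {P : Set B} (hP : Cone P) {a b : B} (h : a ≠ b) :
    a⁻¹ * b ∈ P ∨ b⁻¹ * a ∈ P := by
  have := hP.total (a⁻¹ * b) fun h1 => h (inv_mul_eq_one.1 h1)
  rwa [mul_inv_rev, inv_inv] at this

theorem Cone.grob_least {P : Set B} (hP : Cone P) (Λ : Finset B) (hΛ : Λ.Nonempty) :
    ∃ a ∈ Λ, ∀ b ∈ Λ, b ≠ a → a⁻¹ * b ∈ P := by
  induction hΛ using Finset.Nonempty.cons_induction with
  | singleton a => exact ⟨a, by simp, by simp⟩
  | cons a s ha _ ih =>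
    obtain ⟨c, hc, hc'⟩ := ih
    have hac : a ≠ c := by rintro rfl; exact ha hc
    rcases hP.grob_total hac with h | h
    · refine ⟨a, Finset.mem_cons_self _ _, fun b hb hba => ?_⟩
      have hb' := (Finset.mem_cons.1 hb).resolve_left hba
      by_cases hbc : b = c
      · rwa [hbc]
      · exact hP.grob_trans h (hc' b hb' hbc)
    · refine ⟨c, Finset.mem_cons_of_mem hc, fun b hb hbc => ?_⟩
      rcases Finset.mem_cons.1 hb with rfl | hb'
      · exact h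
      · exact hc' b hb' hbc

variable {L : Type*} [CompleteLattice L] [IsModularLattice L] {τ : B →* (L ≃o L)} {Y : L}

theorem grob_two_orders {P P' : Set B} (hP : Cone P) (hP' : Cone P') (n : ℕ) :
    ∀ Λ : Finset B, Λ.card = n →
      (∀ β ∈ Λ, τ β Y ⊓ tr τ {γ | γ ∈ Λ ∧ β⁻¹ * γ ∈ P} Y ≤
        tr τ {γ | γ ∈ Λ ∧ β⁻¹ * γ ∈ P ∧ β⁻¹ * γ ∈ P'} Y) →
      ∀ β ∈ Λ, τ β Y ⊓ tr τ {γ | γ ∈ Λ ∧ β⁻¹ * γ ∈ P'} Y ≤ tr τ {γ | γ ∈ Λ ∧ β⁻¹ * γ ∈ P} Y := by
  classical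
  induction n with
  | zero =>
    intro Λ hΛ _ β hβ
    rw [Finset.card_eq_zero.1 hΛ] at hβ
    simp at hβ
  | succ n ih =>
    intro Λ hΛ h β hβ
    obtain ⟨a, ha, ha'⟩ := hP.grob_least Λ ⟨β, hβ⟩
    by_cases hβa : β = a
    · subst hβa
      refine inf_le_right.trans (tr_mono (fun γ hγ => ⟨hγ.1, ha' γ hγ.1 ?_⟩) le_rfl)
      rintro rfl
      exact hP'.grob_irrefl _ hγ.2
    have hnot : ∀ b ∈ Λ, ∀ γ, b⁻¹ * γ ∈ P → γ ≠ a := by
      rintro b hb γ h1 rfl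
      by_cases hb' : b = γ
      · subst hb'; exact hP.grob_irrefl _ h1
      · exact hP.grob_irrefl _ (hP.grob_trans h1 (ha' b hb hb'))
    have h1 := ih (Λ.erase a) (by rw [Finset.card_erase_of_mem ha, hΛ]; rfl) (by
      intro b hb
      have hb' := Finset.mem_of_mem_erase hb
      refine le_trans (inf_le_inf_left _ (tr_mono ?_ le_rfl)) ((h b hb').trans (tr_mono ?_ le_rfl))
      · exact fun γ hγ => ⟨Finset.mem_of_mem_erase hγ.1, hγ.2⟩
      · exact fun γ hγ => ⟨Finset.mem_erase.2 ⟨hnot b hb' γ hγ.2.1, hγ.1⟩, hγ.2⟩)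
      β (Finset.mem_erase.2 ⟨hβa, hβ⟩)
    refine le_trans (le_inf inf_le_left ?_) (h1.trans (tr_mono
      (fun γ hγ => ⟨Finset.mem_of_mem_erase hγ.1, hγ.2⟩) le_rfl))
    set R := tr τ {γ | γ ∈ Λ.erase a ∧ β⁻¹ * γ ∈ P'} Y with hR
    by_cases hβ' : β⁻¹ * a ∈ P'
    · have t1 : τ a Y ⊓ (τ β Y ⊔ R) ≤ R := by
        refine le_trans (inf_le_inf_left _ ?_) ((h a ha).trans (tr_mono ?_ le_rfl))
        · refine sup_le (le_tr (show β ∈ {γ | γ ∈ Λ ∧ a⁻¹ * γ ∈ P} from ⟨hβ, ha' β hβ hβa⟩) Y)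
            (tr_mono (fun γ hγ => ?_) le_rfl)
          obtain ⟨g1, g2⟩ := Finset.mem_erase.1 hγ.1
          exact ⟨g2, ha' γ g2 g1⟩
        · exact fun γ hγ => ⟨Finset.mem_erase.2 ⟨hnot a ha γ hγ.2.1, hγ.1⟩,
            hP'.grob_trans hβ' hγ.2.2⟩
      have t2 : tr τ {γ | γ ∈ Λ ∧ β⁻¹ * γ ∈ P'} Y ≤ R ⊔ τ a Y := by
        refine tr_le_iff.2 fun γ hγ => ?_
        by_cases hγa : γ = a
        · rw [hγa]; exact le_sup_right
        · exact le_sup_of_le_left (le_tr (show γ ∈ {γ | γ ∈ Λ.erase a ∧ β⁻¹ * γ ∈ P'} from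
            ⟨Finset.mem_erase.2 ⟨hγa, hγ.1⟩, hγ.2⟩) Y)
      calc τ β Y ⊓ tr τ {γ | γ ∈ Λ ∧ β⁻¹ * γ ∈ P'} Y ≤ (R ⊔ τ a Y) ⊓ (τ β Y ⊔ R) :=
            le_inf (inf_le_right.trans t2) (inf_le_left.trans le_sup_left)
        _ = R ⊔ τ a Y ⊓ (τ β Y ⊔ R) := sup_inf_assoc_of_le _ le_sup_right
        _ ≤ R := sup_le le_rfl t1
    · refine inf_le_right.trans (tr_mono (fun γ hγ => ⟨Finset.mem_erase.2 ⟨?_, hγ.1⟩, hγ.2⟩) le_rfl)
      rintro rfl
      exact hβ' hγ.2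

end GrobAux

theorem grob_dickson {A L : Type*} [PartialOrder A] [WellQuasiOrderedLE A] [PartialOrder L] {Y : L}
    (hY : WellFoundedGT (Set.Iic Y)) (I : A → L) (hI : Monotone I) (hIY : ∀ a, I a ≤ Y) :
    ∃ F : Finset A, ∀ a, ∃ a₀ ∈ F, a₀ ≤ a ∧ I a₀ = I a := by
  have hfin : {a | ∀ a₀ < a, I a₀ ≠ I a}.Finite := by
    by_contra hinf
    let f := Set.Infinite.natEmbedding _ hinf
    obtain ⟨g, hg⟩ := (WellQuasiOrderedLE.wqo (α := A)).exists_monotone_subseq fun n => (f n : A)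
    obtain ⟨n, hn⟩ := WellFoundedGT.monotone_chain_condition (α := Set.Iic Y)
      ⟨fun n => ⟨I (f (g n)), hIY _⟩, fun m n hmn => hI (hg m n hmn)⟩
    have h1 : I (f (g n)) = I (f (g (n + 1))) := congrArg Subtype.val (hn (n + 1) (Nat.le_succ n))
    refine (f (g (n + 1))).2 (f (g n)) (lt_of_le_of_ne (hg _ _ (Nat.le_succ n)) fun h => ?_) h1
    have := g.injective (f.injective (Subtype.ext h))
    omega
  refine ⟨hfin.toFinset, fun a => ?_⟩
  obtain ⟨a₀, ⟨h1, h2⟩, h3⟩ := (wellFounded_lt (α := A)).has_min {b | b ≤ a ∧ I b = I a}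
    ⟨a, le_rfl, rfl⟩
  refine ⟨a₀, hfin.mem_toFinset.2 fun b hb h4 => h3 b ⟨hb.le.trans h1, h4.trans h2⟩ hb, h1, h2⟩

/-- integer boxes around the origin. -/
noncomputable def grobBox {e : ℕ} (a : (Fin e → ℕ) × (Fin e → ℕ)) : Finset (Multiplicative (Fin e → ℤ)) :=
  (Fintype.piFinset fun i => Finset.Icc (-(a.1 i : ℤ)) (a.2 i)).map
    Multiplicative.ofAdd.toEmbedding

theorem mem_grobBox {e : ℕ} {a : (Fin e → ℕ) × (Fin e → ℕ)} {b : Multiplicative (Fin e → ℤ)} :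
    b ∈ grobBox a ↔ ∀ i, -(a.1 i : ℤ) ≤ Multiplicative.toAdd b i ∧
      Multiplicative.toAdd b i ≤ a.2 i := by
  simp [grobBox, Finset.mem_map_equiv]

theorem grobBox_mono {e : ℕ} {a a' : (Fin e → ℕ) × (Fin e → ℕ)} (h : a ≤ a') :
    grobBox a ⊆ grobBox a' := by
  intro b hb
  rw [mem_grobBox] at hb ⊢
  intro i
  have h1 : a.1 i ≤ a'.1 i := h.1 i
  have h2 : a.2 i ≤ a'.2 i := h.2 i
  have := hb i
  omega

theorem exists_grobBox {e : ℕ} (F : Finset (Multiplicative (Fin e → ℤ))) :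
    ∃ a, F ⊆ grobBox a := by
  refine ⟨(fun i => F.sup fun b => (Multiplicative.toAdd b i).natAbs,
    fun i => F.sup fun b => (Multiplicative.toAdd b i).natAbs), fun b hb => ?_⟩
  rw [mem_grobBox]
  intro i
  have := Finset.le_sup (f := fun b => (Multiplicative.toAdd b i).natAbs) hb
  dsimp only at this ⊢
  omega

theorem grobBox_shift {e : ℕ} {a : (Fin e → ℕ) × (Fin e → ℕ)} {β : Multiplicative (Fin e → ℤ)}
    (hβ : β ∈ grobBox a) : ∃ a', ∀ γ, γ ∈ grobBox a ↔ β⁻¹ * γ ∈ grobBox a' := by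
  refine ⟨(fun i => ((a.1 i : ℤ) + Multiplicative.toAdd β i).toNat,
    fun i => ((a.2 i : ℤ) - Multiplicative.toAdd β i).toNat), fun γ => ?_⟩
  rw [mem_grobBox] at hβ
  rw [mem_grobBox, mem_grobBox]
  refine forall_congr' fun i => ?_
  have := hβ i
  simp only [toAdd_mul, toAdd_inv, Pi.add_apply, Pi.neg_apply]
  omega

variable {L : Type*} [CompleteLattice L] [IsModularLattice L] [IsCompactlyGenerated L] {e : ℕ}
  {τ : Multiplicative (Fin e → ℤ) →* (L ≃o L)} {Y : L}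

omit [IsModularLattice L] in
theorem grob_exists_box (hY : WellFoundedGT (Set.Iic Y)) (P : Set (Multiplicative (Fin e → ℤ))) :
    ∃ a, Y ⊓ tr τ P Y ≤ tr τ {γ | γ ∈ grobBox a ∧ γ ∈ P} Y := by
  obtain ⟨F, hF, h⟩ := exists_finset_of_le_tr (ρ := τ) (S := P) (a := ⊥) (u := Y)
    (compact_of_wf hY (inf_le_left : Y ⊓ tr τ P Y ≤ Y)) (le_sup_of_le_right inf_le_right)
  obtain ⟨a, ha⟩ := exists_grobBox F
  rw [bot_sup_eq] at h
  exact ⟨a, h.trans (tr_mono (fun γ hγ => ⟨ha hγ, hF hγ⟩) le_rfl)⟩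

/-- the initial element is locally constant in the order (Groebner basis argument). -/
theorem grob_loc (hY : WellFoundedGT (Set.Iic Y)) {P : Set (Multiplicative (Fin e → ℤ))}
    (hP : Cone P) :
    ∃ E : Finset (Multiplicative (Fin e → ℤ)), (E : Set _) ⊆ P ∧
      ∀ P', Cone P' → (E : Set _) ⊆ P' → Y ⊓ tr τ P' Y = Y ⊓ tr τ P Y := by
  classical
  obtain ⟨F, hF⟩ := grob_dickson hY
    (fun a : (Fin e → ℕ) × (Fin e → ℕ) => Y ⊓ tr τ {γ | γ ∈ grobBox a ∧ γ ∈ P} Y)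
    (fun a a' h => inf_le_inf_left _ (tr_mono (fun γ hγ => ⟨grobBox_mono h hγ.1, hγ.2⟩) le_rfl))
    (fun _ => inf_le_left)
  refine ⟨(F.biUnion grobBox).filter (· ∈ P), fun b hb => (Finset.mem_filter.1 hb).2,
    fun P' hP' hE => ?_⟩
  have h1 : ∀ a, Y ⊓ tr τ {γ | γ ∈ grobBox a ∧ γ ∈ P} Y ≤
      tr τ {γ | γ ∈ grobBox a ∧ γ ∈ P ∧ γ ∈ P'} Y := by
    intro a
    obtain ⟨a₀, g1, g2, g3⟩ := hF a
    refine g3.ge.trans (inf_le_right.trans (tr_mono (fun γ hγ => ⟨grobBox_mono g2 hγ.1, hγ.2,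
      hE ?_⟩) le_rfl))
    exact Finset.mem_coe.2 (Finset.mem_filter.2 ⟨Finset.mem_biUnion.2 ⟨a₀, g1, hγ.1⟩, hγ.2⟩)
  apply le_antisymm
  · obtain ⟨a, ha⟩ := grob_exists_box (τ := τ) hY P'
    have h2 := grob_two_orders (τ := τ) (Y := Y) hP hP' _ (grobBox a) rfl (by
      intro β hβ
      obtain ⟨a', ha'⟩ := grobBox_shift hβ
      have h3 := (τ β).monotone (h1 a')
      rw [OrderIso.map_inf, act_tr, act_tr] at h3
      refine le_trans (inf_le_inf_left _ (tr_mono ?_ le_rfl)) (h3.trans (tr_mono ?_ le_rfl))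
      · exact fun γ hγ => ⟨β⁻¹ * γ, ⟨(ha' γ).1 hγ.1, hγ.2⟩, by simp⟩
      · rintro _ ⟨s, hs, rfl⟩
        have e1 : β⁻¹ * (β * s) = s := by simp
        exact ⟨(ha' _).2 (e1.symm ▸ hs.1), e1.symm ▸ hs.2.1, e1.symm ▸ hs.2.2⟩) 1
      (mem_grobBox.2 fun i => by simp)
    simp only [inv_one, one_mul, act_one] at h2
    exact le_inf inf_le_left ((le_inf inf_le_left ha).trans
      (h2.trans (tr_mono (fun γ hγ => hγ.2) le_rfl)))
  · obtain ⟨a, ha⟩ := grob_exists_box (τ := τ) hY P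
    exact le_inf inf_le_left ((le_inf inf_le_left ha).trans
      ((h1 a).trans (tr_mono (fun γ hγ => hγ.2.2) le_rfl)))

theorem grob_fin (hY : WellFoundedGT (Set.Iic Y)) :
    ∃ E : Finset (Multiplicative (Fin e → ℤ)), ∀ P, Cone P →
      Y ⊓ tr τ P Y ≤ tr τ ((E : Set _) ∩ P) Y := by
  classical
  by_contra hcon
  push Not at hcon
  choose Q hQ hQ' using hcon
  let U : Ultrafilter (Finset (Multiplicative (Fin e → ℤ))) := Ultrafilter.of Filter.atTop
  have hU : (U : Filter (Finset (Multiplicative (Fin e → ℤ)))) ≤ Filter.atTop := Ultrafilter.of_le _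
  have hP : Cone {b | ∀ᶠ E in (U : Filter (Finset (Multiplicative (Fin e → ℤ)))), b ∈ Q E} := by
    refine ⟨fun a ha b hb => ?_, fun h => ?_, fun a ha => ?_⟩
    · exact (Filter.Eventually.and ha hb).mono fun E h => (hQ E).mul _ h.1 _ h.2
    · obtain ⟨E, hE⟩ := Filter.Eventually.exists h
      exact (hQ E).one hE
    · exact Ultrafilter.eventually_or.1 (Filter.Eventually.of_forall fun E => (hQ E).total a ha)
  obtain ⟨E₀, h1, h2⟩ := grob_loc (τ := τ) hY hP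
  obtain ⟨F, hF, h3⟩ := exists_finset_of_le_tr (ρ := τ) (a := ⊥) (u := Y)
    (compact_of_wf hY (inf_le_left : Y ⊓ tr τ {b | ∀ᶠ E in (U : Filter (Finset (Multiplicative (Fin e → ℤ)))), b ∈ Q E} Y ≤ Y))
    (le_sup_of_le_right inf_le_right)
  rw [bot_sup_eq] at h3
  have a1 : ∀ᶠ E in (U : Filter (Finset (Multiplicative (Fin e → ℤ)))), ∀ b ∈ E₀, b ∈ Q E :=
    (Filter.eventually_all_finset E₀).2 fun b hb => h1 hb
  have a2 : ∀ᶠ E in (U : Filter (Finset (Multiplicative (Fin e → ℤ)))), ∀ b ∈ F, b ∈ Q E :=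
    (Filter.eventually_all_finset F).2 fun b hb => hF hb
  have a3 : ∀ᶠ E in (U : Filter (Finset (Multiplicative (Fin e → ℤ)))), F ≤ E := hU (Filter.eventually_ge_atTop F)
  obtain ⟨E, b1, b2, b3⟩ := (a1.and (a2.and a3)).exists
  apply hQ' E
  rw [h2 (Q E) (hQ E) fun b hb => b1 b hb]
  exact h3.trans (tr_mono (fun b hb => ⟨b3 hb, b2 b hb⟩) le_rfl)

end Pool.Agent.Lib.MP_36fb39_al
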