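import Pool.Agent.Lib.MP_36fb39_al.AF
import Pool.Agent.Lib.MP_36fb39_al.AB

set_option autoImplicit false

namespace Pool.Agent.Lib.MP_36fb39_al

variable {G : Type*} [Group G] {L : Type*} [CompleteLattice L] [IsModularLattice L]
  [IsCompactlyGenerated L] [IsAtomistic L] {ρ : G →* (L ≃o L)}

omit [IsAtomistic L] [IsModularLattice L] [IsCompactlyGenerated L] in
theorem hyp_tr_le {K N : Subgroup G} (hK : K ≤ N) {x k : L} (hx : Fx ρ N x) :
    tr ρ ((N : Set G) \ (K : Set G)) (x ⊔ span ρ K k) ≤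
      x ⊔ tr ρ ((N : Set G) \ (K : Set G)) k := by
  rw [tr_sup, tr_span]
  · exact sup_le_sup_right (tr_le_of_fx Set.diff_subset hx le_rfl) _
  · rintro s ⟨h1, h2⟩ g hg
    refine ⟨N.mul_mem h1 (hK hg), fun h => h2 ?_⟩
    have := K.mul_mem h (K.inv_mem hg)
    rwa [mul_inv_cancel_right] at this

omit [IsAtomistic L] in
theorem hyp_lb {K N : Subgroup G} {e n : ℕ} (hch : Chain K e N) {x k w : L} (hx : Fx ρ N x)
    (hw : Fx ρ K w) (hwσ : w ≤ x ⊔ span ρ K k)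
    (hJ : (x ⊔ span ρ K k) ⊓ (x ⊔ tr ρ ((N : Set G) \ (K : Set G)) k) ≤ w)
    (h : Ge ρ K n w (x ⊔ span ρ K k)) : Ge ρ N (n + e) (span ρ N w) (x ⊔ span ρ N k) := by
  have hK := hch.le
  set σ := x ⊔ span ρ K k with hσ
  set R := x ⊔ tr ρ ((N : Set G) \ (K : Set G)) k with hR
  have hσK : Fx ρ K σ := (hx.mono hK).sup (fx_span K k)
  have h1 : tr ρ ((N : Set G) \ (K : Set G)) σ ≤ R := hyp_tr_le hK hx
  have h2 : span ρ N w ≤ w ⊔ R := by
    rw [span_eq_sup_tr hK hw]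
    exact sup_le_sup_left ((tr_mono subset_rfl hwσ).trans h1) _
  have h3 : σ ⊓ (w ⊔ R) ≤ w := by
    rw [inf_comm, sup_inf_assoc_of_le _ hwσ, inf_comm]
    exact sup_le le_rfl hJ
  have h4 : Ge ρ K n (span ρ N w) (σ ⊔ span ρ N w) :=
    (h.tup hσK ((fx_span N w).mono hK) ((inf_le_inf_left _ h2).trans h3)).mono le_sup_right le_rfl
  have h5 : IndOn ρ ((N : Set G) \ (K : Set G)) (span ρ N w) (σ ⊔ span ρ N w) := by
    have h6 : span ρ N w ⊔ tr ρ ((N : Set G) \ (K : Set G)) (σ ⊔ span ρ N w) ≤ w ⊔ R := by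
      rw [tr_sup]
      exact sup_le h2 (sup_le (h1.trans le_sup_right)
        ((tr_le_of_fx Set.diff_subset (fx_span N w) le_rfl).trans h2))
    refine (inf_le_inf_left _ h6).trans ?_
    rw [sup_comm σ, sup_inf_assoc_of_le _ h2]
    exact sup_le le_rfl (h3.trans (le_span N w))
  refine (ge_of_indOn hch (fx_span N w) (hσK.sup ((fx_span N w).mono hK)) h5 h4).mono le_rfl ?_
  have hs : Fx ρ N (x ⊔ span ρ N k) := hx.sup (fx_span N k)
  have hσs : σ ≤ x ⊔ span ρ N k := sup_le_sup_left (span_mono hK le_rfl) _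
  exact span_le hs (sup_le hσs (span_le hs (hwσ.trans hσs)))

theorem hyp_crit {h e d₂ : ℕ} {K N : Subgroup G} {y : G} (hN : PZ h N) (hy : Nz y N)
    (hf : ∀ n : ℤ, y ^ n ∈ N → n = 0) (hch : Chain K e N) (hyK : Nz y K)
    {x k : L} (hk : IsCompactElement k) (hyk : ρ y k = k)
    (hc : Crit ρ (N ⊔ Subgroup.zpowers y) (d₂ + e) x (x ⊔ span ρ N k))
    (hge : Ge ρ K d₂ ((x ⊔ span ρ K k) ⊓ (x ⊔ tr ρ ((N : Set G) \ (K : Set G)) k))
      (x ⊔ span ρ K k)) :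
    Crit ρ (K ⊔ Subgroup.zpowers y) d₂ x (x ⊔ span ρ K k) := by
  have hK := hch.le
  have hst := step_sup_zpowers hy hf
  have hst' := step_sup_zpowers hyK (fun n hn => hf n (hK hn))
  have hKp : PZ h K := hN.sub hK
  have hΓ' := hKp.step_up hst'
  obtain ⟨hxN, hxy⟩ := fx_sup_zpowers.1 hc.invx
  set σ := x ⊔ span ρ K k with hσ
  set R := x ⊔ tr ρ ((N : Set G) \ (K : Set G)) k with hR
  have hxΓ : Fx ρ (K ⊔ Subgroup.zpowers y) x := fx_sup_zpowers.2 ⟨hxN.mono hK, hxy⟩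
  have hσΓ : Fx ρ (K ⊔ Subgroup.zpowers y) σ :=
    hxΓ.sup (span_sup_zpowers hyK hyk ▸ fx_span _ k)
  have hσs : σ ≤ x ⊔ span ρ N k := sup_le_sup_left (span_mono hK le_rfl) _
  have hRΓ : Fx ρ (K ⊔ Subgroup.zpowers y) R := by
    refine hxΓ.sup (fx_sup_zpowers.2 ⟨fx_tr ?_ k, ?_⟩)
    · rintro g hg s ⟨h1, h2⟩
      refine ⟨N.mul_mem (hK hg) h1, fun h => h2 ?_⟩
      have := K.mul_mem (K.inv_mem hg) h
      rwa [inv_mul_cancel_left] at this
    · rw [act_tr_conj, hyk]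
      intro s
      exact and_congr (hy s) (not_congr (hyK s))
  -- spans of invariant elements are invariant under the big group
  have key : ∀ w, Fx ρ (K ⊔ Subgroup.zpowers y) w → x < w → w ≤ σ → σ ⊓ R ≤ w →
      ¬ Ge ρ K d₂ w σ := by
    intro w hw h1 h2 h3 h4
    obtain ⟨hwK, hwy⟩ := fx_sup_zpowers.1 hw
    have h5 := hyp_lb hch hxN hwK h2 h3 h4
    refine hc.quot (span ρ N w) (fx_sup_zpowers.2 ⟨fx_span N w, ?_⟩) (h1.trans_le (le_span N w))
      h5.lt.le (Ge.down hst h5)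
    rw [span, act_tr_conj (S := (N : Set G)) hy, hwy]
  have hJ : σ ⊓ R ≤ x := by
    by_contra hne
    have hxJ : x ≤ σ ⊓ R := le_inf le_sup_left le_sup_left
    exact key _ (hσΓ.inf hRΓ) (lt_of_le_not_ge hxJ hne) inf_le_left le_rfl hge
  refine ⟨hxΓ, hσΓ, Ge.down hst' (hge.mono (le_inf le_sup_left le_sup_left) le_rfl), ?_, ?_⟩
  · intro h1
    have h2 := h1.of_fg hst' hKp.nice hΓ'.nice.via hxΓ hk hσΓ
    have h3 := hyp_lb hch hxN (hxN.mono hK) le_sup_left hJ h2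
    rw [hxN.span_eq] at h3
    refine hc.lt (Ge.down hst ?_)
    rwa [show d₂ + e + 1 = d₂ + 1 + e by omega]
  · intro w hw h1 h2 h3
    have he : w ⊔ span ρ K k = σ := le_antisymm (sup_le h2 le_sup_right) (sup_le_sup_right h1.le _)
    refine key w hw h1 h2 (hJ.trans h1.le) ?_
    rw [← he] at h3 hσΓ ⊢
    exact h3.of_fg hst' hKp.nice hΓ'.nice.via hw hk hσΓ

theorem hyp_control {h d : ℕ} {N : Subgroup G} {y : G} (hN : PZ (h + 1) N)
    (hnil : Group.IsNilpotent N) (hy : Nz y N) (hf : ∀ n : ℤ, y ^ n ∈ N → n = 0)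
    (hneat : Neat y (h + 1) N)
    (hno : ∀ φ : G → ℤ, IsHomOn N φ → (∀ a ∈ N, φ (y * a * y⁻¹) = φ a) → ∀ a ∈ N, φ a = 0)
    {x k : L} (hk : IsCompactElement k) (hyk : ρ y k = k)
    (hc : Crit ρ (N ⊔ Subgroup.zpowers y) (d + 1) x (x ⊔ span ρ N k)) :
    ∃ (K : Subgroup G) (d₂ e : ℕ), Sat K N ∧ K ≠ N ∧ Nz y K ∧ Chain K e N ∧ d + 1 = d₂ + e ∧
      Ge ρ K d₂ ((x ⊔ span ρ K k) ⊓ (x ⊔ tr ρ ((N : Set G) \ (K : Set G)) k))
        (x ⊔ span ρ K k) := by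
  have hst := step_sup_zpowers hy hf
  have hΓ := hN.step_up hst
  set Γ := N ⊔ Subgroup.zpowers y with hΓdef
  set s := x ⊔ span ρ N k with hsdef
  have hNΓ : N ≤ Γ := hst.le
  have hxN : Fx ρ N x := hc.invx.mono hNΓ
  have hsN : Fx ρ N s := hc.invp.mono hNΓ
  have hxs : x < s := hc.lt'
  have hks : k ≤ s := (le_span N k).trans le_sup_right
  set Z := abKer N with hZdef
  have hZ : Sat Z N := abKer_sat N
  have hyZ : Nz y Z := abKer_nz hy
  obtain ⟨r, π₀, hπ₀, hs₀, hk₀⟩ := hZ.exists_hom hN.pc.fg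
  have hΓZ : ∀ g ∈ Γ, Nz g Z := nz_sup_zpowers hZ.nz hyZ
  have hZp : PZ (h + 1) Z := hN.sub hZ.le
  obtain ⟨d₂, hl₂⟩ := cl_gen hΓ ((chain_of_hom hπ₀ hs₀ hk₀).trans (Chain.single hst)) hΓZ hc
  obtain ⟨d', hl⟩ := cl_one hst hN.nice hΓ.nice hc
  have hd' : d' = d + 1 := by
    have h1 : Ge ρ N (d + 1) x s := hc.ge.of_fg hst hN.nice hΓ.nice.via hc.invx hk hc.invp
    rcases (hc.homog hΓ.nice.ex).step hst hΓ.nice.via hl.toHomog hxs with h2 | h2
    · exact h2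
    · exact absurd (h2 ▸ h1) hl.lt
  subst hd'
  obtain ⟨k', -, hk's, hp⟩ := hl.toHomog.exists_crit hN.nice hsN hxs le_rfl
  have hps : x ⊔ span ρ N k' ≤ s := sup_le hxs.le (span_le hsN hk's)
  have hxZ : Fx ρ Z x := hl₂.invx
  have hsZ : Fx ρ Z s := hl₂.invs
  obtain ⟨X, _, _, _, π, ι, act, hL⟩ := exists_lev hZp.nice.ex hZp.nice.noeth d₂ hxZ hsZ hxs.le
    Γ hΓZ hc.invx hc.invp
  haveI : IsAtomistic X := hL.isAtomistic hl₂
  obtain ⟨τ, hτ'⟩ := exists_lift_hom hπ₀ hs₀ (act.comp (Subgroup.inclusion hNΓ))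
    (fun g hg => hL.act_triv _ ((hk₀ g).2 ⟨g.2, hg⟩))
  have hτ : ∀ g (hg : g ∈ N), τ (Multiplicative.ofAdd (π₀ g)) = act ⟨g, hNΓ hg⟩ :=
    fun g hg => hτ' ⟨g, hg⟩
  obtain ⟨e, hde, hge⟩ := ge_lev hN hZ hNΓ hΓZ hc.invx hc.invp hl₂.toHomog hL hπ₀ hs₀ hk₀ τ hτ hp hps
  have he : e ≠ 0 := by
    rintro rfl
    have h1 : d₂ = d + 1 := by omega
    have := dim_zero_of_abKer hN hnil hp
      (h1 ▸ hl₂.toHomog.sub (hp.invp.mono hZ.le) le_sup_left hps)
    omega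
  -- translation sums in the quotient lattice
  have hin : ∀ S : Set G, S ⊆ N → (∀ g ∈ Z, ∀ a ∈ S, g * a ∈ S) → ∀ u, u ≤ s →
      In ρ Z x s (x ⊔ tr ρ S u) := fun S hS hS' u hu =>
    ⟨hxZ.sup (fx_tr hS' u), le_sup_left, sup_le hxs.le (tr_le_of_fx hS hsN hu)⟩
  have htr : ∀ S : Set G, S ⊆ N → ∀ u, In ρ Z x s u →
      π (x ⊔ tr ρ S u) = tr τ ((fun g => Multiplicative.ofAdd (π₀ g)) '' S) (π u) := by
    intro S hS u hu
    have h1 : Subtype.val '' {g : Γ | (g : G) ∈ S} = S := by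
      ext g
      constructor
      · rintro ⟨g', hg', rfl⟩
        exact hg'
      · exact fun hg => ⟨⟨g, hNΓ (hS hg)⟩, hg, rfl⟩
    have h2 := hL.π_tr hΓZ hc.invx hc.invp hxZ hu {g : Γ | (g : G) ∈ S}
    rw [h1] at h2
    rw [h2]
    refine le_antisymm (tr_le_iff.2 fun g hg => ?_) (tr_le_iff.2 ?_)
    · have := le_tr (ρ := τ) (S := (fun g => Multiplicative.ofAdd (π₀ g)) '' S)
        ⟨g, hg, rfl⟩ (π u)
      rwa [hτ g (hS hg)] at this
    · rintro _ ⟨g, hg, rfl⟩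
      have := le_tr (ρ := act) (S := {g : Γ | (g : G) ∈ S}) (g := ⟨g, hNΓ (hS hg)⟩) hg (π u)
      rwa [← hτ g (hS hg)] at this
  have hsurj : ∀ b : Multiplicative (Fin r → ℤ), ∃ g ∈ N, Multiplicative.ofAdd (π₀ g) = b :=
    fun b => by
      obtain ⟨g, hg, h1⟩ := hs₀ (Multiplicative.toAdd b)
      exact ⟨g, hg, by rw [h1, ofAdd_toAdd]⟩
  have hu₀ : In ρ Z x s (x ⊔ span ρ Z k) := in_span hxZ hsZ hxs.le hks
  set u₀ := x ⊔ span ρ Z k with hu₀def
  have hspan : span τ ⊤ (π u₀) = ⊤ := by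
    have h1 := htr N subset_rfl u₀ hu₀
    have h2 : x ⊔ tr ρ (N : Set G) u₀ = s := by
      rw [hu₀def, tr_sup]
      change x ⊔ (span ρ N x ⊔ span ρ N (span ρ Z k)) = s
      rw [hxN.span_eq, span_span hZ.le, ← sup_assoc, sup_idem]
    rw [h2, hL.π_top hsZ] at h1
    exact top_le_iff.1 (h1.le.trans (tr_mono (Set.subset_univ _) le_rfl))
  have hdep : Dep τ ⊥ (e + 1) (π u₀) := by
    intro σ lam hσ hlam hls _ p hp _
    by_contra hnp
    have hp0 : p ⊓ tr τ (σ '' {v | v ≠ 0}) p = ⊥ := by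
      rcases (hp.le_iff.1 (inf_le_left : p ⊓ tr τ (σ '' {v | v ≠ 0}) p ≤ p)) with h1 | h1
      · exact h1
      · exact absurd (inf_eq_left.1 h1) hnp
    have hσ0 : σ 0 = 1 := by
      have := hσ 0 0
      rw [add_zero] at this
      exact left_eq_mul.1 this
    have hlm : IsHomOn N fun g => lam (Multiplicative.ofAdd (π₀ g)) := fun a ha b hb => by
      simp only [hπ₀ a ha b hb, ofAdd_add]
      exact hlam _ (Subgroup.mem_top _) _ (Subgroup.mem_top _)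
    have hθ : IsHomOn N fun g =>
        π₀ g - Multiplicative.toAdd (σ (lam (Multiplicative.ofAdd (π₀ g)))) := fun a ha b hb => by
      have h1 := hlm a ha b hb
      simp only at h1 ⊢
      rw [h1, hσ, toAdd_mul, hπ₀ a ha b hb]
      abel
    obtain ⟨U, hU⟩ := hθ.exists_ker
    have hUsat : Sat U N := hθ.sat (fun n v hn hv => by
      rcases smul_eq_zero.1 hv with h | h
      · omega
      · exact h) hU
    have hUe : ∀ g ∈ U, Multiplicative.ofAdd (π₀ g) = σ (lam (Multiplicative.ofAdd (π₀ g))) :=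
      fun g hg => by
        have := sub_eq_zero.1 ((hU g).1 hg).2
        rw [← ofAdd_toAdd (σ _), ← this]
    have hker : ∀ g, g ∈ Z ↔ g ∈ U ∧ lam (Multiplicative.ofAdd (π₀ g)) = 0 := by
      intro g
      constructor
      · intro hg
        obtain ⟨h1, h2⟩ := (hk₀ g).1 hg
        have h3 : lam (Multiplicative.ofAdd (π₀ g)) = 0 := by
          rw [h2, ofAdd_zero]
          exact hlam.one
        refine ⟨(hU g).2 ⟨h1, ?_⟩, h3⟩
        rw [h3, hσ0, toAdd_one, h2, sub_zero]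
      · rintro ⟨h1, h2⟩
        have h3 := hUe g h1
        rw [h2, hσ0] at h3
        exact (hk₀ g).2 ⟨hUsat.le h1, by simpa using h3⟩
    have hch : Chain Z (e + 1) U := by
      refine chain_of_hom (hlm.mono hUsat.le) (fun v => ?_) hker
      obtain ⟨g, hg, h1⟩ := hsurj (σ v)
      refine ⟨g, (hU g).2 ⟨hg, ?_⟩, by rw [h1, hls]⟩
      simp only [h1, hls]
      rw [← h1, toAdd_ofAdd, sub_self]
    have hu := hL.ι_in p
    have hg1 : Ge ρ Z d₂ x (ι p) := by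
      have := hL.ge_of_lt hp.bot_lt
      rwa [hL.ι_bot hl₂.toHomog] at this
    have hSN : (U : Set G) \ (Z : Set G) ⊆ N := fun g hg => hUsat.le hg.1
    have hind : IndOn ρ ((U : Set G) \ (Z : Set G)) x (ι p) := by
      have hR := hin _ hSN (fun g hg a ha => ⟨U.mul_mem (hch.le hg) ha.1, fun h => ha.2 (by
        have := Z.mul_mem (Z.inv_mem hg) h
        rwa [inv_mul_cancel_left] at this)⟩) (ι p) hu.hi
      have h1 := hL.π_inf _ _ hu hR
      rw [htr _ hSN _ hu, hL.π_ι] at h1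
      have h2 : π (ι p ⊓ (x ⊔ tr ρ ((U : Set G) \ (Z : Set G)) (ι p))) ≤ ⊥ := by
        rw [h1, ← hp0]
        refine inf_le_inf_left _ (tr_mono ?_ le_rfl)
        rintro _ ⟨g, hg, rfl⟩
        exact ⟨_, fun h0 => hg.2 ((hker g).2 ⟨hg.1, h0⟩), (hUe g hg.1).symm⟩
      have h3 := (hL.gc _ _ (hu.inf hR)).1 h2
      rwa [hL.ι_bot hl₂.toHomog] at h3
    obtain ⟨m, hch'⟩ := hUsat.chain hN.pc.fg
    have h4 := (ge_of_indOn hch (hxN.mono hUsat.le) hu.inv hind hg1).chain hch'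
    refine hl.lt (Ge.mono ?_ le_rfl (span_le (hsN.mono hUsat.le) hu.hi))
    rwa [show d + 1 + 1 = d₂ + (e + 1) by omega]
  obtain ⟨α, hα⟩ := exists_lift_aut hπ₀ hs₀ (MulAut.conj y) hy (fun g hg => by
    have h1 := hk₀ g
    have h2 := hk₀ (y * g * y⁻¹)
    have h3 := hyZ g
    have h4 := (hy g).1 hg
    simp only [MulAut.conj_apply]
    tauto)
  simp only [MulAut.conj_apply] at hα
  have hαj : ∀ (j : ℕ), ∀ g ∈ N, (α ^ j) (Multiplicative.ofAdd (π₀ g)) =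
      Multiplicative.ofAdd (π₀ (y ^ j * g * (y ^ j)⁻¹)) := by
    intro j
    induction j with
    | zero => intro g _; simp
    | succ j ih =>
      intro g hg
      rw [pow_succ', MulAut.mul_apply, ih g hg, hα _ ((hy.pow j g).1 hg)]
      congr 2
      rw [pow_succ']
      group
  have hψ : ∀ b q, act ⟨y, hst.mem⟩ (τ b q) = τ (α b) (act ⟨y, hst.mem⟩ q) := by
    intro b q
    obtain ⟨g, hg, rfl⟩ := hsurj b
    rw [hα g hg, hτ g hg, hτ _ ((hy g).1 hg), ← act_mul, ← act_mul]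
    congr 2
    ext
    simp
  have hψk : act ⟨y, hst.mem⟩ (π u₀) = π u₀ := by
    rw [hL.act_π _ _ hu₀]
    congr 1
    change ρ y (x ⊔ span ρ Z k) = _
    rw [(ρ y).map_sup, hc.invx y hst.mem, span, act_tr_conj (S := (Z : Set G)) hyZ, hyk]
  obtain ⟨π₁, hπ₁, hs₁, hinv₁, hnle⟩ := control (pz_free r) (hL.cpt k hk hks) α _ hψ hψk
    (hge.mono le_rfl (hspan ▸ le_top)) hdep
    (by
      intro K' hK' j hj hinv b
      let K : Subgroup G :=
        { carrier := {g | g ∈ N ∧ Multiplicative.ofAdd (π₀ g) ∈ K'}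
          mul_mem' := fun {a b} ha hb => ⟨N.mul_mem ha.1 hb.1, by
            rw [hπ₀ a ha.1 b hb.1, ofAdd_add]
            exact K'.mul_mem ha.2 hb.2⟩
          one_mem' := ⟨N.one_mem, by rw [hπ₀.one]; exact K'.one_mem⟩
          inv_mem' := fun {a} ha => ⟨N.inv_mem ha.1, by
            rw [hπ₀.inv ha.1, ofAdd_neg]
            exact K'.inv_mem ha.2⟩ }
      have hK : ∀ g, g ∈ K ↔ g ∈ N ∧ Multiplicative.ofAdd (π₀ g) ∈ K' := fun g => Iff.rfl
      have hsat : Sat K N := by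
        refine ⟨fun g hg => hg.1, fun a ha b hb => ?_, fun g hg n hn hgn => ⟨hg, ?_⟩⟩
        · obtain ⟨h1, h2⟩ := (hk₀ _).1 (hZ.comm a ha b hb)
          exact ⟨h1, by rw [h2]; exact K'.one_mem⟩
        · refine hK'.root _ (Subgroup.mem_top _) n hn ?_
          have := hgn.2
          rwa [hπ₀.pow hg, ofAdd_nsmul] at this
      have hj' : Nz (y ^ j) K := fun g => by
        rw [hK, hK]
        constructor
        · rintro ⟨h1, h2⟩
          exact ⟨(hy.pow j g).1 h1, by rw [← hαj j g h1]; exact (hinv _).1 h2⟩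
        · rintro ⟨h1, h2⟩
          have h3 := (hy.pow j g).2 h1
          exact ⟨h3, (hinv _).2 (by rw [hαj j g h3]; exact h2)⟩
      have hyK := (hneat.2 K hsat j hj hj').1
      obtain ⟨g, hg, rfl⟩ := hsurj b
      have h1 := hyK g
      rw [hK, hK] at h1
      rw [hα g hg]
      have h2 := (hy g).1 hg
      tauto)
    (by
      intro φ hφ j hj hinv b
      have hφ' : IsHomOn N fun g => φ (Multiplicative.ofAdd (π₀ g)) := fun a ha b hb => by
        simp only [hπ₀ a ha b hb, ofAdd_add]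
        exact hφ _ (Subgroup.mem_top _) _ (Subgroup.mem_top _)
      obtain ⟨g, hg, rfl⟩ := hsurj b
      refine hno _ hφ' (hneat.1 _ hφ' j hj fun a ha => ?_) g hg
      simp only [← hαj j a ha]
      exact hinv _)
  have hπ' : IsHomOn N fun g => π₁ (Multiplicative.ofAdd (π₀ g)) := fun a ha b hb => by
    simp only [hπ₀ a ha b hb, ofAdd_add]
    exact hπ₁ _ (Subgroup.mem_top _) _ (Subgroup.mem_top _)
  obtain ⟨K, hK⟩ := hπ'.exists_ker
  have hKsat : Sat K N := hπ'.sat (fun n v hn hv => by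
    rcases smul_eq_zero.1 hv with h | h
    · omega
    · exact h) hK
  have hs' : ∀ v, ∃ g ∈ N, π₁ (Multiplicative.ofAdd (π₀ g)) = v := fun v => by
    obtain ⟨b, rfl⟩ := hs₁ v
    obtain ⟨g, hg, rfl⟩ := hsurj b
    exact ⟨g, hg, rfl⟩
  have hZK : Z ≤ K := fun g hg => by
    obtain ⟨h1, h2⟩ := (hk₀ g).1 hg
    refine (hK g).2 ⟨h1, ?_⟩
    simp only [h2, ofAdd_zero]
    exact hπ₁.one
  refine ⟨K, d₂, e, hKsat, ?_, ?_, chain_of_hom hπ' hs' hK, hde, ?_⟩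
  · rintro rfl
    obtain ⟨g, hg, h1⟩ := hs' fun _ => 1
    have h2 := ((hK g).1 hg).2
    simp only [h1] at h2
    exact one_ne_zero (congrFun h2 ⟨0, Nat.pos_of_ne_zero he⟩)
  · intro g
    rw [hK, hK]
    constructor
    · rintro ⟨h1, h2⟩
      exact ⟨(hy g).1 h1, by rw [← hα g h1]; exact (hinv₁ _).1 h2⟩
    · rintro ⟨h1, h2⟩
      have h3 := (hy g).2 h1
      exact ⟨h3, (hinv₁ _).2 (by rw [hα g h3]; exact h2)⟩
  · have hSN : (N : Set G) \ (K : Set G) ⊆ N := Set.diff_subset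
    have hstab : ∀ g ∈ Z, ∀ a ∈ (N : Set G) \ (K : Set G), g * a ∈ (N : Set G) \ (K : Set G) :=
      fun g hg a ha => ⟨N.mul_mem (hZ.le hg) ha.1, fun h => ha.2 (by
        have := K.mul_mem (K.inv_mem (hZK hg)) h
        rwa [inv_mul_cancel_left] at this)⟩
    have hR' := hin _ hSN hstab u₀ hu₀.hi
    have hR := hin _ hSN hstab k hks
    have h1 : ¬ π u₀ ≤ π (x ⊔ tr ρ ((N : Set G) \ (K : Set G)) u₀) := by
      rw [htr _ hSN _ hu₀]
      refine fun h => hnle (h.trans (tr_mono ?_ le_rfl))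
      rintro _ ⟨g, hg, rfl⟩
      exact fun h0 => hg.2 ((hK g).2 ⟨hg.1, h0⟩)
    rw [hL.π_le _ _ hu₀ hR', not_not] at h1
    have hσZ : Fx ρ Z (x ⊔ span ρ K k) := hxZ.sup ((fx_span K k).mono hZK)
    have huσ : u₀ ≤ x ⊔ span ρ K k := sup_le_sup_left (span_mono hZK le_rfl) _
    have h2 := h1.tup hu₀.inv (hσZ.inf hR.inv) (inf_le_inf_left _ (inf_le_right.trans
      (sup_le_sup_left (tr_mono subset_rfl ((le_span Z k).trans le_sup_right)) _)))
    obtain ⟨m, hch⟩ := (hZ.of_le hZK hKsat.le).chain (hN.sub hKsat.le).pc.fg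
    exact (h2.mono le_sup_right (sup_le huσ inf_le_left)).chain hch

/-- The hyperbolic case: the interval is induced from a proper invariant subgroup. -/
theorem induced_of_hyperbolic {h d : ℕ} {N : Subgroup G} {y : G} (hN : PZ (h + 1) N)
    (hnil : Group.IsNilpotent N) (hy : Nz y N) (hf : ∀ n : ℤ, y ^ n ∈ N → n = 0)
    (hneat : Neat y (h + 1) N)
    (hno : ∀ φ : G → ℤ, IsHomOn N φ → (∀ a ∈ N, φ (y * a * y⁻¹) = φ a) → ∀ a ∈ N, φ a = 0)
    {x k : L} (hk : IsCompactElement k) (hyk : ρ y k = k)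
    (hc : Crit ρ (N ⊔ Subgroup.zpowers y) (d + 1) x (x ⊔ span ρ N k)) :
    ∃ (K : Subgroup G) (d' : ℕ), Sat K N ∧ K ≠ N ∧ Nz y K ∧
      Crit ρ (K ⊔ Subgroup.zpowers y) d' x (x ⊔ span ρ K k) := by
  obtain ⟨K, d₂, e, h1, h2, h3, h4, h5, h6⟩ := hyp_control hN hnil hy hf hneat hno hk hyk hc
  exact ⟨K, d₂, h1, h2, h3, hyp_crit hN hy hf h4 h3 hk hyk (h5 ▸ hc) h6⟩

end Pool.Agent.Lib.MP_36fb39_al
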