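import Pool.Agent.Lib.MP_36fb39_al.Lat1

set_option autoImplicit false

namespace Pool.Agent.Lib.MP_36fb39_al

section Semisimple
variable {L : Type*} [CompleteLattice L] [IsModularLattice L] [IsCompactlyGenerated L]
  {a b c u v : L}

omit [IsModularLattice L] [IsCompactlyGenerated L] in
theorem lat_inf_eq_of_cov {q : L} (hq : a ⋖ q) (hac : a ≤ c) (hn : ¬ q ≤ c) : q ⊓ c = a := by
  rcases hq.eq_or_eq (le_inf hq.le hac) inf_le_left with h | h
  · exact h
  · exact absurd (h.symm.le.trans inf_le_right) hn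

omit [IsCompactlyGenerated L] in
theorem lat_cov_sup {q : L} (hq : a ⋖ q) (hac : a ≤ c) (hn : ¬ q ≤ c) : c ⋖ c ⊔ q := by
  apply covBy_sup_of_inf_covBy_right
  rw [inf_comm, lat_inf_eq_of_cov hq hac hn]
  exact hq

theorem SSI.compl (h : SSI a b) (hu : a ≤ u) (hub : u ≤ b) :
    ∃ c, a ≤ c ∧ c ≤ b ∧ c ⊓ u = a ∧ c ⊔ u = b := by
  obtain ⟨c, -, hc⟩ := zorn_le_nonempty₀ {c | a ≤ c ∧ c ≤ b ∧ u ⊓ c ≤ a} (by
    intro C hC hch y hy
    refine ⟨sSup C, ⟨(hC hy).1.trans (le_sSup hy), sSup_le fun z hz => (hC hz).2.1, ?_⟩,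
      fun z hz => le_sSup hz⟩
    rw [hch.directedOn.inf_sSup_eq]
    exact iSup₂_le fun z hz => (hC hz).2.2) a ⟨le_rfl, hu.trans hub, inf_le_right⟩
  obtain ⟨hac, hcb, hcu⟩ := hc.prop
  refine ⟨c, hac, hcb, le_antisymm (by rw [inf_comm]; exact hcu) (le_inf hac hu),
    le_antisymm (sup_le hcb hub) (le_trans h (sup_le (hac.trans le_sup_left) (sSup_le ?_)))⟩
  rintro q ⟨hq, hqb⟩
  by_contra hn
  have h1 : q ⊓ (c ⊔ u) = a := lat_inf_eq_of_cov hq (hac.trans le_sup_left) hn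
  have h2 : u ⊓ (c ⊔ q) ≤ a := by
    have h3 : (c ⊔ q) ⊓ (c ⊔ u) = c := by
      rw [sup_inf_assoc_of_le q le_sup_left, h1, sup_eq_left.2 hac]
    refine le_trans (le_inf inf_le_left ?_) hcu
    calc u ⊓ (c ⊔ q) ≤ (c ⊔ q) ⊓ (c ⊔ u) :=
          le_inf inf_le_right (inf_le_left.trans le_sup_right)
      _ = c := h3
  have h4 : c ⊔ q ≤ c := hc.le_of_ge ⟨hac.trans le_sup_left, sup_le hcb hqb, h2⟩ le_sup_left
  exact hn (le_sup_right.trans (h4.trans le_sup_left))

omit [IsCompactlyGenerated L] in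
theorem lat_ssi_up (h : SSI a b) (hu : a ≤ u) (hub : u ≤ b) : SSI u b := by
  refine le_trans h (sup_le (hu.trans le_sup_left) (sSup_le ?_))
  rintro q ⟨hq, hqb⟩
  by_cases hn : q ≤ u
  · exact hn.trans le_sup_left
  · exact le_sup_right.trans
      ((le_sSup (s := {q | u ⋖ q ∧ q ≤ b}) ⟨lat_cov_sup hq hu hn, sup_le hub hqb⟩).trans
        le_sup_right)

omit [IsCompactlyGenerated L] in
theorem lat_ssi_transpose {x y : L} (h : SSI y (x ⊔ y)) : SSI (x ⊓ y) x := by
  set w := x ⊓ y ⊔ sSup {q | x ⊓ y ⋖ q ∧ q ≤ x} with hw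
  have hwx : w ≤ x := sup_le inf_le_left (sSup_le fun q hq => hq.2)
  have h1 : x ⊔ y ≤ w ⊔ y := by
    refine le_trans h (sup_le le_sup_right (sSup_le ?_))
    rintro q ⟨hq, hqb⟩
    have e1 : y ⊔ x ⊓ q = q := by
      rw [← sup_inf_assoc_of_le x hq.le, inf_eq_right, sup_comm]
      exact hqb
    have e2 : y ⊓ (x ⊓ q) = x ⊓ y := by
      rw [inf_comm y, inf_assoc, inf_eq_right.2 hq.le]
    have e3 : x ⊓ y ⋖ x ⊓ q := by
      rw [← e2]
      apply inf_covBy_of_covBy_sup_left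
      rw [e1]
      exact hq
    calc q = y ⊔ x ⊓ q := e1.symm
      _ ≤ w ⊔ y := sup_le le_sup_right
          (((le_sSup (s := {q | x ⊓ y ⋖ q ∧ q ≤ x}) ⟨e3, inf_le_left⟩).trans
            le_sup_right).trans le_sup_left)
  have h2 : w = x := by
    refine eq_of_le_of_inf_le_of_le_sup (z := y) hwx le_sup_left (le_sup_left.trans h1)
  exact h2.symm.le

theorem lat_ssi_down (h : SSI a b) (hv : a ≤ v) (hvb : v ≤ b) : SSI a v := by
  obtain ⟨c, hac, hcb, h1, h2⟩ := h.compl hv hvb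
  have h3 : SSI c (v ⊔ c) := by
    rw [sup_comm, h2]
    exact lat_ssi_up h hac hcb
  have h4 := lat_ssi_transpose h3
  rwa [inf_comm, h1] at h4

theorem SSI.sub (h : SSI a b) (hu : a ≤ u) (huv : u ≤ v) (hv : v ≤ b) : SSI u v :=
  lat_ssi_down (lat_ssi_up h hu (huv.trans hv)) huv hv

theorem SSI.inf (ha : SSI a c) (hb : SSI b c) (hac : a ≤ c) (hbc : b ≤ c) : SSI (a ⊓ b) c := by
  have h1 : SSI (a ⊓ b) a := lat_ssi_transpose (lat_ssi_down hb le_sup_right (sup_le hac hbc))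
  obtain ⟨d, hbd, hdc, h2, h3⟩ := hb.compl (le_sup_right : b ≤ a ⊔ b) (sup_le hac hbc)
  have h4 : d ⊓ a = a ⊓ b := by
    calc d ⊓ a = d ⊓ (a ⊔ b) ⊓ a := by rw [inf_assoc, inf_eq_right.2 (le_sup_left : a ≤ a ⊔ b)]
      _ = a ⊓ b := by rw [h2, inf_comm]
  have h5 : d ⊔ a = c := by
    rw [← h3, sup_comm a b, ← sup_assoc, sup_eq_left.2 hbd]
  have h6 : SSI (a ⊓ b) d := by
    rw [← h4]
    apply lat_ssi_transpose
    rw [h5]
    exact ha
  unfold SSI
  refine h5.symm.le.trans (sup_le (le_trans h6 ?_) (le_trans h1 ?_))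
  · refine sup_le_sup_left (sSup_le_sSup ?_) _
    exact fun q hq => ⟨hq.1, hq.2.trans hdc⟩
  · refine sup_le_sup_left (sSup_le_sSup ?_) _
    exact fun q hq => ⟨hq.1, hq.2.trans hac⟩

omit [IsCompactlyGenerated L] in
theorem lat_ssi_of_atoms {X : L} {A : Set L} (hA : ∀ p ∈ A, IsAtom p ∧ p ≤ b) (hX : X ≤ b)
    (htop : b ≤ X ⊔ sSup A) : SSI X b := by
  refine le_trans htop (sup_le le_sup_left (sSup_le fun p hp => ?_))
  by_cases hn : p ≤ X
  · exact hn.trans le_sup_left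
  · exact le_sup_right.trans
      ((le_sSup (s := {q | X ⋖ q ∧ q ≤ b})
        ⟨lat_cov_sup (hA p hp).1.bot_covBy bot_le hn, sup_le hX (hA p hp).2⟩).trans le_sup_right)

omit [IsCompactlyGenerated L] in
theorem ssi_of_isAtomistic [IsAtomistic L] (h : a ≤ b) : SSI a b :=
  lat_ssi_of_atoms (A := {p | IsAtom p ∧ p ≤ b}) (fun _ hp => hp) h
    ((sSup_atoms_le_eq b).symm.le.trans le_sup_right)

theorem isAtomistic_of_ssi (h : SSI (⊥ : L) ⊤) : IsAtomistic L := by
  refine ⟨fun b => ⟨{q | ⊥ ⋖ q ∧ q ≤ b}, ?_, fun q hq => bot_covBy_iff.1 hq.1⟩⟩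
  have h1 : SSI ⊥ b := lat_ssi_down h bot_le le_top
  unfold SSI at h1
  rw [bot_sup_eq] at h1
  have h2 : sSup {q | ⊥ ⋖ q ∧ q ≤ b} = b := le_antisymm (sSup_le fun q hq => hq.2) h1
  have h3 := isLUB_sSup {q : L | ⊥ ⋖ q ∧ q ≤ b}
  rwa [h2] at h3

theorem lat_exists_coatom (h : SSI c ⊤) (hc : c ≠ ⊤) : ∃ m, IsCoatom m ∧ c ≤ m := by
  have h1 : ∃ q, c ⋖ q := by
    by_contra hn
    apply hc
    refine top_le_iff.1 (le_trans h (sup_le le_rfl (sSup_le fun q hq => ?_)))
    exact absurd ⟨q, hq.1⟩ hn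
  obtain ⟨q, hq⟩ := h1
  obtain ⟨m, hcm, -, h2, h3⟩ := h.compl hq.le le_top
  refine ⟨m, covBy_top_iff.1 ?_, hcm⟩
  rw [← h3]
  apply covBy_sup_of_inf_covBy_right
  rw [h2]
  exact hq

/-- Radical lemma. -/
theorem ssi_of_radical (X : L) (hX : WellFoundedLT (Set.Iic X)) (A : Set L)
    (hA : ∀ p ∈ A, IsAtom p) (htop : X ⊔ sSup A = ⊤) (ψ : L ≃o L)
    (hψ : ∀ u ≤ X, ψ u = u → u = ⊥) : SSI (⊥ : L) ⊤ := by
  have hXs : SSI X ⊤ := lat_ssi_of_atoms (fun p hp => ⟨hA p hp, le_top⟩) le_top htop.symm.le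
  set R := sInf {m : L | IsCoatom m} with hR
  have hRX : R ≤ X := by
    by_contra hn
    obtain ⟨c, hXc, -, h1, h2⟩ := hXs.compl (le_sup_left : X ≤ X ⊔ R) le_top
    have hc : c ≠ ⊤ := by
      rintro rfl
      rw [top_inf_eq] at h1
      exact hn (le_sup_right.trans h1.le)
    obtain ⟨m, hm, hcm⟩ := lat_exists_coatom (lat_ssi_up hXs hXc le_top) hc
    apply hm.1
    refine top_le_iff.1 (h2.symm.le.trans (sup_le hcm (sup_le (hXc.trans hcm) ?_)))
    exact sInf_le hm
  have hψR : ψ R = R := by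
    apply le_antisymm
    · refine le_sInf fun m hm => ?_
      rw [← ψ.apply_symm_apply m, ψ.le_iff_le]
      exact sInf_le ((ψ.symm.isCoatom_iff m).2 hm)
    · rw [← ψ.symm_apply_le]
      refine le_sInf fun m hm => ?_
      rw [ψ.symm_apply_le]
      exact sInf_le ((ψ.isCoatom_iff m).2 hm)
  have hR0 : R = ⊥ := hψ R hRX hψR
  obtain ⟨y, hy, hmin⟩ := hX.wf.has_min {y : Set.Iic X | SSI (y : L) ⊤} ⟨⟨X, le_rfl⟩, hXs⟩
  have hy0 : (y : L) = ⊥ := by
    rw [← le_bot_iff, ← hR0]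
    refine le_sInf fun m hm => ?_
    have hm' : SSI m ⊤ :=
      (le_sSup (s := {q | m ⋖ q ∧ q ≤ ⊤}) ⟨covBy_top_iff.2 hm, le_rfl⟩).trans le_sup_right
    have h1 : SSI ((y : L) ⊓ m) ⊤ := SSI.inf hy hm' le_top le_top
    have h2 := hmin ⟨(y : L) ⊓ m, inf_le_left.trans y.2⟩ h1
    by_contra hn
    apply h2
    change (y : L) ⊓ m < y
    exact lt_of_le_of_ne inf_le_left fun h => hn (h.symm.le.trans inf_le_right)
  have hy' : SSI (y : L) ⊤ := hy
  rwa [hy0] at hy'

omit [IsCompactlyGenerated L] in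
/-- a compact element below a join of atoms lies in a finite direct sum of them. -/
theorem atoms_dec (A : Set L) (hA : ∀ p ∈ A, IsAtom p) {k : L} (hk : IsCompactElement k)
    (hle : k ≤ sSup A) :
    ∃ (n : ℕ) (p x : Fin n → L) (s : L), k ≤ s ∧ (∀ i, p i ∈ A ∧ p i ≤ s ∧ x i ⋖ s ∧
      x i ⊓ p i = ⊥) ∧ ∀ u ≤ s, (∀ i, u ≤ x i) → u = ⊥ := by
  classical
  have hex : ∃ n, ∃ F : Finset L, (↑F ⊆ A ∧ k ≤ F.sup id) ∧ F.card = n := by
    obtain ⟨F, hF⟩ := (CompleteLattice.isCompactElement_iff_exists_le_sSup_of_le_sSup L k).1 hk A hle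
    exact ⟨_, F, hF, rfl⟩
  obtain ⟨F, ⟨hFA, hkF⟩, hcard⟩ := Nat.find_spec hex
  have hsup : ∀ q ∈ F, (F.erase q).sup id ⊔ q = F.sup id := by
    intro q hq
    conv_rhs => rw [← Finset.insert_erase hq, Finset.sup_insert, sup_comm]
    rfl
  have hind : ∀ q ∈ F, ¬ q ≤ (F.erase q).sup id := by
    intro q hq hn
    have h1 : k ≤ (F.erase q).sup id := by
      refine hkF.trans ?_
      rw [← hsup q hq]
      exact sup_le le_rfl hn
    have h2 := Nat.find_min' hex ⟨F.erase q,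
      ⟨(Finset.coe_subset.2 (Finset.erase_subset q F)).trans hFA, h1⟩, rfl⟩
    have h3 := Finset.card_erase_lt_of_mem hq
    omega
  have hinf : ∀ q ∈ F, q ⊓ (F.erase q).sup id = ⊥ := fun q hq =>
    lat_inf_eq_of_cov (hA q (hFA hq)).bot_covBy bot_le (hind q hq)
  refine ⟨F.card, fun i => (F.equivFin.symm i : L), fun i => (F.erase (F.equivFin.symm i : L)).sup id,
    F.sup id, hkF, fun i => ?_, fun u hu hx => ?_⟩
  · have hq := (F.equivFin.symm i).2
    refine ⟨hFA hq, Finset.le_sup (f := id) hq, ?_, ?_⟩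
    · have := lat_cov_sup (hA _ (hFA hq)).bot_covBy bot_le (hind _ hq)
      rwa [hsup _ hq] at this
    · rw [inf_comm]
      exact hinf _ hq
  · have hx' : ∀ q ∈ F, u ≤ (F.erase q).sup id := by
      intro q hq
      have := hx (F.equivFin ⟨q, hq⟩)
      simpa only [Equiv.symm_apply_apply] using this
    have key : ∀ G : Finset L, G ⊆ F → u ≤ G.sup id → u = ⊥ := by
      intro G
      induction G using Finset.induction_on with
      | empty => intro _ h; simpa using h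
      | insert q G hqG ih =>
        intro hsub h
        have hq : q ∈ F := hsub (Finset.mem_insert_self q G)
        have hG : G ⊆ F.erase q := by
          intro z hz
          exact Finset.mem_erase.2 ⟨fun e => hqG (e ▸ hz), hsub (Finset.mem_insert_of_mem hz)⟩
        refine ih (fun z hz => hsub (Finset.mem_insert_of_mem hz)) ?_
        have h1 : (G.sup id ⊔ q) ⊓ (F.erase q).sup id = G.sup id := by
          rw [sup_inf_assoc_of_le q (Finset.sup_mono hG), hinf q hq, sup_bot_eq]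
        rw [← h1]
        refine le_inf ?_ (hx' q hq)
        rw [Finset.sup_insert, sup_comm] at h
        exact h
    exact key F le_rfl hu

omit [IsCompactlyGenerated L] in
theorem lat_height_aux (F : Finset L) (hF : ∀ p ∈ F, IsAtom p) :
    ∀ (a : L) (f : ℕ → L), Monotone f → a ≤ f 0 → (∀ i, f i ≤ a ⊔ F.sup id) →
      ∀ S : Finset ℕ, (∀ i ∈ S, f i < f (i + 1)) → S.card ≤ F.card := by
  classical
  induction F using Finset.induction_on with
  | empty =>
    intro a f hf h0 hb S hS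
    rw [Finset.card_empty, Nat.le_zero, Finset.card_eq_zero, Finset.eq_empty_iff_forall_notMem]
    intro i hi
    have h1 := hb (i + 1)
    rw [Finset.sup_empty, sup_bot_eq] at h1
    exact (hS i hi).not_ge (h1.trans (h0.trans (hf (Nat.zero_le i))))
  | insert p G hpG ih =>
    intro a f hf h0 hb S hS
    have hp : IsAtom p := hF p (Finset.mem_insert_self p G)
    have ih' := ih (fun q hq => hF q (Finset.mem_insert_of_mem hq)) (a ⊔ p) (fun i => f i ⊔ p)
      (fun i j hij => sup_le_sup_right (hf hij) p) (sup_le_sup_right h0 p) (fun i => by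
        refine sup_le ((hb i).trans ?_) (le_sup_right.trans le_sup_left)
        rw [Finset.sup_insert, sup_assoc]
        rfl)
      (S.filter fun i => ¬ (¬ p ≤ f i ∧ p ≤ f (i + 1))) (fun i hi => by
        obtain ⟨hiS, hi'⟩ := Finset.mem_filter.1 hi
        refine lt_of_le_of_ne (sup_le_sup_right (hf (Nat.le_succ i)) p) fun e => ?_
        have h1 : f (i + 1) ≤ f i ⊔ p := le_sup_left.trans e.symm.le
        by_cases h2 : p ≤ f i
        · rw [sup_eq_left.2 h2] at h1
          exact (hS i hiS).not_ge h1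
        · rcases (lat_cov_sup hp.bot_covBy bot_le h2).eq_or_eq (hS i hiS).le h1 with h3 | h3
          · exact (hS i hiS).ne' h3
          · exact hi' ⟨h2, le_sup_right.trans h3.symm.le⟩)
    have h2 : (S.filter fun i => ¬ p ≤ f i ∧ p ≤ f (i + 1)).card ≤ 1 := by
      rw [Finset.card_le_one]
      intro i hi j hj
      obtain ⟨-, hi1, hi2⟩ := Finset.mem_filter.1 hi
      obtain ⟨-, hj1, hj2⟩ := Finset.mem_filter.1 hj
      rcases lt_trichotomy i j with h | h | h
      · exact absurd (hi2.trans (hf h)) hj1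
      · exact h
      · exact absurd (hj2.trans (hf h)) hi1
    have h3 := Finset.card_filter_add_card_filter_not (s := S)
      (fun i => ¬ p ≤ f i ∧ p ≤ f (i + 1))
    rw [Finset.card_insert_of_notMem hpG]
    omega

omit [IsCompactlyGenerated L] in
/-- compact elements of an atomistic lattice have finite height, uniformly over any base. -/
theorem finite_height [IsAtomistic L] {k : L} (hk : IsCompactElement k) :
    ∃ n : ℕ, ∀ (a : L) (f : ℕ → L), a ≤ f 0 → f n ≤ a ⊔ k → ¬ ∀ i < n, f i < f (i + 1) := by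
  obtain ⟨F, hFA, hkF⟩ := (CompleteLattice.isCompactElement_iff_exists_le_sSup_of_le_sSup L k).1 hk
    {p | IsAtom p ∧ p ≤ k} (sSup_atoms_le_eq k).symm.le
  refine ⟨F.card + 1, fun a f h0 hn hlt => ?_⟩
  have hmono : Monotone fun i => f (min i (F.card + 1)) := by
    refine monotone_nat_of_le_succ fun i => ?_
    by_cases hi : i < F.card + 1
    · rw [min_eq_left hi.le, min_eq_left (Nat.succ_le_of_lt hi)]
      exact (hlt i hi).le
    · rw [min_eq_right (not_lt.1 hi), min_eq_right (by omega)]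
  have h1 := lat_height_aux F (fun p hp => (hFA hp).1) a _ hmono (by simpa using h0) (fun i => by
      have h2 := hmono (le_max_left i (F.card + 1))
      have h3 : min (max i (F.card + 1)) (F.card + 1) = F.card + 1 := min_eq_right (le_max_right _ _)
      simp only [h3] at h2
      exact h2.trans (hn.trans (sup_le_sup_left hkF a)))
    (Finset.range (F.card + 1)) (fun i hi => by
      have hi' := Finset.mem_range.1 hi
      simp only [min_eq_left hi'.le, min_eq_left (Nat.succ_le_of_lt hi')]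
      exact hlt i hi')
  rw [Finset.card_range] at h1
  omega

omit [IsModularLattice L] in
theorem compact_of_wf {Y : L} (hY : WellFoundedGT (Set.Iic Y)) (h : u ≤ Y) :
    IsCompactElement u := by
  obtain ⟨k, hk, hmax⟩ := hY.wf.has_min {k : Set.Iic Y | IsCompactElement (k : L) ∧ (k : L) ≤ u}
    ⟨⟨⊥, bot_le⟩, compact_bot, bot_le⟩
  have h1 : u ≤ k := by
    by_contra hn
    obtain ⟨k', hk', h1, h2⟩ := exists_compact_not_le hn
    apply hmax ⟨(k : L) ⊔ k', sup_le k.2 (h1.trans h)⟩ ⟨compact_sup hk.1 hk', sup_le hk.2 h1⟩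
    change (k : L) < (k : L) ⊔ k'
    exact lt_of_le_of_ne le_sup_left fun e => h2 (le_sup_right.trans e.symm.le)
  rw [le_antisymm h1 hk.2]
  exact hk.1

end Semisimple

end Pool.Agent.Lib.MP_36fb39_al
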