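import Pool.Agent.Lib.MP_36fb39_al.Poly

set_option autoImplicit false

namespace Pool.Agent.Lib.MP_36fb39_al

section Act
variable {G : Type*} [Group G] {L : Type*} [CompleteLattice L] {ρ : G →* (L ≃o L)}
  {Γ Γ' : Subgroup G} {a b u k : L}

theorem act_mul (ρ : G →* (L ≃o L)) (g h : G) (a : L) : ρ (g * h) a = ρ g (ρ h a) := by
  rw [map_mul]; rfl

theorem act_one (ρ : G →* (L ≃o L)) (a : L) : ρ 1 a = a := by
  rw [map_one]; rfl

theorem act_inv_act (ρ : G →* (L ≃o L)) (g : G) (a : L) : ρ g⁻¹ (ρ g a) = a := by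
  rw [← act_mul, inv_mul_cancel, act_one]

theorem act_act_inv (ρ : G →* (L ≃o L)) (g : G) (a : L) : ρ g (ρ g⁻¹ a) = a := by
  rw [← act_mul, mul_inv_cancel, act_one]

theorem Fx.bot : Fx ρ Γ ⊥ := fun g _ => (ρ g).map_bot

theorem Fx.top : Fx ρ Γ ⊤ := fun g _ => (ρ g).map_top

theorem Fx.inf (ha : Fx ρ Γ a) (hb : Fx ρ Γ b) : Fx ρ Γ (a ⊓ b) := fun g hg => by
  rw [OrderIso.map_inf, ha g hg, hb g hg]

theorem Fx.sup (ha : Fx ρ Γ a) (hb : Fx ρ Γ b) : Fx ρ Γ (a ⊔ b) := fun g hg => by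
  rw [OrderIso.map_sup, ha g hg, hb g hg]

theorem Fx.sSup {S : Set L} (h : ∀ a ∈ S, Fx ρ Γ a) : Fx ρ Γ (sSup S) := fun g hg => by
  rw [OrderIso.map_sSup, sSup_eq_iSup]
  exact iSup_congr fun a => iSup_congr fun ha => h a ha g hg

theorem Fx.iSup {ι : Sort*} {f : ι → L} (h : ∀ i, Fx ρ Γ (f i)) : Fx ρ Γ (⨆ i, f i) := fun g hg => by
  rw [OrderIso.map_iSup]
  exact iSup_congr fun i => h i g hg

theorem Fx.sInf {S : Set L} (h : ∀ a ∈ S, Fx ρ Γ a) : Fx ρ Γ (sInf S) := fun g hg => by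
  rw [OrderIso.map_sInf, sInf_eq_iInf]
  exact iInf_congr fun a => iInf_congr fun ha => h a ha g hg

theorem Fx.mono (ha : Fx ρ Γ a) (h : Γ' ≤ Γ) : Fx ρ Γ' a := fun g hg => ha g (h hg)

theorem Fx.conj {g : G} (ha : Fx ρ Γ a) (hg : Nz g Γ) : Fx ρ Γ (ρ g a) := fun x hx => by
  have h1 : g⁻¹ * x * g ∈ Γ := (hg _).mpr (by simpa [mul_assoc] using hx)
  have h2 : x * g = g * (g⁻¹ * x * g) := by group
  rw [← act_mul, h2, act_mul, ha _ h1]

theorem fx_bot_subgroup (a : L) : Fx ρ ⊥ a := fun g hg => by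
  rw [Subgroup.mem_bot.mp hg, act_one]

theorem fx_of_le (h : ∀ g ∈ Γ, ρ g a ≤ a) : Fx ρ Γ a := fun g hg => by
  refine le_antisymm (h g hg) ?_
  have := (ρ g).monotone (h g⁻¹ (Γ.inv_mem hg))
  rwa [act_act_inv] at this

/-- a join over a `Γ`-stable set is `Γ`-invariant. -/
theorem fx_sSup_of_stable {S : Set L} (h : ∀ g ∈ Γ, ∀ a ∈ S, ρ g a ∈ S) : Fx ρ Γ (sSup S) := by
  refine fx_of_le fun g hg => ?_
  rw [OrderIso.map_sSup]
  exact iSup₂_le fun a ha => le_sSup (h g hg a ha)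

/-- the stabilizer of an element. -/
def lat1Stab (ρ : G →* (L ≃o L)) (a : L) : Subgroup G where
  carrier := {g | ρ g a = a}
  mul_mem' := fun {g h} hg hh => by
    change ρ (g * h) a = a
    rw [act_mul, hh, hg]
  one_mem' := act_one ρ a
  inv_mem' := fun {g} hg => by
    change ρ g⁻¹ a = a
    conv_lhs => rw [← hg]
    exact act_inv_act ρ g a

theorem lat1_fx_iff : Fx ρ Γ a ↔ Γ ≤ lat1Stab ρ a := Iff.rfl

theorem lat1_zpow_fix {t : G} (ht : ρ t a = a) (n : ℤ) : ρ (t ^ n) a = a :=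
  (lat1Stab ρ a).zpow_mem ht n

theorem fx_sup_zpowers {N : Subgroup G} {y : G} :
    Fx ρ (N ⊔ Subgroup.zpowers y) a ↔ Fx ρ N a ∧ ρ y a = a := by
  rw [lat1_fx_iff, lat1_fx_iff, sup_le_iff, Subgroup.zpowers_le]
  rfl

theorem CStep.fx {t : G} (h : CStep Γ' Γ t) (ha : Fx ρ Γ' a) (ht : ρ t a = a) : Fx ρ Γ a := fun g hg => by
  obtain ⟨n, x, hx, rfl⟩ := h.gen g hg
  rw [act_mul, ha x hx, lat1_zpow_fix ht]

theorem le_tr {S : Set G} {g : G} (hg : g ∈ S) (k : L) : ρ g k ≤ tr ρ S k := le_iSup₂_of_le (f := fun g (_ : g ∈ S) => ρ g k) g hg le_rfl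

theorem tr_le_iff {S : Set G} : tr ρ S k ≤ a ↔ ∀ g ∈ S, ρ g k ≤ a := iSup₂_le_iff

theorem tr_mono {S T : Set G} (h : S ⊆ T) (hk : k ≤ u) : tr ρ S k ≤ tr ρ T u := tr_le_iff.mpr fun g hg => ((ρ g).monotone hk).trans (le_tr (h hg) u)

theorem tr_union (S T : Set G) (k : L) : tr ρ (S ∪ T) k = tr ρ S k ⊔ tr ρ T k := iSup_union

theorem tr_sup (S : Set G) (a b : L) : tr ρ S (a ⊔ b) = tr ρ S a ⊔ tr ρ S b := by
  simp only [tr, OrderIso.map_sup, iSup_sup_eq]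

theorem tr_empty (k : L) : tr ρ ∅ k = ⊥ := by simp [tr]

theorem tr_bot (S : Set G) : tr ρ S (⊥ : L) = ⊥ := by simp [tr]

theorem act_tr (g : G) (S : Set G) (k : L) : ρ g (tr ρ S k) = tr ρ ((fun s => g * s) '' S) k := by
  simp only [tr, OrderIso.map_iSup, iSup_image, act_mul]

theorem tr_le_of_fx {S : Set G} (hS : S ⊆ Γ) (ha : Fx ρ Γ a) (hk : k ≤ a) : tr ρ S k ≤ a := tr_le_iff.mpr fun g hg => ((ρ g).monotone hk).trans (ha g (hS hg)).le

theorem fx_tr {S : Set G} (hS : ∀ g ∈ Γ, ∀ s ∈ S, g * s ∈ S) (k : L) : Fx ρ Γ (tr ρ S k) := by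
  refine fx_of_le fun g hg => ?_
  rw [act_tr]
  refine tr_mono ?_ le_rfl
  rintro _ ⟨s, hs, rfl⟩
  exact hS g hg s hs

/-- conjugation stability: if `g` fixes `k` and conjugation by `g` preserves `S`. -/
theorem act_tr_conj {g : G} {S : Set G} (hS : ∀ s, s ∈ S ↔ g * s * g⁻¹ ∈ S) (k : L) :
    ρ g (tr ρ S k) = tr ρ S (ρ g k) := by
  rw [act_tr]
  apply le_antisymm
  · rw [tr_le_iff]
    rintro _ ⟨s, hs, rfl⟩
    have h1 : g * s = g * s * g⁻¹ * g := by group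
    simp only
    rw [h1, act_mul]
    exact le_tr ((hS s).mp hs) _
  · rw [tr_le_iff]
    intro s hs
    have h1 : g⁻¹ * s * g ∈ S := (hS _).mpr (by simpa [mul_assoc] using hs)
    rw [← act_mul]
    exact le_tr (S := (fun s => g * s) '' S) ⟨g⁻¹ * s * g, h1, by group⟩ _

/-- translating the span by a right-invariant set. -/
theorem tr_span {S : Set G} (hS : ∀ s ∈ S, ∀ g ∈ Γ, s * g ∈ S) (k : L) :
    tr ρ S (span ρ Γ k) = tr ρ S k := by
  apply le_antisymm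
  · rw [tr_le_iff]
    intro s hs
    rw [act_tr]
    refine tr_mono ?_ le_rfl
    rintro _ ⟨g, hg, rfl⟩
    exact hS s hs g hg
  · refine tr_mono le_rfl ?_
    have := le_tr (ρ := ρ) (S := (Γ : Set G)) Γ.one_mem k
    rwa [act_one] at this

theorem le_span (Γ : Subgroup G) (k : L) : k ≤ span ρ Γ k := by
  have := le_tr (ρ := ρ) (S := (Γ : Set G)) Γ.one_mem k
  rwa [act_one] at this

theorem fx_span (Γ : Subgroup G) (k : L) : Fx ρ Γ (span ρ Γ k) := fx_tr (fun _ hg _ hs => Γ.mul_mem hg hs) k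

theorem span_le (ha : Fx ρ Γ a) (hk : k ≤ a) : span ρ Γ k ≤ a := tr_le_of_fx le_rfl ha hk

theorem span_mono (h : Γ' ≤ Γ) (hk : k ≤ u) : span ρ Γ' k ≤ span ρ Γ u := tr_mono h hk

theorem Fx.span_eq (ha : Fx ρ Γ a) : span ρ Γ a = a := le_antisymm (span_le ha le_rfl) (le_span Γ a)

theorem span_span (h : Γ' ≤ Γ) (k : L) : span ρ Γ (span ρ Γ' k) = span ρ Γ k := tr_span (fun _ hs _ hg => Γ.mul_mem hs (h hg)) k

theorem span_bot_subgroup (k : L) : span ρ ⊥ k = k := (fx_bot_subgroup k).span_eq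

theorem span_sup_zpowers {N : Subgroup G} {y : G} (hy : Nz y N) (hk : ρ y k = k) :
    span ρ (N ⊔ Subgroup.zpowers y) k = span ρ N k := by
  refine le_antisymm (span_le (fx_sup_zpowers.mpr ⟨fx_span N k, ?_⟩) (le_span N k))
    (span_mono le_sup_left le_rfl)
  rw [act_tr_conj (S := (N : Set G)) hy, hk]

theorem CStep.span_eq {t : G} (h : CStep Γ' Γ t) (hu : Fx ρ Γ' u) :
    span ρ Γ u = ⨆ n : ℤ, ρ (t ^ n) u := by
  apply le_antisymm
  · rw [tr_le_iff]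
    intro g hg
    obtain ⟨n, x, hx, rfl⟩ := h.gen g hg
    rw [act_mul, hu x hx]
    exact le_iSup (fun n : ℤ => ρ (t ^ n) u) n
  · exact iSup_le fun n => le_tr (Γ.zpow_mem h.mem n) u

theorem Step.tr_diff {t : G} (h : Step Γ' Γ t) (hu : Fx ρ Γ' u) :
    tr ρ ((Γ : Set G) \ (Γ' : Set G)) u = ⨆ (n : ℤ) (_ : n ≠ 0), ρ (t ^ n) u := by
  apply le_antisymm
  · rw [tr_le_iff]
    rintro g ⟨hg, hg'⟩
    obtain ⟨n, x, hx, rfl⟩ := h.gen g hg
    rw [act_mul, hu x hx]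
    refine le_iSup₂_of_le (f := fun (n : ℤ) (_ : n ≠ 0) => ρ (t ^ n) u) n ?_ le_rfl
    rintro rfl
    exact hg' (by simpa using hx)
  · exact iSup₂_le fun n hn => le_tr (S := (Γ : Set G) \ (Γ' : Set G))
      ⟨Γ.zpow_mem h.mem n, fun h' => hn (h.free n h')⟩ u

theorem span_eq_sup_tr (h : Γ' ≤ Γ) (hu : Fx ρ Γ' u) :
    span ρ Γ u = u ⊔ tr ρ ((Γ : Set G) \ (Γ' : Set G)) u := by
  have h1 : (Γ : Set G) = (Γ' : Set G) ∪ ((Γ : Set G) \ (Γ' : Set G)) :=
    (Set.union_sdiff_cancel h).symm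
  have h2 : tr ρ (Γ' : Set G) u = u := hu.span_eq
  change tr ρ (Γ : Set G) u = _
  conv_lhs => rw [h1]
  rw [tr_union, h2]

theorem compact_orderIso {L' : Type*} [CompleteLattice L'] (f : L ≃o L')
    (hk : IsCompactElement k) : IsCompactElement (f k) := by
  rw [CompleteLattice.isCompactElement_iff_le_of_directed_sSup_le] at hk ⊢
  intro S hne hd hle
  have h1 : k ≤ sSup (f.symm '' S) := by
    rw [sSup_image, ← OrderIso.map_sSup]
    exact f.le_symm_apply.mpr hle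
  obtain ⟨_, ⟨x, hx, rfl⟩, h2⟩ := hk _ (hne.image _)
    (hd.mono_comp (g := f.symm) fun _ _ h => f.symm.monotone h) h1
  exact ⟨x, hx, f.le_symm_apply.mp h2⟩

theorem compact_sup (ha : IsCompactElement a) (hb : IsCompactElement b) :
    IsCompactElement (a ⊔ b) := by
  rw [CompleteLattice.isCompactElement_iff_le_of_directed_sSup_le] at ha hb ⊢
  intro S hne hd hle
  obtain ⟨x, hx, h1⟩ := ha S hne hd (le_sup_left.trans hle)
  obtain ⟨y, hy, h2⟩ := hb S hne hd (le_sup_right.trans hle)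
  obtain ⟨z, hz, h3, h4⟩ := hd x hx y hy
  exact ⟨z, hz, sup_le (h1.trans h3) (h2.trans h4)⟩

theorem compact_bot : IsCompactElement (⊥ : L) := by
  rw [CompleteLattice.isCompactElement_iff_le_of_directed_sSup_le]
  rintro S ⟨x, hx⟩ _ _
  exact ⟨x, hx, bot_le⟩

theorem compact_tr_finset (S : Finset G) (hk : IsCompactElement k) :
    IsCompactElement (tr ρ (S : Set G) k) := by
  classical
  induction S using Finset.induction_on with
  | empty => rw [Finset.coe_empty, tr_empty]; exact compact_bot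
  | insert g S _ ih =>
    rw [Finset.coe_insert, Set.insert_eq, tr_union]
    refine compact_sup ?_ ih
    have : tr ρ {g} k = ρ g k := by simp [tr]
    rw [this]
    exact compact_orderIso _ hk

theorem lat1_exists_finset {I : Type*} {S : Set I} {f : I → L} (hk : IsCompactElement k)
    (h : k ≤ a ⊔ ⨆ i ∈ S, f i) :
    ∃ F : Finset I, (F : Set I) ⊆ S ∧ k ≤ a ⊔ ⨆ i ∈ (F : Set I), f i := by
  classical
  rw [CompleteLattice.isCompactElement_iff_le_of_directed_sSup_le] at hk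
  obtain ⟨_, ⟨F, hF, rfl⟩, h1⟩ := hk
    ((fun F : Finset I => a ⊔ ⨆ i ∈ (F : Set I), f i) '' {F | (F : Set I) ⊆ S})
    ⟨_, ∅, by simp, rfl⟩ (by
      rintro _ ⟨F, hF, rfl⟩ _ ⟨F', hF', rfl⟩
      refine ⟨_, ⟨F ∪ F', ?_, rfl⟩, ?_, ?_⟩
      · simpa using ⟨hF, hF'⟩
      · exact sup_le_sup_left (biSup_mono fun i hi => by simp [show i ∈ F from hi]) _
      · exact sup_le_sup_left (biSup_mono fun i hi => by simp [show i ∈ F' from hi]) _) (by
      refine h.trans (sup_le ?_ (iSup₂_le fun i hi => ?_))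
      · exact le_sSup_of_le ⟨∅, by simp, rfl⟩ le_sup_left
      · refine le_sSup_of_le ⟨{i}, by simpa using hi, rfl⟩ (le_sup_of_le_right ?_)
        simp)
  exact ⟨F, hF, h1⟩

theorem exists_finset_of_le_tr {S : Set G} (hk : IsCompactElement k) (h : k ≤ a ⊔ tr ρ S u) :
    ∃ F : Finset G, (F : Set G) ⊆ S ∧ k ≤ a ⊔ tr ρ (F : Set G) u := lat1_exists_finset hk h

theorem exists_compact_not_le [IsCompactlyGenerated L] (h : ¬ a ≤ b) :
    ∃ k, IsCompactElement k ∧ k ≤ a ∧ ¬ k ≤ b := by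
  by_contra hc
  push Not at hc
  apply h
  rw [← sSup_compact_le_eq a]
  exact sSup_le fun k hk => hc k hk.1 hk.2

theorem compact_of_isAtom [IsCompactlyGenerated L] (h : IsAtom a) : IsCompactElement a := by
  obtain ⟨k, hk, h1, h2⟩ := exists_compact_not_le (a := a) (b := ⊥) (by
    rw [le_bot_iff]; exact h.1)
  rcases h.le_iff.mp h1 with h3 | h3
  · exact absurd h3.le h2
  · rwa [← h3]

theorem IndOn.mono {S T : Set G} (h : IndOn ρ S a u) (hT : T ⊆ S) {v : L} (hv : v ≤ u) :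
    IndOn ρ T a v := (inf_le_inf hv (sup_le_sup_left (tr_mono hT hv) a)).trans h

end Act

section Ind
variable {G : Type*} [Group G] {L : Type*} [CompleteLattice L] [IsModularLattice L]
  [IsCompactlyGenerated L] {ρ : G →* (L ≃o L)} {Γ Γ' : Subgroup G} {a b u k : L}

omit [IsModularLattice L] in
theorem lat1_inf_le_of_finset {I : Type*} {S : Set I} {f : I → L} {x y : L}
    (h : ∀ F : Finset I, (F : Set I) ⊆ S → x ⊓ (a ⊔ ⨆ i ∈ (F : Set I), f i) ≤ y) :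
    x ⊓ (a ⊔ ⨆ i ∈ S, f i) ≤ y := by
  by_contra hc
  obtain ⟨k, hk, h1, h2⟩ := exists_compact_not_le hc
  obtain ⟨F, hF, h3⟩ := lat1_exists_finset hk (h1.trans inf_le_right)
  exact h2 ((le_inf (h1.trans inf_le_left) h3).trans (h F hF))

omit [IsCompactlyGenerated L] in
theorem lat1_exch {R v : L} (h : v ⊓ (u ⊔ R) ≤ R) : u ⊓ (R ⊔ v) ≤ u ⊓ R := by
  refine le_inf inf_le_left ?_
  have h1 : u ⊓ (R ⊔ v) ≤ (R ⊔ v) ⊓ (u ⊔ R) :=
    le_inf inf_le_right (inf_le_left.trans le_sup_left)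
  rw [sup_inf_assoc_of_le v (le_sup_right : R ≤ u ⊔ R)] at h1
  exact h1.trans (sup_le le_rfl h)

/-- one-sided independence gives independence. -/
theorem ind_ord {I : Type*} [LinearOrder I] (f : I → L) (a : L)
    (h : ∀ i, f i ⊓ (a ⊔ ⨆ (j : I) (_ : i < j), f j) ≤ a) (i : I) :
    f i ⊓ (a ⊔ ⨆ (j : I) (_ : j ≠ i), f j) ≤ a := by
  classical
  refine lat1_inf_le_of_finset (S := {j | j ≠ i}) fun F => ?_
  induction F using Finset.induction_on_min with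
  | empty =>
    intro _
    refine le_trans ?_ (h i)
    exact inf_le_inf_left _ (sup_le_sup_left (by simp) _)
  | insert m F hm ih =>
    intro hF
    have hmi : m ≠ i := hF (by simp)
    rcases lt_or_gt_of_ne hmi with h1 | h1
    · have ih' := ih fun j hj => hF (by simp [show j ∈ F from hj])
      rw [Finset.coe_insert, iSup_insert, sup_comm (f m), ← sup_assoc]
      refine (lat1_exch ?_).trans ih'
      refine le_trans ?_ ((h m).trans le_sup_left)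
      refine inf_le_inf_left _ (sup_le (le_sup_of_le_right ?_) (sup_le_sup_left ?_ _))
      · exact le_iSup₂_of_le (f := fun (j : I) (_ : m < j) => f j) i h1 le_rfl
      · exact biSup_mono fun j hj => hm j hj
    · refine le_trans ?_ (h i)
      refine inf_le_inf_left _ (sup_le_sup_left (biSup_mono fun j hj => ?_) _)
      rcases Finset.mem_insert.mp hj with h2 | h2
      · rw [h2]; exact h1
      · exact h1.trans (hm j h2)

theorem indOn_of_pos {t : G} (h : Step Γ' Γ t) (ha : Fx ρ Γ a) (hu : Fx ρ Γ' u)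
    (hi : u ⊓ (a ⊔ ⨆ (n : ℤ) (_ : 0 < n), ρ (t ^ n) u) ≤ a) :
    IndOn ρ ((Γ : Set G) \ (Γ' : Set G)) a u := by
  have := ind_ord (fun n : ℤ => ρ (t ^ n) u) a (by
    intro i
    have h1 := (ρ (t ^ i)).monotone hi
    rw [OrderIso.map_inf, OrderIso.map_sup, ha _ (Γ.zpow_mem h.mem i)] at h1
    refine le_trans (inf_le_inf_left _ (sup_le_sup_left (iSup₂_le fun j hj => ?_) _)) h1
    have h2 : t ^ j = t ^ i * t ^ (j - i) := by rw [← zpow_add]; congr 1; ring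
    rw [h2, act_mul]
    exact (ρ (t ^ i)).monotone
      (le_iSup₂_of_le (f := fun (n : ℤ) (_ : 0 < n) => ρ (t ^ n) u) (j - i) (by omega) le_rfl)) 0
  rw [IndOn, h.tr_diff hu]
  simpa only [zpow_zero, act_one] using this

theorem ind_group {Γ₀ Γ₂ : Subgroup G} (h₀ : Γ₀ ≤ Γ₂) (h₂ : Γ₂ ≤ Γ) (ha : Fx ρ Γ a)
    (hu : Fx ρ Γ₀ u) (hi : IndOn ρ ((Γ : Set G) \ (Γ₀ : Set G)) a u) :
    IndOn ρ ((Γ : Set G) \ (Γ₂ : Set G)) a (span ρ Γ₂ u) := by
  classical
  have hS : ∀ s ∈ (Γ : Set G) \ (Γ₂ : Set G), ∀ g ∈ Γ₂, s * g ∈ (Γ : Set G) \ (Γ₂ : Set G) := by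
    rintro s ⟨hs, hs'⟩ g hg
    refine ⟨Γ.mul_mem hs (h₂ hg), fun h => hs' ?_⟩
    have := Γ₂.mul_mem h (Γ₂.inv_mem hg)
    simpa using this
  rw [IndOn, tr_span hS]
  set R := a ⊔ tr ρ ((Γ : Set G) \ (Γ₂ : Set G)) u with hR
  have key : R ⊓ (a ⊔ ⨆ g ∈ (Γ₂ : Set G), ρ g u) ≤ a := by
    refine lat1_inf_le_of_finset fun F => ?_
    induction F using Finset.induction_on with
    | empty => intro _; simp
    | insert g F _ ih =>
      intro hF
      have hg : g ∈ Γ₂ := hF (by simp)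
      have hF' : (F : Set G) ⊆ Γ₂ := fun j hj => hF (by simp [show j ∈ F from hj])
      have ih' := ih hF'
      rw [Finset.coe_insert, iSup_insert, sup_comm (ρ g u), ← sup_assoc]
      by_cases hc : ∃ f ∈ F, g⁻¹ * f ∈ Γ₀
      · obtain ⟨f, hf, hf'⟩ := hc
        have h1 : ρ g u = ρ f u := by
          conv_lhs => rw [← hu _ hf', ← act_mul]
          congr 2; group
        refine le_trans (inf_le_inf_left _ (sup_le le_rfl (le_sup_of_le_right ?_))) ih'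
        rw [h1]
        exact le_iSup₂_of_le (f := fun (j : G) (_ : j ∈ (F : Set G)) => ρ j u) f hf le_rfl
      · push Not at hc
        refine (lat1_exch ?_).trans ih'
        have h1 := (ρ g).monotone hi
        rw [OrderIso.map_inf, OrderIso.map_sup, ha g (h₂ hg), act_tr] at h1
        refine le_trans (inf_le_inf_left _ ?_) (h1.trans le_sup_left)
        refine sup_le (sup_le_sup_left (tr_mono ?_ le_rfl) _)
          (sup_le_sup_left (tr_mono (S := (F : Set G)) ?_ le_rfl) _)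
        · rintro s ⟨hs, hs'⟩
          refine ⟨g⁻¹ * s, ⟨Γ.mul_mem (Γ.inv_mem (h₂ hg)) hs, fun h => hs' ?_⟩, by group⟩
          have := Γ₂.mul_mem hg (h₀ h)
          simpa using this
        · intro s hs
          exact ⟨g⁻¹ * s, ⟨Γ.mul_mem (Γ.inv_mem (h₂ hg)) (h₂ (hF' hs)), hc s hs⟩, by group⟩
  exact le_trans (le_inf inf_le_right (inf_le_left.trans le_sup_right)) key

omit [IsCompactlyGenerated L] in
theorem ind_nest {Γ₀ Γ₁ : Subgroup G} (h₀ : Γ₀ ≤ Γ₁) (h₁ : Γ₁ ≤ Γ) {a' u' : L}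
    (ha : Fx ρ Γ a) (hu : Fx ρ Γ₁ u) (hi : IndOn ρ ((Γ : Set G) \ (Γ₁ : Set G)) a u)
    (ha' : Fx ρ Γ₁ a') (haa : a ≤ a') (hau : a' ≤ u') (huu : u' ≤ u)
    (hi' : IndOn ρ ((Γ₁ : Set G) \ (Γ₀ : Set G)) a' u') :
    u' ⊓ span ρ Γ a' ≤ a' ∧
      IndOn ρ ((Γ : Set G) \ (Γ₀ : Set G)) (span ρ Γ a') (u' ⊔ span ρ Γ a') := by
  set R := a ⊔ tr ρ ((Γ : Set G) \ (Γ₁ : Set G)) u with hR
  set R₁ := a' ⊔ tr ρ ((Γ₁ : Set G) \ (Γ₀ : Set G)) u' with hR₁
  have hau' : a' ≤ u := hau.trans huu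
  have hA : span ρ Γ a' ≤ a' ⊔ R := by
    rw [span_eq_sup_tr h₁ ha']
    exact sup_le_sup_left (le_sup_of_le_right (tr_mono le_rfl hau')) _
  have hmod : ∀ w, a ≤ w → w ≤ u → u ⊓ (w ⊔ R) ≤ w := by
    intro w haw hwu
    rw [inf_comm, sup_inf_assoc_of_le R hwu, inf_comm]
    exact sup_le le_rfl (le_trans hi haw)
  have hR₁u : R₁ ≤ u := sup_le hau' (tr_le_of_fx (fun _ h => h.1) hu huu)
  refine ⟨(inf_le_inf huu hA).trans (hmod a' haa hau'), ?_⟩
  have hAfx : Fx ρ Γ (span ρ Γ a') := fx_span Γ a'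
  have hAR : span ρ Γ a' ≤ R₁ ⊔ R := hA.trans (sup_le_sup_right le_sup_left _)
  have h1 : span ρ Γ a' ⊔ tr ρ ((Γ : Set G) \ (Γ₀ : Set G)) (u' ⊔ span ρ Γ a') ≤ R₁ ⊔ R := by
    refine sup_le hAR ?_
    rw [tr_sup]
    refine sup_le (tr_le_iff.mpr ?_) ((tr_le_of_fx (fun _ h => h.1) hAfx le_rfl).trans hAR)
    rintro g ⟨hg, hg'⟩
    by_cases hc : g ∈ Γ₁
    · exact le_sup_of_le_left (le_sup_of_le_right 
        (le_tr (S := (Γ₁ : Set G) \ (Γ₀ : Set G)) ⟨hc, hg'⟩ u'))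
    · exact le_sup_of_le_right (le_sup_of_le_right (((ρ g).monotone huu).trans
        (le_tr (S := (Γ : Set G) \ (Γ₁ : Set G)) ⟨hg, hc⟩ u)))
  refine (inf_le_inf_left _ h1).trans ?_
  rw [sup_comm u', sup_inf_assoc_of_le u' hAR]
  refine sup_le le_rfl (le_trans ?_ (le_span Γ a'))
  refine le_trans (le_inf inf_le_left ?_) hi'
  exact (inf_le_inf_right _ huu).trans (hmod R₁ (haa.trans le_sup_left) hR₁u)

end Ind

end Pool.Agent.Lib.MP_36fb39_al
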