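import Pool.Agent.Lib.MP_36fb39_al.Ge

set_option autoImplicit false

namespace Pool.Agent.Lib.MP_36fb39_al

variable {G : Type*} [Group G] {L : Type*} [CompleteLattice L] [IsModularLattice L]
  [IsCompactlyGenerated L] {ρ : G →* (L ≃o L)} {Γ Γ' : Subgroup G} {e : ℕ} {a b c u k x s : L}

omit [IsModularLattice L] [IsCompactlyGenerated L] in
theorem LenGe.le {n : ℕ} (h : LenGe ρ Γ e n a b) : a ≤ b := by
  induction n generalizing b with
  | zero => exact h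
  | succ n ih =>
    obtain ⟨c, -, h1, h2⟩ := h
    exact (ih h1).trans h2.lt.le

omit [IsModularLattice L] [IsCompactlyGenerated L] in
theorem LenGe.mono {n : ℕ} (h : LenGe ρ Γ e n a b) {a' b' : L} (ha : a' ≤ a) (hb : b ≤ b') :
    LenGe ρ Γ e n a' b' := by
  induction n generalizing b b' with
  | zero => exact ha.trans (le_trans h hb)
  | succ n ih =>
    obtain ⟨c, hc, h1, h2⟩ := h
    exact ⟨c, hc, ih h1 le_rfl, h2.mono le_rfl hb⟩

omit [IsModularLattice L] [IsCompactlyGenerated L] in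
theorem LenGe.of_le {n m : ℕ} (h : LenGe ρ Γ e n a b) (hm : m ≤ n) : LenGe ρ Γ e m a b := by
  induction hm with
  | refl => exact h
  | step _ ih =>
    obtain ⟨c, -, h1, h2⟩ := h
    exact ih (h1.mono le_rfl h2.lt.le)

omit [IsModularLattice L] [IsCompactlyGenerated L] in
theorem LenGe.append {n m : ℕ} (h : LenGe ρ Γ e n a c) (h' : LenGe ρ Γ e m c b) :
    LenGe ρ Γ e (n + m) a b := by
  induction m generalizing b with
  | zero => exact h.mono le_rfl h'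
  | succ m ih =>
    obtain ⟨c', hc', h1, h2⟩ := h'
    exact ⟨c', hc', ih h1, h2⟩

omit [IsModularLattice L] [IsCompactlyGenerated L] in
theorem lenGe_one_iff (ha : Fx ρ Γ a) : LenGe ρ Γ e 1 a b ↔ Ge ρ Γ e a b := by
  constructor
  · rintro ⟨c, -, h1, h2⟩
    exact h2.mono h1 le_rfl
  · intro h
    exact ⟨a, ha, le_rfl, h⟩

omit [IsModularLattice L] [IsCompactlyGenerated L] in
theorem LenGe.conj {n : ℕ} (h : LenGe ρ Γ e n a b) {g : G} (hg : Nz g Γ) :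
    LenGe ρ Γ e n (ρ g a) (ρ g b) := by
  induction n generalizing b with
  | zero => exact (ρ g).monotone h
  | succ n ih =>
    obtain ⟨c, hc, h1, h2⟩ := h
    exact ⟨ρ g c, hc.conj hg, ih h1, h2.conj hg⟩

omit [IsCompactlyGenerated L] in
theorem LenGe.tup {n : ℕ} (h : LenGe ρ Γ e n a b) (hb : Fx ρ Γ b) (hc : Fx ρ Γ c)
    (hbc : b ⊓ c ≤ a) : LenGe ρ Γ e n (a ⊔ c) (b ⊔ c) := by
  induction n generalizing b with
  | zero => exact sup_le_sup_right h c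
  | succ n ih =>
    obtain ⟨c0, hc0, h1, h2⟩ := h
    exact ⟨c0 ⊔ c, hc0.sup hc, ih h1 hc0 ((inf_le_inf_right c h2.lt.le).trans hbc),
      h2.tup hb hc (hbc.trans h1.le)⟩

omit [IsCompactlyGenerated L] in
theorem LenGe.tdown {n : ℕ} {c' d : L} (h : LenGe ρ Γ e n c' d) (hb : Fx ρ Γ b) (hc : c ≤ c')
    (hd : d ≤ b ⊔ c) : LenGe ρ Γ e n (b ⊓ c') (b ⊓ d) := by
  induction n generalizing d with
  | zero => exact inf_le_inf_left b h
  | succ n ih =>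
    obtain ⟨c0, hc0, h1, h2⟩ := h
    exact ⟨b ⊓ c0, hb.inf hc0, ih h1 (h2.lt.le.trans hd), h2.tdown hb (hc.trans h1.le) hd⟩

omit [IsCompactlyGenerated L] in
theorem LenGe.split (hex : Ex ρ Γ) {n : ℕ} (h : LenGe ρ Γ e n a c) (hb : Fx ρ Γ b)
    (hc : Fx ρ Γ c) :
    ∃ i j, i + j = n ∧ LenGe ρ Γ e i (a ⊓ b) (c ⊓ b) ∧ LenGe ρ Γ e j (a ⊔ b) (c ⊔ b) := by
  induction n generalizing c with
  | zero => exact ⟨0, 0, rfl, inf_le_inf_right b h, sup_le_sup_right h b⟩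
  | succ n ih =>
    obtain ⟨c0, hc0, h1, h2⟩ := h
    obtain ⟨i, j, hij, hi, hj⟩ := ih h1 hc0
    have hle : c0 ≤ c := h2.lt.le
    rcases hex e c0 (c0 ⊔ c ⊓ b) c hc0 (hc0.sup (hc.inf hb)) hc le_sup_left
      (sup_le hle inf_le_left) h2 with h3 | h3
    · refine ⟨i + 1, j, by omega, ⟨c0 ⊓ b, hc0.inf hb, hi, ?_⟩,
        hj.mono le_rfl (sup_le_sup_right hle b)⟩
      have h4 := h3.tdown (c := c0) hb le_rfl
        (sup_le le_sup_right (inf_le_right.trans le_sup_left))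
      exact h4.mono (inf_comm c0 b).le
        (le_inf (inf_le_right.trans (sup_le hle inf_le_left)) inf_le_left)
    · refine ⟨i, j + 1, by omega, hi.mono le_rfl (inf_le_inf_right b hle),
        ⟨c0 ⊔ b, hc0.sup hb, hj, ?_⟩⟩
      exact (h3.tup hc hb le_sup_right).mono (sup_le_sup_right le_sup_left b) le_rfl

theorem len_directed_aux {n : ℕ} {S : Set L} (hS : S.Nonempty)
    (hd : DirectedOn (· ≤ ·) S) (hi : ∀ w ∈ S, Fx ρ Γ w) (ha : ∀ w ∈ S, a ≤ w)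
    (h : LenGe ρ Γ e n a c) (hc : Fx ρ Γ c) (hcs : c ≤ sSup S) :
    ∃ w ∈ S, LenGe ρ Γ e n a (c ⊓ w) := by
  induction n generalizing c with
  | zero =>
    obtain ⟨w, hw⟩ := hS
    exact ⟨w, hw, le_inf h (ha w hw)⟩
  | succ n ih =>
    obtain ⟨c0, hc0, h1, h2⟩ := h
    have hle : c0 ≤ c := h2.lt.le
    obtain ⟨w1, hw1, h3⟩ := ih h1 hc0 (hle.trans hcs)
    have he : c = sSup ((fun w => c ⊓ w) '' S) := by
      rw [sSup_image, ← hd.inf_sSup_eq, inf_eq_left.2 hcs]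
    have h4 : Ge ρ Γ e c0 (sSup ((fun w => c ⊓ w) '' S)) := he ▸ h2
    obtain ⟨_, ⟨w2, hw2, rfl⟩, h5⟩ := h4.directed hc0 (hS.image _)
      (by
        rintro _ ⟨p, hp, rfl⟩ _ ⟨q, hq, rfl⟩
        obtain ⟨r, hr, hpr, hqr⟩ := hd p hp q hq
        exact ⟨_, ⟨r, hr, rfl⟩, inf_le_inf_left c hpr, inf_le_inf_left c hqr⟩)
      (by
        rintro _ ⟨p, hp, rfl⟩
        exact hc.inf (hi p hp))
    obtain ⟨w, hw, hw1', hw2'⟩ := hd w1 hw1 w2 hw2
    refine ⟨w, hw, c0 ⊓ w, hc0.inf (hi w hw), h3.mono le_rfl (inf_le_inf_left c0 hw1'), ?_⟩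
    have h6 : Ge ρ Γ e c0 (c0 ⊔ c ⊓ w) :=
      h5.mono le_rfl (sup_le_sup_left (inf_le_inf_left c hw2') c0)
    have h7 := h6.tdown (c := c0) (hc.inf (hi w hw)) le_rfl (sup_comm c0 (c ⊓ w)).le
    exact h7.mono (le_inf (inf_le_inf_right w hle) inf_le_left) inf_le_left

theorem LenGe.directed {n : ℕ} {S : Set L} (h : LenGe ρ Γ e n a (sSup S)) (hS : S.Nonempty)
    (hd : DirectedOn (· ≤ ·) S) (hi : ∀ w ∈ S, Fx ρ Γ w) (ha : ∀ w ∈ S, a ≤ w) :
    ∃ w ∈ S, LenGe ρ Γ e n a w := by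
  obtain ⟨w, hw, h1⟩ := len_directed_aux hS hd hi ha h (Fx.sSup hi) le_rfl
  exact ⟨w, hw, h1.mono le_rfl inf_le_right⟩

omit [IsModularLattice L] [IsCompactlyGenerated L] in
theorem FinLen.mono (h : FinLen ρ Γ e a b) {a' b' : L} (ha : a ≤ a') (hb : b' ≤ b) :
    FinLen ρ Γ e a' b' := by
  obtain ⟨n, hn⟩ := h
  exact ⟨n, fun h' => hn (h'.mono ha hb)⟩

omit [IsModularLattice L] [IsCompactlyGenerated L] in
theorem finLen_of_not_ge (h : ¬ Ge ρ Γ e a b) : FinLen ρ Γ e a b := by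
  refine ⟨1, ?_⟩
  rintro ⟨c, -, h1, h2⟩
  exact h (h2.mono h1 le_rfl)

omit [IsCompactlyGenerated L] in
theorem FinLen.trans (hex : Ex ρ Γ) (hb : Fx ρ Γ b) (hc : Fx ρ Γ c) (hab : a ≤ b) (hbc : b ≤ c)
    (h₁ : FinLen ρ Γ e a b) (h₂ : FinLen ρ Γ e b c) : FinLen ρ Γ e a c := by
  obtain ⟨n₁, h₁⟩ := h₁
  obtain ⟨n₂, h₂⟩ := h₂
  refine ⟨n₁ + n₂, fun h => ?_⟩
  obtain ⟨i, j, hij, hi, hj⟩ := h.split hex hb hc
  by_cases hin : n₁ ≤ i
  · exact h₁ ((hi.of_le hin).mono (le_inf le_rfl hab) inf_le_right)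
  · exact h₂ ((hj.of_le (by omega)).mono le_sup_right (sup_le le_rfl hbc))

/-- a finite length interval is finitely generated up to lower dimension. -/
theorem FinLen.exists_fg (hex : Ex ρ Γ) (ha : Fx ρ Γ a) (hb : Fx ρ Γ b) (hab : a ≤ b)
    (h : FinLen ρ Γ e a b) :
    ∃ k, IsCompactElement k ∧ k ≤ b ∧ ¬ Ge ρ Γ e (a ⊔ span ρ Γ k) b := by
  obtain ⟨n, hn⟩ := h
  induction n generalizing a with
  | zero => exact absurd hab hn
  | succ n ih =>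
    by_cases hg : Ge ρ Γ e a b
    · obtain ⟨k1, hk1, hk1b, h1⟩ := hg.cpt ha
      have h2 : ¬ LenGe ρ Γ e n (a ⊔ span ρ Γ k1) b := fun h' =>
        hn ((((lenGe_one_iff ha).2 h1).append h').of_le (by omega))
      obtain ⟨k2, hk2, hk2b, h3⟩ := ih (ha.sup (fx_span Γ k1)) (sup_le hab (span_le hb hk1b)) h2
      refine ⟨k1 ⊔ k2, compact_sup hk1 hk2, sup_le hk1b hk2b, fun h' => h3 (h'.mono ?_ le_rfl)⟩
      exact sup_le (sup_le_sup_left (span_mono le_rfl le_sup_left) a)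
        ((span_mono le_rfl le_sup_right).trans le_sup_right)
    · exact ⟨⊥, compact_bot, bot_le, fun h' => hg (h'.mono le_sup_left le_rfl)⟩

/-- independent translates give infinite length, also for a smaller group `Γ₀`. -/
theorem lenGe_of_indOn {Γ₀ : Subgroup G} {t : G} (hs : Step Γ' Γ t) (h₀ : Γ₀ ≤ Γ')
    (ht : Nz t Γ₀) (ha : Fx ρ Γ a) (hu : Fx ρ Γ' u)
    (hi : IndOn ρ ((Γ : Set G) \ (Γ' : Set G)) a u) (h : Ge ρ Γ₀ e a u) (n : ℕ) :
    LenGe ρ Γ₀ e n a (span ρ Γ u) := by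
  have ha0 : Fx ρ Γ₀ a := ha.mono (h₀.trans hs.le)
  have hu0 : Fx ρ Γ₀ u := hu.mono h₀
  have hta : ρ t a = a := ha t hs.mem
  have hQ : ρ t (a ⊔ ⨆ j : ℕ, ρ (t ^ j) u) = a ⊔ ⨆ j : ℕ, ρ (t ^ (j + 1)) u := by
    rw [map_sup, hta, OrderIso.map_iSup]
    simp only [← act_mul, ← pow_succ']
  have hQ1 : (a ⊔ ⨆ j : ℕ, ρ (t ^ (j + 1)) u) ≤ a ⊔ tr ρ ((Γ : Set G) \ (Γ' : Set G)) u := by
    refine sup_le_sup_left (iSup_le fun j =>
      le_tr (Set.mem_diff_of_mem (Γ.pow_mem hs.mem _) fun hj => ?_) u) a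
    have := hs.free ((j + 1 : ℕ) : ℤ) (by rwa [zpow_natCast])
    omega
  have hQ2 : (a ⊔ ⨆ j : ℕ, ρ (t ^ (j + 1)) u) ≤ a ⊔ ⨆ j : ℕ, ρ (t ^ j) u :=
    sup_le_sup_left (iSup_le fun j => le_iSup (fun j : ℕ => ρ (t ^ j) u) (j + 1)) a
  have key : ∃ W, Fx ρ Γ₀ W ∧ W ≤ a ⊔ ⨆ j : ℕ, ρ (t ^ j) u ∧ LenGe ρ Γ₀ e n a W := by
    induction n with
    | zero => exact ⟨a, ha0, le_sup_left, le_rfl⟩
    | succ n ih =>
      obtain ⟨W, hW, hWle, hWl⟩ := ih
      have h1 : LenGe ρ Γ₀ e n a (ρ t W) := by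
        have := hWl.conj ht
        rwa [hta] at this
      have h2 : ρ t W ≤ a ⊔ ⨆ j : ℕ, ρ (t ^ (j + 1)) u := hQ ▸ (ρ t).monotone hWle
      refine ⟨u ⊔ ρ t W, hu0.sup (hW.conj ht), sup_le ?_ (h2.trans hQ2),
        ρ t W, hW.conj ht, h1, ?_⟩
      · refine le_sup_of_le_right (le_iSup_of_le 0 ?_)
        rw [pow_zero, act_one]
      · exact (h.tup hu0 (hW.conj ht) ((inf_le_inf_left u (h2.trans hQ1)).trans hi)).mono
          le_sup_right le_rfl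
  obtain ⟨W, -, hWle, hWl⟩ := key
  refine hWl.mono le_rfl (hWle.trans (sup_le (h.lt.le.trans (le_span Γ u)) ?_))
  exact iSup_le fun j => le_tr (Γ.pow_mem hs.mem j) u

theorem Free.not_finLen {t : G} (h : Free ρ Γ' Γ e a b) (hs : Step Γ' Γ t) (hb : Fx ρ Γ b) :
    ¬ FinLen ρ Γ' e a b := by
  obtain ⟨a', u, h1, h2, h3, h4, h5, h6⟩ := h
  rintro ⟨n, hn⟩
  exact hn ((lenGe_of_indOn hs le_rfl (hs.norm t hs.mem) h3 h4 h5 h6 n).mono h1 (span_le hb h2))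

omit [IsModularLattice L] [IsCompactlyGenerated L] in
theorem len_exists_chain {n : ℕ} (h : LenGe ρ Γ e n a b) :
    ∃ f : ℕ → L, a ≤ f 0 ∧ f n ≤ b ∧ ∀ i < n, f i < f (i + 1) := by
  induction n generalizing b with
  | zero => exact ⟨fun _ => a, le_rfl, h, fun i hi => absurd hi (Nat.not_lt_zero i)⟩
  | succ n ih =>
    obtain ⟨c, -, h1, h2⟩ := h
    obtain ⟨f, hf0, hfn, hf⟩ := ih h1
    refine ⟨fun i => if i ≤ n then f i else b, by simpa using hf0, by simp, fun i hi => ?_⟩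
    by_cases hin : i < n
    · have h3 : i ≤ n := hin.le
      have h4 : i + 1 ≤ n := hin
      simp only [h3, h4, if_true]
      exact hf i hin
    · have h3 : i = n := by omega
      subst h3
      simp only [le_refl, if_true, Nat.not_succ_le_self, if_false]
      exact lt_of_le_of_lt hfn h2.lt

theorem fp_bot [IsAtomistic L] : FP ρ ⊥ := by
  intro e a k _ hk _
  obtain ⟨n, hn⟩ := finite_height hk
  refine ⟨n, fun h => ?_⟩
  obtain ⟨f, hf0, hfn, hf⟩ := len_exists_chain h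
  rw [span_bot_subgroup] at hfn
  exact hn a f hf0 hfn hf

/-- existence of critical intervals of minimal dimension. -/
theorem crit_exists (hex : Ex ρ Γ) (hfp : FP ρ Γ) (hbdd : ∃ h, ∀ e a b, Ge ρ Γ e a b → e ≤ h)
    (hx : Fx ρ Γ x) (hs : Fx ρ Γ s) (hxs : x < s) :
    ∃ d k, IsCompactElement k ∧ k ≤ s ∧ Crit ρ Γ d x (x ⊔ span ρ Γ k) ∧
      ∀ w, Fx ρ Γ w → x < w → w ≤ s → Ge ρ Γ d x w := by
  classical
  obtain ⟨h, hh⟩ := hbdd
  have hP : ∃ d, ∃ w, Fx ρ Γ w ∧ x < w ∧ w ≤ s ∧ ¬ Ge ρ Γ (d + 1) x w :=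
    ⟨h, s, hs, hxs, le_rfl, fun h' => by have := hh _ _ _ h'; omega⟩
  obtain ⟨d, ⟨w0, hw0, hxw0, hw0s, hw0l⟩, hdmin⟩ : ∃ d, (∃ w, Fx ρ Γ w ∧ x < w ∧ w ≤ s ∧
      ¬ Ge ρ Γ (d + 1) x w) ∧ ∀ d' < d, ¬ ∃ w, Fx ρ Γ w ∧ x < w ∧ w ≤ s ∧
        ¬ Ge ρ Γ (d' + 1) x w :=
    ⟨Nat.find hP, Nat.find_spec hP, fun d' hd' => Nat.find_min hP hd'⟩
  have hall : ∀ w, Fx ρ Γ w → x < w → w ≤ s → Ge ρ Γ d x w := by
    intro w hw hxw hws
    rcases d with _ | d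
    · exact ge_zero_iff.2 hxw
    · by_contra hcon
      exact hdmin d (Nat.lt_succ_self d) ⟨w, hw, hxw, hws, hcon⟩
  obtain ⟨k0, hk0, hk0w, hk0x⟩ := exists_compact_not_le (not_le_of_gt hxw0)
  have hw1 : x ⊔ span ρ Γ k0 ≤ w0 := sup_le hxw0.le (span_le hw0 hk0w)
  obtain ⟨n0, hn0⟩ := hfp d x k0 hx hk0 fun h' => hw0l (h'.mono le_rfl hw1)
  have hQ : ∃ n, ∃ k, IsCompactElement k ∧ k ≤ w0 ∧ ¬ k ≤ x ∧
      ¬ LenGe ρ Γ d n x (x ⊔ span ρ Γ k) := ⟨n0, k0, hk0, hk0w, hk0x, hn0⟩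
  obtain ⟨n, ⟨k, hk, hkw, hkx, hkn⟩, hnmin⟩ : ∃ n, (∃ k, IsCompactElement k ∧ k ≤ w0 ∧ ¬ k ≤ x ∧
      ¬ LenGe ρ Γ d n x (x ⊔ span ρ Γ k)) ∧ ∀ n' < n, ¬ ∃ k, IsCompactElement k ∧ k ≤ w0 ∧
        ¬ k ≤ x ∧ ¬ LenGe ρ Γ d n' x (x ⊔ span ρ Γ k) :=
    ⟨Nat.find hQ, Nat.find_spec hQ, fun n' hn' => Nat.find_min hQ hn'⟩
  have hp : x ⊔ span ρ Γ k ≤ w0 := sup_le hxw0.le (span_le hw0 hkw)
  have hxp : x < x ⊔ span ρ Γ k :=
    lt_of_le_of_ne le_sup_left fun h' => hkx ((le_span Γ k).trans (le_sup_right.trans h'.ge))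
  refine ⟨d, k, hk, hkw.trans hw0s, ⟨hx, hx.sup (fx_span Γ k),
    hall _ (hx.sup (fx_span Γ k)) hxp (hp.trans hw0s), fun h' => hw0l (h'.mono le_rfl hp), ?_⟩,
    hall⟩
  intro w hw hxw hwp hge
  obtain ⟨k', hk', hk'w, hk'x⟩ := exists_compact_not_le (not_le_of_gt hxw)
  rcases n with _ | n
  · exact hkn le_sup_left
  · refine hnmin n (Nat.lt_succ_self n) ⟨k', hk', hk'w.trans (hwp.trans hp), hk'x, fun h' => ?_⟩
    exact hkn ⟨w, hw, h'.mono le_rfl (sup_le hxw.le (span_le hw hk'w)), hge⟩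

/-- windows of translates. -/
def lenWin (ρ : G →* (L ≃o L)) (t : G) (a u : L) (i j : ℤ) : L :=
  a ⊔ ⨆ (l : ℤ) (_ : i ≤ l ∧ l ≤ j), ρ (t ^ l) u

omit [IsModularLattice L] [IsCompactlyGenerated L] in
theorem lenWin_mono (t : G) {i j i' j' : ℤ} (hi : i' ≤ i) (hj : j ≤ j') :
    lenWin ρ t a u i j ≤ lenWin ρ t a u i' j' :=
  sup_le_sup_left (iSup₂_le fun l hl =>
    le_iSup₂_of_le (f := fun (l : ℤ) (_ : i' ≤ l ∧ l ≤ j') => ρ (t ^ l) u) l
      ⟨hi.trans hl.1, hl.2.trans hj⟩ le_rfl) a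

omit [IsModularLattice L] [IsCompactlyGenerated L] in
theorem le_lenWin (t : G) {i j l : ℤ} (hi : i ≤ l) (hj : l ≤ j) :
    ρ (t ^ l) u ≤ lenWin ρ t a u i j :=
  le_sup_of_le_right
    (le_iSup₂_of_le (f := fun (l : ℤ) (_ : i ≤ l ∧ l ≤ j) => ρ (t ^ l) u) l ⟨hi, hj⟩ le_rfl)

omit [IsModularLattice L] [IsCompactlyGenerated L] in
theorem lenWin_fx {t : G} (ht : Nz t Γ') (ha : Fx ρ Γ' a) (hu : Fx ρ Γ' u) (i j : ℤ) :
    Fx ρ Γ' (lenWin ρ t a u i j) :=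
  ha.sup (Fx.iSup fun l => Fx.iSup fun _ => hu.conj (ht.zpow l))

omit [IsModularLattice L] [IsCompactlyGenerated L] in
theorem lenWin_act {t : G} (ha : ∀ r : ℤ, ρ (t ^ r) a = a) (r i j : ℤ) :
    ρ (t ^ r) (lenWin ρ t a u i j) = lenWin ρ t a u (r + i) (r + j) := by
  have h1 : ∀ r i j : ℤ, ρ (t ^ r) (lenWin ρ t a u i j) ≤ lenWin ρ t a u (r + i) (r + j) := by
    intro r i j
    unfold lenWin
    rw [map_sup, ha r]
    refine sup_le le_sup_left ?_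
    rw [OrderIso.map_iSup]
    refine iSup_le fun l => ?_
    rw [OrderIso.map_iSup]
    refine iSup_le fun hl => ?_
    rw [← act_mul, ← zpow_add]
    exact le_lenWin t (by omega) (by omega)
  refine le_antisymm (h1 r i j) ?_
  have h2 := (ρ (t ^ r)).monotone (h1 (-r) (r + i) (r + j))
  rw [← act_mul, ← zpow_add, add_neg_cancel, zpow_zero, act_one, neg_add_cancel_left,
    neg_add_cancel_left] at h2
  exact h2

omit [IsModularLattice L] [IsCompactlyGenerated L] in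
theorem lenWin_left (t : G) (i j : ℤ) :
    lenWin ρ t a u i j ≤ ρ (t ^ i) u ⊔ lenWin ρ t a u (i + 1) j := by
  refine sup_le (le_sup_of_le_right le_sup_left) (iSup₂_le fun l hl => ?_)
  by_cases h : l = i
  · rw [h]; exact le_sup_left
  · exact le_sup_of_le_right (le_lenWin t (by omega) hl.2)

/-- window lemma. -/
theorem finLen_of_not_indOn {t : G} (hs : Step Γ' Γ t) (hex : Ex ρ Γ') (ha : Fx ρ Γ a)
    (hu : Crit ρ Γ' e a u) (hi : ¬ IndOn ρ ((Γ : Set G) \ (Γ' : Set G)) a u) :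
    FinLen ρ Γ' e a (span ρ Γ u) := by
  have ht : Nz t Γ' := hs.norm t hs.mem
  have ha' : Fx ρ Γ' a := hu.invx
  have hat : ∀ r : ℤ, ρ (t ^ r) a = a := fun r => ha _ (Γ.zpow_mem hs.mem r)
  have hau : a ≤ u := hu.ge.lt.le
  have hfx := lenWin_fx (ρ := ρ) ht ha' hu.invp
  have haW : ∀ i j : ℤ, a ≤ lenWin ρ t a u i j := fun i j => le_sup_left
  -- a finite window already destroys independence
  obtain ⟨N, hN⟩ : ∃ N : ℕ, ¬ u ⊓ lenWin ρ t a u 1 N ≤ a := by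
    by_contra hcon
    push Not at hcon
    refine hi (indOn_of_pos hs ha hu.invp ?_)
    have hdir : Directed (· ≤ ·) fun N : ℕ => lenWin ρ t a u 1 N :=
      Monotone.directed_le fun m n hmn => lenWin_mono t le_rfl (by exact_mod_cast hmn)
    have h1 : (a ⊔ ⨆ (n : ℤ) (_ : 0 < n), ρ (t ^ n) u) ≤ ⨆ N : ℕ, lenWin ρ t a u 1 N := by
      refine sup_le (le_iSup_of_le 0 (haW _ _)) (iSup₂_le fun n hn => ?_)
      exact le_iSup_of_le n.toNat (le_lenWin t (by omega) (by omega))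
    refine (inf_le_inf_left u h1).trans ?_
    rw [hdir.inf_iSup_eq]
    exact iSup_le hcon
  have hv : ¬ Ge ρ Γ' e (u ⊓ lenWin ρ t a u 1 N) u :=
    hu.quot _ (hu.invp.inf (hfx _ _))
      (lt_of_le_of_ne (le_inf hau (haW _ _)) fun h' => hN h'.ge) inf_le_left
  have hstep : ∀ m : ℕ, ¬ Ge ρ Γ' e (lenWin ρ t a u (-m + 1) N) (lenWin ρ t a u (-m) N) := by
    intro m hge
    have h1 := hge.conj (ht.zpow m)
    rw [lenWin_act hat, lenWin_act hat] at h1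
    refine not_ge_sup hv hu.invp inf_le_left (lenWin ρ t a u 1 (m + N)) (h1.mono ?_ ?_)
    · exact sup_le (inf_le_right.trans (lenWin_mono t (by omega) (by omega)))
        (lenWin_mono t (by omega) le_rfl)
    · refine (lenWin_mono (i' := 0) (j' := m + N) t (by omega) le_rfl).trans ?_
      have := lenWin_left (ρ := ρ) (a := a) (u := u) t 0 (m + N)
      rwa [zpow_zero, act_one, zero_add] at this
  have hsmall : ∀ m : ℕ, ¬ Ge ρ Γ' e (lenWin ρ t a u 1 N) (lenWin ρ t a u (-m + 1) N) := by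
    intro m
    induction m with
    | zero => exact not_ge_of_le (lenWin_mono t (by simp) le_rfl)
    | succ m ih =>
      have h1 := not_ge_trans hex (hfx _ _) (hfx _ _) (hfx _ _) (lenWin_mono t (by omega) le_rfl)
        (lenWin_mono t (by omega) le_rfl) ih (hstep m)
      exact fun h' => h1 (h'.mono le_rfl (lenWin_mono t (by push_cast; omega) le_rfl))
  have hfu : ∀ r : ℤ, ¬ LenGe ρ Γ' e 2 a (ρ (t ^ r) u) := by
    intro r h'
    have h1 := h'.conj (ht.zpow (-r))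
    rw [hat, ← act_mul, ← zpow_add, neg_add_cancel, zpow_zero, act_one] at h1
    obtain ⟨c, hc, ⟨c0, -, h2, h3⟩, h4⟩ := h1
    exact hu.quot c hc (lt_of_le_of_lt h2 h3.lt) h4.lt.le h4
  have hfin : ∀ m : ℕ, FinLen ρ Γ' e a (lenWin ρ t a u (N + 1 - m) N) := by
    intro m
    induction m with
    | zero =>
      refine finLen_of_not_ge (not_ge_of_le (sup_le le_rfl (iSup₂_le fun l hl => ?_)))
      exfalso
      push_cast at hl
      omega
    | succ m ih =>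
      refine FinLen.trans hex (hfx _ _) (hfx _ _) (haW _ _)
        (lenWin_mono t (by push_cast; omega) le_rfl) ih ⟨2, fun h' => ?_⟩
      have h1 := lenWin_left (ρ := ρ) (a := a) (u := u) t (N + 1 - (m + 1 : ℕ)) N
      have h2 := h'.tdown (c := lenWin ρ t a u (N + 1 - (m + 1 : ℕ) + 1) N)
        (hu.invp.conj (ht.zpow (N + 1 - (m + 1 : ℕ))))
        (lenWin_mono t (by push_cast; omega) le_rfl) h1
      refine hfu _ (h2.mono (le_inf ?_ (haW _ _)) inf_le_left)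
      exact (hat _).ge.trans ((ρ _).monotone hau)
  obtain ⟨l, hl⟩ := (hfin N).mono le_rfl (lenWin_mono (i := 1) (j := N) t (by omega) le_rfl)
  have hall : ∀ m : ℕ, ¬ LenGe ρ Γ' e l a (lenWin ρ t a u (-m + 1) N) := by
    intro m h'
    obtain ⟨i, j, hij, h1, h2⟩ := h'.split hex (hfx 1 N) (hfx _ _)
    by_cases hj : j = 0
    · exact hl ((h1.of_le (by omega)).mono (le_inf le_rfl (haW _ _)) inf_le_right)
    · refine hsmall m ((lenGe_one_iff (hfx 1 N)).1 ?_)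
      exact (h2.of_le (by omega)).mono le_sup_right
        (sup_le le_rfl (lenWin_mono t (by omega) le_rfl))
  have hsym : ∀ M : ℕ, ¬ LenGe ρ Γ' e l a (lenWin ρ t a u (-M) M) := by
    intro M h'
    have h1 := h'.conj (ht.zpow (-M))
    rw [hat, lenWin_act hat] at h1
    exact hall (2 * M + 1) (h1.mono le_rfl (lenWin_mono t (by push_cast; omega) (by omega)))
  refine ⟨l, fun h' => ?_⟩
  have h1 : span ρ Γ u ≤ sSup (Set.range fun M : ℕ => lenWin ρ t a u (-M) M) := by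
    rw [hs.toCStep.span_eq hu.invp]
    refine iSup_le fun n => ?_
    exact le_sSup_of_le ⟨n.natAbs, rfl⟩ (le_lenWin t (by omega) (by omega))
  obtain ⟨_, ⟨M, rfl⟩, h2⟩ := (h'.mono le_rfl h1).directed (Set.range_nonempty _)
    (Monotone.directed_le (f := fun M : ℕ => lenWin ρ t a u (-M) M)
      fun m n hmn => lenWin_mono t (by omega) (by omega)).directedOn_range
    (by rintro _ ⟨M, rfl⟩; exact hfx _ _) (by rintro _ ⟨M, rfl⟩; exact haW _ _)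
  exact hsym M h2

theorem free_of_not_finLen {t : G} (hs : Step Γ' Γ t) (hn : Nice ρ Γ') (hN : Noeth ρ Γ)
    (ha : Fx ρ Γ a) (hk : IsCompactElement k) (h : ¬ FinLen ρ Γ' e a (a ⊔ span ρ Γ k)) :
    Ge ρ Γ' (e + 1) a (a ⊔ span ρ Γ k) ∨ Free ρ Γ' Γ e a (a ⊔ span ρ Γ k) := by
  by_contra hcon
  rw [not_or] at hcon
  obtain ⟨hc1, hc2⟩ := hcon
  have hb : Fx ρ Γ (a ⊔ span ρ Γ k) := ha.sup (fx_span Γ k)
  obtain ⟨m, ⟨hm, hmf⟩, hmax⟩ := hN a k ha hk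
    {v | In ρ Γ a (a ⊔ span ρ Γ k) v ∧ ¬ FinLen ρ Γ' e v (a ⊔ span ρ Γ k)}
    ⟨a, ⟨ha, le_rfl, le_sup_left⟩, h⟩ fun v hv => hv.1
  have hmb : m < a ⊔ span ρ Γ k :=
    lt_of_le_of_ne hm.hi fun h' => hmf (finLen_of_not_ge (not_ge_of_le h'.ge))
  obtain ⟨d, k', -, hk'b, hcrit, -⟩ := crit_exists hn.ex hn.fp hn.bdd (hm.inv.mono hs.le)
    (hb.mono hs.le) hmb
  set p := m ⊔ span ρ Γ' k' with hp
  have hpb : p ≤ a ⊔ span ρ Γ k := sup_le hm.hi (span_le (hb.mono hs.le) hk'b)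
  have hde : d ≤ e := by
    by_contra hde
    exact hc1 ((hcrit.ge.of_le (by omega)).mono hm.lo hpb)
  have hmp : m < span ρ Γ p := lt_of_lt_of_le hcrit.ge.lt (le_span Γ p)
  have h1 : FinLen ρ Γ' e (span ρ Γ p) (a ⊔ span ρ Γ k) := by
    by_contra h1
    exact hmp.ne' (hmax _ ⟨⟨fx_span Γ p, hm.lo.trans hmp.le, span_le hb hpb⟩, h1⟩ hmp.le)
  have h2 : FinLen ρ Γ' e m (span ρ Γ p) := by
    rcases hde.lt_or_eq with hlt | rfl
    · refine finLen_of_not_ge fun h' => ?_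
      refine not_ge_span hn.ex hs.norm hm.inv hcrit.invx hcrit.invp (e := e) (fun h'' => ?_)
        (h'.mono le_rfl le_sup_right)
      exact hcrit.lt ((h''.of_le hlt).mono le_rfl (sup_le hcrit.ge.lt.le le_rfl))
    · refine finLen_of_not_indOn hs hn.ex hm.inv hcrit fun hi => ?_
      exact hc2 ⟨m, p, hm.lo, hpb, hm.inv, hcrit.invp, hi, hcrit.ge⟩
  exact hmf (FinLen.trans hn.ex ((fx_span Γ p).mono hs.le) (hb.mono hs.le) hmp.le
    (span_le hb hpb) h2 h1)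

/-- finite length descends along a step. -/
theorem FinLen.down {t : G} (hs : Step Γ' Γ t) (hn : Nice ρ Γ') (hN : Noeth ρ Γ)
    (ha : Fx ρ Γ a) (hb : Fx ρ Γ b) (hab : a ≤ b) (hlt : ¬ Ge ρ Γ (e + 1) a b)
    (h : FinLen ρ Γ e a b) : FinLen ρ Γ' e a b := by
  obtain ⟨n, hl⟩ := h
  induction n generalizing a with
  | zero => exact absurd hab hl
  | succ n ih =>
    by_cases hg : Ge ρ Γ e a b
    · obtain ⟨k, hk, hkb, h1⟩ := hg.cpt ha
      have hc : Fx ρ Γ (a ⊔ span ρ Γ k) := ha.sup (fx_span Γ k)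
      have hcb : a ⊔ span ρ Γ k ≤ b := sup_le hab (span_le hb hkb)
      have h2 : ¬ LenGe ρ Γ e n (a ⊔ span ρ Γ k) b := fun h' =>
        hl ((((lenGe_one_iff ha).2 h1).append h').of_le (by omega))
      have h3 := ih hc hcb (fun h' => hlt (h'.mono le_sup_left le_rfl)) h2
      refine FinLen.trans hn.ex (hc.mono hs.le) (hb.mono hs.le) le_sup_left hcb ?_ h3
      by_contra h4
      rcases free_of_not_finLen hs hn hN ha hk h4 with h5 | h5
      · exact hlt ((Ge.down hs h5).mono le_rfl hcb)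
      · exact hlt ((h5.ge hs).mono le_rfl hcb)
    · exact finLen_of_not_ge fun h' => hg (Ge.down hs h')

end Pool.Agent.Lib.MP_36fb39_al
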