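import Pool.Agent.Lib.MP_36fb39_al.Hyp

set_option autoImplicit false

namespace Pool.Agent.Lib.MP_36fb39_al

variable {G : Type*} [Group G] {L : Type*} [CompleteLattice L] [IsModularLattice L]
  [IsCompactlyGenerated L] [IsAtomistic L] {ρ : G →* (L ≃o L)}

omit [IsCompactlyGenerated L] [IsAtomistic L] [IsModularLattice L] in
theorem Good.res {P : Subgroup G → L → L → Prop} (hP : Tracked ρ P) {Z Z' : Subgroup G}
    (h : Z' ≤ Z) {x s : L} (hg : Good ρ P Z x s) : Good ρ P Z' x s := by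
  obtain ⟨w, h1, h2, h3, h4⟩ := hg
  exact ⟨w, h1.mono h, h2, h3, hP.res _ _ _ _ h h4⟩

omit [IsCompactlyGenerated L] [IsAtomistic L] [IsModularLattice L] in
theorem Good.tup {P : Subgroup G → L → L → Prop} (hP : Tracked ρ P) {Z : Subgroup G}
    {x p x' s' : L} (hg : Good ρ P Z x p) (hx : Fx ρ Z x) (hx' : Fx ρ Z x') (hxx : x ≤ x')
    (hi : x' ⊓ p ≤ x) (hp : p ≤ s') (hs : x' ≤ s') : Good ρ P Z x' s' := by
  obtain ⟨w, h1, h2, h3, h4⟩ := hg
  have hw : x' ⊓ w ≤ x := (inf_le_inf_left _ h3).trans hi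
  refine ⟨x' ⊔ w, hx'.sup h1, ?_, sup_le hs (h3.trans hp), hP.tup _ _ _ _ hx h1 hx' hxx hw h4⟩
  refine lt_of_le_of_ne le_sup_left fun he => ?_
  have : w ≤ x' := he ▸ le_sup_right
  exact absurd ((le_inf this le_rfl).trans hw) h2.not_ge

/-- the case of dimension zero. -/
theorem main_zero {P : Subgroup G → L → L → Prop} (hP : Tracked ρ P) {h : ℕ} {y : G} {k b : L}
    (hk : IsCompactElement k) (hfin : FinH ρ P h y k b)
    {N : Subgroup G} (hN : PZ h N) (hnil : Group.IsNilpotent N)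
    (hy : Nz y N) (hf : ∀ n : ℤ, y ^ n ∈ N → n = 0) {x : L}
    (hc : Crit ρ (N ⊔ Subgroup.zpowers y) 0 x (x ⊔ span ρ N k))
    (hg : Good ρ P N x (x ⊔ span ρ N k)) : b ≤ x := by
  have hst := step_sup_zpowers hy hf
  have hΓ := hN.step_up hst
  have hxN : Fx ρ N x := hc.invx.mono le_sup_left
  have hlt : ¬ Ge ρ N 1 x (x ⊔ span ρ N k) := fun h => hc.lt (Ge.down hst h)
  refine hfin N x hN hnil hy hc.invx hc.lt' ?_ (finite_of_dim_zero hN hxN hk hlt) ?_
  · intro w hw h1 h2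
    by_contra hne
    exact hc.quot w hw h1 h2 (Ge.zero (lt_of_le_of_ne h2 hne))
  · obtain ⟨d', hl⟩ := cl_one hst hN.nice hΓ.nice hc
    have hd : d' = 0 := by
      rcases (hc.homog hΓ.nice.ex).step hst hΓ.nice.via hl.toHomog hc.lt' with h | h <;> omega
    subst hd
    have hgen := hl.gen
    rw [ge_zero_iff] at hgen
    have hle : x ⊔ sSup {p | Crit ρ N 0 x p ∧ p ≤ x ⊔ span ρ N k} ≤ x ⊔ span ρ N k :=
      sup_le le_sup_left (sSup_le fun p hp => hp.2)
    rw [← (hle.eq_or_lt.resolve_right hgen)]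
    refine sup_le_sup_left (sSup_le fun p hp => le_sSup ?_) _
    have hp2 : p ≤ x ⊔ span ρ N k := hp.2
    refine ⟨⟨hp.1.invp, hp.1.lt'.le, ?_⟩, ?_⟩
    · rw [hle.eq_or_lt.resolve_right hgen]
      exact hp2
    · obtain ⟨w, h1, h2, h3, h4⟩ := Good.trans hP hΓ (Chain.single hst) hst.norm hc hg
        hp.1.invp hp.1.lt' hp2
      have : w = p := by
        by_contra hne
        exact hp.1.quot w h1 h2 h3 (Ge.zero (lt_of_le_of_ne h3 hne))
      exact this ▸ h4

theorem main_lat {P : Subgroup G → L → L → Prop} (hP : Tracked ρ P) {h₀ : ℕ} {y : G} {k b : L}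
    (hk : IsCompactElement k) (hyk : ρ y k = k) (hb : b ≤ k) (hfin : FinH ρ P h₀ y k b)
    (h : ℕ) (hh : h ≤ h₀) (N : Subgroup G) (hN : PZ h N) (hnil : Group.IsNilpotent N)
    (hy : Nz y N) (hf : ∀ n : ℤ, y ^ n ∈ N → n = 0) (hneat : Neat y h N) (d : ℕ) (x s : L)
    (hc : Crit ρ (N ⊔ Subgroup.zpowers y) d x s) (hks : k ≤ s) (hg : Good ρ P N x s) :
    b ≤ x := by
  induction h generalizing N d x s with
  | zero =>
    by_cases hkx : k ≤ x
    · exact hb.trans hkx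
    have hst := step_sup_zpowers hy hf
    have hΓ := hN.step_up hst
    have hxN : Fx ρ N x := hc.invx.mono le_sup_left
    have hs0 : Fx ρ (N ⊔ Subgroup.zpowers y) (x ⊔ span ρ N k) :=
      hc.invx.sup (span_sup_zpowers hy hyk ▸ fx_span _ k)
    have hlt : x < x ⊔ span ρ N k := lt_of_le_of_ne le_sup_left fun he =>
      hkx ((le_span N k).trans (he ▸ le_sup_right))
    have hle : x ⊔ span ρ N k ≤ s :=
      sup_le hc.lt'.le (span_le (hc.invp.mono le_sup_left) hks)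
    have hc0 := hc.sub hΓ.nice.ex hs0 hlt hle
    have hg0 := Good.trans hP hΓ (Chain.single hst) hst.norm hc hg (hs0.mono le_sup_left) hlt hle
    have hd := hc0.ge.of_fg hst hN.nice hΓ.nice.via hc.invx hk hs0
    have : d = 0 := Nat.le_zero.1 (Ge.bound hN hd)
    subst this
    exact main_zero hP hk hfin (hN.mono hh) hnil hy hf hc0 hg0
  | succ h ih =>
    by_cases hkx : k ≤ x
    · exact hb.trans hkx
    have hst := step_sup_zpowers hy hf
    have hΓ := hN.step_up hst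
    have hxN : Fx ρ N x := hc.invx.mono le_sup_left
    have hs0 : Fx ρ (N ⊔ Subgroup.zpowers y) (x ⊔ span ρ N k) :=
      hc.invx.sup (span_sup_zpowers hy hyk ▸ fx_span _ k)
    have hlt : x < x ⊔ span ρ N k := lt_of_le_of_ne le_sup_left fun he =>
      hkx ((le_span N k).trans (he ▸ le_sup_right))
    have hle : x ⊔ span ρ N k ≤ s :=
      sup_le hc.lt'.le (span_le (hc.invp.mono le_sup_left) hks)
    have hc0 := hc.sub hΓ.nice.ex hs0 hlt hle
    have hg0 := Good.trans hP hΓ (Chain.single hst) hst.norm hc hg (hs0.mono le_sup_left) hlt hle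
    have hkk : k ≤ x ⊔ span ρ N k := (le_span N k).trans le_sup_right
    cases d with
    | zero => exact main_zero hP hk hfin (hN.mono hh) hnil hy hf hc0 hg0
    | succ d =>
      by_cases hno : ∀ φ : G → ℤ, IsHomOn N φ → (∀ a ∈ N, φ (y * a * y⁻¹) = φ a) →
        ∀ a ∈ N, φ a = 0
      · obtain ⟨K, d', hK, hne, hyK, hcK⟩ :=
          induced_of_hyperbolic hN hnil hy hf hneat hno hk hyk hc0
        obtain ⟨m, hch⟩ := hK.chain hN.pc.fg
        have hKx : Fx ρ K (x ⊔ span ρ K k) := hcK.invp.mono le_sup_left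
        refine ih (by omega) K (hN.sat_lt hK hne) (isNilpotent_of_le hnil hK.le) hyK
          (fun n hn => hf n (hK.le hn))
          ((hneat.2 K hK 1 one_pos (by rwa [pow_one])).2 hne) d' x _ hcK
          ((le_span K k).trans le_sup_right) ?_
        exact Good.trans hP hΓ (hch.trans (Chain.single hst)) (nz_sup_zpowers hK.nz hyK) hc0
          (hg0.res hP hK.le) hKx hcK.lt' (sup_le_sup_left (span_mono hK.le le_rfl) _)
      · push Not at hno
        obtain ⟨φ, hφ, hinv, hne⟩ := hno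
        obtain ⟨N', hN'⟩ := hφ.exists_ker
        obtain ⟨t, ht⟩ := step_of_hom hφ hne hN'
        have hsat : Sat N' N := hφ.sat (fun n v hn hv => by
          rcases smul_eq_zero.1 hv with h | h
          · omega
          · exact h) hN'
        have hyN' : Nz y N' := fun a => by
          rw [hN', hN']
          constructor
          · rintro ⟨h1, h2⟩
            exact ⟨(hy a).1 h1, by rw [hinv a h1, h2]⟩
          · rintro ⟨h1, h2⟩
            have h3 := (hy a).2 h1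
            exact ⟨h3, by rw [← hinv a h3, h2]⟩
        have hcm : y * t * y⁻¹ * t⁻¹ ∈ N' := by
          have h1 := (hy t).1 ht.mem
          rw [hN']
          refine ⟨N.mul_mem h1 (N.inv_mem ht.mem), ?_⟩
          rw [hφ _ h1 _ (N.inv_mem ht.mem), hφ.inv ht.mem, hinv t ht.mem, add_neg_cancel]
        have hst' := step_semidirect ht hy hyN' hcm hf
        have hΓ' : PZ (h + 1 + 1) (N' ⊔ Subgroup.zpowers y) := hΓ.sub hst'.le
        obtain ⟨d', hl⟩ := cl_one hst' hΓ'.nice hΓ.nice hc0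
        obtain ⟨n, xs, ps, s', hs', hks', hi, hfinal⟩ := proj hΓ'.nice hl.toHomog _
          (fun p hp => hp) hl.gen hk hkk
        refine hfinal b (hb.trans hks') fun i => ?_
        obtain ⟨h1, h2, h3, h4, h5⟩ := hi i
        refine ih (by omega) N' (hN.step_down ht) (isNilpotent_of_le hnil ht.le) hyN'
          (fun n hn => hf n (ht.le hn))
          ((hneat.2 N' hsat 1 one_pos (by rwa [pow_one])).2 ht.lt.ne) d' (xs i) s' h4 hks' ?_
        have hgp : Good ρ P N' x (ps i) :=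
          Good.trans hP hΓ ((Chain.single ht).trans (Chain.single hst))
            (nz_sup_zpowers hsat.nz hyN') hc0 (hg0.res hP ht.le) (h1.1.invp.mono le_sup_left)
            h1.1.lt' h1.2
        exact hgp.tup hP (hxN.mono ht.le) (h4.invx.mono le_sup_left) h3 h5 h2 h4.lt'.le

theorem top_lat [Nontrivial L] {h : ℕ} {N : Subgroup G} {y : G} (hN : PZ h N)
    (hnil : Group.IsNilpotent N) (hnorm : ∀ g, Nz g N) (hy : ∀ g, g * y * g⁻¹ * y⁻¹ ∈ N)
    (hf : ∀ n : ℤ, y ^ n ∈ N → n = 0) (hneat : Neat y h N) :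
    ∃ k₁ : L, IsCompactElement k₁ ∧ k₁ ≠ ⊥ ∧ ∀ P : Subgroup G → L → L → Prop, Tracked ρ P →
      P N ⊥ (span ρ N k₁) → ∀ k b : L, IsCompactElement k → ρ y k = k → b ≤ k →
        FinH ρ P h y k b → k ≤ span ρ ⊤ k₁ → b = ⊥ := by
  have hst := step_sup_zpowers (hnorm y) hf
  have hΓ := hN.step_up hst
  set Γ := N ⊔ Subgroup.zpowers y with hΓdef
  have hyΓ : y ∈ Γ := hst.mem
  have hconj : ∀ g : G, ∀ a ∈ Γ, g * a * g⁻¹ ∈ Γ := by
    intro g a ha
    obtain ⟨n, c, hc, rfl⟩ := (mem_sup_zpowers (hnorm y) a).1 ha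
    have h1 : g * y * g⁻¹ ∈ Γ := by
      have := Γ.mul_mem (hst.le (hy g)) hyΓ
      rwa [inv_mul_cancel_right] at this
    have h2 : g * (y ^ n * c) * g⁻¹ = (g * y * g⁻¹) ^ n * (g * c * g⁻¹) := by
      rw [conj_zpow]
      group
    rw [h2]
    exact Γ.mul_mem (Γ.zpow_mem h1 n) (hst.le ((hnorm g c).1 hc))
  have hΓn : ∀ g, Nz g Γ := fun g => Nz.of_forall (hconj g) fun a ha => by
    simpa using hconj g⁻¹ a ha
  have hn : Nice ρ Γ := hΓ.nice
  obtain ⟨D, k₁, hk₁, -, hU, hmin⟩ :=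
    crit_exists hn.ex hn.fp hn.bdd (Fx.bot (ρ := ρ) (Γ := Γ)) Fx.top bot_lt_top
  rw [bot_sup_eq] at hU
  refine ⟨k₁, hk₁, ?_, ?_⟩
  · rintro rfl
    have := hU.lt'
    rw [span, tr_bot] at this
    exact lt_irrefl _ this
  intro P hP hP1 k b hk hyk hb hfin hkc
  set U := span ρ Γ k₁ with hUdef
  have hcU : span ρ ⊤ U = span ρ ⊤ k₁ := span_span le_top k₁
  have hbot : ∀ g : G, ρ g (⊥ : L) = ⊥ := fun g => (ρ g).map_bot
  have hF : ∀ p ∈ Set.range fun g : G => ρ g U, Crit ρ Γ D ⊥ p ∧ p ≤ span ρ ⊤ U := by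
    rintro p ⟨g, rfl⟩
    exact ⟨by simpa [hbot] using hU.conj (hΓn g), le_tr (Subgroup.mem_top g) U⟩
  have hh : Homog ρ Γ D ⊥ (span ρ ⊤ U) := by
    refine ⟨Fx.bot, (fx_span ⊤ U).mono le_top, bot_le, fun w hw h1 _ => hmin w hw h1 le_top, ?_⟩
    have := not_ge_span (Γ := ⊤) (e := D + 1) hn.ex (fun g _ => hΓn g) Fx.bot Fx.bot hU.invp
      (by rw [bot_sup_eq]; exact hU.lt)
    rwa [bot_sup_eq] at this
  have hgen : ¬ Ge ρ Γ D (⊥ ⊔ sSup (Set.range fun g : G => ρ g U)) (span ρ ⊤ U) := by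
    refine not_ge_of_le (tr_le_iff.2 fun g _ => ?_)
    exact le_sup_of_le_right (le_sSup ⟨g, rfl⟩)
  obtain ⟨n, xs, ps, s', hs', hks', hi, hfinal⟩ := proj hn hh _ hF hgen hk (hcU ▸ hkc)
  refine le_bot_iff.1 (hfinal b (hb.trans hks') fun i => ?_)
  obtain ⟨⟨g, hg⟩, h2, h3, h4, h5⟩ := hi i
  refine main_lat hP hk hyk hb hfin h le_rfl N hN hnil (hnorm y) hf hneat D (xs i) s' h4 hks' ?_
  have hgp : Good ρ P N ⊥ (ps i) := by
    refine ⟨ρ g (span ρ N k₁), (fx_span N k₁).conj (hnorm g), ?_, ?_, ?_⟩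
    · rw [← hbot g, (ρ g).lt_iff_lt]
      refine lt_of_le_of_ne bot_le fun he => ?_
      have h0 : k₁ = ⊥ := le_bot_iff.1 (he ▸ le_span N k₁)
      have := hU.lt'
      rw [hUdef, h0, span, tr_bot] at this
      exact lt_irrefl _ this
    · rw [← hg]
      exact (ρ g).monotone (span_mono le_sup_left le_rfl)
    · simpa [hbot] using hP.conj N ⊥ _ g (hnorm g) hP1
  exact hgp.tup hP Fx.bot (h4.invx.mono le_sup_left) h3 h5 h2 h4.lt'.le

end Pool.Agent.Lib.MP_36fb39_al
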