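import Pool.Agent.Lib.MP_36fb39_al.Poly1

set_option autoImplicit false

namespace Pool.Agent.Lib.MP_36fb39_al

variable {G : Type*} [Group G]

theorem poly_cstep_refl (Γ : Subgroup G) : CStep Γ Γ 1 where
  le := le_rfl
  mem := Γ.one_mem
  norm := fun _ hg => Nz.of_mem hg
  gen := fun g hg => ⟨0, g, hg, by simp⟩

theorem poly_normal {Γ' Γ : Subgroup G} (hn : ∀ g ∈ Γ, Nz g Γ') :
    (Γ'.subgroupOf Γ).Normal := by
  refine ⟨fun a ha g => ?_⟩
  rw [Subgroup.mem_subgroupOf] at ha ⊢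
  simpa using (hn g g.2 a).1 ha

theorem poly_quot_gen {Γ' Γ : Subgroup G} {t : G} (h : CStep Γ' Γ t)
    [(Γ'.subgroupOf Γ).Normal] (q : Γ ⧸ Γ'.subgroupOf Γ) :
    q ∈ Subgroup.zpowers (QuotientGroup.mk' (Γ'.subgroupOf Γ) ⟨t, h.mem⟩) := by
  obtain ⟨g, rfl⟩ := QuotientGroup.mk'_surjective (Γ'.subgroupOf Γ) q
  obtain ⟨n, a, ha, hg⟩ := h.gen g g.2
  refine ⟨n, ?_⟩
  have e : g = (⟨t, h.mem⟩ : Γ) ^ n * ⟨a, h.le ha⟩ := Subtype.ext (by simpa using hg)
  have e2 : QuotientGroup.mk' (Γ'.subgroupOf Γ) ⟨a, h.le ha⟩ = 1 := by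
    rw [← MonoidHom.mem_ker, QuotientGroup.ker_mk', Subgroup.mem_subgroupOf]
    exact ha
  change (QuotientGroup.mk' (Γ'.subgroupOf Γ) ⟨t, h.mem⟩) ^ n = _
  rw [e, map_mul, map_zpow, e2, mul_one]

theorem poly_cstep_inf {Γ' Γ H : Subgroup G} {t : G} (h : CStep Γ' Γ t) (hH : H ≤ Γ) :
    ∃ s, CStep (Γ' ⊓ H) H s := by
  have := poly_normal h.norm
  have : IsCyclic (Γ ⧸ Γ'.subgroupOf Γ) := ⟨⟨_, poly_quot_gen h⟩⟩
  obtain ⟨x, hx⟩ := IsCyclic.exists_generator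
    (α := (H.subgroupOf Γ).map (QuotientGroup.mk' (Γ'.subgroupOf Γ)))
  obtain ⟨x, s, hs, rfl⟩ := x
  have hsH : (s : G) ∈ H := Subgroup.mem_subgroupOf.1 hs
  refine ⟨s, inf_le_right, hsH, fun g hg => (h.norm g (hH hg)).inf (Nz.of_mem hg), fun g hg => ?_⟩
  obtain ⟨n, hn⟩ := hx ⟨QuotientGroup.mk' (Γ'.subgroupOf Γ) ⟨g, hH hg⟩,
    Subgroup.mem_map_of_mem _ (Subgroup.mem_subgroupOf.2 hg)⟩
  have hn' : (QuotientGroup.mk' (Γ'.subgroupOf Γ) s) ^ n =
      QuotientGroup.mk' (Γ'.subgroupOf Γ) ⟨g, hH hg⟩ := by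
    have := congrArg Subtype.val hn
    simpa using this
  have hk : (s ^ n)⁻¹ * ⟨g, hH hg⟩ ∈ (QuotientGroup.mk' (Γ'.subgroupOf Γ)).ker := by
    rw [MonoidHom.mem_ker, map_mul, map_inv, map_zpow, hn', inv_mul_cancel]
  rw [QuotientGroup.ker_mk', Subgroup.mem_subgroupOf] at hk
  refine ⟨n, ((s : G) ^ n)⁻¹ * g, ⟨by simpa using hk, ?_⟩, by simp⟩
  exact H.mul_mem (H.inv_mem (H.zpow_mem hsH n)) hg

theorem poly_cstep_map {G' : Type*} [Group G'] (f : G →* G') {Γ' Γ : Subgroup G} {t : G}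
    (h : CStep Γ' Γ t) : CStep (Γ'.map f) (Γ.map f) (f t) where
  le := Subgroup.map_mono h.le
  mem := Subgroup.mem_map_of_mem f h.mem
  norm := by
    rintro _ ⟨g, hg, rfl⟩
    refine Nz.of_forall ?_ ?_
    · rintro _ ⟨a, ha, rfl⟩
      exact ⟨g * a * g⁻¹, (h.norm g hg a).1 ha, by simp⟩
    · rintro _ ⟨a, ha, rfl⟩
      refine ⟨g⁻¹ * a * g, ?_, by simp⟩
      have := (h.norm g⁻¹ (Γ.inv_mem hg) a).1 ha
      simpa using this
  gen := by
    rintro _ ⟨g, hg, rfl⟩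
    obtain ⟨n, a, ha, rfl⟩ := h.gen g hg
    exact ⟨n, f a, Subgroup.mem_map_of_mem f ha, by simp⟩

theorem poly_cstep_eq {Γ' Γ : Subgroup G} {t : G} (h : CStep Γ' Γ t) :
    Γ = Γ' ⊔ Subgroup.zpowers t := by
  refine le_antisymm (fun g hg => ?_) (sup_le h.le ((Subgroup.zpowers_le).2 h.mem))
  obtain ⟨n, a, ha, rfl⟩ := h.gen g hg
  exact Subgroup.mul_mem _ (Subgroup.mem_sup_right (Subgroup.zpow_mem_zpowers t n))
    (Subgroup.mem_sup_left ha)

theorem PC.succ {l : ℕ} {Γ : Subgroup G} (h : PC l Γ) : PC (l + 1) Γ :=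
  PC.step h (poly_cstep_refl Γ)

theorem PC.mono {l l' : ℕ} {Γ : Subgroup G} (h : PC l Γ) (hl : l ≤ l') : PC l' Γ := by
  induction hl with
  | refl => exact h
  | step _ ih => exact ih.succ

theorem PC.sub {l : ℕ} {Γ H : Subgroup G} (h : PC l Γ) (hH : H ≤ Γ) : PC l H := by
  induction h generalizing H with
  | bot =>
    rw [le_bot_iff.1 hH]
    exact PC.bot
  | step _ hs ih =>
    obtain ⟨s, hs'⟩ := poly_cstep_inf hs hH
    exact PC.step (ih inf_le_left) hs'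

theorem PC.map {G' : Type*} [Group G'] (f : G →* G') {l : ℕ} {Γ : Subgroup G} (h : PC l Γ) :
    PC l (Γ.map f) := by
  induction h with
  | bot =>
    rw [Subgroup.map_bot]
    exact PC.bot
  | step _ hs ih => exact PC.step ih (poly_cstep_map f hs)

theorem PC.comap {G' : Type*} [Group G'] (f : G' →* G) (hf : Function.Injective f) {l : ℕ}
    {Γ : Subgroup G} (h : PC l Γ) : PC l (Γ.comap f) := by
  induction h with
  | bot =>
    rw [MonoidHom.comap_bot, (f.ker_eq_bot_iff).2 hf]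
    exact PC.bot
  | @step l Γ' Γ t _ hs ih =>
    obtain ⟨s, hs'⟩ := poly_cstep_inf hs (H := Γ ⊓ f.range) inf_le_left
    obtain ⟨hs1, s', rfl⟩ := hs'.mem
    refine PC.step ih (t := s') ⟨Subgroup.comap_mono hs.le, hs1, fun g hg a => ?_, fun g hg => ?_⟩
    · rw [Subgroup.mem_comap, Subgroup.mem_comap, map_mul, map_mul, map_inv]
      exact hs.norm (f g) hg (f a)
    · obtain ⟨n, a, ha, e⟩ := hs'.gen (f g) ⟨hg, g, rfl⟩
      refine ⟨n, (s' ^ n)⁻¹ * g, ?_, by simp⟩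
      rw [Subgroup.mem_comap, map_mul, map_inv, map_zpow, e, inv_mul_cancel_left]
      exact ha.1

theorem PC.top {l : ℕ} {Γ : Subgroup G} (h : PC l Γ) : PC l (⊤ : Subgroup Γ) := by
  have := h.comap Γ.subtype Γ.subtype_injective
  rwa [Subgroup.comap_subtype, Subgroup.subgroupOf_self] at this

theorem PC.prod_int {l : ℕ} (h : PC l (⊤ : Subgroup G)) :
    PC (l + 1) (⊤ : Subgroup (G × Multiplicative ℤ)) := by
  have hm : ∀ a : G × Multiplicative ℤ,
      a ∈ (⊤ : Subgroup G).map (MonoidHom.inl G (Multiplicative ℤ)) ↔ a.2 = 1 := by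
    intro a
    constructor
    · rintro ⟨b, _, rfl⟩
      rfl
    · intro ha
      exact ⟨a.1, Subgroup.mem_top _, Prod.ext rfl ha.symm⟩
  refine PC.step (h.map (MonoidHom.inl G (Multiplicative ℤ)))
    (t := (1, Multiplicative.ofAdd 1)) ⟨le_top, Subgroup.mem_top _, fun g _ a => ?_, fun g _ => ?_⟩
  · rw [hm, hm]
    simp
  · refine ⟨g.2.toAdd, (g.1, 1), (hm _).2 rfl, Prod.ext (by simp) ?_⟩
    simp [← ofAdd_zsmul]

theorem PC.fg {l : ℕ} {Γ : Subgroup G} (h : PC l Γ) : Γ.FG := by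
  induction h with
  | bot => exact ⟨∅, by simp⟩
  | @step l Γ' Γ t _ hs ih =>
    rw [poly_cstep_eq hs]
    exact ih.sup ⟨{t}, by simp [Subgroup.zpowers_eq_closure]⟩

theorem PC.acc {l : ℕ} {Γ : Subgroup G} (h : PC l Γ) (S : Set (Subgroup G)) (hS : S.Nonempty)
    (hle : ∀ H ∈ S, H ≤ Γ) : ∃ m ∈ S, ∀ H ∈ S, m ≤ H → H = m := by
  obtain ⟨x, hx⟩ := hS
  obtain ⟨m, _, hm⟩ := zorn_le_nonempty₀ S (fun c hc hch y hy => by
    have hfg : (sSup c).FG := (h.sub (sSup_le fun H hH => hle H (hc hH))).fg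
    obtain ⟨T, hT⟩ := hfg
    have key : ∀ T : Finset G, (∀ g ∈ T, g ∈ sSup c) → ∃ u ∈ c, ∀ g ∈ T, g ∈ u := by
      classical
      intro T
      induction T using Finset.induction_on with
      | empty => exact fun _ => ⟨y, hy, by simp⟩
      | insert a T _ ih =>
        intro hT
        obtain ⟨u, hu, hu'⟩ := ih fun g hg => hT g (Finset.mem_insert_of_mem hg)
        obtain ⟨v, hv, hv'⟩ := (Subgroup.mem_sSup_of_directedOn ⟨y, hy⟩ hch.directedOn).1
          (hT a (Finset.mem_insert_self _ _))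
        obtain ⟨w, hw, h1, h2⟩ := hch.directedOn u hu v hv
        refine ⟨w, hw, fun g hg => ?_⟩
        rcases Finset.mem_insert.1 hg with rfl | hg
        · exact h2 hv'
        · exact h1 (hu' g hg)
    obtain ⟨u, hu, hu'⟩ := key T fun g hg => hT ▸ Subgroup.subset_closure hg
    refine ⟨u, hc hu, fun z hz => (le_sSup hz).trans ?_⟩
    rw [← hT, Subgroup.closure_le]
    exact fun g hg => hu' g hg) x hx
  exact ⟨m, hm.1, fun H hH hmH => le_antisymm (hm.2 hH hmH) hmH⟩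

theorem PC.isSolvable {l : ℕ} {Γ : Subgroup G} (h : PC l Γ) : Group.IsSolvable Γ := by
  induction h with
  | bot => infer_instance
  | @step l Γ' Γ t _ hs ih =>
    have := poly_normal hs.norm
    have : IsCyclic (Γ ⧸ Γ'.subgroupOf Γ) := ⟨⟨_, poly_quot_gen hs⟩⟩
    have : Group.IsSolvable (Γ ⧸ Γ'.subgroupOf Γ) :=
      Group.isSolvable_of_comm fun a b => by
        obtain ⟨n, rfl⟩ := poly_quot_gen hs a
        obtain ⟨m, rfl⟩ := poly_quot_gen hs b
        exact zpow_mul_comm _ _ _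
    refine Group.isSolvable_of_ker_le_range (Subgroup.inclusion hs.le)
      (QuotientGroup.mk' (Γ'.subgroupOf Γ)) ?_
    rw [QuotientGroup.ker_mk', Subgroup.inclusion_range]

theorem poly_pc_of_comm {K' K : Subgroup G} {l : ℕ} (h : PC l K') (hle : K' ≤ K)
    (hc : ⁅K, K⁆ ≤ K') (hK : K.FG) : ∃ l', PC l' K := by
  classical
  obtain ⟨T, hT⟩ := hK
  have key : ∀ S : Finset G, (∀ g ∈ S, g ∈ K) → ∃ l', PC l' (K' ⊔ Subgroup.closure (S : Set G)) := by
    intro S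
    induction S using Finset.induction_on with
    | empty => exact fun _ => ⟨l, by simpa using h⟩
    | insert a S _ ih =>
      intro hS
      obtain ⟨l', hl'⟩ := ih fun g hg => hS g (Finset.mem_insert_of_mem hg)
      have ha : a ∈ K := hS a (Finset.mem_insert_self _ _)
      have hM : K' ⊔ Subgroup.closure (S : Set G) ≤ K :=
        sup_le hle ((Subgroup.closure_le _).2 fun g hg => hS g (Finset.mem_insert_of_mem hg))
      have hn : ∀ b ∈ K, ∀ x ∈ K' ⊔ Subgroup.closure (S : Set G),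
          b * x * b⁻¹ ∈ K' ⊔ Subgroup.closure (S : Set G) := by
        intro b hb x hx
        have e : b * x * b⁻¹ = (b * x * b⁻¹ * x⁻¹) * x := by simp
        have h1 := hc (Subgroup.commutator_mem_commutator hb (hM hx))
        rw [commutatorElement_def] at h1
        rw [e]
        exact Subgroup.mul_mem _ (Subgroup.mem_sup_left h1) hx
      have hz : Nz a (K' ⊔ Subgroup.closure (S : Set G)) :=
        Nz.of_forall (hn a ha) fun x hx => by simpa using hn a⁻¹ (K.inv_mem ha) x hx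
      refine ⟨l' + 1, ?_⟩
      have e : K' ⊔ Subgroup.closure ((insert a S : Finset G) : Set G) =
          (K' ⊔ Subgroup.closure (S : Set G)) ⊔ Subgroup.zpowers a := by
        rw [Finset.coe_insert, Set.insert_eq, Subgroup.closure_union, Subgroup.zpowers_eq_closure,
          sup_assoc, sup_comm (Subgroup.closure {a})]
      rw [e]
      exact PC.step hl' (cstep_sup_zpowers hz)
  obtain ⟨l', hl'⟩ := key T fun g hg => hT ▸ Subgroup.subset_closure hg
  rw [hT, sup_eq_right.2 hle] at hl'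
  exact ⟨l', hl'⟩

theorem pc_of_solvable [Group.IsSolvable G] (h : ∀ K : Subgroup G, K.FG) :
    ∃ l, PC l (⊤ : Subgroup G) := by
  obtain ⟨n, hn⟩ := (inferInstance : Group.IsSolvable G)
  have key : ∀ k, (∃ l, PC l (derivedSeries G k)) → ∃ l, PC l (⊤ : Subgroup G) := by
    intro k
    induction k with
    | zero => exact fun hk => hk
    | succ k ih =>
      rintro ⟨l, hl⟩
      refine ih (poly_pc_of_comm hl ?_ (derivedSeries_succ G k).ge (h _))
      rw [derivedSeries_succ]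
      exact Subgroup.commutator_le_left _ _
  exact key n ⟨0, hn ▸ PC.bot⟩

theorem poly_zpow_mod {t : G} {K : Subgroup G} {m : ℕ} (hm : 0 < m) (ht : t ^ m ∈ K) (n : ℤ) :
    ∃ i : Fin m, ∃ c ∈ K, t ^ n = t ^ (i : ℕ) * c := by
  have h0 : (0 : ℤ) < m := by exact_mod_cast hm
  have h1 := Int.emod_nonneg n h0.ne'
  have h2 := Int.emod_lt_of_pos n h0
  refine ⟨⟨(n % m).toNat, by omega⟩, (t ^ m) ^ (n / m), K.zpow_mem ht _, ?_⟩
  rw [← zpow_natCast, ← zpow_natCast, ← zpow_mul, ← zpow_add]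
  congr 1
  have := Int.emod_add_mul_ediv n m
  simp only [Int.toNat_of_nonneg h1]
  omega

theorem PC.finite_of_exponent {l m : ℕ} {Γ : Subgroup G} (h : PC l Γ) (hm : 0 < m)
    (he : ∀ g ∈ Γ, g ^ m = 1) : Finite Γ ∧ Nat.card Γ ≤ m ^ l := by
  induction h with
  | bot => exact ⟨inferInstance, by simp⟩
  | @step l Γ' Γ t _ hs ih =>
    obtain ⟨hf, hc⟩ := ih fun g hg => he g (hs.le hg)
    let F : Fin m × Γ' → Γ := fun p =>
      ⟨t ^ (p.1 : ℕ) * p.2, Γ.mul_mem (Γ.pow_mem hs.mem _) (hs.le p.2.2)⟩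
    have hF : Function.Surjective F := by
      intro g
      obtain ⟨n, a, ha, e⟩ := hs.gen g g.2
      obtain ⟨i, c, hc, e'⟩ := poly_zpow_mod (K := Γ') hm
        (by rw [he t hs.mem]; exact Γ'.one_mem) n
      refine ⟨(i, ⟨c * a, Γ'.mul_mem hc ha⟩), Subtype.ext ?_⟩
      change t ^ (i : ℕ) * (c * a) = g
      rw [e, e', mul_assoc]
    refine ⟨Finite.of_surjective F hF, (Nat.card_le_card_of_surjective F hF).trans ?_⟩
    rw [Nat.card_prod, Nat.card_eq_fintype_card, Fintype.card_fin, pow_succ']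
    exact Nat.mul_le_mul_left _ hc

theorem poly_relIndex_of_fun {H Γ : Subgroup G} {ι : Type*} [Finite ι] (x : ι → G)
    (hx : ∀ i, x i ∈ Γ) (hc : ∀ g ∈ Γ, ∃ i, (x i)⁻¹ * g ∈ H) : H.relIndex Γ ≠ 0 := by
  have : Finite (Γ ⧸ H.subgroupOf Γ) := by
    refine Finite.of_surjective (fun i => (QuotientGroup.mk (⟨x i, hx i⟩ : Γ) :
      Γ ⧸ H.subgroupOf Γ)) fun q => ?_
    obtain ⟨g, rfl⟩ := QuotientGroup.mk_surjective q
    obtain ⟨i, hi⟩ := hc g g.2
    refine ⟨i, QuotientGroup.eq.2 ?_⟩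
    rw [Subgroup.mem_subgroupOf]
    simpa using hi
  exact Subgroup.index_ne_zero_of_finite

theorem poly_relIndex_of_cover {H K Γ' Γ : Subgroup G} (hK : K.relIndex Γ' ≠ 0) (hle : Γ' ≤ Γ)
    (hKH : K ≤ H) (hc : ∀ g ∈ Γ, ∃ a ∈ Γ', a⁻¹ * g ∈ H) : H.relIndex Γ ≠ 0 := by
  have : Finite (Γ' ⧸ K.subgroupOf Γ') := Nat.finite_of_card_ne_zero hK
  refine poly_relIndex_of_fun (ι := Γ' ⧸ K.subgroupOf Γ') (fun q => (q.out : G))
    (fun q => hle q.out.2) fun g hg => ?_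
  obtain ⟨a, ha, h⟩ := hc g hg
  refine ⟨QuotientGroup.mk (⟨a, ha⟩ : Γ'), ?_⟩
  have h1 : (QuotientGroup.mk (⟨a, ha⟩ : Γ') : Γ' ⧸ K.subgroupOf Γ').out⁻¹ * ⟨a, ha⟩ ∈
      K.subgroupOf Γ' := QuotientGroup.eq.1 (QuotientGroup.out_eq' _)
  rw [Subgroup.mem_subgroupOf] at h1
  have := H.mul_mem (hKH h1) h
  simpa [mul_assoc] using this

/-- a finite index subgroup of a polycyclic group contains a finite index subgroup that is
normalized by everything that normalizes the big group. -/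
theorem PC.exists_char_le {l : ℕ} {Γ Γ₀ : Subgroup G} (h : PC l Γ) (hle : Γ₀ ≤ Γ)
    (hi : Γ₀.relIndex Γ ≠ 0) :
    ∃ Γ₁ ≤ Γ₀, Γ₁.relIndex Γ ≠ 0 ∧ ∀ g, Nz g Γ → Nz g Γ₁ := by
  set N := (Γ₀.relIndex Γ).factorial with hN
  have hNpos : 0 < N := Nat.factorial_pos _
  set Γ₁ : Subgroup G := Subgroup.closure {x | ∃ g ∈ Γ, x = g ^ N} with hΓ₁
  have hconj : ∀ g, Nz g Γ → ∀ a ∈ Γ₁, g * a * g⁻¹ ∈ Γ₁ := by
    intro g hg a ha
    induction ha using Subgroup.closure_induction with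
    | mem x hx =>
      obtain ⟨b, hb, rfl⟩ := hx
      exact Subgroup.subset_closure ⟨g * b * g⁻¹, (hg b).1 hb, by simp⟩
    | one => simp
    | mul x y _ _ hx hy => simpa [mul_assoc] using Γ₁.mul_mem hx hy
    | inv x _ hx => simpa [mul_assoc] using Γ₁.inv_mem hx
  have hnz : ∀ g, Nz g Γ → Nz g Γ₁ := fun g hg =>
    Nz.of_forall (hconj g hg) fun a ha => by simpa using hconj g⁻¹ hg.inv a ha
  refine ⟨Γ₁, ?_, ?_, hnz⟩
  · rw [hΓ₁, Subgroup.closure_le]
    rintro _ ⟨g, hg, rfl⟩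
    exact (Subgroup.pow_mem_of_relIndex_ne_zero_of_dvd hi hg
      fun m hm hm' => Nat.dvd_factorial hm hm').1
  · have := poly_normal (Γ' := Γ₁) (Γ := Γ) fun g hg => hnz g (Nz.of_mem hg)
    have h1 := h.top.map (QuotientGroup.mk' (Γ₁.subgroupOf Γ))
    rw [Subgroup.map_top_of_surjective _ (QuotientGroup.mk'_surjective _)] at h1
    have h2 := (h1.finite_of_exponent hNpos fun q _ => by
      obtain ⟨g, rfl⟩ := QuotientGroup.mk'_surjective (Γ₁.subgroupOf Γ) q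
      rw [← map_pow, ← MonoidHom.mem_ker, QuotientGroup.ker_mk', Subgroup.mem_subgroupOf]
      exact Subgroup.subset_closure ⟨g, g.2, by simp⟩).1
    have : Finite (Γ ⧸ Γ₁.subgroupOf Γ) := Finite.of_equiv _ Subgroup.topEquiv.toEquiv
    exact Subgroup.index_ne_zero_of_finite

theorem PC.virtually_pz {l : ℕ} {Γ : Subgroup G} (h : PC l Γ) :
    ∃ Γ₀ ≤ Γ, Γ₀.relIndex Γ ≠ 0 ∧ PZ l Γ₀ := by
  induction h with
  | bot => exact ⟨⊥, le_rfl, by simp, pz_zero_iff.2 rfl⟩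
  | @step l Γ' Γ t hΓ' hs ih =>
    obtain ⟨Γ₀, h0, hi, hpz⟩ := ih
    by_cases hf : ∀ n : ℤ, t ^ n ∈ Γ' → n = 0
    · obtain ⟨Γ₁, h1, hi1, hnz⟩ := hΓ'.exists_char_le h0 hi
      have ht : Nz t Γ₁ := hnz t (hs.norm t hs.mem)
      refine ⟨Γ₁ ⊔ Subgroup.zpowers t, sup_le ((h1.trans h0).trans hs.le)
        ((Subgroup.zpowers_le).2 hs.mem), ?_,
        (hpz.sub h1).step_up (step_sup_zpowers ht fun n hn => hf n (h0 (h1 hn)))⟩
      refine poly_relIndex_of_cover hi1 hs.le le_sup_left fun g hg => ?_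
      obtain ⟨n, a, ha, rfl⟩ := hs.gen g hg
      refine ⟨t ^ n * a * (t ^ n)⁻¹, (hs.norm _ (Γ.zpow_mem hs.mem n) a).1 ha, ?_⟩
      have e : (t ^ n * a * (t ^ n)⁻¹)⁻¹ * (t ^ n * a) = t ^ n := by group
      rw [e]
      exact Subgroup.mem_sup_right (Subgroup.zpow_mem_zpowers t n)
    · push Not at hf
      obtain ⟨n, hn, hn0⟩ := hf
      have hm : 0 < n.natAbs := Int.natAbs_pos.2 hn0
      have htm : t ^ n.natAbs ∈ Γ' := by
        rcases Int.natAbs_eq n with e | e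
        · rw [← zpow_natCast, ← e]
          exact hn
        · have : (n.natAbs : ℤ) = -n := by omega
          rw [← zpow_natCast, this, zpow_neg]
          exact Γ'.inv_mem hn
      refine ⟨Γ₀, h0.trans hs.le, Subgroup.relIndex_ne_zero_trans hi ?_, hpz.mono (Nat.le_succ l)⟩
      refine poly_relIndex_of_fun (ι := Fin n.natAbs) (fun i => t ^ (i : ℕ))
        (fun i => Γ.pow_mem hs.mem _) fun g hg => ?_
      obtain ⟨k, a, ha, rfl⟩ := hs.gen g hg
      obtain ⟨i, c, hc, e⟩ := poly_zpow_mod hm htm k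
      refine ⟨i, ?_⟩
      rw [e, mul_assoc, inv_mul_cancel_left]
      exact Γ'.mul_mem hc ha

end Pool.Agent.Lib.MP_36fb39_al
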