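import Pool.Agent.Lib.MP_36fb39_al.Defs

set_option autoImplicit false

namespace Pool.Agent.Lib.MP_36fb39_al

variable {G : Type*} [Group G]

theorem poly1_nz_iff {g : G} {H : Subgroup G} : Nz g H ↔ g ∈ Subgroup.normalizer (H : Set G) :=
  Subgroup.mem_normalizer_iff.symm

theorem Nz.one (H : Subgroup G) : Nz 1 H := poly1_nz_iff.2 (Subgroup.one_mem _)

theorem Nz.mul {g g' : G} {H : Subgroup G} (h : Nz g H) (h' : Nz g' H) : Nz (g * g') H :=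
  poly1_nz_iff.2 (Subgroup.mul_mem _ (poly1_nz_iff.1 h) (poly1_nz_iff.1 h'))

theorem Nz.inv {g : G} {H : Subgroup G} (h : Nz g H) : Nz g⁻¹ H :=
  poly1_nz_iff.2 (Subgroup.inv_mem _ (poly1_nz_iff.1 h))

theorem Nz.pow {g : G} {H : Subgroup G} (h : Nz g H) (n : ℕ) : Nz (g ^ n) H :=
  poly1_nz_iff.2 (Subgroup.pow_mem _ (poly1_nz_iff.1 h) n)

theorem Nz.zpow {g : G} {H : Subgroup G} (h : Nz g H) (n : ℤ) : Nz (g ^ n) H :=
  poly1_nz_iff.2 (Subgroup.zpow_mem _ (poly1_nz_iff.1 h) n)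

theorem Nz.of_mem {g : G} {H : Subgroup G} (h : g ∈ H) : Nz g H :=
  poly1_nz_iff.2 (Subgroup.le_normalizer h)

theorem Nz.inf {g : G} {H K : Subgroup G} (h : Nz g H) (h' : Nz g K) : Nz g (H ⊓ K) := by
  intro a
  rw [Subgroup.mem_inf, Subgroup.mem_inf, ← h a, ← h' a]

theorem poly1_nz_conj_inv {g : G} {H : Subgroup G} (h : Nz g H) {a : G} (ha : a ∈ H) :
    g⁻¹ * a * g ∈ H := by
  have := (h.inv a).1 ha
  rwa [inv_inv] at this

theorem Nz.of_forall {g : G} {H : Subgroup G} (h : ∀ a ∈ H, g * a * g⁻¹ ∈ H)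
    (h' : ∀ a ∈ H, g⁻¹ * a * g ∈ H) : Nz g H := by
  intro a
  refine ⟨h a, fun ha => ?_⟩
  have := h' _ ha
  have e : g⁻¹ * (g * a * g⁻¹) * g = a := by group
  rwa [e] at this

theorem poly1_conj_sup {g : G} {H K M : Subgroup G} (h : ∀ a ∈ H, g * a * g⁻¹ ∈ M)
    (h' : ∀ a ∈ K, g * a * g⁻¹ ∈ M) : ∀ a ∈ H ⊔ K, g * a * g⁻¹ ∈ M := by
  have : H ⊔ K ≤ M.comap (MulAut.conj g).toMonoidHom :=
    sup_le (fun a ha => h a ha) (fun a ha => h' a ha)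
  intro a ha
  exact this ha

theorem Nz.sup {g : G} {H K : Subgroup G} (h : Nz g H) (h' : Nz g K) : Nz g (H ⊔ K) := by
  refine Nz.of_forall (poly1_conj_sup (fun a ha => Subgroup.mem_sup_left ((h a).1 ha))
    (fun a ha => Subgroup.mem_sup_right ((h' a).1 ha))) ?_
  have := poly1_conj_sup (g := g⁻¹) (H := H) (K := K) (M := H ⊔ K)
    (fun a ha => Subgroup.mem_sup_left ((h.inv a).1 ha))
    (fun a ha => Subgroup.mem_sup_right ((h'.inv a).1 ha))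
  simpa only [inv_inv] using this

/-- elements normalizing `Z` form a subgroup, so it suffices to check generators. -/
theorem nz_sup_zpowers {N Z : Subgroup G} {y : G} (hN : ∀ g ∈ N, Nz g Z) (hy : Nz y Z) :
    ∀ g ∈ N ⊔ Subgroup.zpowers y, Nz g Z := by
  have : N ⊔ Subgroup.zpowers y ≤ Subgroup.normalizer (Z : Set G) :=
    sup_le (fun g hg => poly1_nz_iff.1 (hN g hg))
      ((Subgroup.zpowers_le).2 (poly1_nz_iff.1 hy))
  intro g hg
  exact poly1_nz_iff.2 (this hg)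

theorem mem_sup_zpowers {N : Subgroup G} {y : G} (hy : Nz y N) (g : G) :
    g ∈ N ⊔ Subgroup.zpowers y ↔ ∃ n : ℤ, ∃ a ∈ N, g = y ^ n * a := by
  constructor
  · intro hg
    let M : Subgroup G :=
      { carrier := {g | ∃ n : ℤ, ∃ a ∈ N, g = y ^ n * a}
        mul_mem' := by
          rintro _ _ ⟨n, a, ha, rfl⟩ ⟨m, b, hb, rfl⟩
          refine ⟨n + m, (y ^ m)⁻¹ * a * y ^ m * b,
            N.mul_mem (poly1_nz_conj_inv (hy.zpow m) ha) hb, ?_⟩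
          rw [zpow_add]; group
        one_mem' := ⟨0, 1, N.one_mem, by simp⟩
        inv_mem' := by
          rintro _ ⟨n, a, ha, rfl⟩
          refine ⟨-n, y ^ n * a⁻¹ * (y ^ n)⁻¹, ((hy.zpow n) _).1 (N.inv_mem ha), ?_⟩
          group }
    have : N ⊔ Subgroup.zpowers y ≤ M :=
      sup_le (fun a ha => ⟨0, a, ha, by simp⟩)
        ((Subgroup.zpowers_le).2 ⟨1, 1, N.one_mem, by simp⟩)
    exact this hg
  · rintro ⟨n, a, ha, rfl⟩
    exact Subgroup.mul_mem _ (Subgroup.mem_sup_right (Subgroup.zpow_mem_zpowers y n))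
      (Subgroup.mem_sup_left ha)

section Hom
variable {A : Type*} [AddCommGroup A] {Γ : Subgroup G} {φ : G → A}

theorem IsHomOn.one (h : IsHomOn Γ φ) : φ 1 = 0 := by
  have := h 1 Γ.one_mem 1 Γ.one_mem
  rw [mul_one] at this
  exact left_eq_add.1 this

theorem IsHomOn.inv (h : IsHomOn Γ φ) {a : G} (ha : a ∈ Γ) : φ a⁻¹ = -φ a := by
  have := h a ha a⁻¹ (Γ.inv_mem ha)
  rw [mul_inv_cancel, h.one] at this
  exact eq_neg_of_add_eq_zero_right this.symm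

theorem IsHomOn.pow (h : IsHomOn Γ φ) {a : G} (ha : a ∈ Γ) (n : ℕ) : φ (a ^ n) = n • φ a := by
  induction n with
  | zero => rw [pow_zero, zero_smul, h.one]
  | succ n ih => rw [pow_succ, h _ (Γ.pow_mem ha n) a ha, ih, succ_nsmul]

theorem IsHomOn.zpow (h : IsHomOn Γ φ) {a : G} (ha : a ∈ Γ) (n : ℤ) : φ (a ^ n) = n • φ a := by
  obtain ⟨m, rfl | rfl⟩ := n.eq_nat_or_neg
  · rw [zpow_natCast, h.pow ha, natCast_zsmul]
  · rw [zpow_neg, zpow_natCast, h.inv (Γ.pow_mem ha m), h.pow ha, neg_smul, natCast_zsmul]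

theorem IsHomOn.mono (h : IsHomOn Γ φ) {Γ' : Subgroup G} (hle : Γ' ≤ Γ) : IsHomOn Γ' φ :=
  fun a ha b hb => h a (hle ha) b (hle hb)

theorem IsHomOn.exists_ker (h : IsHomOn Γ φ) :
    ∃ K : Subgroup G, ∀ g, g ∈ K ↔ g ∈ Γ ∧ φ g = 0 :=
  ⟨{ carrier := {g | g ∈ Γ ∧ φ g = 0}
     mul_mem' := by
       rintro a b ⟨ha, ha'⟩ ⟨hb, hb'⟩
       exact ⟨Γ.mul_mem ha hb, by rw [h a ha b hb, ha', hb', add_zero]⟩
     one_mem' := ⟨Γ.one_mem, h.one⟩
     inv_mem' := by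
       rintro a ⟨ha, ha'⟩
       exact ⟨Γ.inv_mem ha, by rw [h.inv ha, ha', neg_zero]⟩ }, fun _ => Iff.rfl⟩

theorem IsHomOn.exists_monoidHom (h : IsHomOn Γ φ) :
    ∃ f : Γ →* Multiplicative A, ∀ g : Γ, f g = Multiplicative.ofAdd (φ g) :=
  ⟨MonoidHom.mk' (fun g => Multiplicative.ofAdd (φ g)) (fun a b => by
    rw [← ofAdd_add, ← h a a.2 b b.2]; rfl), fun _ => rfl⟩

theorem poly1_hom_conj (h : IsHomOn Γ φ) {g a : G} (hg : g ∈ Γ) (ha : a ∈ Γ) :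
    φ (g * a * g⁻¹) = φ a := by
  rw [h _ (Γ.mul_mem hg ha) _ (Γ.inv_mem hg), h g hg a ha, h.inv hg]
  abel

theorem poly1_ker_nz (h : IsHomOn Γ φ) {K : Subgroup G} (hK : ∀ g, g ∈ K ↔ g ∈ Γ ∧ φ g = 0)
    {g : G} (hg : g ∈ Γ) : Nz g K := by
  have key : ∀ g ∈ Γ, ∀ a ∈ K, g * a * g⁻¹ ∈ K := by
    intro g hg a ha
    obtain ⟨h1, h2⟩ := (hK a).1 ha
    exact (hK _).2 ⟨Γ.mul_mem (Γ.mul_mem hg h1) (Γ.inv_mem hg), by rw [poly1_hom_conj h hg h1, h2]⟩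
  refine Nz.of_forall (key g hg) ?_
  simpa only [inv_inv] using key g⁻¹ (Γ.inv_mem hg)

/-- kernels of homomorphisms to torsion-free groups are saturated. -/
theorem IsHomOn.sat (h : IsHomOn Γ φ) (htf : ∀ (n : ℕ) (v : A), 0 < n → n • v = 0 → v = 0)
    {K : Subgroup G} (hK : ∀ g, g ∈ K ↔ g ∈ Γ ∧ φ g = 0) : Sat K Γ := by
  refine ⟨fun g hg => ((hK g).1 hg).1, fun a ha b hb => ?_, fun g hg n hn hgn => ?_⟩
  · have h1 : a * b * a⁻¹ ∈ Γ := Γ.mul_mem (Γ.mul_mem ha hb) (Γ.inv_mem ha)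
    refine (hK _).2 ⟨Γ.mul_mem h1 (Γ.inv_mem hb), ?_⟩
    rw [h _ h1 _ (Γ.inv_mem hb), poly1_hom_conj h ha hb, h.inv hb, add_neg_cancel]
  · refine (hK _).2 ⟨hg, htf n _ hn ?_⟩
    rw [← h.pow hg, ((hK _).1 hgn).2]

end Hom

theorem cstep_sup_zpowers {N : Subgroup G} {y : G} (hy : Nz y N) :
    CStep N (N ⊔ Subgroup.zpowers y) y :=
  ⟨le_sup_left, Subgroup.mem_sup_right (Subgroup.mem_zpowers y),
    nz_sup_zpowers (fun _ hg => Nz.of_mem hg) hy, fun g hg => (mem_sup_zpowers hy g).1 hg⟩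

theorem step_sup_zpowers {N : Subgroup G} {y : G} (hy : Nz y N)
    (hf : ∀ n : ℤ, y ^ n ∈ N → n = 0) : Step N (N ⊔ Subgroup.zpowers y) y :=
  ⟨cstep_sup_zpowers hy, hf⟩

theorem step_semidirect {N' N : Subgroup G} {t y : G} (h : Step N' N t) (hy : Nz y N)
    (hy' : Nz y N') (hc : y * t * y⁻¹ * t⁻¹ ∈ N') (hf : ∀ n : ℤ, y ^ n ∈ N → n = 0) :
    Step (N' ⊔ Subgroup.zpowers y) (N ⊔ Subgroup.zpowers y) t := by
  have hyM : y ∈ N' ⊔ Subgroup.zpowers y := Subgroup.mem_sup_right (Subgroup.mem_zpowers y)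
  have ht := h.norm t h.mem
  have conj : ∀ s : G, (∀ a ∈ N', s * a * s⁻¹ ∈ N') → s * y * s⁻¹ ∈ N' ⊔ Subgroup.zpowers y →
      ∀ a ∈ N' ⊔ Subgroup.zpowers y, s * a * s⁻¹ ∈ N' ⊔ Subgroup.zpowers y := by
    intro s h1 h2
    refine poly1_conj_sup (fun a ha => Subgroup.mem_sup_left (h1 a ha)) ?_
    rintro _ ⟨n, rfl⟩
    have : s * y ^ n * s⁻¹ = (s * y * s⁻¹) ^ n := (conj_zpow).symm
    change s * y ^ n * s⁻¹ ∈ _
    rw [this]
    exact Subgroup.zpow_mem _ h2 n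
  have hnt : Nz t (N' ⊔ Subgroup.zpowers y) := by
    refine Nz.of_forall (conj t (fun a ha => (ht a).1 ha) ?_) ?_
    · have e : t * y * t⁻¹ = (y * t * y⁻¹ * t⁻¹)⁻¹ * y := by group
      rw [e]
      exact Subgroup.mul_mem _ (Subgroup.mem_sup_left (N'.inv_mem hc)) hyM
    · have := conj t⁻¹ (fun a ha => (ht.inv a).1 ha) (by
        have e : t⁻¹ * y * t⁻¹⁻¹ = (t⁻¹ * (y * t * y⁻¹ * t⁻¹) * t) * y := by group
        rw [e]
        exact Subgroup.mul_mem _ (Subgroup.mem_sup_left (poly1_nz_conj_inv ht hc)) hyM)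
      simpa only [inv_inv] using this
  refine ⟨⟨sup_le_sup_right h.le _, Subgroup.mem_sup_left h.mem, ?_, ?_⟩, ?_⟩
  · refine nz_sup_zpowers (fun g hg => ?_) (Nz.of_mem hyM)
    obtain ⟨n, a, ha, rfl⟩ := h.gen g hg
    exact (hnt.zpow n).mul (Nz.of_mem (Subgroup.mem_sup_left ha))
  · intro g hg
    obtain ⟨n, a, ha, rfl⟩ := (mem_sup_zpowers hy g).1 hg
    obtain ⟨m, b, hb, e⟩ := h.gen _ (((hy.zpow n) a).1 ha)
    refine ⟨m, b * y ^ n, Subgroup.mul_mem _ (Subgroup.mem_sup_left hb)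
      (Subgroup.zpow_mem _ hyM n), ?_⟩
    rw [← mul_assoc, ← e]; group
  · intro n hn
    obtain ⟨k, a, ha, e⟩ := (mem_sup_zpowers hy' _).1 hn
    have : y ^ k ∈ N := by
      have e' : y ^ k = t ^ n * a⁻¹ := by rw [e]; group
      rw [e']
      exact N.mul_mem (N.zpow_mem h.mem n) (N.inv_mem (h.le ha))
    have hk := hf k this
    rw [hk, zpow_zero, one_mul] at e
    exact h.free n (e ▸ ha)

theorem Step.lt {Γ' Γ : Subgroup G} {t : G} (h : Step Γ' Γ t) : Γ' < Γ := by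
  refine lt_of_le_of_ne h.le fun e => ?_
  have : t ^ (1 : ℤ) ∈ Γ' := by rw [zpow_one, e]; exact h.mem
  exact one_ne_zero (h.free 1 this)

theorem Step.not_bot {Γ' : Subgroup G} {t : G} : ¬ Step Γ' ⊥ t := fun h => not_lt_bot h.lt

theorem Step.exists_hom {Γ' Γ : Subgroup G} {t : G} (h : Step Γ' Γ t) :
    ∃ φ : G → ℤ, IsHomOn Γ φ ∧ φ t = 1 ∧ ∀ g, g ∈ Γ' ↔ g ∈ Γ ∧ φ g = 0 := by
  classical
  have uniq : ∀ (n m : ℤ) (a b : G), a ∈ Γ' → b ∈ Γ' → t ^ n * a = t ^ m * b → n = m := by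
    intro n m a b ha hb e
    have : t ^ (n - m) ∈ Γ' := by
      have e' : t ^ (n - m) = b * a⁻¹ := by
        have : t ^ n = t ^ m * b * a⁻¹ := by rw [← e]; group
        rw [sub_eq_neg_add, zpow_add, this]; group
      rw [e']
      exact Γ'.mul_mem hb (Γ'.inv_mem ha)
    have := h.free _ this
    omega
  choose! φ ψ hψ e using h.gen
  have spec : ∀ (n : ℤ) (a : G), a ∈ Γ' → φ (t ^ n * a) = n := by
    intro n a ha
    have hm : t ^ n * a ∈ Γ := Γ.mul_mem (Γ.zpow_mem h.mem n) (h.le ha)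
    exact uniq _ _ _ _ (hψ _ hm) ha (e _ hm).symm
  refine ⟨φ, fun a ha b hb => ?_, ?_, fun g => ⟨fun hg => ⟨h.le hg, ?_⟩, fun ⟨hg, h0⟩ => ?_⟩⟩
  · have e' : a * b = t ^ (φ a + φ b) * ((t ^ φ b)⁻¹ * ψ a * t ^ φ b * ψ b) := by
      conv_lhs => rw [e a ha, e b hb]
      rw [zpow_add]; group
    rw [e']
    exact spec _ _ (Γ'.mul_mem (poly1_nz_conj_inv ((h.norm t h.mem).zpow _) (hψ a ha)) (hψ b hb))
  · have := spec 1 1 Γ'.one_mem
    rwa [zpow_one, mul_one] at this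
  · have := spec 0 g hg
    rwa [zpow_zero, one_mul] at this
  · have := e g hg
    rw [h0, zpow_zero, one_mul] at this
    rw [this]
    exact hψ g hg

theorem poly1_step_of_gen {Γ K : Subgroup G} {φ : G → ℤ} (hφ : IsHomOn Γ φ) {t : G} (ht : t ∈ Γ)
    (h1 : φ t ≠ 0) (hd : ∀ g ∈ Γ, φ t ∣ φ g) (hK : ∀ g, g ∈ K ↔ g ∈ Γ ∧ φ g = 0) :
    Step K Γ t := by
  refine ⟨⟨fun g hg => ((hK g).1 hg).1, ht, fun g hg => poly1_ker_nz hφ hK hg, fun g hg => ?_⟩,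
    fun n hn => ?_⟩
  · obtain ⟨n, hn⟩ := hd g hg
    have hm : (t ^ n)⁻¹ ∈ Γ := Γ.inv_mem (Γ.zpow_mem ht n)
    refine ⟨n, (t ^ n)⁻¹ * g, (hK _).2 ⟨Γ.mul_mem hm hg, ?_⟩, by group⟩
    rw [hφ _ hm g hg, hφ.inv (Γ.zpow_mem ht n), hφ.zpow ht, hn, smul_eq_mul]
    ring
  · have := ((hK _).1 hn).2
    rw [hφ.zpow ht, smul_eq_mul] at this
    exact (mul_eq_zero.1 this).resolve_right h1

theorem step_of_hom {Γ K : Subgroup G} {φ : G → ℤ} (hφ : IsHomOn Γ φ) (hne : ∃ g ∈ Γ, φ g ≠ 0)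
    (hK : ∀ g, g ∈ K ↔ g ∈ Γ ∧ φ g = 0) : ∃ t, Step K Γ t := by
  let S : AddSubgroup ℤ :=
    { carrier := {n | ∃ g ∈ Γ, φ g = n}
      add_mem' := by
        rintro _ _ ⟨a, ha, rfl⟩ ⟨b, hb, rfl⟩
        exact ⟨a * b, Γ.mul_mem ha hb, hφ a ha b hb⟩
      zero_mem' := ⟨1, Γ.one_mem, hφ.one⟩
      neg_mem' := by
        rintro _ ⟨a, ha, rfl⟩
        exact ⟨a⁻¹, Γ.inv_mem ha, hφ.inv ha⟩ }
  obtain ⟨d, hd⟩ := Int.subgroup_cyclic S
  have hdS : d ∈ S := by rw [hd]; exact AddSubgroup.subset_closure rfl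
  obtain ⟨t, ht, rfl⟩ := hdS
  have hdiv : ∀ g ∈ Γ, φ t ∣ φ g := by
    intro g hg
    have : φ g ∈ S := ⟨g, hg, rfl⟩
    rw [hd, AddSubgroup.mem_closure_singleton] at this
    obtain ⟨n, hn⟩ := this
    exact ⟨n, by rw [← hn, smul_eq_mul, mul_comm]⟩
  refine ⟨t, poly1_step_of_gen hφ ht (fun h0 => ?_) hdiv hK⟩
  obtain ⟨g, hg, hg'⟩ := hne
  have := hdiv g hg
  rw [h0, zero_dvd_iff] at this
  exact hg' this

theorem step_of_hom_one {Γ K : Subgroup G} {φ : G → ℤ} (hφ : IsHomOn Γ φ) {t : G} (ht : t ∈ Γ)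
    (h1 : φ t = 1) (hK : ∀ g, g ∈ K ↔ g ∈ Γ ∧ φ g = 0) : Step K Γ t :=
  poly1_step_of_gen hφ ht (by rw [h1]; exact one_ne_zero) (fun g _ => by rw [h1]; exact one_dvd _)
    hK

/-- a nontrivial homomorphism vanishing on the bottom of a step has the bottom as kernel. -/
theorem poly1_ker_eq {Γ₁ Γ K : Subgroup G} {t : G} (h : Step Γ₁ Γ t) {φ : G → ℤ}
    (hφ : IsHomOn Γ φ) (hne : ∃ g ∈ Γ, φ g ≠ 0) (hK : ∀ g, g ∈ K ↔ g ∈ Γ ∧ φ g = 0)
    (h0 : ∀ g ∈ Γ₁, φ g = 0) : K = Γ₁ := by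
  have val : ∀ (n : ℤ) (a : G), a ∈ Γ₁ → φ (t ^ n * a) = n * φ t := by
    intro n a ha
    rw [hφ _ (Γ.zpow_mem h.mem n) a (h.le ha), hφ.zpow h.mem, h0 a ha, add_zero, smul_eq_mul]
  have ht : φ t ≠ 0 := by
    intro e
    obtain ⟨g, hg, hg'⟩ := hne
    obtain ⟨n, a, ha, rfl⟩ := h.gen g hg
    rw [val n a ha, e, mul_zero] at hg'
    exact hg' rfl
  refine le_antisymm (fun g hg => ?_) (fun g hg => (hK g).2 ⟨h.le hg, h0 g hg⟩)
  obtain ⟨hg1, hg2⟩ := (hK g).1 hg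
  obtain ⟨n, a, ha, rfl⟩ := h.gen g hg1
  rw [val n a ha] at hg2
  rw [(mul_eq_zero.1 hg2).resolve_right ht, zpow_zero, one_mul]
  exact ha

theorem poly1_two_steps {Γ₁ Γ₂ Γ : Subgroup G} {t₁ t₂ : G} (h₁ : Step Γ₁ Γ t₁)
    (h₂ : Step Γ₂ Γ t₂) (hne : Γ₁ ≠ Γ₂) : ∃ s, Step (Γ₁ ⊓ Γ₂) Γ₁ s := by
  obtain ⟨φ, hφ, h1, hK⟩ := h₂.exists_hom
  refine step_of_hom (hφ.mono h₁.le) ?_ fun g => ?_
  · by_contra hno
    push Not at hno
    exact hne (poly1_ker_eq h₁ hφ ⟨t₂, h₂.mem, by rw [h1]; exact one_ne_zero⟩ hK hno).symm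
  · rw [Subgroup.mem_inf, hK]
    exact ⟨fun h => ⟨h.1, h.2.2⟩, fun h => ⟨h.1, h₁.le h.1, h.2⟩⟩

theorem two_steps {Γ₁ Γ₂ Γ : Subgroup G} {t₁ t₂ : G} (h₁ : Step Γ₁ Γ t₁) (h₂ : Step Γ₂ Γ t₂)
    (hne : Γ₁ ≠ Γ₂) : (∃ s, Step (Γ₁ ⊓ Γ₂) Γ₁ s) ∧ ∃ s, Step (Γ₁ ⊓ Γ₂) Γ₂ s :=
  ⟨poly1_two_steps h₁ h₂ hne, by rw [inf_comm]; exact poly1_two_steps h₂ h₁ hne.symm⟩

theorem Step.map {G' : Type*} [Group G'] (f : G →* G') {Γ' Γ : Subgroup G} {t : G}
    (h : Step Γ' Γ t) (hk : ∀ g ∈ Γ, f g = 1 → g ∈ Γ') :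
    Step (Γ'.map f) (Γ.map f) (f t) := by
  refine ⟨⟨Subgroup.map_mono h.le, ⟨t, h.mem, rfl⟩, ?_, ?_⟩, ?_⟩
  · rintro _ ⟨g, hg, rfl⟩
    refine Nz.of_forall ?_ ?_
    · rintro _ ⟨a, ha, rfl⟩
      exact ⟨g * a * g⁻¹, (h.norm g hg a).1 ha, by simp⟩
    · rintro _ ⟨a, ha, rfl⟩
      exact ⟨g⁻¹ * a * g, poly1_nz_conj_inv (h.norm g hg) ha, by simp⟩
  · rintro _ ⟨g, hg, rfl⟩
    obtain ⟨n, a, ha, rfl⟩ := h.gen g hg
    exact ⟨n, f a, ⟨a, ha, rfl⟩, by simp⟩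
  · rintro n ⟨a, ha, e⟩
    have h1 : t ^ n * a⁻¹ ∈ Γ' :=
      hk _ (Γ.mul_mem (Γ.zpow_mem h.mem n) (Γ.inv_mem (h.le ha))) (by simp [e])
    have h2 := Γ'.mul_mem h1 ha
    rw [inv_mul_cancel_right] at h2
    exact h.free n h2

theorem Step.comap {G' : Type*} [Group G'] (f : G' →* G) {Γ' Γ : Subgroup G} {t : G'}
    (h : Step Γ' Γ (f t)) : Step (Γ'.comap f) (Γ.comap f) t := by
  refine ⟨⟨Subgroup.comap_mono h.le, h.mem, fun g hg a => ?_, fun g hg => ?_⟩, fun n hn => ?_⟩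
  · rw [Subgroup.mem_comap, Subgroup.mem_comap, map_mul, map_mul, map_inv]
    exact h.norm _ hg _
  · obtain ⟨n, a, ha, e⟩ := h.gen _ hg
    refine ⟨n, (t ^ n)⁻¹ * g, ?_, by group⟩
    rw [Subgroup.mem_comap, map_mul, map_inv, map_zpow, e, inv_mul_cancel_left]
    exact ha
  · rw [Subgroup.mem_comap, map_zpow] at hn
    exact h.free n hn

theorem Chain.le {Z Γ : Subgroup G} {m : ℕ} (h : Chain Z m Γ) : Z ≤ Γ := by
  induction h with
  | refl => exact le_rfl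
  | step _ hs ih => exact ih.trans hs.le

theorem Chain.trans {Z Γ' Γ : Subgroup G} {m n : ℕ} (h : Chain Z m Γ') (h' : Chain Γ' n Γ) :
    Chain Z (m + n) Γ := by
  induction h' with
  | refl => exact h
  | step _ hs ih => exact Chain.step ih hs

theorem Chain.single {Γ' Γ : Subgroup G} {t : G} (h : Step Γ' Γ t) : Chain Γ' 1 Γ :=
  Chain.step Chain.refl h

theorem Chain.root {Z Γ : Subgroup G} {m : ℕ} (h : Chain Z m Γ) :
    ∀ g ∈ Γ, ∀ n : ℕ, 0 < n → g ^ n ∈ Z → g ∈ Z := by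
  induction h with
  | refl => exact fun g hg _ _ _ => hg
  | step hc hs ih =>
    intro g hg n hn hgn
    obtain ⟨φ, hφ, -, hK⟩ := hs.exists_hom
    have h0 := ((hK _).1 (hc.le hgn)).2
    rw [hφ.pow hg, nsmul_eq_mul] at h0
    have h1 : φ g = 0 := (mul_eq_zero.1 h0).resolve_left (by exact_mod_cast hn.ne')
    exact ih g ((hK g).2 ⟨hg, h1⟩) n hn hgn

theorem chain_of_hom {Γ K : Subgroup G} {m : ℕ} {π : G → (Fin m → ℤ)} (hπ : IsHomOn Γ π)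
    (hs : ∀ v, ∃ g ∈ Γ, π g = v) (hK : ∀ g, g ∈ K ↔ g ∈ Γ ∧ π g = 0) : Chain K m Γ := by
  induction m generalizing Γ with
  | zero =>
    have : K = Γ := by
      ext g
      rw [hK]
      exact ⟨fun h => h.1, fun h => ⟨h, Subsingleton.elim _ _⟩⟩
    rw [this]
    exact Chain.refl
  | succ m ih =>
    have hφ : IsHomOn Γ (fun g => π g (Fin.last m)) := fun a ha b hb => by
      simp only [hπ a ha b hb, Pi.add_apply]
    obtain ⟨Γ', hΓ'⟩ := hφ.exists_ker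
    obtain ⟨t, ht, ht'⟩ := hs (fun _ => 1)
    have hstep : Step Γ' Γ t := step_of_hom_one hφ ht (by simp only [ht']) hΓ'
    refine Chain.step (ih (Γ := Γ') (π := fun g i => π g i.castSucc) ?_ ?_ ?_) hstep
    · intro a ha b hb
      funext i
      simp only [hπ a (hstep.le ha) b (hstep.le hb), Pi.add_apply]
    · intro v
      obtain ⟨g, hg, e⟩ := hs (Fin.snoc (α := fun _ => ℤ) v 0)
      refine ⟨g, (hΓ' g).2 ⟨hg, ?_⟩, ?_⟩
      · simp only [e, Fin.snoc_last]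
      · funext i
        simp only [e, Fin.snoc_castSucc]
    · intro g
      rw [hK, hΓ']
      constructor
      · rintro ⟨h1, h2⟩
        refine ⟨⟨h1, by simp only [h2, Pi.zero_apply]⟩, ?_⟩
        funext i
        simp only [h2, Pi.zero_apply]
      · rintro ⟨⟨h1, h2⟩, h3⟩
        refine ⟨h1, ?_⟩
        funext i
        induction i using Fin.lastCases with
        | last => exact h2
        | cast i => exact congrFun h3 i

theorem Sat.nz {K N : Subgroup G} (h : Sat K N) : ∀ g ∈ N, Nz g K := by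
  have key : ∀ g ∈ N, ∀ a ∈ K, g * a * g⁻¹ ∈ K := by
    intro g hg a ha
    have := K.mul_mem (h.comm g hg a (h.le ha)) ha
    rwa [inv_mul_cancel_right] at this
  intro g hg
  refine Nz.of_forall (key g hg) ?_
  simpa only [inv_inv] using key g⁻¹ (N.inv_mem hg)

theorem Sat.exists_hom {K N : Subgroup G} (h : Sat K N) (hN : N.FG) :
    ∃ (m : ℕ) (π : G → (Fin m → ℤ)), IsHomOn N π ∧ (∀ v, ∃ g ∈ N, π g = v) ∧
      ∀ g, g ∈ K ↔ g ∈ N ∧ π g = 0 := by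
  classical
  have hnorm : (K.subgroupOf N).Normal :=
    ⟨fun a ha g => Subgroup.mem_subgroupOf.2
      ((h.nz g g.2 a).1 (Subgroup.mem_subgroupOf.1 ha))⟩
  have : Group.FG N := (Group.fg_iff_subgroup_fg N).2 hN
  let : CommGroup (N ⧸ K.subgroupOf N) :=
    { (inferInstance : Group (N ⧸ K.subgroupOf N)) with
      mul_comm := by
        intro a b
        obtain ⟨a, rfl⟩ := QuotientGroup.mk_surjective a
        obtain ⟨b, rfl⟩ := QuotientGroup.mk_surjective b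
        rw [← QuotientGroup.mk_mul, ← QuotientGroup.mk_mul, QuotientGroup.eq,
          Subgroup.mem_subgroupOf]
        have := h.comm _ (N.inv_mem b.2) _ (N.inv_mem a.2)
        have e : ((a * b)⁻¹ * (b * a) : N).val =
            (b : G)⁻¹ * (a : G)⁻¹ * (b : G)⁻¹⁻¹ * (a : G)⁻¹⁻¹ := by
          push_cast; group
        rw [e]
        exact this }
  have : Group.FG (N ⧸ K.subgroupOf N) := inferInstance
  have : Module.Finite ℤ (Additive (N ⧸ K.subgroupOf N)) :=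
    Module.Finite.iff_addGroup_fg.2 inferInstance
  have : IsAddTorsionFree (Additive (N ⧸ K.subgroupOf N)) := by
    refine ⟨fun n hn a b hab => ?_⟩
    have key : ∀ c : N ⧸ K.subgroupOf N, c ^ n = 1 → c = 1 := by
      intro c hc
      obtain ⟨c, rfl⟩ := QuotientGroup.mk_surjective c
      rw [← QuotientGroup.mk_pow, QuotientGroup.eq_one_iff, Subgroup.mem_subgroupOf] at hc
      rw [QuotientGroup.eq_one_iff, Subgroup.mem_subgroupOf]
      exact h.root c c.2 n (Nat.pos_of_ne_zero hn) hc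
    have h1 : n • (a - b) = 0 := by
      rw [nsmul_sub]
      exact sub_eq_zero.2 hab
    have h2 := key (Additive.toMul (a - b)) h1
    exact sub_eq_zero.1 h2
  let e := (Module.finBasis ℤ (Additive (N ⧸ K.subgroupOf N))).equivFun
  refine ⟨_, fun g => if hg : g ∈ N then
    e (Additive.ofMul (QuotientGroup.mk (⟨g, hg⟩ : N) : N ⧸ K.subgroupOf N)) else 0,
    fun a ha b hb => ?_, fun v => ?_, fun g => ?_⟩
  · simp only [dif_pos ha, dif_pos hb, dif_pos (N.mul_mem ha hb)]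
    rw [← map_add, ← ofMul_mul, ← QuotientGroup.mk_mul]
    rfl
  · obtain ⟨c, hc⟩ := QuotientGroup.mk_surjective (Additive.toMul (e.symm v))
    refine ⟨c, c.2, ?_⟩
    simp only [dif_pos c.2, Subtype.coe_eta, hc, ofMul_toMul, LinearEquiv.apply_symm_apply]
  · constructor
    · intro hg
      refine ⟨h.le hg, ?_⟩
      simp only [dif_pos (h.le hg)]
      rw [(QuotientGroup.eq_one_iff _).2 (Subgroup.mem_subgroupOf.2 hg), ofMul_one, map_zero]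
    · rintro ⟨h1, h2⟩
      simp only [dif_pos h1] at h2
      rw [map_eq_zero_iff e e.injective] at h2
      have h3 : (QuotientGroup.mk (⟨g, h1⟩ : N) : N ⧸ K.subgroupOf N) = 1 := h2
      exact Subgroup.mem_subgroupOf.1 ((QuotientGroup.eq_one_iff _).1 h3)

theorem Sat.chain {K N : Subgroup G} (h : Sat K N) (hN : N.FG) : ∃ m, Chain K m N := by
  obtain ⟨m, π, h1, h2, h3⟩ := h.exists_hom hN
  exact ⟨m, chain_of_hom h1 h2 h3⟩

theorem Sat.of_le {K M N : Subgroup G} (h : Sat K N) (h₁ : K ≤ M) (h₂ : M ≤ N) : Sat K M :=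
  ⟨h₁, fun a ha b hb => h.comm a (h₂ ha) b (h₂ hb), fun g hg => h.root g (h₂ hg)⟩

theorem poly1_pc_succ {l : ℕ} {Γ : Subgroup G} (h : PC l Γ) : PC (l + 1) Γ :=
  PC.step (t := 1) h ⟨le_rfl, Γ.one_mem, fun _ hg => Nz.of_mem hg,
    fun g hg => ⟨0, g, hg, by simp⟩⟩

theorem PZ.pc {h : ℕ} {Γ : Subgroup G} (hΓ : PZ h Γ) : PC h Γ := by
  obtain ⟨m, hm, hc⟩ := hΓ
  have h1 : PC m Γ := by
    clear hm
    induction hc with
    | refl => exact PC.bot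
    | step _ hs ih => exact PC.step ih hs.toCStep
  induction hm with
  | refl => exact h1
  | step _ ih => exact poly1_pc_succ ih

theorem PZ.mono {h h' : ℕ} {Γ : Subgroup G} (hΓ : PZ h Γ) (hh : h ≤ h') : PZ h' Γ := by
  obtain ⟨m, hm, hc⟩ := hΓ
  exact ⟨m, hm.trans hh, hc⟩

theorem PZ.step_up {h : ℕ} {Γ' Γ : Subgroup G} {t : G} (hΓ : PZ h Γ') (hs : Step Γ' Γ t) :
    PZ (h + 1) Γ := by
  obtain ⟨m, hm, hc⟩ := hΓ
  exact ⟨m + 1, Nat.succ_le_succ hm, Chain.step hc hs⟩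

/-- going up along the kernel of a possibly trivial homomorphism. -/
theorem poly1_ker_up {h : ℕ} {K Γ : Subgroup G} {φ : G → ℤ} (hφ : IsHomOn Γ φ)
    (hK : ∀ g, g ∈ K ↔ g ∈ Γ ∧ φ g = 0) (hz : PZ h K) : PZ (h + 1) Γ := by
  by_cases hne : ∃ g ∈ Γ, φ g ≠ 0
  · obtain ⟨t, ht⟩ := step_of_hom hφ hne hK
    exact hz.step_up ht
  · push Not at hne
    have : K = Γ := by
      ext g
      rw [hK]
      exact ⟨fun h => h.1, fun h => ⟨h, hne g h⟩⟩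
    rw [← this]
    exact hz.mono (Nat.le_succ h)

theorem poly1_pull {G' : Type*} [Group G'] (f : G' →* G) (H : Subgroup G')
    (hf : ∀ g ∈ H, f g = 1 → g = 1) {m : ℕ} {Γ : Subgroup G} (hc : Chain ⊥ m Γ) :
    PZ m (H ⊓ Γ.comap f) := by
  induction hc with
  | refl =>
    refine ⟨0, le_rfl, ?_⟩
    have : H ⊓ (⊥ : Subgroup G).comap f = ⊥ :=
      le_bot_iff.1 fun g hg => Subgroup.mem_bot.2 (hf g hg.1 (Subgroup.mem_bot.1 hg.2))
    rw [this]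
    exact Chain.refl
  | step _ hs ih =>
    obtain ⟨φ, hφ, -, hK⟩ := hs.exists_hom
    refine poly1_ker_up (φ := fun g => φ (f g)) (fun a ha b hb => ?_) (fun g => ?_) ih
    · simp only [map_mul]
      exact hφ _ ha.2 _ hb.2
    · simp only [Subgroup.mem_inf, Subgroup.mem_comap, hK, and_assoc]

theorem PZ.sub {h : ℕ} {Γ H : Subgroup G} (hΓ : PZ h Γ) (hH : H ≤ Γ) : PZ h H := by
  obtain ⟨m, hm, hc⟩ := hΓ
  have := poly1_pull (MonoidHom.id G) H (fun g _ hg => hg) hc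
  rw [Subgroup.comap_id, inf_eq_left.2 hH] at this
  exact this.mono hm

theorem PZ.map {G' : Type*} [Group G'] (f : G →* G') (hf : Function.Injective f) {h : ℕ}
    {Γ : Subgroup G} (hΓ : PZ h Γ) : PZ h (Γ.map f) := by
  obtain ⟨m, hm, hc⟩ := hΓ
  refine ⟨m, hm, ?_⟩
  clear hm
  induction hc with
  | refl => rw [Subgroup.map_bot]; exact Chain.refl
  | step _ hs ih =>
    refine Chain.step ih (hs.map f fun g _ hg => ?_)
    rw [(map_eq_one_iff f hf).1 hg]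
    exact Subgroup.one_mem _

theorem PZ.comap {G' : Type*} [Group G'] (f : G' →* G) (hf : Function.Injective f) {h : ℕ}
    {Γ : Subgroup G} (hΓ : PZ h Γ) : PZ h (Γ.comap f) := by
  obtain ⟨m, hm, hc⟩ := hΓ
  have := poly1_pull f ⊤ (fun g _ hg => (map_eq_one_iff f hf).1 hg) hc
  rw [top_inf_eq] at this
  exact this.mono hm

theorem pz_zero_iff {Γ : Subgroup G} : PZ 0 Γ ↔ Γ = ⊥ := by
  constructor
  · rintro ⟨m, hm, hc⟩
    obtain rfl := Nat.le_zero.1 hm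
    cases hc
    rfl
  · rintro rfl
    exact ⟨0, le_rfl, Chain.refl⟩

/-- the kernel lemma. -/
theorem poly1_ker_down {m : ℕ} {Γ : Subgroup G} (hc : Chain ⊥ m Γ) :
    ∀ (φ : G → ℤ) (K : Subgroup G), IsHomOn Γ φ → (∃ g ∈ Γ, φ g ≠ 0) →
      (∀ g, g ∈ K ↔ g ∈ Γ ∧ φ g = 0) → ∃ m', m = m' + 1 ∧ PZ m' K := by
  induction hc with
  | refl =>
    rintro φ K hφ ⟨g, hg, hg'⟩ -
    rw [Subgroup.mem_bot.1 hg] at hg'
    exact absurd hφ.one hg'
  | @step m Γ₁ Γ t hc hs ih =>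
    intro φ K hφ hne hK
    refine ⟨m, rfl, ?_⟩
    by_cases h0 : ∃ g ∈ Γ₁, φ g ≠ 0
    · obtain ⟨m', rfl, hz⟩ := ih φ (K ⊓ Γ₁) (hφ.mono hs.le) h0 (fun g => by
        rw [Subgroup.mem_inf, hK]
        exact ⟨fun h => ⟨h.2, h.1.2⟩, fun h => ⟨⟨hs.le h.1, h.2⟩, h.1⟩⟩)
      obtain ⟨ψ, hψ, -, hK'⟩ := hs.exists_hom
      refine poly1_ker_up (hψ.mono fun g hg => ((hK g).1 hg).1) (fun g => ?_) hz
      rw [Subgroup.mem_inf, hK']
      exact ⟨fun h => ⟨h.1, h.2.2⟩, fun h => ⟨h.1, ((hK g).1 h.1).1, h.2⟩⟩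
    · push Not at h0
      rw [poly1_ker_eq hs hφ hne hK h0]
      exact ⟨m, le_rfl, hc⟩

theorem poly1_pz_ker {h : ℕ} {Γ K : Subgroup G} (hΓ : PZ (h + 1) Γ) {φ : G → ℤ}
    (hφ : IsHomOn Γ φ) (hne : ∃ g ∈ Γ, φ g ≠ 0) (hK : ∀ g, g ∈ K ↔ g ∈ Γ ∧ φ g = 0) :
    PZ h K := by
  obtain ⟨m, hm, hc⟩ := hΓ
  obtain ⟨m', rfl, hz⟩ := poly1_ker_down hc φ K hφ hne hK
  exact hz.mono (Nat.le_of_succ_le_succ hm)

theorem PZ.step_down {h : ℕ} {Γ' Γ : Subgroup G} {t : G} (hΓ : PZ (h + 1) Γ)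
    (hs : Step Γ' Γ t) : PZ h Γ' := by
  obtain ⟨φ, hφ, h1, hK⟩ := hs.exists_hom
  exact poly1_pz_ker hΓ hφ ⟨t, hs.mem, by rw [h1]; exact one_ne_zero⟩ hK

theorem PZ.exists_step {h : ℕ} {Γ : Subgroup G} (hΓ : PZ h Γ) (hne : Γ ≠ ⊥) :
    ∃ Γ' t, Step Γ' Γ t := by
  obtain ⟨m, -, hc⟩ := hΓ
  cases hc with
  | refl => exact absurd rfl hne
  | step _ hs => exact ⟨_, _, hs⟩

theorem PZ.tf {h : ℕ} {Γ : Subgroup G} (hΓ : PZ h Γ) :
    ∀ g ∈ Γ, ∀ n : ℕ, 0 < n → g ^ n = 1 → g = 1 := by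
  obtain ⟨m, -, hc⟩ := hΓ
  intro g hg n hn e
  exact Subgroup.mem_bot.1 (hc.root g hg n hn (Subgroup.mem_bot.2 e))

theorem poly1_chain_fg {m : ℕ} {Γ : Subgroup G} (hc : Chain ⊥ m Γ) : Γ.FG := by
  classical
  induction hc with
  | refl => exact ⟨∅, by simp⟩
  | @step m Γ₁ Γ t _ hs ih =>
    obtain ⟨S, hS⟩ := ih
    refine ⟨insert t S, le_antisymm ?_ fun g hg => ?_⟩
    · rw [Subgroup.closure_le, Finset.coe_insert]
      refine Set.insert_subset hs.mem fun a ha => hs.le ?_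
      rw [← hS]
      exact Subgroup.subset_closure ha
    · obtain ⟨n, a, ha, rfl⟩ := hs.gen g hg
      refine Subgroup.mul_mem _ (Subgroup.zpow_mem _ (Subgroup.subset_closure ?_) n) ?_
      · exact Finset.mem_coe.2 (Finset.mem_insert_self t S)
      · rw [← hS] at ha
        exact Subgroup.closure_mono (Finset.coe_subset.2 (Finset.subset_insert t S)) ha

theorem PZ.sat_lt {h : ℕ} {K N : Subgroup G} (hN : PZ (h + 1) N) (hK : Sat K N) (hne : K ≠ N) :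
    PZ h K := by
  have hfg : N.FG := by
    obtain ⟨m, -, hc⟩ := hN
    exact poly1_chain_fg hc
  obtain ⟨m, π, h1, -, h3⟩ := hK.exists_hom hfg
  obtain ⟨g, hg, hg'⟩ := SetLike.exists_of_lt (lt_of_le_of_ne hK.le hne)
  have hπ : π g ≠ 0 := fun e => hg' ((h3 g).2 ⟨hg, e⟩)
  obtain ⟨i, hi⟩ := Function.ne_iff.1 hπ
  have hφ : IsHomOn N (fun g => π g i) := fun a ha b hb => by
    simp only [h1 a ha b hb, Pi.add_apply]
  obtain ⟨K', hK'⟩ := hφ.exists_ker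
  refine (poly1_pz_ker hN hφ ⟨g, hg, hi⟩ hK').sub fun a ha => ?_
  obtain ⟨h4, h5⟩ := (h3 a).1 ha
  exact (hK' a).2 ⟨h4, by simp only [h5, Pi.zero_apply]⟩

theorem pz_free (r : ℕ) : PZ r (⊤ : Subgroup (Multiplicative (Fin r → ℤ))) :=
  ⟨r, le_rfl, chain_of_hom (π := fun g => Multiplicative.toAdd g) (fun _ _ _ _ => rfl)
    (fun v => ⟨Multiplicative.ofAdd v, Subgroup.mem_top _, rfl⟩)
    (fun g => by simp only [Subgroup.mem_bot, Subgroup.mem_top, true_and, toAdd_eq_zero])⟩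

/-- lifting a homomorphism along a surjection onto `ℤ ^ m`. -/
theorem exists_lift_hom {H : Type*} [Group H] {N : Subgroup G} {m : ℕ} {π : G → (Fin m → ℤ)}
    (hπ : IsHomOn N π) (hs : ∀ v, ∃ g ∈ N, π g = v) (f : N →* H)
    (hf : ∀ g : N, π g = 0 → f g = 1) :
    ∃ f' : Multiplicative (Fin m → ℤ) →* H, ∀ g : N, f' (Multiplicative.ofAdd (π g)) = f g := by
  have key : ∀ a b : N, π a = π b → f a = f b := by
    intro a b e
    have := hf (a⁻¹ * b) (by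
      rw [Subgroup.coe_mul, Subgroup.coe_inv, hπ _ (N.inv_mem a.2) _ b.2, hπ.inv a.2, e,
        neg_add_cancel])
    rw [map_mul, map_inv] at this
    exact inv_mul_eq_one.1 this
  choose s hsN hsv using hs
  refine ⟨MonoidHom.mk' (fun v => f ⟨s (Multiplicative.toAdd v), hsN _⟩) fun u v => ?_,
    fun g => key _ _ (hsv _)⟩
  rw [← map_mul]
  refine key _ _ ?_
  change π (s _) = π (s _ * s _)
  rw [hπ _ (hsN _) _ (hsN _), hsv, hsv, hsv, toAdd_mul]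

theorem poly1_lift_end {N : Subgroup G} {m : ℕ} {π : G → (Fin m → ℤ)}
    (hπ : IsHomOn N π) (hs : ∀ v, ∃ g ∈ N, π g = v) (β : MulAut G) (hβ : ∀ g ∈ N, β g ∈ N)
    (hk : ∀ g ∈ N, π g = 0 → π (β g) = 0) :
    ∃ α : Multiplicative (Fin m → ℤ) →* Multiplicative (Fin m → ℤ), ∀ g ∈ N,
      α (Multiplicative.ofAdd (π g)) = Multiplicative.ofAdd (π (β g)) := by
  have h1 : IsHomOn N (fun g => π (β g)) := fun a ha b hb => by
    simp only [map_mul]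
    exact hπ _ (hβ a ha) _ (hβ b hb)
  obtain ⟨f, hf⟩ := h1.exists_monoidHom
  obtain ⟨α, hα⟩ := exists_lift_hom hπ hs f (fun g hg => by
    rw [hf]
    simp only [hk g g.2 hg, ofAdd_zero])
  exact ⟨α, fun g hg => (hα ⟨g, hg⟩).trans (hf _)⟩

/-- an automorphism of `N` preserving the kernel descends to `ℤ ^ m`. -/
theorem exists_lift_aut {N : Subgroup G} {m : ℕ} {π : G → (Fin m → ℤ)}
    (hπ : IsHomOn N π) (hs : ∀ v, ∃ g ∈ N, π g = v) (β : MulAut G) (hβ : ∀ g, g ∈ N ↔ β g ∈ N)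
    (hk : ∀ g ∈ N, π g = 0 ↔ π (β g) = 0) :
    ∃ α : MulAut (Multiplicative (Fin m → ℤ)), ∀ g ∈ N,
      α (Multiplicative.ofAdd (π g)) = Multiplicative.ofAdd (π (β g)) := by
  have hβ' : ∀ g ∈ N, β.symm g ∈ N := fun g hg =>
    (hβ _).2 (by rw [MulEquiv.apply_symm_apply]; exact hg)
  obtain ⟨α, hα⟩ := poly1_lift_end hπ hs β (fun g hg => (hβ g).1 hg) (fun g hg => (hk g hg).1)
  obtain ⟨α', hα'⟩ := poly1_lift_end hπ hs β.symm hβ' (fun g hg h0 =>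
    (hk _ (hβ' g hg)).2 (by rw [MulEquiv.apply_symm_apply]; exact h0))
  refine ⟨MonoidHom.toMulEquiv α α' ?_ ?_, hα⟩
  · refine MonoidHom.ext fun v => ?_
    obtain ⟨g, hg, e⟩ := hs (Multiplicative.toAdd v)
    have hv : v = Multiplicative.ofAdd (π g) := by rw [e, ofAdd_toAdd]
    rw [hv, MonoidHom.comp_apply, hα g hg, hα' _ ((hβ g).1 hg), MulEquiv.symm_apply_apply,
      MonoidHom.id_apply]
  · refine MonoidHom.ext fun v => ?_
    obtain ⟨g, hg, e⟩ := hs (Multiplicative.toAdd v)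
    have hv : v = Multiplicative.ofAdd (π g) := by rw [e, ofAdd_toAdd]
    rw [hv, MonoidHom.comp_apply, hα' g hg, hα _ (hβ' g hg), MulEquiv.apply_symm_apply,
      MonoidHom.id_apply]

end Pool.Agent.Lib.MP_36fb39_al
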